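import Pool.Agent.Lib.MP_1595d8_lc.H16Main
import Pool.Agent.Shared.PolyTime.List

/-!
The Weisfeiler-Leman refinement on tuples runs in polynomial time and decides isomorphism of
graphs with a decomposition of bounded width.
-/

open Set N68a2faeb N487b59b3 Pool.Agent.Shared.PolyTime

namespace Pool.Agent.Lib.MP_1595d8_lc.H16

/-- Inputs: two Boolean matrices. -/
abbrev Inp : Type := List (List Bool) × List (List Bool)

/-- Tuples of vertices, marked with their graph. -/
abbrev Tup : Type := Bool × List ℕ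

/-- All lists of length `k` with entries below `n`. -/
def tups (n : ℕ) : ℕ → List (List ℕ)
  | 0 => [[]]
  | k + 1 => (List.range n).flatMap fun a => (tups n k).map fun l => a :: l

theorem mem_tups {n k : ℕ} {l : List ℕ} : l ∈ tups n k ↔ l.length = k ∧ ∀ a ∈ l, a < n := by
  induction k generalizing l with
  | zero => cases l <;> simp [tups]
  | succ k ih =>
    cases l with
    | nil => simp [tups]
    | cons b l => simp [tups, ih, and_left_comm]

/-- One of the two matrices. -/
def mat (x : Inp) (b : Bool) : List (List Bool) := bif b then x.2 else x.1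

/-- All marked tuples. -/
def allT (k : ℕ) (x : Inp) : List Tup :=
  (tups x.1.length k).map (fun l => (false, l)) ++ (tups x.2.length k).map fun l => (true, l)

theorem mem_allT {k : ℕ} {x : Inp} {s : Tup} :
    s ∈ allT k x ↔ s.2.length = k ∧ ∀ a ∈ s.2, a < (mat x s.1).length := by
  obtain ⟨b, l⟩ := s
  cases b <;> simp [allT, mem_tups, mat]

/-- The isomorphism type of a tuple. -/
def atp (k : ℕ) (x : Inp) (s : Tup) : List (List (Bool × Bool)) :=
  (List.range k).map fun i => (List.range k).map fun j =>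
    (s.2.getD i 0 == s.2.getD j 0, ((mat x s.1).getD (s.2.getD i 0) []).getD (s.2.getD j 0) false)

/-- The numbers of ways to move one entry into a given class. -/
def prof (k : ℕ) (x : Inp) (E : List (Tup × Tup)) (s : Tup) : List (List ℕ) :=
  (List.range k).map fun j => (allT k x).map fun u =>
    (List.range (mat x s.1).length).countP fun w => decide (((s.1, s.2.set j w), u) ∈ E)

/-- The initial relation. -/
def init (k : ℕ) (x : Inp) : List (Tup × Tup) :=
  ((allT k x).product (allT k x)).filter fun p => atp k x p.1 == atp k x p.2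

/-- One refinement step. -/
def step (k : ℕ) (x : Inp) (E : List (Tup × Tup)) : List (Tup × Tup) :=
  E.filter fun p => prof k x E p.1 == prof k x E p.2

/-- The stable relation. -/
def final (k : ℕ) (x : Inp) : List (Tup × Tup) := (step k x)^[(init k x).length] (init k x)

/-- The test. -/
def wl (k : ℕ) (x : Inp) : Bool :=
  x.1.length == x.2.length && (x.1.isEmpty || (final k x).any fun p => !p.1.1 && p.2.1)

theorem pt_tups {α : Type} [N487b59b3 α] {n : α → ℕ} (hn : IsPolyTime n) (hb : PolyBdd n)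
    (k : ℕ) : IsPolyTime fun x => tups (n x) k := by
  induction k with
  | zero => exact .const _
  | succ k ih =>
    exact IsPolyTime.flatMap (f := fun x a => (tups (n x) k).map fun l => a :: l)
      (IsPolyTime.map (f := fun (p : α × ℕ) l => p.2 :: l) (by fun_prop)
        (ih.comp (g := Prod.fst) (by fun_prop))) (hn.range hb)

@[fun_prop]
theorem pt_allT (k : ℕ) : IsPolyTime (allT k) := by
  have h1 := pt_tups (n := fun x : Inp => x.1.length) (by fun_prop) (by fun_prop) k
  have h2 := pt_tups (n := fun x : Inp => x.2.length) (by fun_prop) (by fun_prop) k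
  unfold allT
  fun_prop

@[fun_prop]
theorem pt_init (k : ℕ) : IsPolyTime (init k) := by
  unfold init atp mat
  fun_prop

theorem pt_step (k : ℕ) : IsPolyTime fun p : Inp × List (Tup × Tup) => step k p.1 p.2 := by
  unfold step prof mat
  fun_prop

@[fun_prop]
theorem pt_final (k : ℕ) : IsPolyTime (final k) :=
  IsPolyTime.iterate_inv (pt_step k) (pt_init k) (by fun_prop) (by fun_prop)
    (fun x E => E.Sublist (init k x)) (fun _ => .refl _)
    (fun _ _ h => List.filter_sublist.trans h) (fun x => bsize (init k x)) (by fun_prop)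
    fun _ _ h => bsize_sublist h

theorem pt_wl (k : ℕ) : IsPolyTime (wl k) := by
  unfold wl
  fun_prop

theorem iterate_fixed {α : Type} {f : List α → List α} (hf : ∀ E, (f E).Sublist E) (E : List α) :
    f (f^[E.length] E) = f^[E.length] E := by
  have key : ∀ n, f (f^[n] E) = f^[n] E ∨ (f^[n] E).length + n ≤ E.length := by
    intro n
    induction n with
    | zero => exact Or.inr (by simp)
    | succ n ih =>
      rw [Function.iterate_succ_apply']
      by_cases h : f (f^[n] E) = f^[n] E
      · exact Or.inl (by rw [h, h])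
      · have h1 := (hf (f^[n] E)).length_le
        have h2 : (f (f^[n] E)).length ≠ (f^[n] E).length := fun e => h ((hf _).eq_of_length e)
        exact Or.inr (by have := ih.resolve_left h; omega)
  refine (key E.length).elim id fun h => (hf _).eq_of_length_le (by omega)

/-- Relations on tuples that come from an equivalence refining the isomorphism type. -/
def Good (k : ℕ) (x : Inp) (E : List (Tup × Tup)) : Prop :=
  ∃ r : Tup → Tup → Prop, Equivalence r ∧ (∀ s t, r s t → atp k x s = atp k x t) ∧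
    ∀ s t, (s, t) ∈ E ↔ s ∈ allT k x ∧ t ∈ allT k x ∧ r s t

variable {k : ℕ} {x : Inp} {E : List (Tup × Tup)}

theorem good_init : Good k x (init k x) :=
  ⟨fun s t => atp k x s = atp k x t, eq_equivalence.comap _, fun _ _ => id, fun s t => by
    simp [init, List.pair_mem_product, and_assoc]⟩

theorem Good.step (h : Good k x E) : Good k x (step k x E) :=
  let ⟨r, h1, h2, h3⟩ := h
  ⟨fun s t => r s t ∧ prof k x E s = prof k x E t, equiv_and h1 (eq_equivalence.comap _),
    fun s t h => h2 s t h.1, fun s t => by simp [H16.step, h3, and_assoc]⟩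

theorem good_iter (i : ℕ) : Good k x ((step k x)^[i] (init k x)) := by
  induction i with
  | zero => exact good_init
  | succ i ih => rw [Function.iterate_succ_apply']; exact ih.step

theorem countP_range (m : ℕ) (p : ℕ → Prop) [DecidablePred p] :
    (List.range m).countP (fun w => decide (p w)) = Nat.card {w : Fin m // p w} := by
  rw [Nat.card_eq_fintype_card, Fintype.card_subtype, ← List.map_coe_finRange_eq_range,
    List.countP_map, List.countP_eq_length_filter]
  rfl

theorem exists_match {τ A B : Type} [Finite A] [Finite B] {r : τ → τ → Prop} (hr : Equivalence r)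
    {T : τ → Prop} (f : A → τ) (g : B → τ) (hf : ∀ a, T (f a)) (hg : ∀ b, T (g b))
    (h : ∀ u, T u → Nat.card {a // r (f a) u} = Nat.card {b // r (g b) u}) :
    ∃ φ : A ≃ B, ∀ a, r (f a) (g (φ a)) := by
  let F : A → Quotient ⟨r, hr⟩ := fun a => Quotient.mk _ (f a)
  let G : B → Quotient ⟨r, hr⟩ := fun b => Quotient.mk _ (g b)
  have key : ∀ q, Nat.card {a // F a = q} = Nat.card {b // G b = q} := by
    intro q
    by_cases hq : ∃ u, T u ∧ Quotient.mk _ u = q
    · obtain ⟨u, hu, rfl⟩ := hq
      simpa only [F, G, Quotient.eq] using h u hu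
    · have : IsEmpty {a // F a = q} := ⟨fun a => hq ⟨_, hf a, a.2⟩⟩
      have : IsEmpty {b // G b = q} := ⟨fun b => hq ⟨_, hg b, b.2⟩⟩
      simp
  refine ⟨Equiv.ofFiberEquiv fun q => (Finite.card_eq.1 (key q)).some, fun a => ?_⟩
  exact Quotient.exact (s := ⟨r, hr⟩) (Equiv.ofFiberEquiv_map (f := F) (g := G) _ a).symm

/-- The matrix `M` is the adjacency matrix of `G`. -/
def Codes {m : ℕ} (M : List (List Bool)) (G : SimpleGraph (Fin m)) : Prop :=
  M.length = m ∧ ∀ i j : Fin m, (M.getD i []).getD j false = true ↔ G.Adj i j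

variable {m n : ℕ} {G : SimpleGraph (Fin m)} {H : SimpleGraph (Fin n)}

theorem set_mem_allT {s : Tup} (hs : s ∈ allT k x) (j : ℕ) {w : ℕ} (hw : w < (mat x s.1).length) :
    (s.1, s.2.set j w) ∈ allT k x := by
  rw [mem_allT] at hs ⊢
  exact ⟨by simpa using hs.1, fun a ha => (List.mem_or_eq_of_mem_set ha).elim (hs.2 a)
    fun e => e ▸ hw⟩

theorem W_of_fixed (hG : Codes x.1 G) (hH : Codes x.2 H) (hE : Good k x E)
    (hfix : step k x E = E) {l l'} (h : ((false, l), (true, l')) ∈ E) : W k G H ∅ := by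
  obtain ⟨r, r1, r2, r3⟩ := hE
  have hat : ∀ {l l' i j}, ((false, l), (true, l')) ∈ E → i < k → j < k →
      ∀ {a b : Fin m} {a' b' : Fin n}, l.getD i 0 = a → l'.getD i 0 = a' → l.getD j 0 = b →
      l'.getD j 0 = b' → (a = b ↔ a' = b') ∧ (G.Adj a b ↔ H.Adj a' b') := by
    intro l l' i j h hi hj a b a' b' e1 e2 e3 e4
    have := List.map_inj_left.1 (List.map_inj_left.1 (r2 _ _ ((r3 _ _).1 h).2.2) i
      (List.mem_range.2 hi)) j (List.mem_range.2 hj)
    simp only [e1, e2, e3, e4, mat, cond_true, cond_false, Prod.mk.injEq] at this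
    rw [← hG.2, ← hH.2, this.2, Fin.ext_iff, Fin.ext_iff, ← beq_iff_eq, this.1, beq_iff_eq]
    exact ⟨Iff.rfl, Iff.rfl⟩
  refine ⟨fun P => ∃ l l', ((false, l), (true, l')) ∈ E ∧
    ∀ p ∈ P, ∃ j < k, l.getD j 0 = p.1 ∧ l'.getD j 0 = p.2, ⟨?_, ?_, ?_, ?_⟩,
    l, l', h, fun _ hp => hp.elim⟩
  · rintro P ⟨l, l', h, hP⟩ a a' b b' h1 h2
    obtain ⟨i, hi, e1, e2⟩ := hP _ h1
    obtain ⟨j, hj, e3, e4⟩ := hP _ h2
    exact (hat h hi hj e1 e2 e3 e4).1
  · rintro P ⟨l, l', h, hP⟩ a a' b b' h1 h2
    obtain ⟨i, hi, e1, e2⟩ := hP _ h1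
    obtain ⟨j, hj, e3, e4⟩ := hP _ h2
    exact (hat h hi hj e1 e2 e3 e4).2
  · rintro P Q ⟨l, l', h, hP⟩ hQ
    exact ⟨l, l', h, fun p hp => hP p (hQ hp)⟩
  · rintro P ⟨l, l', h, hP⟩ - hk
    choose! ι hι using hP
    obtain ⟨j, hj, hj'⟩ : ∃ j ∈ Iio k, j ∉ ι '' P :=
      exists_mem_notMem_of_ncard_lt_ncard
        (((ncard_image_le (toFinite _)).trans_lt hk).trans_eq (ncard_Iio_nat k).symm)
        ((toFinite P).image _)
    obtain ⟨t1, t2, -⟩ := (r3 _ _).1 h
    have s1 : ∀ w : Fin m, (false, l.set j w) ∈ allT k x := fun w =>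
      set_mem_allT t1 j (hG.1 ▸ w.2 : (w : ℕ) < x.1.length)
    have s2 : ∀ w : Fin n, (true, l'.set j w) ∈ allT k x := fun w =>
      set_mem_allT t2 j (hH.1 ▸ w.2 : (w : ℕ) < x.2.length)
    have hp : prof k x E (false, l) = prof k x E (true, l') := by
      rw [← hfix] at h
      simpa using (List.mem_filter.1 h).2
    obtain ⟨φ, hφ⟩ := exists_match r1 (fun w : Fin m => (false, l.set j w))
      (fun w : Fin n => (true, l'.set j w)) s1 s2 fun u hu => by
        have := List.map_inj_left.1 (List.map_inj_left.1 hp j (List.mem_range.2 hj)) u hu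
        simp only [countP_range, mat, cond_true, cond_false, hG.1, hH.1] at this
        simpa only [r3, s1, s2, hu, true_and] using this
    refine ⟨φ, fun w => ⟨_, _, (r3 _ _).2 ⟨s1 w, s2 _, hφ w⟩, ?_⟩⟩
    have l1 : l.length = k := (mem_allT.1 t1).1
    have l2 : l'.length = k := (mem_allT.1 t2).1
    rintro p (rfl | hp)
    · exact ⟨j, hj, by simp [l1, show j < k from hj], by simp [l2, show j < k from hj]⟩
    · have : j ≠ ι p := fun e => hj' ⟨p, hp, e.symm⟩
      refine ⟨ι p, (hι p hp).1, ?_, ?_⟩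
      · rw [← (hι p hp).2.1]; simp [List.getElem?_set_ne this]
      · rw [← (hι p hp).2.2]; simp [List.getElem?_set_ne this]

theorem iso_mem (hG : Codes x.1 G) (hH : Codes x.2 H) (σ : G ≃g H) (i : ℕ) :
    ∀ l : List (Fin m), l.length = k → ((false, l.map (↑)), (true, l.map fun a => (σ a : ℕ))) ∈
      (step k x)^[i] (init k x) := by
  have t1 : ∀ l : List (Fin m), l.length = k → (false, l.map (↑)) ∈ allT k x := fun l hl =>
    mem_allT.2 ⟨by simpa, by simp [mat, hG.1]⟩
  have t2 : ∀ l : List (Fin m), l.length = k → (true, l.map fun a => (σ a : ℕ)) ∈ allT k x :=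
    fun l hl => mem_allT.2 ⟨by simpa, by simp [mat, hH.1]⟩
  induction i with
  | zero =>
    intro l hl
    refine List.mem_filter.2 ⟨List.pair_mem_product.2 ⟨t1 l hl, t2 l hl⟩, beq_iff_eq.2 ?_⟩
    refine List.map_inj_left.2 fun i hi => List.map_inj_left.2 fun j hj => ?_
    rw [List.mem_range, ← hl] at hi hj
    simp only [List.getD_eq_getElem?_getD, List.getElem?_map, List.getElem?_eq_getElem hi,
      List.getElem?_eq_getElem hj, Option.map_some, Option.getD_some, mat, cond_true, cond_false,
      Prod.mk.injEq]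
    constructor
    · rw [Bool.eq_iff_iff, beq_iff_eq, beq_iff_eq, ← Fin.ext_iff, ← Fin.ext_iff,
        σ.injective.eq_iff]
    · rw [Bool.eq_iff_iff, ← List.getD_eq_getElem?_getD, ← List.getD_eq_getElem?_getD,
        ← List.getD_eq_getElem?_getD, ← List.getD_eq_getElem?_getD, hG.2, hH.2, σ.map_adj_iff]
  | succ i ih =>
    intro l hl
    rw [Function.iterate_succ_apply']
    refine List.mem_filter.2 ⟨ih l hl, beq_iff_eq.2 ?_⟩
    refine List.map_inj_left.2 fun j _ => List.map_inj_left.2 fun u hu => ?_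
    simp only [countP_range, mat, cond_true, cond_false, hG.1, hH.1]
    refine Nat.card_congr (σ.toEquiv.subtypeEquiv fun w => ?_)
    obtain ⟨r, r1, -, r3⟩ := good_iter (k := k) (x := x) i
    have := (r3 _ _).1 (ih (l.set j w) (by simpa))
    simp only [List.map_set] at this
    rw [r3, r3]
    exact ⟨fun h => ⟨this.2.1, hu, r1.trans (r1.symm this.2.2) h.2.2⟩,
      fun h => ⟨this.1, hu, r1.trans this.2.2 h.2.2⟩⟩

theorem wl_iff {c : ℕ} (hG : Codes x.1 G) (hH : Codes x.2 H) (hD : Dec G c univ)
    (hk : 3 * (c + 2 ^ c) + 3 ≤ k) : wl k x = true ↔ Nonempty (G ≃g H) := by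
  simp only [wl, Bool.and_eq_true, beq_iff_eq, Bool.or_eq_true, List.any_eq_true, hG.1, hH.1,
    List.isEmpty_iff_length_eq_zero, Bool.not_eq_true']
  constructor
  · rintro ⟨rfl, rfl | ⟨⟨⟨b, l⟩, b', l'⟩, h, rfl, rfl⟩⟩
    · exact ⟨⟨Equiv.refl _, fun {a} => a.elim0⟩⟩
    · exact hD.iso hk (W_of_fixed hG hH (good_iter _)
        (iterate_fixed (f := step k x) (fun _ => List.filter_sublist) _) h)
  · rintro ⟨σ⟩
    refine ⟨by simpa using Fintype.card_congr σ.toEquiv, (Nat.eq_zero_or_pos m).imp_right fun h =>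
      ⟨_, iso_mem hG hH σ _ (List.replicate k ⟨0, h⟩) (by simp), rfl, rfl⟩⟩

/-- The adjacency matrix as a list of rows. -/
def adjMat (G : SimpleGraph (Fin m)) [DecidableRel G.Adj] : List (List Bool) :=
  List.ofFn fun i => List.ofFn fun j => decide (G.Adj i j)

theorem codes_adjMat (G : SimpleGraph (Fin m)) [DecidableRel G.Adj] : Codes (adjMat G) G :=
  ⟨by simp [adjMat], fun i j => by simp [adjMat]⟩

/-- Isomorphism of graphs with a decomposition of bounded width is decidable in polynomial
time. -/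
theorem gi_poly (c : ℕ) : ∃ f : List (List Bool) × List (List Bool) → Bool, IsPolyTime f ∧
    ∀ (m n : ℕ) (G : SimpleGraph (Fin m)) (H : SimpleGraph (Fin n)) [DecidableRel G.Adj]
      [DecidableRel H.Adj], Dec G c univ →
      (f (adjMat G, adjMat H) = true ↔ Nonempty (G ≃g H)) :=
  ⟨wl (3 * (c + 2 ^ c) + 3), pt_wl _, fun _ _ G H _ _ hD =>
    wl_iff (x := (adjMat G, adjMat H)) (codes_adjMat G) (codes_adjMat H) hD le_rfl⟩

end Pool.Agent.Lib.MP_1595d8_lc.H16
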