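import Pool.Agent.Lib.MP_1595d8_lc.H16Alg
import Pool.Agent.Lib.MP_042ec1_co.Width

/-!
Isomorphism of graphs of bounded module-width is decidable in polynomial time.
-/

open Set N68a2faeb

namespace Pool.Agent.Lib.MP_1595d8_lc.H16

theorem dec_of_dec {V : Type} [Fintype V] [DecidableEq V] {G : SimpleGraph V} {k : ℕ}
    {S : Finset V} (h : MP_042ec1_co.Dec G Finset.univ k S) :
    Dec G (k + 1) (S : Set V) ∧ cut G S ≤ k + 1 := by
  have small : ∀ X : Set V, X.Subsingleton → Dec G (k + 1) X ∧ cut G X ≤ k + 1 := fun X hX =>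
    ⟨.small hX, (ncard_le_one_iff_subsingleton.2 (hX.image _)).trans (by omega)⟩
  induction h with
  | empty => exact small _ (by simp)
  | single x => exact small _ (by simp)
  | union S T hd _ _ ht ihS ihT =>
    refine ⟨Finset.coe_union S T ▸ .union ihS.1 ihT.1 (Finset.disjoint_coe.2 hd) ihS.2 ihT.2, ?_⟩
    obtain ⟨P, _, c, hP, hc⟩ := ht
    obtain ⟨C, -, h2, h3, h4⟩ := exists_reps c (A := ∅) (B := ((S ∪ T : Finset V) : Set V))
      (injOn_empty _) (empty_subset _)
    have h5 : C.ncard ≤ k := by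
      rw [← h3.ncard_image]
      exact (ncard_le_card _).trans (by rwa [Nat.card_eq_fintype_card])
    refine ((ncard_le_ncard (t := (fun x => G.neighborSet x \ ((S ∪ T : Finset V) : Set V)) '' C)
      ?_).trans ncard_image_le).trans (by omega)
    rintro _ ⟨x, hx, rfl⟩
    obtain ⟨s, hs, e⟩ := h4 x hx
    refine ⟨s, hs, Set.ext fun z => and_congr_left fun hz => ?_⟩
    exact hc s (h2 hs) x hx e z (Finset.mem_univ z) hz

/-- One polynomial time test decides isomorphism whenever the first graph has width at most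
`k`. -/
theorem gi_poly_wd (k : ℕ) : ∃ f : List (List Bool) × List (List Bool) → Bool, IsPolyTime f ∧
    ∀ (m n : ℕ) (G : SimpleGraph (Fin m)) (H : SimpleGraph (Fin n)) [DecidableRel G.Adj]
      [DecidableRel H.Adj], MP_042ec1_co.Wd G Finset.univ k →
      (f (adjMat G, adjMat H) = true ↔ Nonempty (G ≃g H)) :=
  let ⟨f, h1, h2⟩ := gi_poly (k + 1)
  ⟨f, h1, fun m n G H _ _ h => h2 m n G H (by simpa using (dec_of_dec h).1)⟩

end Pool.Agent.Lib.MP_1595d8_lc.H16
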