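import Mathlib

/-!
Gluing colour preserving isomorphisms of blocks.
-/

open Set

namespace Pool.Agent.Lib.MP_1595d8_lc.H16

variable {V V' V'' T : Type}

/-- A colour preserving isomorphism between induced subgraphs. -/
structure Iso (G : SimpleGraph V) (H : SimpleGraph V') (c : V → T) (c' : V' → T) (B : Set V)
    (B' : Set V') (ψ : V → V') : Prop where
  bij : BijOn ψ B B'
  col : ∀ x ∈ B, c' (ψ x) = c x
  adj : ∀ x ∈ B, ∀ y ∈ B, G.Adj x y ↔ H.Adj (ψ x) (ψ y)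

variable {G : SimpleGraph V} {H : SimpleGraph V'} {K : SimpleGraph V''} {c : V → T} {c' : V' → T}
  {c'' : V'' → T}

theorem Iso.refl (B : Set V) : Iso G G c c B B id := ⟨bijOn_id _, fun _ _ => rfl, fun _ _ _ _ => Iff.rfl⟩

theorem Iso.comp {B B' B'' ψ ψ'} (h : Iso G H c c' B B' ψ) (h' : Iso H K c' c'' B' B'' ψ') :
    Iso G K c c'' B B'' (ψ' ∘ ψ) :=
  ⟨h'.bij.comp h.bij, fun x hx => (h'.col _ (h.bij.mapsTo hx)).trans (h.col x hx),
    fun x hx y hy => (h.adj x hx y hy).trans (h'.adj _ (h.bij.mapsTo hx) _ (h.bij.mapsTo hy))⟩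

theorem Iso.symm [Nonempty V] {B B' ψ} (h : Iso G H c c' B B' ψ) :
    Iso H G c' c B' B (Function.invFunOn ψ B) := by
  have hi := h.bij.invOn_invFunOn
  have hb : BijOn (Function.invFunOn ψ B) B' B := BijOn.symm hi.symm h.bij
  refine ⟨hb, fun x hx => ?_, fun x hx y hy => ?_⟩
  · rw [← h.col _ (hb.mapsTo hx), hi.2 hx]
  · rw [h.adj _ (hb.mapsTo hx) _ (hb.mapsTo hy), hi.2 hx, hi.2 hy]

theorem Iso.restrict {B B' ψ} (h : Iso G H c c' B B' ψ) {A : Set V} (hA : A ⊆ B) :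
    Iso G H c c' A (ψ '' A) ψ :=
  ⟨(h.bij.injOn.mono hA).bijOn_image, fun x hx => h.col x (hA hx),
    fun x hx y hy => h.adj x (hA hx) y (hA hy)⟩

variable [Finite V] [Finite V'] {r : V → V → Prop} {r' : V' → V' → Prop}

private theorem glue_aux {Θ : Type} (hr : Equivalence r) (hr' : Equivalence r') (τ : V → Θ)
    (τ' : V' → Θ) (hτ : ∀ x y, r x y → τ x = τ y) (hτ' : ∀ x y, r' x y → τ' x = τ' y)
    (U₀ : Set V) (U₀' : Set V')
    (hiso : ∀ u ∈ U₀, ∀ u' ∈ U₀', τ u = τ' u' → ∃ ψ, Iso G H c c' {x | r u x} {x | r' u' x} ψ)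
    (hcross : ∀ x ∈ U₀, ∀ y ∈ U₀, ∀ x' ∈ U₀', ∀ y' ∈ U₀', c' x' = c x → c' y' = c y → ¬ r x y →
      ¬ r' x' y' → (G.Adj x y ↔ H.Adj x' y')) (n : ℕ) :
    ∀ (U : Set V) (U' : Set V'), U.ncard ≤ n → U ⊆ U₀ → U' ⊆ U₀' →
      (∀ x ∈ U, ∀ y, r x y → y ∈ U) → (∀ x ∈ U', ∀ y, r' x y → y ∈ U') →
      (∀ t, (U ∩ τ ⁻¹' {t}).ncard = (U' ∩ τ' ⁻¹' {t}).ncard) →
      ∀ v ∈ U, ∀ v' ∈ U', τ v = τ' v' → ∀ ψ₀, Iso G H c c' {x | r v x} {x | r' v' x} ψ₀ →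
      ∃ ψ, Iso G H c c' U U' ψ ∧ ψ v = ψ₀ v := by
  induction n with
  | zero =>
    intro U U' hn _ _ _ _ _ v hv
    rw [Nat.le_zero, ncard_eq_zero] at hn
    exact absurd hv (hn ▸ notMem_empty v)
  | succ n ih =>
    intro U U' hn h0 h0' hU hU' hcnt v hv v' hv' hτv ψ₀ hψ₀
    set B := {x | r v x} with hB
    set B' := {x | r' v' x} with hB'
    have hBU : B ⊆ U := fun x hx => hU v hv x hx
    have hBU' : B' ⊆ U' := fun x hx => hU' v' hv' x hx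
    have hcard : B.ncard = B'.ncard := by
      rw [← hψ₀.bij.image_eq, hψ₀.bij.injOn.ncard_image]
    have hcnt1 : ∀ t, ((U \ B) ∩ τ ⁻¹' {t}).ncard = ((U' \ B') ∩ τ' ⁻¹' {t}).ncard := by
      intro t
      by_cases ht : τ v = t
      · have e1 : B ⊆ U ∩ τ ⁻¹' {t} := fun x hx => ⟨hBU hx, (hτ _ _ hx).symm.trans ht⟩
        have e2 : B' ⊆ U' ∩ τ' ⁻¹' {t} := fun x hx =>
          ⟨hBU' hx, (hτ' _ _ hx).symm.trans (hτv.symm.trans ht)⟩
        rw [← inter_sdiff_right_comm, ← inter_sdiff_right_comm, ncard_sdiff e1, ncard_sdiff e2, hcnt,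
          hcard]
      · have e1 : (U \ B) ∩ τ ⁻¹' {t} = U ∩ τ ⁻¹' {t} := by
          ext x
          exact ⟨fun h => ⟨h.1.1, h.2⟩, fun h => ⟨⟨h.1, fun hx => ht ((hτ _ _ hx).trans h.2)⟩, h.2⟩⟩
        have e2 : (U' \ B') ∩ τ' ⁻¹' {t} = U' ∩ τ' ⁻¹' {t} := by
          ext x
          exact ⟨fun h => ⟨h.1.1, h.2⟩, fun h =>
            ⟨⟨h.1, fun hx => ht (hτv.trans ((hτ' _ _ hx).trans h.2))⟩, h.2⟩⟩
        rw [e1, e2, hcnt]
    have hrest : ∃ ψ₁, Iso G H c c' (U \ B) (U' \ B') ψ₁ := by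
      rcases (U \ B).eq_empty_or_nonempty with he | ⟨w, hw⟩
      · have he' : U' \ B' = ∅ := by
          refine eq_empty_of_forall_notMem fun x hx => ?_
          have := hcnt1 (τ' x)
          rw [he, empty_inter, ncard_empty, eq_comm, ncard_eq_zero] at this
          exact (this ▸ notMem_empty x : x ∉ (U' \ B') ∩ τ' ⁻¹' {τ' x}) ⟨hx, rfl⟩
        rw [he, he']
        exact ⟨ψ₀, bijOn_empty _, fun _ h => h.elim, fun _ h => h.elim⟩
      · have hne : ((U' \ B') ∩ τ' ⁻¹' {τ w}).Nonempty := by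
          rw [← ncard_pos, ← hcnt1, ncard_pos]
          exact ⟨w, hw, rfl⟩
        obtain ⟨w', hw', e⟩ := hne
        obtain ⟨ψ₂, hψ₂⟩ := hiso w (h0 hw.1) w' (h0' hw'.1) e.symm
        have hlt : (U \ B).ncard < U.ncard :=
          ncard_lt_ncard ⟨sdiff_subset, fun h => (h hv).2 (hr.refl v)⟩
        obtain ⟨ψ₁, h1, -⟩ := ih (U \ B) (U' \ B') (by omega) (sdiff_subset.trans h0)
          (sdiff_subset.trans h0')
          (fun x hx y hy => ⟨hU x hx.1 y hy, fun h => hx.2 (hr.trans h (hr.symm hy))⟩)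
          (fun x hx y hy => ⟨hU' x hx.1 y hy, fun h => hx.2 (hr'.trans h (hr'.symm hy))⟩)
          hcnt1 w hw w' hw' e.symm ψ₂ hψ₂
        exact ⟨ψ₁, h1⟩
    obtain ⟨ψ₁, hψ₁⟩ := hrest
    classical
    let ψ : V → V' := fun x => if x ∈ B then ψ₀ x else ψ₁ x
    have e0 : ∀ x ∈ B, ψ x = ψ₀ x := fun x hx => if_pos hx
    have e1 : ∀ x ∉ B, ψ x = ψ₁ x := fun x hx => if_neg hx
    have mixed : ∀ x ∈ B, ∀ y ∈ U \ B, G.Adj x y ↔ H.Adj (ψ₀ x) (ψ₁ y) := by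
      intro x hx y hy
      have m0 := hψ₀.bij.mapsTo hx
      have m1 := hψ₁.bij.mapsTo hy
      exact hcross x (h0 (hBU hx)) y (h0 hy.1) _ (h0' (hBU' m0)) _ (h0' m1.1) (hψ₀.col x hx)
        (hψ₁.col y hy) (fun h => hy.2 (hr.trans hx h)) fun h => m1.2 (hr'.trans m0 h)
    refine ⟨ψ, ⟨?_, fun x hx => ?_, fun x hx y hy => ?_⟩, e0 v (hr.refl v)⟩
    · have b0 : BijOn ψ B B' := hψ₀.bij.congr fun x hx => (e0 x hx).symm
      have b1 : BijOn ψ (U \ B) (U' \ B') := hψ₁.bij.congr fun x hx => (e1 x hx.2).symm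
      have := b0.union b1 ((injOn_union disjoint_sdiff_right).2 ⟨b0.injOn, b1.injOn,
        fun x hx y hy e => (b1.mapsTo hy).2 (e ▸ b0.mapsTo hx)⟩)
      rwa [union_sdiff_cancel hBU, union_sdiff_cancel hBU'] at this
    · by_cases h : x ∈ B
      · rw [e0 x h, hψ₀.col x h]
      · rw [e1 x h, hψ₁.col x ⟨hx, h⟩]
    · by_cases h : x ∈ B <;> by_cases h' : y ∈ B
      · rw [e0 x h, e0 y h', hψ₀.adj x h y h']
      · rw [e0 x h, e1 y h', mixed x h y ⟨hy, h'⟩]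
      · rw [e1 x h, e0 y h', G.adj_comm, H.adj_comm, mixed y h' x ⟨hx, h⟩]
      · rw [e1 x h, e1 y h', hψ₁.adj x ⟨hx, h⟩ y ⟨hy, h'⟩]

/-- Blocks that are matched by a bijection of the vertices can be glued. -/
theorem glue (hr : Equivalence r) (hr' : Equivalence r') {U : Set V} {U' : Set V'}
    (hU : ∀ x ∈ U, ∀ y, r x y → y ∈ U) (hU' : ∀ x ∈ U', ∀ y, r' x y → y ∈ U')
    (hcross : ∀ x ∈ U, ∀ y ∈ U, ∀ x' ∈ U', ∀ y' ∈ U', c' x' = c x → c' y' = c y → ¬ r x y →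
      ¬ r' x' y' → (G.Adj x y ↔ H.Adj x' y'))
    (φ : V ≃ V') (hφ : ∀ u, u ∈ U ↔ φ u ∈ U')
    (hiso : ∀ u ∈ U, ∃ ψ, Iso G H c c' {x | r u x} {x | r' (φ u) x} ψ)
    {v} (hv : v ∈ U) {v'} (hv' : v' ∈ U') {ψ₀} (h₀ : Iso G H c c' {x | r v x} {x | r' v' x} ψ₀) :
    ∃ ψ, Iso G H c c' U U' ψ ∧ ψ v = ψ₀ v := by
  have : Nonempty V := ⟨v⟩
  let τ : V → Set (Set V) := fun u => {B | ∃ ψ, Iso G G c c B {x | r u x} ψ}
  let τ' : V' → Set (Set V) := fun u => {B | ∃ ψ, Iso G H c c' B {x | r' u x} ψ}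
  have key : ∀ u u', τ u = τ' u' ↔ ∃ ψ, Iso G H c c' {x | r u x} {x | r' u' x} ψ := by
    intro u u'
    refine ⟨fun h => (h ▸ ⟨id, Iso.refl _⟩ : {x | r u x} ∈ τ' u'), fun ⟨ψ, h⟩ => ?_⟩
    ext B
    exact ⟨fun ⟨_, h1⟩ => ⟨_, h1.comp h⟩, fun ⟨_, h1⟩ => ⟨_, h1.comp h.symm⟩⟩
  refine glue_aux hr hr' τ τ' (fun x y h => ?_) (fun x y h => ?_) U U'
    (fun u _ u' _ h => (key u u').1 h) hcross _ U U' le_rfl Subset.rfl Subset.rfl hU hU'
    (fun t => ?_) v hv v' hv' ((key v v').2 ⟨_, h₀⟩) ψ₀ h₀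
  · have e : {z | r x z} = {z | r y z} :=
      Set.ext fun z => ⟨fun hz => hr.trans (hr.symm h) hz, fun hz => hr.trans h hz⟩
    simp only [τ, e]
  · have e : {z | r' x z} = {z | r' y z} :=
      Set.ext fun z => ⟨fun hz => hr'.trans (hr'.symm h) hz, fun hz => hr'.trans h hz⟩
    simp only [τ', e]
  · rw [← ncard_image_of_injective _ φ.injective]
    congr 1
    ext y
    obtain ⟨x, rfl⟩ := φ.surjective y
    rw [φ.injective.mem_set_image]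
    exact ⟨fun h => ⟨(hφ x).1 h.1, ((key _ _).2 (hiso x h.1)).symm.trans h.2⟩,
      fun h => ⟨(hφ x).2 h.1, ((key _ _).2 (hiso x ((hφ x).2 h.1))).trans h.2⟩⟩

end Pool.Agent.Lib.MP_1595d8_lc.H16
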