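import Pool.Agent.Lib.MP_1595d8_lc.H16WL
import Pool.Agent.Lib.MP_1595d8_lc.H16Glue

/-!
Decompositions of bounded width, representatives and flips.
-/

open Set

namespace Pool.Agent.Lib.MP_1595d8_lc.H16

variable {V V' T : Type} {k c r : ℕ} {G : SimpleGraph V} {H : SimpleGraph V'}

/-- The number of different neighbourhoods outside `X` of vertices of `X`. -/
noncomputable def cut (G : SimpleGraph V) (X : Set V) : ℕ :=
  ((fun x => G.neighborSet x \ X) '' X).ncard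

/-- Vertex sets with a binary decomposition in which every proper part `X` has at most `c`
different neighbourhoods outside `X`. -/
inductive Dec (G : SimpleGraph V) (c : ℕ) : Set V → Prop
  | small {X : Set V} : X.Subsingleton → Dec G c X
  | union {X Y : Set V} : Dec G c X → Dec G c Y → Disjoint X Y → cut G X ≤ c → cut G Y ≤ c →
      Dec G c (X ∪ Y)

/-- A small set of representatives for the cut at `X`. -/
structure Rep (G : SimpleGraph V) (r : ℕ) (X S : Set V) : Prop where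
  out : ∀ x ∈ X, ∃ s ∈ S, s ∈ X ∧ ∀ y ∉ X, (G.Adj x y ↔ G.Adj s y)
  inn : ∀ y ∉ X, ∃ s ∈ S, s ∉ X ∧ ∀ x ∈ X, (G.Adj x y ↔ G.Adj x s)
  inj : ∀ s ∈ S, s ∈ X → ∀ t ∈ S, t ∈ X → (∀ y ∉ X, (G.Adj s y ↔ G.Adj t y)) → s = t
  card : S.ncard ≤ r

theorem exists_reps {α β : Type} (g : α → β) {A B : Set α} (hA : InjOn g A) (hAB : A ⊆ B) :
    ∃ C, A ⊆ C ∧ C ⊆ B ∧ InjOn g C ∧ ∀ x ∈ B, ∃ s ∈ C, g s = g x := by
  obtain ⟨C, h1, h2, h3, h4⟩ := hA.exists_subset_injOn_subset_range_eq hAB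
  exact ⟨C, h1, h2, h4, fun x hx => (h3.symm ▸ mem_image_of_mem g hx : g x ∈ g '' C)⟩

variable [Finite V]

omit [Finite V] in
private theorem out_iff {X : Set V} {s t : V} :
    G.neighborSet s \ X = G.neighborSet t \ X ↔ ∀ y ∉ X, (G.Adj s y ↔ G.Adj t y) := by
  simp only [Set.ext_iff, mem_sdiff, SimpleGraph.mem_neighborSet]
  exact forall_congr' fun y => by tauto

private theorem outer {X Y S : Set V} (h : Rep G r X S) (hY : Y ⊆ X) (hc : cut G Y ≤ c) :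
    ∃ A, S ∩ Y ⊆ A ∧ A ⊆ Y ∧ A.ncard ≤ c ∧
      (∀ s ∈ A, ∀ t ∈ A, (∀ y ∉ Y, (G.Adj s y ↔ G.Adj t y)) → s = t) ∧
      ∀ x ∈ Y, ∃ s ∈ A, ∀ y ∉ Y, (G.Adj x y ↔ G.Adj s y) := by
  obtain ⟨A, h1, h2, h3, h4⟩ := exists_reps (fun x => G.neighborSet x \ Y) (A := S ∩ Y) (B := Y)
    (fun s hs t ht e => h.inj s hs.1 (hY hs.2) t ht.1 (hY ht.2)
      fun y hy => out_iff.1 e y fun hy' => hy (hY hy')) inter_subset_right
  refine ⟨A, h1, h2, ?_, fun s hs t ht e => h3 hs ht (out_iff.2 e), fun x hx => ?_⟩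
  · rw [← h3.ncard_image]
    exact (ncard_le_ncard (image_mono h2)).trans hc
  · obtain ⟨s, hs, e⟩ := h4 x hx
    exact ⟨s, hs, fun y hy => (out_iff.1 e y hy).symm⟩

private theorem inner {Y A B : Set V} (hAY : A ⊆ Y) (hA : A.ncard ≤ c)
    (h3 : ∀ s ∈ A, ∀ t ∈ A, (∀ y ∉ Y, (G.Adj s y ↔ G.Adj t y)) → s = t)
    (h4 : ∀ x ∈ Y, ∃ s ∈ A, ∀ y ∉ Y, (G.Adj x y ↔ G.Adj s y)) (hB : Disjoint B Y)
    (hB' : ∀ y ∉ Y, ∃ s ∈ B, ∀ x ∈ Y, (G.Adj x y ↔ G.Adj x s)) :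
    ∃ S, A ⊆ S ∧ S ⊆ A ∪ B ∧ Rep G (c + 2 ^ c) Y S := by
  obtain ⟨C, -, h2, h5, h6⟩ := exists_reps (fun y => {s ∈ A | G.Adj s y}) (A := ∅) (B := B)
    (injOn_empty _) (empty_subset _)
  have hCY : ∀ s ∈ C, s ∉ Y := fun s hs => hB.notMem_of_mem_left (h2 hs)
  refine ⟨A ∪ C, subset_union_left, union_subset_union_right _ h2, fun x hx => ?_, fun y hy => ?_,
    fun s hs hs' t ht ht' => h3 s (hs.resolve_right fun h => hCY s h hs') t
      (ht.resolve_right fun h => hCY t h ht'), (ncard_union_le _ _).trans (add_le_add hA ?_)⟩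
  · obtain ⟨s, hs, e⟩ := h4 x hx
    exact ⟨s, Or.inl hs, hAY hs, e⟩
  · obtain ⟨b, hb, e⟩ := hB' y hy
    obtain ⟨s, hs, e'⟩ := h6 b hb
    refine ⟨s, Or.inr hs, hCY s hs, fun x hx => (e x hx).trans ?_⟩
    obtain ⟨a, ha, e''⟩ := h4 x hx
    rw [e'' b (hB.notMem_of_mem_left hb), e'' s (hCY s hs)]
    have := Set.ext_iff.1 e' a
    simp only [mem_ofPred_eq, ha, true_and] at this
    exact this.symm
  · rw [← h5.ncard_image]
    refine (ncard_le_ncard (t := 𝒫 A) ?_).trans ?_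
    · rintro _ ⟨y, -, rfl⟩ s hs
      exact hs.1
    · rw [ncard_powerset _ (toFinite _)]
      exact Nat.pow_le_pow_right two_pos hA

theorem Rep.split {X Y S : Set V} (h : Rep G r (X ∪ Y) S) (hd : Disjoint X Y) (hX : cut G X ≤ c)
    (hY : cut G Y ≤ c) : ∃ S₁ S₂, Rep G (c + 2 ^ c) X S₁ ∧ Rep G (c + 2 ^ c) Y S₂ ∧
      (S ∪ S₁ ∪ S₂) ∩ X ⊆ S₁ ∧ (S ∪ S₁ ∪ S₂) ∩ Y ⊆ S₂ := by
  obtain ⟨A₁, a1, a2, a3, a4, a5⟩ := outer h subset_union_left hX
  obtain ⟨A₂, b1, b2, b3, b4, b5⟩ := outer h subset_union_right hY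
  have aux : ∀ {X Y A₂ : Set V}, Rep G r (X ∪ Y) S → Disjoint X Y → A₂ ⊆ Y →
      (∀ x ∈ Y, ∃ s ∈ A₂, ∀ y ∉ Y, (G.Adj x y ↔ G.Adj s y)) →
      Disjoint (A₂ ∪ (S \ (X ∪ Y))) X ∧
        ∀ y ∉ X, ∃ s ∈ A₂ ∪ (S \ (X ∪ Y)), ∀ x ∈ X, (G.Adj x y ↔ G.Adj x s) := by
    intro X Y A₂ h hd b2 b5
    refine ⟨disjoint_left.2 ?_, fun y hy => ?_⟩
    · rintro s (hs | hs) hx
      · exact hd.notMem_of_mem_left hx (b2 hs)
      · exact hs.2 (Or.inl hx)
    · by_cases hy' : y ∈ Y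
      · obtain ⟨s, hs, e⟩ := b5 y hy'
        exact ⟨s, Or.inl hs, fun x hx => by
          rw [G.adj_comm, e x (hd.notMem_of_mem_left hx), G.adj_comm]⟩
      · obtain ⟨s, hs, hs', e⟩ := h.inn y (fun h => h.elim hy hy')
        exact ⟨s, Or.inr ⟨hs, hs'⟩, fun x hx => e x (Or.inl hx)⟩
  obtain ⟨c1, c2⟩ := aux h hd b2 b5
  obtain ⟨d1, d2⟩ := aux (union_comm X Y ▸ h) hd.symm a2 a5
  obtain ⟨S₁, e1, e2, e3⟩ := inner a2 a3 a4 a5 c1 c2
  obtain ⟨S₂, f1, f2, f3⟩ := inner b2 b3 b4 b5 d1 d2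
  refine ⟨S₁, S₂, e3, f3, ?_, ?_⟩
  · rintro s ⟨(hs | hs) | hs, hx⟩
    · exact e1 (a1 ⟨hs, hx⟩)
    · exact hs
    · rcases f2 hs with h1 | h1 | h1
      · exact absurd (b2 h1) (hd.notMem_of_mem_left hx)
      · exact e1 h1
      · exact absurd (Or.inr hx) h1.2
  · rintro s ⟨(hs | hs) | hs, hx⟩
    · exact f1 (b1 ⟨hs, hx⟩)
    · rcases e2 hs with h1 | h1 | h1
      · exact absurd hx (hd.notMem_of_mem_left (a2 h1))
      · exact f1 h1
      · exact absurd (Or.inr hx) h1.2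
    · exact hs

/-- The pairs of colours that occur on an edge leaving `X`. -/
def flp (k : ℕ) (G : SimpleGraph V) (X S : Set V) (A B : Set V) : Prop :=
  ∃ x ∈ X, ∃ y ∉ X, G.Adj x y ∧ ((col k G G (diag S) x = A ∧ col k G G (diag S) y = B) ∨
    (col k G G (diag S) x = B ∧ col k G G (diag S) y = A))

/-- Adjacency after the flip. -/
def FA (k : ℕ) (G : SimpleGraph V) (X S : Set V) (H : SimpleGraph V') (P : Set (V × V'))
    (x y : V') : Prop := ¬ (H.Adj x y ↔ flp k G X S (col k G H P x) (col k G H P y))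

/-- Components after the flip. -/
def Cm (k : ℕ) (G : SimpleGraph V) (X S : Set V) (H : SimpleGraph V') (P : Set (V × V')) :
    V' → V' → Prop := Relation.ReflTransGen (FA k G X S H P)

variable {X S : Set V} {P : Set (V × V')}

omit [Finite V] in
theorem FA.symm {x y} (h : FA k G X S H P x y) : FA k G X S H P y x := by
  have e : ∀ A B, flp k G X S A B → flp k G X S B A := fun A B ⟨x, hx, y, hy, h1, h2⟩ =>
    ⟨x, hx, y, hy, h1, h2.symm⟩
  intro h'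
  exact h (by rw [H.adj_comm, h']; exact ⟨e _ _, e _ _⟩)

omit [Finite V] in
theorem equiv_closure {α : Type} {e : α → α → Prop} (h : ∀ x y, e x y → e y x) :
    Equivalence (Relation.ReflTransGen e) :=
  ⟨fun _ => .refl, fun {_ _} hxy => by
    induction hxy with
    | refl => exact .refl
    | tail _ h2 ih => exact ih.head (h _ _ h2), fun h1 h2 => h1.trans h2⟩

omit [Finite V] in
theorem Cm_equiv : Equivalence (Cm k G X S H P) := equiv_closure fun _ _ => FA.symm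

omit [Finite V] in
theorem adj_of_not_Cm {x y} (h : ¬ Cm k G X S H P x y) :
    H.Adj x y ↔ flp k G X S (col k G H P x) (col k G H P y) := by
  by_contra h'
  exact h (.single h')

theorem Cm_inv [Finite V'] (hS : Prod.fst '' P = S) (hk : P.ncard + 3 ≤ k) :
    Inv k G H P (Cm k G X S G (diag S)) (Cm k G X S H P) := by
  refine Inv.closure (fun x y x' y' hW => ?_) hk
  unfold FA
  rw [hW.adj (mem_insert _ _) (Or.inr (mem_insert _ _)),
    (col_eq_iff hS).2 (hW.sub (insert_subset_insert (subset_insert _ _))),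
    (col_eq_iff hS).2 (hW.sub (subset_insert _ _))]

theorem adj_of_col {x z s : V} (h : col k G G (diag S) x = col k G G (diag S) z) (hs : s ∈ S) :
    G.Adj x s ↔ G.Adj z s :=
  ((col_eq_iff (fst_diag S)).1 h).adj (mem_insert _ _) (Or.inr (mem_diag.2 ⟨hs, rfl⟩))

theorem eq_of_col {x s : V} (h : col k G G (diag S) x = col k G G (diag S) s) (hs : s ∈ S) :
    x = s :=
  (((col_eq_iff (fst_diag S)).1 h).eq (mem_insert _ _) (Or.inr (mem_diag.2 ⟨hs, rfl⟩))).2 rfl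

theorem Rep.homog (h : Rep G r X S) {x y x' y'} (hx : x ∈ X) (hy : y ∉ X) (hx' : x' ∈ X)
    (hy' : y' ∉ X) (e1 : col k G G (diag S) x = col k G G (diag S) x')
    (e2 : col k G G (diag S) y = col k G G (diag S) y') (ha : G.Adj x y) : G.Adj x' y' := by
  obtain ⟨s, hs, -, e⟩ := h.inn y hy
  have h1 : G.Adj x' y := (e x' hx').2 ((adj_of_col e1 hs).1 ((e x hx).1 ha))
  obtain ⟨t, ht, -, e'⟩ := h.out x' hx'
  exact (e' y' hy').2 ((adj_of_col e2 ht).1 ((e' y hy).1 h1).symm).symm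

theorem equitable (hk : S.ncard + 1 < k) {a b : V}
    (h : col k G G (diag S) a = col k G G (diag S) b) (A : Set V) :
    {w | G.Adj a w ∧ col k G G (diag S) w = A}.ncard =
      {w | G.Adj b w ∧ col k G G (diag S) w = A}.ncard := by
  have hW := (col_eq_iff (fst_diag S)).1 h
  obtain ⟨φ, hφ⟩ := hW.ext ((ncard_ins _ _ le_rfl).trans_lt (by rwa [ncard_diag]))
  rw [← ncard_image_of_injective _ φ.injective]
  congr 1
  ext w
  obtain ⟨w, rfl⟩ := φ.surjective w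
  rw [φ.injective.mem_set_image, mem_ofPred_eq, mem_ofPred_eq,
    (hφ w).adj (Or.inr (mem_insert _ _)) (mem_insert _ _),
    (col_eq_iff (fst_diag S)).2 ((hφ w).sub (insert_subset_insert (subset_insert _ _)))]

theorem Rep.not_FA (h : Rep G r X S) (hk : S.ncard + 1 < k) {x y} (hx : x ∈ X) (hy : y ∉ X) :
    ¬ FA k G X S G (diag S) x y := by
  refine not_not.2 ⟨fun ha => ⟨x, hx, y, hy, ha, Or.inl ⟨rfl, rfl⟩⟩, ?_⟩
  rintro ⟨x₀, hx₀, y₀, hy₀, ha, ⟨e1, e2⟩ | ⟨e1, e2⟩⟩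
  · exact h.homog hx₀ hy₀ hx hy e1 e2 ha
  by_contra hn
  obtain ⟨b, hb, eb⟩ : {w | G.Adj x w ∧ col k G G (diag S) w = col k G G (diag S) y}.Nonempty := by
    rw [← ncard_pos, ← equitable hk e2, ncard_pos]
    exact ⟨x₀, ha.symm, e1⟩
  by_cases hbX : b ∈ X
  · refine (ncard_lt_ncard (s := {w | G.Adj y w ∧ col k G G (diag S) w = col k G G (diag S) x})
      (t := {w | G.Adj b w ∧ col k G G (diag S) w = col k G G (diag S) x})
      ⟨fun w hw => And.intro ?_ hw.2, fun hs => hn (hs (And.intro hb.symm rfl)).1.symm⟩).ne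
      (equitable hk eb _).symm
    by_cases hw' : w ∈ X
    · exact absurd (h.homog hw' hy hx hy hw.2 rfl hw.1.symm) hn
    · exact h.homog hx₀ hy₀ hbX hw' (e1.trans eb.symm) (e2.trans hw.2.symm) ha
  · exact hn (h.homog hx hbX hx hy rfl eb hb)

theorem Rep.mem_iff (h : Rep G r X S) (hk : S.ncard + 1 < k) {x y}
    (hxy : Cm k G X S G (diag S) x y) : x ∈ X ↔ y ∈ X := by
  induction hxy with
  | refl => rfl
  | tail _ h2 ih =>
    refine ih.trans ⟨fun h1 => ?_, fun h1 => ?_⟩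
    · by_contra h3
      exact h.not_FA hk h1 h3 h2
    · by_contra h3
      exact h.not_FA hk h1 h3 h2.symm

theorem col_mono [Finite V'] {S' : Set V} {Q : Set (V × V')} (hS : Prod.fst '' P = S)
    (hS' : Prod.fst '' Q = S') (hPQ : P ⊆ Q) {x x'}
    (h : col k G H Q x' = col k G G (diag S') x) : col k G H P x' = col k G G (diag S) x :=
  ((col_eq_iff hS).2 (((col_eq_iff hS').1 h.symm).sub (insert_subset_insert hPQ))).symm

end Pool.Agent.Lib.MP_1595d8_lc.H16
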