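import Pool.Agent.Lib.MP_1595d8_lc.H16Flip

/-!
The bijective pebble game identifies graphs with a decomposition of bounded width.
-/

open Set

namespace Pool.Agent.Lib.MP_1595d8_lc.H16

variable {V V' : Type} [Finite V] [Finite V'] {k c r : ℕ} {G : SimpleGraph V} {H : SimpleGraph V'}

/-- Components of the flipped graph inside `X` are identified. -/
def Claim (k : ℕ) (G : SimpleGraph V) (H : SimpleGraph V') (X S : Set V) : Prop :=
  ∀ P : Set (V × V'), Prod.fst '' P = S → ∀ v ∈ X, ∀ v', W k G H (insert (v, v') P) →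
    ∃ ψ, Iso G H (col k G G (diag S)) (col k G H P) {x | Cm k G X S G (diag S) v x}
      {x | Cm k G X S H P v' x} ψ ∧ ψ v = v'

omit [Finite V] [Finite V'] in
theorem class_eq {α : Type} {e : α → α → Prop} (he : Equivalence e) {x y : α} (h : e x y) :
    {z | e y z} = {z | e x z} :=
  Set.ext fun _ => ⟨fun hz => he.trans h hz, fun hz => he.trans (he.symm h) hz⟩

omit [Finite V] [Finite V'] in
theorem swap_ins {P : Set (V × V')} {a b} (h : W k G H (insert a (insert b P))) :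
    W k G H (insert b (insert a P)) := insert_comm a b P ▸ h

omit [Finite V] [Finite V'] in
theorem adj_cross {Y T : Set V} {P : Set (V × V')} {a x a' x'}
    (h : ¬ Cm k G Y T G (diag T) a x) (h' : ¬ Cm k G Y T H P a' x')
    (e1 : col k G H P a' = col k G G (diag T) a) (e2 : col k G H P x' = col k G G (diag T) x) :
    G.Adj a x ↔ H.Adj a' x' := by
  rw [adj_of_not_Cm h, adj_of_not_Cm h', e1, e2]

omit [Finite V] in
theorem exists_auto {Y T : Set V} {u : V} {θ : V → V}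
    (h : Iso G G (col k G G (diag T)) (col k G G (diag T)) {x | Cm k G Y T G (diag T) u x}
      {x | Cm k G Y T G (diag T) u x} θ) :
    ∃ e : G ≃g G, (∀ x, Cm k G Y T G (diag T) u x → e x = θ x) ∧
      ∀ x, ¬ Cm k G Y T G (diag T) u x → e x = x := by
  classical
  set D := {x | Cm k G Y T G (diag T) u x} with hD
  let f : V → V := fun x => if x ∈ D then θ x else x
  have e0 : ∀ x ∈ D, f x = θ x := fun x hx => if_pos hx
  have e1 : ∀ x ∉ D, f x = x := fun x hx => if_neg hx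
  have mixed : ∀ x ∈ D, ∀ y ∉ D, G.Adj (θ x) y ↔ G.Adj x y := fun x hx y hy =>
    adj_cross (fun h' => hy (Cm_equiv.trans (h.bij.mapsTo hx) h'))
      (fun h' => hy (Cm_equiv.trans hx h')) (h.col x hx).symm rfl
  have hb : Function.Bijective f := by
    have b0 : BijOn f D D := h.bij.congr fun x hx => (e0 x hx).symm
    have b1 : BijOn f Dᶜ Dᶜ := (bijOn_id _).congr fun x hx => (e1 x hx).symm
    have := b0.union b1 ((injOn_union disjoint_compl_right).2 ⟨b0.injOn, b1.injOn,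
      fun x hx y hy e => (b1.mapsTo hy) (e ▸ b0.mapsTo hx)⟩)
    rwa [union_compl_self, bijOn_univ] at this
  refine ⟨⟨Equiv.ofBijective f hb, fun {x y} => ?_⟩, e0, e1⟩
  change G.Adj (f x) (f y) ↔ G.Adj x y
  by_cases hx : x ∈ D <;> by_cases hy : y ∈ D
  · rw [e0 x hx, e0 y hy, h.adj x hx y hy]
  · rw [e0 x hx, e1 y hy, mixed x hx y hy]
  · rw [e1 x hx, e0 y hy, G.adj_comm, mixed y hy x hx, G.adj_comm]
  · rw [e1 x hx, e1 y hy]

omit [Finite V] [Finite V'] in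
theorem exit_aux {α β : Type} {E : α → α → Prop} {E' : β → β → Prop} {D : Set α} {ψ : α → β}
    {u : α} (h1 : ∀ a ∈ D, ∀ x ∈ D, E a x → E' (ψ a) (ψ x))
    (h2 : ∀ a ∉ D, Relation.ReflTransGen E u a →
      ∃ a', Relation.ReflTransGen E' (ψ u) a' ∧ ∀ x ∈ D, E a x → E' a' (ψ x))
    {x : α} (h : Relation.ReflTransGen E u x) : x ∈ D → Relation.ReflTransGen E' (ψ u) (ψ x) := by
  induction h with
  | refl => exact fun _ => .refl
  | @tail a x ha hax ih =>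
    intro hx
    by_cases hD : a ∈ D
    · exact (ih hD).tail (h1 a hD x hx hax)
    · obtain ⟨a', e1, e2⟩ := h2 a hD ha
      exact e1.tail (e2 x hx hax)

section Step

variable {X S Y T S₀ : Set V} {P PT Q : Set (V × V')}

theorem stepA (hR : Rep G r Y T) (ih : Claim k G H Y T) (hQ : Prod.fst '' Q = S₀)
    (hT : Prod.fst '' PT = T) (hTQ : PT ⊆ Q) (hS : S₀ ∩ Y ⊆ T) (hk : Q.ncard + 3 ≤ k) {u u'}
    (hu : u ∈ Y) (hW : W k G H (insert (u, u') Q)) :
    ∃ ψ, Iso G H (col k G G (diag S₀)) (col k G H Q) {x | Cm k G Y T G (diag T) u x}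
      {x | Cm k G Y T H PT u' x} ψ ∧ ψ u = u' := by
  have : Nonempty V := ⟨u⟩
  have hc : PT.ncard ≤ Q.ncard := ncard_le_ncard hTQ
  have hc' : T.ncard + 1 < k := by
    have : T.ncard ≤ PT.ncard := hT ▸ ncard_image_le
    omega
  obtain ⟨ψ, hψ, hψu⟩ := ih PT hT u hu u' (hW.sub (insert_subset_insert hTQ))
  refine ⟨ψ, ⟨hψ.bij, fun x hx => ?_, hψ.adj⟩, hψu⟩
  obtain ⟨z, hz⟩ := hW.bwd ((ncard_ins _ _ le_rfl).trans_lt (by omega)) (ψ x)
  have hx' : Cm k G Y T H PT u' (ψ x) := hψ.bij.mapsTo hx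
  have hzD : Cm k G Y T G (diag T) u z :=
    ((Cm_inv hT (by omega)).mono hTQ _ _ _ _ (swap_ins hz)).2 hx'
  have hz' : W k G H (insert (z, ψ x) Q) := hz.sub (insert_subset_insert (subset_insert _ _))
  obtain ⟨ψ', hψ', hψz⟩ := ih PT hT z ((hR.mem_iff hc' hzD).1 hu) _
    (hz'.sub (insert_subset_insert hTQ))
  rw [class_eq Cm_equiv hzD, class_eq Cm_equiv hx'] at hψ'
  have hθ := hψ.comp hψ'.symm
  obtain ⟨e, e0, e1⟩ := exists_auto hθ
  rw [← (col_eq_iff hQ).2 hz', eq_comm, col_eq_iff (fst_diag S₀)]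
  refine W.of_iso e ?_
  rintro _ (rfl | ⟨s, hs, rfl⟩)
  · rw [e0 x hx, Function.comp_apply, ← hψz]
    exact hψ'.bij.invOn_invFunOn.1 hzD
  · by_cases h : Cm k G Y T G (diag T) u s
    · exact (e0 s h).trans (eq_of_col (hθ.col s h) (hS ⟨hs, (hR.mem_iff hc' h).1 hu⟩))
    · exact e1 s h

theorem stepB (hQ : Prod.fst '' Q = S₀) (hT : Prod.fst '' PT = T) (hTQ : PT ⊆ Q)
    (hP : Prod.fst '' P = S) (hPQ : P ⊆ Q) (hk : Q.ncard + 3 ≤ k) {u u' ψ}
    (hW : W k G H (insert (u, u') Q))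
    (hψ : Iso G H (col k G G (diag S₀)) (col k G H Q) {x | Cm k G Y T G (diag T) u x}
      {x | Cm k G Y T H PT u' x} ψ) (hψu : ψ u = u') :
    Iso G H (col k G G (diag S₀)) (col k G H Q)
      {x | Cm k G Y T G (diag T) u x ∧ Cm k G X S G (diag S) u x}
      {x | Cm k G Y T H PT u' x ∧ Cm k G X S H P u' x} ψ := by
  have : Nonempty V := ⟨u⟩
  have hc : PT.ncard ≤ Q.ncard := ncard_le_ncard hTQ
  have hc' : P.ncard ≤ Q.ncard := ncard_le_ncard hPQ
  have hk' : (insert (u, u') Q).ncard < k := (ncard_ins _ _ le_rfl).trans_lt (by omega)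
  have iY := (Cm_inv (X := Y) (G := G) (H := H) hT (by omega : PT.ncard + 3 ≤ k)).mono hTQ
  have iX := (Cm_inv (X := X) (G := G) (H := H) hP (by omega : P.ncard + 3 ≤ k)).mono hPQ
  set D := {x | Cm k G Y T G (diag T) u x} with hD
  set D' := {x | Cm k G Y T H PT u' x} with hD'
  have hFA : ∀ {a a' x x'}, (G.Adj a x ↔ H.Adj a' x') →
      col k G H Q a' = col k G G (diag S₀) a → col k G H Q x' = col k G G (diag S₀) x →
      (FA k G X S G (diag S) a x ↔ FA k G X S H P a' x') := by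
    intro a a' x x' h e1 e2
    unfold FA
    rw [h, col_mono hP hQ hPQ e1, col_mono hP hQ hPQ e2]
  have h1 : ∀ a ∈ D, ∀ x ∈ D, FA k G X S G (diag S) a x ↔ FA k G X S H P (ψ a) (ψ x) :=
    fun a ha x hx => hFA (hψ.adj a ha x hx) (hψ.col a ha) (hψ.col x hx)
  have h2 : ∀ a a', W k G H (insert (a, a') (insert (u, u') Q)) → a ∉ D → ∀ x ∈ D,
      (FA k G X S G (diag S) a x ↔ FA k G X S H P a' (ψ x)) := by
    intro a a' h ha x hx
    have ha' : a' ∉ D' := fun h' => ha ((iY _ _ _ _ (swap_ins h)).2 h')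
    have e1 := ((col_eq_iff hQ).2 (h.sub (insert_subset_insert (subset_insert _ _)))).symm
    exact hFA (adj_cross (fun h' => ha (Cm_equiv.trans hx (Cm_equiv.symm h')))
      (fun h' => ha' (Cm_equiv.trans (hψ.bij.mapsTo hx) (Cm_equiv.symm h')))
      (col_mono hT hQ hTQ e1) (col_mono hT hQ hTQ (hψ.col x hx))) e1 (hψ.col x hx)
  have hi := hψ.bij.invOn_invFunOn
  have hb := hψ.symm.bij
  have hu' : Function.invFunOn ψ D u' = u := hψu ▸ hi.1 (Cm_equiv.refl u)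
  have key : ψ '' {x | Cm k G Y T G (diag T) u x ∧ Cm k G X S G (diag S) u x} =
      {x | Cm k G Y T H PT u' x ∧ Cm k G X S H P u' x} := by
    refine Subset.antisymm ?_ fun x' hx' => ⟨Function.invFunOn ψ D x', ⟨hb.mapsTo hx'.1, ?_⟩,
      hi.2 hx'.1⟩
    · rintro _ ⟨x, hx, rfl⟩
      refine ⟨hψ.bij.mapsTo hx.1, hψu ▸ exit_aux (D := D) (fun a ha x hx => (h1 a ha x hx).1)
        (fun a ha h => ?_) hx.2 hx.1⟩
      obtain ⟨a', h'⟩ := hW.fwd hk' a
      exact ⟨a', hψu ▸ (iX _ _ _ _ (swap_ins h')).1 h, fun x hx => (h2 a a' h' ha x hx).1⟩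
    · refine hu' ▸ exit_aux (D := D') (ψ := Function.invFunOn ψ D) (fun a ha x hx h => ?_)
        (fun a' ha' h => ?_) hx'.2 hx'.1
      · rw [h1 _ (hb.mapsTo ha) _ (hb.mapsTo hx), hi.2 ha, hi.2 hx]
        exact h
      · obtain ⟨a, h'⟩ := hW.bwd hk' a'
        refine ⟨a, hu'.symm ▸ (iX _ _ _ _ (swap_ins h')).2 h, fun x hx hE => ?_⟩
        rw [h2 a a' h' (fun ha => ha' ((iY _ _ _ _ (swap_ins h')).1 ha)) _ (hb.mapsTo hx), hi.2 hx]
        exact hE
  exact key ▸ hψ.restrict fun x hx => hx.1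

omit [Finite V] [Finite V'] in
theorem equiv_and {α : Type} {e e' : α → α → Prop} (h : Equivalence e) (h' : Equivalence e') :
    Equivalence fun x y => e x y ∧ e' x y :=
  ⟨fun x => ⟨h.refl x, h'.refl x⟩, fun a => ⟨h.symm a.1, h'.symm a.2⟩,
    fun a b => ⟨h.trans a.1 b.1, h'.trans a.2 b.2⟩⟩

theorem stepC (hR : Rep G r Y T) (ih : Claim k G H Y T) (hQ : Prod.fst '' Q = S₀)
    (hT : Prod.fst '' PT = T) (hTQ : PT ⊆ Q) (hS : S₀ ∩ Y ⊆ T)
    (hP : Prod.fst '' P = S) (hPQ : P ⊆ Q) (hk : Q.ncard + 3 ≤ k)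
    {L : V → V → Prop} {L' : V' → V' → Prop} (eL : Equivalence L) (eL' : Equivalence L')
    (iL : Inv k G H Q L L')
    (l1 : ∀ x y, Cm k G Y T G (diag T) x y ∧ Cm k G X S G (diag S) x y → L x y)
    (l1' : ∀ x y, Cm k G Y T H PT x y ∧ Cm k G X S H P x y → L' x y)
    (l2 : ∀ x y, L x y → Cm k G X S G (diag S) x y) (l2' : ∀ x y, L' x y → Cm k G X S H P x y)
    {u u'} (hu : ∀ x, L u x → x ∈ Y) (hW : W k G H (insert (u, u') Q)) :
    ∃ ψ, Iso G H (col k G G (diag S₀)) (col k G H Q) {x | L u x} {x | L' u' x} ψ ∧ ψ u = u' := by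
  have blk : ∀ w w', w ∈ Y → W k G H (insert (w, w') Q) →
      ∃ ψ, Iso G H (col k G G (diag S₀)) (col k G H Q)
        {x | Cm k G Y T G (diag T) w x ∧ Cm k G X S G (diag S) w x}
        {x | Cm k G Y T H PT w' x ∧ Cm k G X S H P w' x} ψ ∧ ψ w = w' := fun w w' hw h =>
    let ⟨ψ, h1, h2⟩ := stepA hR ih hQ hT hTQ hS hk hw h
    ⟨ψ, stepB hQ hT hTQ hP hPQ hk h h1 h2, h2⟩
  obtain ⟨φ, hφ⟩ := hW.ext ((ncard_ins _ _ le_rfl).trans_lt (by omega))
  obtain ⟨ψ₀, h₀, h₀'⟩ := blk u u' (hu u (eL.refl u)) hW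
  obtain ⟨ψ, h1, h2⟩ := glue (U := {x | L u x}) (U' := {x | L' u' x})
    (equiv_and Cm_equiv Cm_equiv) (equiv_and Cm_equiv Cm_equiv)
    (fun x hx y h => eL.trans hx (l1 x y h)) (fun x hx y h => eL'.trans hx (l1' x y h))
    (fun x hx y hy x' hx' y' hy' e1 e2 n n' => adj_cross
      (fun h => n ⟨h, l2 _ _ (eL.trans (eL.symm hx) hy)⟩)
      (fun h => n' ⟨h, l2' _ _ (eL'.trans (eL'.symm hx') hy')⟩)
      (col_mono hT hQ hTQ e1) (col_mono hT hQ hTQ e2))
    φ (fun w => iL _ _ _ _ (swap_ins (hφ w)))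
    (fun w hw => (blk w (φ w) (hu w hw)
      ((hφ w).sub (insert_subset_insert (subset_insert _ _)))).imp fun _ h => h.1)
    (eL.refl u) (eL'.refl u') h₀
  exact ⟨ψ, h1, h2.trans h₀'⟩

end Step

theorem claim_union {X Y S S₁ S₂ : Set V} (hd : Disjoint X Y) (hR : Rep G r (X ∪ Y) S)
    (R₁ : Rep G r X S₁) (R₂ : Rep G r Y S₂) (s₁ : (S ∪ S₁ ∪ S₂) ∩ X ⊆ S₁)
    (s₂ : (S ∪ S₁ ∪ S₂) ∩ Y ⊆ S₂) (ih₁ : Claim k G H X S₁) (ih₂ : Claim k G H Y S₂)
    (hk : 3 * r + 3 ≤ k) : Claim k G H (X ∪ Y) S := by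
  intro P hP v hv v' hW
  have c0 := hR.card
  have c1 := R₁.card
  have c2 := R₂.card
  have cP : P.ncard ≤ r := by rwa [(hW.sub (subset_insert _ _)).ncard_eq, hP]
  obtain ⟨Q₀, q1, q2, q3⟩ := hW.extend (S₁ ∪ S₂) (by
    have := ncard_insert_le (v, v') P
    have := ncard_union_le S₁ S₂
    omega)
  have img : ∀ A ⊆ S ∪ S₁ ∪ S₂, Prod.fst '' (Q₀ ∩ Prod.fst ⁻¹' A) = A := fun A hA => by
    rw [image_inter_preimage, q3, inter_eq_right, image_insert_eq, hP]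
    intro x hx
    rcases hA hx with (h | h) | h
    exacts [Or.inl (Or.inr h), Or.inr (Or.inl h), Or.inr (Or.inr h)]
  set Q := Q₀ ∩ Prod.fst ⁻¹' (S ∪ S₁ ∪ S₂) with hQdef
  set P₁ := Q₀ ∩ Prod.fst ⁻¹' S₁ with hP₁def
  set P₂ := Q₀ ∩ Prod.fst ⁻¹' S₂ with hP₂def
  have hQ := img _ Subset.rfl
  have hP₁ := img S₁ fun x hx => Or.inl (Or.inr hx)
  have hP₂ := img S₂ fun x hx => Or.inr hx
  have h1Q : P₁ ⊆ Q := fun p hp => ⟨hp.1, Or.inl (Or.inr hp.2)⟩
  have h2Q : P₂ ⊆ Q := fun p hp => ⟨hp.1, Or.inr hp.2⟩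
  have hPQ : P ⊆ Q := fun p hp => ⟨q1 (Or.inr hp), Or.inl (Or.inl (hP ▸ mem_image_of_mem _ hp))⟩
  have hWQ : W k G H (insert (v, v') Q) :=
    q2.sub (insert_subset (q1 (mem_insert _ _)) inter_subset_left)
  have hkQ : Q.ncard + 3 ≤ k := by
    rw [(q2.sub inter_subset_left).ncard_eq, hQ]
    have := ncard_union_le (S ∪ S₁) S₂
    have := ncard_union_le S S₁
    omega
  have k1 : P₁.ncard ≤ Q.ncard := ncard_le_ncard h1Q
  have k2 : P₂.ncard ≤ Q.ncard := ncard_le_ncard h2Q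
  let C := Cm k G (X ∪ Y) S G (diag S)
  let C' := Cm k G (X ∪ Y) S H P
  let L := Relation.ReflTransGen fun x y => (Cm k G X S₁ G (diag S₁) x y ∧ C x y) ∨
    (Cm k G Y S₂ G (diag S₂) x y ∧ C x y)
  let L' := Relation.ReflTransGen fun x y => (Cm k G X S₁ H P₁ x y ∧ C' x y) ∨
    (Cm k G Y S₂ H P₂ x y ∧ C' x y)
  have eL : Equivalence L := equiv_closure fun x y h =>
    h.imp (equiv_and Cm_equiv Cm_equiv).symm (equiv_and Cm_equiv Cm_equiv).symm
  have eL' : Equivalence L' := equiv_closure fun x y h =>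
    h.imp (equiv_and Cm_equiv Cm_equiv).symm (equiv_and Cm_equiv Cm_equiv).symm
  have iC : Inv k G H Q C C' := (Cm_inv hP (by omega)).mono hPQ
  have iL : Inv k G H Q L L' := Inv.closure (fun x y x' y' h => by
    rw [iC _ _ _ _ h, (Cm_inv (P := P₁) hP₁ (by omega)).mono h1Q _ _ _ _ h,
      (Cm_inv (P := P₂) hP₂ (by omega)).mono h2Q _ _ _ _ h]) hkQ
  have l2 : ∀ x y, L x y → C x y := fun x y h => by
    induction h with
    | refl => exact Cm_equiv.refl _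
    | tail _ h ih => exact Cm_equiv.trans ih (h.elim And.right And.right)
  have l2' : ∀ x y, L' x y → C' x y := fun x y h => by
    induction h with
    | refl => exact Cm_equiv.refl _
    | tail _ h ih => exact Cm_equiv.trans ih (h.elim And.right And.right)
  have side : ∀ u ∈ X ∪ Y, ∀ x, L u x → (u ∈ X ↔ x ∈ X) ∧ (u ∈ Y ↔ x ∈ Y) := by
    intro u hu x h
    induction h with
    | refl => exact ⟨Iff.rfl, Iff.rfl⟩
    | @tail a b ha h ih =>
      have m1 : a ∈ X ∪ Y := (hR.mem_iff (by omega) (l2 _ _ ha)).1 hu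
      have m2 : b ∈ X ∪ Y := (hR.mem_iff (by omega) (h.elim And.right And.right)).1 m1
      have d1 : a ∈ X → a ∉ Y := fun h => hd.notMem_of_mem_left h
      have d2 : b ∈ X → b ∉ Y := fun h => hd.notMem_of_mem_left h
      rw [mem_union] at m1 m2
      rcases h with h | h
      · have := R₁.mem_iff (by omega) h.1
        tauto
      · have := R₂.mem_iff (by omega) h.1
        tauto
  have blk : ∀ w ∈ X ∪ Y, ∀ w', W k G H (insert (w, w') Q) →
      ∃ ψ, Iso G H (col k G G (diag (S ∪ S₁ ∪ S₂))) (col k G H Q) {x | L w x} {x | L' w' x} ψ ∧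
        ψ w = w' := by
    intro w hw w' h
    rcases id hw with hw' | hw'
    · exact stepC R₁ ih₁ hQ hP₁ h1Q s₁ hP hPQ hkQ eL eL' iL (fun _ _ h => .single (Or.inl h))
        (fun _ _ h => .single (Or.inl h)) l2 l2' (fun x hx => (side w hw x hx).1.1 hw') h
    · exact stepC R₂ ih₂ hQ hP₂ h2Q s₂ hP hPQ hkQ eL eL' iL (fun _ _ h => .single (Or.inr h))
        (fun _ _ h => .single (Or.inr h)) l2 l2' (fun x hx => (side w hw x hx).2.1 hw') h
  obtain ⟨φ, hφ⟩ := hWQ.ext ((ncard_ins _ _ le_rfl).trans_lt (by omega))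
  obtain ⟨ψ₀, h₀, h₀'⟩ := blk v hv v' hWQ
  obtain ⟨ψ, h1, h2⟩ := glue (U := {x | C v x}) (U' := {x | C' v' x}) eL eL'
    (fun x hx y h => Cm_equiv.trans hx (l2 x y h)) (fun x hx y h => Cm_equiv.trans hx (l2' x y h))
    (fun x hx y hy x' hx' y' hy' e1 e2 n n' => adj_cross
      (fun h => n (.single (Or.inl ⟨h, Cm_equiv.trans (Cm_equiv.symm hx) hy⟩)))
      (fun h => n' (.single (Or.inl ⟨h, Cm_equiv.trans (Cm_equiv.symm hx') hy'⟩)))
      (col_mono hP₁ hQ h1Q e1) (col_mono hP₁ hQ h1Q e2))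
    φ (fun w => iC _ _ _ _ (swap_ins (hφ w)))
    (fun w hw => (blk w ((hR.mem_iff (by omega) hw).1 hv) (φ w)
      ((hφ w).sub (insert_subset_insert (subset_insert _ _)))).imp fun _ h => h.1)
    (Cm_equiv.refl v) (Cm_equiv.refl v') h₀
  exact ⟨ψ, ⟨h1.bij, fun x hx => col_mono hP hQ hPQ (h1.col x hx), h1.adj⟩, h2.trans h₀'⟩

theorem claim_small {X S : Set V} (hX : X.Subsingleton) (hR : Rep G r X S) (hk : r + 3 ≤ k) :
    Claim k G H X S := by
  intro P hP v hv v' hW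
  have c0 := hR.card
  have cP : P.ncard ≤ r := by rwa [(hW.sub (subset_insert _ _)).ncard_eq, hP]
  have e1 : {x | Cm k G X S G (diag S) v x} = {v} :=
    eq_singleton_iff_unique_mem.2 ⟨Cm_equiv.refl v, fun x hx =>
      hX ((hR.mem_iff (by omega) hx).1 hv) hv⟩
  have e2 : {x | Cm k G X S H P v' x} = {v'} := by
    refine eq_singleton_iff_unique_mem.2 ⟨Cm_equiv.refl v', fun x' hx => ?_⟩
    obtain ⟨x, h⟩ := hW.bwd ((ncard_ins _ _ le_rfl).trans_lt (by omega)) x'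
    have : x ∈ ({v} : Set V) := e1 ▸ (Cm_inv hP (by omega) _ _ _ _ (swap_ins h)).2 hx
    exact (h.eq (mem_insert _ _) (Or.inr (mem_insert _ _))).1 this
  rw [e1, e2]
  refine ⟨fun _ => v', ⟨bijOn_singleton.2 rfl, ?_, ?_⟩, rfl⟩
  · rintro x rfl
    exact ((col_eq_iff hP).2 hW).symm
  · rintro x rfl y rfl
    simp

theorem Dec.claim {X : Set V} (h : Dec G c X) (hk : 3 * (c + 2 ^ c) + 3 ≤ k) :
    ∀ S, Rep G (c + 2 ^ c) X S → Claim k G H X S := by
  induction h with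
  | small hX => exact fun S hR => claim_small hX hR (by omega)
  | union _ _ hd hX hY ih₁ ih₂ =>
    intro S hR
    obtain ⟨S₁, S₂, R₁, R₂, s₁, s₂⟩ := hR.split hd hX hY
    exact claim_union hd hR R₁ R₂ s₁ s₂ (ih₁ _ R₁) (ih₂ _ R₂) hk

/-- The pebble game identifies graphs with a decomposition of bounded width. -/
theorem Dec.iso (h : Dec G c univ) (hk : 3 * (c + 2 ^ c) + 3 ≤ k) (hW : W k G H ∅) :
    Nonempty (G ≃g H) := by
  have h2 : 0 < 2 ^ c := Nat.two_pow_pos c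
  obtain ⟨φ₀, hφ₀⟩ := hW.ext (by rw [ncard_empty]; omega)
  rcases isEmpty_or_nonempty V with hV | ⟨⟨v⟩⟩
  · exact ⟨⟨φ₀, fun {a} => isEmptyElim a⟩⟩
  set P : Set (V × V') := insert (v, φ₀ v) ∅ with hPdef
  have hP : Prod.fst '' P = {v} := by simp [hPdef]
  have cP : P.ncard = 1 := by simp [hPdef]
  have hR : Rep G (c + 2 ^ c) univ {v} :=
    ⟨fun x _ => ⟨v, rfl, trivial, fun y hy => absurd trivial hy⟩, fun y hy => absurd trivial hy,
      fun s hs _ t ht _ _ => hs.trans ht.symm, by rw [ncard_singleton]; omega⟩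
  have hC := h.claim (H := H) hk _ hR P hP
  obtain ⟨φ, hφ⟩ := W.ext (P := P) (hφ₀ v) (by omega)
  obtain ⟨ψ₀, h₀, -⟩ := hC v trivial _ (hφ v)
  obtain ⟨ψ, h1, -⟩ := glue (U := univ) (U' := univ) Cm_equiv Cm_equiv
    (fun _ _ _ _ => trivial) (fun _ _ _ _ => trivial)
    (fun x _ y _ x' _ y' _ e1 e2 n n' => adj_cross n n' e1 e2) φ (fun _ => Iff.rfl)
    (fun w _ => (hC w trivial _ (hφ w)).imp fun _ h => h.1) (mem_univ v) (mem_univ (φ v)) h₀
  exact ⟨⟨Equiv.ofBijective ψ (bijOn_univ.1 h1.bij),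
    fun {a b} => (h1.adj a trivial b trivial).symm⟩⟩

end Pool.Agent.Lib.MP_1595d8_lc.H16
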