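import Mathlib

/-!
Winning positions of the bijective pebble game, colours, invariant relations.
-/

open Set

namespace Pool.Agent.Lib.MP_1595d8_lc.H16

variable {V V' V'' : Type} {k : ℕ} {G : SimpleGraph V} {H : SimpleGraph V'} {K : SimpleGraph V''}

/-- A family of positions from which the second player can always continue. -/
structure Sys (k : ℕ) (G : SimpleGraph V) (H : SimpleGraph V') (R : Set (V × V') → Prop) :
    Prop where
  eq : ∀ {P}, R P → ∀ {x x' y y'}, (x, x') ∈ P → (y, y') ∈ P → (x = y ↔ x' = y')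
  adj : ∀ {P}, R P → ∀ {x x' y y'}, (x, x') ∈ P → (y, y') ∈ P → (G.Adj x y ↔ H.Adj x' y')
  sub : ∀ {P Q}, R P → Q ⊆ P → R Q
  ext : ∀ {P}, R P → P.Finite → P.ncard < k → ∃ φ : V ≃ V', ∀ w, R (insert (w, φ w) P)

/-- Winning positions. -/
def W (k : ℕ) (G : SimpleGraph V) (H : SimpleGraph V') (P : Set (V × V')) : Prop :=
  ∃ R, Sys k G H R ∧ R P

namespace W

variable {P Q : Set (V × V')}

theorem eq (h : W k G H P) {x x' y y'} (h1 : (x, x') ∈ P) (h2 : (y, y') ∈ P) :
    x = y ↔ x' = y' := let ⟨_, hR, hP⟩ := h; hR.eq hP h1 h2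

theorem adj (h : W k G H P) {x x' y y'} (h1 : (x, x') ∈ P) (h2 : (y, y') ∈ P) :
    G.Adj x y ↔ H.Adj x' y' := let ⟨_, hR, hP⟩ := h; hR.adj hP h1 h2

theorem sub (h : W k G H P) (hQ : Q ⊆ P) : W k G H Q :=
  let ⟨R, hR, hP⟩ := h; ⟨R, hR, hR.sub hP hQ⟩

theorem ext [Finite V] [Finite V'] (h : W k G H P) (hk : P.ncard < k) :
    ∃ φ : V ≃ V', ∀ w, W k G H (insert (w, φ w) P) :=
  let ⟨R, hR, hP⟩ := h
  let ⟨φ, hφ⟩ := hR.ext hP (toFinite _) hk
  ⟨φ, fun w => ⟨R, hR, hφ w⟩⟩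

theorem of_iso (e : G ≃g H) (hP : ∀ p ∈ P, e p.1 = p.2) : W k G H P := by
  refine ⟨fun P => ∀ p ∈ P, e p.1 = p.2, ⟨?_, ?_, fun h hQ p hp => h p (hQ hp), ?_⟩, hP⟩
  · intro P h x x' y y' h1 h2
    rw [← show e x = x' from h _ h1, ← show e y = y' from h _ h2]
    exact e.injective.eq_iff.symm
  · intro P h x x' y y' h1 h2
    rw [← show e x = x' from h _ h1, ← show e y = y' from h _ h2]
    exact e.map_adj_iff.symm
  · intro P h _ _
    refine ⟨e.toEquiv, fun w p hp => ?_⟩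
    rcases hp with rfl | hp
    · rfl
    · exact h p hp

theorem symm [Finite V] [Finite V'] (h : W k G H P) {Q : Set (V' × V)}
    (hQ : ∀ q ∈ Q, (q.2, q.1) ∈ P) : W k H G Q := by
  refine ⟨fun Q => W k G H (Prod.swap '' Q), ⟨?_, ?_, fun h hQ => h.sub (image_mono hQ), ?_⟩,
    h.sub ?_⟩
  · intro Q h x x' y y' h1 h2
    exact (h.eq (mem_image_of_mem _ h1) (mem_image_of_mem _ h2)).symm
  · intro Q h x x' y y' h1 h2
    exact (h.adj (mem_image_of_mem _ h1) (mem_image_of_mem _ h2)).symm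
  · intro Q h _ hk
    obtain ⟨φ, hφ⟩ := h.ext ((ncard_image_le (toFinite _)).trans_lt hk)
    refine ⟨φ.symm, fun w => ?_⟩
    have := hφ (φ.symm w)
    rw [φ.apply_symm_apply] at this
    rwa [image_insert_eq]
  · rintro _ ⟨q, hq, rfl⟩
    exact hQ q hq

theorem trans [Finite V] [Finite V'] [Finite V''] (h : W k G H P) {Q : Set (V' × V'')}
    (h' : W k H K Q) {T : Set (V × V'')} (hT : ∀ t ∈ T, ∃ y, (t.1, y) ∈ P ∧ (y, t.2) ∈ Q) :
    W k G K T := by
  refine ⟨fun T => ∃ P Q, W k G H P ∧ W k H K Q ∧ ∀ t ∈ T, ∃ y, (t.1, y) ∈ P ∧ (y, t.2) ∈ Q,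
    ⟨?_, ?_, ?_, ?_⟩, P, Q, h, h', hT⟩
  · rintro T ⟨P, Q, h, h', hT⟩ x x' y y' h1 h2
    obtain ⟨a, a1, a2⟩ := hT _ h1
    obtain ⟨b, b1, b2⟩ := hT _ h2
    exact (h.eq a1 b1).trans (h'.eq a2 b2)
  · rintro T ⟨P, Q, h, h', hT⟩ x x' y y' h1 h2
    obtain ⟨a, a1, a2⟩ := hT _ h1
    obtain ⟨b, b1, b2⟩ := hT _ h2
    exact (h.adj a1 b1).trans (h'.adj a2 b2)
  · rintro T T' ⟨P, Q, h, h', hT⟩ hs
    exact ⟨P, Q, h, h', fun t ht => hT t (hs ht)⟩
  · rintro T ⟨P, Q, h, h', hT⟩ _ hk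
    choose y hy using hT
    have c1 : (range fun t : T => (t.1.1, y t.1 t.2)).ncard < k := by
      rw [← image_univ]
      exact (ncard_image_le (toFinite _)).trans_lt (by rwa [ncard_univ, Nat.card_coe_set_eq])
    have c2 : (range fun t : T => (y t.1 t.2, t.1.2)).ncard < k := by
      rw [← image_univ]
      exact (ncard_image_le (toFinite _)).trans_lt (by rwa [ncard_univ, Nat.card_coe_set_eq])
    obtain ⟨φ, hφ⟩ := (h.sub (range_subset_iff.2 fun t : T => (hy t.1 t.2).1)).ext c1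
    obtain ⟨φ', hφ'⟩ := (h'.sub (range_subset_iff.2 fun t : T => (hy t.1 t.2).2)).ext c2
    refine ⟨φ.trans φ', fun w => ⟨_, _, hφ w, hφ' (φ w), fun t ht => ?_⟩⟩
    rcases ht with rfl | ht
    · exact ⟨φ w, mem_insert _ _, mem_insert _ _⟩
    · exact ⟨y t ht, Or.inr ⟨⟨t, ht⟩, rfl⟩, Or.inr ⟨⟨t, ht⟩, rfl⟩⟩

end W

/-- The diagonal position over a set. -/
def diag (S : Set V) : Set (V × V) := (fun s => (s, s)) '' S

theorem mem_diag {S : Set V} {x y : V} : (x, y) ∈ diag S ↔ x ∈ S ∧ x = y := by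
  simp only [diag, mem_image, Prod.mk.injEq]
  exact ⟨fun ⟨_, h, e1, e2⟩ => ⟨e1 ▸ h, e1.symm.trans e2⟩, fun ⟨h, e⟩ => ⟨x, h, rfl, e⟩⟩

theorem fst_diag (S : Set V) : Prod.fst '' diag S = S := by
  rw [diag, image_image]; simp

theorem ncard_diag (S : Set V) : (diag S).ncard = S.ncard :=
  ncard_image_of_injective _ fun _ _ h => congrArg Prod.fst h

theorem W_refl (S : Set V) (x : V) : W k G G (insert (x, x) (diag S)) :=
  W.of_iso (RelIso.refl _) (by rintro _ (rfl | ⟨s, -, rfl⟩) <;> rfl)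

/-- The colour of a vertex of `H` relative to a position, as a set of vertices of `G`. -/
def col (k : ℕ) (G : SimpleGraph V) (H : SimpleGraph V') (P : Set (V × V')) (x' : V') : Set V :=
  {x | W k G H (insert (x, x') P)}

theorem self_mem_col (S : Set V) (x : V) : x ∈ col k G G (diag S) x := W_refl S x

variable [Finite V] [Finite V'] {P : Set (V × V')} {S : Set V}

theorem col_eq_iff (hS : Prod.fst '' P = S) {x : V} {x' : V'} :
    col k G G (diag S) x = col k G H P x' ↔ W k G H (insert (x, x') P) := by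
  refine ⟨fun h => (h ▸ self_mem_col S x : x ∈ col k G H P x'), fun h => ?_⟩
  ext z
  refine ⟨fun hz => W.trans hz h ?_, fun hz => W.trans hz (h.symm (Q := Prod.swap '' insert (x, x') P)
    (by rintro _ ⟨q, hq, rfl⟩; exact hq)) ?_⟩
  · rintro t (rfl | ht)
    · exact ⟨x, mem_insert _ _, mem_insert _ _⟩
    · exact ⟨t.1, Or.inr (mem_diag.2 ⟨hS ▸ mem_image_of_mem _ ht, rfl⟩), Or.inr ht⟩
  · rintro ⟨a, b⟩ (e | ht)
    · obtain ⟨rfl, rfl⟩ := Prod.mk.inj e
      exact ⟨x', mem_insert _ _, _, mem_insert _ _, rfl⟩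
    · obtain ⟨ha, rfl⟩ := mem_diag.1 ht
      obtain ⟨p, hp, rfl⟩ := hS.symm ▸ ha
      exact ⟨p.2, Or.inr hp, p, Or.inr hp, rfl⟩

theorem mem_col_iff {x z : V} :
    z ∈ col k G G (diag S) x ↔ col k G G (diag S) z = col k G G (diag S) x :=
  (col_eq_iff (fst_diag S)).symm

omit [Finite V] [Finite V'] in
theorem W.ncard_eq (h : W k G H P) : P.ncard = (Prod.fst '' P).ncard := by
  refine (InjOn.ncard_image ?_).symm
  rintro ⟨x, x'⟩ h1 ⟨y, y'⟩ h2 e
  exact Prod.ext e ((h.eq h1 h2).1 e)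

theorem ncard_ins {α : Type} (a : α) (s : Set α) {n : ℕ} (h : s.ncard + 1 ≤ n) :
    (insert a s).ncard ≤ n := (ncard_insert_le a s).trans h

theorem W.fwd (h : W k G H P) (hk : P.ncard < k) (z : V) : ∃ z', W k G H (insert (z, z') P) :=
  let ⟨φ, hφ⟩ := h.ext hk; ⟨φ z, hφ z⟩

theorem W.bwd (h : W k G H P) (hk : P.ncard < k) (z' : V') : ∃ z, W k G H (insert (z, z') P) := by
  obtain ⟨φ, hφ⟩ := h.ext hk
  exact ⟨φ.symm z', by simpa using hφ (φ.symm z')⟩

/-- Extension of a position to finitely many further vertices. -/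
theorem W.extend (h : W k G H P) (T : Set V) (hk : P.ncard + T.ncard ≤ k) :
    ∃ Q, P ⊆ Q ∧ W k G H Q ∧ Prod.fst '' Q = Prod.fst '' P ∪ T := by
  induction T, toFinite T using Set.Finite.induction_on with
  | empty => exact ⟨P, Subset.rfl, h, by simp⟩
  | @insert a T ha hT ih =>
    rw [ncard_insert_of_notMem ha] at hk
    obtain ⟨Q, h1, h2, h3⟩ := ih (by omega)
    have hc : Q.ncard < k := by
      rw [h2.ncard_eq, h3]
      have := ncard_union_le (Prod.fst '' P) T
      rw [← h.ncard_eq] at this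
      omega
    obtain ⟨a', ha'⟩ := h2.fwd hc a
    exact ⟨_, h1.trans (subset_insert _ _), ha', by rw [image_insert_eq, h3, union_insert]⟩

/-- Binary relations that cannot be told apart over a position. -/
def Inv (k : ℕ) (G : SimpleGraph V) (H : SimpleGraph V') (P : Set (V × V')) (e : V → V → Prop)
    (e' : V' → V' → Prop) : Prop :=
  ∀ x y x' y', W k G H (insert (x, x') (insert (y, y') P)) → (e x y ↔ e' x' y')

private theorem closure_aux {α β : Type} (M : α → α → β → β → Prop) {e : α → α → Prop}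
    {e' : β → β → Prop} (h0 : ∀ x x' y', M x x x' y' → x' = y')
    (h1 : ∀ x y x' y', M x y x' y' → ∀ z, ∃ z', M x z x' z' ∧ M z y z' y')
    (h2 : ∀ x y x' y', M x y x' y' → e x y → e' x' y') {x y} (h : Relation.ReflTransGen e x y) :
    ∀ x' y', M x y x' y' → Relation.ReflTransGen e' x' y' := by
  induction h using Relation.ReflTransGen.head_induction_on with
  | refl => intro x' y' hM; rw [h0 _ _ _ hM]
  | @head a z haz _ ih =>
    intro x' y' hM
    obtain ⟨z', m1, m2⟩ := h1 _ _ _ _ hM z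
    exact (ih _ _ m2).head (h2 _ _ _ _ m1 haz)

theorem Inv.closure {e : V → V → Prop} {e' : V' → V' → Prop} (h : Inv k G H P e e')
    (hk : P.ncard + 3 ≤ k) :
    Inv k G H P (Relation.ReflTransGen e) (Relation.ReflTransGen e') := by
  have hc : ∀ a b : V × V', (insert a (insert b P)).ncard < k := fun a b =>
    Nat.lt_of_succ_le ((Nat.succ_le_succ (ncard_ins _ _ (Nat.succ_le_succ
      (ncard_ins _ _ le_rfl)))).trans hk)
  have hs : ∀ {a b c : V × V'}, W k G H (insert c (insert a (insert b P))) →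
      W k G H (insert a (insert c P)) ∧ W k G H (insert c (insert b P)) := fun h =>
    ⟨h.sub (by intro t; simp only [mem_insert_iff]; tauto),
      h.sub (by intro t; simp only [mem_insert_iff]; tauto)⟩
  intro x y x' y' hW
  constructor
  · refine fun hr => closure_aux (fun x y x' y' => W k G H (insert (x, x') (insert (y, y') P)))
      (fun x x' y' h => (h.eq (mem_insert _ _) (Or.inr (mem_insert _ _))).1 rfl)
      (fun x y x' y' h z => ?_) (fun x y x' y' hW => (h x y x' y' hW).1) hr _ _ hW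
    obtain ⟨z', hz⟩ := h.fwd (hc _ _) z
    exact ⟨z', hs hz⟩
  · refine fun hr => closure_aux (fun x' y' x y => W k G H (insert (x, x') (insert (y, y') P)))
      (fun x x' y' h => (h.eq (mem_insert _ _) (Or.inr (mem_insert _ _))).2 rfl)
      (fun x y x' y' h z => ?_) (fun x' y' x y hW => (h x y x' y' hW).2) hr _ _ hW
    obtain ⟨z', hz⟩ := h.bwd (hc _ _) z
    exact ⟨z', hs hz⟩

omit [Finite V] [Finite V'] in
theorem Inv.mono {e : V → V → Prop} {e' : V' → V' → Prop} {Q : Set (V × V')}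
    (h : Inv k G H P e e') (hQ : P ⊆ Q) : Inv k G H Q e e' := fun x y x' y' hW =>
  h x y x' y' (hW.sub (insert_subset_insert (insert_subset_insert hQ)))

end Pool.Agent.Lib.MP_1595d8_lc.H16
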