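import Pool.Agent.Lib.MP_1595d8_lc.H89AC0

set_option maxRecDepth 100000
set_option linter.unusedVariables false

namespace Pool.Agent.Lib.MP_1595d8_lc

noncomputable section

theorem ar1_0 : Upto (RTat as4_0 al2 65535 ab4) 64 :=
  rt_step (lo := 0) (c := 64) (Upto.zero _) ac4

theorem aa1_0 : Upto (ALat as4_0 al2 65535 ab5) 64 :=
  al_step (lo := 0) (c := 64) ar1_0 (Upto.zero _) ac5 (by decide)

theorem arr7 : Upto (RTat as4_0 al2 30583 ab4) 64 := (rt_mono ar1_0 (by decide +kernel))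

theorem aaa7 : Upto (ALat as4_0 al2 30583 ab5) 64 := (al_mono aa1_0 (by decide +kernel))

theorem at7_0 : TRR as4_0 al2 30583 am3 ab6 0 64 64 :=
  tr_part (ly := 0) (cy := 64) arr7 aaa7 (TRR.zero _ _ _ _ _ _ _) ac6

theorem at7_1 : Upto (TRat as4_0 al2 30583 am3 ab6) 64 :=
  tr_fin (lo := 0) (c := 64) (Upto.zero _) at7_0

theorem ag8 (H : Bd [pK3, pDia, pK4, pW4, pGem, pP23]) : Good as4_0 al2 6 am7 :=
  good_clo bd3 ac7

theorem ar2_0 : Upto (RTat as10_0 al10 16383 ab11) 64 :=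
  rt_step (lo := 0) (c := 64) (Upto.zero _) ac14

theorem aa2_0 : Upto (ALat as10_0 al10 16383 ab12) 64 :=
  al_step (lo := 0) (c := 64) ar2_0 (Upto.zero _) ac15 (by decide)

theorem arr16 : Upto (RTat as10_0 al10 16383 ab11) 64 := ar2_0

theorem aaa16 : Upto (ALat as10_0 al10 16383 ab12) 64 := aa2_0

theorem at16_0 : TRR as10_0 al10 16383 am9 ab13 0 4 64 :=
  tr_part (ly := 0) (cy := 64) arr16 aaa16 (TRR.zero _ _ _ _ _ _ _) ac16

theorem at16_1 : Upto (TRat as10_0 al10 16383 am9 ab13) 4 :=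
  tr_fin (lo := 0) (c := 4) (Upto.zero _) at16_0

theorem at16_2 : TRR as10_0 al10 16383 am9 ab13 4 3 64 :=
  tr_part (ly := 0) (cy := 64) arr16 aaa16 (TRR.zero _ _ _ _ _ _ _) ac17

theorem at16_3 : Upto (TRat as10_0 al10 16383 am9 ab13) 7 :=
  tr_fin (lo := 4) (c := 3) at16_1 at16_2

theorem at16_4 : TRR as10_0 al10 16383 am9 ab13 7 57 64 :=
  tr_part (ly := 0) (cy := 64) arr16 aaa16 (TRR.zero _ _ _ _ _ _ _) ac18

theorem at16_5 : Upto (TRat as10_0 al10 16383 am9 ab13) 64 :=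
  tr_fin (lo := 7) (c := 57) at16_3 at16_4

theorem ar3_0 : Upto (RTat as14_0 al34 127 ab35) 64 :=
  rt_step (lo := 0) (c := 64) (Upto.zero _) ac23

theorem aa3_0 : Upto (ALat as14_0 al34 127 ab36) 64 :=
  al_step (lo := 0) (c := 64) ar3_0 (Upto.zero _) ac24 (by decide)

theorem arr22 : Upto (RTat as14_0 al34 127 ab35) 64 := ar3_0

theorem aaa22 : Upto (ALat as14_0 al34 127 ab36) 64 := aa3_0

theorem at22_0 : TRR as14_0 al34 127 am33 ab37 0 64 64 :=
  tr_part (ly := 0) (cy := 64) arr22 aaa22 (TRR.zero _ _ _ _ _ _ _) ac25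

theorem at22_1 : Upto (TRat as14_0 al34 127 am33 ab37) 64 :=
  tr_fin (lo := 0) (c := 64) (Upto.zero _) at22_0

theorem ag23 (H : Bd [pK3, pDia, pK4, pW4, pGem, pP23]) : Good as14_0 al34 5 am38 :=
  good_clo bd3 ac26

theorem ag24 (H : Bd [pK3, pDia, pK4, pW4, pGem, pP23]) : Good as14_0 al34 17 am39 :=
  good_clo bd3 ac27

theorem ag25 (H : Bd [pK3, pDia, pK4, pW4, pGem, pP23]) : Good as14_0 al34 65 am40 :=
  good_clo bd3 ac28

theorem ag26 (H : Bd [pK3, pDia, pK4, pW4, pGem, pP23]) : Good as14_0 al34 18 am41 :=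
  good_clo bd3 ac29

theorem ag27 (H : Bd [pK3, pDia, pK4, pW4, pGem, pP23]) : Good as14_0 al34 66 am42 :=
  good_clo bd3 ac30

theorem ag28 (H : Bd [pK3, pDia, pK4, pW4, pGem, pP23]) : Good as14_0 al34 12 am43 :=
  good_clo bd3 ac31

theorem ag29 (H : Bd [pK3, pDia, pK4, pW4, pGem, pP23]) : Good as14_0 al34 20 am44 :=
  good_clo bd3 ac32

theorem ag30 (H : Bd [pK3, pDia, pK4, pW4, pGem, pP23]) : Good as14_0 al34 36 am45 :=
  good_clo bd3 ac33

theorem ag31 (H : Bd [pK3, pDia, pK4, pW4, pGem, pP23]) : Good as14_0 al34 68 am46 :=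
  good_clo bd3 ac34

theorem ae32_0 : Upto (DegAt as14_0 al34 43 ab49) 64 :=
  deg_step (lo := 0) (c := 64) (Upto.zero _) ac35

theorem ag32 (H : Bd [pK3, pDia, pK4, pW4, pGem, pP23]) : Good as14_0 al34 43 am47 :=
  good_deg ae32_0 ac36

theorem ag33 (H : Bd [pK3, pDia, pK4, pW4, pGem, pP23]) : Good as14_0 al34 72 am15 :=
  good_clo bd3 ac37

theorem ag34 (H : Bd [pK3, pDia, pK4, pW4, pGem, pP23]) : Good as14_0 al34 48 am48 :=
  good_clo bd3 ac38

theorem ag35 (H : Bd [pK3, pDia, pK4, pW4, pGem, pP23]) : Good as14_0 al34 80 am20 :=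
  good_clo bd3 ac39

theorem ag22 (H : Bd [pK3, pDia, pK4, pW4, pGem, pP23]) : Good as14_0 al34 127 am33 :=
  good_mach aaa22 at22_1 ac40
    (AllGood.cons (ag23 H) (AllGood.cons (ag24 H) (AllGood.cons (ag25 H) (AllGood.cons (ag26 H) (AllGood.cons (ag27 H) (AllGood.cons (ag28 H) (AllGood.cons (ag29 H) (AllGood.cons (ag30 H) (AllGood.cons (ag31 H) (AllGood.cons (ag32 H) (AllGood.cons (ag33 H) (AllGood.cons (ag34 H) (AllGood.cons (ag35 H) (AllGood.nil _ _))))))))))))))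

theorem ag21 (H : Bd [pK3, pDia, pK4, pW4, pGem, pP23]) : Good as14_0 al10 39 am14 :=
  good_cov ac41 (ag22 H)

theorem das14d0_0 : DerTo as14 as14d0 16 :=
  DerTo.step (lo := 0) (c := 16) (DerTo.zero _ _) ac42

theorem das14d0 : Der as14 as14d0 := DerTo.fin das14d0_0 ac43

theorem ag20 (H : Bd [pK3, pDia, pK4, pW4, pGem, pP23]) : Good as13_0 al10 39 am14 :=
  good_flag ac22 (good_der das14d0 (ag21 H))

theorem das13d0_0 : DerTo as13 as13d0 3 :=
  DerTo.step (lo := 0) (c := 3) (DerTo.zero _ _) ac44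

theorem das13d0 : Der as13 as13d0 := DerTo.fin das13d0_0 ac45

theorem ag19 (H : Bd [pK3, pDia, pK4, pW4, pGem, pP23]) : Good as12_0 al10 39 am14 :=
  good_flag ac21 (good_der das13d0 (ag20 H))

theorem das12d0_0 : DerTo as12 as12d0 3 :=
  DerTo.step (lo := 0) (c := 3) (DerTo.zero _ _) ac46

theorem das12d0 : Der as12 as12d0 := DerTo.fin das12d0_0 ac47

theorem ag18 (H : Bd [pK3, pDia, pK4, pW4, pGem, pP23]) : Good as11_0 al10 39 am14 :=
  good_flag ac20 (good_der das12d0 (ag19 H))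

theorem das11d0_0 : DerTo as11 as11d0 3 :=
  DerTo.step (lo := 0) (c := 3) (DerTo.zero _ _) ac48

theorem das11d0 : Der as11 as11d0 := DerTo.fin das11d0_0 ac49

theorem ag17 (H : Bd [pK3, pDia, pK4, pW4, pGem, pP23]) : Good as10_0 al10 39 am14 :=
  good_flag ac19 (good_der das11d0 (ag18 H))

theorem ag36 (H : Bd [pK3, pDia, pK4, pW4, pGem, pP23]) : Good as10_0 al10 72 am15 :=
  good_clo bd3 ac50

theorem ag37 (H : Bd [pK3, pDia, pK4, pW4, pGem, pP23]) : Good as10_0 al10 136 am16 :=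
  good_clo bd3 ac51

theorem ag38 (H : Bd [pK3, pDia, pK4, pW4, pGem, pP23]) : Good as10_0 al10 2056 am17 :=
  good_clo bd3 ac52

theorem ag39 (H : Bd [pK3, pDia, pK4, pW4, pGem, pP23]) : Good as10_0 al10 8200 am18 :=
  good_clo bd3 ac53

theorem ar4_0 : Upto (RTat as20_0 al52 255 ab53) 64 :=
  rt_step (lo := 0) (c := 64) (Upto.zero _) ac60

theorem aa4_0 : Upto (ALat as20_0 al52 255 ab54) 64 :=
  al_step (lo := 0) (c := 64) ar4_0 (Upto.zero _) ac61 (by decide)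

theorem arr47 : Upto (RTat as20_0 al52 255 ab53) 64 := ar4_0

theorem aaa47 : Upto (ALat as20_0 al52 255 ab54) 64 := aa4_0

theorem at47_0 : TRR as20_0 al52 255 am51 ab55 0 64 64 :=
  tr_part (ly := 0) (cy := 64) arr47 aaa47 (TRR.zero _ _ _ _ _ _ _) ac62

theorem at47_1 : Upto (TRat as20_0 al52 255 am51 ab55) 64 :=
  tr_fin (lo := 0) (c := 64) (Upto.zero _) at47_0

theorem ag49 (H : Bd [pK3, pDia, pK4, pW4, pGem, pP23]) : Good as20_0 (pk 256 [0x4]) 1 0x1 :=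
  good_clo bd_P4 ac63

theorem ag48 (H : Bd [pK3, pDia, pK4, pW4, pGem, pP23]) : Good as20_0 al52 12 am43 :=
  good_cov ac64 (ag49 H)

theorem ag51 (H : Bd [pK3, pDia, pK4, pW4, pGem, pP23]) : Good as20_0 (pk 256 [0x4]) 1 0x1 :=
  good_clo bd_P4 ac65

theorem ag50 (H : Bd [pK3, pDia, pK4, pW4, pGem, pP23]) : Good as20_0 al52 68 am46 :=
  good_cov ac66 (ag51 H)

theorem ag53 (H : Bd [pK3, pDia, pK4, pW4, pGem, pP23]) : Good as20_0 (pk 256 [0x4]) 1 0x1 :=
  good_clo bd_P4 ac67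

theorem ag52 (H : Bd [pK3, pDia, pK4, pW4, pGem, pP23]) : Good as20_0 al52 24 am56 :=
  good_cov ac68 (ag53 H)

theorem ar8_0 : Upto (RTat as21_0 al62 63 ab63) 64 :=
  rt_step (lo := 0) (c := 64) (Upto.zero _) ac70

theorem aa8_0 : Upto (ALat as21_0 al62 63 ab64) 64 :=
  al_step (lo := 0) (c := 64) ar8_0 (Upto.zero _) ac71 (by decide)

theorem arr56 : Upto (RTat as21_0 al62 63 ab63) 64 := ar8_0

theorem aaa56 : Upto (ALat as21_0 al62 63 ab64) 64 := aa8_0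

theorem at56_0 : TRR as21_0 al62 63 am61 ab65 0 64 64 :=
  tr_part (ly := 0) (cy := 64) arr56 aaa56 (TRR.zero _ _ _ _ _ _ _) ac72

theorem at56_1 : Upto (TRat as21_0 al62 63 am61 ab65) 64 :=
  tr_fin (lo := 0) (c := 64) (Upto.zero _) at56_0

theorem ag57 (H : Bd [pK3, pDia, pK4, pW4, pGem, pP23]) : Good as21_0 al62 22 am66 :=
  good_clo bd3 ac73

theorem ag58 (H : Bd [pK3, pDia, pK4, pW4, pGem, pP23]) : Good as21_0 al62 37 am67 :=
  good_clo bd3 ac74

theorem ag59 (H : Bd [pK3, pDia, pK4, pW4, pGem, pP23]) : Good as21_0 al62 25 am68 :=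
  good_clo bd3 ac75

theorem ag61 (H : Bd [pK3, pDia, pK4, pW4, pGem, pP23]) : Good as21_0 (pk 256 [0x4]) 1 0x1 :=
  good_clo bd_P4 ac76

theorem ag60 (H : Bd [pK3, pDia, pK4, pW4, pGem, pP23]) : Good as21_0 al62 40 am69 :=
  good_cov ac77 (ag61 H)

theorem ag56 (H : Bd [pK3, pDia, pK4, pW4, pGem, pP23]) : Good as21_0 al62 63 am61 :=
  good_mach aaa56 at56_1 ac78
    (AllGood.cons (ag57 H) (AllGood.cons (ag58 H) (AllGood.cons (ag59 H) (AllGood.cons (ag60 H) (AllGood.nil _ _)))))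

theorem ag55 (H : Bd [pK3, pDia, pK4, pW4, pGem, pP23]) : Good as21_0 al52 163 am57 :=
  good_cov ac79 (ag56 H)

theorem das21d0_0 : DerTo as21 as21d0 3 :=
  DerTo.step (lo := 0) (c := 3) (DerTo.zero _ _) ac80

theorem das21d0 : Der as21 as21d0 := DerTo.fin das21d0_0 ac81

theorem ag54 (H : Bd [pK3, pDia, pK4, pW4, pGem, pP23]) : Good as20_0 al52 163 am57 :=
  good_flag ac69 (good_der das21d0 (ag55 H))

theorem ag47 (H : Bd [pK3, pDia, pK4, pW4, pGem, pP23]) : Good as20_0 al52 255 am51 :=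
  good_mach aaa47 at47_1 ac82
    (AllGood.cons (ag48 H) (AllGood.cons (ag50 H) (AllGood.cons (ag52 H) (AllGood.cons (ag54 H) (AllGood.nil _ _)))))

theorem ag46 (H : Bd [pK3, pDia, pK4, pW4, pGem, pP23]) : Good as20_0 al10 58 am19 :=
  good_cov ac83 (ag47 H)

theorem das20d0_0 : DerTo as20 as20d0 7 :=
  DerTo.step (lo := 0) (c := 7) (DerTo.zero _ _) ac84

theorem das20d0 : Der as20 as20d0 := DerTo.fin das20d0_0 ac85

theorem ag45 (H : Bd [pK3, pDia, pK4, pW4, pGem, pP23]) : Good as19 al10 58 am19 :=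
  good_flag ac59 (good_der das20d0 (ag46 H))

theorem ag44 (H : Bd [pK3, pDia, pK4, pW4, pGem, pP23]) : Good as18_0 al10 58 am19 :=
  good_flag ac58 (ag45 H)

theorem das18d0_0 : DerTo as18 as18d0 2 :=
  DerTo.step (lo := 0) (c := 2) (DerTo.zero _ _) ac86

theorem das18d0 : Der as18 as18d0 := DerTo.fin das18d0_0 ac87

theorem ag43 (H : Bd [pK3, pDia, pK4, pW4, pGem, pP23]) : Good as17_0 al10 58 am19 :=
  good_flag ac57 (good_der das18d0 (ag44 H))

theorem das17d0_0 : DerTo as17 as17d0 5 :=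
  DerTo.step (lo := 0) (c := 5) (DerTo.zero _ _) ac88

theorem das17d0 : Der as17 as17d0 := DerTo.fin das17d0_0 ac89

theorem ag42 (H : Bd [pK3, pDia, pK4, pW4, pGem, pP23]) : Good as16_0 al10 58 am19 :=
  good_flag ac56 (good_der das17d0 (ag43 H))

theorem das16d0_0 : DerTo as16 as16d0 5 :=
  DerTo.step (lo := 0) (c := 5) (DerTo.zero _ _) ac90

theorem das16d0 : Der as16 as16d0 := DerTo.fin das16d0_0 ac91

theorem ag41 (H : Bd [pK3, pDia, pK4, pW4, pGem, pP23]) : Good as15_0 al10 58 am19 :=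
  good_flag ac55 (good_der das16d0 (ag42 H))

theorem das15d0_0 : DerTo as15 as15d0 5 :=
  DerTo.step (lo := 0) (c := 5) (DerTo.zero _ _) ac92

theorem das15d0 : Der as15 as15d0 := DerTo.fin das15d0_0 ac93

theorem ag40 (H : Bd [pK3, pDia, pK4, pW4, pGem, pP23]) : Good as10_0 al10 58 am19 :=
  good_flag ac54 (good_der das15d0 (ag41 H))

theorem ag62 (H : Bd [pK3, pDia, pK4, pW4, pGem, pP23]) : Good as10_0 al10 80 am20 :=
  good_clo bd3 ac94

theorem ag63 (H : Bd [pK3, pDia, pK4, pW4, pGem, pP23]) : Good as10_0 al10 144 am21 :=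
  good_clo bd3 ac95

theorem ag64 (H : Bd [pK3, pDia, pK4, pW4, pGem, pP23]) : Good as10_0 al10 2064 am22 :=
  good_clo bd3 ac96

theorem ag65 (H : Bd [pK3, pDia, pK4, pW4, pGem, pP23]) : Good as10_0 al10 8208 am23 :=
  good_clo bd3 ac97

theorem ar10_0 : Upto (RTat as27_0 al73 255 ab53) 64 :=
  rt_step (lo := 0) (c := 64) (Upto.zero _) ac104

theorem aa10_0 : Upto (ALat as27_0 al73 255 ab54) 64 :=
  al_step (lo := 0) (c := 64) ar10_0 (Upto.zero _) ac105 (by decide)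

theorem arr73 : Upto (RTat as27_0 al73 255 ab53) 64 := ar10_0

theorem aaa73 : Upto (ALat as27_0 al73 255 ab54) 64 := aa10_0

theorem at73_0 : TRR as27_0 al73 255 am51 ab55 0 64 64 :=
  tr_part (ly := 0) (cy := 64) arr73 aaa73 (TRR.zero _ _ _ _ _ _ _) ac106

theorem at73_1 : Upto (TRat as27_0 al73 255 am51 ab55) 64 :=
  tr_fin (lo := 0) (c := 64) (Upto.zero _) at73_0

theorem ag75 (H : Bd [pK3, pDia, pK4, pW4, pGem, pP23]) : Good as27_0 (pk 256 [0x10]) 1 0x1 :=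
  good_clo bd_P4 ac107

theorem ag74 (H : Bd [pK3, pDia, pK4, pW4, pGem, pP23]) : Good as27_0 al73 12 am43 :=
  good_cov ac108 (ag75 H)

theorem ag77 (H : Bd [pK3, pDia, pK4, pW4, pGem, pP23]) : Good as27_0 (pk 256 [0x10]) 1 0x1 :=
  good_clo bd_P4 ac109

theorem ag76 (H : Bd [pK3, pDia, pK4, pW4, pGem, pP23]) : Good as27_0 al73 68 am46 :=
  good_cov ac110 (ag77 H)

theorem ag79 (H : Bd [pK3, pDia, pK4, pW4, pGem, pP23]) : Good as27_0 (pk 256 [0x10]) 1 0x1 :=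
  good_clo bd_P4 ac111

theorem ag78 (H : Bd [pK3, pDia, pK4, pW4, pGem, pP23]) : Good as27_0 al73 24 am56 :=
  good_cov ac112 (ag79 H)

theorem ar14_0 : Upto (RTat as28_0 al74 63 ab63) 64 :=
  rt_step (lo := 0) (c := 64) (Upto.zero _) ac114

theorem aa14_0 : Upto (ALat as28_0 al74 63 ab64) 64 :=
  al_step (lo := 0) (c := 64) ar14_0 (Upto.zero _) ac115 (by decide)

theorem arr82 : Upto (RTat as28_0 al74 63 ab63) 64 := ar14_0

theorem aaa82 : Upto (ALat as28_0 al74 63 ab64) 64 := aa14_0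

theorem at82_0 : TRR as28_0 al74 63 am61 ab65 0 64 64 :=
  tr_part (ly := 0) (cy := 64) arr82 aaa82 (TRR.zero _ _ _ _ _ _ _) ac116

theorem at82_1 : Upto (TRat as28_0 al74 63 am61 ab65) 64 :=
  tr_fin (lo := 0) (c := 64) (Upto.zero _) at82_0

theorem ag83 (H : Bd [pK3, pDia, pK4, pW4, pGem, pP23]) : Good as28_0 al74 22 am66 :=
  good_clo bd3 ac117

theorem ag84 (H : Bd [pK3, pDia, pK4, pW4, pGem, pP23]) : Good as28_0 al74 37 am67 :=
  good_clo bd3 ac118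

theorem ag85 (H : Bd [pK3, pDia, pK4, pW4, pGem, pP23]) : Good as28_0 al74 25 am68 :=
  good_clo bd3 ac119

theorem ag87 (H : Bd [pK3, pDia, pK4, pW4, pGem, pP23]) : Good as28_0 (pk 256 [0x10]) 1 0x1 :=
  good_clo bd_P4 ac120

theorem ag86 (H : Bd [pK3, pDia, pK4, pW4, pGem, pP23]) : Good as28_0 al74 40 am69 :=
  good_cov ac121 (ag87 H)

theorem ag82 (H : Bd [pK3, pDia, pK4, pW4, pGem, pP23]) : Good as28_0 al74 63 am61 :=
  good_mach aaa82 at82_1 ac122
    (AllGood.cons (ag83 H) (AllGood.cons (ag84 H) (AllGood.cons (ag85 H) (AllGood.cons (ag86 H) (AllGood.nil _ _)))))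

theorem ag81 (H : Bd [pK3, pDia, pK4, pW4, pGem, pP23]) : Good as28_0 al73 163 am57 :=
  good_cov ac123 (ag82 H)

theorem das28d0_0 : DerTo as28 as28d0 3 :=
  DerTo.step (lo := 0) (c := 3) (DerTo.zero _ _) ac124

theorem das28d0 : Der as28 as28d0 := DerTo.fin das28d0_0 ac125

theorem ag80 (H : Bd [pK3, pDia, pK4, pW4, pGem, pP23]) : Good as27_0 al73 163 am57 :=
  good_flag ac113 (good_der das28d0 (ag81 H))

theorem ag73 (H : Bd [pK3, pDia, pK4, pW4, pGem, pP23]) : Good as27_0 al73 255 am51 :=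
  good_mach aaa73 at73_1 ac126
    (AllGood.cons (ag74 H) (AllGood.cons (ag76 H) (AllGood.cons (ag78 H) (AllGood.cons (ag80 H) (AllGood.nil _ _)))))

theorem ag72 (H : Bd [pK3, pDia, pK4, pW4, pGem, pP23]) : Good as27_0 al10 198 am24 :=
  good_cov ac127 (ag73 H)

theorem das27d0_0 : DerTo as27 as27d0 7 :=
  DerTo.step (lo := 0) (c := 7) (DerTo.zero _ _) ac128

theorem das27d0 : Der as27 as27d0 := DerTo.fin das27d0_0 ac129

theorem ag71 (H : Bd [pK3, pDia, pK4, pW4, pGem, pP23]) : Good as26 al10 198 am24 :=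
  good_flag ac103 (good_der das27d0 (ag72 H))

theorem ag70 (H : Bd [pK3, pDia, pK4, pW4, pGem, pP23]) : Good as25_0 al10 198 am24 :=
  good_flag ac102 (ag71 H)

theorem das25d0_0 : DerTo as25 as25d0 2 :=
  DerTo.step (lo := 0) (c := 2) (DerTo.zero _ _) ac130

theorem das25d0 : Der as25 as25d0 := DerTo.fin das25d0_0 ac131

theorem ag69 (H : Bd [pK3, pDia, pK4, pW4, pGem, pP23]) : Good as24_0 al10 198 am24 :=
  good_flag ac101 (good_der das25d0 (ag70 H))

theorem das24d0_0 : DerTo as24 as24d0 5 :=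
  DerTo.step (lo := 0) (c := 5) (DerTo.zero _ _) ac132

theorem das24d0 : Der as24 as24d0 := DerTo.fin das24d0_0 ac133

theorem ag68 (H : Bd [pK3, pDia, pK4, pW4, pGem, pP23]) : Good as23_0 al10 198 am24 :=
  good_flag ac100 (good_der das24d0 (ag69 H))

theorem das23d0_0 : DerTo as23 as23d0 5 :=
  DerTo.step (lo := 0) (c := 5) (DerTo.zero _ _) ac134

theorem das23d0 : Der as23 as23d0 := DerTo.fin das23d0_0 ac135

theorem ag67 (H : Bd [pK3, pDia, pK4, pW4, pGem, pP23]) : Good as22_0 al10 198 am24 :=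
  good_flag ac99 (good_der das23d0 (ag68 H))

theorem das22d0_0 : DerTo as22 as22d0 5 :=
  DerTo.step (lo := 0) (c := 5) (DerTo.zero _ _) ac136

theorem das22d0 : Der as22 as22d0 := DerTo.fin das22d0_0 ac137

theorem ag66 (H : Bd [pK3, pDia, pK4, pW4, pGem, pP23]) : Good as10_0 al10 198 am24 :=
  good_flag ac98 (good_der das22d0 (ag67 H))

theorem ag88 (H : Bd [pK3, pDia, pK4, pW4, pGem, pP23]) : Good as10_0 al10 2112 am25 :=
  good_clo bd3 ac138

theorem ag89 (H : Bd [pK3, pDia, pK4, pW4, pGem, pP23]) : Good as10_0 al10 8256 am26 :=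
  good_clo bd3 ac139

theorem ag90 (H : Bd [pK3, pDia, pK4, pW4, pGem, pP23]) : Good as10_0 al10 2176 am27 :=
  good_clo bd3 ac140

theorem ag91 (H : Bd [pK3, pDia, pK4, pW4, pGem, pP23]) : Good as10_0 al10 8320 am28 :=
  good_clo bd3 ac141

theorem ag93 (H : Bd [pK3, pDia, pK4, pW4, pGem, pP23]) : Good as10_0 (pk 256 [0x1]) 1 0x1 :=
  good_clo bd_P4 ac142

theorem ag92 (H : Bd [pK3, pDia, pK4, pW4, pGem, pP23]) : Good as10_0 al10 768 am29 :=
  good_cov ac143 (ag93 H)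

theorem ag95 (H : Bd [pK3, pDia, pK4, pW4, pGem, pP23]) : Good as10_0 (pk 256 [0x1]) 1 0x1 :=
  good_clo bd_P4 ac144

theorem ag94 (H : Bd [pK3, pDia, pK4, pW4, pGem, pP23]) : Good as10_0 al10 4352 am30 :=
  good_cov ac145 (ag95 H)

theorem ag97 (H : Bd [pK3, pDia, pK4, pW4, pGem, pP23]) : Good as10_0 (pk 256 [0x1]) 1 0x1 :=
  good_clo bd_P4 ac146

theorem ag96 (H : Bd [pK3, pDia, pK4, pW4, pGem, pP23]) : Good as10_0 al10 1536 am31 :=
  good_cov ac147 (ag97 H)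

theorem ar19_0 : Upto (RTat as29_0 al79 63 ab63) 64 :=
  rt_step (lo := 0) (c := 64) (Upto.zero _) ac149

theorem aa19_0 : Upto (ALat as29_0 al79 63 ab64) 64 :=
  al_step (lo := 0) (c := 64) ar19_0 (Upto.zero _) ac150 (by decide)

theorem arr100 : Upto (RTat as29_0 al79 63 ab63) 64 := ar19_0

theorem aaa100 : Upto (ALat as29_0 al79 63 ab64) 64 := aa19_0

theorem at100_0 : TRR as29_0 al79 63 am61 ab65 0 64 64 :=
  tr_part (ly := 0) (cy := 64) arr100 aaa100 (TRR.zero _ _ _ _ _ _ _) ac151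

theorem at100_1 : Upto (TRat as29_0 al79 63 am61 ab65) 64 :=
  tr_fin (lo := 0) (c := 64) (Upto.zero _) at100_0

theorem ag101 (H : Bd [pK3, pDia, pK4, pW4, pGem, pP23]) : Good as29_0 al79 22 am66 :=
  good_clo bd3 ac152

theorem ag102 (H : Bd [pK3, pDia, pK4, pW4, pGem, pP23]) : Good as29_0 al79 37 am67 :=
  good_clo bd3 ac153

theorem ag103 (H : Bd [pK3, pDia, pK4, pW4, pGem, pP23]) : Good as29_0 al79 25 am68 :=
  good_clo bd3 ac154

theorem ag105 (H : Bd [pK3, pDia, pK4, pW4, pGem, pP23]) : Good as29_0 (pk 256 [0x1]) 1 0x1 :=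
  good_clo bd_P4 ac155

theorem ag104 (H : Bd [pK3, pDia, pK4, pW4, pGem, pP23]) : Good as29_0 al79 40 am69 :=
  good_cov ac156 (ag105 H)

theorem ag100 (H : Bd [pK3, pDia, pK4, pW4, pGem, pP23]) : Good as29_0 al79 63 am61 :=
  good_mach aaa100 at100_1 ac157
    (AllGood.cons (ag101 H) (AllGood.cons (ag102 H) (AllGood.cons (ag103 H) (AllGood.cons (ag104 H) (AllGood.nil _ _)))))

theorem ag99 (H : Bd [pK3, pDia, pK4, pW4, pGem, pP23]) : Good as29_0 al10 10276 am32 :=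
  good_cov ac158 (ag100 H)

theorem das29d0_0 : DerTo as29 as29d0 3 :=
  DerTo.step (lo := 0) (c := 3) (DerTo.zero _ _) ac159

theorem das29d0 : Der as29 as29d0 := DerTo.fin das29d0_0 ac160

theorem ag98 (H : Bd [pK3, pDia, pK4, pW4, pGem, pP23]) : Good as10_0 al10 10276 am32 :=
  good_flag ac148 (good_der das29d0 (ag99 H))

theorem ag16 (H : Bd [pK3, pDia, pK4, pW4, pGem, pP23]) : Good as10_0 al10 16383 am9 :=
  good_mach aaa16 at16_5 ac161
    (AllGood.cons (ag17 H) (AllGood.cons (ag36 H) (AllGood.cons (ag37 H) (AllGood.cons (ag38 H) (AllGood.cons (ag39 H) (AllGood.cons (ag40 H) (AllGood.cons (ag62 H) (AllGood.cons (ag63 H) (AllGood.cons (ag64 H) (AllGood.cons (ag65 H) (AllGood.cons (ag66 H) (AllGood.cons (ag88 H) (AllGood.cons (ag89 H) (AllGood.cons (ag90 H) (AllGood.cons (ag91 H) (AllGood.cons (ag92 H) (AllGood.cons (ag94 H) (AllGood.cons (ag96 H) (AllGood.cons (ag98 H) (AllGood.nil _ _))))))))))))))))))))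

theorem ag15 (H : Bd [pK3, pDia, pK4, pW4, pGem, pP23]) : Good as10_0 al2 30577 am8 :=
  good_cov ac162 (ag16 H)

theorem das10d0_0 : DerTo as10 as10d0 15 :=
  DerTo.step (lo := 0) (c := 15) (DerTo.zero _ _) ac163

theorem das10d0 : Der as10 as10d0 := DerTo.fin das10d0_0 ac164

theorem ag14 (H : Bd [pK3, pDia, pK4, pW4, pGem, pP23]) : Good as9_0 al2 30577 am8 :=
  good_flag ac13 (good_der das10d0 (ag15 H))

theorem das9d0_0 : DerTo as9 as9d0 5 :=
  DerTo.step (lo := 0) (c := 5) (DerTo.zero _ _) ac165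

theorem das9d0 : Der as9 as9d0 := DerTo.fin das9d0_0 ac166

theorem ag13 (H : Bd [pK3, pDia, pK4, pW4, pGem, pP23]) : Good as8_0 al2 30577 am8 :=
  good_flag ac12 (good_der das9d0 (ag14 H))

theorem das8d0_0 : DerTo as8 as8d0 2 :=
  DerTo.step (lo := 0) (c := 2) (DerTo.zero _ _) ac167

theorem das8d0 : Der as8 as8d0 := DerTo.fin das8d0_0 ac168

theorem ag12 (H : Bd [pK3, pDia, pK4, pW4, pGem, pP23]) : Good as7_0 al2 30577 am8 :=
  good_flag ac11 (good_der das8d0 (ag13 H))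

theorem das7d0_0 : DerTo as7 as7d0 5 :=
  DerTo.step (lo := 0) (c := 5) (DerTo.zero _ _) ac169

theorem das7d0 : Der as7 as7d0 := DerTo.fin das7d0_0 ac170

theorem ag11 (H : Bd [pK3, pDia, pK4, pW4, pGem, pP23]) : Good as6_0 al2 30577 am8 :=
  good_flag ac10 (good_der das7d0 (ag12 H))

theorem das6d0_0 : DerTo as6 as6d0 9 :=
  DerTo.step (lo := 0) (c := 9) (DerTo.zero _ _) ac171

theorem das6d0 : Der as6 as6d0 := DerTo.fin das6d0_0 ac172

theorem ag10 (H : Bd [pK3, pDia, pK4, pW4, pGem, pP23]) : Good as5_0 al2 30577 am8 :=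
  good_flag ac9 (good_der das6d0 (ag11 H))

theorem das5d0_0 : DerTo as5 as5d0 7 :=
  DerTo.step (lo := 0) (c := 7) (DerTo.zero _ _) ac173

theorem das5d0 : Der as5 as5d0 := DerTo.fin das5d0_0 ac174

theorem ag9 (H : Bd [pK3, pDia, pK4, pW4, pGem, pP23]) : Good as4_0 al2 30577 am8 :=
  good_flag ac8 (good_der das5d0 (ag10 H))

theorem ag7 (H : Bd [pK3, pDia, pK4, pW4, pGem, pP23]) : Good as4_0 al2 30583 am3 :=
  good_mach aaa7 at7_1 ac175
    (AllGood.cons (ag8 H) (AllGood.cons (ag9 H) (AllGood.nil _ _)))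

theorem ag6 (H : Bd [pK3, pDia, pK4, pW4, pGem, pP23]) : Good as4_0 al2 30583 am1 :=
  good_drop (rt_mono ar1_0 (by decide +kernel)) ac176 (ag7 H)

theorem ag5 (H : Bd [pK3, pDia, pK4, pW4, pGem, pP23]) : Good as4_0 al2 65535 am1 :=
  good_sml ac177 (ag6 H)

theorem ag4 (H : Bd [pK3, pDia, pK4, pW4, pGem, pP23]) : Good as4_0 0 1 1 :=
  good_cov ac178 (ag5 H)

theorem das4d0_0 : DerTo as4 as4d0 81 :=
  DerTo.step (lo := 0) (c := 81) (DerTo.zero _ _) ac179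

theorem das4d0 : Der as4 as4d0 := DerTo.fin das4d0_0 ac180

theorem ag3 (H : Bd [pK3, pDia, pK4, pW4, pGem, pP23]) : Good as3 0 1 1 :=
  good_flag ac3 (good_der das4d0 (ag4 H))

theorem ag2 (H : Bd [pK3, pDia, pK4, pW4, pGem, pP23]) : Good as2 0 1 1 :=
  good_flag ac2 (ag3 H)

theorem ag1 (H : Bd [pK3, pDia, pK4, pW4, pGem, pP23]) : Good as1 0 1 1 :=
  good_ori ac1 (ag2 H)

theorem ag0 (H : Bd [pK3, pDia, pK4, pW4, pGem, pP23]) : Good as0 0 1 1 :=
  good_flag ac0 (ag1 H)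

theorem stage_k3 (H : Bd [pK3, pDia, pK4, pW4, pGem, pP23]) : Bd [pDia, pK4, pW4, pGem, pP23] :=
  bd_stage (t := atP) (n0 := 3) (c0 := ac00) H (by simp) (by simp) kills (by decide +kernel) (ag0 H)

end

end Pool.Agent.Lib.MP_1595d8_lc
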