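import Pool.Agent.Lib.MP_1595d8_lc.H89BC0
import Pool.Agent.Lib.MP_1595d8_lc.H89BC1

set_option maxRecDepth 100000
set_option linter.unusedVariables false

namespace Pool.Agent.Lib.MP_1595d8_lc

noncomputable section

theorem br1_0 : Upto (RTat bs4_0 bl2 1023 bb4) 64 :=
  rt_step (lo := 0) (c := 64) (Upto.zero _) bc4

theorem ba1_0 : Upto (ALat bs4_0 bl2 1023 bb5) 64 :=
  al_step (lo := 0) (c := 64) br1_0 (Upto.zero _) bc5 (by decide)

theorem brr7 : Upto (RTat bs4_0 bl2 511 bb4) 64 := (rt_mono br1_0 (by decide +kernel))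

theorem baa7 : Upto (ALat bs4_0 bl2 511 bb5) 64 := (al_mono ba1_0 (by decide +kernel))

theorem bt7_0 : TRR bs4_0 bl2 511 bm3 bb6 0 4 64 :=
  tr_part (ly := 0) (cy := 64) brr7 baa7 (TRR.zero _ _ _ _ _ _ _) bc6

theorem bt7_1 : Upto (TRat bs4_0 bl2 511 bm3 bb6) 4 :=
  tr_fin (lo := 0) (c := 4) (Upto.zero _) bt7_0

theorem bt7_2 : TRR bs4_0 bl2 511 bm3 bb6 4 60 64 :=
  tr_part (ly := 0) (cy := 64) brr7 baa7 (TRR.zero _ _ _ _ _ _ _) bc7

theorem bt7_3 : Upto (TRat bs4_0 bl2 511 bm3 bb6) 64 :=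
  tr_fin (lo := 4) (c := 60) bt7_1 bt7_2

theorem bg8 (H : Bd [pDia, pK4, pW4, pGem, pP23]) : Good bs4_0 bl2 3 0x10000000000000002 :=
  good_clo bd3 bc8

theorem bg9 (H : Bd [pDia, pK4, pW4, pGem, pP23]) : Good bs4_0 bl2 5 bm7 :=
  good_clo bd3 bc9

theorem bg10 (H : Bd [pDia, pK4, pW4, pGem, pP23]) : Good bs4_0 bl2 24 bm8 :=
  good_clo bd3 bc10

theorem br2_0 : Upto (RTat bs10_0 bl11 8191 bb12) 64 :=
  rt_step (lo := 0) (c := 64) (Upto.zero _) bc17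

theorem ba2_0 : Upto (ALat bs10_0 bl11 8191 bb13) 64 :=
  al_step (lo := 0) (c := 64) br2_0 (Upto.zero _) bc18 (by decide)

theorem brr18 : Upto (RTat bs10_0 bl11 8191 bb12) 64 := br2_0

theorem baa18 : Upto (ALat bs10_0 bl11 8191 bb13) 64 := ba2_0

theorem bt18_0 : TRR bs10_0 bl11 8191 bm10 bb14 0 64 64 :=
  tr_part (ly := 0) (cy := 64) brr18 baa18 (TRR.zero _ _ _ _ _ _ _) bc19

theorem bt18_1 : Upto (TRat bs10_0 bl11 8191 bm10 bb14) 64 :=
  tr_fin (lo := 0) (c := 64) (Upto.zero _) bt18_0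

theorem bg20 (H : Bd [pDia, pK4, pW4, pGem, pP23]) : Good bs10_0 (pk 256 [0x1]) 1 0x1 :=
  good_clo bd_P4 bc20

theorem bg19 (H : Bd [pDia, pK4, pW4, pGem, pP23]) : Good bs10_0 bl11 384 bm15 :=
  good_cov bc21 (bg20 H)

theorem br4_0 : Upto (RTat bs14_0 bl20 262143 bb21) 64 :=
  rt_step (lo := 0) (c := 64) (Upto.zero _) bc26

theorem ba4_0 : Upto (ALat bs14_0 bl20 262143 bb22) 35 :=
  al_step (lo := 0) (c := 35) br4_0 (Upto.zero _) bc27 (by decide)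

theorem ba4_1 : Upto (ALat bs14_0 bl20 262143 bb22) 64 :=
  al_step (lo := 35) (c := 29) br4_0 ba4_0 bc28 (by decide)

theorem brr28 : Upto (RTat bs14_0 bl20 262143 bb21) 64 := br4_0

theorem baa28 : Upto (ALat bs14_0 bl20 262143 bb22) 64 := ba4_1

theorem bt28_0 : TRR bs14_0 bl20 262143 bm19 bb23 0 7 64 :=
  tr_part (ly := 0) (cy := 64) brr28 baa28 (TRR.zero _ _ _ _ _ _ _) bc29

theorem bt28_1 : Upto (TRat bs14_0 bl20 262143 bm19 bb23) 7 :=
  tr_fin (lo := 0) (c := 7) (Upto.zero _) bt28_0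

theorem bt28_2 : TRR bs14_0 bl20 262143 bm19 bb23 7 4 64 :=
  tr_part (ly := 0) (cy := 64) brr28 baa28 (TRR.zero _ _ _ _ _ _ _) bc30

theorem bt28_3 : Upto (TRat bs14_0 bl20 262143 bm19 bb23) 11 :=
  tr_fin (lo := 7) (c := 4) bt28_1 bt28_2

theorem bt28_4 : TRR bs14_0 bl20 262143 bm19 bb23 11 2 64 :=
  tr_part (ly := 0) (cy := 64) brr28 baa28 (TRR.zero _ _ _ _ _ _ _) bc31

theorem bt28_5 : Upto (TRat bs14_0 bl20 262143 bm19 bb23) 13 :=
  tr_fin (lo := 11) (c := 2) bt28_3 bt28_4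

theorem bt28_6 : TRR bs14_0 bl20 262143 bm19 bb23 13 2 64 :=
  tr_part (ly := 0) (cy := 64) brr28 baa28 (TRR.zero _ _ _ _ _ _ _) bc32

theorem bt28_7 : Upto (TRat bs14_0 bl20 262143 bm19 bb23) 15 :=
  tr_fin (lo := 13) (c := 2) bt28_5 bt28_6

theorem bt28_8 : TRR bs14_0 bl20 262143 bm19 bb23 15 49 64 :=
  tr_part (ly := 0) (cy := 64) brr28 baa28 (TRR.zero _ _ _ _ _ _ _) bc33

theorem bt28_9 : Upto (TRat bs14_0 bl20 262143 bm19 bb23) 64 :=
  tr_fin (lo := 15) (c := 49) bt28_7 bt28_8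

theorem bg29 (H : Bd [pDia, pK4, pW4, pGem, pP23]) : Good bs14_0 bl20 12353 bm24 :=
  good_clo bd_K3S bc34

theorem bg31 (H : Bd [pDia, pK4, pW4, pGem, pP23]) : Good bs14_0 (pk 256 [0x40]) 1 0x1 :=
  good_clo bd_P4 bc35

theorem bg30 (H : Bd [pDia, pK4, pW4, pGem, pP23]) : Good bs14_0 bl20 132 bm25 :=
  good_cov bc36 (bg31 H)

theorem bg33 (H : Bd [pDia, pK4, pW4, pGem, pP23]) : Good bs14_0 (pk 256 [0x1]) 1 0x1 :=
  good_clo bd_P4 bc37

theorem bg32 (H : Bd [pDia, pK4, pW4, pGem, pP23]) : Good bs14_0 bl20 144 bm26 :=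
  good_cov bc38 (bg33 H)

theorem bg34 (H : Bd [pDia, pK4, pW4, pGem, pP23]) : Good bs14_0 bl20 576 bm27 :=
  good_clo bd3 bc39

theorem br7_0 : Upto (RTat bs17_0 bl59 1023 bb60) 64 :=
  rt_step (lo := 0) (c := 64) (Upto.zero _) bc43

theorem ba7_0 : Upto (ALat bs17_0 bl59 1023 bb61) 64 :=
  al_step (lo := 0) (c := 64) br7_0 (Upto.zero _) bc44 (by decide)

theorem brr41 : Upto (RTat bs17_0 bl59 383 bb60) 64 := (rt_mono br7_0 (by decide +kernel))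

theorem baa41 : Upto (ALat bs17_0 bl59 383 bb61) 64 := (al_mono ba7_0 (by decide +kernel))

theorem bt41_0 : TRR bs17_0 bl59 383 bm58 bb62 0 64 64 :=
  tr_part (ly := 0) (cy := 64) brr41 baa41 (TRR.zero _ _ _ _ _ _ _) bc45

theorem bt41_1 : Upto (TRat bs17_0 bl59 383 bm58 bb62) 64 :=
  tr_fin (lo := 0) (c := 64) (Upto.zero _) bt41_0

theorem bg42 (H : Bd [pDia, pK4, pW4, pGem, pP23]) : Good bs17_0 bl59 7 bm63 :=
  good_clo bd_K3S bc46

theorem bg43 (H : Bd [pDia, pK4, pW4, pGem, pP23]) : Good bs17_0 bl59 19 bm64 :=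
  good_clo bd_K3S bc47

theorem bg44 (H : Bd [pDia, pK4, pW4, pGem, pP23]) : Good bs17_0 bl59 68 bm65 :=
  good_clo bd3 bc48

theorem bg45 (H : Bd [pDia, pK4, pW4, pGem, pP23]) : Good bs17_0 bl59 260 bm66 :=
  good_clo bd3 bc49

theorem bg46 (H : Bd [pDia, pK4, pW4, pGem, pP23]) : Good bs17_0 bl59 80 bm67 :=
  good_clo bd3 bc50

theorem bg47 (H : Bd [pDia, pK4, pW4, pGem, pP23]) : Good bs17_0 bl59 272 bm68 :=
  good_clo bd3 bc51

theorem bg48 (H : Bd [pDia, pK4, pW4, pGem, pP23]) : Good bs17_0 bl59 361 bm69 :=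
  good_clo bd_P4 bc52

theorem bg41 (H : Bd [pDia, pK4, pW4, pGem, pP23]) : Good bs17_0 bl59 383 bm58 :=
  good_mach baa41 bt41_1 bc53
    (AllGood.cons (bg42 H) (AllGood.cons (bg43 H) (AllGood.cons (bg44 H) (AllGood.cons (bg45 H) (AllGood.cons (bg46 H) (AllGood.cons (bg47 H) (AllGood.cons (bg48 H) (AllGood.nil _ _))))))))

theorem bg40 (H : Bd [pDia, pK4, pW4, pGem, pP23]) : Good bs17_0 bl59 1023 bm58 :=
  good_sml bc54 (bg41 H)

theorem bg39 (H : Bd [pDia, pK4, pW4, pGem, pP23]) : Good bs17_0 bl20 9556 bm28 :=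
  good_cov bc55 (bg40 H)

theorem dbs17d0_0 : DerTo bs17 bs17d0 13 :=
  DerTo.step (lo := 0) (c := 13) (DerTo.zero _ _) bc56

theorem dbs17d0 : Der bs17 bs17d0 := DerTo.fin dbs17d0_0 bc57

theorem bg38 (H : Bd [pDia, pK4, pW4, pGem, pP23]) : Good bs16_0 bl20 9556 bm28 :=
  good_flag bc42 (good_der dbs17d0 (bg39 H))

theorem dbs16d0_0 : DerTo bs16 bs16d0 4 :=
  DerTo.step (lo := 0) (c := 4) (DerTo.zero _ _) bc58

theorem dbs16d0 : Der bs16 bs16d0 := DerTo.fin dbs16d0_0 bc59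

theorem bg37 (H : Bd [pDia, pK4, pW4, pGem, pP23]) : Good bs15_0 bl20 9556 bm28 :=
  good_flag bc41 (good_der dbs16d0 (bg38 H))

theorem dbs15d0_0 : DerTo bs15 bs15d0 5 :=
  DerTo.step (lo := 0) (c := 5) (DerTo.zero _ _) bc60

theorem dbs15d0 : Der bs15 bs15d0 := DerTo.fin dbs15d0_0 bc61

theorem bg36 (H : Bd [pDia, pK4, pW4, pGem, pP23]) : Good bs14_0 bl20 9556 bm28 :=
  good_flag bc40 (good_der dbs15d0 (bg37 H))

theorem bg35 (H : Bd [pDia, pK4, pW4, pGem, pP23]) : Good bs14_0 bl20 13652 bm28 :=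
  good_pen bc62 (bg36 H)

theorem bg49 (H : Bd [pDia, pK4, pW4, pGem, pP23]) : Good bs14_0 bl20 2112 bm29 :=
  good_clo bd3 bc63

theorem bg50 (H : Bd [pDia, pK4, pW4, pGem, pP23]) : Good bs14_0 bl20 4160 bm30 :=
  good_clo bd3 bc64

theorem br8_0 : Upto (RTat bs20_0 bl75 511 bb76) 64 :=
  rt_step (lo := 0) (c := 64) (Upto.zero _) bc68

theorem ba8_0 : Upto (ALat bs20_0 bl75 511 bb77) 64 :=
  al_step (lo := 0) (c := 64) br8_0 (Upto.zero _) bc69 (by decide)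

theorem brr56 : Upto (RTat bs20_0 bl75 511 bb76) 64 := br8_0

theorem baa56 : Upto (ALat bs20_0 bl75 511 bb77) 64 := ba8_0

theorem bt56_0 : TRR bs20_0 bl75 511 bm74 bb78 0 64 64 :=
  tr_part (ly := 0) (cy := 64) brr56 baa56 (TRR.zero _ _ _ _ _ _ _) bc70

theorem bt56_1 : Upto (TRat bs20_0 bl75 511 bm74 bb78) 64 :=
  tr_fin (lo := 0) (c := 64) (Upto.zero _) bt56_0

theorem bg57 (H : Bd [pDia, pK4, pW4, pGem, pP23]) : Good bs20_0 bl75 3 0x10000000000000002 :=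
  good_clo bd3 bc71

theorem bg59 (H : Bd [pDia, pK4, pW4, pGem, pP23]) : Good bs20_0 (pk 256 [0x40]) 1 0x1 :=
  good_clo bd_P4 bc72

theorem bg58 (H : Bd [pDia, pK4, pW4, pGem, pP23]) : Good bs20_0 bl75 9 bm79 :=
  good_cov bc73 (bg59 H)

theorem bg61 (H : Bd [pDia, pK4, pW4, pGem, pP23]) : Good bs20_0 (pk 256 [0x1]) 1 0x1 :=
  good_clo bd_P4 bc74

theorem bg60 (H : Bd [pDia, pK4, pW4, pGem, pP23]) : Good bs20_0 bl75 33 bm80 :=
  good_cov bc75 (bg61 H)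

theorem bg62 (H : Bd [pDia, pK4, pW4, pGem, pP23]) : Good bs20_0 bl75 130 bm81 :=
  good_clo bd3 bc76

theorem bg63 (H : Bd [pDia, pK4, pW4, pGem, pP23]) : Good bs20_0 bl75 258 bm82 :=
  good_clo bd3 bc77

theorem bg64 (H : Bd [pDia, pK4, pW4, pGem, pP23]) : Good bs20_0 bl75 136 bm83 :=
  good_clo bd3 bc78

theorem bg65 (H : Bd [pDia, pK4, pW4, pGem, pP23]) : Good bs20_0 bl75 264 bm84 :=
  good_clo bd3 bc79

theorem bg66 (H : Bd [pDia, pK4, pW4, pGem, pP23]) : Good bs20_0 bl75 160 bm85 :=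
  good_clo bd3 bc80

theorem bg67 (H : Bd [pDia, pK4, pW4, pGem, pP23]) : Good bs20_0 bl75 288 bm86 :=
  good_clo bd3 bc81

theorem br11_0 : Upto (RTat bs22_0 bl91 2047 bb92) 64 :=
  rt_step (lo := 0) (c := 64) (Upto.zero _) bc84

theorem ba11_0 : Upto (ALat bs22_0 bl91 2047 bb93) 64 :=
  al_step (lo := 0) (c := 64) br11_0 (Upto.zero _) bc85 (by decide)

theorem brr72 : Upto (RTat bs22_0 bl91 1791 bb92) 64 := (rt_mono br11_0 (by decide +kernel))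

theorem baa72 : Upto (ALat bs22_0 bl91 1791 bb93) 64 := (al_mono ba11_0 (by decide +kernel))

theorem bt72_0 : TRR bs22_0 bl91 1791 bm90 bb94 0 64 64 :=
  tr_part (ly := 0) (cy := 64) brr72 baa72 (TRR.zero _ _ _ _ _ _ _) bc86

theorem bt72_1 : Upto (TRat bs22_0 bl91 1791 bm90 bb94) 64 :=
  tr_fin (lo := 0) (c := 64) (Upto.zero _) bt72_0

theorem brr74 : Upto (RTat bs22_0 bl91 1540 bb92) 64 := (rt_mono br11_0 (by decide +kernel))

theorem baa74 : Upto (ALat bs22_0 bl91 1540 bb93) 64 := (al_mono ba11_0 (by decide +kernel))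

theorem bt74_0 : TRR bs22_0 bl91 1540 bm95 bb99 0 64 64 :=
  tr_part (ly := 0) (cy := 64) brr74 baa74 (TRR.zero _ _ _ _ _ _ _) bc87

theorem bt74_1 : Upto (TRat bs22_0 bl91 1540 bm95 bb99) 64 :=
  tr_fin (lo := 0) (c := 64) (Upto.zero _) bt74_0

theorem bg75 (H : Bd [pDia, pK4, pW4, pGem, pP23]) : Good bs22_0 bl91 516 bm100 :=
  good_clo bd3 bc88

theorem bg76 (H : Bd [pDia, pK4, pW4, pGem, pP23]) : Good bs22_0 bl91 1028 bm101 :=
  good_clo bd3 bc89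

theorem bg74 (H : Bd [pDia, pK4, pW4, pGem, pP23]) : Good bs22_0 bl91 1540 bm95 :=
  good_mach baa74 bt74_1 bc90
    (AllGood.cons (bg75 H) (AllGood.cons (bg76 H) (AllGood.nil _ _)))

theorem bg73 (H : Bd [pDia, pK4, pW4, pGem, pP23]) : Good bs22_0 bl91 1541 bm95 :=
  good_pen bc91 (bg74 H)

theorem brr78 : Upto (RTat bs22_0 bl91 1552 bb92) 64 := (rt_mono br11_0 (by decide +kernel))

theorem baa78 : Upto (ALat bs22_0 bl91 1552 bb93) 64 := (al_mono ba11_0 (by decide +kernel))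

theorem bt78_0 : TRR bs22_0 bl91 1552 bm96 bb102 0 64 64 :=
  tr_part (ly := 0) (cy := 64) brr78 baa78 (TRR.zero _ _ _ _ _ _ _) bc92

theorem bt78_1 : Upto (TRat bs22_0 bl91 1552 bm96 bb102) 64 :=
  tr_fin (lo := 0) (c := 64) (Upto.zero _) bt78_0

theorem bg79 (H : Bd [pDia, pK4, pW4, pGem, pP23]) : Good bs22_0 bl91 528 bm103 :=
  good_clo bd3 bc93

theorem bg80 (H : Bd [pDia, pK4, pW4, pGem, pP23]) : Good bs22_0 bl91 1040 bm104 :=
  good_clo bd3 bc94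

theorem bg78 (H : Bd [pDia, pK4, pW4, pGem, pP23]) : Good bs22_0 bl91 1552 bm96 :=
  good_mach baa78 bt78_1 bc95
    (AllGood.cons (bg79 H) (AllGood.cons (bg80 H) (AllGood.nil _ _)))

theorem bg77 (H : Bd [pDia, pK4, pW4, pGem, pP23]) : Good bs22_0 bl91 1553 bm96 :=
  good_pen bc96 (bg78 H)

theorem br12_0 : Upto (RTat bs24_0 bl106 511 bb107) 64 :=
  rt_step (lo := 0) (c := 64) (Upto.zero _) bc99

theorem ba12_0 : Upto (ALat bs24_0 bl106 511 bb108) 64 :=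
  al_step (lo := 0) (c := 64) br12_0 (Upto.zero _) bc100 (by decide)

theorem brr85 : Upto (RTat bs24_0 bl106 511 bb107) 64 := br12_0

theorem baa85 : Upto (ALat bs24_0 bl106 511 bb108) 64 := ba12_0

theorem bt85_0 : TRR bs24_0 bl106 511 bm105 bb109 0 64 64 :=
  tr_part (ly := 0) (cy := 64) brr85 baa85 (TRR.zero _ _ _ _ _ _ _) bc101

theorem bt85_1 : Upto (TRat bs24_0 bl106 511 bm105 bb109) 64 :=
  tr_fin (lo := 0) (c := 64) (Upto.zero _) bt85_0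

theorem bg86 (H : Bd [pDia, pK4, pW4, pGem, pP23]) : Good bs24_0 bl106 10 bm110 :=
  good_clo bd3 bc102

theorem bg87 (H : Bd [pDia, pK4, pW4, pGem, pP23]) : Good bs24_0 bl106 34 bm111 :=
  good_clo bd3 bc103

theorem bg88 (H : Bd [pDia, pK4, pW4, pGem, pP23]) : Good bs24_0 bl106 130 bm81 :=
  good_clo bd3 bc104

theorem bg89 (H : Bd [pDia, pK4, pW4, pGem, pP23]) : Good bs24_0 bl106 339 bm112 :=
  good_clo bd_P4 bc105

theorem bg90 (H : Bd [pDia, pK4, pW4, pGem, pP23]) : Good bs24_0 bl106 13 bm113 :=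
  good_clo bd_K3S bc106

theorem bg91 (H : Bd [pDia, pK4, pW4, pGem, pP23]) : Good bs24_0 bl106 37 bm114 :=
  good_clo bd_K3S bc107

theorem bg92 (H : Bd [pDia, pK4, pW4, pGem, pP23]) : Good bs24_0 bl106 133 bm115 :=
  good_clo bd_K3S bc108

theorem bg85 (H : Bd [pDia, pK4, pW4, pGem, pP23]) : Good bs24_0 bl106 511 bm105 :=
  good_mach baa85 bt85_1 bc109
    (AllGood.cons (bg86 H) (AllGood.cons (bg87 H) (AllGood.cons (bg88 H) (AllGood.cons (bg89 H) (AllGood.cons (bg90 H) (AllGood.cons (bg91 H) (AllGood.cons (bg92 H) (AllGood.nil _ _))))))))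

theorem bg84 (H : Bd [pDia, pK4, pW4, pGem, pP23]) : Good bs24_0 bl91 1195 bm97 :=
  good_cov bc110 (bg85 H)

theorem dbs24d0_0 : DerTo bs24 bs24d0 11 :=
  DerTo.step (lo := 0) (c := 11) (DerTo.zero _ _) bc111

theorem dbs24d0 : Der bs24 bs24d0 := DerTo.fin dbs24d0_0 bc112

theorem bg83 (H : Bd [pDia, pK4, pW4, pGem, pP23]) : Good bs23_0 bl91 1195 bm97 :=
  good_flag bc98 (good_der dbs24d0 (bg84 H))

theorem dbs23d0_0 : DerTo bs23 bs23d0 5 :=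
  DerTo.step (lo := 0) (c := 5) (DerTo.zero _ _) bc113

theorem dbs23d0 : Der bs23 bs23d0 := DerTo.fin dbs23d0_0 bc114

theorem bg82 (H : Bd [pDia, pK4, pW4, pGem, pP23]) : Good bs22_0 bl91 1195 bm97 :=
  good_flag bc97 (good_der dbs23d0 (bg83 H))

theorem bg81 (H : Bd [pDia, pK4, pW4, pGem, pP23]) : Good bs22_0 bl91 1707 bm97 :=
  good_pen bc115 (bg82 H)

theorem brr94 : Upto (RTat bs22_0 bl91 1600 bb92) 64 := (rt_mono br11_0 (by decide +kernel))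

theorem baa94 : Upto (ALat bs22_0 bl91 1600 bb93) 64 := (al_mono ba11_0 (by decide +kernel))

theorem bt94_0 : TRR bs22_0 bl91 1600 bm98 bb121 0 64 64 :=
  tr_part (ly := 0) (cy := 64) brr94 baa94 (TRR.zero _ _ _ _ _ _ _) bc116

theorem bt94_1 : Upto (TRat bs22_0 bl91 1600 bm98 bb121) 64 :=
  tr_fin (lo := 0) (c := 64) (Upto.zero _) bt94_0

theorem bg95 (H : Bd [pDia, pK4, pW4, pGem, pP23]) : Good bs22_0 bl91 576 bm27 :=
  good_clo bd3 bc117

theorem bg96 (H : Bd [pDia, pK4, pW4, pGem, pP23]) : Good bs22_0 bl91 1088 bm122 :=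
  good_clo bd3 bc118

theorem bg94 (H : Bd [pDia, pK4, pW4, pGem, pP23]) : Good bs22_0 bl91 1600 bm98 :=
  good_mach baa94 bt94_1 bc119
    (AllGood.cons (bg95 H) (AllGood.cons (bg96 H) (AllGood.nil _ _)))

theorem bg93 (H : Bd [pDia, pK4, pW4, pGem, pP23]) : Good bs22_0 bl91 1601 bm98 :=
  good_pen bc120 (bg94 H)

theorem bg72 (H : Bd [pDia, pK4, pW4, pGem, pP23]) : Good bs22_0 bl91 1791 bm90 :=
  good_mach baa72 bt72_1 bc121
    (AllGood.cons (bg73 H) (AllGood.cons (bg77 H) (AllGood.cons (bg81 H) (AllGood.cons (bg93 H) (AllGood.nil _ _)))))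

theorem bg71 (H : Bd [pDia, pK4, pW4, pGem, pP23]) : Good bs22_0 bl91 2047 bm90 :=
  good_sml bc122 (bg72 H)

theorem bg70 (H : Bd [pDia, pK4, pW4, pGem, pP23]) : Good bs22_0 bl75 469 bm87 :=
  good_cov bc123 (bg71 H)

theorem dbs22d0_0 : DerTo bs22 bs22d0 16 :=
  DerTo.step (lo := 0) (c := 16) (DerTo.zero _ _) bc124

theorem dbs22d0 : Der bs22 bs22d0 := DerTo.fin dbs22d0_0 bc125

theorem bg69 (H : Bd [pDia, pK4, pW4, pGem, pP23]) : Good bs21_0 bl75 469 bm87 :=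
  good_flag bc83 (good_der dbs22d0 (bg70 H))

theorem dbs21d0_0 : DerTo bs21 bs21d0 4 :=
  DerTo.step (lo := 0) (c := 4) (DerTo.zero _ _) bc126

theorem dbs21d0 : Der bs21 bs21d0 := DerTo.fin dbs21d0_0 bc127

theorem bg68 (H : Bd [pDia, pK4, pW4, pGem, pP23]) : Good bs20_0 bl75 469 bm87 :=
  good_flag bc82 (good_der dbs21d0 (bg69 H))

theorem bg56 (H : Bd [pDia, pK4, pW4, pGem, pP23]) : Good bs20_0 bl75 511 bm74 :=
  good_mach baa56 bt56_1 bc128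
    (AllGood.cons (bg57 H) (AllGood.cons (bg58 H) (AllGood.cons (bg60 H) (AllGood.cons (bg62 H) (AllGood.cons (bg63 H) (AllGood.cons (bg64 H) (AllGood.cons (bg65 H) (AllGood.cons (bg66 H) (AllGood.cons (bg67 H) (AllGood.cons (bg68 H) (AllGood.nil _ _)))))))))))

theorem bg55 (H : Bd [pDia, pK4, pW4, pGem, pP23]) : Good bs20_0 bl20 8298 bm31 :=
  good_cov bc129 (bg56 H)

theorem dbs20d0_0 : DerTo bs20 bs20d0 9 :=
  DerTo.step (lo := 0) (c := 9) (DerTo.zero _ _) bc130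

theorem dbs20d0 : Der bs20 bs20d0 := DerTo.fin dbs20d0_0 bc131

theorem bg54 (H : Bd [pDia, pK4, pW4, pGem, pP23]) : Good bs19_0 bl20 8298 bm31 :=
  good_flag bc67 (good_der dbs20d0 (bg55 H))

theorem dbs19d0_0 : DerTo bs19 bs19d0 4 :=
  DerTo.step (lo := 0) (c := 4) (DerTo.zero _ _) bc132

theorem dbs19d0 : Der bs19 bs19d0 := DerTo.fin dbs19d0_0 bc133

theorem bg53 (H : Bd [pDia, pK4, pW4, pGem, pP23]) : Good bs18_0 bl20 8298 bm31 :=
  good_flag bc66 (good_der dbs19d0 (bg54 H))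

theorem dbs18d0_0 : DerTo bs18 bs18d0 4 :=
  DerTo.step (lo := 0) (c := 4) (DerTo.zero _ _) bc134

theorem dbs18d0 : Der bs18 bs18d0 := DerTo.fin dbs18d0_0 bc135

theorem bg52 (H : Bd [pDia, pK4, pW4, pGem, pP23]) : Good bs14_0 bl20 8298 bm31 :=
  good_flag bc65 (good_der dbs18d0 (bg53 H))

theorem bg51 (H : Bd [pDia, pK4, pW4, pGem, pP23]) : Good bs14_0 bl20 12394 bm31 :=
  good_pen bc136 (bg52 H)

theorem bg97 (H : Bd [pDia, pK4, pW4, pGem, pP23]) : Good bs14_0 bl20 384 bm15 :=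
  good_clo bd3 bc137

theorem bg98 (H : Bd [pDia, pK4, pW4, pGem, pP23]) : Good bs14_0 bl20 1152 bm32 :=
  good_clo bd3 bc138

theorem bg99 (H : Bd [pDia, pK4, pW4, pGem, pP23]) : Good bs14_0 bl20 4224 bm33 :=
  good_clo bd3 bc139

theorem bg100 (H : Bd [pDia, pK4, pW4, pGem, pP23]) : Good bs14_0 bl20 16640 bm34 :=
  good_clo bd3 bc140

theorem bg101 (H : Bd [pDia, pK4, pW4, pGem, pP23]) : Good bs14_0 bl20 33024 bm35 :=
  good_clo bd3 bc141

theorem bg102 (H : Bd [pDia, pK4, pW4, pGem, pP23]) : Good bs14_0 bl20 65792 bm36 :=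
  good_clo bd3 bc142

theorem bg103 (H : Bd [pDia, pK4, pW4, pGem, pP23]) : Good bs14_0 bl20 131328 bm37 :=
  good_clo bd3 bc143

theorem bg104 (H : Bd [pDia, pK4, pW4, pGem, pP23]) : Good bs14_0 bl20 16896 bm38 :=
  good_clo bd3 bc144

theorem bg105 (H : Bd [pDia, pK4, pW4, pGem, pP23]) : Good bs14_0 bl20 66048 bm39 :=
  good_clo bd3 bc145

theorem bg106 (H : Bd [pDia, pK4, pW4, pGem, pP23]) : Good bs14_0 bl20 164480 bm40 :=
  good_clo bd3 bc146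

theorem bg107 (H : Bd [pDia, pK4, pW4, pGem, pP23]) : Good bs14_0 bl20 17408 bm41 :=
  good_clo bd3 bc147

theorem bg108 (H : Bd [pDia, pK4, pW4, pGem, pP23]) : Good bs14_0 bl20 33792 bm42 :=
  good_clo bd3 bc148

theorem bg109 (H : Bd [pDia, pK4, pW4, pGem, pP23]) : Good bs14_0 bl20 66560 bm43 :=
  good_clo bd3 bc149

theorem bg110 (H : Bd [pDia, pK4, pW4, pGem, pP23]) : Good bs14_0 bl20 132096 bm44 :=
  good_clo bd3 bc150

theorem bg111 (H : Bd [pDia, pK4, pW4, pGem, pP23]) : Good bs14_0 bl20 18432 bm45 :=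
  good_clo bd3 bc151

theorem bg112 (H : Bd [pDia, pK4, pW4, pGem, pP23]) : Good bs14_0 bl20 67584 bm46 :=
  good_clo bd3 bc152

theorem bg113 (H : Bd [pDia, pK4, pW4, pGem, pP23]) : Good bs14_0 bl20 166016 bm47 :=
  good_clo bd3 bc153

theorem bg114 (H : Bd [pDia, pK4, pW4, pGem, pP23]) : Good bs14_0 bl20 20480 bm48 :=
  good_clo bd3 bc154

theorem bg115 (H : Bd [pDia, pK4, pW4, pGem, pP23]) : Good bs14_0 bl20 36864 bm49 :=
  good_clo bd3 bc155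

theorem bg116 (H : Bd [pDia, pK4, pW4, pGem, pP23]) : Good bs14_0 bl20 69632 bm50 :=
  good_clo bd3 bc156

theorem bg117 (H : Bd [pDia, pK4, pW4, pGem, pP23]) : Good bs14_0 bl20 135168 bm51 :=
  good_clo bd3 bc157

theorem bg118 (H : Bd [pDia, pK4, pW4, pGem, pP23]) : Good bs14_0 bl20 24576 bm52 :=
  good_clo bd3 bc158

theorem bg119 (H : Bd [pDia, pK4, pW4, pGem, pP23]) : Good bs14_0 bl20 73728 bm53 :=
  good_clo bd3 bc159

theorem bg120 (H : Bd [pDia, pK4, pW4, pGem, pP23]) : Good bs14_0 bl20 172160 bm54 :=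
  good_clo bd3 bc160

theorem bg28 (H : Bd [pDia, pK4, pW4, pGem, pP23]) : Good bs14_0 bl20 262143 bm19 :=
  good_mach baa28 bt28_9 bc161
    (AllGood.cons (bg29 H) (AllGood.cons (bg30 H) (AllGood.cons (bg32 H) (AllGood.cons (bg34 H) (AllGood.cons (bg35 H) (AllGood.cons (bg49 H) (AllGood.cons (bg50 H) (AllGood.cons (bg51 H) (AllGood.cons (bg97 H) (AllGood.cons (bg98 H) (AllGood.cons (bg99 H) (AllGood.cons (bg100 H) (AllGood.cons (bg101 H) (AllGood.cons (bg102 H) (AllGood.cons (bg103 H) (AllGood.cons (bg104 H) (AllGood.cons (bg105 H) (AllGood.cons (bg106 H) (AllGood.cons (bg107 H) (AllGood.cons (bg108 H) (AllGood.cons (bg109 H) (AllGood.cons (bg110 H) (AllGood.cons (bg111 H) (AllGood.cons (bg112 H) (AllGood.cons (bg113 H) (AllGood.cons (bg114 H) (AllGood.cons (bg115 H) (AllGood.cons (bg116 H) (AllGood.cons (bg117 H) (AllGood.cons (bg118 H) (AllGood.cons (bg119 H) (AllGood.cons (bg120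 H) (AllGood.nil _ _)))))))))))))))))))))))))))))))))

theorem bg27 (H : Bd [pDia, pK4, pW4, pGem, pP23]) : Good bs14_0 bl11 2687 bm16 :=
  good_cov bc162 (bg28 H)

theorem dbs14d0_0 : DerTo bs14 bs14d0 42 :=
  DerTo.step (lo := 0) (c := 42) (DerTo.zero _ _) bc163

theorem dbs14d0 : Der bs14 bs14d0 := DerTo.fin dbs14d0_0 bc164

theorem bg26 (H : Bd [pDia, pK4, pW4, pGem, pP23]) : Good bs13_0 bl11 2687 bm16 :=
  good_flag bc25 (good_der dbs14d0 (bg27 H))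

theorem dbs13d0_0 : DerTo bs13 bs13d0 3 :=
  DerTo.step (lo := 0) (c := 3) (DerTo.zero _ _) bc165

theorem dbs13d0 : Der bs13 bs13d0 := DerTo.fin dbs13d0_0 bc166

theorem bg25 (H : Bd [pDia, pK4, pW4, pGem, pP23]) : Good bs12_0 bl11 2687 bm16 :=
  good_flag bc24 (good_der dbs13d0 (bg26 H))

theorem dbs12d0_0 : DerTo bs12 bs12d0 3 :=
  DerTo.step (lo := 0) (c := 3) (DerTo.zero _ _) bc167

theorem dbs12d0 : Der bs12 bs12d0 := DerTo.fin dbs12d0_0 bc168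

theorem bg24 (H : Bd [pDia, pK4, pW4, pGem, pP23]) : Good bs11_0 bl11 2687 bm16 :=
  good_flag bc23 (good_der dbs12d0 (bg25 H))

theorem dbs11d0_0 : DerTo bs11 bs11d0 3 :=
  DerTo.step (lo := 0) (c := 3) (DerTo.zero _ _) bc169

theorem dbs11d0 : Der bs11 bs11d0 := DerTo.fin dbs11d0_0 bc170

theorem bg23 (H : Bd [pDia, pK4, pW4, pGem, pP23]) : Good bs10_0 bl11 2687 bm16 :=
  good_flag bc22 (good_der dbs11d0 (bg24 H))

theorem bg22 (H : Bd [pDia, pK4, pW4, pGem, pP23]) : Good bs10_0 bl11 2943 bm16 :=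
  good_pen bc171 (bg23 H)

theorem bg21 (H : Bd [pDia, pK4, pW4, pGem, pP23]) : Good bs10_0 bl11 3071 bm16 :=
  good_pen bc172 (bg22 H)

theorem br14_0 : Upto (RTat bs30_0 bl129 1023 bb130) 64 :=
  rt_step (lo := 0) (c := 64) (Upto.zero _) bc178

theorem ba14_0 : Upto (ALat bs30_0 bl129 1023 bb131) 64 :=
  al_step (lo := 0) (c := 64) br14_0 (Upto.zero _) bc179 (by decide)

theorem brr128 : Upto (RTat bs30_0 bl129 1023 bb130) 64 := br14_0

theorem baa128 : Upto (ALat bs30_0 bl129 1023 bb131) 64 := ba14_0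

theorem bt128_0 : TRR bs30_0 bl129 1023 bm128 bb132 0 64 64 :=
  tr_part (ly := 0) (cy := 64) brr128 baa128 (TRR.zero _ _ _ _ _ _ _) bc180

theorem bt128_1 : Upto (TRat bs30_0 bl129 1023 bm128 bb132) 64 :=
  tr_fin (lo := 0) (c := 64) (Upto.zero _) bt128_0

theorem bg129 (H : Bd [pDia, pK4, pW4, pGem, pP23]) : Good bs30_0 bl129 129 bm133 :=
  good_clo bd3 bc181

theorem bg130 (H : Bd [pDia, pK4, pW4, pGem, pP23]) : Good bs30_0 bl129 513 bm134 :=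
  good_clo bd3 bc182

theorem bg131 (H : Bd [pDia, pK4, pW4, pGem, pP23]) : Good bs30_0 bl129 132 bm25 :=
  good_clo bd3 bc183

theorem bg132 (H : Bd [pDia, pK4, pW4, pGem, pP23]) : Good bs30_0 bl129 516 bm100 :=
  good_clo bd3 bc184

theorem bg133 (H : Bd [pDia, pK4, pW4, pGem, pP23]) : Good bs30_0 bl129 144 bm26 :=
  good_clo bd3 bc185

theorem bg134 (H : Bd [pDia, pK4, pW4, pGem, pP23]) : Good bs30_0 bl129 528 bm103 :=
  good_clo bd3 bc186

theorem br15_0 : Upto (RTat bs33_0 bl138 4095 bb139) 64 :=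
  rt_step (lo := 0) (c := 64) (Upto.zero _) bc190

theorem ba15_0 : Upto (ALat bs33_0 bl138 4095 bb140) 64 :=
  al_step (lo := 0) (c := 64) br15_0 (Upto.zero _) bc191 (by decide)

theorem brr142 : Upto (RTat bs33_0 bl138 4095 bb139) 64 := br15_0

theorem baa142 : Upto (ALat bs33_0 bl138 4095 bb140) 64 := ba15_0

theorem bt142_0 : TRR bs33_0 bl138 4095 bm137 bb141 0 64 64 :=
  tr_part (ly := 0) (cy := 64) brr142 baa142 (TRR.zero _ _ _ _ _ _ _) bc192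

theorem bt142_1 : Upto (TRat bs33_0 bl138 4095 bm137 bb141) 64 :=
  tr_fin (lo := 0) (c := 64) (Upto.zero _) bt142_0

theorem bg143 (H : Bd [pDia, pK4, pW4, pGem, pP23]) : Good bs33_0 bl138 520 bm142 :=
  good_clo bd3 bc193

theorem bg144 (H : Bd [pDia, pK4, pW4, pGem, pP23]) : Good bs33_0 bl138 2056 bm143 :=
  good_clo bd3 bc194

theorem bg145 (H : Bd [pDia, pK4, pW4, pGem, pP23]) : Good bs33_0 bl138 544 bm144 :=
  good_clo bd3 bc195

theorem bg146 (H : Bd [pDia, pK4, pW4, pGem, pP23]) : Good bs33_0 bl138 2080 bm145 :=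
  good_clo bd3 bc196

theorem be147_0 : Upto (DegAt bs33_0 bl138 1367 bb147) 64 :=
  deg_step (lo := 0) (c := 64) (Upto.zero _) bc197

theorem bg147 (H : Bd [pDia, pK4, pW4, pGem, pP23]) : Good bs33_0 bl138 1367 bm146 :=
  good_deg be147_0 bc198

theorem bg142 (H : Bd [pDia, pK4, pW4, pGem, pP23]) : Good bs33_0 bl138 4095 bm137 :=
  good_mach baa142 bt142_1 bc199
    (AllGood.cons (bg143 H) (AllGood.cons (bg144 H) (AllGood.cons (bg145 H) (AllGood.cons (bg146 H) (AllGood.cons (bg147 H) (AllGood.nil _ _))))))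

theorem bg141 (H : Bd [pDia, pK4, pW4, pGem, pP23]) : Good bs33_0 bl129 1002 bm135 :=
  good_cov bc200 (bg142 H)

theorem dbs33d0_0 : DerTo bs33 bs33d0 32 :=
  DerTo.step (lo := 0) (c := 32) (DerTo.zero _ _) bc201

theorem dbs33d0_1 : DerTo bs33 bs33d0 56 :=
  DerTo.step (lo := 32) (c := 24) dbs33d0_0 bc202

theorem dbs33d0_2 : DerTo bs33 bs33d0 81 :=
  DerTo.step (lo := 56) (c := 25) dbs33d0_1 bc203

theorem dbs33d0_3 : DerTo bs33 bs33d0 104 :=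
  DerTo.step (lo := 81) (c := 23) dbs33d0_2 bc204

theorem dbs33d0_4 : DerTo bs33 bs33d0 126 :=
  DerTo.step (lo := 104) (c := 22) dbs33d0_3 bc205

theorem dbs33d0_5 : DerTo bs33 bs33d0 142 :=
  DerTo.step (lo := 126) (c := 16) dbs33d0_4 bc206

theorem dbs33d0_6 : DerTo bs33 bs33d0 162 :=
  DerTo.step (lo := 142) (c := 20) dbs33d0_5 bc207

theorem dbs33d0_7 : DerTo bs33 bs33d0 188 :=
  DerTo.step (lo := 162) (c := 26) dbs33d0_6 bc208

theorem dbs33d0_8 : DerTo bs33 bs33d0 205 :=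
  DerTo.step (lo := 188) (c := 17) dbs33d0_7 bc209

theorem dbs33d0_9 : DerTo bs33 bs33d0 230 :=
  DerTo.step (lo := 205) (c := 25) dbs33d0_8 bc210

theorem dbs33d0_10 : DerTo bs33 bs33d0 247 :=
  DerTo.step (lo := 230) (c := 17) dbs33d0_9 bc211

theorem dbs33d0 : Der bs33 bs33d0 := DerTo.fin dbs33d0_10 bc212

theorem bg140 (H : Bd [pDia, pK4, pW4, pGem, pP23]) : Good bs32_0 bl129 1002 bm135 :=
  good_flag bc189 (good_der dbs33d0 (bg141 H))

theorem dbs32d0_0 : DerTo bs32 bs32d0 3 :=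
  DerTo.step (lo := 0) (c := 3) (DerTo.zero _ _) bc213

theorem dbs32d0 : Der bs32 bs32d0 := DerTo.fin dbs32d0_0 bc214

theorem bg139 (H : Bd [pDia, pK4, pW4, pGem, pP23]) : Good bs31_0 bl129 1002 bm135 :=
  good_flag bc188 (good_der dbs32d0 (bg140 H))

theorem dbs31d0_0 : DerTo bs31 bs31d0 5 :=
  DerTo.step (lo := 0) (c := 5) (DerTo.zero _ _) bc215

theorem dbs31d0 : Der bs31 bs31d0 := DerTo.fin dbs31d0_0 bc216

theorem bg138 (H : Bd [pDia, pK4, pW4, pGem, pP23]) : Good bs30_0 bl129 1002 bm135 :=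
  good_flag bc187 (good_der dbs31d0 (bg139 H))

theorem bg137 (H : Bd [pDia, pK4, pW4, pGem, pP23]) : Good bs30_0 bl129 1018 bm135 :=
  good_pen bc217 (bg138 H)

theorem bg136 (H : Bd [pDia, pK4, pW4, pGem, pP23]) : Good bs30_0 bl129 1022 bm135 :=
  good_pen bc218 (bg137 H)

theorem bg135 (H : Bd [pDia, pK4, pW4, pGem, pP23]) : Good bs30_0 bl129 1023 bm135 :=
  good_pen bc219 (bg136 H)

theorem bg149 (H : Bd [pDia, pK4, pW4, pGem, pP23]) : Good bs30_0 (pk 256 [0x1]) 1 0x1 :=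
  good_clo bd_P4 bc220

theorem bg148 (H : Bd [pDia, pK4, pW4, pGem, pP23]) : Good bs30_0 bl129 640 bm136 :=
  good_cov bc221 (bg149 H)

theorem bg128 (H : Bd [pDia, pK4, pW4, pGem, pP23]) : Good bs30_0 bl129 1023 bm128 :=
  good_mach baa128 bt128_1 bc222
    (AllGood.cons (bg129 H) (AllGood.cons (bg130 H) (AllGood.cons (bg131 H) (AllGood.cons (bg132 H) (AllGood.cons (bg133 H) (AllGood.cons (bg134 H) (AllGood.cons (bg135 H) (AllGood.cons (bg148 H) (AllGood.nil _ _)))))))))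

theorem bg127 (H : Bd [pDia, pK4, pW4, pGem, pP23]) : Good bs30_0 bl127 31 bm126 :=
  good_cov bc223 (bg128 H)

theorem dbs30d0_0 : DerTo bs30 bs30d0 31 :=
  DerTo.step (lo := 0) (c := 31) (DerTo.zero _ _) bc224

theorem dbs30d0_1 : DerTo bs30 bs30d0 60 :=
  DerTo.step (lo := 31) (c := 29) dbs30d0_0 bc225

theorem dbs30d0_2 : DerTo bs30 bs30d0 75 :=
  DerTo.step (lo := 60) (c := 15) dbs30d0_1 bc226

theorem dbs30d0 : Der bs30 bs30d0 := DerTo.fin dbs30d0_2 bc227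

theorem bg126 (H : Bd [pDia, pK4, pW4, pGem, pP23]) : Good bs29_0 bl127 31 bm126 :=
  good_flag bc177 (good_der dbs30d0 (bg127 H))

theorem dbs29d0_0 : DerTo bs29 bs29d0 3 :=
  DerTo.step (lo := 0) (c := 3) (DerTo.zero _ _) bc228

theorem dbs29d0 : Der bs29 bs29d0 := DerTo.fin dbs29d0_0 bc229

theorem bg125 (H : Bd [pDia, pK4, pW4, pGem, pP23]) : Good bs28_0 bl127 31 bm126 :=
  good_flag bc176 (good_der dbs29d0 (bg126 H))

theorem dbs28d0_0 : DerTo bs28 bs28d0 3 :=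
  DerTo.step (lo := 0) (c := 3) (DerTo.zero _ _) bc230

theorem dbs28d0 : Der bs28 bs28d0 := DerTo.fin dbs28d0_0 bc231

theorem bg124 (H : Bd [pDia, pK4, pW4, pGem, pP23]) : Good bs26_0 bl127 31 bm126 :=
  good_flag bc175 (good_der dbs28d0 (bg125 H))

theorem bg123 (H : Bd [pDia, pK4, pW4, pGem, pP23]) : Good bs26_0 bl11 5232 bm17 :=
  good_cov bc232 (bg124 H)

theorem dbs26d0_0 : DerTo bs26 bs26d0 5 :=
  DerTo.step (lo := 0) (c := 5) (DerTo.zero _ _) bc233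

theorem dbs26d0 : Der bs26 bs26d0 := DerTo.fin dbs26d0_0 bc234

theorem br17_0 : Upto (RTat bs27_0 bl127 31 bb152) 64 :=
  rt_step (lo := 0) (c := 64) (Upto.zero _) bc235

theorem ba17_0 : Upto (ALat bs27_0 bl127 31 bb153) 64 :=
  al_step (lo := 0) (c := 64) br17_0 (Upto.zero _) bc236 (by decide)

theorem brr151 : Upto (RTat bs27_0 bl127 31 bb152) 64 := br17_0

theorem baa151 : Upto (ALat bs27_0 bl127 31 bb153) 64 := ba17_0

theorem bt151_0 : TRR bs27_0 bl127 31 bm126 bb154 0 3 64 :=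
  tr_part (ly := 0) (cy := 64) brr151 baa151 (TRR.zero _ _ _ _ _ _ _) bc237

theorem bt151_1 : Upto (TRat bs27_0 bl127 31 bm126 bb154) 3 :=
  tr_fin (lo := 0) (c := 3) (Upto.zero _) bt151_0

theorem bt151_2 : TRR bs27_0 bl127 31 bm126 bb154 3 1 2 :=
  tr_part (ly := 0) (cy := 2) brr151 baa151 (TRR.zero _ _ _ _ _ _ _) bc238

theorem bt151_3 : TRR bs27_0 bl127 31 bm126 bb154 3 1 64 :=
  tr_part (ly := 2) (cy := 62) brr151 baa151 bt151_2 bc239

theorem bt151_4 : Upto (TRat bs27_0 bl127 31 bm126 bb154) 4 :=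
  tr_fin (lo := 3) (c := 1) bt151_1 bt151_3

theorem bt151_5 : TRR bs27_0 bl127 31 bm126 bb154 4 1 2 :=
  tr_part (ly := 0) (cy := 2) brr151 baa151 (TRR.zero _ _ _ _ _ _ _) bc240

theorem bt151_6 : TRR bs27_0 bl127 31 bm126 bb154 4 1 64 :=
  tr_part (ly := 2) (cy := 62) brr151 baa151 bt151_5 bc241

theorem bt151_7 : Upto (TRat bs27_0 bl127 31 bm126 bb154) 5 :=
  tr_fin (lo := 4) (c := 1) bt151_4 bt151_6

theorem bt151_8 : TRR bs27_0 bl127 31 bm126 bb154 5 59 64 :=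
  tr_part (ly := 0) (cy := 64) brr151 baa151 (TRR.zero _ _ _ _ _ _ _) bc242

theorem bt151_9 : Upto (TRat bs27_0 bl127 31 bm126 bb154) 64 :=
  tr_fin (lo := 5) (c := 59) bt151_7 bt151_8

theorem bg152 (H : Bd [pDia, pK4, pW4, pGem, pP23]) : Good bs27_0 bl127 9 bm79 :=
  good_clo bd3 bc243

theorem bg153 (H : Bd [pDia, pK4, pW4, pGem, pP23]) : Good bs27_0 bl127 17 bm155 :=
  good_clo bd3 bc244

theorem bg154 (H : Bd [pDia, pK4, pW4, pGem, pP23]) : Good bs27_0 bl127 10 bm110 :=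
  good_clo bd3 bc245

theorem bg155 (H : Bd [pDia, pK4, pW4, pGem, pP23]) : Good bs27_0 bl127 18 bm156 :=
  good_clo bd3 bc246

theorem bg156 (H : Bd [pDia, pK4, pW4, pGem, pP23]) : Good bs27_0 bl127 12 bm157 :=
  good_clo bd3 bc247

theorem bg157 (H : Bd [pDia, pK4, pW4, pGem, pP23]) : Good bs27_0 bl127 20 bm158 :=
  good_clo bd3 bc248

theorem bg159 (H : Bd [pDia, pK4, pW4, pGem, pP23]) : Good bs27_0 (pk 256 [0x1]) 1 0x1 :=
  good_clo bd_P4 bc249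

theorem bg158 (H : Bd [pDia, pK4, pW4, pGem, pP23]) : Good bs27_0 bl127 24 bm8 :=
  good_cov bc250 (bg159 H)

theorem bg151 (H : Bd [pDia, pK4, pW4, pGem, pP23]) : Good bs27_0 bl127 31 bm126 :=
  good_mach baa151 bt151_9 bc251
    (AllGood.cons (bg152 H) (AllGood.cons (bg153 H) (AllGood.cons (bg154 H) (AllGood.cons (bg155 H) (AllGood.cons (bg156 H) (AllGood.cons (bg157 H) (AllGood.cons (bg158 H) (AllGood.nil _ _))))))))

theorem bg150 (H : Bd [pDia, pK4, pW4, pGem, pP23]) : Good bs27_0 bl11 5232 bm17 :=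
  good_cov bc252 (bg151 H)

theorem dbs27d0_0 : DerTo bs27 bs27d0 4 :=
  DerTo.step (lo := 0) (c := 4) (DerTo.zero _ _) bc253

theorem dbs27d0 : Der bs27 bs27d0 := DerTo.fin dbs27d0_0 bc254

theorem bg122 (H : Bd [pDia, pK4, pW4, pGem, pP23]) : Good bs25_0 bl11 5232 bm17 :=
  good_gsp bc174 (good_der dbs26d0 (bg123 H)) (good_der dbs27d0 (bg150 H))

theorem dbs25d0_0 : DerTo bs25 bs25d0 3 :=
  DerTo.step (lo := 0) (c := 3) (DerTo.zero _ _) bc255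

theorem dbs25d0 : Der bs25 bs25d0 := DerTo.fin dbs25d0_0 bc256

theorem bg121 (H : Bd [pDia, pK4, pW4, pGem, pP23]) : Good bs10_0 bl11 5232 bm17 :=
  good_flag bc173 (good_der dbs25d0 (bg122 H))

theorem bg18 (H : Bd [pDia, pK4, pW4, pGem, pP23]) : Good bs10_0 bl11 8191 bm10 :=
  good_mach baa18 bt18_1 bc257
    (AllGood.cons (bg19 H) (AllGood.cons (bg21 H) (AllGood.cons (bg121 H) (AllGood.nil _ _))))

theorem bg17 (H : Bd [pDia, pK4, pW4, pGem, pP23]) : Good bs10_0 bl2 511 bm9 :=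
  good_cov bc258 (bg18 H)

theorem dbs10d0_0 : DerTo bs10 bs10d0 11 :=
  DerTo.step (lo := 0) (c := 11) (DerTo.zero _ _) bc259

theorem dbs10d0 : Der bs10 bs10d0 := DerTo.fin dbs10d0_0 bc260

theorem bg16 (H : Bd [pDia, pK4, pW4, pGem, pP23]) : Good bs9_0 bl2 511 bm9 :=
  good_flag bc16 (good_der dbs10d0 (bg17 H))

theorem dbs9d0_0 : DerTo bs9 bs9d0 7 :=
  DerTo.step (lo := 0) (c := 7) (DerTo.zero _ _) bc261

theorem dbs9d0 : Der bs9 bs9d0 := DerTo.fin dbs9d0_0 bc262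

theorem bg15 (H : Bd [pDia, pK4, pW4, pGem, pP23]) : Good bs8_0 bl2 511 bm9 :=
  good_flag bc15 (good_der dbs9d0 (bg16 H))

theorem dbs8d0_0 : DerTo bs8 bs8d0 3 :=
  DerTo.step (lo := 0) (c := 3) (DerTo.zero _ _) bc263

theorem dbs8d0 : Der bs8 bs8d0 := DerTo.fin dbs8d0_0 bc264

theorem bg14 (H : Bd [pDia, pK4, pW4, pGem, pP23]) : Good bs7_0 bl2 511 bm9 :=
  good_flag bc14 (good_der dbs8d0 (bg15 H))

theorem dbs7d0_0 : DerTo bs7 bs7d0 5 :=
  DerTo.step (lo := 0) (c := 5) (DerTo.zero _ _) bc265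

theorem dbs7d0 : Der bs7 bs7d0 := DerTo.fin dbs7d0_0 bc266

theorem bg13 (H : Bd [pDia, pK4, pW4, pGem, pP23]) : Good bs6_0 bl2 511 bm9 :=
  good_flag bc13 (good_der dbs7d0 (bg14 H))

theorem dbs6d0_0 : DerTo bs6 bs6d0 6 :=
  DerTo.step (lo := 0) (c := 6) (DerTo.zero _ _) bc267

theorem dbs6d0 : Der bs6 bs6d0 := DerTo.fin dbs6d0_0 bc268

theorem bg12 (H : Bd [pDia, pK4, pW4, pGem, pP23]) : Good bs5_0 bl2 511 bm9 :=
  good_flag bc12 (good_der dbs6d0 (bg13 H))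

theorem dbs5d0_0 : DerTo bs5 bs5d0 7 :=
  DerTo.step (lo := 0) (c := 7) (DerTo.zero _ _) bc269

theorem dbs5d0 : Der bs5 bs5d0 := DerTo.fin dbs5d0_0 bc270

theorem bg11 (H : Bd [pDia, pK4, pW4, pGem, pP23]) : Good bs4_0 bl2 511 bm9 :=
  good_flag bc11 (good_der dbs5d0 (bg12 H))

theorem bg7 (H : Bd [pDia, pK4, pW4, pGem, pP23]) : Good bs4_0 bl2 511 bm3 :=
  good_mach baa7 bt7_3 bc271
    (AllGood.cons (bg8 H) (AllGood.cons (bg9 H) (AllGood.cons (bg10 H) (AllGood.cons (bg11 H) (AllGood.nil _ _)))))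

theorem bg6 (H : Bd [pDia, pK4, pW4, pGem, pP23]) : Good bs4_0 bl2 511 bm1 :=
  good_drop (rt_mono br1_0 (by decide +kernel)) bc272 (bg7 H)

theorem bg5 (H : Bd [pDia, pK4, pW4, pGem, pP23]) : Good bs4_0 bl2 1023 bm1 :=
  good_sml bc273 (bg6 H)

theorem bg4 (H : Bd [pDia, pK4, pW4, pGem, pP23]) : Good bs4_0 0 1 1 :=
  good_cov bc274 (bg5 H)

theorem dbs4d0_0 : DerTo bs4 bs4d0 75 :=
  DerTo.step (lo := 0) (c := 75) (DerTo.zero _ _) bc275

theorem dbs4d0 : Der bs4 bs4d0 := DerTo.fin dbs4d0_0 bc276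

theorem bg3 (H : Bd [pDia, pK4, pW4, pGem, pP23]) : Good bs3 0 1 1 :=
  good_flag bc3 (good_der dbs4d0 (bg4 H))

theorem bg2 (H : Bd [pDia, pK4, pW4, pGem, pP23]) : Good bs2 0 1 1 :=
  good_flag bc2 (bg3 H)

theorem bg1 (H : Bd [pDia, pK4, pW4, pGem, pP23]) : Good bs1 0 1 1 :=
  good_ori bc1 (bg2 H)

theorem bg0 (H : Bd [pDia, pK4, pW4, pGem, pP23]) : Good bs0 0 1 1 :=
  good_flag bc0 (bg1 H)

theorem stage_dia (H : Bd [pDia, pK4, pW4, pGem, pP23]) : Bd [pK4, pW4, pGem, pP23] :=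
  bd_stage (t := btP) (n0 := 4) (c0 := bc00) H (by simp) (by simp) kills (by decide +kernel) (bg0 H)

end

end Pool.Agent.Lib.MP_1595d8_lc
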