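import Mathlib
import Pool.Agent.Lib.MP_042ec1_co.Machine

/-!
Semantic notions for the structure theory of graphs without an induced gem or `P₂ + P₃`.
-/

namespace Pool.Agent.Lib.MP_1595d8_lc

open Finset Pool.Agent.Lib.MP_042ec1_co

variable {V : Type}

/-- No induced path on four vertices inside `U`. -/
def NoP4 (G : SimpleGraph V) (U : Finset V) : Prop :=
  ∀ a ∈ U, ∀ b ∈ U, ∀ c ∈ U, ∀ d ∈ U, G.Adj a b → G.Adj b c → G.Adj c d →
    ¬ G.Adj a c → ¬ G.Adj a d → ¬ G.Adj b d → False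

/-- No induced gem inside `U`. -/
def NoGem (G : SimpleGraph V) (U : Finset V) : Prop :=
  ∀ e ∈ U, ∀ a ∈ U, ∀ b ∈ U, ∀ c ∈ U, ∀ d ∈ U, G.Adj e a → G.Adj e b → G.Adj e c → G.Adj e d →
    G.Adj a b → G.Adj b c → G.Adj c d → ¬ G.Adj a c → ¬ G.Adj a d → ¬ G.Adj b d → False

/-- No induced `P₂ + P₃` inside `U`. -/
def NoP23 (G : SimpleGraph V) (U : Finset V) : Prop :=
  ∀ x ∈ U, ∀ y ∈ U, ∀ p ∈ U, ∀ q ∈ U, ∀ r ∈ U, G.Adj x y → G.Adj p q → G.Adj q r → p ≠ r →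
    ¬ G.Adj p r → ¬ G.Adj x p → ¬ G.Adj x q → ¬ G.Adj x r → ¬ G.Adj y p → ¬ G.Adj y q →
    ¬ G.Adj y r → False

/-- The graph induced on `U` has no split. -/
def SplitPrime [DecidableEq V] (G : SimpleGraph V) (U : Finset V) : Prop :=
  ∀ P ⊆ U, 2 ≤ P.card → 2 ≤ (U \ P).card → ∀ A B : V → Prop,
    ¬ ∀ x ∈ P, ∀ y ∈ U \ P, (G.Adj x y ↔ A x ∧ B y)

/-- The pair `x, y` violates the split given by the neighbourhoods of `a` and `b`. -/
def Vio (G : SimpleGraph V) (a b x y : V) : Prop := ¬ (G.Adj x y ↔ G.Adj x b ∧ G.Adj a y)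

/-- The graph that keeps the edges between the pairs of classes selected by `M`. -/
def mg (G : SimpleGraph V) (ty : V → ℕ) (M : ℕ → ℕ → Prop) : SimpleGraph V where
  Adj x y := G.Adj x y ∧ M (ty x) (ty y) ∧ M (ty y) (ty x)
  symm := ⟨fun _ _ h => ⟨h.1.symm, h.2.2, h.2.1⟩⟩
  loopless := ⟨fun _ h => h.1.ne rfl⟩

/-- Two sequences of length five with a homogeneous adjacency pattern that is not constant. -/
def HasPat2 (G : SimpleGraph V) (PX PY : V → Prop) : Prop :=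
  ∃ (x y : ℕ → V) (p : Pat), nc p = true ∧ (∀ i < 5, PX (x i) ∧ PY (y i)) ∧
    (∀ i < 5, ∀ j < i, x j ≠ x i ∧ y j ≠ y i) ∧
    ∀ i < 5, ∀ j < 5, (G.Adj (x i) (y j) ↔ rel p i j = true)

/-- Three sequences of length five with homogeneous adjacency patterns. -/
def HasPat3 (G : SimpleGraph V) (PX PY PZ : V → Prop) : Prop :=
  ∃ (x y z : ℕ → V) (p q r : Pat), nc p = true ∧ nc q = true ∧
    (∀ i < 5, PX (x i) ∧ PY (y i) ∧ PZ (z i)) ∧
    (∀ i < 5, ∀ j < i, x j ≠ x i ∧ y j ≠ y i ∧ z j ≠ z i) ∧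
    ∀ i < 5, ∀ j < 5, (G.Adj (x i) (y j) ↔ rel p i j = true) ∧
      (G.Adj (x i) (z j) ↔ rel q i j = true) ∧ (G.Adj (y i) (z j) ↔ rel r i j = true)

/-- A clique `K` and an independent set `X` inside the neighbourhood of `a`, and an independent
set `Y` outside of it; `isK` marks the clique. -/
structure Tri (G : SimpleGraph V) (W : Finset V) (a : V) (isK : V → Prop) : Prop where
  aK : ∀ v ∈ W, isK v → G.Adj a v
  cl : ∀ u ∈ W, ∀ v ∈ W, isK u → isK v → u ≠ v → G.Adj u v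
  iX : ∀ u ∈ W, ∀ v ∈ W, ¬ isK u → ¬ isK v → G.Adj a u → G.Adj a v → ¬ G.Adj u v
  iY : ∀ u ∈ W, ∀ v ∈ W, ¬ G.Adj a u → ¬ G.Adj a v → ¬ G.Adj u v

/-- The width bound `k` holds for all three-part configurations. -/
def T1 (k : ℕ) : Prop :=
  ∀ (V : Type) [DecidableEq V] [Fintype V] (G : SimpleGraph V) (W : Finset V) (a : V)
    (isK : V → Prop), a ∉ W → NoGem G (insert a W) → NoP23 G (insert a W) → Tri G W a isK →
    Wd G W k

/-- The width bound `k` holds for the three-part configurations with a second special vertex. -/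
def T1star (k : ℕ) : Prop :=
  ∀ (V : Type) [DecidableEq V] [Fintype V] (G : SimpleGraph V) (W : Finset V) (a c : V)
    (isK : V → Prop), a ∉ W → c ∉ W → G.Adj a c → NoGem G (insert a (insert c W)) →
    NoP23 G (insert a (insert c W)) → Tri G W a isK → (∀ v ∈ W, isK v → G.Adj c v) →
    (∀ v ∈ W, ¬ isK v → G.Adj a v → ¬ G.Adj c v) →
    (∀ v ∈ W, isK v → (∃ x ∈ W, ¬ isK x ∧ G.Adj a x ∧ G.Adj v x) →
      (∃ y ∈ W, ¬ G.Adj a y ∧ ¬ G.Adj c y ∧ G.Adj v y) →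
      ∃ y ∈ W, ∃ x ∈ W, ¬ G.Adj a y ∧ ¬ G.Adj c y ∧ G.Adj v y ∧ ¬ isK x ∧ G.Adj a x ∧
        G.Adj y x) → Wd G W k

/-- The width bound `k` holds when two adjacent vertices dominate everything, their common
neighbours form a clique and their private neighbourhoods are independent. -/
def T2 (k : ℕ) : Prop :=
  ∀ (V : Type) [DecidableEq V] [Fintype V] (G : SimpleGraph V) (W : Finset V) (a c : V),
    a ∉ W → c ∉ W → G.Adj a c → NoGem G (insert a (insert c W)) →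
    NoP23 G (insert a (insert c W)) → (∀ v ∈ W, G.Adj a v ∨ G.Adj c v) →
    (∀ u ∈ W, ∀ v ∈ W, G.Adj a u → G.Adj c u → G.Adj a v → G.Adj c v → u ≠ v → G.Adj u v) →
    (∀ u ∈ W, ∀ v ∈ W, ¬ G.Adj c u → ¬ G.Adj c v → ¬ G.Adj u v) →
    (∀ u ∈ W, ∀ v ∈ W, ¬ G.Adj a u → ¬ G.Adj a v → ¬ G.Adj u v) → Wd G W k

end Pool.Agent.Lib.MP_1595d8_lc
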