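import Mathlib
import Pool.Agent.Lib.MP_1595d8_lc.H89Sem

/-!
Configurations, facts, and the tableau checker: definitions.
-/

namespace Pool.Agent.Lib.MP_1595d8_lc

open Finset Pool.Agent.Lib.MP_042ec1_co

/-- A graph, a set of vertices, and flags on the vertices. -/
structure Wld (V : Type) where
  G : SimpleGraph V
  U : Finset V
  τ : V → ℕ → Prop

variable {V : Type}

/-- The literal number `b` at the vertex `x`: adjacency to `f b`, or a flag. -/
def lit (w : Wld V) (f : ℕ → V) (x : V) (b : ℕ) : Prop :=
  if b < 32 then w.G.Adj x (f b) else w.τ x b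

/-- A cell: bit zero asserts `p`, bit one asserts `¬ p`. -/
def CellOK (c : ℕ) (p : Prop) : Prop := (c.testBit 0 = true → p) ∧ (c.testBit 1 = true → ¬ p)

/-- The row `r` is true at the vertex `x`, read at position `i`. -/
def RowOK (w : Wld V) (f : ℕ → V) (i : ℕ) (x : V) (r : ℕ) : Prop :=
  ∀ b < 128, b < i ∨ 32 ≤ b →
    (r.testBit (2 * b) = true → lit w f x b) ∧ (r.testBit (2 * b + 1) = true → ¬ lit w f x b)

/-- Row number `i` of a packed table. -/
def row (K i : ℕ) : ℕ :=
  Nat.land (Nat.shiftRight K (Nat.mul 256 i))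
    115792089237316195423570985008687907853269984665640564039457584007913129639935

/-- The first `n` values of `f` are different vertices of the world. -/
def Inj (w : Wld V) (f : ℕ → V) (n : ℕ) : Prop := ∀ i < n, f i ∈ w.U ∧ ∀ j < i, f j ≠ f i

/-- The first `n` rows of `K` are true. -/
def Tru (w : Wld V) (f : ℕ → V) (n K : ℕ) : Prop := ∀ i < n, RowOK w f i (f i) (row K i)

/-- `f` realises the rows `rs`, placed after `m` further vertices. -/
def SatL (w : Wld V) (f : ℕ → V) (m : ℕ) (rs : List ℕ) : Prop :=
  Inj w f (m + rs.length) ∧ ∀ j < rs.length, RowOK w f (m + j) (f (m + j)) (rs.getD j 0)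

/-- A fact: every realisation of `rows` extends to a realisation of one of `alts`. -/
structure Fact where
  m : ℕ
  rows : List ℕ
  alts : List (List ℕ)

/-- One of the alternatives is realised by a function that agrees with `f` below `k`. -/
def Ext (w : Wld V) (f : ℕ → V) (m k : ℕ) (alts : List (List ℕ)) : Prop :=
  ∃ alt ∈ alts, ∃ g : ℕ → V, (∀ i < k, g i = f i) ∧ SatL w g m alt

/-- The meaning of a fact, for the constants `a`. -/
def Holds (w : Wld V) (a : ℕ → V) (φ : Fact) : Prop :=
  ∀ f : ℕ → V, (∀ i < φ.m, f i = a i) → SatL w f φ.m φ.rows →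
    Ext w f φ.m (φ.m + φ.rows.length) φ.alts

/-- The rows only mention literals below `nb`. -/
def wfL (nb : ℕ) (rs : List ℕ) : Bool :=
  List.rec true (fun r _ ih => Nat.beq (Nat.shiftRight r (Nat.mul 2 nb)) 0 && ih) rs

/-- The fact only mentions literals below `nb`. -/
def wfF (nb : ℕ) (φ : Fact) : Bool :=
  wfL nb φ.rows && List.rec true (fun l _ ih => wfL nb l && ih) φ.alts

/-- Binary trees of facts. -/
inductive FT : Type
  | nil : FT
  | node (φ : Fact) (l r : FT) : FT

/-- The trivial fact. -/
def triv : Fact := ⟨0, [], [[]]⟩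

/-- Access by heap index, lowest bit first. -/
noncomputable def FT.get (t : FT) : ℕ → Fact :=
  FT.rec (fun _ => triv) (fun φ _ _ il ir i => bif Nat.ble i 1 then φ else
    bif Nat.beq (Nat.land i 1) 0 then il (Nat.shiftRight i 1) else ir (Nat.shiftRight i 1)) t

/-- A test at all nodes of a tree. -/
noncomputable def FT.all (p : Fact → Bool) (t : FT) : Bool :=
  FT.rec true (fun φ _ _ il ir => p φ && (il && ir)) t

/-- All heap indices of the tree are below `B`. -/
noncomputable def FT.sz (B : ℕ) (t : FT) : ℕ → ℕ → Bool :=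
  FT.rec (fun _ _ => true) (fun _ _ _ il ir hi lo => Nat.blt (Nat.add hi lo) B &&
    (il (Nat.mul 2 hi) lo && ir (Nat.mul 2 hi) (Nat.add lo hi))) t

/-- The facts of the tree with index below `B` are true. -/
def ValidTo (w : Wld V) (a : ℕ → V) (nb : ℕ) (t : FT) (B : ℕ) : Prop :=
  ∀ i < B, wfF nb (t.get i) = true ∧ Holds w a (t.get i)

/-- All facts of the tree are true. -/
def Valid (w : Wld V) (a : ℕ → V) (nb : ℕ) (t : FT) : Prop :=
  ∀ i, wfF nb (t.get i) = true ∧ Holds w a (t.get i)

/-- Forces the evaluation of a number. -/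
def fz {α : Type} (x : ℕ) (k : ℕ → α) : α := Nat.casesOn x (k 0) fun m => k (Nat.succ m)

/-- Sequencing: zero signals failure. -/
def sq (s : ℕ) (k : ℕ → ℕ) : ℕ := Nat.casesOn s 0 fun m => k (Nat.succ m)

/-- A bit test. -/
def tb (x i : ℕ) : Bool := Nat.beq (Nat.land (Nat.shiftRight x i) 1) 1

/-- A test for all numbers below `n`. -/
def allLT (n : ℕ) (p : ℕ → Bool) : Bool := Nat.rec true (fun i ih => p i && ih) n

/-- A loop that passes the stream along. -/
def loop (n : ℕ) (p : ℕ → ℕ → ℕ) (s : ℕ) : ℕ := Nat.rec s (fun i ih => sq ih (p i)) n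

/-- The position of the cell of an unordered pair. -/
def pos (d e : ℕ) : ℕ :=
  bif Nat.blt e d then Nat.add (Nat.mul 256 d) (Nat.mul 2 e) else
    Nat.add (Nat.mul 256 e) (Nat.mul 2 d)

/-- Base thirty-two digits. -/
def dg (D j : ℕ) : ℕ := Nat.land (Nat.shiftRight D (Nat.mul 5 j)) 31

/-- The cell number `b` of a row. -/
def cel (r b : ℕ) : ℕ := Nat.land (Nat.shiftRight r (Nat.mul 2 b)) 3

/-- The cell of an unordered pair of vertices. -/
def getc (K u v : ℕ) : ℕ := Nat.land (Nat.shiftRight K (pos u v)) 3

/-- Exchanges the two bits of a cell. -/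
def swp (c : ℕ) : ℕ := Nat.lor (Nat.shiftLeft (Nat.land c 1) 1) (Nat.shiftRight c 1)

/-- The cells of the first `m` vertices and of the flags. -/
def mA (m : ℕ) : ℕ :=
  Nat.lor (Nat.sub (Nat.shiftLeft 1 (Nat.mul 2 m)) 1)
    115792089237316195423570985008687907853269984665640564039439137263839420088320

/-- Translation of the row `r` to the vertex `d`; the digits of `D` give the earlier vertices. -/
def trR (r m d D j : ℕ) : ℕ :=
  Nat.rec (Nat.shiftLeft (Nat.land r (mA m)) (Nat.mul 256 d))
    (fun i acc => fz (dg D i) fun e =>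
      Nat.lor acc (Nat.shiftLeft (cel r (Nat.add m i)) (pos d e))) j

/-- The first `n` rows. -/
def cut (K n : ℕ) : ℕ := Nat.mod K (Nat.shiftLeft 1 (Nat.mul 256 n))

/-- The low bits of all meaningful cells. -/
def GM : ℕ :=
  Nat.lor 59923104495410530257643506359634157787265899298076885757800480751271400281465301835560682618588782989736514463626130871017315762640654267145589311413681256916640203838347806066036635862267845011581551876645242117750004796513209704685172436947246657916468518593190797317643390229861084116799901779130216087552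
  (Nat.shiftLeft (Nat.lor 59923104495410530257643506359634157787265899298076885757800480751271400289911000257676539225799231406972528364223590804132145327237097354007306494027589753175403469798240066790687450805394255190670952971623536450770389171818135165215168396233683576785705018710108628308029997442094694872362701117001922773077
  (Nat.shiftLeft (Nat.lor 59923104495410530257643506359634157787265899298076885757800480751271402452009796319335830671674026219392086917173333681528513863926527590606905243188164795418799555530658812301296076245755261037557633286066885703988789249879053060894133973561534807310249048641073361847001443773899048296439331612158834267477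
  (Nat.shiftLeft (Nat.lor 59923104495410530257643506359634157787265899298076885757800480751271955949301588104114440815621498198799076472307510294998859256420668160104185028295375609728197503029857663017104188978172757840547793783564294527899209233474034354709321769491449821593520710968045147823691704715813524860056738372328176833877
  (Nat.shiftLeft (Nat.lor 59923104495410530257643506359634157787265899298076885757800480751413651256000285007438637666174324926988402586656723343407279734920653951407810015741344072934072062824763446263981048477051939406028881142900953448966725033789245571397397527549693478111066266672822357856398505845919525146112868975679873832277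
  (Nat.shiftLeft (Nat.lor 59923104495410530257643506359634157787265899298076885757800480787687649770866692258433031407697967343455887860055263735962922230917016525135806801909270653637959370320643957464457080190122420169187245133085637242250769914483317043544791590460069546602728527095788126229339595153055598376482303433714305422677
  (Nat.shiftLeft (Nat.lor 59923104495410530257643506359634157787265899298076885757800490073831269576666948512997829237750425959132117850081604230207401205985835399502984060898475313833110089266054824786321198736165495537728426620364688322966259372165613913277671695516343080468267195375024829702258457779890345351057524690528792565077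
  (Nat.shiftLeft (59923104495410530257643506359634157787265899298076885757802867326597939861532549681586073731179831572246995296824770756794018823603467237500362362134868323791694139291236859183535546523192789884270887363801764986131560538833612564894978589922367750046166274859620918769487290249585570842314166435037501019477) 1024)) 1024)) 1024)) 1024)) 1024)) 1024)) 1024)

/-- Some meaningful cell of the first `n` rows has both bits set. -/
def cfl (K n : ℕ) : Bool :=
  !Nat.beq (cut (Nat.land (Nat.land K (Nat.shiftRight K 1)) GM) n) 0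

/-- The initial set of used vertices, with a marker bit. -/
def us0 (m : ℕ) : ℕ := Nat.lor (Nat.sub (Nat.shiftLeft 1 m) 1) 1099511627776

/-- Checks that the rows are already present; returns the set of used vertices or zero. -/
def chk (m n K D : ℕ) (rs : List ℕ) : ℕ → ℕ → ℕ :=
  List.rec (fun _ us => us) (fun r _ ih j us => fz (dg D j) fun d =>
    bif Nat.blt d n && (Nat.blt (Nat.add m j) 32 &&
        (!tb us d && Nat.beq (Nat.lor K (trR r m d D j)) K)) then
      fz (Nat.lor us (Nat.shiftLeft 1 d)) fun us' => ih (Nat.succ j) us' else 0) rs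

/-- Changes the lowest bits of a table, which carry no meaning. -/
def slt (K : ℕ) : ℕ := Nat.xor K (Nat.mod K 18446744073709551557)

/-- Continues with the table `K` unless it is contradictory. -/
def go (n K s : ℕ) (k : ℕ → ℕ) : ℕ := fz (slt K) fun K' => bif cfl K' n then s else k K'

/-- Places the rows of an alternative in all possible ways. -/
def plc (k : ℕ → ℕ → ℕ → ℕ) (m len : ℕ) (rs : List ℕ) : ℕ → ℕ → ℕ → ℕ → ℕ → ℕ → ℕ :=
  List.rec (fun _ _ _ n K s => k n K s) (fun r _ ih j us D n K s =>
    bif Nat.blt j len then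
      go n (Nat.lor K (fz (dg D j) fun d => trR r m d D j)) s fun K' =>
        ih (Nat.succ j) us D n K' s
    else
      sq (loop n (fun v s => bif tb us v then s else
        go n (Nat.lor K (trR r m v D j)) s fun K' =>
          fz (Nat.lor us (Nat.shiftLeft 1 v)) fun us' =>
          fz (Nat.lor D (Nat.shiftLeft v (Nat.mul 5 j))) fun D' =>
            ih (Nat.succ j) us' D' n K' s) s) fun s =>
      bif Nat.blt n 32 && Nat.blt (Nat.add m j) 32 then
        go (Nat.succ n) (Nat.lor (cut K n) (trR r m n D j)) s fun K' =>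
          fz (Nat.lor us (Nat.shiftLeft 1 n)) fun us' =>
          fz (Nat.lor D (Nat.shiftLeft n (Nat.mul 5 j))) fun D' =>
          fz (Nat.succ n) fun n' => ih (Nat.succ j) us' D' n' K' s
      else 0) rs

/-- The length of a list. -/
def len (l : List ℕ) : ℕ := List.rec 0 (fun _ _ ih => Nat.succ ih) l

/-- List access with a default value. -/
def nth {α : Type} (d : α) (l : List α) : ℕ → α :=
  List.rec (fun _ => d) (fun x _ ih i => Nat.casesOn i x ih) l

/-- Applies the fact `φ`. -/
def apF (k : ℕ → ℕ → ℕ → ℕ) (anc n K s : ℕ) (φ : Fact) : ℕ :=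
  Fact.casesOn φ fun m rows alts => fz m fun m => bif Nat.ble m anc then
    fz (len rows) fun l => fz (Nat.mul 5 l) fun l5 =>
    fz (Nat.mod s (Nat.shiftLeft 1 l5)) fun D =>
    sq (chk m n K D rows 0 (us0 m)) fun us =>
      List.rec (fun s => s) (fun alt _ ih s => sq s fun s => ih (plc k m l alt 0 us D n K s))
        alts (Nat.shiftRight s l5)
  else 0

/-- Modes of the tableau. -/
inductive Md : Type
  | non : Md
  | goal (m k : ℕ) (alts : List (List ℕ)) : Md
  | col (n0 LL S φ j T : ℕ) (rest : List ℕ) : Md
  | path (a b P n1 j : ℕ) : Md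

/-- The digits `m, m + 1, …, m + k - 1`. -/
def idD (m k : ℕ) : ℕ :=
  Nat.rec 0 (fun i acc => Nat.lor acc (Nat.shiftLeft (Nat.add m i) (Nat.mul 5 i))) k

/-- Closes a branch that realises one of the alternatives. -/
def goalSt (m k : ℕ) (alts : List (List ℕ)) (n K s : ℕ) : ℕ :=
  (fun alt => fz (len alt) fun l => fz (Nat.mul 5 (Nat.sub l k)) fun l5 =>
    bif Nat.blt (Nat.land s 63) alts.length && (Nat.ble (Nat.add m k) 32 &&
      !Nat.beq (fz (Nat.lor (idD m k) (Nat.shiftLeft
        (Nat.mod (Nat.shiftRight s 6) (Nat.shiftLeft 1 l5)) (Nat.mul 5 k))) fun D =>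
          chk m n K D alt 0 (us0 m)) 0) then Nat.shiftRight s (Nat.add 6 l5) else 0)
    (nth [] alts (Nat.land s 63))

/-- The entry of a symmetric table with two bits for each pair of types. -/
def phi (φ t u : ℕ) : ℕ :=
  Nat.land (Nat.shiftRight φ (bif Nat.blt u t then Nat.add (Nat.mul 128 t) (Nat.mul 2 u) else
    Nat.add (Nat.mul 128 u) (Nat.mul 2 t))) 3

/-- Base sixty-four digits. -/
def dg6 (T j : ℕ) : ℕ := Nat.land (Nat.shiftRight T (Nat.mul 6 j)) 63

/-- The graph obtained by keeping, complementing or deleting the edges between types. -/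
def flipG (G : SimpleGraph V) (ty : V → ℕ) (φ : ℕ) : SimpleGraph V :=
  SimpleGraph.fromRel fun x y =>
    (phi φ (ty x) (ty y) = 0 ∧ G.Adj x y) ∨ (phi φ (ty x) (ty y) = 1 ∧ ¬ G.Adj x y)

/-- The cell in the original graph; the value three marks an impossible choice. -/
def fcel (p c : ℕ) : ℕ :=
  bif Nat.beq p 0 then c else bif Nat.beq p 1 then swp c else Nat.mul 3 (Nat.land c 1)

/-- The row of the next vertex of a pattern, if it has type `t`. -/
def colRow (n0 LL φ j T r t : ℕ) : ℕ :=
  Nat.rec (Nat.land (row LL t) (mA n0)) (fun i acc => Nat.lor acc (Nat.shiftLeft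
    (fz (phi φ t (dg6 T i)) fun p => fz (cel r i) fun c => fcel p c)
      (Nat.mul 2 (Nat.add n0 i)))) j

/-- Places the next vertex of a pattern, for all types. -/
def colSt (k : Md → ℕ → ℕ → ℕ → ℕ) (n0 LL S φ j T : ℕ) (rest : List ℕ) (n K s : ℕ) : ℕ :=
  List.casesOn rest 0 fun r rs => bif Nat.beq n (Nat.add n0 j) && Nat.blt n 32 then
    fz (cut K n) fun K0 => fz (Nat.succ n) fun n' => fz (Nat.succ j) fun j' =>
    loop 64 (fun t s => bif tb S t then
      go n' (Nat.lor K0 (Nat.shiftLeft (colRow n0 LL φ j T r t) (Nat.mul 256 n))) s fun K' =>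
        fz (Nat.lor (Nat.mod T (Nat.shiftLeft 1 (Nat.mul 6 j))) (Nat.shiftLeft t (Nat.mul 6 j)))
          fun T' => k (Md.col n0 LL S φ j' T' rs) n' K' s
      else s) s
  else 0

/-- The table shows that the pair `x, y` does not violate the split given by `a, b`. -/
def nvio (K a b x y : ℕ) : Bool :=
  bif Nat.beq (getc K x y) 1 then Nat.beq (getc K x b) 1 && Nat.beq (getc K a y) 1 else
    Nat.beq (getc K x y) 2 && (Nat.beq (getc K x b) 2 || Nat.beq (getc K a y) 2)

/-- The row of the next vertex of a violating path; `β` is its cell towards `a`. -/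
def pathRow (a b P n1 n K β : ℕ) : ℕ :=
  Nat.rec (Nat.shiftLeft β (Nat.mul 2 a)) (fun x acc =>
    bif Nat.blt x n1 && !tb P x then acc else
      Nat.lor acc (Nat.shiftLeft (fz (bif Nat.beq β 1 then getc K x b else 2) fun c =>
        bif Nat.beq (Nat.succ x) n && Nat.ble n1 x then swp c else c) (Nat.mul 2 x))) n

/-- Continues a violating path. -/
def pathSt (k : Md → ℕ → ℕ → ℕ → ℕ) (a b P n1 j n K s : ℕ) : ℕ :=
  bif Nat.beq n (Nat.add n1 j) && (Nat.blt n 32 &&
      allLT n1 fun q => tb P q || nvio K a b (Nat.pred n) q) then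
    fz (cut K n) fun K0 => fz (Nat.succ n) fun n' => fz (Nat.succ j) fun j' =>
    sq (go n' (Nat.lor K0 (Nat.shiftLeft (pathRow a b P n1 n K 1) (Nat.mul 256 n))) s fun K' =>
      k (Md.path a b P n1 j') n' K' s) fun s =>
    go n' (Nat.lor K0 (Nat.shiftLeft (pathRow a b P n1 n K 2) (Nat.mul 256 n))) s fun K' =>
      k (Md.path a b P n1 j') n' K' s
  else 0

/-- Starts a violating path. -/
def kSt (k : Md → ℕ → ℕ → ℕ → ℕ) (n K s : ℕ) : ℕ :=
  fz (Nat.land s 31) fun a => fz (Nat.land (Nat.shiftRight s 5) 31) fun b =>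
  fz (Nat.land (Nat.shiftRight s 10) 31) fun a' =>
  fz (Nat.land (Nat.shiftRight s 15) 31) fun b' =>
  fz (Nat.mod (Nat.shiftRight s 20) (Nat.shiftLeft 1 n)) fun P =>
  bif Nat.blt n 32 && (Nat.blt b n && (Nat.blt b' n && (tb P a && (tb P a' && (!tb P b &&
      (!tb P b' && (!Nat.beq a a' && (!Nat.beq b b' &&
      allLT n fun p => !tb P p || allLT n fun q => tb P q || nvio K a b p q)))))))) then
    fz (cut K n) fun K0 => fz (Nat.succ n) fun n' =>
      k (Md.path a b P n 1) n' K0 (Nat.shiftRight s (Nat.add 20 n))
  else 0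

/-- One step of the tableau. -/
noncomputable def tabSt (Φ : List FT) (cap anc : ℕ) (sp : Bool) (k : Md → ℕ → ℕ → ℕ → ℕ)
    (md : Md) (n K s : ℕ) : ℕ :=
  fz (Nat.land s 7) fun op => fz (Nat.shiftRight s 16) fun s =>
  bif Nat.beq op 0 then
    fz (Nat.land s 127) fun ci => fz (Nat.land (Nat.shiftRight s 7) 4095) fun fi =>
      bif Nat.blt 0 ci || Nat.blt fi cap then
        fz (Nat.shiftRight s 19) fun s => apF (k md) anc n K s ((nth FT.nil Φ ci).get fi)
      else 0
  else bif Nat.beq op 1 then
    fz (Nat.land s 31) fun i => fz (Nat.land (Nat.shiftRight s 5) 127) fun b =>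
      bif Nat.blt i n && (Nat.blt b i || Nat.ble 32 b) then
        fz (Nat.add (Nat.mul 256 i) (Nat.mul 2 b)) fun p =>
        sq (fz (slt (Nat.lor K (Nat.shiftLeft 1 p))) fun K' => k md n K' (Nat.shiftRight s 12)) fun s =>
          fz (slt (Nat.lor K (Nat.shiftLeft 2 p))) fun K' => k md n K' s
      else 0
  else bif Nat.beq op 2 then
    Md.casesOn md 0 (fun m l alts => goalSt m l alts n K s)
      (fun n0 LL S φ j T rest => colSt k n0 LL S φ j T rest n K s)
      (fun a b P n1 j => pathSt k a b P n1 j n K s)
  else bif Nat.beq op 3 then bif sp then kSt k n K s else 0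
  else bif Nat.beq op 4 then bif cfl K n then s else 0
  else
    Md.casesOn md 0 (fun _ _ _ => 0) (fun _ _ _ _ _ _ _ => 0)
      (fun a b P n1 _ => bif allLT n1 fun p => !tb P p || nvio K a b p n1 then s else 0)

/-- The tableau checker: returns the rest of the stream, or zero. -/
noncomputable def tab (Φ : List FT) (cap anc : ℕ) (sp : Bool) (fuel : ℕ) :
    Md → ℕ → ℕ → ℕ → ℕ :=
  Nat.rec (fun _ _ _ _ => 0) (fun _ k => tabSt Φ cap anc sp k) fuel

/-- The vertices of `W` are typed according to the table `LL`. -/
def Typed (w : Wld V) (a : ℕ → V) (n0 LL S : ℕ) (W : Finset V) (ty : V → ℕ) : Prop :=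
  ∀ x ∈ W, x ∈ w.U ∧ (∀ i < n0, a i ≠ x) ∧ ty x < 64 ∧ S.testBit (ty x) = true ∧
    RowOK w a n0 x (row LL (ty x))

/-- The invariant of a mode. -/
def Inv (w : Wld V) (a : ℕ → V) (W : Finset V) (ty : V → ℕ) (anc : ℕ) (f : ℕ → V) (n : ℕ) :
    Md → Prop
  | .non => True
  | .goal m k alts => m + k ≤ n ∧ ¬ Ext w f m (m + k) alts
  | .col n0 LL S φ j T rest => n0 ≤ anc ∧ n0 + j ≤ n ∧ Typed w a n0 LL S W ty ∧
      ∃ h : ℕ → V, (∀ i < j, h i = f (n0 + i) ∧ ty (h i) = dg6 T i) ∧
        ∀ i < rest.length, h (j + i) ∈ W ∧ (∀ i' < j + i, h i' ≠ h (j + i)) ∧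
          RowOK ⟨flipG w.G ty φ, W, fun _ _ => False⟩ h (j + i) (h (j + i)) (rest.getD i 0)
  | .path α β P n1 j => 1 ≤ j ∧ n1 + j ≤ n ∧ α < n1 ∧ β < n1 ∧ n1 < 32 ∧
      P.testBit α = true ∧ P.testBit β = false ∧
      ∃ (k : ℕ) (x : ℕ → V), j ≤ k + 1 ∧ (∀ i < j, f (n1 + i) = x i) ∧
        (∀ i ≤ k, x i ∈ w.U ∧ (∀ p < n1, f p ≠ x i) ∧ ∀ i' < i, x i' ≠ x i) ∧
        (∃ p < n1, P.testBit p = true ∧ Vio w.G (f α) (f β) (f p) (x 0)) ∧
        (∀ i < k, ∀ p < n1, P.testBit p = true → ¬ Vio w.G (f α) (f β) (f p) (x (i + 1))) ∧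
        (∀ i < k, Vio w.G (f α) (f β) (x i) (x (i + 1)) ∧
          ∀ i' < i, ¬ Vio w.G (f α) (f β) (x i') (x (i + 1))) ∧
        ∃ q < n1, P.testBit q = false ∧ Vio w.G (f α) (f β) (x k) (f q)

/-- The continuation `k` is sound: success refutes every realisation. -/
def Snd (w : Wld V) (a : ℕ → V) (W : Finset V) (ty : V → ℕ) (anc : ℕ)
    (k : Md → ℕ → ℕ → ℕ → ℕ) : Prop :=
  ∀ md n K s, k md n K s ≠ 0 → ∀ f : ℕ → V, anc ≤ n → n ≤ 32 → (∀ i < anc, f i = a i) →
    Inj w f n → Tru w f n K → Inv w a W ty anc f n md → False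

end Pool.Agent.Lib.MP_1595d8_lc
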