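import Mathlib
import Pool.Agent.Lib.MP_1595d8_lc.H89Core

/-!
Bit-level lemmas for packed tables.
-/

namespace Pool.Agent.Lib.MP_1595d8_lc

open Finset Pool.Agent.Lib.MP_042ec1_co

variable {V : Type} {w : Wld V} {f g : ℕ → V} {n K A B i r m d D j u v c : ℕ} {x : V}

theorem fz_eq {α : Type} (x : ℕ) (k : ℕ → α) : fz x k = k x := by
  cases x <;> rfl

theorem sq_ne {s : ℕ} {k : ℕ → ℕ} (h : sq s k ≠ 0) : s ≠ 0 ∧ k s ≠ 0 := by
  cases s with
  | zero => exact absurd rfl h
  | succ s => exact ⟨Nat.succ_ne_zero s, h⟩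

theorem tb_eq (x i : ℕ) : tb x i = x.testBit i := by
  unfold tb
  rw [Nat.testBit_eq_decide_div_mod_eq, Nat.land_eq, Nat.shiftRight_eq, Nat.and_one_is_mod,
    Nat.shiftRight_eq_div_pow, Bool.eq_iff_iff, Nat.beq_eq, decide_eq_true_iff]

theorem allLT_iff {p : ℕ → Bool} : allLT n p = true ↔ ∀ i < n, p i = true := by
  induction n with
  | zero => exact ⟨fun _ i hi => absurd hi (Nat.not_lt_zero i), fun _ => rfl⟩
  | succ n ih =>
    have e : allLT (n + 1) p = (p n && allLT n p) := rfl
    rw [e, Bool.and_eq_true, ih, Nat.forall_lt_succ_right, and_comm]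

theorem loop_ne {p : ℕ → ℕ → ℕ} {s : ℕ} (h : loop n p s ≠ 0) : ∀ i < n, ∃ s, p i s ≠ 0 := by
  induction n with
  | zero => exact fun i hi => absurd hi (Nat.not_lt_zero i)
  | succ n ih =>
    have e : loop (n + 1) p s = sq (loop n p s) (p n) := rfl
    rw [e] at h
    obtain ⟨h1, h2⟩ := sq_ne h
    rw [Nat.forall_lt_succ_right]
    exact ⟨ih h1, _, h2⟩

theorem len_eq (l : List ℕ) : len l = l.length := by
  induction l with
  | nil => rfl
  | cons a l ih => exact congrArg Nat.succ ih

theorem nth_eq {α : Type} (d : α) (l : List α) (i : ℕ) : nth d l i = l.getD i d := by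
  induction l generalizing i with
  | nil => rfl
  | cons a l ih =>
    cases i with
    | zero => rfl
    | succ i => exact ih i

theorem dg_lt : dg D j < 32 := by
  exact Nat.lt_succ_of_le Nat.and_le_right

theorem dg6_lt : dg6 D j < 64 := by
  exact Nat.lt_succ_of_le Nat.and_le_right

theorem cel_lt : cel r i < 4 := by
  exact Nat.lt_succ_of_le Nat.and_le_right

theorem testBit_row {b : ℕ} (hb : b < 256) : (row K i).testBit b = K.testBit (256 * i + b) := by
  have e : row K i = (K >>> (256 * i)) &&& (2 ^ 256 - 1) := rfl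
  rw [e, Nat.testBit_and, Nat.testBit_shiftRight, Nat.testBit_two_pow_sub_one]
  simp [hb]

theorem bits_cell (K p : ℕ) : (Nat.land (Nat.shiftRight K p) 3).testBit 0 = K.testBit p ∧
    (Nat.land (Nat.shiftRight K p) 3).testBit 1 = K.testBit (p + 1) := by
  have e : Nat.land (Nat.shiftRight K p) 3 = (K >>> p) &&& (2 ^ 2 - 1) := rfl
  rw [e, Nat.testBit_and, Nat.testBit_and, Nat.testBit_shiftRight, Nat.testBit_shiftRight,
    Nat.testBit_two_pow_sub_one, Nat.testBit_two_pow_sub_one]
  exact ⟨Bool.and_true _, Bool.and_true _⟩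

theorem bits_lor (A B t : ℕ) : (Nat.lor A B).testBit t = true ↔
    A.testBit t = true ∨ B.testBit t = true := by
  rw [Nat.lor_eq, Nat.testBit_or, Bool.or_eq_true]

theorem bits_land (A B t : ℕ) : (Nat.land A B).testBit t = true ↔
    A.testBit t = true ∧ B.testBit t = true := by
  rw [Nat.land_eq, Nat.testBit_and, Bool.and_eq_true]

theorem bits_shl (A p t : ℕ) : (Nat.shiftLeft A p).testBit t = true ↔
    p ≤ t ∧ A.testBit (t - p) = true := by
  have e : Nat.shiftLeft A p = A <<< p := rfl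
  rw [e, Nat.testBit_shiftLeft, Bool.and_eq_true, decide_eq_true_iff]

theorem bits_cut (K n t : ℕ) : (cut K n).testBit t = true ↔
    t < 256 * n ∧ K.testBit t = true := by
  have e : cut K n = K % (1 <<< (256 * n)) := rfl
  rw [e, Nat.one_shiftLeft, Nat.testBit_mod_two_pow, Bool.and_eq_true, decide_eq_true_iff]

theorem bits_mA (m t : ℕ) : (mA m).testBit t = true ↔ t < 2 * m ∨ (64 ≤ t ∧ t < 256) := by
  have e : mA m = Nat.lor (1 <<< (2 * m) - 1) (Nat.shiftLeft (2 ^ 192 - 1) 64) := rfl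
  rw [e, bits_lor, bits_shl, Nat.one_shiftLeft, Nat.testBit_two_pow_sub_one,
    Nat.testBit_two_pow_sub_one, decide_eq_true_iff, decide_eq_true_iff]
  omega

theorem bits_small (hc : c < 4) {t : ℕ} (h : c.testBit t = true) : t < 2 := by
  by_contra ht
  have : c < 2 ^ t := lt_of_lt_of_le hc (Nat.pow_le_pow_right (by norm_num) (not_lt.1 ht) :
    2 ^ 2 ≤ 2 ^ t)
  rw [Nat.testBit_lt_two_pow this] at h
  exact absurd h (by simp)

theorem bits_lit {b : ℕ} (e : b < 32 → g b = f b) : lit w g x b ↔ lit w f x b := by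
  unfold lit
  split_ifs with hb
  · rw [e hb]
  · rfl

theorem bits_tru : Tru w f n K ↔ ∀ i < n, ∀ b < 128, b < i ∨ 32 ≤ b →
    (K.testBit (256 * i + 2 * b) = true → lit w f (f i) b) ∧
      (K.testBit (256 * i + 2 * b + 1) = true → ¬ lit w f (f i) b) := by
  refine forall₂_congr fun i _ => forall₂_congr fun b hb => ?_
  rw [testBit_row (by omega), testBit_row (by omega), add_assoc]

theorem testBit_cel : ((cel r i).testBit 0 = r.testBit (2 * i)) ∧
    (cel r i).testBit 1 = r.testBit (2 * i + 1) := by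
  exact bits_cell r (2 * i)

theorem rowOK_zero : RowOK w f i x 0 := by
  intro b _ _
  simp

theorem rowOK_lor : RowOK w f i x (Nat.lor A B) ↔ RowOK w f i x A ∧ RowOK w f i x B := by
  simp only [RowOK, bits_lor]
  constructor
  · exact fun h => ⟨fun b h1 h2 => ⟨fun t => (h b h1 h2).1 (Or.inl t),
      fun t => (h b h1 h2).2 (Or.inl t)⟩, fun b h1 h2 => ⟨fun t => (h b h1 h2).1 (Or.inr t),
      fun t => (h b h1 h2).2 (Or.inr t)⟩⟩
  · exact fun h b h1 h2 => ⟨fun t => t.elim (h.1 b h1 h2).1 (h.2 b h1 h2).1,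
      fun t => t.elim (h.1 b h1 h2).2 (h.2 b h1 h2).2⟩

/-- A row only depends on the earlier vertices. -/
theorem RowOK.congr (h : RowOK w f i x r) (e : ∀ j < i, g j = f j) : RowOK w g i x r := by
  intro b h1 h2
  rw [bits_lit (f := f) fun hb => e b (by omega)]
  exact h b h1 h2

/-- A label may be read at any position. -/
theorem RowOK.lab (h : RowOK w f m x r) (e : ∀ j < m, g j = f j) (i : ℕ) :
    RowOK w g i x (Nat.land r (mA m)) := by
  intro b h1 _
  rw [bits_land, bits_land, bits_mA, bits_mA]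
  constructor
  · rintro ⟨t1, t2⟩
    exact ((h.congr e) b h1 (by omega)).1 t1
  · rintro ⟨t1, t2⟩
    exact ((h.congr e) b h1 (by omega)).2 t1

theorem RowOK.of_lab (h : RowOK w f m x (Nat.land r (mA m))) : RowOK w f m x r := by
  intro b h1 h2
  have h3 := h b h1 h2
  rw [bits_land, bits_land, bits_mA, bits_mA] at h3
  exact ⟨fun t => h3.1 ⟨t, by omega⟩, fun t => h3.2 ⟨t, by omega⟩⟩

/-- A single cell, placed at the number `c` of an earlier vertex or of a flag. -/
theorem rowOK_cell {b : ℕ} (hc : c < 4) (h : CellOK c (lit w f x b)) :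
    RowOK w f i x (Nat.shiftLeft c (Nat.mul 2 b)) := by
  intro b' _ _
  rw [bits_shl, bits_shl, Nat.mul_eq]
  constructor
  · rintro ⟨t1, t2⟩
    have := bits_small hc t2
    obtain rfl : b' = b := by omega
    rw [Nat.sub_self] at t2
    exact h.1 t2
  · rintro ⟨t1, t2⟩
    have := bits_small hc t2
    obtain rfl : b' = b := by omega
    rw [Nat.add_sub_cancel_left] at t2
    exact h.2 t2

theorem RowOK.cell {b : ℕ} (h : RowOK w f i x r) (hb : b < 128) (hi : b < i ∨ 32 ≤ b) :
    CellOK (cel r b) (lit w f x b) := by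
  unfold CellOK
  rw [testBit_cel.1, testBit_cel.2]
  exact h b hb hi

theorem cellOK_swp {p : Prop} (hc : c < 4) (h : CellOK c p) : CellOK (swp c) ¬ p := by
  have e : (swp c).testBit 0 = c.testBit 1 ∧ (swp c).testBit 1 = c.testBit 0 := by
    interval_cases c <;> decide
  unfold CellOK
  rw [e.1, e.2]
  exact ⟨h.2, fun t => not_not.2 (h.1 t)⟩

theorem tru_lor : Tru w f n (Nat.lor A B) ↔ Tru w f n A ∧ Tru w f n B := by
  simp only [bits_tru, bits_lor]
  constructor
  · exact fun h => ⟨fun i hi b h1 h2 => ⟨fun t => (h i hi b h1 h2).1 (Or.inl t),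
      fun t => (h i hi b h1 h2).2 (Or.inl t)⟩, fun i hi b h1 h2 =>
      ⟨fun t => (h i hi b h1 h2).1 (Or.inr t), fun t => (h i hi b h1 h2).2 (Or.inr t)⟩⟩
  · exact fun h i hi b h1 h2 => ⟨fun t => t.elim (h.1 i hi b h1 h2).1 (h.2 i hi b h1 h2).1,
      fun t => t.elim (h.1 i hi b h1 h2).2 (h.2 i hi b h1 h2).2⟩

theorem Tru.congr (h : Tru w f n K) (e : ∀ i < n, g i = f i) : Tru w g n K := by
  intro i hi
  rw [e i hi]
  exact (h i hi).congr fun j hj => e j (hj.trans hi)

theorem Tru.mono (h : Tru w f n K) (hm : m ≤ n) : Tru w f m K := by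
  exact fun i hi => h i (lt_of_lt_of_le hi hm)

theorem Tru.cut (h : Tru w f n K) (m : ℕ) : Tru w f m (cut K n) := by
  rw [bits_tru] at h ⊢
  intro i _ b h1 h2
  rw [bits_cut, bits_cut]
  exact ⟨fun t => (h i (by omega) b h1 h2).1 t.2, fun t => (h i (by omega) b h1 h2).2 t.2⟩

theorem Tru.slt (h : Tru w f n K) : Tru w f n (slt K) := by
  have e : ∀ t, 64 ≤ t → (Pool.Agent.Lib.MP_1595d8_lc.slt K).testBit t = K.testBit t := by
    intro t ht
    have e1 : Pool.Agent.Lib.MP_1595d8_lc.slt K = K ^^^ (K % 18446744073709551557) := rfl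
    have e2 : K % 18446744073709551557 < 2 ^ t :=
      lt_of_lt_of_le (lt_trans (Nat.mod_lt _ (by norm_num)) (by norm_num))
        (Nat.pow_le_pow_right (by norm_num) ht : 2 ^ 64 ≤ 2 ^ t)
    rw [e1, Nat.testBit_xor, Nat.testBit_lt_two_pow e2, Bool.xor_false]
  rw [bits_tru] at h ⊢
  intro i hi b h1 h2
  rw [e _ (by omega), e _ (by omega)]
  exact h i hi b h1 h2

theorem Tru.push (h : Tru w f n K) (hr : RowOK w f n (f n) r) :
    Tru w f (n + 1) (Nat.lor (Pool.Agent.Lib.MP_1595d8_lc.cut K n)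
      (Nat.shiftLeft r (Nat.mul 256 n))) := by
  refine tru_lor.2 ⟨h.cut _, bits_tru.2 fun i hi b h1 h2 => ?_⟩
  rw [bits_shl, bits_shl, Nat.mul_eq]
  constructor
  · rintro ⟨t1, t2⟩
    obtain rfl : i = n := by omega
    rw [Nat.add_sub_cancel_left] at t2
    exact (hr b h1 h2).1 t2
  · rintro ⟨t1, t2⟩
    obtain rfl : i = n := by omega
    rw [add_assoc, Nat.add_sub_cancel_left] at t2
    exact (hr b h1 h2).2 t2

/-- Branching on a literal. -/
theorem tru_bit {b : ℕ} (hc : c < 4) (hb : b < 128) (h : CellOK c (lit w f (f i) b)) :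
    Tru w f n (Nat.shiftLeft c (Nat.add (Nat.mul 256 i) (Nat.mul 2 b))) := by
  refine bits_tru.2 fun i' _ b' h1 _ => ?_
  rw [bits_shl, bits_shl, Nat.add_eq, Nat.mul_eq, Nat.mul_eq]
  constructor
  · rintro ⟨t1, t2⟩
    have := bits_small hc t2
    obtain rfl : i' = i := by omega
    obtain rfl : b' = b := by omega
    rw [Nat.sub_self] at t2
    exact h.1 t2
  · rintro ⟨t1, t2⟩
    have := bits_small hc t2
    obtain rfl : i' = i := by omega
    obtain rfl : b' = b := by omega
    rw [Nat.add_sub_cancel_left] at t2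
    exact h.2 t2

theorem bits_adj {b : ℕ} (hb : b < 32) : lit w f x b ↔ w.G.Adj x (f b) := by
  unfold lit
  rw [if_pos hb]

theorem bits_pos_lt (h : u < v) : pos u v = 256 * v + 2 * u := by
  have e : Nat.blt v u = false := by
    rw [← Bool.not_eq_true, Nat.blt_eq]
    omega
  unfold pos
  rw [e]
  rfl

theorem bits_pos_gt (h : v < u) : pos u v = 256 * u + 2 * v := by
  have e : Nat.blt v u = true := by
    rw [Nat.blt_eq]
    exact h
  unfold pos
  rw [e]
  rfl

theorem Tru.getc (h : Tru w f n K) (hu : u < n) (hv : v < n) (hn : n ≤ 32) (huv : u ≠ v) :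
    CellOK (getc K u v) (w.G.Adj (f u) (f v)) := by
  rw [bits_tru] at h
  unfold CellOK Pool.Agent.Lib.MP_1595d8_lc.getc
  rw [(bits_cell _ _).1, (bits_cell _ _).2]
  rcases lt_or_gt_of_ne huv with h1 | h1
  · have h2 := h v hv u (by omega) (Or.inl h1)
    rw [bits_adj (by omega), SimpleGraph.adj_comm] at h2
    rw [bits_pos_lt h1]
    exact h2
  · have h2 := h u hu v (by omega) (Or.inl h1)
    rw [bits_adj (by omega)] at h2
    rw [bits_pos_gt h1]
    exact h2

theorem bits_GM_lt : Nat.beq (Nat.shiftRight GM 8192) 0 = true := by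
  decide +kernel

theorem bits_GM_all : allLT 8192 (fun t => !tb GM t || (Nat.beq (t % 2) 0 &&
    (Nat.blt (t % 256 / 2) (t / 256) || Nat.ble 32 (t % 256 / 2)))) = true := by
  decide +kernel

theorem bits_GM {t : ℕ} (h : GM.testBit t = true) :
    t % 2 = 0 ∧ (t % 256 / 2 < t / 256 ∨ 32 ≤ t % 256 / 2) := by
  by_cases ht : t < 8192
  · have h1 := allLT_iff.1 bits_GM_all t ht
    rw [tb_eq, h] at h1
    simpa only [Bool.not_true, Bool.false_or, Bool.and_eq_true, Bool.or_eq_true, Nat.beq_eq,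
      Nat.blt_eq, Nat.ble_eq] using h1
  · have h1 := bits_GM_lt
    rw [Nat.beq_eq, Nat.shiftRight_eq] at h1
    have h2 := Nat.testBit_shiftRight (i := 8192) (j := t - 8192) GM
    rw [h1, Nat.zero_testBit, Nat.add_sub_cancel' (not_lt.1 ht), h] at h2
    exact absurd h2 (by simp)

theorem Tru.not_cfl (h : Tru w f n K) : cfl K n = false := by
  rw [bits_tru] at h
  have e : Pool.Agent.Lib.MP_1595d8_lc.cut (Nat.land (Nat.land K (Nat.shiftRight K 1)) GM) n
      = 0 := by
    refine Nat.zero_of_testBit_eq_false fun t => ?_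
    rw [← Bool.not_eq_true, bits_cut, bits_land, bits_land, Nat.shiftRight_eq,
      Nat.testBit_shiftRight]
    rintro ⟨t1, ⟨t2, t3⟩, t4⟩
    obtain ⟨g1, g2⟩ := bits_GM t4
    have h2 := h (t / 256) (by omega) (t % 256 / 2) (by omega) g2
    have e1 : 256 * (t / 256) + 2 * (t % 256 / 2) = t := by omega
    rw [e1] at h2
    rw [add_comm] at t3
    exact h2.2 t3 (h2.1 t2)
  unfold cfl
  rw [e]
  rfl

theorem bits_shift (hd : d < n) (hA : ∀ t, A.testBit t = true → t < 256) :
    Tru w f n (Nat.shiftLeft A (256 * d)) ↔ RowOK w f d (f d) A := by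
  rw [bits_tru]
  constructor
  · intro h b h1 h2
    have h3 := h d hd b h1 h2
    rw [bits_shl, bits_shl, add_assoc, Nat.add_sub_cancel_left, Nat.add_sub_cancel_left] at h3
    exact ⟨fun t => h3.1 ⟨by omega, t⟩, fun t => h3.2 ⟨by omega, t⟩⟩
  · intro h i _ b h1 h2
    rw [bits_shl, bits_shl]
    constructor
    · rintro ⟨t1, t2⟩
      have := hA _ t2
      obtain rfl : i = d := by omega
      rw [Nat.add_sub_cancel_left] at t2
      exact (h b h1 h2).1 t2
    · rintro ⟨t1, t2⟩
      have := hA _ t2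
      obtain rfl : i = d := by omega
      rw [add_assoc, Nat.add_sub_cancel_left] at t2
      exact (h b h1 h2).2 t2

theorem bits_pair (hc : c < 4) (hu : u < n) (hv : v < n) (hn : n ≤ 32) (huv : u ≠ v) :
    Tru w f n (Nat.shiftLeft c (pos u v)) ↔ CellOK c (w.G.Adj (f u) (f v)) := by
  constructor
  · intro h
    have h1 := h.getc hu hv hn huv
    unfold CellOK getc at h1
    rw [(bits_cell _ _).1, (bits_cell _ _).2, bits_shl, bits_shl, Nat.sub_self,
      Nat.add_sub_cancel_left] at h1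
    exact ⟨fun t => h1.1 ⟨le_rfl, t⟩, fun t => h1.2 ⟨Nat.le_succ _, t⟩⟩
  · intro h
    rcases lt_or_gt_of_ne huv with h1 | h1
    · rw [bits_pos_lt h1]
      refine tru_bit (i := v) (b := u) hc (by omega) ?_
      rw [bits_adj (by omega), SimpleGraph.adj_comm]
      exact h
    · rw [bits_pos_gt h1]
      refine tru_bit (i := u) (b := v) hc (by omega) ?_
      rw [bits_adj (by omega)]
      exact h

theorem bits_succ (hi : i < 32) :
    RowOK w f (i + 1) x r ↔ RowOK w f i x r ∧ CellOK (cel r i) (lit w f x i) := by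
  constructor
  · exact fun h => ⟨fun b h1 h2 => h b h1 (by omega), h.cell (by omega) (by omega)⟩
  · rintro ⟨h, h'⟩ b h1 h2
    by_cases hb : b = i
    · subst hb
      unfold CellOK at h'
      rw [testBit_cel.1, testBit_cel.2] at h'
      exact h'
    · exact h b h1 (by omega)

/-- Translation of a row: `g` is `f` read through the digits of `D`. -/
theorem tru_trR (hd : d < n) (hn : n ≤ 32) (hm : m ≤ d) (hj : m + j ≤ 32)
    (e₁ : ∀ b < m, g b = f b)
    (e₂ : ∀ i < j, dg D i < n ∧ dg D i ≠ d ∧ g (m + i) = f (dg D i)) :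
    Tru w f n (trR r m d D j) ↔ RowOK w g (m + j) (f d) r := by
  induction j with
  | zero =>
    have e : trR r m d D 0 = Nat.shiftLeft (Nat.land r (mA m)) (256 * d) := rfl
    rw [e, bits_shift hd fun t ht => by
      have := (bits_mA m t).1 ((bits_land _ _ _).1 ht).2
      omega]
    constructor
    · intro h
      exact (RowOK.of_lab fun b h1 h2 => h b h1 (by omega)).congr e₁
    · intro h
      exact RowOK.lab (m := m) h (fun j hj => (e₁ j hj).symm) d
  | succ j ih =>
    have e : trR r m d D (j + 1) = fz (dg D j) fun e =>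
      Nat.lor (trR r m d D j) (Nat.shiftLeft (cel r (m + j)) (pos d e)) := rfl
    obtain ⟨a1, a2, a3⟩ := e₂ j (Nat.lt_succ_self j)
    rw [e, fz_eq, tru_lor, ih (by omega) fun i hi => e₂ i (by omega),
      bits_pair cel_lt hd a1 hn a2.symm, ← add_assoc, bits_succ (by omega),
      bits_adj (by omega), a3]

end Pool.Agent.Lib.MP_1595d8_lc
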