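import Pool.Agent.Lib.MP_1595d8_lc.H89CC0
import Pool.Agent.Lib.MP_1595d8_lc.H89CC1
import Pool.Agent.Lib.MP_1595d8_lc.H89CC2
import Pool.Agent.Lib.MP_1595d8_lc.H89CC3
import Pool.Agent.Lib.MP_1595d8_lc.H89CC4
import Pool.Agent.Lib.MP_1595d8_lc.H89CC5
import Pool.Agent.Lib.MP_1595d8_lc.H89CC6

set_option maxRecDepth 100000
set_option linter.unusedVariables false

namespace Pool.Agent.Lib.MP_1595d8_lc

noncomputable section

theorem cr1_0 : Upto (RTat cs4_0 cl2 1125899906842623 cb4) 43 :=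
  rt_step (lo := 0) (c := 43) (Upto.zero _) cc4

theorem cr1_1 : Upto (RTat cs4_0 cl2 1125899906842623 cb4) 64 :=
  rt_step (lo := 43) (c := 21) cr1_0 cc5

theorem ca1_0 : Upto (ALat cs4_0 cl2 1125899906842623 cb5) 45 :=
  al_step (lo := 0) (c := 45) cr1_1 (Upto.zero _) cc6 (by decide)

theorem ca1_1 : Upto (ALat cs4_0 cl2 1125899906842623 cb5) 49 :=
  al_step (lo := 45) (c := 4) cr1_1 ca1_0 cc7 (by decide)

theorem ca1_2 : Upto (ALat cs4_0 cl2 1125899906842623 cb5) 64 :=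
  al_step (lo := 49) (c := 15) cr1_1 ca1_1 cc8 (by decide)

theorem crr7 : Upto (RTat cs4_0 cl2 1125761897324031 cb4) 64 := (rt_mono cr1_1 (by decide +kernel))

theorem caa7 : Upto (ALat cs4_0 cl2 1125761897324031 cb5) 64 := (al_mono ca1_2 (by decide +kernel))

theorem ct7_0 : TRR cs4_0 cl2 1125761897324031 cm3 cb6 0 1 9 :=
  tr_part (ly := 0) (cy := 9) crr7 caa7 (TRR.zero _ _ _ _ _ _ _) cc9

theorem ct7_1 : TRR cs4_0 cl2 1125761897324031 cm3 cb6 0 1 21 :=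
  tr_part (ly := 9) (cy := 12) crr7 caa7 ct7_0 cc10

theorem ct7_2 : TRR cs4_0 cl2 1125761897324031 cm3 cb6 0 1 64 :=
  tr_part (ly := 21) (cy := 43) crr7 caa7 ct7_1 cc11

theorem ct7_3 : Upto (TRat cs4_0 cl2 1125761897324031 cm3 cb6) 1 :=
  tr_fin (lo := 0) (c := 1) (Upto.zero _) ct7_2

theorem ct7_4 : TRR cs4_0 cl2 1125761897324031 cm3 cb6 1 1 17 :=
  tr_part (ly := 0) (cy := 17) crr7 caa7 (TRR.zero _ _ _ _ _ _ _) cc12

theorem ct7_5 : TRR cs4_0 cl2 1125761897324031 cm3 cb6 1 1 45 :=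
  tr_part (ly := 17) (cy := 28) crr7 caa7 ct7_4 cc13

theorem ct7_6 : TRR cs4_0 cl2 1125761897324031 cm3 cb6 1 1 64 :=
  tr_part (ly := 45) (cy := 19) crr7 caa7 ct7_5 cc14

theorem ct7_7 : Upto (TRat cs4_0 cl2 1125761897324031 cm3 cb6) 2 :=
  tr_fin (lo := 1) (c := 1) ct7_3 ct7_6

theorem ct7_8 : TRR cs4_0 cl2 1125761897324031 cm3 cb6 2 1 13 :=
  tr_part (ly := 0) (cy := 13) crr7 caa7 (TRR.zero _ _ _ _ _ _ _) cc15

theorem ct7_9 : TRR cs4_0 cl2 1125761897324031 cm3 cb6 2 1 41 :=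
  tr_part (ly := 13) (cy := 28) crr7 caa7 ct7_8 cc16

theorem ct7_10 : TRR cs4_0 cl2 1125761897324031 cm3 cb6 2 1 64 :=
  tr_part (ly := 41) (cy := 23) crr7 caa7 ct7_9 cc17

theorem ct7_11 : Upto (TRat cs4_0 cl2 1125761897324031 cm3 cb6) 3 :=
  tr_fin (lo := 2) (c := 1) ct7_7 ct7_10

theorem ct7_12 : TRR cs4_0 cl2 1125761897324031 cm3 cb6 3 1 9 :=
  tr_part (ly := 0) (cy := 9) crr7 caa7 (TRR.zero _ _ _ _ _ _ _) cc18

theorem ct7_13 : TRR cs4_0 cl2 1125761897324031 cm3 cb6 3 1 33 :=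
  tr_part (ly := 9) (cy := 24) crr7 caa7 ct7_12 cc19

theorem ct7_14 : TRR cs4_0 cl2 1125761897324031 cm3 cb6 3 1 64 :=
  tr_part (ly := 33) (cy := 31) crr7 caa7 ct7_13 cc20

theorem ct7_15 : Upto (TRat cs4_0 cl2 1125761897324031 cm3 cb6) 4 :=
  tr_fin (lo := 3) (c := 1) ct7_11 ct7_14

theorem ct7_16 : TRR cs4_0 cl2 1125761897324031 cm3 cb6 4 1 64 :=
  tr_part (ly := 0) (cy := 64) crr7 caa7 (TRR.zero _ _ _ _ _ _ _) cc21

theorem ct7_17 : Upto (TRat cs4_0 cl2 1125761897324031 cm3 cb6) 5 :=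
  tr_fin (lo := 4) (c := 1) ct7_15 ct7_16

theorem ct7_18 : TRR cs4_0 cl2 1125761897324031 cm3 cb6 5 1 7 :=
  tr_part (ly := 0) (cy := 7) crr7 caa7 (TRR.zero _ _ _ _ _ _ _) cc22

theorem ct7_19 : TRR cs4_0 cl2 1125761897324031 cm3 cb6 5 1 20 :=
  tr_part (ly := 7) (cy := 13) crr7 caa7 ct7_18 cc23

theorem ct7_20 : TRR cs4_0 cl2 1125761897324031 cm3 cb6 5 1 31 :=
  tr_part (ly := 20) (cy := 11) crr7 caa7 ct7_19 cc24

theorem ct7_21 : TRR cs4_0 cl2 1125761897324031 cm3 cb6 5 1 35 :=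
  tr_part (ly := 31) (cy := 4) crr7 caa7 ct7_20 cc25

theorem ct7_22 : TRR cs4_0 cl2 1125761897324031 cm3 cb6 5 1 41 :=
  tr_part (ly := 35) (cy := 6) crr7 caa7 ct7_21 cc26

theorem ct7_23 : TRR cs4_0 cl2 1125761897324031 cm3 cb6 5 1 45 :=
  tr_part (ly := 41) (cy := 4) crr7 caa7 ct7_22 cc27

theorem ct7_24 : TRR cs4_0 cl2 1125761897324031 cm3 cb6 5 1 64 :=
  tr_part (ly := 45) (cy := 19) crr7 caa7 ct7_23 cc28

theorem ct7_25 : Upto (TRat cs4_0 cl2 1125761897324031 cm3 cb6) 6 :=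
  tr_fin (lo := 5) (c := 1) ct7_17 ct7_24

theorem ct7_26 : TRR cs4_0 cl2 1125761897324031 cm3 cb6 6 8 64 :=
  tr_part (ly := 0) (cy := 64) crr7 caa7 (TRR.zero _ _ _ _ _ _ _) cc29

theorem ct7_27 : Upto (TRat cs4_0 cl2 1125761897324031 cm3 cb6) 14 :=
  tr_fin (lo := 6) (c := 8) ct7_25 ct7_26

theorem ct7_28 : TRR cs4_0 cl2 1125761897324031 cm3 cb6 14 6 64 :=
  tr_part (ly := 0) (cy := 64) crr7 caa7 (TRR.zero _ _ _ _ _ _ _) cc30

theorem ct7_29 : Upto (TRat cs4_0 cl2 1125761897324031 cm3 cb6) 20 :=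
  tr_fin (lo := 14) (c := 6) ct7_27 ct7_28

theorem ct7_30 : TRR cs4_0 cl2 1125761897324031 cm3 cb6 20 10 64 :=
  tr_part (ly := 0) (cy := 64) crr7 caa7 (TRR.zero _ _ _ _ _ _ _) cc31

theorem ct7_31 : Upto (TRat cs4_0 cl2 1125761897324031 cm3 cb6) 30 :=
  tr_fin (lo := 20) (c := 10) ct7_29 ct7_30

theorem ct7_32 : TRR cs4_0 cl2 1125761897324031 cm3 cb6 30 4 64 :=
  tr_part (ly := 0) (cy := 64) crr7 caa7 (TRR.zero _ _ _ _ _ _ _) cc32

theorem ct7_33 : Upto (TRat cs4_0 cl2 1125761897324031 cm3 cb6) 34 :=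
  tr_fin (lo := 30) (c := 4) ct7_31 ct7_32

theorem ct7_34 : TRR cs4_0 cl2 1125761897324031 cm3 cb6 34 6 64 :=
  tr_part (ly := 0) (cy := 64) crr7 caa7 (TRR.zero _ _ _ _ _ _ _) cc33

theorem ct7_35 : Upto (TRat cs4_0 cl2 1125761897324031 cm3 cb6) 40 :=
  tr_fin (lo := 34) (c := 6) ct7_33 ct7_34

theorem ct7_36 : TRR cs4_0 cl2 1125761897324031 cm3 cb6 40 4 64 :=
  tr_part (ly := 0) (cy := 64) crr7 caa7 (TRR.zero _ _ _ _ _ _ _) cc34

theorem ct7_37 : Upto (TRat cs4_0 cl2 1125761897324031 cm3 cb6) 44 :=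
  tr_fin (lo := 40) (c := 4) ct7_35 ct7_36

theorem ct7_38 : TRR cs4_0 cl2 1125761897324031 cm3 cb6 44 5 64 :=
  tr_part (ly := 0) (cy := 64) crr7 caa7 (TRR.zero _ _ _ _ _ _ _) cc35

theorem ct7_39 : Upto (TRat cs4_0 cl2 1125761897324031 cm3 cb6) 49 :=
  tr_fin (lo := 44) (c := 5) ct7_37 ct7_38

theorem ct7_40 : TRR cs4_0 cl2 1125761897324031 cm3 cb6 49 1 2 :=
  tr_part (ly := 0) (cy := 2) crr7 caa7 (TRR.zero _ _ _ _ _ _ _) cc36

theorem ct7_41 : TRR cs4_0 cl2 1125761897324031 cm3 cb6 49 1 4 :=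
  tr_part (ly := 2) (cy := 2) crr7 caa7 ct7_40 cc37

theorem ct7_42 : TRR cs4_0 cl2 1125761897324031 cm3 cb6 49 1 6 :=
  tr_part (ly := 4) (cy := 2) crr7 caa7 ct7_41 cc38

theorem ct7_43 : TRR cs4_0 cl2 1125761897324031 cm3 cb6 49 1 21 :=
  tr_part (ly := 6) (cy := 15) crr7 caa7 ct7_42 cc39

theorem ct7_44 : TRR cs4_0 cl2 1125761897324031 cm3 cb6 49 1 64 :=
  tr_part (ly := 21) (cy := 43) crr7 caa7 ct7_43 cc40

theorem ct7_45 : Upto (TRat cs4_0 cl2 1125761897324031 cm3 cb6) 50 :=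
  tr_fin (lo := 49) (c := 1) ct7_39 ct7_44

theorem ct7_46 : TRR cs4_0 cl2 1125761897324031 cm3 cb6 50 14 64 :=
  tr_part (ly := 0) (cy := 64) crr7 caa7 (TRR.zero _ _ _ _ _ _ _) cc41

theorem ct7_47 : Upto (TRat cs4_0 cl2 1125761897324031 cm3 cb6) 64 :=
  tr_fin (lo := 50) (c := 14) ct7_45 ct7_46

theorem cg8 (H : Bd [pK4, pW4, pGem, pP23]) : Good cs4_0 cl2 3 0x10000000000000002 :=
  good_clo bd3 cc42

theorem cg9 (H : Bd [pK4, pW4, pGem, pP23]) : Good cs4_0 cl2 5 cm7 :=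
  good_clo bd3 cc43

theorem cg10 (H : Bd [pK4, pW4, pGem, pP23]) : Good cs4_0 cl2 9 cm8 :=
  good_clo bd3 cc44

theorem cg11 (H : Bd [pK4, pW4, pGem, pP23]) : Good cs4_0 cl2 33 cm9 :=
  good_clo bd3 cc45

theorem cg13 (H : Bd [pK4, pW4, pGem, pP23]) : Good cs4_0 (pk 256 [0x40]) 1 0x1 :=
  good_clo bd_P4 cc46

theorem cg12 (H : Bd [pK4, pW4, pGem, pP23]) : Good cs4_0 cl2 562949953421313 cm10 :=
  good_cov cc47 (cg13 H)

theorem cg14 (H : Bd [pK4, pW4, pGem, pP23]) : Good cs4_0 cl2 6 cm11 :=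
  good_clo bd3 cc48

theorem cg15 (H : Bd [pK4, pW4, pGem, pP23]) : Good cs4_0 cl2 10 cm12 :=
  good_clo bd3 cc49

theorem cg16 (H : Bd [pK4, pW4, pGem, pP23]) : Good cs4_0 cl2 34 cm13 :=
  good_clo bd3 cc50

theorem cg18 (H : Bd [pK4, pW4, pGem, pP23]) : Good cs4_0 (pk 256 [0x1]) 1 0x1 :=
  good_clo bd_P4 cc51

theorem cg17 (H : Bd [pK4, pW4, pGem, pP23]) : Good cs4_0 cl2 562949953421314 cm14 :=
  good_cov cc52 (cg18 H)

theorem cg19 (H : Bd [pK4, pW4, pGem, pP23]) : Good cs4_0 cl2 12 cm15 :=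
  good_clo bd3 cc53

theorem cg20 (H : Bd [pK4, pW4, pGem, pP23]) : Good cs4_0 cl2 36 cm16 :=
  good_clo bd3 cc54

theorem cg22 (H : Bd [pK4, pW4, pGem, pP23]) : Good cs4_0 (pk 256 [0x4]) 1 0x1 :=
  good_clo bd_P4 cc55

theorem cg21 (H : Bd [pK4, pW4, pGem, pP23]) : Good cs4_0 cl2 562949953421316 cm17 :=
  good_cov cc56 (cg22 H)

theorem cg23 (H : Bd [pK4, pW4, pGem, pP23]) : Good cs4_0 cl2 40 cm18 :=
  good_clo bd3 cc57

theorem cg25 (H : Bd [pK4, pW4, pGem, pP23]) : Good cs4_0 (pk 256 [0x10]) 1 0x1 :=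
  good_clo bd_P4 cc58

theorem cg24 (H : Bd [pK4, pW4, pGem, pP23]) : Good cs4_0 cl2 562949953421320 cm19 :=
  good_cov cc59 (cg25 H)

theorem cg26 (H : Bd [pK4, pW4, pGem, pP23]) : Good cs4_0 cl2 562949953421328 cm20 :=
  good_clo bd_K3S cc60

theorem cg27 (H : Bd [pK4, pW4, pGem, pP23]) : Good cs4_0 cl2 2097184 cm21 :=
  good_clo bd_K3S cc61

theorem cg28 (H : Bd [pK4, pW4, pGem, pP23]) : Good cs4_0 cl2 8589934624 cm22 :=
  good_clo bd_K3S cc62

theorem cg29 (H : Bd [pK4, pW4, pGem, pP23]) : Good cs4_0 cl2 2199023255584 cm23 :=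
  good_clo bd_K3S cc63

theorem cg30 (H : Bd [pK4, pW4, pGem, pP23]) : Good cs4_0 cl2 35184372088864 cm24 :=
  good_clo bd_K3S cc64

theorem cg31 (H : Bd [pK4, pW4, pGem, pP23]) : Good cs4_0 cl2 562949953421344 cm25 :=
  good_clo bd_K3S cc65

theorem cg33 (H : Bd [pK4, pW4, pGem, pP23]) : Good cs4_0 (pk 256 [0x1]) 1 0x1 :=
  good_clo bd_P4 cc66

theorem cg32 (H : Bd [pK4, pW4, pGem, pP23]) : Good cs4_0 cl2 562949953421376 cm26 :=
  good_cov cc67 (cg33 H)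

theorem cg35 (H : Bd [pK4, pW4, pGem, pP23]) : Good cs4_0 (pk 256 [0x1]) 1 0x1 :=
  good_clo bd_P4 cc68

theorem cg34 (H : Bd [pK4, pW4, pGem, pP23]) : Good cs4_0 cl2 562949953422336 cm27 :=
  good_cov cc69 (cg35 H)

theorem cg37 (H : Bd [pK4, pW4, pGem, pP23]) : Good cs4_0 (pk 256 [0x4]) 1 0x1 :=
  good_clo bd_P4 cc70

theorem cg36 (H : Bd [pK4, pW4, pGem, pP23]) : Good cs4_0 cl2 562949953437696 cm28 :=
  good_cov cc71 (cg37 H)

theorem cg39 (H : Bd [pK4, pW4, pGem, pP23]) : Good cs4_0 (pk 256 [0x1]) 1 0x1 :=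
  good_clo bd_P4 cc72

theorem cg38 (H : Bd [pK4, pW4, pGem, pP23]) : Good cs4_0 cl2 2359296 cm29 :=
  good_cov cc73 (cg39 H)

theorem cg40 (H : Bd [pK4, pW4, pGem, pP23]) : Good cs4_0 cl2 1835041 cm30 :=
  good_clo H cc74

theorem cg42 (H : Bd [pK4, pW4, pGem, pP23]) : Good cs4_0 (pk 256 [0x1]) 1 0x1 :=
  good_clo bd_P4 cc75

theorem cg41 (H : Bd [pK4, pW4, pGem, pP23]) : Good cs4_0 cl2 562949955256320 cm31 :=
  good_cov cc76 (cg42 H)

theorem cg44 (H : Bd [pK4, pW4, pGem, pP23]) : Good cs4_0 (pk 256 [0x1]) 1 0x1 :=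
  good_clo bd_P4 cc77

theorem cg43 (H : Bd [pK4, pW4, pGem, pP23]) : Good cs4_0 cl2 562949957615616 cm32 :=
  good_cov cc78 (cg44 H)

theorem cr12_0 : Upto (RTat cs10_0 cl66 32767 cb67) 64 :=
  rt_step (lo := 0) (c := 64) (Upto.zero _) cc85

theorem ca12_0 : Upto (ALat cs10_0 cl66 32767 cb68) 64 :=
  al_step (lo := 0) (c := 64) cr12_0 (Upto.zero _) cc86 (by decide)

theorem crr52 : Upto (RTat cs10_0 cl66 32767 cb67) 64 := cr12_0

theorem caa52 : Upto (ALat cs10_0 cl66 32767 cb68) 64 := ca12_0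

theorem ct52_0 : TRR cs10_0 cl66 32767 cm65 cb69 0 64 64 :=
  tr_part (ly := 0) (cy := 64) crr52 caa52 (TRR.zero _ _ _ _ _ _ _) cc87

theorem ct52_1 : Upto (TRat cs10_0 cl66 32767 cm65 cb69) 64 :=
  tr_fin (lo := 0) (c := 64) (Upto.zero _) ct52_0

theorem cg54 (H : Bd [pK4, pW4, pGem, pP23]) : Good cs10_0 (pk 256 [0x4]) 1 0x1 :=
  good_clo bd_P4 cc88

theorem cg53 (H : Bd [pK4, pW4, pGem, pP23]) : Good cs10_0 cl66 1536 cm70 :=
  good_cov cc89 (cg54 H)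

theorem crr57 : Upto (RTat cs10_0 cl66 31231 cb67) 64 := (rt_mono cr12_0 (by decide +kernel))

theorem caa57 : Upto (ALat cs10_0 cl66 31231 cb68) 64 := (al_mono ca12_0 (by decide +kernel))

theorem ct57_0 : TRR cs10_0 cl66 31231 cm71 cb73 0 13 64 :=
  tr_part (ly := 0) (cy := 64) crr57 caa57 (TRR.zero _ _ _ _ _ _ _) cc90

theorem ct57_1 : Upto (TRat cs10_0 cl66 31231 cm71 cb73) 13 :=
  tr_fin (lo := 0) (c := 13) (Upto.zero _) ct57_0

theorem ct57_2 : TRR cs10_0 cl66 31231 cm71 cb73 13 51 64 :=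
  tr_part (ly := 0) (cy := 64) crr57 caa57 (TRR.zero _ _ _ _ _ _ _) cc91

theorem ct57_3 : Upto (TRat cs10_0 cl66 31231 cm71 cb73) 64 :=
  tr_fin (lo := 13) (c := 51) ct57_1 ct57_2

theorem cg58 (H : Bd [pK4, pW4, pGem, pP23]) : Good cs10_0 cl66 10264 cm74 :=
  good_clo bd3 cc92

theorem cg59 (H : Bd [pK4, pW4, pGem, pP23]) : Good cs10_0 cl66 10280 cm75 :=
  good_clo bd3 cc93

theorem cr14_0 : Upto (RTat cs16_0 cl78 131071 cb79) 64 :=
  rt_step (lo := 0) (c := 64) (Upto.zero _) cc100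

theorem ca14_0 : Upto (ALat cs16_0 cl78 131071 cb80) 54 :=
  al_step (lo := 0) (c := 54) cr14_0 (Upto.zero _) cc101 (by decide)

theorem ca14_1 : Upto (ALat cs16_0 cl78 131071 cb80) 64 :=
  al_step (lo := 54) (c := 10) cr14_0 ca14_0 cc102 (by decide)

theorem crr67 : Upto (RTat cs16_0 cl78 131071 cb79) 64 := cr14_0

theorem caa67 : Upto (ALat cs16_0 cl78 131071 cb80) 64 := ca14_1

theorem ct67_0 : TRR cs16_0 cl78 131071 cm77 cb81 0 64 64 :=
  tr_part (ly := 0) (cy := 64) crr67 caa67 (TRR.zero _ _ _ _ _ _ _) cc103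

theorem ct67_1 : Upto (TRat cs16_0 cl78 131071 cm77 cb81) 64 :=
  tr_fin (lo := 0) (c := 64) (Upto.zero _) ct67_0

theorem cg69 (H : Bd [pK4, pW4, pGem, pP23]) : Good cs16_0 (pk 256 [0x1]) 1 0x1 :=
  good_clo bd_P4 cc104

theorem cg68 (H : Bd [pK4, pW4, pGem, pP23]) : Good cs16_0 cl78 6144 cm82 :=
  good_cov cc105 (cg69 H)

theorem crr72 : Upto (RTat cs16_0 cl78 41465 cb79) 64 := (rt_mono cr14_0 (by decide +kernel))

theorem caa72 : Upto (ALat cs16_0 cl78 41465 cb80) 64 := (al_mono ca14_1 (by decide +kernel))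

theorem ct72_0 : TRR cs16_0 cl78 41465 cm83 cb86 0 64 64 :=
  tr_part (ly := 0) (cy := 64) crr72 caa72 (TRR.zero _ _ _ _ _ _ _) cc106

theorem ct72_1 : Upto (TRat cs16_0 cl78 41465 cm83 cb86) 64 :=
  tr_fin (lo := 0) (c := 64) (Upto.zero _) ct72_0

theorem cg73 (H : Bd [pK4, pW4, pGem, pP23]) : Good cs16_0 cl78 41032 cm87 :=
  good_clo bd3 cc107

theorem cg74 (H : Bd [pK4, pW4, pGem, pP23]) : Good cs16_0 cl78 41096 cm88 :=
  good_clo bd3 cc108

theorem cg75 (H : Bd [pK4, pW4, pGem, pP23]) : Good cs16_0 cl78 41273 cm89 :=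
  good_clo H cc109

theorem cg72 (H : Bd [pK4, pW4, pGem, pP23]) : Good cs16_0 cl78 41465 cm83 :=
  good_mach caa72 ct72_1 cc110
    (AllGood.cons (cg73 H) (AllGood.cons (cg74 H) (AllGood.cons (cg75 H) (AllGood.nil _ _))))

theorem cg71 (H : Bd [pK4, pW4, pGem, pP23]) : Good cs16_0 cl78 45561 cm83 :=
  good_pen cc111 (cg72 H)

theorem cg70 (H : Bd [pK4, pW4, pGem, pP23]) : Good cs16_0 cl78 47609 cm83 :=
  good_pen cc112 (cg71 H)

theorem cr16_0 : Upto (RTat cs21_0 cl91 1048575 cb92) 64 :=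
  rt_step (lo := 0) (c := 64) (Upto.zero _) cc118

theorem ca16_0 : Upto (ALat cs21_0 cl91 1048575 cb93) 18 :=
  al_step (lo := 0) (c := 18) cr16_0 (Upto.zero _) cc119 (by decide)

theorem ca16_1 : Upto (ALat cs21_0 cl91 1048575 cb93) 64 :=
  al_step (lo := 18) (c := 46) cr16_0 ca16_0 cc120 (by decide)

theorem crr82 : Upto (RTat cs21_0 cl91 1048575 cb92) 64 := cr16_0

theorem caa82 : Upto (ALat cs21_0 cl91 1048575 cb93) 64 := ca16_1

theorem ct82_0 : TRR cs21_0 cl91 1048575 cm90 cb94 0 13 64 :=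
  tr_part (ly := 0) (cy := 64) crr82 caa82 (TRR.zero _ _ _ _ _ _ _) cc121

theorem ct82_1 : Upto (TRat cs21_0 cl91 1048575 cm90 cb94) 13 :=
  tr_fin (lo := 0) (c := 13) (Upto.zero _) ct82_0

theorem ct82_2 : TRR cs21_0 cl91 1048575 cm90 cb94 13 1 16 :=
  tr_part (ly := 0) (cy := 16) crr82 caa82 (TRR.zero _ _ _ _ _ _ _) cc122

theorem ct82_3 : TRR cs21_0 cl91 1048575 cm90 cb94 13 1 64 :=
  tr_part (ly := 16) (cy := 48) crr82 caa82 ct82_2 cc123

theorem ct82_4 : Upto (TRat cs21_0 cl91 1048575 cm90 cb94) 14 :=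
  tr_fin (lo := 13) (c := 1) ct82_1 ct82_3

theorem ct82_5 : TRR cs21_0 cl91 1048575 cm90 cb94 14 3 64 :=
  tr_part (ly := 0) (cy := 64) crr82 caa82 (TRR.zero _ _ _ _ _ _ _) cc124

theorem ct82_6 : Upto (TRat cs21_0 cl91 1048575 cm90 cb94) 17 :=
  tr_fin (lo := 14) (c := 3) ct82_4 ct82_5

theorem ct82_7 : TRR cs21_0 cl91 1048575 cm90 cb94 17 1 16 :=
  tr_part (ly := 0) (cy := 16) crr82 caa82 (TRR.zero _ _ _ _ _ _ _) cc125

theorem ct82_8 : TRR cs21_0 cl91 1048575 cm90 cb94 17 1 64 :=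
  tr_part (ly := 16) (cy := 48) crr82 caa82 ct82_7 cc126

theorem ct82_9 : Upto (TRat cs21_0 cl91 1048575 cm90 cb94) 18 :=
  tr_fin (lo := 17) (c := 1) ct82_6 ct82_8

theorem ct82_10 : TRR cs21_0 cl91 1048575 cm90 cb94 18 46 64 :=
  tr_part (ly := 0) (cy := 64) crr82 caa82 (TRR.zero _ _ _ _ _ _ _) cc127

theorem ct82_11 : Upto (TRat cs21_0 cl91 1048575 cm90 cb94) 64 :=
  tr_fin (lo := 18) (c := 46) ct82_9 ct82_10

theorem cg83 (H : Bd [pK4, pW4, pGem, pP23]) : Good cs21_0 cl91 8193 cm95 :=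
  good_clo bd3 cc128

theorem cg84 (H : Bd [pK4, pW4, pGem, pP23]) : Good cs21_0 cl91 32769 cm96 :=
  good_clo bd3 cc129

theorem cg85 (H : Bd [pK4, pW4, pGem, pP23]) : Good cs21_0 cl91 8196 cm97 :=
  good_clo bd3 cc130

theorem cg86 (H : Bd [pK4, pW4, pGem, pP23]) : Good cs21_0 cl91 32772 cm98 :=
  good_clo bd3 cc131

theorem cg87 (H : Bd [pK4, pW4, pGem, pP23]) : Good cs21_0 cl91 131136 cm99 :=
  good_clo bd3 cc132

theorem cg88 (H : Bd [pK4, pW4, pGem, pP23]) : Good cs21_0 cl91 524352 cm100 :=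
  good_clo bd3 cc133

theorem cg89 (H : Bd [pK4, pW4, pGem, pP23]) : Good cs21_0 cl91 131328 cm101 :=
  good_clo bd3 cc134

theorem cg90 (H : Bd [pK4, pW4, pGem, pP23]) : Good cs21_0 cl91 524544 cm102 :=
  good_clo bd3 cc135

theorem cg92 (H : Bd [pK4, pW4, pGem, pP23]) : Good cs21_0 (pk 256 [0x4]) 1 0x1 :=
  good_clo bd_P4 cc136

theorem cg91 (H : Bd [pK4, pW4, pGem, pP23]) : Good cs21_0 cl91 40960 cm103 :=
  good_cov cc137 (cg92 H)

theorem cr18_0 : Upto (RTat cs26_0 cl108 16777215 cb109) 64 :=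
  rt_step (lo := 0) (c := 64) (Upto.zero _) cc143

theorem ca18_0 : Upto (ALat cs26_0 cl108 16777215 cb110) 26 :=
  al_step (lo := 0) (c := 26) cr18_0 (Upto.zero _) cc144 (by decide)

theorem ca18_1 : Upto (ALat cs26_0 cl108 16777215 cb110) 64 :=
  al_step (lo := 26) (c := 38) cr18_0 ca18_0 cc145 (by decide)

theorem crr105 : Upto (RTat cs26_0 cl108 16777215 cb109) 64 := cr18_0

theorem caa105 : Upto (ALat cs26_0 cl108 16777215 cb110) 64 := ca18_1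

theorem ct105_0 : TRR cs26_0 cl108 16777215 cm107 cb111 0 64 64 :=
  tr_part (ly := 0) (cy := 64) crr105 caa105 (TRR.zero _ _ _ _ _ _ _) cc146

theorem ct105_1 : Upto (TRat cs26_0 cl108 16777215 cm107 cb111) 64 :=
  tr_fin (lo := 0) (c := 64) (Upto.zero _) ct105_0

theorem cg106 (H : Bd [pK4, pW4, pGem, pP23]) : Good cs26_0 cl108 131104 cm112 :=
  good_clo bd3 cc147

theorem cg107 (H : Bd [pK4, pW4, pGem, pP23]) : Good cs26_0 cl108 524320 cm113 :=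
  good_clo bd3 cc148

theorem cg108 (H : Bd [pK4, pW4, pGem, pP23]) : Good cs26_0 cl108 131200 cm114 :=
  good_clo bd3 cc149

theorem cg109 (H : Bd [pK4, pW4, pGem, pP23]) : Good cs26_0 cl108 524416 cm115 :=
  good_clo bd3 cc150

theorem cg110 (H : Bd [pK4, pW4, pGem, pP23]) : Good cs26_0 cl108 2099200 cm116 :=
  good_clo bd3 cc151

theorem cg111 (H : Bd [pK4, pW4, pGem, pP23]) : Good cs26_0 cl108 8390656 cm117 :=
  good_clo bd3 cc152

theorem cg112 (H : Bd [pK4, pW4, pGem, pP23]) : Good cs26_0 cl108 2105344 cm118 :=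
  good_clo bd3 cc153

theorem cg113 (H : Bd [pK4, pW4, pGem, pP23]) : Good cs26_0 cl108 8396800 cm119 :=
  good_clo bd3 cc154

theorem ce118_0 : Upto (DegAt cs26_0 cl108 11162975 cb125) 7 :=
  deg_step (lo := 0) (c := 7) (Upto.zero _) cc159

theorem ce118_1 : Upto (DegAt cs26_0 cl108 11162975 cb125) 24 :=
  deg_step (lo := 7) (c := 17) ce118_0 cc160

theorem ce118_2 : Upto (DegAt cs26_0 cl108 11162975 cb125) 64 :=
  deg_step (lo := 24) (c := 40) ce118_1 cc161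

theorem cg118 (H : Bd [pK4, pW4, pGem, pP23]) : Good cs26_0 cl108 11162975 cm120 :=
  good_deg ce118_2 cc162

theorem cr19_0 : Upto (RTat cs29_0 cl127 1048575 cb128) 64 :=
  rt_step (lo := 0) (c := 64) (Upto.zero _) cc166

theorem ca19_0 : Upto (ALat cs29_0 cl127 1048575 cb129) 64 :=
  al_step (lo := 0) (c := 64) cr19_0 (Upto.zero _) cc167 (by decide)

theorem crr124 : Upto (RTat cs29_0 cl127 524287 cb128) 64 := (rt_mono cr19_0 (by decide +kernel))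

theorem caa124 : Upto (ALat cs29_0 cl127 524287 cb129) 64 := (al_mono ca19_0 (by decide +kernel))

theorem ct124_0 : TRR cs29_0 cl127 524287 cm126 cb130 0 64 64 :=
  tr_part (ly := 0) (cy := 64) crr124 caa124 (TRR.zero _ _ _ _ _ _ _) cc168

theorem ct124_1 : Upto (TRat cs29_0 cl127 524287 cm126 cb130) 64 :=
  tr_fin (lo := 0) (c := 64) (Upto.zero _) ct124_0

theorem ce125_0 : Upto (DegAt cs29_0 cl127 349567 cb132) 7 :=
  deg_step (lo := 0) (c := 7) (Upto.zero _) cc169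

theorem ce125_1 : Upto (DegAt cs29_0 cl127 349567 cb132) 64 :=
  deg_step (lo := 7) (c := 57) ce125_0 cc170

theorem cg125 (H : Bd [pK4, pW4, pGem, pP23]) : Good cs29_0 cl127 349567 cm131 :=
  good_deg ce125_1 cc171

theorem cg124 (H : Bd [pK4, pW4, pGem, pP23]) : Good cs29_0 cl127 524287 cm126 :=
  good_mach caa124 ct124_1 cc172
    (AllGood.cons (cg125 H) (AllGood.nil _ _))

theorem cg123 (H : Bd [pK4, pW4, pGem, pP23]) : Good cs29_0 cl127 1048575 cm126 :=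
  good_sml cc173 (cg124 H)

theorem cg122 (H : Bd [pK4, pW4, pGem, pP23]) : Good cs29_0 cl108 4871519 cm120 :=
  good_cov cc174 (cg123 H)

theorem dcs29d0_0 : DerTo cs29 cs29d0 26 :=
  DerTo.step (lo := 0) (c := 26) (DerTo.zero _ _) cc175

theorem dcs29d0 : Der cs29 cs29d0 := DerTo.fin dcs29d0_0 cc176

theorem cg121 (H : Bd [pK4, pW4, pGem, pP23]) : Good cs28_0 cl108 4871519 cm120 :=
  good_flag cc165 (good_der dcs29d0 (cg122 H))

theorem dcs28d0_0 : DerTo cs28 cs28d0 5 :=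
  DerTo.step (lo := 0) (c := 5) (DerTo.zero _ _) cc177

theorem dcs28d0 : Der cs28 cs28d0 := DerTo.fin dcs28d0_0 cc178

theorem cg120 (H : Bd [pK4, pW4, pGem, pP23]) : Good cs27_0 cl108 4871519 cm120 :=
  good_flag cc164 (good_der dcs28d0 (cg121 H))

theorem dcs27d0_0 : DerTo cs27 cs27d0 7 :=
  DerTo.step (lo := 0) (c := 7) (DerTo.zero _ _) cc179

theorem dcs27d0 : Der cs27 cs27d0 := DerTo.fin dcs27d0_0 cc180

theorem cg119 (H : Bd [pK4, pW4, pGem, pP23]) : Good cs26_0 cl108 4871519 cm120 :=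
  good_flag cc163 (good_der dcs27d0 (cg120 H))

theorem cg117 (H : Bd [pK4, pW4, pGem, pP23]) : Good cs26_0 cl108 15357279 cm120 :=
  good_nev cc158 (cg118 H) (cg119 H)

theorem cr20_0 : Upto (RTat cs32_0 cl135 4194303 cb136) 64 :=
  rt_step (lo := 0) (c := 64) (Upto.zero _) cc184

theorem ca20_0 : Upto (ALat cs32_0 cl135 4194303 cb137) 64 :=
  al_step (lo := 0) (c := 64) cr20_0 (Upto.zero _) cc185 (by decide)

theorem crr131 : Upto (RTat cs32_0 cl135 1572863 cb136) 64 := (rt_mono cr20_0 (by decide +kernel))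

theorem caa131 : Upto (ALat cs32_0 cl135 1572863 cb137) 64 := (al_mono ca20_0 (by decide +kernel))

theorem ct131_0 : TRR cs32_0 cl135 1572863 cm134 cb138 0 64 64 :=
  tr_part (ly := 0) (cy := 64) crr131 caa131 (TRR.zero _ _ _ _ _ _ _) cc186

theorem ct131_1 : Upto (TRat cs32_0 cl135 1572863 cm134 cb138) 64 :=
  tr_fin (lo := 0) (c := 64) (Upto.zero _) ct131_0

theorem ce132_0 : Upto (DegAt cs32_0 cl135 1398143 cb140) 6 :=
  deg_step (lo := 0) (c := 6) (Upto.zero _) cc187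

theorem ce132_1 : Upto (DegAt cs32_0 cl135 1398143 cb140) 19 :=
  deg_step (lo := 6) (c := 13) ce132_0 cc188

theorem ce132_2 : Upto (DegAt cs32_0 cl135 1398143 cb140) 64 :=
  deg_step (lo := 19) (c := 45) ce132_1 cc189

theorem cg132 (H : Bd [pK4, pW4, pGem, pP23]) : Good cs32_0 cl135 1398143 cm139 :=
  good_deg ce132_2 cc190

theorem cg131 (H : Bd [pK4, pW4, pGem, pP23]) : Good cs32_0 cl135 1572863 cm134 :=
  good_mach caa131 ct131_1 cc191
    (AllGood.cons (cg132 H) (AllGood.nil _ _))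

theorem cg130 (H : Bd [pK4, pW4, pGem, pP23]) : Good cs32_0 cl135 4194303 cm134 :=
  good_sml cc192 (cg131 H)

theorem cg129 (H : Bd [pK4, pW4, pGem, pP23]) : Good cs32_0 cl108 5920095 cm120 :=
  good_cov cc193 (cg130 H)

theorem dcs32d0_0 : DerTo cs32 cs32d0 33 :=
  DerTo.step (lo := 0) (c := 33) (DerTo.zero _ _) cc194

theorem dcs32d0 : Der cs32 cs32d0 := DerTo.fin dcs32d0_0 cc195

theorem cg128 (H : Bd [pK4, pW4, pGem, pP23]) : Good cs31_0 cl108 5920095 cm120 :=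
  good_flag cc183 (good_der dcs32d0 (cg129 H))

theorem dcs31d0_0 : DerTo cs31 cs31d0 6 :=
  DerTo.step (lo := 0) (c := 6) (DerTo.zero _ _) cc196

theorem dcs31d0 : Der cs31 cs31d0 := DerTo.fin dcs31d0_0 cc197

theorem cg127 (H : Bd [pK4, pW4, pGem, pP23]) : Good cs30_0 cl108 5920095 cm120 :=
  good_flag cc182 (good_der dcs31d0 (cg128 H))

theorem dcs30d0_0 : DerTo cs30 cs30d0 7 :=
  DerTo.step (lo := 0) (c := 7) (DerTo.zero _ _) cc198

theorem dcs30d0 : Der cs30 cs30d0 := DerTo.fin dcs30d0_0 cc199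

theorem cg126 (H : Bd [pK4, pW4, pGem, pP23]) : Good cs26_0 cl108 5920095 cm120 :=
  good_flag cc181 (good_der dcs30d0 (cg127 H))

theorem cg116 (H : Bd [pK4, pW4, pGem, pP23]) : Good cs26_0 cl108 16405855 cm120 :=
  good_nev cc157 (cg117 H) (cg126 H)

theorem cr21_0 : Upto (RTat cs35_0 cl143 1048575 cb144) 64 :=
  rt_step (lo := 0) (c := 64) (Upto.zero _) cc205

theorem ca21_0 : Upto (ALat cs35_0 cl143 1048575 cb145) 64 :=
  al_step (lo := 0) (c := 64) cr21_0 (Upto.zero _) cc206 (by decide)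

theorem crr140 : Upto (RTat cs35_0 cl143 524287 cb144) 64 := (rt_mono cr21_0 (by decide +kernel))

theorem caa140 : Upto (ALat cs35_0 cl143 524287 cb145) 64 := (al_mono ca21_0 (by decide +kernel))

theorem ct140_0 : TRR cs35_0 cl143 524287 cm142 cb146 0 64 64 :=
  tr_part (ly := 0) (cy := 64) crr140 caa140 (TRR.zero _ _ _ _ _ _ _) cc207

theorem ct140_1 : Upto (TRat cs35_0 cl143 524287 cm142 cb146) 64 :=
  tr_fin (lo := 0) (c := 64) (Upto.zero _) ct140_0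

theorem ce141_0 : Upto (DegAt cs35_0 cl143 349567 cb148) 7 :=
  deg_step (lo := 0) (c := 7) (Upto.zero _) cc208

theorem ce141_1 : Upto (DegAt cs35_0 cl143 349567 cb148) 64 :=
  deg_step (lo := 7) (c := 57) ce141_0 cc209

theorem cg141 (H : Bd [pK4, pW4, pGem, pP23]) : Good cs35_0 cl143 349567 cm147 :=
  good_deg ce141_1 cc210

theorem cg140 (H : Bd [pK4, pW4, pGem, pP23]) : Good cs35_0 cl143 524287 cm142 :=
  good_mach caa140 ct140_1 cc211
    (AllGood.cons (cg141 H) (AllGood.nil _ _))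

theorem cg139 (H : Bd [pK4, pW4, pGem, pP23]) : Good cs35_0 cl143 1048575 cm142 :=
  good_sml cc212 (cg140 H)

theorem cg138 (H : Bd [pK4, pW4, pGem, pP23]) : Good cs35_0 cl108 10769759 cm120 :=
  good_cov cc213 (cg139 H)

theorem dcs35d0_0 : DerTo cs35 cs35d0 26 :=
  DerTo.step (lo := 0) (c := 26) (DerTo.zero _ _) cc214

theorem dcs35d0 : Der cs35 cs35d0 := DerTo.fin dcs35d0_0 cc215

theorem cg137 (H : Bd [pK4, pW4, pGem, pP23]) : Good cs34_0 cl108 10769759 cm120 :=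
  good_flag cc204 (good_der dcs35d0 (cg138 H))

theorem dcs34d0_0 : DerTo cs34 cs34d0 7 :=
  DerTo.step (lo := 0) (c := 7) (DerTo.zero _ _) cc216

theorem dcs34d0 : Der cs34 cs34d0 := DerTo.fin dcs34d0_0 cc217

theorem cg136 (H : Bd [pK4, pW4, pGem, pP23]) : Good cs33_0 cl108 10769759 cm120 :=
  good_flag cc203 (good_der dcs34d0 (cg137 H))

theorem dcs33d0_0 : DerTo cs33 cs33d0 5 :=
  DerTo.step (lo := 0) (c := 5) (DerTo.zero _ _) cc218

theorem dcs33d0 : Der cs33 cs33d0 := DerTo.fin dcs33d0_0 cc219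

theorem cg135 (H : Bd [pK4, pW4, pGem, pP23]) : Good cs26_0 cl108 10769759 cm120 :=
  good_flag cc202 (good_der dcs33d0 (cg136 H))

theorem cr22_0 : Upto (RTat cs38_0 cl151 1048575 cb152) 64 :=
  rt_step (lo := 0) (c := 64) (Upto.zero _) cc223

theorem ca22_0 : Upto (ALat cs38_0 cl151 1048575 cb153) 64 :=
  al_step (lo := 0) (c := 64) cr22_0 (Upto.zero _) cc224 (by decide)

theorem crr147 : Upto (RTat cs38_0 cl151 393215 cb152) 64 := (rt_mono cr22_0 (by decide +kernel))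

theorem caa147 : Upto (ALat cs38_0 cl151 393215 cb153) 64 := (al_mono ca22_0 (by decide +kernel))

theorem ct147_0 : TRR cs38_0 cl151 393215 cm150 cb154 0 64 64 :=
  tr_part (ly := 0) (cy := 64) crr147 caa147 (TRR.zero _ _ _ _ _ _ _) cc225

theorem ct147_1 : Upto (TRat cs38_0 cl151 393215 cm150 cb154) 64 :=
  tr_fin (lo := 0) (c := 64) (Upto.zero _) ct147_0

theorem ce148_0 : Upto (DegAt cs38_0 cl151 349535 cb156) 11 :=
  deg_step (lo := 0) (c := 11) (Upto.zero _) cc226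

theorem ce148_1 : Upto (DegAt cs38_0 cl151 349535 cb156) 64 :=
  deg_step (lo := 11) (c := 53) ce148_0 cc227

theorem cg148 (H : Bd [pK4, pW4, pGem, pP23]) : Good cs38_0 cl151 349535 cm155 :=
  good_deg ce148_1 cc228

theorem cg147 (H : Bd [pK4, pW4, pGem, pP23]) : Good cs38_0 cl151 393215 cm150 :=
  good_mach caa147 ct147_1 cc229
    (AllGood.cons (cg148 H) (AllGood.nil _ _))

theorem cg146 (H : Bd [pK4, pW4, pGem, pP23]) : Good cs38_0 cl151 1048575 cm150 :=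
  good_sml cc230 (cg147 H)

theorem cg145 (H : Bd [pK4, pW4, pGem, pP23]) : Good cs38_0 cl108 4478303 cm120 :=
  good_cov cc231 (cg146 H)

theorem dcs38d0_0 : DerTo cs38 cs38d0 29 :=
  DerTo.step (lo := 0) (c := 29) (DerTo.zero _ _) cc232

theorem dcs38d0 : Der cs38 cs38d0 := DerTo.fin dcs38d0_0 cc233

theorem cg144 (H : Bd [pK4, pW4, pGem, pP23]) : Good cs37_0 cl108 4478303 cm120 :=
  good_flag cc222 (good_der dcs38d0 (cg145 H))

theorem dcs37d0_0 : DerTo cs37 cs37d0 6 :=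
  DerTo.step (lo := 0) (c := 6) (DerTo.zero _ _) cc234

theorem dcs37d0 : Der cs37 cs37d0 := DerTo.fin dcs37d0_0 cc235

theorem cg143 (H : Bd [pK4, pW4, pGem, pP23]) : Good cs36_0 cl108 4478303 cm120 :=
  good_flag cc221 (good_der dcs37d0 (cg144 H))

theorem dcs36d0_0 : DerTo cs36 cs36d0 6 :=
  DerTo.step (lo := 0) (c := 6) (DerTo.zero _ _) cc236

theorem dcs36d0 : Der cs36 cs36d0 := DerTo.fin dcs36d0_0 cc237

theorem cg142 (H : Bd [pK4, pW4, pGem, pP23]) : Good cs26_0 cl108 4478303 cm120 :=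
  good_flag cc220 (good_der dcs36d0 (cg143 H))

theorem cg134 (H : Bd [pK4, pW4, pGem, pP23]) : Good cs26_0 cl108 14964063 cm120 :=
  good_nev cc201 (cg135 H) (cg142 H)

theorem cr23_0 : Upto (RTat cs41_0 cl159 2097151 cb160) 64 :=
  rt_step (lo := 0) (c := 64) (Upto.zero _) cc241

theorem ca23_0 : Upto (ALat cs41_0 cl159 2097151 cb161) 64 :=
  al_step (lo := 0) (c := 64) cr23_0 (Upto.zero _) cc242 (by decide)

theorem crr154 : Upto (RTat cs41_0 cl159 786431 cb160) 64 := (rt_mono cr23_0 (by decide +kernel))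

theorem caa154 : Upto (ALat cs41_0 cl159 786431 cb161) 64 := (al_mono ca23_0 (by decide +kernel))

theorem ct154_0 : TRR cs41_0 cl159 786431 cm158 cb162 0 64 64 :=
  tr_part (ly := 0) (cy := 64) crr154 caa154 (TRR.zero _ _ _ _ _ _ _) cc243

theorem ct154_1 : Upto (TRat cs41_0 cl159 786431 cm158 cb162) 64 :=
  tr_fin (lo := 0) (c := 64) (Upto.zero _) ct154_0

theorem ce155_0 : Upto (DegAt cs41_0 cl159 742751 cb164) 9 :=
  deg_step (lo := 0) (c := 9) (Upto.zero _) cc244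

theorem ce155_1 : Upto (DegAt cs41_0 cl159 742751 cb164) 64 :=
  deg_step (lo := 9) (c := 55) ce155_0 cc245

theorem cg155 (H : Bd [pK4, pW4, pGem, pP23]) : Good cs41_0 cl159 742751 cm163 :=
  good_deg ce155_1 cc246

theorem cg154 (H : Bd [pK4, pW4, pGem, pP23]) : Good cs41_0 cl159 786431 cm158 :=
  good_mach caa154 ct154_1 cc247
    (AllGood.cons (cg155 H) (AllGood.nil _ _))

theorem cg153 (H : Bd [pK4, pW4, pGem, pP23]) : Good cs41_0 cl159 2097151 cm158 :=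
  good_sml cc248 (cg154 H)

theorem cg152 (H : Bd [pK4, pW4, pGem, pP23]) : Good cs41_0 cl108 5526879 cm120 :=
  good_cov cc249 (cg153 H)

theorem dcs41d0_0 : DerTo cs41 cs41d0 38 :=
  DerTo.step (lo := 0) (c := 38) (DerTo.zero _ _) cc250

theorem dcs41d0 : Der cs41 cs41d0 := DerTo.fin dcs41d0_0 cc251

theorem cg151 (H : Bd [pK4, pW4, pGem, pP23]) : Good cs40_0 cl108 5526879 cm120 :=
  good_flag cc240 (good_der dcs41d0 (cg152 H))

theorem dcs40d0_0 : DerTo cs40 cs40d0 7 :=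
  DerTo.step (lo := 0) (c := 7) (DerTo.zero _ _) cc252

theorem dcs40d0 : Der cs40 cs40d0 := DerTo.fin dcs40d0_0 cc253

theorem cg150 (H : Bd [pK4, pW4, pGem, pP23]) : Good cs39_0 cl108 5526879 cm120 :=
  good_flag cc239 (good_der dcs40d0 (cg151 H))

theorem dcs39d0_0 : DerTo cs39 cs39d0 6 :=
  DerTo.step (lo := 0) (c := 6) (DerTo.zero _ _) cc254

theorem dcs39d0 : Der cs39 cs39d0 := DerTo.fin dcs39d0_0 cc255

theorem cg149 (H : Bd [pK4, pW4, pGem, pP23]) : Good cs26_0 cl108 5526879 cm120 :=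
  good_flag cc238 (good_der dcs39d0 (cg150 H))

theorem cg133 (H : Bd [pK4, pW4, pGem, pP23]) : Good cs26_0 cl108 16012639 cm120 :=
  good_nev cc200 (cg134 H) (cg149 H)

theorem cg115 (H : Bd [pK4, pW4, pGem, pP23]) : Good cs26_0 cl108 16667999 cm120 :=
  good_nev cc156 (cg116 H) (cg133 H)

theorem cr24_0 : Upto (RTat cs44_0 cl167 4194303 cb168) 64 :=
  rt_step (lo := 0) (c := 64) (Upto.zero _) cc261

theorem ca24_0 : Upto (ALat cs44_0 cl167 4194303 cb169) 64 :=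
  al_step (lo := 0) (c := 64) cr24_0 (Upto.zero _) cc262 (by decide)

theorem crr163 : Upto (RTat cs44_0 cl167 1572863 cb168) 64 := (rt_mono cr24_0 (by decide +kernel))

theorem caa163 : Upto (ALat cs44_0 cl167 1572863 cb169) 64 := (al_mono ca24_0 (by decide +kernel))

theorem ct163_0 : TRR cs44_0 cl167 1572863 cm166 cb170 0 64 64 :=
  tr_part (ly := 0) (cy := 64) crr163 caa163 (TRR.zero _ _ _ _ _ _ _) cc263

theorem ct163_1 : Upto (TRat cs44_0 cl167 1572863 cm166 cb170) 64 :=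
  tr_fin (lo := 0) (c := 64) (Upto.zero _) ct163_0

theorem ce164_0 : Upto (DegAt cs44_0 cl167 1398143 cb172) 6 :=
  deg_step (lo := 0) (c := 6) (Upto.zero _) cc264

theorem ce164_1 : Upto (DegAt cs44_0 cl167 1398143 cb172) 19 :=
  deg_step (lo := 6) (c := 13) ce164_0 cc265

theorem ce164_2 : Upto (DegAt cs44_0 cl167 1398143 cb172) 64 :=
  deg_step (lo := 19) (c := 45) ce164_1 cc266

theorem cg164 (H : Bd [pK4, pW4, pGem, pP23]) : Good cs44_0 cl167 1398143 cm171 :=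
  good_deg ce164_2 cc267

theorem cg163 (H : Bd [pK4, pW4, pGem, pP23]) : Good cs44_0 cl167 1572863 cm166 :=
  good_mach caa163 ct163_1 cc268
    (AllGood.cons (cg164 H) (AllGood.nil _ _))

theorem cg162 (H : Bd [pK4, pW4, pGem, pP23]) : Good cs44_0 cl167 4194303 cm166 :=
  good_sml cc269 (cg163 H)

theorem cg161 (H : Bd [pK4, pW4, pGem, pP23]) : Good cs44_0 cl108 10835295 cm120 :=
  good_cov cc270 (cg162 H)

theorem dcs44d0_0 : DerTo cs44 cs44d0 37 :=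
  DerTo.step (lo := 0) (c := 37) (DerTo.zero _ _) cc271

theorem dcs44d0 : Der cs44 cs44d0 := DerTo.fin dcs44d0_0 cc272

theorem cg160 (H : Bd [pK4, pW4, pGem, pP23]) : Good cs43_0 cl108 10835295 cm120 :=
  good_flag cc260 (good_der dcs44d0 (cg161 H))

theorem dcs43d0_0 : DerTo cs43 cs43d0 7 :=
  DerTo.step (lo := 0) (c := 7) (DerTo.zero _ _) cc273

theorem dcs43d0 : Der cs43 cs43d0 := DerTo.fin dcs43d0_0 cc274

theorem cg159 (H : Bd [pK4, pW4, pGem, pP23]) : Good cs42_0 cl108 10835295 cm120 :=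
  good_flag cc259 (good_der dcs43d0 (cg160 H))

theorem dcs42d0_0 : DerTo cs42 cs42d0 6 :=
  DerTo.step (lo := 0) (c := 6) (DerTo.zero _ _) cc275

theorem dcs42d0 : Der cs42 cs42d0 := DerTo.fin dcs42d0_0 cc276

theorem cg158 (H : Bd [pK4, pW4, pGem, pP23]) : Good cs26_0 cl108 10835295 cm120 :=
  good_flag cc258 (good_der dcs42d0 (cg159 H))

theorem cr25_0 : Upto (RTat cs47_0 cl175 2097151 cb176) 64 :=
  rt_step (lo := 0) (c := 64) (Upto.zero _) cc280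

theorem ca25_0 : Upto (ALat cs47_0 cl175 2097151 cb177) 64 :=
  al_step (lo := 0) (c := 64) cr25_0 (Upto.zero _) cc281 (by decide)

theorem crr170 : Upto (RTat cs47_0 cl175 1441791 cb176) 64 := (rt_mono cr25_0 (by decide +kernel))

theorem caa170 : Upto (ALat cs47_0 cl175 1441791 cb177) 64 := (al_mono ca25_0 (by decide +kernel))

theorem ct170_0 : TRR cs47_0 cl175 1441791 cm174 cb178 0 64 64 :=
  tr_part (ly := 0) (cy := 64) crr170 caa170 (TRR.zero _ _ _ _ _ _ _) cc282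

theorem ct170_1 : Upto (TRat cs47_0 cl175 1441791 cm174 cb178) 64 :=
  tr_fin (lo := 0) (c := 64) (Upto.zero _) ct170_0

theorem ce171_0 : Upto (DegAt cs47_0 cl175 1398111 cb180) 9 :=
  deg_step (lo := 0) (c := 9) (Upto.zero _) cc283

theorem ce171_1 : Upto (DegAt cs47_0 cl175 1398111 cb180) 64 :=
  deg_step (lo := 9) (c := 55) ce171_0 cc284

theorem cg171 (H : Bd [pK4, pW4, pGem, pP23]) : Good cs47_0 cl175 1398111 cm179 :=
  good_deg ce171_1 cc285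

theorem cg170 (H : Bd [pK4, pW4, pGem, pP23]) : Good cs47_0 cl175 1441791 cm174 :=
  good_mach caa170 ct170_1 cc286
    (AllGood.cons (cg171 H) (AllGood.nil _ _))

theorem cg169 (H : Bd [pK4, pW4, pGem, pP23]) : Good cs47_0 cl175 2097151 cm174 :=
  good_sml cc287 (cg170 H)

theorem cg168 (H : Bd [pK4, pW4, pGem, pP23]) : Good cs47_0 cl108 4543839 cm120 :=
  good_cov cc288 (cg169 H)

theorem dcs47d0_0 : DerTo cs47 cs47d0 34 :=
  DerTo.step (lo := 0) (c := 34) (DerTo.zero _ _) cc289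

theorem dcs47d0 : Der cs47 cs47d0 := DerTo.fin dcs47d0_0 cc290

theorem cg167 (H : Bd [pK4, pW4, pGem, pP23]) : Good cs46_0 cl108 4543839 cm120 :=
  good_flag cc279 (good_der dcs47d0 (cg168 H))

theorem dcs46d0_0 : DerTo cs46 cs46d0 5 :=
  DerTo.step (lo := 0) (c := 5) (DerTo.zero _ _) cc291

theorem dcs46d0 : Der cs46 cs46d0 := DerTo.fin dcs46d0_0 cc292

theorem cg166 (H : Bd [pK4, pW4, pGem, pP23]) : Good cs45_0 cl108 4543839 cm120 :=
  good_flag cc278 (good_der dcs46d0 (cg167 H))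

theorem dcs45d0_0 : DerTo cs45 cs45d0 7 :=
  DerTo.step (lo := 0) (c := 7) (DerTo.zero _ _) cc293

theorem dcs45d0 : Der cs45 cs45d0 := DerTo.fin dcs45d0_0 cc294

theorem cg165 (H : Bd [pK4, pW4, pGem, pP23]) : Good cs26_0 cl108 4543839 cm120 :=
  good_flag cc277 (good_der dcs45d0 (cg166 H))

theorem cg157 (H : Bd [pK4, pW4, pGem, pP23]) : Good cs26_0 cl108 15029599 cm120 :=
  good_nev cc257 (cg158 H) (cg165 H)

theorem cr26_0 : Upto (RTat cs50_0 cl183 1048575 cb184) 64 :=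
  rt_step (lo := 0) (c := 64) (Upto.zero _) cc298

theorem ca26_0 : Upto (ALat cs50_0 cl183 1048575 cb185) 64 :=
  al_step (lo := 0) (c := 64) cr26_0 (Upto.zero _) cc299 (by decide)

theorem crr176 : Upto (RTat cs50_0 cl183 1048575 cb184) 64 := cr26_0

theorem caa176 : Upto (ALat cs50_0 cl183 1048575 cb185) 64 := ca26_0

theorem ct176_0 : TRR cs50_0 cl183 1048575 cm182 cb186 0 64 64 :=
  tr_part (ly := 0) (cy := 64) crr176 caa176 (TRR.zero _ _ _ _ _ _ _) cc300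

theorem ct176_1 : Upto (TRat cs50_0 cl183 1048575 cm182 cb186) 64 :=
  tr_fin (lo := 0) (c := 64) (Upto.zero _) ct176_0

theorem ce177_0 : Upto (DegAt cs50_0 cl183 1004895 cb188) 5 :=
  deg_step (lo := 0) (c := 5) (Upto.zero _) cc301

theorem ce177_1 : Upto (DegAt cs50_0 cl183 1004895 cb188) 19 :=
  deg_step (lo := 5) (c := 14) ce177_0 cc302

theorem ce177_2 : Upto (DegAt cs50_0 cl183 1004895 cb188) 64 :=
  deg_step (lo := 19) (c := 45) ce177_1 cc303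

theorem cg177 (H : Bd [pK4, pW4, pGem, pP23]) : Good cs50_0 cl183 1004895 cm187 :=
  good_deg ce177_2 cc304

theorem cg176 (H : Bd [pK4, pW4, pGem, pP23]) : Good cs50_0 cl183 1048575 cm182 :=
  good_mach caa176 ct176_1 cc305
    (AllGood.cons (cg177 H) (AllGood.nil _ _))

theorem cg175 (H : Bd [pK4, pW4, pGem, pP23]) : Good cs50_0 cl108 5592415 cm120 :=
  good_cov cc306 (cg176 H)

theorem dcs50d0_0 : DerTo cs50 cs50d0 50 :=
  DerTo.step (lo := 0) (c := 50) (DerTo.zero _ _) cc307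

theorem dcs50d0 : Der cs50 cs50d0 := DerTo.fin dcs50d0_0 cc308

theorem cg174 (H : Bd [pK4, pW4, pGem, pP23]) : Good cs49_0 cl108 5592415 cm120 :=
  good_flag cc297 (good_der dcs50d0 (cg175 H))

theorem dcs49d0_0 : DerTo cs49 cs49d0 7 :=
  DerTo.step (lo := 0) (c := 7) (DerTo.zero _ _) cc309

theorem dcs49d0 : Der cs49 cs49d0 := DerTo.fin dcs49d0_0 cc310

theorem cg173 (H : Bd [pK4, pW4, pGem, pP23]) : Good cs48_0 cl108 5592415 cm120 :=
  good_flag cc296 (good_der dcs49d0 (cg174 H))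

theorem dcs48d0_0 : DerTo cs48 cs48d0 7 :=
  DerTo.step (lo := 0) (c := 7) (DerTo.zero _ _) cc311

theorem dcs48d0 : Der cs48 cs48d0 := DerTo.fin dcs48d0_0 cc312

theorem cg172 (H : Bd [pK4, pW4, pGem, pP23]) : Good cs26_0 cl108 5592415 cm120 :=
  good_flag cc295 (good_der dcs48d0 (cg173 H))

theorem cg156 (H : Bd [pK4, pW4, pGem, pP23]) : Good cs26_0 cl108 16078175 cm120 :=
  good_nev cc256 (cg157 H) (cg172 H)

theorem cg114 (H : Bd [pK4, pW4, pGem, pP23]) : Good cs26_0 cl108 16733535 cm120 :=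
  good_nev cc155 (cg115 H) (cg156 H)

theorem cg178 (H : Bd [pK4, pW4, pGem, pP23]) : Good cs26_0 cl108 1114112 cm121 :=
  good_clo bd3 cc313

theorem cg179 (H : Bd [pK4, pW4, pGem, pP23]) : Good cs26_0 cl108 4259840 cm122 :=
  good_clo bd3 cc314

theorem cg180 (H : Bd [pK4, pW4, pGem, pP23]) : Good cs26_0 cl108 1310720 cm123 :=
  good_clo bd3 cc315

theorem cg181 (H : Bd [pK4, pW4, pGem, pP23]) : Good cs26_0 cl108 4456448 cm124 :=
  good_clo bd3 cc316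

theorem cg105 (H : Bd [pK4, pW4, pGem, pP23]) : Good cs26_0 cl108 16777215 cm107 :=
  good_mach caa105 ct105_1 cc317
    (AllGood.cons (cg106 H) (AllGood.cons (cg107 H) (AllGood.cons (cg108 H) (AllGood.cons (cg109 H) (AllGood.cons (cg110 H) (AllGood.cons (cg111 H) (AllGood.cons (cg112 H) (AllGood.cons (cg113 H) (AllGood.cons (cg114 H) (AllGood.cons (cg178 H) (AllGood.cons (cg179 H) (AllGood.cons (cg180 H) (AllGood.cons (cg181 H) (AllGood.nil _ _))))))))))))))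

theorem cg104 (H : Bd [pK4, pW4, pGem, pP23]) : Good cs26_0 cl91 1047210 cm104 :=
  good_cov cc318 (cg105 H)

theorem dcs26d0_0 : DerTo cs26 cs26d0 37 :=
  DerTo.step (lo := 0) (c := 37) (DerTo.zero _ _) cc319

theorem dcs26d0_1 : DerTo cs26 cs26d0 58 :=
  DerTo.step (lo := 37) (c := 21) dcs26d0_0 cc320

theorem dcs26d0_2 : DerTo cs26 cs26d0 86 :=
  DerTo.step (lo := 58) (c := 28) dcs26d0_1 cc321

theorem dcs26d0_3 : DerTo cs26 cs26d0 107 :=
  DerTo.step (lo := 86) (c := 21) dcs26d0_2 cc322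

theorem dcs26d0_4 : DerTo cs26 cs26d0 129 :=
  DerTo.step (lo := 107) (c := 22) dcs26d0_3 cc323

theorem dcs26d0_5 : DerTo cs26 cs26d0 149 :=
  DerTo.step (lo := 129) (c := 20) dcs26d0_4 cc324

theorem dcs26d0_6 : DerTo cs26 cs26d0 177 :=
  DerTo.step (lo := 149) (c := 28) dcs26d0_5 cc325

theorem dcs26d0_7 : DerTo cs26 cs26d0 204 :=
  DerTo.step (lo := 177) (c := 27) dcs26d0_6 cc326

theorem dcs26d0_8 : DerTo cs26 cs26d0 218 :=
  DerTo.step (lo := 204) (c := 14) dcs26d0_7 cc327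

theorem dcs26d0_9 : DerTo cs26 cs26d0 229 :=
  DerTo.step (lo := 218) (c := 11) dcs26d0_8 cc328

theorem dcs26d0_10 : DerTo cs26 cs26d0 248 :=
  DerTo.step (lo := 229) (c := 19) dcs26d0_9 cc329

theorem dcs26d0_11 : DerTo cs26 cs26d0 268 :=
  DerTo.step (lo := 248) (c := 20) dcs26d0_10 cc330

theorem dcs26d0_12 : DerTo cs26 cs26d0 286 :=
  DerTo.step (lo := 268) (c := 18) dcs26d0_11 cc331

theorem dcs26d0_13 : DerTo cs26 cs26d0 296 :=
  DerTo.step (lo := 286) (c := 10) dcs26d0_12 cc332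

theorem dcs26d0_14 : DerTo cs26 cs26d0 322 :=
  DerTo.step (lo := 296) (c := 26) dcs26d0_13 cc333

theorem dcs26d0_15 : DerTo cs26 cs26d0 346 :=
  DerTo.step (lo := 322) (c := 24) dcs26d0_14 cc334

theorem dcs26d0_16 : DerTo cs26 cs26d0 363 :=
  DerTo.step (lo := 346) (c := 17) dcs26d0_15 cc335

theorem dcs26d0_17 : DerTo cs26 cs26d0 388 :=
  DerTo.step (lo := 363) (c := 25) dcs26d0_16 cc336

theorem dcs26d0_18 : DerTo cs26 cs26d0 411 :=
  DerTo.step (lo := 388) (c := 23) dcs26d0_17 cc337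

theorem dcs26d0_19 : DerTo cs26 cs26d0 439 :=
  DerTo.step (lo := 411) (c := 28) dcs26d0_18 cc338

theorem dcs26d0_20 : DerTo cs26 cs26d0 462 :=
  DerTo.step (lo := 439) (c := 23) dcs26d0_19 cc339

theorem dcs26d0_21 : DerTo cs26 cs26d0 475 :=
  DerTo.step (lo := 462) (c := 13) dcs26d0_20 cc340

theorem dcs26d0_22 : DerTo cs26 cs26d0 487 :=
  DerTo.step (lo := 475) (c := 12) dcs26d0_21 cc341

theorem dcs26d0_23 : DerTo cs26 cs26d0 504 :=
  DerTo.step (lo := 487) (c := 17) dcs26d0_22 cc342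

theorem dcs26d0_24 : DerTo cs26 cs26d0 512 :=
  DerTo.step (lo := 504) (c := 8) dcs26d0_23 cc343

theorem dcs26d0_25 : DerTo cs26 cs26d0 530 :=
  DerTo.step (lo := 512) (c := 18) dcs26d0_24 cc344

theorem dcs26d0_26 : DerTo cs26 cs26d0 546 :=
  DerTo.step (lo := 530) (c := 16) dcs26d0_25 cc345

theorem dcs26d0_27 : DerTo cs26 cs26d0 564 :=
  DerTo.step (lo := 546) (c := 18) dcs26d0_26 cc346

theorem dcs26d0_28 : DerTo cs26 cs26d0 585 :=
  DerTo.step (lo := 564) (c := 21) dcs26d0_27 cc347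

theorem dcs26d0_29 : DerTo cs26 cs26d0 600 :=
  DerTo.step (lo := 585) (c := 15) dcs26d0_28 cc348

theorem dcs26d0_30 : DerTo cs26 cs26d0 622 :=
  DerTo.step (lo := 600) (c := 22) dcs26d0_29 cc349

theorem dcs26d0_31 : DerTo cs26 cs26d0 652 :=
  DerTo.step (lo := 622) (c := 30) dcs26d0_30 cc350

theorem dcs26d0_32 : DerTo cs26 cs26d0 662 :=
  DerTo.step (lo := 652) (c := 10) dcs26d0_31 cc351

theorem dcs26d0_33 : DerTo cs26 cs26d0 673 :=
  DerTo.step (lo := 662) (c := 11) dcs26d0_32 cc352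

theorem dcs26d0_34 : DerTo cs26 cs26d0 680 :=
  DerTo.step (lo := 673) (c := 7) dcs26d0_33 cc353

theorem dcs26d0_35 : DerTo cs26 cs26d0 690 :=
  DerTo.step (lo := 680) (c := 10) dcs26d0_34 cc354

theorem dcs26d0_36 : DerTo cs26 cs26d0 709 :=
  DerTo.step (lo := 690) (c := 19) dcs26d0_35 cc355

theorem dcs26d0_37 : DerTo cs26 cs26d0 726 :=
  DerTo.step (lo := 709) (c := 17) dcs26d0_36 cc356

theorem dcs26d0_38 : DerTo cs26 cs26d0 741 :=
  DerTo.step (lo := 726) (c := 15) dcs26d0_37 cc357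

theorem dcs26d0_39 : DerTo cs26 cs26d0 757 :=
  DerTo.step (lo := 741) (c := 16) dcs26d0_38 cc358

theorem dcs26d0_40 : DerTo cs26 cs26d0 772 :=
  DerTo.step (lo := 757) (c := 15) dcs26d0_39 cc359

theorem dcs26d0_41 : DerTo cs26 cs26d0 793 :=
  DerTo.step (lo := 772) (c := 21) dcs26d0_40 cc360

theorem dcs26d0_42 : DerTo cs26 cs26d0 814 :=
  DerTo.step (lo := 793) (c := 21) dcs26d0_41 cc361

theorem dcs26d0_43 : DerTo cs26 cs26d0 830 :=
  DerTo.step (lo := 814) (c := 16) dcs26d0_42 cc362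

theorem dcs26d0_44 : DerTo cs26 cs26d0 854 :=
  DerTo.step (lo := 830) (c := 24) dcs26d0_43 cc363

theorem dcs26d0_45 : DerTo cs26 cs26d0 871 :=
  DerTo.step (lo := 854) (c := 17) dcs26d0_44 cc364

theorem dcs26d0_46 : DerTo cs26 cs26d0 885 :=
  DerTo.step (lo := 871) (c := 14) dcs26d0_45 cc365

theorem dcs26d0_47 : DerTo cs26 cs26d0 901 :=
  DerTo.step (lo := 885) (c := 16) dcs26d0_46 cc366

theorem dcs26d0_48 : DerTo cs26 cs26d0 913 :=
  DerTo.step (lo := 901) (c := 12) dcs26d0_47 cc367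

theorem dcs26d0_49 : DerTo cs26 cs26d0 936 :=
  DerTo.step (lo := 913) (c := 23) dcs26d0_48 cc368

theorem dcs26d0_50 : DerTo cs26 cs26d0 962 :=
  DerTo.step (lo := 936) (c := 26) dcs26d0_49 cc369

theorem dcs26d0_51 : DerTo cs26 cs26d0 989 :=
  DerTo.step (lo := 962) (c := 27) dcs26d0_50 cc370

theorem dcs26d0_52 : DerTo cs26 cs26d0 1011 :=
  DerTo.step (lo := 989) (c := 22) dcs26d0_51 cc371

theorem dcs26d0_53 : DerTo cs26 cs26d0 1035 :=
  DerTo.step (lo := 1011) (c := 24) dcs26d0_52 cc372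

theorem dcs26d0_54 : DerTo cs26 cs26d0 1058 :=
  DerTo.step (lo := 1035) (c := 23) dcs26d0_53 cc373

theorem dcs26d0_55 : DerTo cs26 cs26d0 1079 :=
  DerTo.step (lo := 1058) (c := 21) dcs26d0_54 cc374

theorem dcs26d0_56 : DerTo cs26 cs26d0 1090 :=
  DerTo.step (lo := 1079) (c := 11) dcs26d0_55 cc375

theorem dcs26d0_57 : DerTo cs26 cs26d0 1105 :=
  DerTo.step (lo := 1090) (c := 15) dcs26d0_56 cc376

theorem dcs26d0_58 : DerTo cs26 cs26d0 1119 :=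
  DerTo.step (lo := 1105) (c := 14) dcs26d0_57 cc377

theorem dcs26d0_59 : DerTo cs26 cs26d0 1134 :=
  DerTo.step (lo := 1119) (c := 15) dcs26d0_58 cc378

theorem dcs26d0_60 : DerTo cs26 cs26d0 1144 :=
  DerTo.step (lo := 1134) (c := 10) dcs26d0_59 cc379

theorem dcs26d0_61 : DerTo cs26 cs26d0 1157 :=
  DerTo.step (lo := 1144) (c := 13) dcs26d0_60 cc380

theorem dcs26d0_62 : DerTo cs26 cs26d0 1165 :=
  DerTo.step (lo := 1157) (c := 8) dcs26d0_61 cc381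

theorem dcs26d0_63 : DerTo cs26 cs26d0 1180 :=
  DerTo.step (lo := 1165) (c := 15) dcs26d0_62 cc382

theorem dcs26d0_64 : DerTo cs26 cs26d0 1195 :=
  DerTo.step (lo := 1180) (c := 15) dcs26d0_63 cc383

theorem dcs26d0_65 : DerTo cs26 cs26d0 1202 :=
  DerTo.step (lo := 1195) (c := 7) dcs26d0_64 cc384

theorem dcs26d0_66 : DerTo cs26 cs26d0 1217 :=
  DerTo.step (lo := 1202) (c := 15) dcs26d0_65 cc385

theorem dcs26d0_67 : DerTo cs26 cs26d0 1225 :=
  DerTo.step (lo := 1217) (c := 8) dcs26d0_66 cc386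

theorem dcs26d0_68 : DerTo cs26 cs26d0 1238 :=
  DerTo.step (lo := 1225) (c := 13) dcs26d0_67 cc387

theorem dcs26d0_69 : DerTo cs26 cs26d0 1247 :=
  DerTo.step (lo := 1238) (c := 9) dcs26d0_68 cc388

theorem dcs26d0_70 : DerTo cs26 cs26d0 1265 :=
  DerTo.step (lo := 1247) (c := 18) dcs26d0_69 cc389

theorem dcs26d0_71 : DerTo cs26 cs26d0 1286 :=
  DerTo.step (lo := 1265) (c := 21) dcs26d0_70 cc390

theorem dcs26d0_72 : DerTo cs26 cs26d0 1303 :=
  DerTo.step (lo := 1286) (c := 17) dcs26d0_71 cc391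

theorem dcs26d0_73 : DerTo cs26 cs26d0 1327 :=
  DerTo.step (lo := 1303) (c := 24) dcs26d0_72 cc392

theorem dcs26d0_74 : DerTo cs26 cs26d0 1338 :=
  DerTo.step (lo := 1327) (c := 11) dcs26d0_73 cc393

theorem dcs26d0_75 : DerTo cs26 cs26d0 1349 :=
  DerTo.step (lo := 1338) (c := 11) dcs26d0_74 cc394

theorem dcs26d0_76 : DerTo cs26 cs26d0 1359 :=
  DerTo.step (lo := 1349) (c := 10) dcs26d0_75 cc395

theorem dcs26d0_77 : DerTo cs26 cs26d0 1367 :=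
  DerTo.step (lo := 1359) (c := 8) dcs26d0_76 cc396

theorem dcs26d0_78 : DerTo cs26 cs26d0 1374 :=
  DerTo.step (lo := 1367) (c := 7) dcs26d0_77 cc397

theorem dcs26d0_79 : DerTo cs26 cs26d0 1396 :=
  DerTo.step (lo := 1374) (c := 22) dcs26d0_78 cc398

theorem dcs26d0_80 : DerTo cs26 cs26d0 1420 :=
  DerTo.step (lo := 1396) (c := 24) dcs26d0_79 cc399

theorem dcs26d0_81 : DerTo cs26 cs26d0 1439 :=
  DerTo.step (lo := 1420) (c := 19) dcs26d0_80 cc400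

theorem dcs26d0_82 : DerTo cs26 cs26d0 1452 :=
  DerTo.step (lo := 1439) (c := 13) dcs26d0_81 cc401

theorem dcs26d0 : Der cs26 cs26d0 := DerTo.fin dcs26d0_82 cc402

theorem cg103 (H : Bd [pK4, pW4, pGem, pP23]) : Good cs25_0 cl91 1047210 cm104 :=
  good_flag cc142 (good_der dcs26d0 (cg104 H))

theorem dcs25d0_0 : DerTo cs25 cs25d0 6 :=
  DerTo.step (lo := 0) (c := 6) (DerTo.zero _ _) cc403

theorem dcs25d0 : Der cs25 cs25d0 := DerTo.fin dcs25d0_0 cc404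

theorem cg102 (H : Bd [pK4, pW4, pGem, pP23]) : Good cs24_0 cl91 1047210 cm104 :=
  good_flag cc141 (good_der dcs25d0 (cg103 H))

theorem dcs24d0_0 : DerTo cs24 cs24d0 6 :=
  DerTo.step (lo := 0) (c := 6) (DerTo.zero _ _) cc405

theorem dcs24d0 : Der cs24 cs24d0 := DerTo.fin dcs24d0_0 cc406

theorem cg101 (H : Bd [pK4, pW4, pGem, pP23]) : Good cs23_0 cl91 1047210 cm104 :=
  good_flag cc140 (good_der dcs24d0 (cg102 H))

theorem dcs23d0_0 : DerTo cs23 cs23d0 7 :=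
  DerTo.step (lo := 0) (c := 7) (DerTo.zero _ _) cc407

theorem dcs23d0 : Der cs23 cs23d0 := DerTo.fin dcs23d0_0 cc408

theorem cg100 (H : Bd [pK4, pW4, pGem, pP23]) : Good cs22_0 cl91 1047210 cm104 :=
  good_flag cc139 (good_der dcs23d0 (cg101 H))

theorem dcs22d0_0 : DerTo cs22 cs22d0 7 :=
  DerTo.step (lo := 0) (c := 7) (DerTo.zero _ _) cc409

theorem dcs22d0 : Der cs22 cs22d0 := DerTo.fin dcs22d0_0 cc410

theorem cg99 (H : Bd [pK4, pW4, pGem, pP23]) : Good cs21_0 cl91 1047210 cm104 :=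
  good_flag cc138 (good_der dcs22d0 (cg100 H))

theorem cg98 (H : Bd [pK4, pW4, pGem, pP23]) : Good cs21_0 cl91 1048234 cm104 :=
  good_pen cc411 (cg99 H)

theorem cg97 (H : Bd [pK4, pW4, pGem, pP23]) : Good cs21_0 cl91 1048490 cm104 :=
  good_pen cc412 (cg98 H)

theorem cg96 (H : Bd [pK4, pW4, pGem, pP23]) : Good cs21_0 cl91 1048554 cm104 :=
  good_pen cc413 (cg97 H)

theorem cg95 (H : Bd [pK4, pW4, pGem, pP23]) : Good cs21_0 cl91 1048570 cm104 :=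
  good_pen cc414 (cg96 H)

theorem cg94 (H : Bd [pK4, pW4, pGem, pP23]) : Good cs21_0 cl91 1048574 cm104 :=
  good_pen cc415 (cg95 H)

theorem cg93 (H : Bd [pK4, pW4, pGem, pP23]) : Good cs21_0 cl91 1048575 cm104 :=
  good_pen cc416 (cg94 H)

theorem cg183 (H : Bd [pK4, pW4, pGem, pP23]) : Good cs21_0 (pk 256 [0x1]) 1 0x1 :=
  good_clo bd_P4 cc417

theorem cg182 (H : Bd [pK4, pW4, pGem, pP23]) : Good cs21_0 cl91 655360 cm105 :=
  good_cov cc418 (cg183 H)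

theorem cg82 (H : Bd [pK4, pW4, pGem, pP23]) : Good cs21_0 cl91 1048575 cm90 :=
  good_mach caa82 ct82_11 cc419
    (AllGood.cons (cg83 H) (AllGood.cons (cg84 H) (AllGood.cons (cg85 H) (AllGood.cons (cg86 H) (AllGood.cons (cg87 H) (AllGood.cons (cg88 H) (AllGood.cons (cg89 H) (AllGood.cons (cg90 H) (AllGood.cons (cg91 H) (AllGood.cons (cg93 H) (AllGood.cons (cg182 H) (AllGood.nil _ _))))))))))))

theorem cg81 (H : Bd [pK4, pW4, pGem, pP23]) : Good cs21_0 cl78 83918 cm84 :=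
  good_cov cc420 (cg82 H)

theorem dcs21d0_0 : DerTo cs21 cs21d0 36 :=
  DerTo.step (lo := 0) (c := 36) (DerTo.zero _ _) cc421

theorem dcs21d0_1 : DerTo cs21 cs21d0 67 :=
  DerTo.step (lo := 36) (c := 31) dcs21d0_0 cc422

theorem dcs21d0_2 : DerTo cs21 cs21d0 101 :=
  DerTo.step (lo := 67) (c := 34) dcs21d0_1 cc423

theorem dcs21d0_3 : DerTo cs21 cs21d0 132 :=
  DerTo.step (lo := 101) (c := 31) dcs21d0_2 cc424

theorem dcs21d0_4 : DerTo cs21 cs21d0 160 :=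
  DerTo.step (lo := 132) (c := 28) dcs21d0_3 cc425

theorem dcs21d0_5 : DerTo cs21 cs21d0 188 :=
  DerTo.step (lo := 160) (c := 28) dcs21d0_4 cc426

theorem dcs21d0_6 : DerTo cs21 cs21d0 209 :=
  DerTo.step (lo := 188) (c := 21) dcs21d0_5 cc427

theorem dcs21d0_7 : DerTo cs21 cs21d0 242 :=
  DerTo.step (lo := 209) (c := 33) dcs21d0_6 cc428

theorem dcs21d0_8 : DerTo cs21 cs21d0 272 :=
  DerTo.step (lo := 242) (c := 30) dcs21d0_7 cc429

theorem dcs21d0_9 : DerTo cs21 cs21d0 285 :=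
  DerTo.step (lo := 272) (c := 13) dcs21d0_8 cc430

theorem dcs21d0 : Der cs21 cs21d0 := DerTo.fin dcs21d0_9 cc431

theorem cg80 (H : Bd [pK4, pW4, pGem, pP23]) : Good cs20_0 cl78 83918 cm84 :=
  good_flag cc117 (good_der dcs21d0 (cg81 H))

theorem dcs20d0_0 : DerTo cs20 cs20d0 4 :=
  DerTo.step (lo := 0) (c := 4) (DerTo.zero _ _) cc432

theorem dcs20d0 : Der cs20 cs20d0 := DerTo.fin dcs20d0_0 cc433

theorem cg79 (H : Bd [pK4, pW4, pGem, pP23]) : Good cs19_0 cl78 83918 cm84 :=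
  good_flag cc116 (good_der dcs20d0 (cg80 H))

theorem dcs19d0_0 : DerTo cs19 cs19d0 4 :=
  DerTo.step (lo := 0) (c := 4) (DerTo.zero _ _) cc434

theorem dcs19d0 : Der cs19 cs19d0 := DerTo.fin dcs19d0_0 cc435

theorem cg78 (H : Bd [pK4, pW4, pGem, pP23]) : Good cs18_0 cl78 83918 cm84 :=
  good_flag cc115 (good_der dcs19d0 (cg79 H))

theorem dcs18d0_0 : DerTo cs18 cs18d0 5 :=
  DerTo.step (lo := 0) (c := 5) (DerTo.zero _ _) cc436

theorem dcs18d0 : Der cs18 cs18d0 := DerTo.fin dcs18d0_0 cc437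

theorem cg77 (H : Bd [pK4, pW4, pGem, pP23]) : Good cs17_0 cl78 83918 cm84 :=
  good_flag cc114 (good_der dcs18d0 (cg78 H))

theorem dcs17d0_0 : DerTo cs17 cs17d0 5 :=
  DerTo.step (lo := 0) (c := 5) (DerTo.zero _ _) cc438

theorem dcs17d0 : Der cs17 cs17d0 := DerTo.fin dcs17d0_0 cc439

theorem cg76 (H : Bd [pK4, pW4, pGem, pP23]) : Good cs16_0 cl78 83918 cm84 :=
  good_flag cc113 (good_der dcs17d0 (cg77 H))

theorem cg67 (H : Bd [pK4, pW4, pGem, pP23]) : Good cs16_0 cl78 131071 cm77 :=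
  good_mach caa67 ct67_1 cc440
    (AllGood.cons (cg68 H) (AllGood.cons (cg70 H) (AllGood.cons (cg76 H) (AllGood.nil _ _))))

theorem cg66 (H : Bd [pK4, pW4, pGem, pP23]) : Good cs16_0 cl66 31231 cm76 :=
  good_cov cc441 (cg67 H)

theorem dcs16d0_0 : DerTo cs16 cs16d0 26 :=
  DerTo.step (lo := 0) (c := 26) (DerTo.zero _ _) cc442

theorem dcs16d0 : Der cs16 cs16d0 := DerTo.fin dcs16d0_0 cc443

theorem cg65 (H : Bd [pK4, pW4, pGem, pP23]) : Good cs15_0 cl66 31231 cm76 :=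
  good_flag cc99 (good_der dcs16d0 (cg66 H))

theorem dcs15d0_0 : DerTo cs15 cs15d0 8 :=
  DerTo.step (lo := 0) (c := 8) (DerTo.zero _ _) cc444

theorem dcs15d0 : Der cs15 cs15d0 := DerTo.fin dcs15d0_0 cc445

theorem cg64 (H : Bd [pK4, pW4, pGem, pP23]) : Good cs14_0 cl66 31231 cm76 :=
  good_flag cc98 (good_der dcs15d0 (cg65 H))

theorem dcs14d0_0 : DerTo cs14 cs14d0 6 :=
  DerTo.step (lo := 0) (c := 6) (DerTo.zero _ _) cc446

theorem dcs14d0 : Der cs14 cs14d0 := DerTo.fin dcs14d0_0 cc447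

theorem cg63 (H : Bd [pK4, pW4, pGem, pP23]) : Good cs13_0 cl66 31231 cm76 :=
  good_flag cc97 (good_der dcs14d0 (cg64 H))

theorem dcs13d0_0 : DerTo cs13 cs13d0 5 :=
  DerTo.step (lo := 0) (c := 5) (DerTo.zero _ _) cc448

theorem dcs13d0 : Der cs13 cs13d0 := DerTo.fin dcs13d0_0 cc449

theorem cg62 (H : Bd [pK4, pW4, pGem, pP23]) : Good cs12_0 cl66 31231 cm76 :=
  good_flag cc96 (good_der dcs13d0 (cg63 H))

theorem dcs12d0_0 : DerTo cs12 cs12d0 10 :=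
  DerTo.step (lo := 0) (c := 10) (DerTo.zero _ _) cc450

theorem dcs12d0 : Der cs12 cs12d0 := DerTo.fin dcs12d0_0 cc451

theorem cg61 (H : Bd [pK4, pW4, pGem, pP23]) : Good cs11_0 cl66 31231 cm76 :=
  good_flag cc95 (good_der dcs12d0 (cg62 H))

theorem dcs11d0_0 : DerTo cs11 cs11d0 7 :=
  DerTo.step (lo := 0) (c := 7) (DerTo.zero _ _) cc452

theorem dcs11d0 : Der cs11 cs11d0 := DerTo.fin dcs11d0_0 cc453

theorem cg60 (H : Bd [pK4, pW4, pGem, pP23]) : Good cs10_0 cl66 31231 cm76 :=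
  good_flag cc94 (good_der dcs11d0 (cg61 H))

theorem cg57 (H : Bd [pK4, pW4, pGem, pP23]) : Good cs10_0 cl66 31231 cm71 :=
  good_mach caa57 ct57_3 cc454
    (AllGood.cons (cg58 H) (AllGood.cons (cg59 H) (AllGood.cons (cg60 H) (AllGood.nil _ _))))

theorem cg56 (H : Bd [pK4, pW4, pGem, pP23]) : Good cs10_0 cl66 32255 cm71 :=
  good_pen cc455 (cg57 H)

theorem cg55 (H : Bd [pK4, pW4, pGem, pP23]) : Good cs10_0 cl66 32767 cm71 :=
  good_pen cc456 (cg56 H)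

theorem cg52 (H : Bd [pK4, pW4, pGem, pP23]) : Good cs10_0 cl66 32767 cm65 :=
  good_mach caa52 ct52_1 cc457
    (AllGood.cons (cg53 H) (AllGood.cons (cg55 H) (AllGood.nil _ _)))

theorem cg51 (H : Bd [pK4, pW4, pGem, pP23]) : Good cs10_0 cl2 29474863 cm33 :=
  good_cov cc458 (cg52 H)

theorem dcs10d0_0 : DerTo cs10 cs10d0 21 :=
  DerTo.step (lo := 0) (c := 21) (DerTo.zero _ _) cc459

theorem dcs10d0 : Der cs10 cs10d0 := DerTo.fin dcs10d0_0 cc460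

theorem cg50 (H : Bd [pK4, pW4, pGem, pP23]) : Good cs9_0 cl2 29474863 cm33 :=
  good_flag cc84 (good_der dcs10d0 (cg51 H))

theorem dcs9d0_0 : DerTo cs9 cs9d0 8 :=
  DerTo.step (lo := 0) (c := 8) (DerTo.zero _ _) cc461

theorem dcs9d0 : Der cs9 cs9d0 := DerTo.fin dcs9d0_0 cc462

theorem cg49 (H : Bd [pK4, pW4, pGem, pP23]) : Good cs8_0 cl2 29474863 cm33 :=
  good_flag cc83 (good_der dcs9d0 (cg50 H))

theorem dcs8d0_0 : DerTo cs8 cs8d0 4 :=
  DerTo.step (lo := 0) (c := 4) (DerTo.zero _ _) cc463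

theorem dcs8d0 : Der cs8 cs8d0 := DerTo.fin dcs8d0_0 cc464

theorem cg48 (H : Bd [pK4, pW4, pGem, pP23]) : Good cs7_0 cl2 29474863 cm33 :=
  good_flag cc82 (good_der dcs8d0 (cg49 H))

theorem dcs7d0_0 : DerTo cs7 cs7d0 5 :=
  DerTo.step (lo := 0) (c := 5) (DerTo.zero _ _) cc465

theorem dcs7d0 : Der cs7 cs7d0 := DerTo.fin dcs7d0_0 cc466

theorem cg47 (H : Bd [pK4, pW4, pGem, pP23]) : Good cs6_0 cl2 29474863 cm33 :=
  good_flag cc81 (good_der dcs7d0 (cg48 H))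

theorem dcs6d0_0 : DerTo cs6 cs6d0 8 :=
  DerTo.step (lo := 0) (c := 8) (DerTo.zero _ _) cc467

theorem dcs6d0 : Der cs6 cs6d0 := DerTo.fin dcs6d0_0 cc468

theorem cg46 (H : Bd [pK4, pW4, pGem, pP23]) : Good cs5_0 cl2 29474863 cm33 :=
  good_flag cc80 (good_der dcs6d0 (cg47 H))

theorem dcs5d0_0 : DerTo cs5 cs5d0 20 :=
  DerTo.step (lo := 0) (c := 20) (DerTo.zero _ _) cc469

theorem dcs5d0 : Der cs5 cs5d0 := DerTo.fin dcs5d0_0 cc470

theorem cg45 (H : Bd [pK4, pW4, pGem, pP23]) : Good cs4_0 cl2 29474863 cm33 :=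
  good_flag cc79 (good_der dcs5d0 (cg46 H))

theorem cg185 (H : Bd [pK4, pW4, pGem, pP23]) : Good cs4_0 (pk 256 [0x4]) 1 0x1 :=
  good_clo bd_P4 cc471

theorem cg184 (H : Bd [pK4, pW4, pGem, pP23]) : Good cs4_0 cl2 562950020530176 cm34 :=
  good_cov cc472 (cg185 H)

theorem dcs4d0_0 : DerTo cs4 cs4d0 119 :=
  DerTo.step (lo := 0) (c := 119) (DerTo.zero _ _) cc473

theorem dcs4d0_1 : DerTo cs4 cs4d0 425 :=
  DerTo.step (lo := 119) (c := 306) dcs4d0_0 cc474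

theorem dcs4d0 : Der cs4 cs4d0 := DerTo.fin dcs4d0_1 cc475

theorem cu45 (H : Bd [pK4, pW4, pGem, pP23]) : Good cs4 cl2 29474863 cm33 :=
  (good_der dcs4d0 (cg45 H))

theorem cv186 (H : Bd [pK4, pW4, pGem, pP23]) : Good cs4_0 cl196 29474863 cm33 :=
  (good_up (σ := cs4) (t := cs4d0) (good_sym cc476 cc477 (cu45 H)))

theorem cg186 (H : Bd [pK4, pW4, pGem, pP23]) : Good cs4_0 cl2 469769263 cm35 :=
  good_cov cc478 (cv186 H)

theorem cg188 (H : Bd [pK4, pW4, pGem, pP23]) : Good cs4_0 (pk 256 [0x1]) 1 0x1 :=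
  good_clo bd_P4 cc479

theorem cg187 (H : Bd [pK4, pW4, pGem, pP23]) : Good cs4_0 cl2 9663676416 cm36 :=
  good_cov cc480 (cg188 H)

theorem cg189 (H : Bd [pK4, pW4, pGem, pP23]) : Good cs4_0 cl2 7516192808 cm37 :=
  good_clo H cc481

theorem cg191 (H : Bd [pK4, pW4, pGem, pP23]) : Good cs4_0 (pk 256 [0x1]) 1 0x1 :=
  good_clo bd_P4 cc482

theorem cg190 (H : Bd [pK4, pW4, pGem, pP23]) : Good cs4_0 cl2 562957469614080 cm38 :=
  good_cov cc483 (cg191 H)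

theorem cg193 (H : Bd [pK4, pW4, pGem, pP23]) : Good cs4_0 (pk 256 [0x10]) 1 0x1 :=
  good_clo bd_P4 cc484

theorem cg192 (H : Bd [pK4, pW4, pGem, pP23]) : Good cs4_0 cl2 562967133290496 cm39 :=
  good_cov cc485 (cg193 H)

theorem cv194 (H : Bd [pK4, pW4, pGem, pP23]) : Good cs4_0 cl201 29474863 cm33 :=
  (good_up (σ := cs4) (t := cs4d0) (good_sym cc486 cc487 (cu45 H)))

theorem cg194 (H : Bd [pK4, pW4, pGem, pP23]) : Good cs4_0 cl2 120259084783 cm40 :=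
  good_cov cc488 (cv194 H)

theorem cg196 (H : Bd [pK4, pW4, pGem, pP23]) : Good cs4_0 (pk 256 [0x1]) 1 0x1 :=
  good_clo bd_P4 cc489

theorem cg195 (H : Bd [pK4, pW4, pGem, pP23]) : Good cs4_0 cl2 2473901162496 cm41 :=
  good_cov cc490 (cg196 H)

theorem cg197 (H : Bd [pK4, pW4, pGem, pP23]) : Good cs4_0 cl2 1924145348644 cm42 :=
  good_clo H cc491

theorem cg199 (H : Bd [pK4, pW4, pGem, pP23]) : Good cs4_0 (pk 256 [0x1]) 1 0x1 :=
  good_clo bd_P4 cc492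

theorem cg198 (H : Bd [pK4, pW4, pGem, pP23]) : Good cs4_0 cl2 564874098769920 cm43 :=
  good_cov cc493 (cg199 H)

theorem cg201 (H : Bd [pK4, pW4, pGem, pP23]) : Good cs4_0 (pk 256 [0x4]) 1 0x1 :=
  good_clo bd_P4 cc494

theorem cg200 (H : Bd [pK4, pW4, pGem, pP23]) : Good cs4_0 cl2 39582418599936 cm44 :=
  good_cov cc495 (cg201 H)

theorem cg202 (H : Bd [pK4, pW4, pGem, pP23]) : Good cs4_0 cl2 30786325577762 cm45 :=
  good_clo H cc496

theorem cg204 (H : Bd [pK4, pW4, pGem, pP23]) : Good cs4_0 (pk 256 [0x4]) 1 0x1 :=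
  good_clo bd_P4 cc497

theorem cg203 (H : Bd [pK4, pW4, pGem, pP23]) : Good cs4_0 cl2 593736278999040 cm46 :=
  good_cov cc498 (cg204 H)

theorem cg206 (H : Bd [pK4, pW4, pGem, pP23]) : Good cs4_0 (pk 256 [0x1]) 1 0x1 :=
  good_clo bd_P4 cc499

theorem cg205 (H : Bd [pK4, pW4, pGem, pP23]) : Good cs4_0 cl2 633318697598976 cm47 :=
  good_cov cc500 (cg206 H)

theorem cg207 (H : Bd [pK4, pW4, pGem, pP23]) : Good cs4_0 cl2 492581209243680 cm48 :=
  good_clo H cc501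

theorem cg7 (H : Bd [pK4, pW4, pGem, pP23]) : Good cs4_0 cl2 1125761897324031 cm3 :=
  good_mach caa7 ct7_47 cc502
    (AllGood.cons (cg8 H) (AllGood.cons (cg9 H) (AllGood.cons (cg10 H) (AllGood.cons (cg11 H) (AllGood.cons (cg12 H) (AllGood.cons (cg14 H) (AllGood.cons (cg15 H) (AllGood.cons (cg16 H) (AllGood.cons (cg17 H) (AllGood.cons (cg19 H) (AllGood.cons (cg20 H) (AllGood.cons (cg21 H) (AllGood.cons (cg23 H) (AllGood.cons (cg24 H) (AllGood.cons (cg26 H) (AllGood.cons (cg27 H) (AllGood.cons (cg28 H) (AllGood.cons (cg29 H) (AllGood.cons (cg30 H) (AllGood.cons (cg31 H) (AllGood.cons (cg32 H) (AllGood.cons (cg34 H) (AllGood.cons (cg36 H) (AllGood.cons (cg38 H) (AllGood.cons (cg40 H) (AllGood.cons (cg41 H) (AllGood.cons (cg43 H) (AllGood.cons (cg45 H) (AllGood.cons (cg184 H) (AllGood.cons (cg186 H) (AllGood.cons (cg187 H) (AllGood.cons (cg189 H) (AllGood.cons (cg190 H) (AllGood.cons (cg192 H)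 (AllGood.cons (cg194 H) (AllGood.cons (cg195 H) (AllGood.cons (cg197 H) (AllGood.cons (cg198 H) (AllGood.cons (cg200 H) (AllGood.cons (cg202 H) (AllGood.cons (cg203 H) (AllGood.cons (cg205 H) (AllGood.cons (cg207 H) (AllGood.nil _ _))))))))))))))))))))))))))))))))))))))))))))

theorem cg6 (H : Bd [pK4, pW4, pGem, pP23]) : Good cs4_0 cl2 1125761897324031 cm1 :=
  good_drop (rt_mono cr1_1 (by decide +kernel)) cc503 (cg7 H)

theorem cg5 (H : Bd [pK4, pW4, pGem, pP23]) : Good cs4_0 cl2 1125899906842623 cm1 :=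
  good_sml cc504 (cg6 H)

theorem cg4 (H : Bd [pK4, pW4, pGem, pP23]) : Good cs4_0 0 1 1 :=
  good_cov cc505 (cg5 H)

theorem cg3 (H : Bd [pK4, pW4, pGem, pP23]) : Good cs3 0 1 1 :=
  good_flag cc3 (good_der dcs4d0 (cg4 H))

theorem cg2 (H : Bd [pK4, pW4, pGem, pP23]) : Good cs2 0 1 1 :=
  good_flag cc2 (cg3 H)

theorem cg1 (H : Bd [pK4, pW4, pGem, pP23]) : Good cs1 0 1 1 :=
  good_ori cc1 (cg2 H)

theorem cg0 (H : Bd [pK4, pW4, pGem, pP23]) : Good cs0 0 1 1 :=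
  good_flag cc0 (cg1 H)

theorem stage_k4 (H : Bd [pK4, pW4, pGem, pP23]) : Bd [pW4, pGem, pP23] :=
  bd_stage (t := ctP) (n0 := 4) (c0 := cc00) H (by simp) (by simp) kills (by decide +kernel) (cg0 H)

end

end Pool.Agent.Lib.MP_1595d8_lc
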