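import Mathlib

/-!
The gem, the graph `P₂ + P₃`, and adjacency matrices.
-/

namespace Pool.Agent.Lib.MP_1595d8_lc

/-- The gem: the path `0, 1, 2, 3` and the vertex `4` adjacent to all four vertices of the path. -/
def gem : SimpleGraph (Fin 5) :=
  SimpleGraph.fromEdgeSet {s(0, 1), s(1, 2), s(2, 3), s(0, 4), s(1, 4), s(2, 4), s(3, 4)}

/-- The graph `P₂ + P₃`: the edge `0, 1` and the path `2, 3, 4`. -/
def P2P3 : SimpleGraph (Fin 5) :=
  SimpleGraph.fromEdgeSet {s(0, 1), s(2, 3), s(3, 4)}

open Classical in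
/-- The adjacency matrix of a graph on `Fin n`, as a list of rows. -/
noncomputable def adjM {n : ℕ} (G : SimpleGraph (Fin n)) : List (List Bool) :=
  List.ofFn fun i => List.ofFn fun j => decide (G.Adj i j)

end Pool.Agent.Lib.MP_1595d8_lc
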