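import Mathlib
import Pool.Agent.Lib.MP_1595d8_lc.H89Sem

/-!
The splitting argument for masked graphs.
-/

namespace Pool.Agent.Lib.MP_1595d8_lc

open Finset Pool.Agent.Lib.MP_042ec1_co

theorem mach_seq {α : Type} (l : List α) (hl : l.length = 6) :
    ∃ t : ℕ → α, (∀ i < 6, t i ∈ l) ∧
      ∀ R : α → α → Prop, l.Pairwise R → ∀ i j, i < j → j < 6 → R (t i) (t j) := by
  refine ⟨fun i => l[min i 5]'(by omega), fun i _ => List.getElem_mem _, fun R hR i j hij hj => ?_⟩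
  exact List.pairwise_iff_getElem.1 hR _ _ _ _ (by omega)

theorem mach_inj {V : Type} {G : SimpleGraph V} {x y : ℕ → V} {p : Pat} (hp : nc p = true)
    (h : ∀ i < 5, ∀ j < 5, (G.Adj (x i) (y j) ↔ rel p i j = true)) :
    ∀ i < 5, ∀ j < i, x j ≠ x i ∧ y j ≠ y i := by
  intro i hi j hj
  have h1 := h i hi i hi
  have h2 := h i hi j (by omega)
  have h3 := h j (by omega) i hi
  have h4 := h j (by omega) j (by omega)
  obtain ⟨p1, p2, p3⟩ := p
  simp only [rel, lt_irrefl, if_false, if_true, hj, hj.not_gt, hj.ne'] at h1 h2 h3 h4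
  constructor
  · intro e
    rw [e] at h3 h4
    have e1 := h1.symm.trans h3
    have e2 := h2.symm.trans h4
    revert hp e1 e2
    cases p1 <;> cases p2 <;> cases p3 <;> simp [nc]
  · intro e
    rw [e] at h2 h4
    have e1 := h1.symm.trans h2
    have e2 := h3.symm.trans h4
    revert hp e1 e2
    cases p1 <;> cases p2 <;> cases p3 <;> simp [nc]

theorem mach_pat : ∃ N : ℕ, ∀ (V : Type) (G : SimpleGraph V) (A : Finset V) (PY PZ : V → Prop),
    N ≤ A.card → (∀ a ∈ A, ∀ b ∈ A, a ≠ b → ∃ y, PY y ∧ ¬ (G.Adj a y ↔ G.Adj b y)) →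
      (∀ a ∈ A, ∀ b ∈ A, a ≠ b → ∃ z, PZ z ∧ ¬ (G.Adj a z ↔ G.Adj b z)) →
        HasPat3 G (· ∈ A) PY PZ := by
  classical
  obtain ⟨N₃, h₃⟩ := ramsey (Pat × Pat × Pat) 6
  obtain ⟨N₂, h₂⟩ := extract N₃
  obtain ⟨N₁, h₁⟩ := extract N₂
  refine ⟨N₁, fun V G A PY PZ hA hY hZ => ?_⟩
  obtain ⟨l₁, e₁, m₁, p₁⟩ := h₁ V V G.Adj PY A hA hY
  have hnd : l₁.Nodup := p₁.imp fun {p q} h e => h (by rw [e])
  let D : V × V → V × V → Prop := fun p q =>
    ¬ (G.Adj q.1 p.2 ↔ G.Adj p.1 p.2) ∨ ¬ (G.Adj p.1 q.2 ↔ G.Adj q.1 q.2)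
  have hD : ∀ p ∈ l₁, ∀ q ∈ l₁, p ≠ q → D p q := by
    have : l₁.Pairwise D := p₁.imp fun h => Or.inl h
    intro p hp q hq hne
    have hs : Std.Symm D := ⟨fun _ _ h => Or.symm h⟩
    exact this.forall hp hq hne
  obtain ⟨l₂, e₂, m₂, p₂⟩ := h₂ (V × V) V (fun p z => G.Adj p.1 z) PZ l₁.toFinset
    (by rw [List.toFinset_card_of_nodup hnd, e₁]) (by
      intro p hp q hq hne
      rw [List.mem_toFinset] at hp hq
      refine hZ _ (m₁ p hp).1 _ (m₁ q hq).1 fun e => ?_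
      have := hD p hp q hq hne
      simp [D, e] at this)
  let b : V → V → Bool := fun u v => decide (G.Adj u v)
  obtain ⟨⟨p, q, r⟩, l₃, s₃, e₃, p₃⟩ := h₃ ((V × V) × V) (fun s t =>
    ((b s.1.1 t.1.2, b s.1.1 s.1.2, b t.1.1 s.1.2), (b s.1.1 t.2, b s.1.1 s.2, b t.1.1 s.2),
      (b s.1.2 t.2, b s.1.2 s.2, b t.1.2 s.2))) l₂ e₂.ge
  obtain ⟨t, ht, hR⟩ := mach_seq l₃ e₃
  have hm : ∀ i < 6, (t i).1 ∈ l₁ ∧ PZ (t i).2 := fun i hi =>
    ⟨List.mem_toFinset.1 (m₂ _ (s₃.subset (ht i hi))).1, (m₂ _ (s₃.subset (ht i hi))).2⟩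
  have hc := hR _ p₃
  have hd := hR _ (p₂.sublist s₃) 0 1 (by norm_num) (by norm_num)
  have hb : ∀ u v c, b u v = c → (G.Adj u v ↔ c = true) := by
    rintro u v c rfl
    simp [b]
  have hrel : ∀ (f g : ℕ → V) (w : Pat),
      (∀ i j, i < j → j < 6 → (b (f i) (g j), b (f i) (g i), b (f j) (g i)) = w) →
      ∀ i < 5, ∀ j < 5, (G.Adj (f i) (g j) ↔ rel w i j = true) := by
    intro f g w hw i hi j hj
    apply hb
    unfold rel
    split_ifs with h1 h2
    · rw [← hw i j h1 (by omega)]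
    · rw [← hw i 5 hi (by omega), ← h2]
    · rw [← hw j i (by omega) (by omega)]
  have r1 := hrel (fun i => (t i).1.1) (fun i => (t i).1.2) p fun i j h1 h2 =>
    congrArg Prod.fst (hc i j h1 h2)
  have r2 := hrel (fun i => (t i).1.1) (fun i => (t i).2) q fun i j h1 h2 =>
    congrArg (fun w => w.2.1) (hc i j h1 h2)
  have r3 := hrel (fun i => (t i).1.2) (fun i => (t i).2) r fun i j h1 h2 =>
    congrArg (fun w => w.2.2) (hc i j h1 h2)
  have n1 : nc p = true := by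
    have hne : (t 0).1 ≠ (t 1).1 := fun e => hd (by rw [e])
    have := hD _ (hm 0 (by norm_num)).1 _ (hm 1 (by norm_num)).1 hne
    simp only [D] at this
    rw [r1 1 (by norm_num) 0 (by norm_num), r1 0 (by norm_num) 0 (by norm_num),
      r1 0 (by norm_num) 1 (by norm_num), r1 1 (by norm_num) 1 (by norm_num)] at this
    obtain ⟨p1, p2, p3⟩ := p
    revert this
    cases p1 <;> cases p2 <;> cases p3 <;> simp [nc, rel]
  have n2 : nc q = true := by
    rw [r2 1 (by norm_num) 0 (by norm_num), r2 0 (by norm_num) 0 (by norm_num)] at hd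
    obtain ⟨q1, q2, q3⟩ := q
    revert hd
    cases q1 <;> cases q2 <;> cases q3 <;> simp [nc, rel]
  refine ⟨fun i => (t i).1.1, fun i => (t i).1.2, fun i => (t i).2, p, q, r, n1, n2,
    fun i hi => ?_, fun i hi j hj => ?_, fun i hi j hj => ⟨r1 i hi j hj, r2 i hi j hj, r3 i hi j hj⟩⟩
  · have := hm i (by omega)
    exact ⟨(m₁ _ this.1).1, (m₁ _ this.1).2, this.2⟩
  · exact ⟨(mach_inj n1 r1 i hi j hj).1, (mach_inj n1 r1 i hi j hj).2, (mach_inj n2 r2 i hi j hj).2⟩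

theorem mach_two {V : Type} {G : SimpleGraph V} {PX PY PZ : V → Prop} (h : HasPat3 G PX PY PZ) :
    HasPat2 G PX PY := by
  obtain ⟨x, y, z, p, q, r, h1, -, h3, h4, h5⟩ := h
  exact ⟨x, y, p, h1, fun i hi => ⟨(h3 i hi).1, (h3 i hi).2.1⟩,
    fun i hi j hj => ⟨(h4 i hi j hj).1, (h4 i hi j hj).2.1⟩, fun i hi j hj => (h5 i hi j hj).1⟩

theorem mach_rep : ∃ N : ℕ, ∀ (V : Type) (G : SimpleGraph V) (U : Finset V) (PX PY PZ : V → Prop),
    (∀ x ∈ U, PX x) → ∃ A : Finset V, A.card ≤ N ∧ (¬ HasPat3 G PX PY PZ → ∀ x ∈ U, ∃ a ∈ A,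
      (∀ y, PY y → (G.Adj a y ↔ G.Adj x y)) ∨ ∀ y, PZ y → (G.Adj a y ↔ G.Adj x y)) := by
  classical
  obtain ⟨N, hN⟩ := mach_pat
  refine ⟨N, fun V G U PX PY PZ hU => ?_⟩
  by_cases hc : HasPat3 G PX PY PZ
  · exact ⟨∅, by simp, fun h => (h hc).elim⟩
  let same : (V → Prop) → V → V → Prop := fun Y a x => ∀ y, Y y → (G.Adj a y ↔ G.Adj x y)
  let 𝒜 := U.powerset.filter fun A => ∀ a ∈ A, ∀ b ∈ A, a ≠ b → ¬ same PY a b ∧ ¬ same PZ a b
  have h𝒜 : ∀ A, A ∈ 𝒜 ↔ A ⊆ U ∧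
      ∀ a ∈ A, ∀ b ∈ A, a ≠ b → ¬ same PY a b ∧ ¬ same PZ a b := by
    intro A
    simp only [𝒜, mem_filter, mem_powerset]
  obtain ⟨A, hA, hmax⟩ := exists_max_image 𝒜 card ⟨∅, by simp [𝒜]⟩
  obtain ⟨hA1, hA2⟩ := (h𝒜 A).1 hA
  refine ⟨A, ?_, fun _ x hx => ?_⟩
  · by_contra hlt
    apply hc
    obtain ⟨x, y, z, p, q, r, h1, h2, h3, h4⟩ := hN V G A PY PZ (not_le.1 hlt).le
      (fun a ha b hb hab => by
        have := (hA2 a ha b hb hab).1
        simp only [same, not_forall] at this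
        obtain ⟨y, h1, h2⟩ := this
        exact ⟨y, h1, h2⟩)
      (fun a ha b hb hab => by
        have := (hA2 a ha b hb hab).2
        simp only [same, not_forall] at this
        obtain ⟨y, h1, h2⟩ := this
        exact ⟨y, h1, h2⟩)
    exact ⟨x, y, z, p, q, r, h1, h2, fun i hi => ⟨hU _ (hA1 (h3 i hi).1), (h3 i hi).2⟩, h4⟩
  · by_contra hno
    have hno' : ∀ a ∈ A, ¬ same PY a x ∧ ¬ same PZ a x := fun a ha =>
      ⟨fun h => hno ⟨a, ha, Or.inl h⟩, fun h => hno ⟨a, ha, Or.inr h⟩⟩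
    have hxA : x ∉ A := fun h => (hno' x h).1 fun _ _ => Iff.rfl
    have hsy : ∀ Y a b, same Y a b → same Y b a := fun Y a b h y hy => (h y hy).symm
    have hins : insert x A ∈ 𝒜 := by
      refine (h𝒜 _).2 ⟨insert_subset hx hA1, ?_⟩
      intro a ha b hb hab
      rcases mem_insert.1 ha with rfl | ha' <;> rcases mem_insert.1 hb with rfl | hb'
      · exact (hab rfl).elim
      · exact ⟨fun h => (hno' b hb').1 (hsy _ _ _ h), fun h => (hno' b hb').2 (hsy _ _ _ h)⟩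
      · exact hno' a ha'
      · exact hA2 a ha' b hb' hab
    have := hmax _ hins
    rw [card_insert_of_notMem hxA] at this
    omega

theorem machine2 (n k₀ : ℕ) : ∃ K : ℕ, ∀ (V : Type) [DecidableEq V] [Fintype V]
    (G : SimpleGraph V) (W : Finset V) (cls : V → ℕ) (M : ℕ → ℕ → Prop) (line : ℕ → ℕ → ℕ),
    (∀ X Y, M X Y → M Y X) → (∀ X, ¬ M X X) → (∀ X Y, line X Y = line Y X) →
    (∀ x ∈ W, cls x < n) →
    (∀ X Y, X < Y → M X Y → line X Y = 0 →
      ¬ HasPat2 G (fun v => v ∈ W ∧ cls v = X) (fun v => v ∈ W ∧ cls v = Y)) →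
    (∀ X Y Z, Y < Z → M X Y → M X Z → line X Y ≠ 0 → line X Z ≠ 0 → line X Y ≠ line X Z →
      ¬ HasPat3 G (fun v => v ∈ W ∧ cls v = X) (fun v => v ∈ W ∧ cls v = Y)
        (fun v => v ∈ W ∧ cls v = Z)) →
    (∀ γ, γ ≠ 0 → ∀ W' ⊆ W, (∀ x ∈ W', ∃ y ∈ W, M (cls x) (cls y) ∧ line (cls x) (cls y) = γ) →
      Wd (mg G cls fun X Y => M X Y ∧ line X Y = γ) W' k₀) →
    Wd (mg G cls M) W K := by
  classical
  obtain ⟨N, hN⟩ := mach_rep
  obtain ⟨B, hB⟩ : ∃ B : ℕ, B = n * (n * n) * N := ⟨_, rfl⟩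
  obtain ⟨C, hC⟩ : ∃ C : ℕ, C = (n + 1) * (2 ^ B * (B + 1) ^ n) := ⟨_, rfl⟩
  have hC1 : 0 < C := by rw [hC]; positivity
  refine ⟨(k₀ + 1) * C * C, ?_⟩
  intro V _ _ G W cls M line hM hirr hsymm hn hnull hsplit hline
  let same : ℕ → V → V → Prop := fun Y a x => ∀ y, y ∈ W ∧ cls y = Y → (G.Adj a y ↔ G.Adj x y)
  choose A hAc hA using fun τ : ℕ × ℕ × ℕ => hN V G (W.filter fun x => cls x = τ.1)
    (fun v => v ∈ W ∧ cls v = τ.1) (fun v => v ∈ W ∧ cls v = τ.2.1)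
    (fun v => v ∈ W ∧ cls v = τ.2.2) fun x hx => mem_filter.1 hx
  let R : Finset V := (range n ×ˢ range n ×ˢ range n).biUnion A
  have hR : R.card ≤ B := by
    refine card_biUnion_le.trans ((sum_le_card_nsmul _ _ N fun τ _ => hAc τ).trans ?_)
    simp [hB]
  let σ : V → ℕ → Option R := fun x Y => if h : ∃ a : R, same Y a x then some h.choose else none
  have hσ : ∀ x Y a, σ x Y = some a → same Y a x := by
    intro x Y a h
    simp only [σ] at h
    split_ifs at h with h'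
    rw [← Option.some.inj h]
    exact h'.choose_spec
  have hσ' : ∀ x Y, σ x Y = none → ∀ a ∈ R, ¬ same Y a x := by
    intro x Y h a ha hs
    simp only [σ, dif_pos (⟨⟨a, ha⟩, hs⟩ : ∃ a : R, same Y a x), reduceCtorEq] at h
  have hpat : ∀ x ∈ W, ∀ y ∈ W, ∀ z ∈ W, σ x (cls y) = none → σ x (cls z) = none →
      HasPat3 G (fun v => v ∈ W ∧ cls v = cls x) (fun v => v ∈ W ∧ cls v = cls y)
        (fun v => v ∈ W ∧ cls v = cls z) := by
    intro x hx y hy z hz h1 h2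
    by_contra hno
    obtain ⟨a, ha, hs⟩ := hA (cls x, cls y, cls z) hno x (mem_filter.2 ⟨hx, rfl⟩)
    have haR : a ∈ R := mem_biUnion.2 ⟨_, mem_product.2 ⟨mem_range.2 (hn x hx),
      mem_product.2 ⟨mem_range.2 (hn y hy), mem_range.2 (hn z hz)⟩⟩, ha⟩
    rcases hs with hs | hs
    · exact hσ' x _ h1 a haR hs
    · exact hσ' x _ h2 a haR hs
  let g : V → ℕ ⊕ ℕ := fun x =>
    if h : ∃ y ∈ W, M (cls x) (cls y) ∧ line (cls x) (cls y) ≠ 0 ∧ σ x (cls y) = none then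
      Sum.inr (line (cls x) (cls h.choose)) else Sum.inl (cls x)
  have hg : ∀ x ∈ W, ∀ y ∈ W, M (cls x) (cls y) → line (cls x) (cls y) ≠ 0 →
      σ x (cls y) = none → g x = Sum.inr (line (cls x) (cls y)) := by
    intro x hx y hy h0 h1 h2
    have hex : ∃ y ∈ W, M (cls x) (cls y) ∧ line (cls x) (cls y) ≠ 0 ∧ σ x (cls y) = none :=
      ⟨y, hy, h0, h1, h2⟩
    simp only [g, dif_pos hex]
    obtain ⟨e0, e1, e2, e3⟩ := hex.choose_spec
    congr 1
    by_contra hne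
    rcases lt_trichotomy (cls hex.choose) (cls y) with h | h | h
    · exact hsplit _ _ _ h e1 h0 e2 h1 hne (hpat x hx _ e0 y hy e3 h2)
    · exact hne (by rw [h])
    · exact hsplit _ _ _ h h0 e1 h1 e2 (Ne.symm hne) (hpat x hx y hy _ e0 h2 e3)
  have hboth : ∀ x ∈ W, ∀ z ∈ W, M (cls x) (cls z) → σ x (cls z) = none → σ z (cls x) = none →
      g x = Sum.inr (line (cls x) (cls z)) ∧ g z = Sum.inr (line (cls x) (cls z)) := by
    intro x hx z hz h0 h1 h2
    have h3 : line (cls x) (cls z) ≠ 0 := by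
      intro h3
      rcases lt_trichotomy (cls x) (cls z) with h | h | h
      · exact hnull _ _ h h0 h3 (mach_two (hpat x hx z hz z hz h1 h1))
      · exact hirr _ (h ▸ h0)
      · exact hnull _ _ h (hM _ _ h0) (hsymm _ _ ▸ h3) (mach_two (hpat z hz x hx x hx h2 h2))
    refine ⟨hg x hx z hz h0 h3 h1, ?_⟩
    rw [hsymm] at h3 ⊢
    exact hg z hz x hx (hM _ _ h0) h3 h2
  let c : V → Fin (n + 1) × (R → Bool) × (Fin n → Option R) := fun x =>
    (⟨min (cls x) n, Nat.lt_succ_of_le (min_le_right _ _)⟩, fun a : R => decide (G.Adj a x),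
      fun Y => σ x Y)
  have hcard : Fintype.card (Fin (n + 1) × (R → Bool) × (Fin n → Option R)) ≤ C := by
    rw [hC]
    simp only [Fintype.card_prod, Fintype.card_fun, Fintype.card_bool, Fintype.card_coe,
      Fintype.card_option, Fintype.card_fin]
    exact Nat.mul_le_mul_left _ (Nat.mul_le_mul (Nat.pow_le_pow_right (by norm_num) hR)
      (Nat.pow_le_pow_left (by omega) _))
  have hcls : ∀ x ∈ W, ∀ y ∈ W, c x = c y → cls x = cls y := by
    intro x hx y hy h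
    have h1 : min (cls x) n = min (cls y) n := congrArg (fun w => w.1.val) h
    have h2 := hn x hx
    have h3 := hn y hy
    omega
  have hkey : ∀ x ∈ W, ∀ y ∈ W, ∀ z ∈ W, c x = c y →
      (M (cls x) (cls z) → σ x (cls z) = none → σ z (cls x) = none → False) →
      ((mg G cls M).Adj x z ↔ (mg G cls M).Adj y z) := by
    intro x hx y hy z hz hxy hno
    have e1 := hcls x hx y hy hxy
    show G.Adj x z ∧ M (cls x) (cls z) ∧ M (cls z) (cls x) ↔
      G.Adj y z ∧ M (cls y) (cls z) ∧ M (cls z) (cls y)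
    rw [← e1]
    refine and_congr_left fun h0 => ?_
    rcases h1 : σ x (cls z) with _ | a
    · rcases h2 : σ z (cls x) with _ | a
      · exact (hno h0.1 h1 h2).elim
      · have s := hσ _ _ _ h2
        have e : decide (G.Adj a x) = decide (G.Adj a y) := congrArg (fun w => w.2.1 a) hxy
        simp only [decide_eq_decide] at e
        rw [G.adj_comm x z, G.adj_comm y z, ← s x ⟨hx, rfl⟩, ← s y ⟨hy, e1.symm⟩, e]
    · have e : σ x (cls z) = σ y (cls z) := congrArg (fun w => w.2.2 ⟨cls z, hn z hz⟩) hxy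
      have s := hσ _ _ _ h1
      have s' := hσ _ _ _ (e ▸ h1)
      rw [← s z ⟨hz, rfl⟩, ← s' z ⟨hz, rfl⟩]
  have hk : 1 ≤ (k₀ + 1) * C := Nat.mul_pos (Nat.succ_pos _) hC1
  refine (wd_group (G := mg G cls M) (W := W) hk c g ?_ ?_).mono (Nat.mul_le_mul_left _ hcard)
  · intro x hx y hy z hz hxy hxz _
    refine hkey x hx y hy z hz hxy fun h0 h1 h2 => hxz ?_
    have := hboth x hx z hz h0 h1 h2
    rw [this.1, this.2]
  · rintro (X | γ)
    · refine (wd_indep fun x hx y hy h => ?_).mono hk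
      rw [mem_filter] at hx hy
      have e : ∀ v, g v = Sum.inl X → cls v = X := by
        intro v hv
        simp only [g] at hv
        split_ifs at hv
        exact Sum.inl.inj hv
      have h1 : M (cls x) (cls y) := h.2.1
      rw [e x hx.2, e y hy.2] at h1
      exact hirr _ h1
    · have e : ∀ x ∈ W.filter fun x => g x = Sum.inr γ, γ ≠ 0 ∧
          ∃ y ∈ W, M (cls x) (cls y) ∧ line (cls x) (cls y) = γ := by
        intro x hx
        have hv := (mem_filter.1 hx).2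
        simp only [g] at hv
        split_ifs at hv with h
        obtain ⟨e0, e1, e2, -⟩ := h.choose_spec
        exact ⟨Sum.inr.inj hv ▸ e2, h.choose, e0, e1, Sum.inr.inj hv⟩
      by_cases hγ : γ = 0
      · rw [eq_empty_of_forall_notMem fun x hx => (e x hx).1 hγ]
        exact Dec.empty
      refine Wd.mono (Dec.transfer (hline γ hγ _ (filter_subset _ _) fun x hx => (e x hx).2) c
        ?_ fun _ _ _ _ _ z hz hz' => (hz' hz).elim)
        (Nat.mul_le_mul (Nat.le_succ _) hcard)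
      intro x hx y hy hxy z hz _ h
      rw [mem_filter] at hx hy hz
      by_cases hl : line (cls x) (cls z) = γ
      · have e1 := hcls x hx.1 y hy.1 hxy
        have hl' : line (cls z) (cls x) = γ := hsymm _ _ ▸ hl
        have h' : G.Adj x z ∧ (M (cls x) (cls z) ∧ line (cls x) (cls z) = γ) ∧
              M (cls z) (cls x) ∧ line (cls z) (cls x) = γ ↔
            G.Adj y z ∧ (M (cls y) (cls z) ∧ line (cls y) (cls z) = γ) ∧
              M (cls z) (cls y) ∧ line (cls z) (cls y) = γ := h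
        show G.Adj x z ∧ M (cls x) (cls z) ∧ M (cls z) (cls x) ↔
          G.Adj y z ∧ M (cls y) (cls z) ∧ M (cls z) (cls y)
        rw [← e1] at h' ⊢
        simpa only [hl, hl', and_true] using h'
      · refine hkey x hx.1 y hy.1 z hz.1 hxy fun h0 h1 h2 => hl ?_
        exact Sum.inr.inj ((hboth x hx.1 z hz.1 h0 h1 h2).1.symm.trans hx.2)

end Pool.Agent.Lib.MP_1595d8_lc
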