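import Mathlib
import Pool.Agent.Lib.MP_1595d8_lc.H89Core

/-!
States, the judgement `Good`, and the checkers for the structural rules: definitions.
-/

namespace Pool.Agent.Lib.MP_1595d8_lc

open Finset Pool.Agent.Lib.MP_042ec1_co

/-- A state: constants with their table, the next free flag, primality, and known facts. -/
structure St where
  n0 : ℕ
  c0 : ℕ
  nb : ℕ
  sp : Bool
  Φ : List FT

variable {V : Type}

/-- The world `w` with the constants `a` satisfies the state. -/
def Models [DecidableEq V] (w : Wld V) (a : ℕ → V) (σ : St) : Prop :=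
  Inj w a σ.n0 ∧ Tru w a σ.n0 σ.c0 ∧ (σ.sp = true → SplitPrime w.G w.U) ∧
    ∀ t ∈ σ.Φ, Valid w a σ.nb t

/-- The state with one more tree of facts and `d` more flags. -/
def St.add (σ : St) (d : ℕ) (t : FT) : St := ⟨σ.n0, σ.c0, σ.nb + d, σ.sp, t :: σ.Φ⟩

/-- A mask on pairs of types. -/
def Mk (M : ℕ) (X Y : ℕ) : Prop := M.testBit (64 * X + Y) = true

/-- Typed vertex sets have bounded width after masking. -/
def Good (σ : St) (LL S M : ℕ) : Prop :=
  ∃ K : ℕ, ∀ (V : Type) [DecidableEq V] [Fintype V] (w : Wld V) (a : ℕ → V), Models w a σ →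
    ∀ (W : Finset V) (ty : V → ℕ), Typed w a σ.n0 LL S W ty → Wd (mg w.G ty (Mk M)) W K

/-- Graphs that avoid all patterns of `Ps` have bounded width. -/
def Bd (Ps : List (List ℕ)) : Prop :=
  ∃ K : ℕ, ∀ (V : Type) [DecidableEq V] [Fintype V] (G : SimpleGraph V) (W : Finset V),
    (∀ P ∈ Ps, ∀ f : ℕ → V, ¬ SatL ⟨G, W, fun _ _ => False⟩ f 0 P) → Wd G W K

/-- The facts of `t` with index below `B` follow from the state. -/
def DerTo (σ : St) (t : FT) (B : ℕ) : Prop :=
  ∀ (V : Type) [DecidableEq V] [Fintype V] (w : Wld V) (a : ℕ → V), Models w a σ →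
    ValidTo w a σ.nb t B

/-- The facts of `t` follow from the state. -/
def Der (σ : St) (t : FT) : Prop :=
  ∀ (V : Type) [DecidableEq V] [Fintype V] (w : Wld V) (a : ℕ → V), Models w a σ →
    Valid w a σ.nb t

/-- `P` holds below `B`. -/
def Upto (P : ℕ → Prop) (B : ℕ) : Prop := ∀ X < B, P X

/-- Packs a list of numbers of width `w`. -/
def pk (w : ℕ) (l : List ℕ) : ℕ := List.rec 0 (fun r _ ih => Nat.lor r (Nat.shiftLeft ih w)) l

/-- Appends the row `r` as row number `n`. -/
def push (K n r : ℕ) : ℕ := Nat.lor (cut K n) (Nat.shiftLeft r (Nat.mul 256 n))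

/-- Appends several rows. -/
def pushL (rs : List ℕ) : ℕ → ℕ → ℕ :=
  List.rec (fun K _ => K) (fun r _ ih K n => ih (push K n r) (Nat.succ n)) rs

/-- Runs the tableau on the constants followed by the rows `rs`. -/
noncomputable def run (σ : St) (md : Md) (rs : List ℕ) (s : ℕ) : ℕ :=
  fz (Nat.add σ.n0 (len rs)) fun n => bif Nat.ble n 32 then
    fz (slt (pushL rs σ.c0 σ.n0)) fun K => tab σ.Φ 4096 σ.n0 σ.sp 500 md n K s else 0

/-- Checks the fact number `i` of the tree `t`. -/
noncomputable def derAt (σ : St) (t : FT) (i s : ℕ) : ℕ :=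
  Fact.casesOn (t.get i) fun m rows alts => fz m fun m => fz (len rows) fun l =>
    fz (Nat.add m l) fun n =>
    bif wfF σ.nb ⟨m, rows, alts⟩ && (Nat.ble m σ.n0 && Nat.ble n 32) then
      fz (slt (cut (pushL rows σ.c0 m) n)) fun K =>
        tab (t :: σ.Φ) i m σ.sp 500 (Md.goal m l alts) n K s
    else 0

/-- Checks the facts with index in `lo, …, lo + c - 1`. -/
noncomputable def derChk (σ : St) (t : FT) (lo c s : ℕ) : Bool :=
  !Nat.beq (loop c (fun i s => fz (Nat.add lo i) fun i => derAt σ t i s) s) 0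

/-- The label of the type `t`, restricted to constants and flags. -/
def lab (σ : St) (LL t : ℕ) : ℕ := Nat.land (row LL t) (mA σ.n0)

/-- The row of the mask `M` for the type `t`. -/
def mrow (M t : ℕ) : ℕ := Nat.land (Nat.shiftRight M (Nat.mul 64 t)) 18446744073709551615

/-- The vertex `x` is not a constant and has the label `r`. -/
def Lab (w : Wld V) (a : ℕ → V) (n0 r : ℕ) (x : V) : Prop :=
  x ∈ w.U ∧ (∀ i < n0, a i ≠ x) ∧ RowOK w a n0 x r

/-- The labels of the types selected by `C`, as alternatives. -/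
def selL (σ : St) (LL C : ℕ) : List (List ℕ) :=
  Nat.rec [] (fun t ih => bif tb C t then [lab σ LL t] :: ih else ih) 64

/-- The union of the sets of children of the types in `A`. -/
def need (CH A : ℕ) : ℕ :=
  Nat.rec 0 (fun u ih => bif tb A u then Nat.lor ih (mrow CH u) else ih) 64

/-- Refinement of types: `CH` lists the children of each type. -/
noncomputable def covChk (σ : St) (LL S M LL' S' M' CH s : ℕ) : Bool :=
  fz LL fun LL => fz LL' fun LL' => fz M fun M => fz M' fun M' => fz CH fun CH =>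
  !Nat.beq (loop 64 (fun t s => bif tb S t then fz (mrow CH t) fun C =>
    bif Nat.beq (Nat.lor S' C) S' && fz (need CH (Nat.land S (mrow M t))) (fun N =>
        allLT 64 fun t' => !tb C t' || Nat.beq (Nat.lor (mrow M' t') N) (mrow M' t')) then
      run σ (Md.goal σ.n0 1 (selL σ LL' C)) [lab σ LL t] s
    else 0 else s) s) 0

/-- No vertex of type `t₀` coexists with a vertex whose type is outside `S₂`. -/
noncomputable def nevChk (σ : St) (LL S t₀ S₁ S₂ s : ℕ) : Bool :=
  fz LL fun LL => tb S₂ t₀ && (allLT 64 (fun u => !tb S u || (Nat.beq u t₀ || tb S₁ u)) &&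
    !Nat.beq (loop 64 (fun u s => bif tb S u && !tb S₂ u then
      run σ Md.non [lab σ LL t₀, lab σ LL u] s else s) s) 0)

/-- The clique on five vertices. -/
def pK5 : List ℕ := [0, 1, 5, 21, 85]

/-- The edgeless graph on five vertices. -/
def pI5 : List ℕ := [0, 2, 10, 42, 170]

/-- All types of `S` outside `S'` are small. -/
noncomputable def smlChk (σ : St) (LL S S' s : ℕ) : Bool :=
  fz LL fun LL => !Nat.beq (loop 64 (fun t s => bif tb S t && !tb S' t then
    fz (Nat.shiftLeft 1 t) fun T =>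
      sq (run σ (Md.col σ.n0 LL T 0 0 0 pK5) [] s) fun s =>
        run σ (Md.col σ.n0 LL T 0 0 0 pI5) [] s
    else s) s) 0

/-- The table `RT` of constant adjacencies is correct for the type `X`. -/
def RTat (σ : St) (LL S RT X : ℕ) : Prop :=
  ∀ (V : Type) [DecidableEq V] [Fintype V] (w : Wld V) (a : ℕ → V), Models w a σ →
    S.testBit X = true → ∀ Y ≤ X, S.testBit Y = true → ∀ x y, Lab w a σ.n0 (row LL X) x →
      Lab w a σ.n0 (row LL Y) y → x ≠ y → CellOK (phi RT X Y) (w.G.Adj x y)

/-- Two labelled vertices with the cell `c` between them. -/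
def two (σ : St) (LL X Y c : ℕ) : List ℕ :=
  [lab σ LL X, Nat.lor (lab σ LL Y) (Nat.shiftLeft c (Nat.mul 2 σ.n0))]

/-- Checks the table of constant adjacencies. -/
noncomputable def rtChk (σ : St) (LL S RT lo c s : ℕ) : Bool :=
  fz LL fun LL => fz RT fun RT =>
  !Nat.beq (loop c (fun i s => fz (Nat.add lo i) fun X => bif tb S X then
    loop (Nat.succ X) (fun Y s => bif tb S Y then fz (phi RT X Y) fun e =>
      sq (bif tb e 0 then run σ Md.non (two σ LL X Y 2) s else s) fun s =>
        bif tb e 1 then run σ Md.non (two σ LL X Y 1) s else s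
      else s) s else s) s) 0

/-- Every pair that is active in `M` is active in `M'` or has constant adjacency. -/
def dropChk (S M M' RT : ℕ) : Bool :=
  fz M fun M => fz M' fun M' => fz RT fun RT =>
  allLT 64 fun X => !tb S X || fz (mrow M X) fun A => fz (mrow M' X) fun A' =>
    allLT 64 fun Y => !tb S Y || (!tb A Y || (tb A' Y || !Nat.beq (phi RT X Y) 0))

/-- The number of a pattern. -/
def pn (p : Pat) : ℕ := 4 * p.1.toNat + 2 * p.2.1.toNat + p.2.2.toNat

/-- The cells of row `j` of the pattern number `p`. -/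
def pc (p j : ℕ) : ℕ :=
  Nat.land (Nat.shiftRight
    860749959362302863779260126960797478833229301594011506007709798704539377013984463841446698000079831283547915505340426922
    (Nat.mul 10 (Nat.add (Nat.mul 5 p) j))) 1023

/-- The number of the transposed pattern. -/
def tp (p : ℕ) : ℕ := Nat.land (Nat.shiftRight 15637664 (Nat.mul 3 p)) 7

/-- The pattern number `p` is allowed between the types `X` and `Y`. -/
def alw (AL X Y p : ℕ) : Bool :=
  bif Nat.blt Y X then tb AL (Nat.add (Nat.add (Nat.mul 512 X) (Nat.mul 8 Y)) (tp p)) else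
    tb AL (Nat.add (Nat.add (Nat.mul 512 Y) (Nat.mul 8 X)) p)

/-- Appends five vertices with label `r` that form a clique or an independent set; `e j` gives
further cells. -/
def push5 (K n r kd : ℕ) (e : ℕ → ℕ) : ℕ :=
  slt (Nat.rec K (fun j ih => push ih (Nat.add n j) (Nat.lor (Nat.lor r (e j))
    (Nat.shiftLeft (Nat.mod (Nat.mul kd 341) (Nat.shiftLeft 1 (Nat.mul 2 j))) (Nat.mul 2 n)))) 5)

/-- Every pattern between a type `X < Y` and the type `Y` is allowed by `AL`. -/
def ALat (σ : St) (LL S AL Y : ℕ) : Prop :=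
  ∀ (V : Type) [DecidableEq V] [Fintype V] (w : Wld V) (a : ℕ → V), Models w a σ →
    S.testBit Y = true → ∀ X < Y, S.testBit X = true → ∀ (x y : ℕ → V) (p : Pat),
      (∀ i < 5, Lab w a σ.n0 (row LL X) (x i) ∧ Lab w a σ.n0 (row LL Y) (y i)) →
      (∀ i < 5, ∀ j < i, x j ≠ x i ∧ y j ≠ y i) → (∀ i < 5, ∀ j < 5, x i ≠ y j) →
      (∀ i < 5, ∀ j < 5, (w.G.Adj (x i) (y j) ↔ rel p i j = true)) → alw AL X Y (pn p) = true

/-- Checks the table of allowed patterns. -/
noncomputable def alChk (σ : St) (LL S RT AL lo c s : ℕ) : Bool :=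
  fz LL fun LL => fz RT fun RT => fz AL fun AL => fz σ.n0 fun n0 =>
  Nat.ble (Nat.add n0 10) 32 &&
  !Nat.beq (loop c (fun i s => fz (Nat.add lo i) fun Y => bif tb S Y then
    loop Y (fun X s => bif tb S X then fz (phi RT X Y) fun e =>
      loop 8 (fun p s => bif alw AL X Y p || ((tb e 1 && !Nat.beq p 0) ||
          (tb e 0 && !Nat.beq p 7)) then s else
        fz (push5 (push5 σ.c0 n0 (lab σ LL X) (phi RT X X) fun _ => 0) (Nat.add n0 5)
          (lab σ LL Y) (phi RT Y Y) fun j => Nat.shiftLeft (pc p j) (Nat.mul 2 n0)) fun K =>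
        fz (Nat.add n0 10) fun n => tab σ.Φ 4096 n0 σ.sp 500 Md.non n K s) s
      else s) s else s) s) 0

/-- The line of a pair of types. -/
def lin (LT X Y : ℕ) : ℕ :=
  Nat.land (Nat.shiftRight LT (bif Nat.blt Y X then Nat.add (Nat.mul 512 X) (Nat.mul 8 Y) else
    Nat.add (Nat.mul 512 Y) (Nat.mul 8 X))) 255

/-- Pairs at the type `X` that lie on different lines are not linked. -/
def TRat (σ : St) (LL S M LT X : ℕ) : Prop :=
  ∀ (V : Type) [DecidableEq V] [Fintype V] (w : Wld V) (a : ℕ → V), Models w a σ →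
    ∀ (W : Finset V) (ty : V → ℕ), Typed w a σ.n0 LL S W ty → ∀ Y Z, Y < Z → X ≠ Y → X ≠ Z →
      Mk M X Y → Mk M X Z → lin LT X Y ≠ 0 → lin LT X Z ≠ 0 → lin LT X Y ≠ lin LT X Z →
      ¬ HasPat3 w.G (fun v => v ∈ W ∧ ty v = X) (fun v => v ∈ W ∧ ty v = Y)
        (fun v => v ∈ W ∧ ty v = Z)

/-- The set of types `Z > Y` in `A` whose line at `X` is nonzero and differs from `g`. -/
def zset (LT A X Y g : ℕ) : ℕ :=
  Nat.rec 0 (fun Z ih => bif tb A Z && (Nat.blt Y Z && fz (lin LT X Z) fun h =>
    !Nat.beq h 0 && !Nat.beq h g) then Nat.lor ih (Nat.shiftLeft 1 Z) else ih) 64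

/-- Checks that pairs on different lines are not linked. -/
noncomputable def trChk (σ : St) (LL S M RT AL LT lo c s : ℕ) : Bool :=
  fz LL fun LL => fz M fun M => fz RT fun RT => fz AL fun AL => fz LT fun LT =>
  fz σ.n0 fun n0 => fz (Nat.add n0 15) fun n => Nat.ble n 32 &&
  !Nat.beq (loop c (fun i s => fz (Nat.add lo i) fun X => bif tb S X then
    fz (Nat.land S (mrow M X)) fun A =>
    fz (push5 σ.c0 n0 (lab σ LL X) (phi RT X X) fun _ => 0) fun KX =>
    loop 64 (fun Y s => bif tb A Y then fz (lin LT X Y) fun g => bif Nat.beq g 0 then s else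
      fz (zset LT A X Y g) fun ZS => bif Nat.beq ZS 0 then s else
      loop 6 (fun p s => fz (Nat.succ p) fun p => bif alw AL X Y p then
        fz (push5 KX (Nat.add n0 5) (lab σ LL Y) (phi RT Y Y) fun j =>
          Nat.shiftLeft (pc p j) (Nat.mul 2 n0)) fun KY =>
        loop 64 (fun Z s => bif tb ZS Z then
          fz (lab σ LL Z) fun LZ => fz (phi RT Z Z) fun kz =>
          loop 6 (fun q s => fz (Nat.succ q) fun q => bif alw AL X Z q then
            loop 8 (fun r s => bif alw AL Y Z r then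
              fz (push5 KY (Nat.add n0 10) LZ kz fun j =>
                Nat.shiftLeft (Nat.lor (pc q j) (Nat.shiftLeft (pc r j) 10)) (Nat.mul 2 n0))
                fun K => tab σ.Φ 4096 n0 σ.sp 500 Md.non n K s
              else s) s else s) s
          else s) s
        else s) s
      else s) s else s) s) 0

/-- Checks the bookkeeping of lines: null pairs allow only constant patterns, and every other
active pair appears in the entry of its line. -/
def linChk (S M AL LT : ℕ) (ls : List (ℕ × ℕ)) : Bool :=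
  fz M fun M => fz AL fun AL => fz LT fun LT =>
  allLT 64 fun X => !tb S X || fz (Nat.land S (mrow M X)) fun A => !tb A X &&
    allLT 64 fun Y => !tb A Y || fz (lin LT X Y) fun g =>
      bif Nat.beq g 0 then allLT 6 fun p => !alw AL X Y (Nat.succ p) else
        Nat.ble g ls.length && (tb (nth (0, 0) ls (Nat.pred g)).1 X &&
          tb (nth (0, 0) ls (Nat.pred g)).2 (Nat.add (Nat.mul 64 X) Y))

/-- All entries of the list are good. -/
def AllGood (σ : St) (LL : ℕ) (ls : List (ℕ × ℕ)) : Prop := ∀ p ∈ ls, Good σ LL p.1 p.2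

/-- A vertex of type `t` has at most one active vertex with cell `e`. -/
noncomputable def penChk (σ : St) (LL S M t e S' s : ℕ) : Bool :=
  fz LL fun LL => fz (Nat.land S (mrow M t)) fun A =>
  !tb A t && ((Nat.beq e 1 || Nat.beq e 2) &&
    (allLT 64 (fun u => !tb S u || (Nat.beq u t || tb S' u)) &&
    !Nat.beq (loop 64 (fun u s => bif tb A u then loop (Nat.succ u) (fun v s => bif tb A v then
      run σ Md.non [lab σ LL t, Nat.lor (lab σ LL u) (Nat.shiftLeft e (Nat.mul 2 σ.n0)),
        Nat.lor (lab σ LL v) (Nat.shiftLeft e (Nat.mul 2 σ.n0))] s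
      else s) s else s) s) 0))

/-- The rows of a pattern, moved behind `n0` constants. -/
def shL (n0 : ℕ) (P : List ℕ) : List ℕ :=
  List.rec [] (fun r _ ih =>
    Nat.shiftLeft (Nat.land r 1099511627775) (Nat.mul 2 n0) :: ih) P

/-- The flipped graph avoids all patterns of `Ps`. -/
noncomputable def cloChk (σ : St) (LL S M φ : ℕ) (Ps : List (List ℕ)) (s : ℕ) : Bool :=
  fz LL fun LL => fz M fun M => fz φ fun φ =>
  allLT 64 (fun X => !tb S X || fz (Nat.land S (mrow M X)) fun A =>
    allLT 64 fun Y => !tb A Y || Nat.ble (phi φ X Y) 1) &&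
  !Nat.beq (List.rec (fun s => s) (fun P _ ih s => sq s fun s => ih
    (bif tb s 0 then
      bif Nat.beq φ 0 && Nat.ble σ.n0 12 then
        run σ Md.non (shL σ.n0 P) (Nat.shiftRight s 1) else 0
    else run σ (Md.col σ.n0 LL S φ 0 0 P) [] (Nat.shiftRight s 1))) Ps s) 0

/-- Types with the same role have the required constant adjacency; `ro X` is one for the clique,
and two or three for the independent sets. -/
def rolChk (S RT : ℕ) (ro : ℕ → ℕ) : Bool :=
  fz RT fun RT => allLT 64 fun X => !tb S X || fz (ro X) fun g => !Nat.beq g 0 &&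
    allLT (Nat.succ X) fun Y => !tb S Y || (!Nat.beq (ro Y) g ||
      tb (phi RT X Y) (bif Nat.beq g 1 then 0 else 1))

/-- The roles for the three-part configuration at the constant `α`; `KM` is the set of types of
the clique. -/
def ro1 (LL α KM X : ℕ) : ℕ :=
  fz (cel (row LL X) α) fun c => bif Nat.beq c 1 then bif tb KM X then 1 else 2 else
    bif Nat.beq c 2 && !tb KM X then 3 else 0

/-- The roles for two adjacent constants. -/
def ro2 (LL α γ X : ℕ) : ℕ :=
  fz (cel (row LL X) α) fun c => fz (cel (row LL X) γ) fun d =>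
    bif Nat.beq c 1 then bif Nat.beq d 1 then 1 else bif Nat.beq d 2 then 2 else 0 else
    bif Nat.beq c 2 && Nat.beq d 1 then 3 else 0

/-- Equality of lists of numbers. -/
def eqL (l : List ℕ) : List ℕ → Bool :=
  List.rec (fun l' => List.casesOn l' true fun _ _ => false)
    (fun x _ ih l' => List.casesOn l' false fun y ys => Nat.beq x y && ih ys) l

/-- Equality of lists of lists of numbers. -/
def eqLL (l : List (List ℕ)) : List (List ℕ) → Bool :=
  List.rec (fun l' => List.casesOn l' true fun _ _ => false)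
    (fun x _ ih l' => List.casesOn l' false fun y ys => eqL x y && ih ys) l

/-- Equality of facts. -/
def eqF (φ ψ : Fact) : Bool := Nat.beq φ.m ψ.m && (eqL φ.rows ψ.rows && eqLL φ.alts ψ.alts)

/-- Membership in a list of facts. -/
def memF (l : List Fact) (φ : Fact) : Bool := List.rec false (fun ψ _ ih => eqF φ ψ || ih) l

/-- A new flag may be introduced: labels and constants do not mention it. -/
def fresh (σ : St) (LL : ℕ) : Bool :=
  fz LL fun LL => Nat.ble 32 σ.nb && (Nat.blt σ.nb 128 && (Nat.ble σ.n0 30 &&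
    (allLT 64 (fun t => Nat.beq (Nat.shiftRight (row LL t) (Nat.mul 2 σ.nb)) 0) &&
      allLT σ.n0 fun i => Nat.beq (Nat.shiftRight (row σ.c0 i) (Nat.mul 2 σ.nb)) 0)))

/-- The facts about a flag that is defined by the alternatives `alts`. -/
def flagFacts (n0 nb : ℕ) (alts : List (List ℕ)) : List Fact :=
  ⟨n0, [Nat.shiftLeft 1 (Nat.mul 2 nb)], alts⟩ :: alts.map fun alt =>
    ⟨n0, Nat.lor (alt.headD 0) (Nat.shiftLeft 2 (Nat.mul 2 nb)) :: alt.tail, []⟩

/-- Checks the tree of facts for a new flag. -/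
noncomputable def flagChk (σ : St) (LL : ℕ) (alts : List (List ℕ)) (t : FT) : Bool :=
  fresh σ LL && (wfF σ.nb ⟨0, [], alts⟩ && (alts.all (fun alt => Nat.blt 0 (len alt)) &&
    t.all (memF (flagFacts σ.n0 σ.nb alts))))

/-- The facts about the flag that marks the smaller end of an edge inside a label of `As`. -/
def oriFacts (n0 nb : ℕ) (As : List ℕ) : List Fact :=
  As.flatMap fun A =>
    [⟨n0, [Nat.lor A (Nat.shiftLeft 2 (Nat.mul 2 nb)), Nat.lor (Nat.lor A
        (Nat.shiftLeft 2 (Nat.mul 2 nb))) (Nat.shiftLeft 1 (Nat.mul 2 n0))], []⟩,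
      ⟨n0, [Nat.lor A (Nat.shiftLeft 1 (Nat.mul 2 nb)), Nat.lor (Nat.lor A
        (Nat.shiftLeft 1 (Nat.mul 2 nb))) (Nat.shiftLeft 1 (Nat.mul 2 n0))],
        As.flatMap fun B => [[B, 0, Nat.lor B (Nat.shiftLeft 1 (Nat.mul 2 n0))],
          [0, B, Nat.lor B (Nat.shiftLeft 4 (Nat.mul 2 n0))]]⟩]

/-- Checks the tree of facts for an orientation flag. -/
noncomputable def oriChk (σ : St) (LL : ℕ) (As : List ℕ) (t : FT) : Bool :=
  fresh σ LL && (wfL σ.nb As && (As.all (fun A => Nat.beq (Nat.land A (mA σ.n0)) A) &&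
    t.all (memF (oriFacts σ.n0 σ.nb As))))

/-- Checks the two trees of facts for a global case distinction. -/
noncomputable def gspChk (σ : St) (alts : List (List ℕ)) (t₀ t₁ : FT) : Bool :=
  wfF σ.nb ⟨0, [], alts⟩ && (t₀.all (memF (alts.map fun alt => ⟨σ.n0, alt, []⟩)) &&
    t₁.all (memF [⟨σ.n0, [], alts⟩]))

/-- The gem as a pattern: a path and a vertex adjacent to all of it. -/
def pGem : List ℕ := [0, 1, 6, 26, 85]

/-- The graph `P₂ + P₃` as a pattern. -/
def pP23 : List ℕ := [0, 1, 10, 26, 106]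

/-- The two basic facts. -/
def F0 : FT := .node ⟨0, pGem, []⟩ (.node ⟨0, pP23, []⟩ .nil .nil) .nil

end Pool.Agent.Lib.MP_1595d8_lc
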