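import Mathlib
import Pool.Agent.Lib.MP_1595d8_lc.H89Sem

/-!
Shortest violating paths, cographs, pendant vertices and small classes.
-/

namespace Pool.Agent.Lib.MP_1595d8_lc

open Finset Pool.Agent.Lib.MP_042ec1_co

/-- The vertices of `U` reached from `P` in at most `n` steps of the relation `R`. -/
def miscL {V : Type} (R : V → V → Prop) (U P : Finset V) : ℕ → V → Prop
  | 0, v => v ∈ P
  | n + 1, v => miscL R U P n v ∨ (v ∈ U ∧ ∃ u, miscL R U P n u ∧ R u v)

theorem misc_mem {V : Type} {R : V → V → Prop} {U P : Finset V} (hP : P ⊆ U) {n : ℕ} {v : V}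
    (h : miscL R U P n v) : v ∈ U := by
  induction n with
  | zero => exact hP h
  | succ n ih => exact h.elim ih fun h => h.1

theorem misc_chain {V : Type} {R : V → V → Prop} {U P : Finset V} (n : ℕ) :
    ∀ v, miscL R U P n v → (∀ j < n, ¬ miscL R U P j v) → ∃ y : ℕ → V, y n = v ∧
      (∀ i ≤ n, miscL R U P i (y i) ∧ ∀ j < i, ¬ miscL R U P j (y i)) ∧
      ∀ i < n, R (y i) (y (i + 1)) := by
  induction n with
  | zero =>
    intro v hv _
    refine ⟨fun _ => v, rfl, fun i hi => ?_, fun i hi => absurd hi (Nat.not_lt_zero i)⟩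
    obtain rfl : i = 0 := by omega
    exact ⟨hv, fun j hj => absurd hj (Nat.not_lt_zero j)⟩
  | succ n ih =>
    intro v hv hv'
    obtain ⟨hvU, u, hu, huv⟩ := hv.resolve_left (hv' n (Nat.lt_succ_self n))
    obtain ⟨y, h1, h2, h3⟩ := ih u hu fun j hj h =>
      hv' (j + 1) (by omega) (Or.inr ⟨hvU, u, h, huv⟩)
    refine ⟨fun i => if i ≤ n then y i else v, by simp, fun i hi => ?_, fun i hi => ?_⟩
    · by_cases h : i ≤ n
      · simpa only [if_pos h] using h2 i h
      · obtain rfl : i = n + 1 := by omega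
        simpa only [if_neg h] using ⟨hv, hv'⟩
    · by_cases h : i + 1 ≤ n
      · simpa only [if_pos h, if_pos (show i ≤ n by omega)] using h3 i h
      · obtain rfl : i = n := by omega
        simpa only [if_neg h, if_pos (le_refl i), h1] using huv

theorem sp_path {V : Type} [DecidableEq V] [Fintype V] {G : SimpleGraph V} {U P Q : Finset V}
    (h : SplitPrime G U) (hP : P ⊆ U) (hQ : Q ⊆ U) (hd : Disjoint P Q) (cP : 2 ≤ P.card)
    (cQ : 2 ≤ Q.card) (a b : V) (hno : ∀ p ∈ P, ∀ q ∈ Q, ¬ Vio G a b p q) :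
    ∃ (k : ℕ) (x : ℕ → V), (∀ i ≤ k, x i ∈ U ∧ x i ∉ P ∧ x i ∉ Q ∧ ∀ j < i, x j ≠ x i) ∧
      (∃ p ∈ P, Vio G a b p (x 0)) ∧ (∀ i < k, ∀ p ∈ P, ¬ Vio G a b p (x (i + 1))) ∧
      (∀ i < k, Vio G a b (x i) (x (i + 1)) ∧ ∀ j < i, ¬ Vio G a b (x j) (x (i + 1))) ∧
      ∃ q ∈ Q, Vio G a b (x k) q := by
  classical
  have hex : ∃ n, ∃ q ∈ Q, miscL (Vio G a b) U P n q := by
    by_contra hne
    push Not at hne
    refine h (U.filter fun v => ∃ n, miscL (Vio G a b) U P n v) (filter_subset _ _)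
      (cP.trans (card_le_card fun v hv => mem_filter.2 ⟨hP hv, 0, hv⟩))
      (cQ.trans (card_le_card fun v hv => mem_sdiff.2 ⟨hQ hv, fun h' => ?_⟩))
      (fun x => G.Adj x b) (fun y => G.Adj a y) fun x hx y hy => ?_
    · obtain ⟨n, hn⟩ := (mem_filter.1 h').2
      exact hne n v hv hn
    · by_contra hv
      obtain ⟨n, hn⟩ := (mem_filter.1 hx).2
      obtain ⟨hy1, hy2⟩ := mem_sdiff.1 hy
      exact hy2 (mem_filter.2 ⟨hy1, n + 1, Or.inr ⟨hy1, x, hn, hv⟩⟩)
  obtain ⟨q, hq, hL⟩ := Nat.find_spec hex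
  have hmin : ∀ j < Nat.find hex, ∀ q ∈ Q, ¬ miscL (Vio G a b) U P j q := fun j hj q hq h' =>
    Nat.find_min hex hj ⟨q, hq, h'⟩
  generalize Nat.find hex = N at hL hmin
  obtain ⟨y, h1, h2, h3⟩ := misc_chain N q hL fun j hj => hmin j hj q hq
  have h0 : y 0 ∈ P := (h2 0 (Nat.zero_le N)).1
  obtain ⟨k, rfl⟩ : ∃ k, N = k + 2 := by
    rcases N with _ | _ | k
    · exact absurd hq (disjoint_left.1 hd (h1 ▸ h0))
    · exact absurd (h1 ▸ h3 0 Nat.one_pos) (hno _ h0 q hq)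
    · exact ⟨k, rfl⟩
  have hU : ∀ i ≤ k + 2, y i ∈ U := fun i hi => misc_mem hP (h2 i hi).1
  refine ⟨k, fun i => y (i + 1), fun i hi => ⟨hU _ (by omega), ?_, ?_, fun j hj e => ?_⟩,
    ⟨y 0, h0, h3 0 (by omega)⟩, fun i hi p hp hv => ?_,
    fun i hi => ⟨h3 _ (by omega), fun j hj hv => ?_⟩, q, hq, h1 ▸ h3 (k + 1) (by omega)⟩
  · exact (h2 (i + 1) (by omega)).2 0 (by omega)
  · exact fun h' => hmin (i + 1) (by omega) _ h' (h2 (i + 1) (by omega)).1
  · have e' : y (j + 1) = y (i + 1) := e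
    exact (h2 (i + 1) (by omega)).2 (j + 1) (by omega) (e' ▸ (h2 (j + 1) (by omega)).1)
  · exact (h2 (i + 1 + 1) (by omega)).2 1 (by omega) (Or.inr ⟨hU _ (by omega), p, hp, hv⟩)
  · exact (h2 (i + 1 + 1) (by omega)).2 (j + 1 + 1) (by omega)
      (Or.inr ⟨hU _ (by omega), _, (h2 (j + 1) (by omega)).1, hv⟩)

theorem misc_step {V : Type} {R : V → V → Prop} (hs : ∀ x y, R x y → R y x) {W C D : Finset V}
    {v z : V} (hW : ∀ x, x ∈ W ↔ x = v ∨ x ∈ C ∨ x ∈ D) (hvC : v ∉ C) (hvD : v ∉ D)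
    (hD : D.Nonempty) (hz : z ∈ C) (hvz : ¬ R v z) (hCD : ∀ x ∈ C, ∀ y ∈ D, ¬ R x y)
    (h4 : ∀ a ∈ W, ∀ b ∈ W, ∀ c ∈ W, ∀ d ∈ W, R a b → R b c → R c d → ¬ R a c → ¬ R a d →
      ¬ R b d → False) :
    ∃ A ⊆ W, A.Nonempty ∧ v ∉ A ∧ ∀ x ∈ A, ∀ y ∈ W, y ∉ A → ¬ R x y := by
  classical
  have hC' : ∀ x ∈ C, x ∈ W := fun x hx => (hW x).2 (Or.inr (Or.inl hx))
  have hD' : ∀ x ∈ D, x ∈ W := fun x hx => (hW x).2 (Or.inr (Or.inr hx))
  by_cases hb : ∃ b ∈ D, R v b
  · obtain ⟨b, hb, hvb⟩ := hb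
    refine ⟨C.filter fun x => ¬ R v x, fun x hx => hC' x (mem_filter.1 hx).1,
      ⟨z, mem_filter.2 ⟨hz, hvz⟩⟩, fun h => hvC (mem_filter.1 h).1, fun x hx y hy hyA hxy => ?_⟩
    obtain ⟨hx1, hx2⟩ := mem_filter.1 hx
    rcases (hW y).1 hy with rfl | hy' | hy'
    · exact hx2 (hs _ _ hxy)
    · have hvy : R v y := by
        by_contra h
        exact hyA (mem_filter.2 ⟨hy', h⟩)
      exact h4 x (hC' x hx1) y hy v ((hW v).2 (Or.inl rfl)) b (hD' b hb) hxy (hs _ _ hvy) hvb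
        (fun h => hx2 (hs _ _ h)) (hCD x hx1 b hb) (hCD y hy' b hb)
    · exact hCD x hx1 y hy' hxy
  · refine ⟨D, hD', hD, hvD, fun x hx y hy hyA hxy => ?_⟩
    rcases (hW y).1 hy with rfl | hy' | hy'
    · exact hb ⟨x, hx, hs _ _ hxy⟩
    · exact hCD y hy' x hx (hs _ _ hxy)
    · exact hyA hy'

theorem misc_step2 {V : Type} [DecidableEq V] {R : V → V → Prop} (hs : ∀ x y, R x y → R y x)
    {W A : Finset V} {v : V} (hv : v ∈ W) (hA : A ⊆ W.erase v) (hne : A.Nonempty)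
    (hne' : ∃ y ∈ W.erase v, y ∉ A) (hR : ∀ x ∈ A, ∀ y ∈ W.erase v, y ∉ A → ¬ R x y)
    (h4 : ∀ a ∈ W, ∀ b ∈ W, ∀ c ∈ W, ∀ d ∈ W, R a b → R b c → R c d → ¬ R a c → ¬ R a d →
      ¬ R b d → False) :
    ∃ B ⊆ W, B.Nonempty ∧ (∃ y ∈ W, y ∉ B) ∧
      ((∀ x ∈ B, ∀ y ∈ W, y ∉ B → R x y) ∨ ∀ x ∈ B, ∀ y ∈ W, y ∉ B → ¬ R x y) := by
  have hvA : v ∉ A := fun h => (mem_erase.1 (hA h)).1 rfl
  have hvD : v ∉ W.erase v \ A := fun h => (mem_erase.1 (mem_sdiff.1 h).1).1 rfl
  have hAW : ∀ x ∈ A, x ∈ W := fun x hx => (mem_erase.1 (hA hx)).2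
  by_cases hall : ∀ z ∈ W.erase v, R v z
  · obtain ⟨y, hy, -⟩ := hne'
    refine ⟨{v}, singleton_subset_iff.2 hv, singleton_nonempty v,
      ⟨y, (mem_erase.1 hy).2, fun h => (mem_erase.1 hy).1 (mem_singleton.1 h)⟩,
      Or.inl fun x hx y hy hy' => ?_⟩
    rw [mem_singleton.1 hx]
    exact hall y (mem_erase.2 ⟨fun h => hy' (mem_singleton.2 h), hy⟩)
  · push Not at hall
    obtain ⟨z, hz, hvz⟩ := hall
    by_cases hzA : z ∈ A
    · obtain ⟨y, hy, hy'⟩ := hne'
      obtain ⟨B, h1, h2, h3, h5⟩ := misc_step hs (W := W) (C := A) (D := W.erase v \ A) (v := v)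
        (fun x => by
          have := hAW x
          simp only [mem_sdiff, mem_erase]
          constructor
          · tauto
          · rintro (rfl | h | h)
            exacts [hv, this h, h.1.2]) hvA hvD ⟨y, mem_sdiff.2 ⟨hy, hy'⟩⟩ hzA hvz
        (fun x hx y hy => hR x hx y (mem_sdiff.1 hy).1 (mem_sdiff.1 hy).2) h4
      exact ⟨B, h1, h2, ⟨v, hv, h3⟩, Or.inr h5⟩
    · obtain ⟨B, h1, h2, h3, h5⟩ := misc_step hs (W := W) (C := W.erase v \ A) (D := A) (v := v)
        (fun x => by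
          have := hAW x
          simp only [mem_sdiff, mem_erase]
          constructor
          · tauto
          · rintro (rfl | h | h)
            exacts [hv, h.1.2, this h]) hvD hvA hne (mem_sdiff.2 ⟨hz, hzA⟩) hvz
        (fun x hx y hy h => hR y hy x (mem_sdiff.1 hx).1 (mem_sdiff.1 hx).2 (hs _ _ h)) h4
      exact ⟨B, h1, h2, ⟨v, hv, h3⟩, Or.inr h5⟩

theorem misc_noP4_mono {V : Type} {G : SimpleGraph V} {W W' : Finset V} (h : NoP4 G W)
    (hW : W' ⊆ W) : NoP4 G W' :=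
  fun a ha b hb c hc d hd => h a (hW ha) b (hW hb) c (hW hc) d (hW hd)

theorem misc_seinsche {V : Type} [DecidableEq V] {G : SimpleGraph V} (n : ℕ) :
    ∀ W : Finset V, W.card = n + 2 → NoP4 G W → ∃ B ⊆ W, B.Nonempty ∧ (∃ y ∈ W, y ∉ B) ∧
      ((∀ x ∈ B, ∀ y ∈ W, y ∉ B → G.Adj x y) ∨ ∀ x ∈ B, ∀ y ∈ W, y ∉ B → ¬ G.Adj x y) := by
  induction n with
  | zero =>
    intro W hW _
    obtain ⟨a, b, hab, rfl⟩ := card_eq_two.1 hW
    refine ⟨{a}, by simp, singleton_nonempty a, ⟨b, by simp, by simpa using hab.symm⟩, ?_⟩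
    by_cases h : G.Adj a b
    · exact Or.inl (by simp [h])
    · exact Or.inr (by simp [h])
  | succ n ih =>
    intro W hW h
    obtain ⟨v, hv⟩ := card_pos.1 (show 0 < W.card by omega)
    obtain ⟨A, h1, h2, h3, h4 | h4⟩ := ih (W.erase v) (by rw [card_erase_of_mem hv]; omega)
      (misc_noP4_mono h (erase_subset _ _))
    · obtain ⟨B, a1, a2, a3, a4⟩ := misc_step2 (R := fun x y => ¬ G.Adj x y)
        (fun _ _ h h' => h h'.symm) hv h1 h2 h3 (fun x hx y hy hy' h' => h' (h4 x hx y hy hy'))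
        fun a ha b hb c hc d hd e1 e2 e3 e4 e5 e6 =>
          h c hc a ha d hd b hb (not_not.1 e4).symm (not_not.1 e5) (not_not.1 e6).symm e3
            (fun e => e2 e.symm) e1
      exact ⟨B, a1, a2, a3, a4.symm.imp_left fun a x hx y hy hy' => not_not.1 (a x hx y hy hy')⟩
    · exact misc_step2 (fun _ _ h => h.symm) hv h1 h2 h3 h4 h

theorem wd_cograph {V : Type} [DecidableEq V] [Fintype V] {G : SimpleGraph V} {W : Finset V}
    (h : NoP4 G W) : Wd G W 1 := by
  induction W using Finset.strongInduction with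
  | H W ih =>
    by_cases hW : W.card ≤ 1
    · exact dec_of_card_le_one hW
    obtain ⟨B, h1, ⟨b, hb⟩, ⟨y, hy, hyB⟩, h4⟩ := misc_seinsche (W.card - 2) W (by omega) h
    have hB := ih B ((ssubset_iff_of_subset h1).2 ⟨y, hy, hyB⟩) (misc_noP4_mono h h1)
    have hC := ih (W \ B) ((ssubset_iff_of_subset sdiff_subset).2
      ⟨b, h1 hb, fun e => (mem_sdiff.1 e).2 hb⟩) (misc_noP4_mono h sdiff_subset)
    have d1 := Dec.transfer (G' := G) (W' := W) hB (fun _ => ()) (fun _ _ _ _ _ _ _ _ h => h)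
      (fun x hx x' hx' _ z hz hzB => by
        rcases h4 with h4 | h4
        · exact iff_of_true (h4 x hx z hz hzB) (h4 x' hx' z hz hzB)
        · exact iff_of_false (h4 x hx z hz hzB) (h4 x' hx' z hz hzB))
    have d2 := Dec.transfer (G' := G) (W' := W) hC (fun _ => ()) (fun _ _ _ _ _ _ _ _ h => h)
      (fun x hx x' hx' _ z hz hzC => by
        have hzB : z ∈ B := by
          by_contra h'
          exact hzC (mem_sdiff.2 ⟨hz, h'⟩)
        rw [mem_sdiff] at hx hx'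
        rcases h4 with h4 | h4
        · exact iff_of_true (h4 z hzB x hx.1 hx.2).symm (h4 z hzB x' hx'.1 hx'.2).symm
        · exact iff_of_false (fun e => h4 z hzB x hx.1 hx.2 e.symm)
            fun e => h4 z hzB x' hx'.1 hx'.2 e.symm)
    have e : B ∪ W \ B = W := union_sdiff_of_subset h1
    have := Dec.union B (W \ B) disjoint_sdiff (by simpa using d1) (by simpa using d2)
      (by rw [e]; exact types_self (G := G) le_rfl)
    rwa [e] at this

theorem misc_star {V : Type} [DecidableEq V] {G : SimpleGraph V} {W : Finset V} {x : V} {k : ℕ}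
    (hk : 2 ≤ k) (N : Finset V) (hx : x ∉ N) (hN : ∀ t ∈ N, ∀ z ∈ W, G.Adj t z → z = x) :
    Dec G W k ({x} ∪ N) := by
  induction N using Finset.induction_on with
  | empty => simpa using Dec.single x
  | insert t N ht ih =>
    have e : {x} ∪ insert t N = ({x} ∪ N) ∪ {t} := by
      ext y
      simp only [mem_union, mem_insert, mem_singleton]
      tauto
    have hxt : x ≠ t := fun h => hx (h ▸ mem_insert_self _ _)
    rw [e]
    refine Dec.union _ _ (by simp [ht, hxt.symm])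
      (ih (fun h => hx (mem_insert_of_mem h)) fun s hs => hN s (mem_insert_of_mem hs))
      (Dec.single t) ⟨Bool, inferInstance, fun y => decide (y = x), by simpa using hk, ?_⟩
    rw [← e]
    intro u hu w hw huw z hz hzN
    have hzx : z ≠ x := fun h => hzN (by simp [h])
    by_cases h1 : u = x
    · have h2 : w = x := by simpa [h1] using huw
      rw [h1, h2]
    · have h2 : w ≠ x := by simpa [h1] using huw
      have hu' : u ∈ insert t N := (mem_union.1 hu).resolve_left (by simpa using h1)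
      have hw' : w ∈ insert t N := (mem_union.1 hw).resolve_left (by simpa using h2)
      exact iff_of_false (fun h => hzx (hN u hu' z hz h)) fun h => hzx (hN w hw' z hz h)

theorem wd_pendant (k : ℕ) : ∃ K : ℕ, ∀ (V : Type) [DecidableEq V] [Fintype V]
    (G : SimpleGraph V) (W T : Finset V), (∀ t ∈ T, ∀ t' ∈ T, ¬ G.Adj t t') →
    (∀ t ∈ T, ∀ y ∈ W, ∀ z ∈ W, G.Adj t y → G.Adj t z → y = z) → Wd G (W \ T) k →
    Wd G W K := by
  classical
  refine ⟨k + 2, fun V _ _ G W T hT h1 hW => ?_⟩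
  have key : ∀ S, Dec G (W \ T) k S → S ⊆ W \ T →
      Dec G W (k + 2) (S ∪ (W ∩ T).filter fun t => ∃ s ∈ S, G.Adj t s) := by
    intro S hS
    induction hS with
    | empty => exact fun _ => by simpa using Dec.empty
    | single x =>
      intro hx
      obtain ⟨hxW, hxT⟩ := mem_sdiff.1 (hx (mem_singleton_self x))
      refine misc_star (by omega) _ (fun h => hxT (mem_inter.1 (mem_filter.1 h).1).2)
        fun t ht z hz htz => ?_
      obtain ⟨a, s, hs, hts⟩ := mem_filter.1 ht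
      rw [mem_singleton.1 hs] at hts
      exact h1 t (mem_inter.1 a).2 z hz x hxW htz hts
    | union S S' hd _ _ ht ihS ihS' =>
      intro hsub
      have hS : S ⊆ W \ T := subset_union_left.trans hsub
      have hS' : S' ⊆ W \ T := subset_union_right.trans hsub
      have e : (S ∪ S' ∪ (W ∩ T).filter fun t => ∃ s ∈ S ∪ S', G.Adj t s) =
          (S ∪ (W ∩ T).filter fun t => ∃ s ∈ S, G.Adj t s) ∪
            (S' ∪ (W ∩ T).filter fun t => ∃ s ∈ S', G.Adj t s) := by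
        ext y
        simp only [mem_union, mem_filter, or_and_right, exists_or, and_or_left]
        exact or_or_or_comm
      rw [e]
      refine Dec.union _ _ (disjoint_left.2 fun y hy hy' => ?_) (ihS hS) (ihS' hS') ?_
      · rcases mem_union.1 hy with a | a <;> rcases mem_union.1 hy' with b | b
        · exact disjoint_left.1 hd a b
        · exact (mem_sdiff.1 (hS a)).2 (mem_inter.1 (mem_filter.1 b).1).2
        · exact (mem_sdiff.1 (hS' b)).2 (mem_inter.1 (mem_filter.1 a).1).2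
        · obtain ⟨a1, s, hs, hys⟩ := mem_filter.1 a
          obtain ⟨-, s', hs', hys'⟩ := mem_filter.1 b
          have := h1 y (mem_inter.1 a1).2 s (mem_sdiff.1 (hS hs)).1 s' (mem_sdiff.1 (hS' hs')).1
            hys hys'
          exact disjoint_left.1 hd hs (this ▸ hs')
      · rw [← e]
        obtain ⟨P, _, c, hP, hc⟩ := ht
        refine ⟨Option P, inferInstance, fun y => if y ∈ T then none else some (c y),
          by rw [Fintype.card_option]; omega, fun x hx y hy hxy z hz hzS => ?_⟩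
        have a1 : ∀ u ∈ S ∪ S' ∪ (W ∩ T).filter fun t => ∃ s ∈ S ∪ S', G.Adj t s, u ∈ T →
            ¬ G.Adj u z := fun u hu huT huz => by
          obtain ⟨-, s, hs, hus⟩ := mem_filter.1
            ((mem_union.1 hu).resolve_left fun h => (mem_sdiff.1 (hsub h)).2 huT)
          exact hzS (mem_union_left _ (h1 u huT s (mem_sdiff.1 (hsub hs)).1 z hz hus huz ▸ hs))
        have a2 : ∀ u ∈ S ∪ S' ∪ (W ∩ T).filter fun t => ∃ s ∈ S ∪ S', G.Adj t s, u ∉ T →
            u ∈ S ∪ S' := fun u hu huT =>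
          (mem_union.1 hu).resolve_right fun h => huT (mem_inter.1 (mem_filter.1 h).1).2
        by_cases hxT : x ∈ T <;> by_cases hyT : y ∈ T
        · exact iff_of_false (a1 x hx hxT) (a1 y hy hyT)
        · simp [hxT, hyT] at hxy
        · simp [hxT, hyT] at hxy
        · by_cases hzT : z ∈ T
          · have a3 : ∀ u ∈ S ∪ S', ¬ G.Adj u z := fun u hu huz =>
              hzS (mem_union_right _ (mem_filter.2 ⟨mem_inter.2 ⟨hz, hzT⟩, u, hu, huz.symm⟩))
            exact iff_of_false (a3 x (a2 x hx hxT)) (a3 y (a2 y hy hyT))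
          · exact hc x (a2 x hx hxT) y (a2 y hy hyT) (by simpa [hxT, hyT] using hxy) z
              (mem_sdiff.2 ⟨hz, hzT⟩) fun h => hzS (mem_union_left _ h)
  have d1 := key _ hW Subset.rfl
  set E := W \ T ∪ (W ∩ T).filter fun t => ∃ s ∈ W \ T, G.Adj t s with hE
  have hEW : E ⊆ W := union_subset sdiff_subset ((filter_subset _ _).trans inter_subset_left)
  have hI : ∀ x ∈ W \ E, ∀ z ∈ W, ¬ G.Adj x z := fun x hx z hz hxz => by
    obtain ⟨hx1, hx2⟩ := mem_sdiff.1 hx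
    have hxT : x ∈ T := by
      by_contra h
      exact hx2 (mem_union_left _ (mem_sdiff.2 ⟨hx1, h⟩))
    exact hx2 (mem_union_right _ (mem_filter.2 ⟨mem_inter.2 ⟨hx1, hxT⟩, z,
      mem_sdiff.2 ⟨hz, fun h => hT x hxT z h hxz⟩, hxz⟩))
  have d2 := Dec.transfer (G' := G) (W' := W)
    (wd_indep (G := G) (W := W \ E) fun x hx y hy => hI x hx y (mem_sdiff.1 hy).1) (fun _ => ())
    (fun _ _ _ _ _ _ _ _ h => h)
    (fun x hx y hy _ z hz _ => iff_of_false (hI x hx z hz) (hI y hy z hz))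
  have e : E ∪ W \ E = W := union_sdiff_of_subset hEW
  have := Dec.union E (W \ E) disjoint_sdiff d1 (d2.mono (by simp))
    (by rw [e]; exact types_self (G := G) (by omega))
  rwa [e] at this

theorem small_card : ∃ N : ℕ, ∀ (V : Type) (G : SimpleGraph V) (T : Finset V),
    (∀ x : ℕ → V, (∀ i < 5, x i ∈ T ∧ ∀ j < i, x j ≠ x i ∧ G.Adj (x i) (x j)) → False) →
    (∀ x : ℕ → V, (∀ i < 5, x i ∈ T ∧ ∀ j < i, x j ≠ x i ∧ ¬ G.Adj (x i) (x j)) → False) →
    T.card ≤ N := by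
  classical
  obtain ⟨N, hN⟩ := ramsey Bool 5
  refine ⟨N, fun V G T h1 h2 => ?_⟩
  by_contra hlt
  obtain ⟨κ, l, a1, a2, a3⟩ := hN V (fun a b => decide (G.Adj b a)) T.toList
    (by rw [length_toList]; omega)
  have hnd : l.Nodup := (nodup_toList T).sublist a1
  have a4 := List.pairwise_iff_getElem.1 (hnd.and a3)
  have hm : ∀ i, i % 5 < l.length := fun i => by omega
  have key : ∀ i < 5, l[i % 5]'(hm i) ∈ T ∧ ∀ j < i, l[j % 5]'(hm j) ≠ l[i % 5]'(hm i) ∧
      decide (G.Adj (l[i % 5]'(hm i)) (l[j % 5]'(hm j))) = κ := fun i hi =>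
    ⟨mem_toList.1 (a1.subset (List.getElem_mem _)), fun j hj => a4 _ _ _ _ (by omega)⟩
  cases κ
  · exact h2 _ fun i hi => ⟨(key i hi).1, fun j hj =>
      ⟨((key i hi).2 j hj).1, of_decide_eq_false ((key i hi).2 j hj).2⟩⟩
  · exact h1 _ fun i hi => ⟨(key i hi).1, fun j hj =>
      ⟨((key i hi).2 j hj).1, of_decide_eq_true ((key i hi).2 j hj).2⟩⟩

end Pool.Agent.Lib.MP_1595d8_lc
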