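import Mathlib
import Pool.Agent.Lib.MP_1595d8_lc.H89Bits

/-!
Soundness of the application of facts.
-/

namespace Pool.Agent.Lib.MP_1595d8_lc

open Finset Pool.Agent.Lib.MP_042ec1_co

variable {V : Type} {w : Wld V} {a f f' : ℕ → V} {W : Finset V} {ty : V → ℕ}
  {anc n n' K s m D : ℕ}

theorem go_ne {k : ℕ → ℕ} (h : go n K s k ≠ 0) (hK : Tru w f n K) : k (slt K) ≠ 0 := by
  unfold go at h
  rw [fz_eq, hK.slt.not_cfl] at h
  exact h

theorem Inv.ext {md : Md} (h : Inv w a W ty anc f n md) (e : ∀ i < n, f' i = f i) (hn : n ≤ n') :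
    Inv w a W ty anc f' n' md := by
  cases md with
  | non => trivial
  | goal m k alts =>
    obtain ⟨h1, h2⟩ := h
    refine ⟨h1.trans hn, ?_⟩
    rintro ⟨alt, ha, g, hg, hs⟩
    exact h2 ⟨alt, ha, g, fun i hi => (hg i hi).trans (e i (by omega)), hs⟩
  | col n0 LL S φ j T rest =>
    obtain ⟨h1, h2, h3, hh, h4, h5⟩ := h
    refine ⟨h1, h2.trans hn, h3, hh, fun i hi => ⟨?_, (h4 i hi).2⟩, h5⟩
    rw [e _ (by omega)]
    exact (h4 i hi).1
  | path α β P n1 j =>
    obtain ⟨h1, h2, h3, h4, h5, h6, h7, k, x, h8, h9, h10, ⟨p, hp, hp1, hp2⟩, h12, h13,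
      q, hq, hq1, hq2⟩ := h
    have eα : f' α = f α := e _ (by omega)
    have eβ : f' β = f β := e _ (by omega)
    have e1 : ∀ p < n1, f' p = f p := fun p hp => e _ (by omega)
    refine ⟨h1, h2.trans hn, h3, h4, h5, h6, h7, k, x, h8, fun i hi => ?_, fun i hi => ?_,
      ⟨p, hp, hp1, ?_⟩, fun i hi p hp hP => ?_, fun i hi => ?_, q, hq, hq1, ?_⟩
    · rw [e _ (by omega)]
      exact h9 i hi
    · refine ⟨(h10 i hi).1, fun p hp => ?_, (h10 i hi).2.2⟩
      rw [e1 p hp]
      exact (h10 i hi).2.1 p hp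
    · rw [eα, eβ, e1 p hp]
      exact hp2
    · rw [eα, eβ, e1 p hp]
      exact h12 i hi p hp hP
    · rw [eα, eβ]
      exact h13 i hi
    · rw [eα, eβ, e1 q hq]
      exact hq2

theorem plc_inj_ne {u v : ℕ} (hI : Inj w f n) (hu : u < n) (hv : v < n) (huv : u ≠ v) :
    f u ≠ f v := by
  rcases Nat.lt_or_gt_of_ne huv with h | h
  · exact (hI v hv).2 u h
  · exact ((hI u hu).2 v h).symm

theorem plc_tb_dg (D j b : ℕ) :
    (dg D j).testBit b = (decide (b < 5) && D.testBit (5 * j + b)) := by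
  have e : (31 : ℕ) = 2 ^ 5 - 1 := by norm_num
  unfold dg
  rw [Nat.land_eq, Nat.shiftRight_eq, Nat.mul_eq, Nat.testBit_and, Nat.testBit_shiftRight, e,
    Nat.testBit_two_pow_sub_one, Bool.and_comm]

theorem plc_dg_lo {v i j : ℕ} (h : i < j) :
    dg (Nat.lor D (Nat.shiftLeft v (Nat.mul 5 j))) i = dg D i := by
  refine Nat.eq_of_testBit_eq fun b => ?_
  rw [plc_tb_dg, plc_tb_dg, Nat.lor_eq, Nat.shiftLeft_eq', Nat.mul_eq, Nat.testBit_or,
    Nat.testBit_shiftLeft]
  by_cases hb : b < 5
  · have : ¬ (5 * i + b ≥ 5 * j) := by omega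
    simp [this]
  · simp [hb]

theorem plc_dg_top {v j : ℕ} (hD : D < 2 ^ (5 * j)) (hv : v < 32) :
    dg (Nat.lor D (Nat.shiftLeft v (Nat.mul 5 j))) j = v := by
  refine Nat.eq_of_testBit_eq fun b => ?_
  rw [plc_tb_dg, Nat.lor_eq, Nat.shiftLeft_eq', Nat.mul_eq, Nat.testBit_or,
    Nat.testBit_shiftLeft]
  have h1 : D.testBit (5 * j + b) = false :=
    Nat.testBit_lt_two_pow (hD.trans_le (Nat.pow_le_pow_right (by norm_num) (by omega)))
  rw [h1]
  by_cases hb : b < 5
  · simp [hb]
  · have h2 : v.testBit b = false :=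
      Nat.testBit_lt_two_pow (hv.trans_le
        (le_trans (by norm_num) (Nat.pow_le_pow_right (by norm_num : 0 < 2) (not_lt.1 hb))))
    simp [hb, h2]

theorem plc_dg_lt {v j : ℕ} (hD : D < 2 ^ (5 * j)) (hv : v < 32) :
    Nat.lor D (Nat.shiftLeft v (Nat.mul 5 j)) < 2 ^ (5 * (j + 1)) := by
  rw [Nat.lor_eq, Nat.shiftLeft_eq', Nat.mul_eq]
  refine Nat.or_lt_two_pow (hD.trans_le (Nat.pow_le_pow_right (by norm_num) (by omega))) ?_
  rw [Nat.shiftLeft_eq, mul_add, pow_add, mul_comm]
  exact Nat.mul_lt_mul_of_pos_left (by norm_num; exact hv) (by positivity)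

theorem plc_tb_add (us d v : ℕ) :
    (Nat.lor us (Nat.shiftLeft 1 d)).testBit v = true ↔ us.testBit v = true ∨ d = v := by
  rw [Nat.lor_eq, Nat.shiftLeft_eq', Nat.testBit_or, Nat.one_shiftLeft, Nat.testBit_two_pow]
  simp

theorem plc_tb_us0 {v : ℕ} (hv : v < 32) : (us0 m).testBit v = true ↔ v < m := by
  have e : (1099511627776 : ℕ) = 2 ^ 40 := by norm_num
  have e2 : ¬ 40 = v := by omega
  unfold us0
  rw [Nat.lor_eq, Nat.sub_eq, Nat.shiftLeft_eq', Nat.testBit_or, Nat.one_shiftLeft,
    Nat.testBit_two_pow_sub_one, e, Nat.testBit_two_pow]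
  simp [e2]

theorem plc_idD {k : ℕ} (h : m + k ≤ 32) :
    idD m k < 2 ^ (5 * k) ∧ ∀ j < k, dg (idD m k) j = m + j := by
  induction k with
  | zero => exact ⟨Nat.one_pos, fun j hj => absurd hj (Nat.not_lt_zero j)⟩
  | succ k ih =>
    obtain ⟨h1, h2⟩ := ih (by omega)
    have e : idD m (k + 1) = Nat.lor (idD m k) (Nat.shiftLeft (m + k) (Nat.mul 5 k)) := rfl
    rw [e]
    refine ⟨plc_dg_lt h1 (by omega), fun j hj => ?_⟩
    rcases Nat.lt_succ_iff_lt_or_eq.1 hj with hj | rfl
    · rw [plc_dg_lo hj]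
      exact h2 j hj
    · exact plc_dg_top h1 (by omega)

theorem plc_chk_nil (j us : ℕ) : chk m n K D [] j us = us := rfl

theorem plc_chk_cons (r : ℕ) (rs : List ℕ) (j us : ℕ) : chk m n K D (r :: rs) j us =
    fz (dg D j) fun d => bif Nat.blt d n && (Nat.blt (Nat.add m j) 32 &&
        (!tb us d && Nat.beq (Nat.lor K (trR r m d D j)) K)) then
      fz (Nat.lor us (Nat.shiftLeft 1 d)) fun us' => chk m n K D rs (Nat.succ j) us' else 0 := rfl

theorem plc_chk_gen (rs : List ℕ) : ∀ j us, chk m n K D rs j us ≠ 0 →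
    (∀ i < rs.length, dg D (j + i) < n ∧ m + (j + i) < 32 ∧
      ¬ us.testBit (dg D (j + i)) = true ∧ (∀ i' < i, dg D (j + i') ≠ dg D (j + i)) ∧
      Nat.lor K (trR (rs.getD i 0) m (dg D (j + i)) D (j + i)) = K) ∧
    ∀ v, (chk m n K D rs j us).testBit v = true ↔
      us.testBit v = true ∨ ∃ i < rs.length, dg D (j + i) = v := by
  induction rs with
  | nil =>
    intro j us _
    refine ⟨fun i hi => absurd hi (Nat.not_lt_zero i), fun v => ?_⟩
    rw [plc_chk_nil]
    simp
  | cons r rs ih =>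
    intro j us h
    rw [plc_chk_cons, fz_eq] at h ⊢
    cases hc : (Nat.blt (dg D j) n && (Nat.blt (Nat.add m j) 32 &&
        (!tb us (dg D j) && Nat.beq (Nat.lor K (trR r m (dg D j) D j)) K))) with
    | false =>
      rw [hc] at h
      exact absurd rfl h
    | true =>
      rw [hc, cond_true, fz_eq] at h
      rw [cond_true, fz_eq]
      simp only [Bool.and_eq_true, Nat.blt_eq, Nat.beq_eq, Nat.add_eq, tb_eq, Bool.not_eq_true',
        ← Bool.not_eq_true] at hc
      obtain ⟨c1, c2, c3, c4⟩ := hc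
      obtain ⟨i1, i2⟩ := ih _ _ h
      have ea : ∀ i, Nat.succ j + i = j + (i + 1) := fun i => by omega
      simp only [ea] at i1 i2
      refine ⟨fun i hi => ?_, fun v => ?_⟩
      · rcases i with _ | i
        · exact ⟨c1, c2, c3, fun i' hi' => absurd hi' (Nat.not_lt_zero i'), c4⟩
        · obtain ⟨k1, k2, k3, k4, k5⟩ := i1 i (by simpa using hi)
          rw [plc_tb_add, not_or] at k3
          refine ⟨k1, k2, k3.1, fun i' hi' => ?_, k5⟩
          rcases i' with _ | i'
          · exact k3.2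
          · exact k4 i' (by omega)
      · rw [i2, plc_tb_add]
        constructor
        · rintro ((h1 | h1) | ⟨i, hi, h1⟩)
          · exact Or.inl h1
          · exact Or.inr ⟨0, by simp, h1⟩
          · exact Or.inr ⟨i + 1, by simpa using hi, h1⟩
        · rintro (h1 | ⟨i, hi, h1⟩)
          · exact Or.inl (Or.inl h1)
          · rcases i with _ | i
            · exact Or.inl (Or.inr h1)
            · exact Or.inr ⟨i, by simpa using hi, h1⟩

/-- If the rows are present, they are realised through the digits of `D`; the result is the set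
of used vertices together with the marker bit. -/
theorem chk_sound {rs : List ℕ} (hm : m ≤ n) (hn : n ≤ 32) (hI : Inj w f n) (hK : Tru w f n K)
    (h : chk m n K D rs 0 (us0 m) ≠ 0) :
    m + rs.length ≤ 32 ∧ (∀ j < rs.length, dg D j < n ∧ m ≤ dg D j) ∧
    SatL w (fun i => if m ≤ i ∧ i < m + rs.length then f (dg D (i - m)) else f i) m rs ∧
    ∀ v < 32, ((chk m n K D rs 0 (us0 m)).testBit v = true ↔
      v < m ∨ ∃ j < rs.length, dg D j = v) := by
  obtain ⟨h1, h2⟩ := plc_chk_gen rs 0 (us0 m) h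
  simp only [zero_add] at h1 h2
  have hlen : m + rs.length ≤ 32 := by
    rcases Nat.eq_zero_or_pos rs.length with h0 | h0
    · omega
    · have := (h1 (rs.length - 1) (by omega)).2.1
      omega
  have hd : ∀ j < rs.length, dg D j < n ∧ m ≤ dg D j := fun j hj => by
    refine ⟨(h1 j hj).1, ?_⟩
    have := (h1 j hj).2.2.1
    rw [plc_tb_us0 dg_lt] at this
    omega
  set g : ℕ → V := fun i => if m ≤ i ∧ i < m + rs.length then f (dg D (i - m)) else f i with hg
  have g1 : ∀ b < m, g b = f b := fun b hb => if_neg (by omega)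
  have g2 : ∀ j < rs.length, g (m + j) = f (dg D j) := fun j hj => by
    have : g (m + j) = f (dg D (m + j - m)) := if_pos (by omega)
    rw [this, Nat.add_sub_cancel_left]
  refine ⟨hlen, hd, ⟨fun i hi => ?_, fun j hj => ?_⟩, fun v hv => ?_⟩
  · by_cases him : i < m
    · rw [g1 i him]
      refine ⟨(hI i (by omega)).1, fun j hj => ?_⟩
      rw [g1 j (by omega)]
      exact (hI i (by omega)).2 j hj
    · obtain ⟨i, rfl⟩ := Nat.exists_eq_add_of_le (not_lt.1 him)
      have hi' : i < rs.length := by omega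
      rw [g2 i hi']
      refine ⟨(hI _ (hd i hi').1).1, fun j hj => ?_⟩
      by_cases hjm : j < m
      · rw [g1 j hjm]
        exact (hI _ (hd i hi').1).2 j (hjm.trans_le (hd i hi').2)
      · obtain ⟨j, rfl⟩ := Nat.exists_eq_add_of_le (not_lt.1 hjm)
        rw [g2 j (by omega)]
        exact plc_inj_ne hI (hd j (by omega)).1 (hd i hi').1 ((h1 i hi').2.2.2.1 j (by omega))
  · rw [g2 j hj]
    have hT : Tru w f n (trR (rs.getD j 0) m (dg D j) D j) := by
      have := hK
      rw [← (h1 j hj).2.2.2.2] at this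
      exact (tru_lor.1 this).2
    exact (tru_trR (hd j hj).1 hn (hd j hj).2 (by omega) g1 fun i hi =>
      ⟨(hd i (by omega)).1, (h1 j hj).2.2.2.1 i hi, g2 i (by omega)⟩).1 hT
  · rw [h2, plc_tb_us0 hv]

theorem plc_nil (k : ℕ → ℕ → ℕ → ℕ) (l j us : ℕ) : plc k m l [] j us D n K s = k n K s := rfl

theorem plc_cons (k : ℕ → ℕ → ℕ → ℕ) (l r : ℕ) (rs : List ℕ) (j us : ℕ) :
    plc k m l (r :: rs) j us D n K s =
    bif Nat.blt j l then
      go n (Nat.lor K (fz (dg D j) fun d => trR r m d D j)) s fun K' =>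
        plc k m l rs (Nat.succ j) us D n K' s
    else
      sq (loop n (fun v s => bif tb us v then s else
        go n (Nat.lor K (trR r m v D j)) s fun K' =>
          fz (Nat.lor us (Nat.shiftLeft 1 v)) fun us' =>
          fz (Nat.lor D (Nat.shiftLeft v (Nat.mul 5 j))) fun D' =>
            plc k m l rs (Nat.succ j) us' D' n K' s) s) fun s =>
      bif Nat.blt n 32 && Nat.blt (Nat.add m j) 32 then
        go (Nat.succ n) (Nat.lor (cut K n) (trR r m n D j)) s fun K' =>
          fz (Nat.lor us (Nat.shiftLeft 1 n)) fun us' =>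
          fz (Nat.lor D (Nat.shiftLeft n (Nat.mul 5 j))) fun D' =>
          fz (Nat.succ n) fun n' => plc k m l rs (Nat.succ j) us' D' n' K' s
      else 0 := rfl

theorem plc_gen {k : ℕ → ℕ → ℕ → ℕ} {I : (ℕ → V) → ℕ → Prop} {l : ℕ} {g : ℕ → V}
    (hI : ∀ f f' n n', I f n → (∀ i < n, f' i = f i) → n ≤ n' → I f' n')
    (hk : ∀ n K s, k n K s ≠ 0 → ∀ f : ℕ → V, anc ≤ n → n ≤ 32 → (∀ i < anc, f i = a i) →
      Inj w f n → Tru w f n K → I f n → False)
    (hm : m ≤ anc) (hl : m + l ≤ 32) (rs : List ℕ) :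
    ∀ (j us D n K s : ℕ) (f : ℕ → V), plc k m l rs j us D n K s ≠ 0 →
      Inj w g (m + (j + rs.length)) →
      (∀ i < rs.length, RowOK w g (m + (j + i)) (g (m + (j + i))) (rs.getD i 0)) →
      anc ≤ n → n ≤ 32 → (∀ i < anc, f i = a i) → Inj w f n → Tru w f n K → I f n →
      (∀ b < m, g b = f b) →
      (∀ i < max j l, dg D i < n ∧ m ≤ dg D i ∧ g (m + i) = f (dg D i)) →
      (∀ v < 32, us.testBit v = true ↔ v < m ∨ ∃ i < max j l, dg D i = v) →
      D < 2 ^ (5 * max j l) → False := by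
  induction rs with
  | nil =>
    intro j us D n K s f h _ _ h1 h2 h3 h4 h5 h6 _ _ _ _
    exact hk n K s h f h1 h2 h3 h4 h5 h6
  | cons r rs ih =>
    intro j us D n K s f h gI gR h1 h2 h3 h4 h5 h6 e1 e2 e3 e4
    rw [List.length_cons] at gI gR
    have gI' : Inj w g (m + (Nat.succ j + rs.length)) := by
      have : Nat.succ j + rs.length = j + (rs.length + 1) := by omega
      rw [this]
      exact gI
    have gR' : ∀ i < rs.length,
        RowOK w g (m + (Nat.succ j + i)) (g (m + (Nat.succ j + i))) (rs.getD i 0) := by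
      intro i hi
      have : Nat.succ j + i = j + (i + 1) := by omega
      rw [this]
      exact gR (i + 1) (by omega)
    have gr : RowOK w g (m + j) (g (m + j)) r := gR 0 (by omega)
    have gne : ∀ u < m + j, g u ≠ g (m + j) := (gI (m + j) (by omega)).2
    rw [plc_cons] at h
    by_cases hj : j < l
    · have hb : Nat.blt j l = true := by
        rw [Nat.blt_eq]
        exact hj
      have em : max j l = l := by omega
      have em' : max (Nat.succ j) l = l := by omega
      rw [em] at e2 e3 e4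
      rw [hb, cond_true, fz_eq] at h
      have hT : Tru w f n (Nat.lor K (trR r m (dg D j) D j)) := by
        refine tru_lor.2 ⟨h5, (tru_trR (e2 j hj).1 h2 (e2 j hj).2.1 (by omega) e1
          fun i hi => ⟨(e2 i (by omega)).1, fun e => ?_, (e2 i (by omega)).2.2⟩).2 ?_⟩
        · refine gne (m + i) (by omega) ?_
          rw [(e2 i (by omega)).2.2, (e2 j hj).2.2, e]
        · rw [← (e2 j hj).2.2]
          exact gr
      have hgo := go_ne h hT
      exact ih _ _ _ _ _ _ f hgo gI' gR' h1 h2 h3 h4 hT.slt h6 e1 (em'.symm ▸ e2)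
        (em'.symm ▸ e3) (em'.symm ▸ e4)
    · have hb : Nat.blt j l = false := by
        rw [← Bool.not_eq_true, Nat.blt_eq]
        exact hj
      have em : max j l = j := by omega
      have em' : max (Nat.succ j) l = j + 1 := by omega
      rw [em] at e2 e3 e4
      rw [hb, cond_false] at h
      obtain ⟨hA, hB⟩ := sq_ne h
      generalize loop n _ s = s' at hB
      cases hc : (Nat.blt n 32 && Nat.blt (Nat.add m j) 32) with
      | false =>
        rw [hc] at hB
        exact hB rfl
      | true =>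
      rw [hc, cond_true] at hB
      simp only [Bool.and_eq_true, Nat.blt_eq, Nat.add_eq] at hc
      obtain ⟨c1, c2⟩ := hc
      have step : ∀ (v n' K' s : ℕ) (f' : ℕ → V), n ≤ n' → n' ≤ 32 → v < n' → m ≤ v →
          (∀ i < n, f' i = f i) → f' v = g (m + j) → Inj w f' n' → Tru w f' n' K' →
          plc k m l rs (Nat.succ j) (Nat.lor us (Nat.shiftLeft 1 v))
            (Nat.lor D (Nat.shiftLeft v (Nat.mul 5 j))) n' K' s ≠ 0 → False := by
        intro v n' K' s f' p1 p2 p3 p4 p5 p6 p7 p8 p9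
        have hv : v < 32 := by omega
        refine ih _ _ _ _ _ _ f' p9 gI' gR' (by omega) p2
          (fun i hi => (p5 i (by omega)).trans (h3 i hi)) p7 p8 (hI f f' n n' h6 p5 p1)
          (fun b hb => (e1 b hb).trans (p5 b (by omega)).symm) ?_ ?_ ?_
        · rw [em']
          intro i hi
          rcases Nat.lt_succ_iff_lt_or_eq.1 hi with hi | rfl
          · rw [plc_dg_lo hi, p5 _ (e2 i hi).1]
            exact ⟨(e2 i hi).1.trans_le p1, (e2 i hi).2⟩
          · rw [plc_dg_top e4 hv]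
            exact ⟨p3, p4, p6.symm⟩
        · rw [em']
          intro u hu
          rw [plc_tb_add, e3 u hu]
          constructor
          · rintro ((q | ⟨i, hi, q⟩) | q)
            · exact Or.inl q
            · exact Or.inr ⟨i, by omega, (plc_dg_lo hi).trans q⟩
            · exact Or.inr ⟨j, by omega, (plc_dg_top e4 hv).trans q⟩
          · rintro (q | ⟨i, hi, q⟩)
            · exact Or.inl (Or.inl q)
            · rcases Nat.lt_succ_iff_lt_or_eq.1 hi with hi | rfl
              · exact Or.inl (Or.inr ⟨i, hi, (plc_dg_lo hi).symm.trans q⟩)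
              · exact Or.inr ((plc_dg_top e4 hv).symm.trans q)
        · rw [em']
          exact plc_dg_lt e4 hv
      by_cases hex : ∃ v < n, f v = g (m + j)
      · obtain ⟨v, hv, ev⟩ := hex
        obtain ⟨s'', hs⟩ := loop_ne hA v hv
        have q1 : m ≤ v := by
          by_contra q
          exact gne v (by omega) ((e1 v (by omega)).trans ev)
        have q2 : ∀ i < j, dg D i ≠ v := fun i hi q =>
          gne (m + i) (by omega) (by rw [(e2 i hi).2.2, q, ev])
        have q3 : tb us v = false := by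
          rw [tb_eq, ← Bool.not_eq_true, e3 v (by omega)]
          rintro (q | ⟨i, hi, q⟩)
          · omega
          · exact q2 i hi q
        rw [q3, cond_false] at hs
        have hT : Tru w f n (Nat.lor K (trR r m v D j)) :=
          tru_lor.2 ⟨h5, (tru_trR hv h2 q1 (by omega) e1
            fun i hi => ⟨(e2 i hi).1, q2 i hi, (e2 i hi).2.2⟩).2 (ev.symm ▸ gr)⟩
        have := go_ne hs hT
        rw [fz_eq, fz_eq] at this
        exact step v n _ _ f le_rfl h2 hv q1 (fun _ _ => rfl) ev h4 hT.slt this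
      · have p5 : ∀ i < n, Function.update f n (g (m + j)) i = f i := fun i hi =>
          Function.update_of_ne hi.ne _ _
        have p6 : Function.update f n (g (m + j)) n = g (m + j) := Function.update_self _ _ _
        generalize Function.update f n (g (m + j)) = f' at p5 p6
        have p7 : Inj w f' (n + 1) := by
          intro i hi
          rcases Nat.lt_succ_iff_lt_or_eq.1 hi with hi | rfl
          · rw [p5 i hi]
            exact ⟨(h4 i hi).1, fun u hu => by
              rw [p5 u (by omega)]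
              exact (h4 i hi).2 u hu⟩
          · rw [p6]
            exact ⟨(gI (m + j) (by omega)).1, fun u hu q => hex ⟨u, hu, (p5 u hu).symm.trans q⟩⟩
        have hT : Tru w f' (n + 1) (Nat.lor (cut K n) (trR r m n D j)) :=
          tru_lor.2 ⟨(h5.congr p5).cut (n + 1), (tru_trR (Nat.lt_succ_self n) (by omega) (by omega)
            (by omega) (fun b hb => (e1 b hb).trans (p5 b (by omega)).symm)
            fun i hi => ⟨(e2 i hi).1.trans (Nat.lt_succ_self n), (e2 i hi).1.ne,
              (e2 i hi).2.2.trans (p5 _ (e2 i hi).1).symm⟩).2 (p6.symm ▸ gr)⟩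
        have := go_ne hB hT
        rw [fz_eq, fz_eq, fz_eq] at this
        exact step n (n + 1) _ _ f' (by omega) (by omega) (by omega) (by omega) p5 p6 p7 hT.slt this

theorem plc_alts (F : List ℕ → ℕ → ℕ) (alts : List (List ℕ)) : ∀ s : ℕ,
    (List.rec (fun s => s) (fun alt _ ih s => sq s fun s => ih (F alt s)) alts : ℕ → ℕ) s ≠ 0 →
      s ≠ 0 ∧ ∀ alt ∈ alts, ∃ s, F alt s ≠ 0 := by
  induction alts with
  | nil => exact fun s h => ⟨h, fun _ h => absurd h List.not_mem_nil⟩
  | cons alt alts ih =>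
    intro s h
    obtain ⟨h1, h2⟩ := sq_ne h
    obtain ⟨h3, h4⟩ := ih _ h2
    refine ⟨h1, fun alt' ha => ?_⟩
    rcases List.mem_cons.1 ha with rfl | ha
    · exact ⟨s, h3⟩
    · exact h4 _ ha

theorem apF_sound {k : ℕ → ℕ → ℕ → ℕ} {φ : Fact} {I : (ℕ → V) → ℕ → Prop}
    (hI : ∀ f f' n n', I f n → (∀ i < n, f' i = f i) → n ≤ n' → I f' n')
    (hk : ∀ n K s, k n K s ≠ 0 → ∀ f : ℕ → V, anc ≤ n → n ≤ 32 → (∀ i < anc, f i = a i) →
      Inj w f n → Tru w f n K → I f n → False)
    (hφ : Holds w a φ) (h : apF k anc n K s φ ≠ 0) (h1 : anc ≤ n) (h2 : n ≤ 32)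
    (h3 : ∀ i < anc, f i = a i) (h4 : Inj w f n) (h5 : Tru w f n K) (h6 : I f n) : False := by
  obtain ⟨m, rows, alts⟩ := φ
  unfold apF at h
  simp only [fz_eq, len_eq] at h
  cases hc : Nat.ble m anc with
  | false =>
    rw [hc] at h
    exact h rfl
  | true =>
  rw [hc, cond_true] at h
  have hm : m ≤ anc := by
    rw [Nat.ble_eq] at hc
    exact hc
  have hD : Nat.mod s (Nat.shiftLeft 1 (Nat.mul 5 rows.length)) < 2 ^ (5 * rows.length) := by
    rw [Nat.shiftLeft_eq', Nat.one_shiftLeft, Nat.mul_eq]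
    exact Nat.mod_lt _ (by positivity)
  generalize Nat.mod s (Nat.shiftLeft 1 (Nat.mul 5 rows.length)) = D at h hD
  obtain ⟨hA, hB⟩ := sq_ne h
  obtain ⟨c1, c2, c3, c4⟩ := chk_sound (hm.trans h1) h2 h4 h5 hA
  generalize chk m n K D rows 0 (us0 m) = us at hB c4
  obtain ⟨alt, ha, g, hg, gI, gR⟩ := hφ _
    (fun i (hi : i < m) => (if_neg (by omega)).trans (h3 i (by omega))) c3
  obtain ⟨s', hs⟩ := (plc_alts (fun alt s => plc k m rows.length alt 0 us D n K s) alts _ hB).2 alt ha
  have hg' : ∀ i < m + rows.length,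
      g i = if m ≤ i ∧ i < m + rows.length then f (dg D (i - m)) else f i := hg
  have em : max 0 rows.length = rows.length := Nat.zero_max _
  refine plc_gen (g := g) hI hk hm c1 alt 0 us D n K s' f hs ?_ ?_ h1 h2 h3 h4 h5 h6 ?_ ?_ ?_ ?_
  · rw [zero_add]
    exact gI
  · intro i hi
    rw [zero_add]
    exact gR i hi
  · intro b hb
    rw [hg' b (by omega), if_neg (by omega)]
  · rw [em]
    intro i hi
    refine ⟨(c2 i hi).1, (c2 i hi).2, ?_⟩
    rw [hg' _ (by omega), if_pos (by omega), Nat.add_sub_cancel_left]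
  · rw [em]
    exact c4
  · rw [em]
    exact hD

theorem goalSt_sound {l : ℕ} {alts : List (List ℕ)} (h : goalSt m l alts n K s ≠ 0)
    (h1 : m + l ≤ n) (h2 : n ≤ 32) (h4 : Inj w f n) (h5 : Tru w f n K) :
    Ext w f m (m + l) alts := by
  unfold goalSt at h
  simp only [fz_eq, len_eq, nth_eq] at h
  generalize Nat.land s 63 = t at h
  generalize Nat.mod (Nat.shiftRight s 6) _ = X at h
  cases hc : (Nat.blt t alts.length && (Nat.ble (Nat.add m l) 32 &&
      !Nat.beq (chk m n K (Nat.lor (idD m l) (Nat.shiftLeft X (Nat.mul 5 l))) (alts.getD t []) 0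
        (us0 m)) 0)) with
  | false =>
    rw [hc] at h
    exact absurd rfl h
  | true =>
  simp only [Bool.and_eq_true, Nat.blt_eq, Nat.ble_eq, Nat.add_eq, Bool.not_eq_true',
    ← Bool.not_eq_true, Nat.beq_eq] at hc
  obtain ⟨c1, c2, c3⟩ := hc
  obtain ⟨-, -, d3, -⟩ := chk_sound (by omega) h2 h4 h5 c3
  refine ⟨alts.getD t [], ?_, _, fun i hi => ?_, d3⟩
  · rw [List.getD_eq_getElem _ _ c1]
    exact List.getElem_mem c1
  · split_ifs with hq
    · rw [plc_dg_lo (by omega), (plc_idD c2).2 _ (by omega)]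
      congr 1
      omega
    · rfl

end Pool.Agent.Lib.MP_1595d8_lc
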