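import Mathlib
import Pool.Agent.Lib.MP_1595d8_lc.H89Plc
import Pool.Agent.Lib.MP_1595d8_lc.H89Misc

/-!
Soundness of the tableau.
-/

namespace Pool.Agent.Lib.MP_1595d8_lc

open Finset Pool.Agent.Lib.MP_042ec1_co

variable {V : Type} {w : Wld V} {a : ℕ → V} {W : Finset V} {ty : V → ℕ} {anc : ℕ}

theorem tab_land_lt (x m : ℕ) : Nat.land x m < m + 1 := Nat.lt_succ_of_le Nat.and_le_right

theorem tab_blt {x y : ℕ} (h : x < y) : Nat.blt x y = true := by
  rw [Nat.blt_eq]; exact h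

theorem tab_mod (x y : ℕ) : Nat.mod x y = x % y := rfl

theorem phi_comm (φ t u : ℕ) : phi φ t u = phi φ u t := by
  unfold phi
  rcases lt_trichotomy t u with h | rfl | h
  · have h1 : Nat.blt u t = false := by
      rw [Bool.eq_false_iff, Ne, Nat.blt_eq]; omega
    have h2 : Nat.blt t u = true := tab_blt h
    rw [h1, h2]; rfl
  · rfl
  · have h1 : Nat.blt t u = false := by
      rw [Bool.eq_false_iff, Ne, Nat.blt_eq]; omega
    have h2 : Nat.blt u t = true := tab_blt h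
    rw [h1, h2]; rfl

theorem phi_lt (φ t u : ℕ) : phi φ t u < 4 := tab_land_lt _ 3

theorem tab_cond {c : Bool} {x : ℕ} (h : (bif c then x else 0) ≠ 0) : c = true ∧ x ≠ 0 := by
  cases c
  · exact absurd rfl h
  · exact ⟨rfl, h⟩

theorem tab_cell1 {p : Prop} : CellOK 1 p ↔ p :=
  ⟨fun h => h.1 (by decide), fun h => ⟨fun _ => h, fun h' => absurd h' (by decide)⟩⟩

theorem tab_cell2 {p : Prop} : CellOK 2 p ↔ ¬ p :=
  ⟨fun h => h.2 (by decide), fun h => ⟨fun h' => absurd h' (by decide), fun _ => h⟩⟩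

theorem tab_cell0 {p : Prop} : CellOK 0 p :=
  ⟨fun h' => absurd h' (by decide), fun h' => absurd h' (by decide)⟩

theorem tab_cell_iff {c : ℕ} {p q : Prop} (e : p ↔ q) (h : CellOK c p) : CellOK c q :=
  ⟨fun h' => e.1 (h.1 h'), fun h' hq => h.2 h' (e.2 hq)⟩

theorem tab_swp_lt {c : ℕ} (hc : c < 4) : swp c < 4 := by
  interval_cases c <;> decide

theorem tab_upd (f : ℕ → V) (n : ℕ) (y : V) : ∃ f' : ℕ → V, (∀ i < n, f' i = f i) ∧ f' n = y :=
  ⟨Function.update f n y, fun _ hi => Function.update_of_ne hi.ne _ _, Function.update_self ..⟩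

theorem tab_inj {f f' : ℕ → V} {n : ℕ} (h : Inj w f n) (e : ∀ i < n, f' i = f i)
    (hU : f' n ∈ w.U) (hne : ∀ i < n, f i ≠ f' n) : Inj w f' (n + 1) := by
  intro i hi
  rcases Nat.lt_succ_iff_lt_or_eq.1 hi with hi | rfl
  · rw [e i hi]
    exact ⟨(h i hi).1, fun j hj => by rw [e j (hj.trans hi)]; exact (h i hi).2 j hj⟩
  · exact ⟨hU, fun j hj => by rw [e j hj]; exact hne j hj⟩

theorem tab_lit {f : ℕ → V} {x : V} {b : ℕ} (hb : b < 32) : lit w f x b ↔ w.G.Adj x (f b) := by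
  unfold lit
  rw [if_pos hb]

theorem tab_nvio {f : ℕ → V} {n K α β x y : ℕ} (hK : Tru w f n K) (hn : n ≤ 32) (h1 : α < n)
    (h2 : β < n) (h3 : x < n) (h4 : y < n) (e1 : x ≠ y) (e2 : x ≠ β) (e3 : α ≠ y)
    (h : nvio K α β x y = true) : ¬ Vio w.G (f α) (f β) (f x) (f y) := by
  have c1 := hK.getc h3 h4 hn e1
  have c2 := hK.getc h3 h2 hn e2
  have c3 := hK.getc h1 h4 hn e3
  unfold Vio
  rw [not_not]
  unfold nvio at h
  cases hb : Nat.beq (getc K x y) 1
  · rw [hb] at h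
    simp only [cond_false, Bool.and_eq_true, Bool.or_eq_true, Nat.beq_eq] at h
    rw [h.1, tab_cell2] at c1
    refine ⟨fun h' => absurd h' c1, fun h' => ?_⟩
    rcases h.2 with h5 | h5
    · rw [h5, tab_cell2] at c2
      exact absurd h'.1 c2
    · rw [h5, tab_cell2] at c3
      exact absurd h'.2 c3
  · rw [hb] at h
    simp only [cond_true, Bool.and_eq_true, Nat.beq_eq] at h hb
    rw [hb, tab_cell1] at c1
    rw [h.1, tab_cell1] at c2
    rw [h.2, tab_cell1] at c3
    exact ⟨fun _ => ⟨c2, c3⟩, fun _ => c1⟩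

theorem tab_dg6_bit (T i b : ℕ) : (dg6 T i).testBit b = (T.testBit (6 * i + b) && decide (b < 6)) := by
  have e : (63 : ℕ) = 2 ^ 6 - 1 := by norm_num
  unfold dg6
  rw [Nat.land_eq, Nat.shiftRight_eq, Nat.mul_eq, Nat.testBit_and, Nat.testBit_shiftRight, e,
    Nat.testBit_two_pow_sub_one]

theorem tab_T_bit (T t j b : ℕ) :
    (Nat.lor (Nat.mod T (Nat.shiftLeft 1 (Nat.mul 6 j))) (Nat.shiftLeft t (Nat.mul 6 j))).testBit b =
      ((decide (b < 6 * j) && T.testBit b) || (decide (6 * j ≤ b) && t.testBit (b - 6 * j))) := by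
  rw [Nat.lor_eq, tab_mod, Nat.shiftLeft_eq', Nat.shiftLeft_eq', Nat.mul_eq, Nat.testBit_or,
    Nat.one_shiftLeft, Nat.testBit_mod_two_pow, Nat.testBit_shiftLeft]

theorem tab_dg6_old {T t j i : ℕ} (hi : i < j) :
    dg6 (Nat.lor (Nat.mod T (Nat.shiftLeft 1 (Nat.mul 6 j))) (Nat.shiftLeft t (Nat.mul 6 j))) i =
      dg6 T i := by
  refine Nat.eq_of_testBit_eq fun b => ?_
  rw [tab_dg6_bit, tab_dg6_bit, tab_T_bit]
  by_cases hb : b < 6
  · have h1 : 6 * i + b < 6 * j := by omega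
    have h2 : ¬ 6 * j ≤ 6 * i + b := by omega
    simp [h1, h2]
  · simp [hb]

theorem tab_dg6_new {T t j : ℕ} (ht : t < 64) :
    dg6 (Nat.lor (Nat.mod T (Nat.shiftLeft 1 (Nat.mul 6 j))) (Nat.shiftLeft t (Nat.mul 6 j))) j =
      t := by
  refine Nat.eq_of_testBit_eq fun b => ?_
  rw [tab_dg6_bit, tab_T_bit]
  by_cases hb : b < 6
  · simp [hb]
  · have h1 : t < 2 ^ b :=
      lt_of_lt_of_le ht (Nat.pow_le_pow_right (n := 2) (i := 6) (by norm_num) (not_lt.1 hb))
    simp [hb, Nat.testBit_lt_two_pow h1]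

theorem tab_fcel {G : SimpleGraph V} {φ c : ℕ} {y z : V} (hyz : y ≠ z) (hc : c < 4)
    (h : CellOK c ((flipG G ty φ).Adj y z)) :
    fcel (phi φ (ty y) (ty z)) c < 4 ∧ CellOK (fcel (phi φ (ty y) (ty z)) c) (G.Adj y z) := by
  have e : (flipG G ty φ).Adj y z ↔
      (phi φ (ty y) (ty z) = 0 ∧ G.Adj y z) ∨ (phi φ (ty y) (ty z) = 1 ∧ ¬ G.Adj y z) := by
    unfold flipG
    rw [SimpleGraph.fromRel_adj, phi_comm φ (ty z), G.adj_comm z y, or_self]
    exact and_iff_right hyz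
  have h' := tab_cell_iff e h
  generalize phi φ (ty y) (ty z) = p at h'
  unfold fcel
  by_cases h0 : p = 0
  · subst h0
    exact ⟨hc, tab_cell_iff (by simp) h'⟩
  by_cases h1 : p = 1
  · subst h1
    exact ⟨tab_swp_lt hc, tab_cell_iff (by simp) (cellOK_swp hc h')⟩
  have b0 : Nat.beq p 0 = false := by rw [Bool.eq_false_iff, Ne, Nat.beq_eq]; exact h0
  have b1 : Nat.beq p 1 = false := by rw [Bool.eq_false_iff, Ne, Nat.beq_eq]; exact h1
  have b2 : c.testBit 0 = false := by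
    rw [Bool.eq_false_iff]
    intro hb
    rcases h'.1 hb with h2 | h2
    · exact h0 h2.1
    · exact h1 h2.1
  have b3 : Nat.mul 3 (Nat.land c 1) = 0 := by
    interval_cases c
    · rfl
    · exact absurd b2 (by decide)
    · rfl
    · exact absurd b2 (by decide)
  rw [b0, b1, cond_false, cond_false, b3]
  exact ⟨by norm_num, tab_cell0⟩

theorem tab_colRow {f : ℕ → V} {y : V} {n0 LL φ T r t n : ℕ} (j : ℕ)
    (h0 : RowOK w f n y (Nat.land (row LL t) (mA n0)))
    (h1 : ∀ i < j, fcel (phi φ t (dg6 T i)) (cel r i) < 4 ∧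
      CellOK (fcel (phi φ t (dg6 T i)) (cel r i)) (lit w f y (n0 + i))) :
    RowOK w f n y (colRow n0 LL φ j T r t) := by
  induction j with
  | zero => exact h0
  | succ j ih =>
    have e : colRow n0 LL φ (j + 1) T r t = Nat.lor (colRow n0 LL φ j T r t) (Nat.shiftLeft
      (fz (phi φ t (dg6 T j)) fun p => fz (cel r j) fun c => fcel p c)
        (Nat.mul 2 (Nat.add n0 j))) := rfl
    rw [e, rowOK_lor, fz_eq, fz_eq]
    exact ⟨ih fun i hi => h1 i (Nat.lt_succ_of_lt hi),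
      rowOK_cell (h1 j (Nat.lt_succ_self j)).1 (h1 j (Nat.lt_succ_self j)).2⟩

theorem tab_col {k : Md → ℕ → ℕ → ℕ → ℕ} (hk : Snd w a W ty anc k) {n0 LL S φ j T n K s : ℕ}
    {rest : List ℕ} (h : colSt k n0 LL S φ j T rest n K s ≠ 0) {f : ℕ → V} (h1 : anc ≤ n)
    (h3 : ∀ i < anc, f i = a i) (h4 : Inj w f n) (h5 : Tru w f n K)
    (h6 : Inv w a W ty anc f n (.col n0 LL S φ j T rest)) : False := by
  cases rest with
  | nil => exact h rfl
  | cons r rs =>
    obtain ⟨c1, c2⟩ := tab_cond h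
    simp only [Bool.and_eq_true, Nat.beq_eq, Nat.blt_eq, Nat.add_eq] at c1
    obtain ⟨hn, hn32⟩ := c1
    simp only [fz_eq] at c2
    obtain ⟨i1, -, i3, hh, i4, i5⟩ := h6
    obtain ⟨y1, y2, y3⟩ := i5 0 (Nat.succ_pos _)
    simp only [Nat.add_zero, List.getD_cons_zero] at y1 y2 y3
    obtain ⟨t1, t2, t3, t4, t5⟩ := i3 _ y1
    obtain ⟨s', hs'⟩ := loop_ne c2 _ t3
    rw [tb_eq, t4, cond_true] at hs'
    obtain ⟨f', e1, e2⟩ := tab_upd f n (hh j)
    have ea : ∀ i < anc, f' i = a i := fun i hi => (e1 i (by omega)).trans (h3 i hi)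
    have hrow : RowOK w f' n (f' n) (colRow n0 LL φ j T r (ty (hh j))) := by
      rw [e2]
      refine tab_colRow j (t5.lab (fun i hi => ea i (by omega)) n) fun i hi => ?_
      have c := y3.cell (b := i) (by omega) (Or.inl hi)
      have c' := tab_fcel (y2 i hi).symm cel_lt (tab_cell_iff (tab_lit (by omega)) c)
      rw [(i4 i hi).2] at c'
      refine ⟨c'.1, tab_cell_iff ?_ c'.2⟩
      rw [tab_lit (by omega), e1 _ (by omega), (i4 i hi).1]
    have hT := (h5.congr e1).push hrow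
    have hgo := go_ne hs' hT
    refine hk _ _ _ _ hgo f' (by omega) (by omega) ea ?_ hT.slt ?_
    · refine tab_inj h4 e1 (by rw [e2]; exact t1) fun i hi => ?_
      rw [e2]
      by_cases hi0 : i < n0
      · rw [h3 i (by omega)]
        exact t2 i hi0
      · obtain ⟨i', rfl⟩ := Nat.exists_eq_add_of_le (not_lt.1 hi0)
        rw [← (i4 i' (by omega)).1]
        exact y2 i' (by omega)
    · refine ⟨i1, by omega, i3, hh, fun i hi => ?_, fun i hi => ?_⟩
      · rcases Nat.lt_succ_iff_lt_or_eq.1 hi with hi | rfl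
        · rw [tab_dg6_old hi, e1 _ (by omega)]
          exact i4 i hi
        · rw [tab_dg6_new t3, ← hn, e2]
          exact ⟨rfl, rfl⟩
      · have := i5 (i + 1) (Nat.succ_lt_succ hi)
        rw [List.getD_cons_succ] at this
        have e : j.succ + i = j + (i + 1) := by omega
        rw [e]
        exact this

theorem tab_pathRow {f : ℕ → V} {y : V} {α β P n1 n K c : ℕ}
    (h0 : RowOK w f n y (Nat.shiftLeft c (Nat.mul 2 α)))
    (h1 : ∀ x < n, ¬ (x < n1 ∧ P.testBit x = false) →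
      RowOK w f n y (Nat.shiftLeft (fz (bif Nat.beq c 1 then getc K x β else 2) fun c =>
        bif Nat.beq (Nat.succ x) n && Nat.ble n1 x then swp c else c) (Nat.mul 2 x))) :
    RowOK w f n y (pathRow α β P n1 n K c) := by
  have key : ∀ m ≤ n, RowOK w f n y (Nat.rec (Nat.shiftLeft c (Nat.mul 2 α)) (fun x acc =>
      bif Nat.blt x n1 && !tb P x then acc else
        Nat.lor acc (Nat.shiftLeft (fz (bif Nat.beq c 1 then getc K x β else 2) fun c =>
          bif Nat.beq (Nat.succ x) n && Nat.ble n1 x then swp c else c) (Nat.mul 2 x))) m) := by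
    intro m
    induction m with
    | zero => exact fun _ => h0
    | succ m ih =>
      intro hm
      have ih' := ih (by omega)
      dsimp only
      cases hb : (Nat.blt m n1 && !tb P m)
      · rw [cond_false, rowOK_lor]
        refine ⟨ih', h1 m (by omega) fun h => ?_⟩
        rw [tb_eq, tab_blt h.1, h.2] at hb
        exact absurd hb (by decide)
      · exact ih'
  exact key n le_rfl

theorem tab_path {k : Md → ℕ → ℕ → ℕ → ℕ} (hk : Snd w a W ty anc k) {α β P n1 j n K s : ℕ}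
    (h : pathSt k α β P n1 j n K s ≠ 0) {f : ℕ → V} (h1 : anc ≤ n)
    (h3 : ∀ i < anc, f i = a i) (h4 : Inj w f n) (h5 : Tru w f n K)
    (h6 : Inv w a W ty anc f n (.path α β P n1 j)) : False := by
  obtain ⟨c1, c2⟩ := tab_cond h
  simp only [Bool.and_eq_true, Nat.beq_eq, Nat.blt_eq, Nat.add_eq, allLT_iff, Bool.or_eq_true,
    tb_eq] at c1
  obtain ⟨hn, hn32, hq⟩ := c1
  simp only [fz_eq] at c2
  obtain ⟨g1, g2⟩ := sq_ne c2
  obtain ⟨i1, -, i3, i4, i5, i6, i7, k0, x, j1, j2, j3, j4, j5, j6, q, q1, q2, q3⟩ := h6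
  obtain ⟨i0, rfl⟩ : ∃ i0, j = i0 + 1 := ⟨j - 1, by omega⟩
  have hαβ : ∀ p, P.testBit p = true → ∀ q, P.testBit q = false → p ≠ q := by
    rintro p hp q hq rfl
    rw [hp] at hq
    exact absurd hq (by decide)
  have hj : i0 < k0 := by
    by_contra hc
    have e : k0 = i0 := by omega
    subst e
    have e2 : Nat.pred n = n1 + k0 := by rw [hn]; rfl
    rcases hq q q1 with h7 | h7
    · exact hαβ q h7 q q2 rfl
    · rw [e2] at h7
      have := tab_nvio h5 hn32.le (by omega) (by omega) (by omega) (by omega) (by omega)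
        (by omega) (hαβ α i6 q q2) h7
      rw [j2 k0 (by omega)] at this
      exact this q3
  obtain ⟨f', e1, e2⟩ := tab_upd f n (x (i0 + 1))
  have ea : ∀ i < anc, f' i = a i := fun i hi => (e1 i (by omega)).trans (h3 i hi)
  have hinj : Inj w f' (n + 1) := by
    refine tab_inj h4 e1 (by rw [e2]; exact (j3 _ hj).1) fun i hi => ?_
    rw [e2]
    by_cases hi0 : i < n1
    · exact (j3 _ hj).2.1 i hi0
    · obtain ⟨i', rfl⟩ := Nat.exists_eq_add_of_le (not_lt.1 hi0)
      rw [j2 i' (by omega)]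
      exact (j3 _ hj).2.2 i' (by omega)
  have hinv : Inv w a W ty anc f' (n + 1) (.path α β P n1 (i0 + 1).succ) := by
    refine ⟨by omega, by omega, i3, i4, i5, i6, i7, k0, x, by omega, fun i hi => ?_,
      fun i hi => ⟨(j3 i hi).1, fun p hp => ?_, (j3 i hi).2.2⟩, ?_, ?_, ?_, ?_⟩
    · rcases Nat.lt_succ_iff_lt_or_eq.1 hi with hi | rfl
      · rw [e1 _ (by omega)]
        exact j2 i hi
      · rw [← hn, e2]
    · rw [e1 _ (by omega)]
      exact (j3 i hi).2.1 p hp
    · obtain ⟨p, p1, p2, p3⟩ := j4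
      refine ⟨p, p1, p2, ?_⟩
      rwa [e1 α (by omega), e1 β (by omega), e1 p (by omega)]
    · intro i hi p p1 p2
      rw [e1 α (by omega), e1 β (by omega), e1 p (by omega)]
      exact j5 i hi p p1 p2
    · rw [e1 α (by omega), e1 β (by omega)]
      exact j6
    · refine ⟨q, q1, q2, ?_⟩
      rwa [e1 α (by omega), e1 β (by omega), e1 q (by omega)]
  have main : ∀ c < 4, CellOK c (w.G.Adj (x (i0 + 1)) (f α)) →
      (∀ v < n, v ≠ β → (bif Nat.beq c 1 then getc K v β else 2) < 4 ∧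
        CellOK (bif Nat.beq c 1 then getc K v β else 2)
          (w.G.Adj (f v) (f β) ∧ w.G.Adj (f α) (x (i0 + 1)))) →
      Tru w f' (n + 1) (Nat.lor (cut K n) (Nat.shiftLeft (pathRow α β P n1 n K c) (Nat.mul 256 n))) := by
    intro c hc hc1 hc2
    refine (h5.congr e1).push ?_
    rw [e2]
    refine tab_pathRow (rowOK_cell hc (tab_cell_iff ?_ hc1)) fun v hv hv2 => ?_
    · rw [tab_lit (by omega), e1 α (by omega)]
    · have hvβ : v ≠ β := by
        rintro rfl
        exact hv2 ⟨i4, i7⟩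
      obtain ⟨d1, d2⟩ := hc2 v hv hvβ
      rw [fz_eq]
      generalize (bif Nat.beq c 1 then getc K v β else 2) = d at d1 d2
      have el : lit w f' (x (i0 + 1)) v ↔ w.G.Adj (f v) (x (i0 + 1)) := by
        rw [tab_lit (by omega), e1 v hv, w.G.adj_comm]
      cases hb : (Nat.beq (Nat.succ v) n && Nat.ble n1 v)
      · rw [cond_false]
        refine rowOK_cell d1 (tab_cell_iff ?_ d2)
        rw [el]
        refine Iff.symm (not_not.1 ?_)
        by_cases hv1 : v < n1
        · refine j5 i0 hj v hv1 ?_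
          by_contra hc
          exact hv2 ⟨hv1, Bool.eq_false_iff.2 hc⟩
        · obtain ⟨i', rfl⟩ := Nat.exists_eq_add_of_le (not_lt.1 hv1)
          rw [j2 i' (by omega)]
          refine (j6 i0 hj).2 i' ?_
          by_contra hc
          have b1 : Nat.beq (Nat.succ (n1 + i')) n = true := by rw [Nat.beq_eq]; omega
          have b2 : Nat.ble n1 (n1 + i') = true := by rw [Nat.ble_eq]; omega
          rw [b1, b2] at hb
          exact absurd hb (by decide)
      · rw [cond_true]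
        simp only [Bool.and_eq_true, Nat.beq_eq, Nat.ble_eq] at hb
        refine rowOK_cell (tab_swp_lt d1) (tab_cell_iff ?_ (cellOK_swp d1 d2))
        have ev : v = n1 + i0 := by omega
        have := (j6 i0 hj).1
        rw [← j2 i0 (by omega), ← ev] at this
        unfold Vio at this
        rw [el]
        tauto
  by_cases hadj : w.G.Adj (x (i0 + 1)) (f α)
  · have hT := main 1 (by norm_num) (tab_cell1.2 hadj) fun v hv hvβ =>
      ⟨tab_land_lt _ 3, tab_cell_iff (and_iff_left hadj.symm).symm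
        (h5.getc hv (by omega) hn32.le hvβ)⟩
    have hgo := go_ne g1 hT
    exact hk _ _ _ _ hgo f' (by omega) (by omega) ea hinj hT.slt hinv
  · have hT := main 2 (by norm_num) (tab_cell2.2 hadj) fun v _ _ =>
      ⟨(by norm_num : 2 < 4), tab_cell2.2 fun h' => hadj h'.2.symm⟩
    have hgo := go_ne g2 hT
    exact hk _ _ _ _ hgo f' (by omega) (by omega) ea hinj hT.slt hinv

theorem tab_k [DecidableEq V] [Fintype V] {k : Md → ℕ → ℕ → ℕ → ℕ} (hk : Snd w a W ty anc k)
    (hsp : SplitPrime w.G w.U) {n K s : ℕ} (h : kSt k n K s ≠ 0) {f : ℕ → V} (h1 : anc ≤ n)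
    (h3 : ∀ i < anc, f i = a i) (h4 : Inj w f n) (h5 : Tru w f n K) : False := by
  unfold kSt at h
  simp only [fz_eq] at h
  generalize hP : Nat.mod (Nat.shiftRight s 20) (Nat.shiftLeft 1 n) = P at h
  generalize Nat.land s 31 = α at h
  generalize Nat.land (Nat.shiftRight s 5) 31 = β at h
  generalize Nat.land (Nat.shiftRight s 10) 31 = α' at h
  generalize Nat.land (Nat.shiftRight s 15) 31 = β' at h
  have hPn : ∀ p, P.testBit p = true → p < n := by
    intro p hp
    rw [← hP, tab_mod, Nat.shiftLeft_eq', Nat.one_shiftLeft, Nat.testBit_mod_two_pow] at hp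
    simp only [Bool.and_eq_true, decide_eq_true_eq] at hp
    exact hp.1
  obtain ⟨c1, c2⟩ := tab_cond h
  simp only [Bool.and_eq_true, Nat.blt_eq, allLT_iff, Bool.or_eq_true, tb_eq,
    Bool.not_eq_true'] at c1
  obtain ⟨hn32, b1, b2, b3, b4, b5, b6, b7, b8, hq⟩ := c1
  have b7' : α ≠ α' := Nat.ne_of_beq_eq_false b7
  have b8' : β ≠ β' := Nat.ne_of_beq_eq_false b8
  have hαβ : ∀ p, P.testBit p = true → ∀ q, P.testBit q = false → p ≠ q := by
    rintro p hp q hq rfl
    rw [hp] at hq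
    exact absurd hq (by decide)
  have hf : ∀ p < n, ∀ q < n, p ≠ q → f p ≠ f q := by
    intro p hp q hq hpq
    rcases lt_or_gt_of_ne hpq with h | h
    · exact (h4 q hq).2 p h
    · exact ((h4 p hp).2 q h).symm
  have mem : ∀ (c : Bool) (v : V), v ∈ ((range n).filter fun p => P.testBit p = c).image f ↔
      ∃ p < n, P.testBit p = c ∧ f p = v := by
    intro c v
    simp only [mem_image, mem_filter, mem_range, and_assoc]
  have sub : ∀ c : Bool, ((range n).filter fun p => P.testBit p = c).image f ⊆ w.U := by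
    intro c v hv
    obtain ⟨p, p1, -, rfl⟩ := (mem c v).1 hv
    exact (h4 p p1).1
  obtain ⟨k0, x, x1, x2, x3, x4, x5⟩ := sp_path hsp (sub true) (sub false)
    (disjoint_left.2 fun v hv hv' => by
      obtain ⟨p, p1, p2, rfl⟩ := (mem _ v).1 hv
      obtain ⟨q, q1, q2, q3⟩ := (mem _ _).1 hv'
      exact hf p p1 q q1 (hαβ p p2 q q2) q3.symm)
    (one_lt_card.2 ⟨f α, (mem _ _).2 ⟨α, hPn _ b3, b3, rfl⟩, f α',
      (mem _ _).2 ⟨α', hPn _ b4, b4, rfl⟩, hf _ (hPn _ b3) _ (hPn _ b4) b7'⟩)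
    (one_lt_card.2 ⟨f β, (mem _ _).2 ⟨β, b1, b5, rfl⟩, f β',
      (mem _ _).2 ⟨β', b2, b6, rfl⟩, hf _ b1 _ b2 b8'⟩) (f α) (f β)
    (by
      intro v hv v' hv'
      obtain ⟨p, p1, p2, rfl⟩ := (mem _ v).1 hv
      obtain ⟨q, q1, q2, rfl⟩ := (mem _ _).1 hv'
      rcases hq p p1 with h7 | h7
      · exact absurd rfl (hαβ p p2 p h7)
      rcases h7 q q1 with h8 | h8
      · exact absurd rfl (hαβ q h8 q q2)
      exact tab_nvio h5 hn32.le (hPn _ b3) b1 p1 q1 (hαβ p p2 q q2) (hαβ p p2 β b5)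
        (hαβ α b3 q q2) h8)
  have hx : ∀ i ≤ k0, ∀ p < n, f p ≠ x i := by
    intro i hi p hp e
    cases hb : P.testBit p
    · exact (x1 i hi).2.2.1 ((mem _ _).2 ⟨p, hp, hb, e⟩)
    · exact (x1 i hi).2.1 ((mem _ _).2 ⟨p, hp, hb, e⟩)
  obtain ⟨f', e1, e2⟩ := tab_upd f n (x 0)
  have ea : ∀ i < anc, f' i = a i := fun i hi => (e1 i (by omega)).trans (h3 i hi)
  refine hk _ _ _ _ c2 f' (by omega) (by omega) ea
    (tab_inj h4 e1 (by rw [e2]; exact (x1 0 (Nat.zero_le _)).1) fun i hi => by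
      rw [e2]; exact hx 0 (Nat.zero_le _) i hi) ((h5.congr e1).cut _) ?_
  refine ⟨le_rfl, le_rfl, hPn _ b3, b1, hn32, b3, b5, k0, x, by omega, fun i hi => ?_,
    fun i hi => ⟨(x1 i hi).1, fun p hp => ?_, (x1 i hi).2.2.2⟩, ?_, ?_, ?_, ?_⟩
  · obtain rfl : i = 0 := by omega
    exact e2
  · rw [e1 p hp]
    exact hx i hi p hp
  · obtain ⟨v, hv, hv'⟩ := x2
    obtain ⟨p, p1, p2, rfl⟩ := (mem _ v).1 hv
    refine ⟨p, p1, p2, ?_⟩
    rwa [e1 α (hPn _ b3), e1 β b1, e1 p p1]
  · intro i hi p p1 p2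
    rw [e1 α (hPn _ b3), e1 β b1, e1 p p1]
    exact x3 i hi _ ((mem _ _).2 ⟨p, p1, p2, rfl⟩)
  · rw [e1 α (hPn _ b3), e1 β b1]
    exact x4
  · obtain ⟨v, hv, hv'⟩ := x5
    obtain ⟨p, p1, p2, rfl⟩ := (mem _ v).1 hv
    refine ⟨p, p1, p2, ?_⟩
    rwa [e1 α (hPn _ b3), e1 β b1, e1 p p1]

theorem tab_step [DecidableEq V] [Fintype V] {Φ : List FT} {cap : ℕ} {sp : Bool}
    (hΦ : ∀ ci fi, 0 < ci ∨ fi < cap → Holds w a ((nth FT.nil Φ ci).get fi))
    (hsp : sp = true → SplitPrime w.G w.U) {k : Md → ℕ → ℕ → ℕ → ℕ}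
    (hk : Snd w a W ty anc k) : Snd w a W ty anc (tabSt Φ cap anc sp k) := by
  intro md n K s h f h1 h2 h3 h4 h5 h6
  unfold tabSt at h
  simp only [fz_eq] at h
  generalize Nat.land s 7 = op at h
  generalize Nat.shiftRight s 16 = s at h
  cases b0 : Nat.beq op 0
  swap
  · rw [b0, cond_true] at h
    obtain ⟨c1, c2⟩ := tab_cond h
    simp only [Bool.or_eq_true, Nat.blt_eq] at c1
    exact apF_sound (I := fun f n => Inv w a W ty anc f n md)
      (fun _ _ _ _ h e hn => h.ext e hn) (hk md) (hΦ _ _ c1) c2 h1 h2 h3 h4 h5 h6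
  rw [b0, cond_false] at h
  cases b1 : Nat.beq op 1
  swap
  · rw [b1, cond_true] at h
    obtain ⟨-, c2⟩ := tab_cond h
    obtain ⟨g1, g2⟩ := sq_ne c2
    have hb := tab_land_lt (Nat.shiftRight s 5) 127
    by_cases hl : lit w f (f (Nat.land s 31)) (Nat.land (Nat.shiftRight s 5) 127)
    · exact hk _ _ _ _ g1 f h1 h2 h3 h4
        (tru_lor.2 ⟨h5, tru_bit (by norm_num) hb (tab_cell1.2 hl)⟩).slt h6
    · exact hk _ _ _ _ g2 f h1 h2 h3 h4
        (tru_lor.2 ⟨h5, tru_bit (by norm_num) hb (tab_cell2.2 hl)⟩).slt h6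
  rw [b1, cond_false] at h
  cases b2 : Nat.beq op 2
  swap
  · rw [b2, cond_true] at h
    cases md with
    | non => exact h rfl
    | goal m l alts => exact h6.2 (goalSt_sound h h6.1 h2 h4 h5)
    | col n0 LL S φ j T rest => exact tab_col hk h h1 h3 h4 h5 h6
    | path α β P n1 j => exact tab_path hk h h1 h3 h4 h5 h6
  rw [b2, cond_false] at h
  cases b3 : Nat.beq op 3
  swap
  · rw [b3, cond_true] at h
    obtain ⟨c1, c2⟩ := tab_cond h
    exact tab_k hk (hsp c1) c2 h1 h3 h4 h5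
  rw [b3, cond_false] at h
  cases b4 : Nat.beq op 4
  swap
  · rw [b4, cond_true, h5.not_cfl] at h
    exact h rfl
  rw [b4, cond_false] at h
  cases md with
  | non => exact h rfl
  | goal m l alts => exact h rfl
  | col n0 LL S φ j T rest => exact h rfl
  | path α β P n1 j =>
    obtain ⟨c1, -⟩ := tab_cond h
    simp only [allLT_iff, Bool.or_eq_true, tb_eq, Bool.not_eq_true'] at c1
    obtain ⟨i1, i2, i3, i4, -, -, i7, k0, x, -, j2, -, ⟨p, p1, p2, p3⟩, -⟩ := h6
    rcases c1 p p1 with h7 | h7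
    · rw [p2] at h7
      exact absurd h7 (by decide)
    · have hp : p ≠ β := by
        rintro rfl
        rw [p2] at i7
        exact absurd i7 (by decide)
      have := tab_nvio h5 h2 (by omega) (by omega) (by omega) (by omega) (by omega) hp
        (by omega) h7
      rw [← j2 0 i1] at p3
      exact this p3

theorem tab_snd [DecidableEq V] [Fintype V] {Φ : List FT} {cap : ℕ} {sp : Bool}
    (hΦ : ∀ ci fi, 0 < ci ∨ fi < cap → Holds w a ((nth FT.nil Φ ci).get fi))
    (hsp : sp = true → SplitPrime w.G w.U) (fuel : ℕ) :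
    Snd w a W ty anc (tab Φ cap anc sp fuel) := by
  induction fuel with
  | zero => exact fun _ _ _ _ h => absurd rfl h
  | succ n ih => exact tab_step hΦ hsp ih

end Pool.Agent.Lib.MP_1595d8_lc
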