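import Mathlib
import Pool.Agent.Lib.MP_1595d8_lc.H89Tab
import Pool.Agent.Lib.MP_1595d8_lc.H89Rules

/-!
Basic structural rules.
-/

namespace Pool.Agent.Lib.MP_1595d8_lc

open Finset Pool.Agent.Lib.MP_042ec1_co

variable {σ : St} {LL S M LL' S' M' s : ℕ} {t : FT}

theorem holds_triv {V : Type} (w : Wld V) (a : ℕ → V) : Holds w a triv := by
  intro f _ h
  exact ⟨[], List.mem_singleton.2 rfl, f, fun _ _ => rfl, h⟩

theorem r1_get_node (φ : Fact) (l r : FT) (i : ℕ) : (FT.node φ l r).get i =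
    bif Nat.ble i 1 then φ else bif Nat.beq (Nat.land i 1) 0 then l.get (Nat.shiftRight i 1) else
      r.get (Nat.shiftRight i 1) := rfl

theorem r1_all_node (p : Fact → Bool) (φ : Fact) (l r : FT) :
    (FT.node φ l r).all p = (p φ && (l.all p && r.all p)) := rfl

theorem r1_sz_node (B : ℕ) (φ : Fact) (l r : FT) (hi lo : ℕ) :
    (FT.node φ l r).sz B hi lo = (Nat.blt (Nat.add hi lo) B &&
      (l.sz B (Nat.mul 2 hi) lo && r.sz B (Nat.mul 2 hi) (Nat.add lo hi))) := rfl

theorem FT.get_of_all {p : Fact → Bool} (h : t.all p = true) (i : ℕ) :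
    t.get i = triv ∨ p (t.get i) = true := by
  induction t generalizing i with
  | nil => exact Or.inl rfl
  | node φ l r il ir =>
    rw [r1_all_node, Bool.and_eq_true, Bool.and_eq_true] at h
    rw [r1_get_node]
    cases Nat.ble i 1
    · cases Nat.beq (Nat.land i 1) 0
      · exact ir h.2.2 _
      · exact il h.2.1 _
    · exact Or.inr h.1

theorem r1_eqL {l l' : List ℕ} (h : eqL l l' = true) : l = l' := by
  induction l generalizing l' with
  | nil =>
    cases l' with
    | nil => rfl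
    | cons y ys => exact absurd h Bool.false_ne_true
  | cons x xs ih =>
    cases l' with
    | nil => exact absurd h Bool.false_ne_true
    | cons y ys =>
      have h' : (Nat.beq x y && eqL xs ys) = true := h
      rw [Bool.and_eq_true, Nat.beq_eq] at h'
      rw [h'.1, ih h'.2]

theorem r1_eqLL {l l' : List (List ℕ)} (h : eqLL l l' = true) : l = l' := by
  induction l generalizing l' with
  | nil =>
    cases l' with
    | nil => rfl
    | cons y ys => exact absurd h Bool.false_ne_true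
  | cons x xs ih =>
    cases l' with
    | nil => exact absurd h Bool.false_ne_true
    | cons y ys =>
      have h' : (eqL x y && eqLL xs ys) = true := h
      rw [Bool.and_eq_true] at h'
      rw [r1_eqL h'.1, ih h'.2]

theorem eqF_sound {φ ψ : Fact} (h : eqF φ ψ = true) : φ = ψ := by
  obtain ⟨m, r, a⟩ := φ
  obtain ⟨m', r', a'⟩ := ψ
  simp only [eqF, Bool.and_eq_true, Nat.beq_eq] at h
  rw [h.1, r1_eqL h.2.1, r1_eqLL h.2.2]

theorem memF_sound {l : List Fact} {φ : Fact} (h : memF l φ = true) : φ ∈ l := by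
  induction l with
  | nil => exact absurd h Bool.false_ne_true
  | cons ψ l ih =>
    have h' : (eqF φ ψ || memF l φ) = true := h
    rw [Bool.or_eq_true] at h'
    exact List.mem_cons.2 (h'.imp eqF_sound ih)

theorem testBit_mrow {X Y : ℕ} (hY : Y < 64) : (mrow M X).testBit Y = M.testBit (64 * X + Y) := by
  have e : mrow M X = (M >>> (64 * X)) &&& (2 ^ 64 - 1) := rfl
  rw [e, Nat.testBit_and, Nat.testBit_shiftRight, Nat.testBit_two_pow_sub_one, decide_eq_true hY,
    Bool.and_true]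

theorem r1_nth {V : Type} [DecidableEq V] {w : Wld V} {a : ℕ → V} (h : Models w a σ)
    (ci fi : ℕ) : Holds w a ((nth FT.nil σ.Φ ci).get fi) := by
  rw [nth_eq, List.getD_eq_getElem?_getD]
  cases e : σ.Φ[ci]? with
  | none => exact holds_triv w a
  | some u => exact (h.2.2.2 u (List.mem_of_getElem? e) fi).2

/-- The tableau with all facts of the state is sound. -/
theorem tab_snd' {V : Type} [DecidableEq V] [Fintype V] {w : Wld V} {a : ℕ → V}
    (h : Models w a σ) (W : Finset V) (ty : V → ℕ) (cap anc fuel : ℕ) :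
    Snd w a W ty anc (tab σ.Φ cap anc σ.sp fuel) := by
  exact tab_snd (fun ci fi _ => r1_nth h ci fi) h.2.2.1 fuel

theorem r1_pushL {V : Type} {w : Wld V} {f : ℕ → V} {rs : List ℕ} {K n : ℕ} (h : Tru w f n K)
    (hr : ∀ j < rs.length, RowOK w f (n + j) (f (n + j)) (rs.getD j 0)) :
    Tru w f (n + rs.length) (pushL rs K n) := by
  induction rs generalizing K n with
  | nil => exact h
  | cons r rs ih =>
    have h1 := ih (K := push K n r) (n := n + 1) (h.push (hr 0 (Nat.succ_pos _))) fun j hj => by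
      have := hr (j + 1) (Nat.succ_lt_succ hj)
      rwa [← Nat.add_assoc, Nat.add_right_comm] at this
    rwa [Nat.add_right_comm] at h1

theorem run_sound {V : Type} [DecidableEq V] [Fintype V] {w : Wld V} {a f : ℕ → V}
    {W : Finset V} {ty : V → ℕ} {md : Md} {rs : List ℕ} (h : Models w a σ)
    (hr : run σ md rs s ≠ 0) (h1 : ∀ i < σ.n0, f i = a i) (h2 : SatL w f σ.n0 rs)
    (h3 : Inv w a W ty σ.n0 f (σ.n0 + rs.length) md) : False := by
  unfold run at hr
  rw [fz_eq, len_eq] at hr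
  cases e : Nat.ble (Nat.add σ.n0 rs.length) 32
  · rw [e] at hr
    exact hr rfl
  · rw [e, cond_true, fz_eq] at hr
    exact tab_snd' h W ty _ _ _ md _ _ s hr f (Nat.le_add_right _ _) (Nat.ble_eq ▸ e) h1 h2.1
      (r1_pushL (h.2.1.congr h1) h2.2).slt h3

/-- A variant of the transfer lemma in which the third vertex differs from the other two. -/
theorem wd_transfer {V P : Type} [DecidableEq V] [Fintype P] {G G' : SimpleGraph V}
    {W : Finset V} {k : ℕ} (h : Wd G W k) (c : V → P)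
    (h1 : ∀ x ∈ W, ∀ y ∈ W, c x = c y → ∀ z ∈ W, z ≠ x → z ≠ y → (G.Adj x z ↔ G.Adj y z) →
      (G'.Adj x z ↔ G'.Adj y z)) : Wd G' W (k * Fintype.card P) := by
  have key : ∀ S, Dec G W k S → S ⊆ W → Dec G' W (k * Fintype.card P) S := by
    intro S hS
    induction hS with
    | empty => exact fun _ => .empty
    | single x => exact fun _ => .single x
    | union S T hd _ _ ht ihS ihT =>
      intro hW
      refine .union S T hd (ihS (subset_union_left.trans hW)) (ihT (subset_union_right.trans hW)) ?_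
      obtain ⟨Q, _, d, hQ, hd'⟩ := ht
      refine ⟨Q × P, inferInstance, fun x => (d x, c x), ?_, ?_⟩
      · rw [Fintype.card_prod]
        exact Nat.mul_le_mul_right _ hQ
      · intro x hx y hy hxy z hz hzS
        rw [Prod.mk.injEq] at hxy
        exact h1 x (hW hx) y (hW hy) hxy.2 z hz (fun e => hzS (e ▸ hx)) (fun e => hzS (e ▸ hy))
          (hd' x hx y hy hxy.1 z hz hzS)
  exact key W h Subset.rfl

theorem Upto.zero (P : ℕ → Prop) : Upto P 0 := by
  exact fun X hX => absurd hX (Nat.not_lt_zero X)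

theorem DerTo.zero (σ : St) (t : FT) : DerTo σ t 0 := by
  exact fun V _ _ w a _ i hi => absurd hi (Nat.not_lt_zero i)

theorem r1_ne {x : ℕ} (h : (!Nat.beq x 0) = true) : x ≠ 0 := by
  rintro rfl
  exact absurd h Bool.false_ne_true

theorem r1_cond {b : Bool} {x : ℕ} (h : (bif b then x else 0) ≠ 0) : b = true ∧ x ≠ 0 := by
  cases b
  · exact absurd rfl h
  · exact ⟨rfl, h⟩

theorem r1_derAt {V : Type} [DecidableEq V] [Fintype V] {w : Wld V} {a : ℕ → V} {i : ℕ}
    (hm : Models w a σ) (hv : ValidTo w a σ.nb t i) (h : derAt σ t i s ≠ 0) :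
    wfF σ.nb (t.get i) = true ∧ Holds w a (t.get i) := by
  unfold derAt at h
  generalize t.get i = φ at h ⊢
  obtain ⟨m, rows, alts⟩ := φ
  simp only [fz_eq, len_eq] at h
  obtain ⟨h1, h2⟩ := r1_cond h
  simp only [Bool.and_eq_true, Nat.ble_eq] at h1
  refine ⟨h1.1, fun f hf hs => ?_⟩
  by_contra hE
  refine tab_snd (W := ∅) (ty := fun _ => 0) (fun ci fi hc => ?_) hm.2.2.1 500 _ _ _ s h2 f
    (Nat.le_add_right _ _) h1.2.2 hf hs.1
    ((r1_pushL ((hm.2.1.mono h1.2.1).congr hf) hs.2).cut _).slt ⟨le_rfl, hE⟩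
  cases ci with
  | zero => exact (hv fi (hc.resolve_left (lt_irrefl 0))).2
  | succ ci => exact r1_nth hm ci fi

theorem DerTo.step {lo c : ℕ} (h : DerTo σ t lo) (hc : derChk σ t lo c s = true) :
    DerTo σ t (lo + c) := by
  intro V _ _ w a hm
  have h1 := loop_ne (r1_ne hc)
  have key : ∀ j ≤ c, ValidTo w a σ.nb t (lo + j) := by
    intro j
    induction j with
    | zero => exact fun _ => h V w a hm
    | succ j ih =>
      intro hj i hi
      rcases Nat.lt_succ_iff_lt_or_eq.1 hi with h2 | rfl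
      · exact ih (Nat.le_of_succ_le hj) i h2
      · obtain ⟨s', hs⟩ := h1 j hj
        rw [fz_eq] at hs
        exact r1_derAt hm (ih (Nat.le_of_succ_le hj)) hs
  exact key c le_rfl

theorem r1_sz {B hi lo i : ℕ} (h : t.sz B hi lo = true) (h1 : 1 ≤ i) (h2 : lo < hi)
    (h3 : B ≤ i * hi + lo) : t.get i = triv := by
  induction t generalizing hi lo i with
  | nil => rfl
  | node φ l r il ir =>
    rw [r1_sz_node, Bool.and_eq_true, Bool.and_eq_true, Nat.blt_eq] at h
    simp only [Nat.add_eq, Nat.mul_eq] at h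
    have h4 : 2 ≤ i := by
      by_contra h4
      obtain rfl : i = 1 := by omega
      omega
    have e1 : Nat.ble i 1 = false := by
      rw [← Bool.not_eq_true, Nat.ble_eq]
      omega
    have e2 : Nat.land i 1 = i % 2 := Nat.and_one_is_mod i
    have e3 : Nat.shiftRight i 1 = i / 2 := rfl
    rw [r1_get_node, e1, cond_false, e2, e3]
    obtain ⟨q, rfl | rfl⟩ := Nat.even_or_odd' i
    · rw [show 2 * q % 2 = 0 by omega, show 2 * q / 2 = q by omega]
      exact il h.2.1 (by omega) (by omega) (by nlinarith)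
    · rw [show (2 * q + 1) % 2 = 1 by omega, show (2 * q + 1) / 2 = q by omega]
      exact ir h.2.2 (by omega) (by omega) (by nlinarith)

theorem DerTo.fin {B : ℕ} (h : DerTo σ t B) (hB : t.sz B 1 0 = true) : Der σ t := by
  intro V _ _ w a hm i
  by_cases hi : i < B
  · exact h V w a hm i hi
  · have e : t.get i = triv := by
      rcases Nat.eq_zero_or_pos i with rfl | h0
      · cases t with
        | nil => rfl
        | node φ l r =>
          rw [r1_sz_node, Bool.and_eq_true, Nat.blt_eq] at hB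
          exact absurd (lt_of_le_of_lt (Nat.zero_le _) hB.1) hi
      · exact r1_sz hB h0 Nat.one_pos (by omega)
    rw [e]
    exact ⟨rfl, holds_triv w a⟩

theorem good_der (h : Der σ t) (hg : Good (σ.add 0 t) LL S M) : Good σ LL S M := by
  obtain ⟨K, hK⟩ := hg
  refine ⟨K, fun V _ _ w a hm W ty hT => hK V w a ⟨hm.1, hm.2.1, hm.2.2.1, fun u hu => ?_⟩ W ty hT⟩
  rcases List.mem_cons.1 hu with rfl | hu
  · exact h V w a hm
  · exact hm.2.2.2 u hu

theorem good_empty (σ : St) (LL M : ℕ) : Good σ LL 0 M := by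
  refine ⟨0, fun V _ _ w a _ W ty hT => ?_⟩
  rw [eq_empty_of_forall_notMem (s := W) fun x hx => by simpa using (hT x hx).2.2.2.1]
  exact Dec.empty

theorem good_nomask (σ : St) (LL S : ℕ) : Good σ LL S 0 := by
  refine ⟨1, fun V _ _ w a _ W ty _ => wd_indep fun x _ y _ h => ?_⟩
  simpa [Mk] using h.2.1

/-- The constants followed by further vertices. -/
def r1Ext {V : Type} (a : ℕ → V) (n : ℕ) (x : ℕ → V) (i : ℕ) : V :=
  if i < n then a i else x (i - n)

theorem r1_ext_lt {V : Type} (a : ℕ → V) {n : ℕ} (x : ℕ → V) : ∀ i < n, r1Ext a n x i = a i :=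
  fun _ hi => if_pos hi

theorem r1_ext_add {V : Type} (a : ℕ → V) (n : ℕ) (x : ℕ → V) (j : ℕ) :
    r1Ext a n x (n + j) = x j := by
  rw [r1Ext, if_neg (by omega), Nat.add_sub_cancel_left]

theorem r1_sat {V : Type} {w : Wld V} {a : ℕ → V} {n : ℕ} (h : Inj w a n) (x : ℕ → V)
    (rs : List ℕ) (hx : ∀ j < rs.length, x j ∈ w.U ∧ (∀ i < n, a i ≠ x j) ∧
      (∀ i < j, x i ≠ x j) ∧ ∃ r, RowOK w a n (x j) r ∧ rs.getD j 0 = Nat.land r (mA n)) :
    SatL w (r1Ext a n x) n rs := by
  refine ⟨fun i hi => ?_, fun j hj => ?_⟩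
  · by_cases h1 : i < n
    · rw [r1_ext_lt a x i h1]
      refine ⟨(h i h1).1, fun j hj => ?_⟩
      rw [r1_ext_lt a x j (hj.trans h1)]
      exact (h i h1).2 j hj
    · obtain ⟨j, rfl⟩ := Nat.exists_eq_add_of_le (not_lt.1 h1)
      obtain ⟨x1, x2, x3, -⟩ := hx j (by omega)
      rw [r1_ext_add]
      refine ⟨x1, fun k hk => ?_⟩
      by_cases h2 : k < n
      · rw [r1_ext_lt a x k h2]
        exact x2 k h2
      · obtain ⟨k, rfl⟩ := Nat.exists_eq_add_of_le (not_lt.1 h2)
        rw [r1_ext_add]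
        exact x3 k (by omega)
  · obtain ⟨-, -, -, r, h1, h2⟩ := hx j hj
    rw [r1_ext_add, h2]
    exact h1.lab (r1_ext_lt a x) _

theorem r1_selL {C : ℕ} {alt : List ℕ} (h : alt ∈ selL σ LL C) :
    ∃ t, t < 64 ∧ C.testBit t = true ∧ alt = [lab σ LL t] := by
  have key : ∀ n : ℕ, alt ∈ (Nat.rec [] (fun t ih => bif tb C t then [lab σ LL t] :: ih else ih) n :
      List (List ℕ)) → ∃ t, t < n ∧ C.testBit t = true ∧ alt = [lab σ LL t] := by
    intro n
    induction n with
    | zero => exact fun h => absurd h List.not_mem_nil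
    | succ n ih =>
      intro h
      have h' : ∀ l : List (List ℕ), alt ∈ (bif tb C n then [lab σ LL n] :: l else l) →
          (C.testBit n = true ∧ alt = [lab σ LL n]) ∨ alt ∈ l := by
        intro l hl
        rw [tb_eq] at hl
        cases e : C.testBit n
        · rw [e] at hl
          exact Or.inr hl
        · rw [e] at hl
          exact (List.mem_cons.1 hl).imp_left fun h => ⟨rfl, h⟩
      rcases h' _ h with h1 | h1
      · exact ⟨n, Nat.lt_succ_self n, h1⟩
      · obtain ⟨t, t1, t2⟩ := ih h1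
        exact ⟨t, Nat.lt_succ_of_lt t1, t2⟩
  exact key 64 h

theorem r1_need {CH A u b : ℕ} (hu : u < 64) (hA : A.testBit u = true)
    (hb : (mrow CH u).testBit b = true) : (need CH A).testBit b = true := by
  have key : ∀ n : ℕ, u < n → (Nat.rec 0
      (fun u ih => bif tb A u then Nat.lor ih (mrow CH u) else ih) n : ℕ).testBit b = true := by
    intro n
    induction n with
    | zero => exact fun h => absurd h (Nat.not_lt_zero u)
    | succ n ih =>
      intro h
      have h' : ∀ x : ℕ, u = n ∨ x.testBit b = true →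
          (bif tb A n then Nat.lor x (mrow CH n) else x).testBit b = true := by
        rintro x (rfl | hx)
        · rw [tb_eq, hA, cond_true, Nat.lor_eq, Nat.testBit_or, hb, Bool.or_true]
        · cases tb A n
          · exact hx
          · rw [cond_true, Nat.lor_eq, Nat.testBit_or, hx, Bool.true_or]
      exact h' _ ((Nat.lt_succ_iff_lt_or_eq.1 h).symm.imp_right ih)
  exact key 64 hu

theorem good_cov {CH : ℕ} (h : covChk σ LL S M LL' S' M' CH s = true) (hg : Good σ LL' S' M') :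
    Good σ LL S M := by
  obtain ⟨K, hK⟩ := hg
  refine ⟨K * Fintype.card (Fin 64), fun V _ _ w a hm W ty hT => ?_⟩
  unfold covChk at h
  simp only [fz_eq] at h
  have h1 : ∀ x ∈ W, Nat.lor S' (mrow CH (ty x)) = S' ∧
      (∀ t' < 64, (mrow CH (ty x)).testBit t' = true →
        Nat.lor (mrow M' t') (need CH (Nat.land S (mrow M (ty x)))) = mrow M' t') ∧
      ∃ t', t' < 64 ∧ (mrow CH (ty x)).testBit t' = true ∧ RowOK w a σ.n0 x (row LL' t') := by
    intro x hx
    obtain ⟨x1, x2, x3, x4, x5⟩ := hT x hx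
    obtain ⟨s', hs⟩ := loop_ne (r1_ne h) _ x3
    rw [tb_eq, x4, cond_true] at hs
    obtain ⟨h2, h3⟩ := r1_cond hs
    rw [Bool.and_eq_true, Nat.beq_eq, allLT_iff] at h2
    refine ⟨h2.1, fun t' ht' e => ?_, ?_⟩
    · have := h2.2 t' ht'
      rwa [tb_eq, e, Bool.not_true, Bool.false_or, Nat.beq_eq] at this
    · by_contra hne
      refine run_sound (W := ∅) (ty := ty) hm h3 (r1_ext_lt a fun _ => x)
        (r1_sat hm.1 (fun _ => x) _ fun j hj => ?_) ⟨le_rfl, ?_⟩
      · obtain rfl : j = 0 := by simpa using hj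
        exact ⟨x1, x2, fun j hj => absurd hj (Nat.not_lt_zero j), _, x5, rfl⟩
      · rintro ⟨alt, h4, g, h5, h6⟩
        obtain ⟨t', t1, t2, rfl⟩ := r1_selL h4
        have h7 := h6.2 0 Nat.one_pos
        rw [h5 (σ.n0 + 0) (Nat.lt_succ_self _), r1_ext_add] at h7
        exact hne ⟨t', t1, t2, (RowOK.of_lab h7).congr fun j hj =>
          ((h5 j (Nat.lt_succ_of_lt hj)).trans (r1_ext_lt a _ j hj)).symm⟩
  choose! h2 h3 ty' h4 h5 h6 using h1
  have key : ∀ u ∈ W, ∀ v ∈ W, Mk M (ty u) (ty v) → Mk M' (ty' u) (ty' v) := by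
    intro u hu v hv e
    unfold Mk at e ⊢
    rw [← testBit_mrow (h4 v hv), ← h3 u hu _ (h4 u hu) (h5 u hu), Nat.lor_eq, Nat.testBit_or,
      r1_need (hT v hv).2.2.1 _ (h5 v hv), Bool.or_true]
    rw [Nat.land_eq, Nat.testBit_and, (hT v hv).2.2.2.1, testBit_mrow (hT v hv).2.2.1, e]
    rfl
  refine wd_transfer (hK V w a hm W ty' fun x hx => ⟨(hT x hx).1, (hT x hx).2.1, h4 x hx, ?_,
    h6 x hx⟩) (fun x => (⟨ty x % 64, Nat.mod_lt _ (by norm_num)⟩ : Fin 64)) ?_
  · rw [← h2 x hx, Nat.lor_eq, Nat.testBit_or, h5 x hx, Bool.or_true]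
  · intro x hx y hy hxy z hz _ _ e
    have e1 : ty x = ty y := by
      have := congrArg Fin.val hxy
      have := (hT x hx).2.2.1
      have := (hT y hy).2.2.1
      simp only at *
      omega
    constructor
    · rintro ⟨a1, a2, a3⟩
      exact ⟨(e.1 ⟨a1, key x hx z hz a2, key z hz x hx a3⟩).1, e1 ▸ a2, e1 ▸ a3⟩
    · rintro ⟨a1, a2, a3⟩
      exact ⟨(e.2 ⟨a1, key y hy z hz a2, key z hz y hy a3⟩).1, e1 ▸ a2, e1 ▸ a3⟩

theorem good_nev {t₀ S₁ S₂ : ℕ} (h : nevChk σ LL S t₀ S₁ S₂ s = true) (h₁ : Good σ LL S₁ M)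
    (h₂ : Good σ LL S₂ M) : Good σ LL S M := by
  obtain ⟨K₁, hK₁⟩ := h₁
  obtain ⟨K₂, hK₂⟩ := h₂
  refine ⟨K₁ + K₂, fun V _ _ w a hm W ty hT => ?_⟩
  unfold nevChk at h
  rw [fz_eq, Bool.and_eq_true, Bool.and_eq_true, allLT_iff, tb_eq] at h
  obtain ⟨h1, h2, h3⟩ := h
  by_cases hx : ∃ x₀ ∈ W, ty x₀ = t₀
  · obtain ⟨x₀, hx₀, rfl⟩ := hx
    refine (hK₂ V w a hm W ty fun x hx => ?_).mono (Nat.le_add_left _ _)
    obtain ⟨x1, x2, x3, x4, x5⟩ := hT x hx
    obtain ⟨y1, y2, -, -, y5⟩ := hT x₀ hx₀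
    refine ⟨x1, x2, x3, ?_, x5⟩
    by_contra hne
    rw [Bool.not_eq_true] at hne
    obtain ⟨s', hs⟩ := loop_ne (r1_ne h3) _ x3
    rw [tb_eq, tb_eq, x4, hne] at hs
    refine run_sound (W := ∅) (ty := ty) (md := Md.non) hm hs
      (r1_ext_lt a fun j => if j = 0 then x₀ else x) (r1_sat hm.1 _ _ fun j hj => ?_) trivial
    obtain rfl | rfl : j = 0 ∨ j = 1 := by
      have : j < 2 := hj
      omega
    · exact ⟨y1, y2, fun j hj => absurd hj (Nat.not_lt_zero j), _, y5, rfl⟩
    · refine ⟨x1, x2, fun j hj => ?_, _, x5, rfl⟩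
      obtain rfl : j = 0 := by omega
      intro e
      have e' : x₀ = x := e
      rw [e', hne] at h1
      exact absurd h1 Bool.false_ne_true
  · refine (hK₁ V w a hm W ty fun x hx' => ?_).mono (Nat.le_add_right _ _)
    obtain ⟨x1, x2, x3, x4, x5⟩ := hT x hx'
    refine ⟨x1, x2, x3, ?_, x5⟩
    have := h2 _ x3
    rw [tb_eq, tb_eq, x4, Bool.not_true, Bool.false_or, Bool.or_eq_true, Nat.beq_eq] at this
    exact this.resolve_left fun e => hx ⟨x, hx', e⟩

theorem r1_flip {V : Type} (G : SimpleGraph V) (ty : V → ℕ) (x y : V) :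
    (flipG G ty 0).Adj x y ↔ G.Adj x y := by
  have e : ∀ t u, phi 0 t u = 0 := fun t u => by simp [phi]
  simp only [flipG, SimpleGraph.fromRel_adj, e, true_and, zero_ne_one, false_and, or_false]
  exact ⟨fun h => h.2.elim id fun h' => h'.symm, fun h => ⟨h.ne, Or.inl h⟩⟩

theorem r1_K5 : ∀ i < 5, ∀ b < 128, (pK5.getD i 0).testBit (2 * b + 1) = false ∧
    ((pK5.getD i 0).testBit (2 * b) = true → b < i) := by
  decide +kernel

theorem r1_I5 : ∀ i < 5, ∀ b < 128, (pI5.getD i 0).testBit (2 * b) = false ∧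
    ((pI5.getD i 0).testBit (2 * b + 1) = true → b < i) := by
  decide +kernel

theorem good_sml (h : smlChk σ LL S S' s = true) (hg : Good σ LL S' M) : Good σ LL S M := by
  obtain ⟨K, hK⟩ := hg
  obtain ⟨N, hN⟩ := small_card
  refine ⟨2 ^ (64 * N) * (K + 1), fun V _ _ w a hm W ty hT => ?_⟩
  unfold smlChk at h
  rw [fz_eq] at h
  have h1 : ∀ t < 64, S.testBit t = true → S'.testBit t = false →
      (W.filter fun x => ty x = t).card ≤ N := by
    intro t ht e1 e2
    obtain ⟨s', hs⟩ := loop_ne (r1_ne h) t ht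
    rw [tb_eq, tb_eq, e1, e2, Bool.not_false, Bool.and_self, cond_true, fz_eq] at hs
    obtain ⟨h2, h3⟩ := sq_ne hs
    have hT' : Typed w a σ.n0 LL (Nat.shiftLeft 1 t) (W.filter fun x => ty x = t) ty := by
      intro x hx
      obtain ⟨hx, e⟩ := mem_filter.1 hx
      obtain ⟨x1, x2, x3, -, x5⟩ := hT x hx
      refine ⟨x1, x2, x3, ?_, x5⟩
      rw [e, Nat.shiftLeft_eq', Nat.one_shiftLeft, Nat.testBit_two_pow_self]
    have hS : SatL w a σ.n0 [] := ⟨hm.1, fun j hj => absurd hj (Nat.not_lt_zero j)⟩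
    refine hN V w.G _ (fun x hx => ?_) fun x hx => ?_
    · refine run_sound hm h2 (fun _ _ => rfl) hS ⟨le_rfl, le_rfl, hT', x,
        fun i hi => absurd hi (Nat.not_lt_zero i), fun i hi => ?_⟩
      rw [Nat.zero_add]
      refine ⟨(hx i hi).1, fun j hj => ((hx i hi).2 j hj).1, fun b hb _ => ⟨fun e => ?_, fun e => ?_⟩⟩
      · have hb' := (r1_K5 i hi b hb).2 e
        have hi' : i < 5 := hi
        rw [lit, if_pos (by omega), r1_flip]
        exact ((hx i hi).2 b hb').2
      · rw [(r1_K5 i hi b hb).1] at e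
        exact absurd e Bool.false_ne_true
    · refine run_sound hm h3 (fun _ _ => rfl) hS ⟨le_rfl, le_rfl, hT', x,
        fun i hi => absurd hi (Nat.not_lt_zero i), fun i hi => ?_⟩
      rw [Nat.zero_add]
      refine ⟨(hx i hi).1, fun j hj => ((hx i hi).2 j hj).1, fun b hb _ => ⟨fun e => ?_, fun e => ?_⟩⟩
      · rw [(r1_I5 i hi b hb).1] at e
        exact absurd e Bool.false_ne_true
      · have hb' := (r1_I5 i hi b hb).2 e
        have hi' : i < 5 := hi
        rw [lit, if_pos (by omega), r1_flip]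
        exact ((hx i hi).2 b hb').2
  have h2 : (W.filter fun x => S'.testBit (ty x) = false).card ≤ 64 * N := by
    have := card_le_mul_card_image_of_maps_to (s := W.filter fun x => S'.testBit (ty x) = false)
      (t := range 64) (f := ty) (fun x hx => mem_range.2 (hT x (mem_filter.1 hx).1).2.2.1) N
      fun t ht => by
        rcases ((W.filter fun x => S'.testBit (ty x) = false).filter
          fun x => ty x = t).eq_empty_or_nonempty with e | ⟨x, hx⟩
        · rw [e]
          exact Nat.zero_le _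
        · obtain ⟨x1, rfl⟩ := mem_filter.1 hx
          obtain ⟨x2, x3⟩ := mem_filter.1 x1
          exact (card_le_card (filter_subset_filter _ (filter_subset _ _))).trans
            (h1 _ (mem_range.1 ht) (hT x x2).2.2.2.1 x3)
    rwa [card_range, Nat.mul_comm] at this
  refine (wd_sdiff (Nat.succ_pos K) _ ((hK V w a hm
    (W \ W.filter fun x => S'.testBit (ty x) = false) ty fun x hx => ?_).mono
      (Nat.le_succ K))).mono (Nat.mul_le_mul_right _ (Nat.pow_le_pow_right (by norm_num) h2))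
  obtain ⟨y1, y2⟩ := mem_sdiff.1 hx
  obtain ⟨x1, x2, x3, -, x5⟩ := hT x y1
  refine ⟨x1, x2, x3, ?_, x5⟩
  by_contra hne
  exact y2 (mem_filter.2 ⟨y1, Bool.not_eq_true _ ▸ hne⟩)

end Pool.Agent.Lib.MP_1595d8_lc
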