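import Mathlib
import Pool.Agent.Lib.MP_1595d8_lc.H89R1
import Pool.Agent.Lib.MP_1595d8_lc.H89Mach

/-!
The splitting rule.
-/

namespace Pool.Agent.Lib.MP_1595d8_lc

open Finset Pool.Agent.Lib.MP_042ec1_co

variable {σ : St} {LL S M M' RT AL LT lo c s : ℕ}

theorem r3_upto {P : ℕ → Prop} (h : Upto P lo) (h' : ∀ i < c, P (lo + i)) : Upto P (lo + c) := by
  intro X hX
  by_cases h1 : X < lo
  · exact h X h1
  · obtain ⟨i, rfl⟩ := Nat.exists_eq_add_of_le (not_lt.1 h1)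
    exact h' i (by omega)

theorem r3_two {V : Type} [DecidableEq V] [Fintype V] {w : Wld V} {a : ℕ → V} {X Y e : ℕ}
    {x y : V} (hm : Models w a σ) (hx : Lab w a σ.n0 (row LL X) x)
    (hy : Lab w a σ.n0 (row LL Y) y) (hxy : x ≠ y) (he : e < 4) (h : CellOK e (w.G.Adj y x))
    (hr : run σ Md.non (two σ LL X Y e) s ≠ 0) : False := by
  have hn : σ.n0 < 32 := by
    unfold run at hr
    rw [fz_eq] at hr
    have h1 := (r1_cond hr).1
    rw [Nat.ble_eq] at h1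
    exact h1.trans_lt' (Nat.lt_add_of_pos_right (Nat.succ_pos 1))
  have hS := r1_sat hm.1 (fun j => if j = 0 then x else y) [lab σ LL X, lab σ LL Y] fun j hj => by
    obtain rfl | rfl : j = 0 ∨ j = 1 := by
      have : j < 2 := hj
      omega
    · exact ⟨hx.1, hx.2.1, fun j hj => absurd hj (Nat.not_lt_zero j), _, hx.2.2, rfl⟩
    · refine ⟨hy.1, hy.2.1, fun j hj => ?_, _, hy.2.2, rfl⟩
      obtain rfl : j = 0 := by omega
      exact hxy
  refine run_sound (W := ∅) (ty := fun _ => 0) hm hr (r1_ext_lt a fun j => if j = 0 then x else y)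
    ⟨hS.1, fun j hj => ?_⟩ trivial
  obtain rfl | rfl : j = 0 ∨ j = 1 := by
    have : j < 2 := hj
    omega
  · exact hS.2 0 hj
  · refine rowOK_lor.2 ⟨hS.2 1 hj, rowOK_cell he ?_⟩
    have e1 := r1_ext_add a σ.n0 (fun j => if j = 0 then x else y) 0
    rw [Nat.add_zero] at e1
    rw [bits_adj hn, e1, r1_ext_add]
    exact h

theorem rt_step (h : Upto (RTat σ LL S RT) lo) (hc : rtChk σ LL S RT lo c s = true) :
    Upto (RTat σ LL S RT) (lo + c) := by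
  refine r3_upto h fun i hi V _ _ w a hm hX Y hY hYS x y hx hy hxy => ?_
  unfold rtChk at hc
  simp only [fz_eq, tb_eq, Nat.add_eq] at hc
  obtain ⟨s₁, h1⟩ := loop_ne (r1_ne hc) i hi
  rw [hX, cond_true] at h1
  obtain ⟨s₂, h2⟩ := loop_ne h1 Y (Nat.lt_succ_of_le hY)
  rw [hYS, cond_true] at h2
  obtain ⟨h3, h4⟩ := sq_ne h2
  refine ⟨fun e => ?_, fun e hA => ?_⟩
  · by_contra hA
    rw [e, cond_true] at h3
    exact r3_two hm hx hy hxy (by norm_num) ⟨fun h => absurd h (by decide),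
      fun _ h => hA h.symm⟩ h3
  · rw [e, cond_true] at h4
    exact r3_two hm hx hy hxy (by norm_num) ⟨fun _ => hA.symm, fun h => absurd h (by decide)⟩ h4

theorem r3_rt {V : Type} [DecidableEq V] [Fintype V] {w : Wld V} {a : ℕ → V} {X Y : ℕ} {x y : V}
    (h : Upto (RTat σ LL S RT) 64) (hm : Models w a σ) (hX : X < 64) (hY : Y < 64)
    (sX : S.testBit X = true) (sY : S.testBit Y = true) (hx : Lab w a σ.n0 (row LL X) x)
    (hy : Lab w a σ.n0 (row LL Y) y) (hxy : x ≠ y) : CellOK (phi RT X Y) (w.G.Adj x y) := by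
  rcases le_total Y X with h1 | h1
  · exact h X hX V w a hm sX Y h1 sY x y hx hy hxy
  · rw [phi_comm, w.G.adj_comm]
    exact h Y hY V w a hm sY X h1 sX y x hy hx hxy.symm

/-- The table of constant adjacencies, applied to typed vertices. -/
theorem rt_use {V : Type} [DecidableEq V] [Fintype V] {w : Wld V} {a : ℕ → V} {W : Finset V}
    {ty : V → ℕ} (h : Upto (RTat σ LL S RT) 64) (hm : Models w a σ)
    (ht : Typed w a σ.n0 LL S W ty) {x y : V} (hx : x ∈ W) (hy : y ∈ W) (hxy : x ≠ y) :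
    CellOK (phi RT (ty x) (ty y)) (w.G.Adj x y) := by
  obtain ⟨x1, x2, x3, x4, x5⟩ := ht x hx
  obtain ⟨y1, y2, y3, y4, y5⟩ := ht y hy
  exact r3_rt h hm x3 y3 x4 y4 ⟨x1, x2, x5⟩ ⟨y1, y2, y5⟩ hxy

theorem r3_weak {V : Type} [DecidableEq V] {G : SimpleGraph V} {W : Finset V} {ty : V → ℕ}
    {N N' : ℕ → ℕ → Prop} {k : ℕ} (h : Wd (mg G ty N') W k) (hty : ∀ x ∈ W, ty x < 64)
    (hN : ∀ x ∈ W, ∀ y ∈ W, ∀ z ∈ W, ty x = ty y → z ≠ x → z ≠ y → N (ty x) (ty z) →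
      N (ty z) (ty x) → (N' (ty x) (ty z) ∧ N' (ty z) (ty x)) ∨ (G.Adj x z ↔ G.Adj y z)) :
    Wd (mg G ty N) W (k * Fintype.card (Fin 64)) := by
  refine wd_transfer h (fun x => (⟨ty x % 64, Nat.mod_lt _ (by norm_num)⟩ : Fin 64)) ?_
  intro x hx y hy hxy z hz h1 h2 e
  have e1 : ty x = ty y := by
    have := congrArg Fin.val hxy
    have := hty x hx
    have := hty y hy
    simp only at *
    omega
  constructor
  · rintro ⟨a1, a2, a3⟩
    refine ⟨?_, e1 ▸ a2, e1 ▸ a3⟩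
    rcases hN x hx y hy z hz e1 h1 h2 a2 a3 with h3 | h3
    · exact (e.1 ⟨a1, h3⟩).1
    · exact h3.1 a1
  · rintro ⟨a1, a2, a3⟩
    refine ⟨?_, e1 ▸ a2, e1 ▸ a3⟩
    rcases hN y hy x hx z hz e1.symm h2 h1 a2 a3 with h3 | h3
    · exact (e.2 ⟨a1, h3⟩).1
    · exact h3.1 a1

theorem r3_cell {e : ℕ} {p q : Prop} (h4 : e < 4) (h0 : e ≠ 0) (hp : CellOK e p)
    (hq : CellOK e q) : p ↔ q := by
  have h : e.testBit 0 = true ∨ e.testBit 1 = true := by
    interval_cases e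
    · exact absurd rfl h0
    all_goals decide
  rcases h with h | h
  · exact iff_of_true (hp.1 h) (hq.1 h)
  · exact iff_of_false (hp.2 h) (hq.2 h)

theorem good_drop (h : Upto (RTat σ LL S RT) 64) (hc : dropChk S M M' RT = true)
    (hg : Good σ LL S M') : Good σ LL S M := by
  obtain ⟨K, hK⟩ := hg
  refine ⟨K * Fintype.card (Fin 64), fun V _ _ w a hm W ty hT => ?_⟩
  unfold dropChk at hc
  simp only [fz_eq, tb_eq, allLT_iff, Bool.or_eq_true, Bool.not_eq_true'] at hc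
  have key : ∀ u ∈ W, ∀ v ∈ W, Mk M (ty u) (ty v) →
      Mk M' (ty u) (ty v) ∨ phi RT (ty u) (ty v) ≠ 0 := by
    intro u hu v hv e
    obtain ⟨-, -, u3, u4, -⟩ := hT u hu
    obtain ⟨-, -, v3, v4, -⟩ := hT v hv
    have h1 := ((hc _ u3).resolve_left (by simp [u4]) _ v3).resolve_left (by simp [v4])
    rw [testBit_mrow v3, testBit_mrow v3] at h1
    refine (h1.resolve_left fun h2 => ?_).imp_right fun h2 h3 => ?_
    · rw [show M.testBit (64 * ty u + ty v) = true from e] at h2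
      exact absurd h2 (by decide)
    · rw [h3] at h2
      exact absurd h2 (by decide)
  refine r3_weak (hK V w a hm W ty hT) (fun x hx => (hT x hx).2.2.1)
    fun x hx y hy z hz e h1 h2 a1 a2 => ?_
  by_cases h0 : phi RT (ty x) (ty z) = 0
  · exact Or.inl ⟨(key x hx z hz a1).resolve_right fun h => h h0,
      (key z hz x hx a2).resolve_right fun h => h (phi_comm RT _ _ ▸ h0)⟩
  · exact Or.inr (r3_cell (phi_lt _ _ _) h0 (rt_use h hm hT hx hz h1.symm)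
      (e ▸ rt_use h hm hT hy hz h2.symm))

theorem r3_cells {V : Type} {w : Wld V} {f : ℕ → V} {x : V} {A m n i : ℕ} (hA : A < 2 ^ (2 * m))
    (h : ∀ t < m, CellOK (cel A t) (lit w f x (n + t))) :
    RowOK w f i x (Nat.shiftLeft A (Nat.mul 2 n)) := by
  have h1 : ∀ t, A.testBit t = true → t < 2 * m := by
    intro t ht
    by_contra h2
    rw [Nat.testBit_lt_two_pow (hA.trans_le (Nat.pow_le_pow_right (by norm_num) (not_lt.1 h2)))]
      at ht
    exact absurd ht (by decide)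
  intro b _ _
  rw [bits_shl, bits_shl, Nat.mul_eq]
  constructor
  · rintro ⟨h2, h3⟩
    obtain ⟨t, rfl⟩ := Nat.exists_eq_add_of_le (show n ≤ b by omega)
    rw [show 2 * (n + t) - 2 * n = 2 * t by omega] at h3
    exact (h t (by have := h1 _ h3; omega)).1 (testBit_cel.1.trans h3)
  · rintro ⟨h2, h3⟩
    obtain ⟨t, rfl⟩ := Nat.exists_eq_add_of_le (show n ≤ b by omega)
    rw [show 2 * (n + t) + 1 - 2 * n = 2 * t + 1 by omega] at h3
    exact (h t (by have := h1 _ h3; omega)).2 (testBit_cel.2.trans h3)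

theorem r3_kd : ∀ kd < 4, ∀ j < 5,
    Nat.mod (Nat.mul kd 341) (Nat.shiftLeft 1 (Nat.mul 2 j)) < 2 ^ (2 * j) ∧
      ∀ t < j, cel (Nat.mod (Nat.mul kd 341) (Nat.shiftLeft 1 (Nat.mul 2 j))) t = kd := by
  decide +kernel

theorem r3_block {V : Type} [DecidableEq V] [Fintype V] {w : Wld V} {a g x : ℕ → V}
    {X K m : ℕ} {A e : ℕ → ℕ} (hr : Upto (RTat σ LL S RT) 64) (hm : Models w a σ) (hX : X < 64)
    (sX : S.testBit X = true) (hn : σ.n0 + m + 5 ≤ 32) (hg : ∀ i < σ.n0, g i = a i)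
    (hI : Inj w g (σ.n0 + m)) (hT : Tru w g (σ.n0 + m) K)
    (hL : ∀ j < 5, Lab w a σ.n0 (row LL X) (x j)) (hx : ∀ j < 5, ∀ i < j, x i ≠ x j)
    (he : ∀ j, e j = Nat.shiftLeft (A j) (Nat.mul 2 σ.n0))
    (hA : ∀ j < 5, A j < 2 ^ (2 * m) ∧ ∀ t < m, g (σ.n0 + t) ≠ x j ∧
      CellOK (cel (A j) t) (w.G.Adj (x j) (g (σ.n0 + t)))) :
    ∃ f : ℕ → V, (∀ i < σ.n0 + m, f i = g i) ∧ (∀ j, f (σ.n0 + m + j) = x j) ∧
      Inj w f (σ.n0 + m + 5) ∧
      Tru w f (σ.n0 + m + 5) (push5 K (σ.n0 + m) (lab σ LL X) (phi RT X X) e) := by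
  have h1 := r1_ext_lt g (n := σ.n0 + m) x
  have h2 := r1_ext_add g (σ.n0 + m) x
  refine ⟨r1Ext g (σ.n0 + m) x, h1, h2, (r1_sat hI x [0, 0, 0, 0, 0] fun j hj => ?_).1, ?_⟩
  · have hj' : j < 5 := hj
    refine ⟨(hL j hj).1, fun i hi => ?_, hx j hj, 0, rowOK_zero, ?_⟩
    · by_cases h3 : i < σ.n0
      · rw [hg i h3]
        exact (hL j hj).2.1 i h3
      · obtain ⟨t, rfl⟩ := Nat.exists_eq_add_of_le (not_lt.1 h3)
        exact ((hA j hj).2 t (by omega)).1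
    · rw [Nat.land_eq, Nat.zero_and]
      interval_cases j <;> rfl
  generalize r1Ext g (σ.n0 + m) x = f at h1 h2
  have key : ∀ k ≤ 5, Tru w f (σ.n0 + m + k) (Nat.rec K (fun j ih => push ih (Nat.add (σ.n0 + m) j)
      (Nat.lor (Nat.lor (lab σ LL X) (e j)) (Nat.shiftLeft (Nat.mod (Nat.mul (phi RT X X) 341)
        (Nat.shiftLeft 1 (Nat.mul 2 j))) (Nat.mul 2 (σ.n0 + m))))) k) := by
    intro k
    induction k with
    | zero => exact fun _ => hT.congr h1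
    | succ j ih =>
      intro hj
      have hj' : j < 5 := hj
      refine (ih hj'.le).push ?_
      rw [h2, he]
      obtain ⟨k1, k2⟩ := r3_kd _ (phi_lt RT X X) j hj
      refine rowOK_lor.2 ⟨rowOK_lor.2 ⟨(hL j hj).2.2.lab (fun i hi => ?_) _,
        r3_cells (hA j hj).1 fun t ht => ?_⟩, r3_cells k1 fun t ht => ?_⟩
      · rw [h1 i (by omega), hg i hi]
      · rw [bits_adj (by omega), h1 _ (by omega)]
        exact ((hA j hj).2 t ht).2
      · rw [bits_adj (by omega), h2, k2 t ht]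
        exact r3_rt hr hm hX hX sX sX (hL j hj) (hL t (by omega)) (hx j hj t ht).symm
  exact (key 5 le_rfl).slt

theorem r3_pc : ∀ p : Pat, ∀ j < 5, pc (pn p) j < 2 ^ (2 * 5) ∧
    ∀ t < 5, cel (pc (pn p) j) t = bif rel p t j then 1 else 2 := by
  decide +kernel

theorem r3_pc2 : ∀ q r : Pat, ∀ j < 5,
    Nat.lor (pc (pn q) j) (Nat.shiftLeft (pc (pn r) j) 10) < 2 ^ (2 * 10) ∧ ∀ t < 5,
      cel (Nat.lor (pc (pn q) j) (Nat.shiftLeft (pc (pn r) j) 10)) t =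
        (bif rel q t j then 1 else 2) ∧
      cel (Nat.lor (pc (pn q) j) (Nat.shiftLeft (pc (pn r) j) 10)) (5 + t) =
        bif rel r t j then 1 else 2 := by
  decide +kernel

theorem r3_pn : ∀ p : Pat, pn p < 8 ∧ tp (pn p) = pn (p.2.2, p.2.1, p.1) ∧
    (nc p = true → ∃ k < 6, pn p = Nat.succ k) ∧
    (pn p ≠ 0 → ∃ i < 5, ∃ j < 5, rel p i j = true) ∧
    (pn p ≠ 7 → ∃ i < 5, ∃ j < 5, rel p i j = false) ∧
    ∀ i < 5, ∀ j < 5, rel (p.2.2, p.2.1, p.1) i j = rel p j i := by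
  decide +kernel

theorem r3_bif {V : Type} {G : SimpleGraph V} {x y : V} {b : Bool} (h : G.Adj x y ↔ b = true) :
    CellOK (bif b then 1 else 2) (G.Adj y x) := by
  rw [G.adj_comm, h]
  cases b
  · exact ⟨fun h => absurd h (by decide), fun _ => by decide⟩
  · exact ⟨fun _ => rfl, fun h => absurd h (by decide)⟩

theorem r3_xy {V : Type} [DecidableEq V] [Fintype V] {w : Wld V} {a x y : ℕ → V}
    {X Y : ℕ} {p : Pat} (hr : Upto (RTat σ LL S RT) 64) (hm : Models w a σ) (hX : X < 64)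
    (hY : Y < 64) (sX : S.testBit X = true) (sY : S.testBit Y = true) (hn : σ.n0 + 10 ≤ 32)
    (hL : ∀ i < 5, Lab w a σ.n0 (row LL X) (x i) ∧ Lab w a σ.n0 (row LL Y) (y i))
    (h1 : ∀ i < 5, ∀ j < i, x j ≠ x i ∧ y j ≠ y i) (h2 : ∀ i < 5, ∀ j < 5, x i ≠ y j)
    (h3 : ∀ i < 5, ∀ j < 5, (w.G.Adj (x i) (y j) ↔ rel p i j = true)) :
    ∃ f : ℕ → V, (∀ i < σ.n0, f i = a i) ∧ (∀ j < 5, f (σ.n0 + j) = x j) ∧
      (∀ j, f (σ.n0 + 5 + j) = y j) ∧ Inj w f (σ.n0 + 10) ∧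
      Tru w f (σ.n0 + 10) (push5 (push5 σ.c0 σ.n0 (lab σ LL X) (phi RT X X) fun _ => 0)
        (σ.n0 + 5) (lab σ LL Y) (phi RT Y Y) fun j =>
          Nat.shiftLeft (pc (pn p) j) (Nat.mul 2 σ.n0)) := by
  obtain ⟨g, g1, g2, g3, g4⟩ := r3_block (m := 0) (A := fun _ => 0) (e := fun _ => 0) hr hm hX sX
    (by omega) (fun _ _ => rfl) hm.1 hm.2.1 (fun j hj => (hL j hj).1)
    (fun j hj i hi => (h1 j hj i hi).1) (fun _ => (Nat.zero_shiftLeft _).symm)
    fun j _ => ⟨by norm_num, fun t ht => absurd ht (Nat.not_lt_zero t)⟩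
  rw [Nat.add_zero] at g1 g2 g3 g4
  obtain ⟨f, f1, f2, f3, f4⟩ := r3_block (m := 5) (A := pc (pn p)) hr hm hY sY
    (by omega) g1 g3 g4 (fun j hj => (hL j hj).2) (fun j hj i hi => (h1 j hj i hi).2)
    (fun _ => rfl) fun j hj => ⟨(r3_pc p j hj).1, fun t ht => by
      rw [g2, (r3_pc p j hj).2 t ht]
      exact ⟨h2 t ht j hj, r3_bif (h3 t ht j hj)⟩⟩
  exact ⟨f, fun i hi => (f1 i (by omega)).trans (g1 i hi),
    fun j hj => (f1 _ (by omega)).trans (g2 j), f2, f3, f4⟩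

theorem al_step (hr : Upto (RTat σ LL S RT) 64) (h : Upto (ALat σ LL S AL) lo)
    (hc : alChk σ LL S RT AL lo c s = true) (hb : lo + c ≤ 64) :
    Upto (ALat σ LL S AL) (lo + c) := by
  refine r3_upto h fun i hi V _ _ w a hm sY X hXY sX x y p hL h1 h2 h3 => ?_
  have hY : lo + i < 64 := by omega
  unfold alChk at hc
  simp only [fz_eq, tb_eq, Nat.add_eq, Bool.and_eq_true, Nat.ble_eq] at hc
  obtain ⟨s₁, e1⟩ := loop_ne (r1_ne hc.2) i hi
  rw [sY, cond_true] at e1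
  obtain ⟨s₂, e2⟩ := loop_ne e1 X hXY
  rw [sX, cond_true] at e2
  obtain ⟨p1, -, -, p4, p5, -⟩ := r3_pn p
  obtain ⟨s₃, e3⟩ := loop_ne e2 _ p1
  have hC := fun i hi j hj => r3_rt hr hm (hXY.trans hY) hY sX sY (hL i hi).1 (hL j hj).2
    (h2 i hi j hj)
  have b1 : ((phi RT X (lo + i)).testBit 1 && !Nat.beq (pn p) 0) = false := by
    rw [← Bool.not_eq_true, Bool.and_eq_true]
    rintro ⟨b1, b2⟩
    obtain ⟨i, hi, j, hj, e⟩ := p4 (r1_ne b2)
    exact (hC i hi j hj).2 b1 ((h3 i hi j hj).2 e)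
  have b2 : ((phi RT X (lo + i)).testBit 0 && !Nat.beq (pn p) 7) = false := by
    rw [← Bool.not_eq_true, Bool.and_eq_true]
    rintro ⟨b1, b2⟩
    obtain ⟨i, hi, j, hj, e⟩ := p5 fun e => by
      rw [e] at b2
      exact absurd b2 (by decide)
    rw [(h3 i hi j hj).1 ((hC i hi j hj).1 b1)] at e
    exact absurd e (by decide)
  by_contra b0
  rw [Bool.not_eq_true] at b0
  rw [b0, b1, b2, Bool.or_self, Bool.or_self, cond_false] at e3
  obtain ⟨f, f1, -, -, f4, f5⟩ := r3_xy hr hm (hXY.trans hY) hY sX sY hc.1 hL h1 h2 h3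
  exact tab_snd' hm ∅ (fun _ => 0) _ _ _ _ _ _ _ e3 f (Nat.le_add_right _ _) hc.1 f1 f4 f5 trivial

theorem r3_alw {V : Type} [DecidableEq V] [Fintype V] {w : Wld V} {a x y : ℕ → V}
    {W : Finset V} {ty : V → ℕ} {X Y : ℕ} {p : Pat} (ha : Upto (ALat σ LL S AL) 64)
    (hm : Models w a σ) (hT : Typed w a σ.n0 LL S W ty) (hXY : X ≠ Y)
    (hL : ∀ i < 5, (x i ∈ W ∧ ty (x i) = X) ∧ (y i ∈ W ∧ ty (y i) = Y))
    (h1 : ∀ i < 5, ∀ j < i, x j ≠ x i ∧ y j ≠ y i)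
    (h3 : ∀ i < 5, ∀ j < 5, (w.G.Adj (x i) (y j) ↔ rel p i j = true)) :
    alw AL X Y (pn p) = true := by
  have hl : ∀ v ∈ W, ∀ Z, ty v = Z → Z < 64 ∧ S.testBit Z = true ∧ Lab w a σ.n0 (row LL Z) v := by
    rintro v hv Z rfl
    obtain ⟨x1, x2, x3, x4, x5⟩ := hT v hv
    exact ⟨x3, x4, x1, x2, x5⟩
  have hx := fun i hi => hl _ (hL i hi).1.1 X (hL i hi).1.2
  have hy := fun i hi => hl _ (hL i hi).2.1 Y (hL i hi).2.2
  have h2 : ∀ i < 5, ∀ j < 5, x i ≠ y j := fun i hi j hj e =>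
    hXY ((hL i hi).1.2.symm.trans (e ▸ (hL j hj).2.2))
  have h0 : 0 < 5 := by norm_num
  rcases lt_or_gt_of_ne hXY with h | h
  · exact ha Y (hy 0 h0).1 V w a hm (hy 0 h0).2.1 X h (hx 0 h0).2.1 x y p
      (fun i hi => ⟨(hx i hi).2.2, (hy i hi).2.2⟩) h1 h2 h3
  · obtain ⟨-, p2, -, -, -, p6⟩ := r3_pn p
    have h4 := ha X (hx 0 h0).1 V w a hm (hx 0 h0).2.1 Y h (hy 0 h0).2.1 y x (p.2.2, p.2.1, p.1)
      (fun i hi => ⟨(hy i hi).2.2, (hx i hi).2.2⟩) (fun i hi j hj => (h1 i hi j hj).symm)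
      (fun i hi j hj => (h2 j hj i hi).symm) fun i hi j hj => by
        rw [p6 i hi j hj, w.G.adj_comm]
        exact h3 j hj i hi
    have e1 : Nat.blt Y X = true := Nat.blt_eq ▸ h
    have e2 : Nat.blt X Y = false := by
      rw [← Bool.not_eq_true, Nat.blt_eq]
      omega
    unfold alw at h4 ⊢
    rw [e2, cond_false, ← p2] at h4
    rw [e1, cond_true]
    exact h4

theorem r3_zset {A X Y Z g : ℕ} (hZ : Z < 64) (hA : A.testBit Z = true) (hYZ : Y < Z)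
    (h0 : lin LT X Z ≠ 0) (hg : lin LT X Z ≠ g) : (zset LT A X Y g).testBit Z = true := by
  have key : ∀ n : ℕ, Z < n → (Nat.rec 0 (fun Z ih => bif tb A Z && (Nat.blt Y Z &&
      fz (lin LT X Z) fun h => !Nat.beq h 0 && !Nat.beq h g) then
        Nat.lor ih (Nat.shiftLeft 1 Z) else ih) n : ℕ).testBit Z = true := by
    intro n
    induction n with
    | zero => exact fun h => absurd h (Nat.not_lt_zero Z)
    | succ n ih =>
      intro h
      have h' : ∀ x : ℕ, Z = n ∨ x.testBit Z = true → (bif tb A n && (Nat.blt Y n &&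
          fz (lin LT X n) fun h => !Nat.beq h 0 && !Nat.beq h g) then
            Nat.lor x (Nat.shiftLeft 1 n) else x).testBit Z = true := by
        rintro x (rfl | hx)
        · have e1 : Nat.blt Y Z = true := Nat.blt_eq ▸ hYZ
          have e2 : Nat.beq (lin LT X Z) 0 = false := by
            rwa [← Bool.not_eq_true, Nat.beq_eq]
          have e3 : Nat.beq (lin LT X Z) g = false := by
            rwa [← Bool.not_eq_true, Nat.beq_eq]
          rw [fz_eq, tb_eq, hA, e1, e2, e3]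
          exact (bits_lor _ _ _).2 (Or.inr ((bits_shl _ _ _).2 ⟨le_rfl, by rw [Nat.sub_self]; rfl⟩))
        · generalize (tb A n && _) = b
          cases b
          · exact hx
          · exact (bits_lor _ _ _).2 (Or.inl hx)
      exact h' _ ((Nat.lt_succ_iff_lt_or_eq.1 h).symm.imp_right ih)
  exact key 64 hZ

theorem r3_act {X Y : ℕ} (hY : Y < 64) (sY : S.testBit Y = true) (h : Mk M X Y) :
    (Nat.land S (mrow M X)).testBit Y = true := by
  rw [bits_land, testBit_mrow hY]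
  exact ⟨sY, h⟩

theorem tr_step (hr : Upto (RTat σ LL S RT) 64) (ha : Upto (ALat σ LL S AL) 64)
    (h : Upto (TRat σ LL S M LT) lo) (hc : trChk σ LL S M RT AL LT lo c s = true) :
    Upto (TRat σ LL S M LT) (lo + c) := by
  refine r3_upto h fun i hi V _ _ w a hm W ty hT Y Z hYZ hXY hXZ mY mZ lY lZ lYZ => ?_
  rintro ⟨x, y, z, p, q, r, np, nq, h1, h2, h3⟩
  unfold trChk at hc
  simp only [fz_eq, tb_eq, Nat.add_eq, Bool.and_eq_true, Nat.ble_eq] at hc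
  obtain ⟨s₁, e1⟩ := loop_ne (r1_ne hc.2) i hi
  have hn := hc.1
  clear hc
  generalize lo + i = X at *
  have hl : ∀ v ∈ W, ∀ Z, ty v = Z → Z < 64 ∧ S.testBit Z = true ∧ Lab w a σ.n0 (row LL Z) v := by
    rintro v hv Z rfl
    obtain ⟨x1, x2, x3, x4, x5⟩ := hT v hv
    exact ⟨x3, x4, x1, x2, x5⟩
  have hx := fun i hi => hl _ (h1 i hi).1.1 X (h1 i hi).1.2
  have hy := fun i hi => hl _ (h1 i hi).2.1.1 Y (h1 i hi).2.1.2
  have hz := fun i hi => hl _ (h1 i hi).2.2.1 Z (h1 i hi).2.2.2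
  have h0 : 0 < 5 := by norm_num
  obtain ⟨hX, sX, -⟩ := hx 0 h0
  obtain ⟨hY, sY, -⟩ := hy 0 h0
  obtain ⟨hZ, sZ, -⟩ := hz 0 h0
  have zs := r3_zset hZ (r3_act hZ sZ mZ) hYZ lZ lYZ.symm
  have b1 : Nat.beq (lin LT X Y) 0 = false := by
    rwa [← Bool.not_eq_true, Nat.beq_eq]
  have b2 : Nat.beq (zset LT (Nat.land S (mrow M X)) X Y (lin LT X Y)) 0 = false := by
    rw [← Bool.not_eq_true, Nat.beq_eq]
    intro e
    rw [e, Nat.zero_testBit] at zs
    exact absurd zs (by decide)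
  rw [sX, cond_true] at e1
  obtain ⟨s₂, e2⟩ := loop_ne e1 Y hY
  rw [r3_act hY sY mY, cond_true, b1, cond_false, b2, cond_false] at e2
  obtain ⟨kp, kp1, kp2⟩ := (r3_pn p).2.2.1 np
  obtain ⟨kq, kq1, kq2⟩ := (r3_pn q).2.2.1 nq
  obtain ⟨s₃, e3⟩ := loop_ne e2 kp kp1
  rw [← kp2, r3_alw ha hm hT hXY (fun i hi => ⟨(h1 i hi).1, (h1 i hi).2.1⟩)
    (fun i hi j hj => ⟨(h2 i hi j hj).1, (h2 i hi j hj).2.1⟩) fun i hi j hj => (h3 i hi j hj).1,
    cond_true] at e3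
  obtain ⟨s₄, e4⟩ := loop_ne e3 Z hZ
  rw [zs, cond_true] at e4
  obtain ⟨s₅, e5⟩ := loop_ne e4 kq kq1
  rw [← kq2, r3_alw ha hm hT hXZ (fun i hi => ⟨(h1 i hi).1, (h1 i hi).2.2⟩)
    (fun i hi j hj => ⟨(h2 i hi j hj).1, (h2 i hi j hj).2.2⟩) fun i hi j hj => (h3 i hi j hj).2.1,
    cond_true] at e5
  obtain ⟨s₆, e6⟩ := loop_ne e5 _ (r3_pn r).1
  rw [r3_alw ha hm hT hYZ.ne (fun i hi => (h1 i hi).2) (fun i hi j hj => (h2 i hi j hj).2)
    fun i hi j hj => (h3 i hi j hj).2.2, cond_true] at e6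
  obtain ⟨g, g1, g2, g3, g4, g5⟩ := r3_xy hr hm hX hY sX sY (by omega)
    (fun i hi => ⟨(hx i hi).2.2, (hy i hi).2.2⟩)
    (fun i hi j hj => ⟨(h2 i hi j hj).1, (h2 i hi j hj).2.1⟩)
    (fun i hi j hj e => hXY ((h1 i hi).1.2.symm.trans (e ▸ (h1 j hj).2.1.2)))
    fun i hi j hj => (h3 i hi j hj).1
  obtain ⟨f, f1, -, f3, f4⟩ := r3_block (m := 10)
    (A := fun j => Nat.lor (pc (pn q) j) (Nat.shiftLeft (pc (pn r) j) 10)) hr hm hZ sZ
    (by omega) g1 g4 g5 (fun j hj => (hz j hj).2.2) (fun j hj i hi => (h2 j hj i hi).2.2)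
    (fun _ => rfl) fun j hj => ⟨(r3_pc2 q r j hj).1, fun t ht => by
      by_cases h5 : t < 5
      · rw [g2 t h5, ((r3_pc2 q r j hj).2 t h5).1]
        exact ⟨fun e => hXZ ((h1 t h5).1.2.symm.trans (e ▸ (h1 j hj).2.2.2)),
          r3_bif (h3 t h5 j hj).2.1⟩
      · obtain ⟨t, rfl⟩ := Nat.exists_eq_add_of_le (not_lt.1 h5)
        have h6 : t < 5 := by omega
        rw [← Nat.add_assoc, g3, ((r3_pc2 q r j hj).2 t h6).2]
        exact ⟨fun e => hYZ.ne ((h1 t h6).2.1.2.symm.trans (e ▸ (h1 j hj).2.2.2)),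
          r3_bif (h3 t h6 j hj).2.2⟩⟩
  exact tab_snd' hm ∅ (fun _ => 0) _ _ _ _ _ _ _ e6 f (Nat.le_add_right _ _) hn
    (fun i hi => (f1 i (by omega)).trans (g1 i hi)) f3 f4 trivial

theorem AllGood.nil (σ : St) (LL : ℕ) : AllGood σ LL [] := by
  exact fun p hp => absurd hp List.not_mem_nil

theorem AllGood.cons {ls : List (ℕ × ℕ)} (h : Good σ LL S M) (hl : AllGood σ LL ls) :
    AllGood σ LL ((S, M) :: ls) := by
  intro p hp
  rcases List.mem_cons.1 hp with rfl | hp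
  · exact h
  · exact hl p hp

theorem r3_unif {ls : List (ℕ × ℕ)} (hl : AllGood σ LL ls) : ∃ K : ℕ, ∀ p ∈ ls,
    ∀ (V : Type) [DecidableEq V] [Fintype V] (w : Wld V) (a : ℕ → V), Models w a σ →
      ∀ (W : Finset V) (ty : V → ℕ), Typed w a σ.n0 LL p.1 W ty →
        Wd (mg w.G ty (Mk p.2)) W K := by
  induction ls with
  | nil => exact ⟨0, fun p hp => absurd hp List.not_mem_nil⟩
  | cons q ls ih =>
    obtain ⟨K₁, h₁⟩ := hl q List.mem_cons_self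
    obtain ⟨K₂, h₂⟩ := ih fun p hp => hl p (List.mem_cons_of_mem _ hp)
    refine ⟨K₁ + K₂, fun p hp V _ _ w a hm W ty hT => ?_⟩
    rcases List.mem_cons.1 hp with rfl | hp
    · exact (h₁ V w a hm W ty hT).mono (Nat.le_add_right _ _)
    · exact (h₂ p hp V w a hm W ty hT).mono (Nat.le_add_left _ _)

theorem r3_lin (LT X Y : ℕ) : lin LT X Y = lin LT Y X := by
  have e : ∀ X Y : ℕ, X < Y → Nat.blt X Y = true ∧ Nat.blt Y X = false := fun X Y h =>
    ⟨Nat.blt_eq ▸ h, by rw [← Bool.not_eq_true, Nat.blt_eq]; omega⟩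
  unfold lin
  rcases lt_trichotomy X Y with h | rfl | h
  · rw [(e X Y h).1, (e X Y h).2, cond_true, cond_false]
  · rfl
  · rw [(e Y X h).1, (e Y X h).2, cond_true, cond_false]

theorem r3_chk {ls : List (ℕ × ℕ)} (hc : linChk S M AL LT ls = true) {X Y : ℕ} (hX : X < 64)
    (hY : Y < 64) (sX : S.testBit X = true) (sY : S.testBit Y = true) (h : Mk M X Y) :
    X ≠ Y ∧ (lin LT X Y = 0 → ∀ k < 6, alw AL X Y (Nat.succ k) = false) ∧
      (lin LT X Y ≠ 0 → ls.getD (lin LT X Y - 1) (0, 0) ∈ ls ∧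
        (ls.getD (lin LT X Y - 1) (0, 0)).1.testBit X = true ∧
        Mk (ls.getD (lin LT X Y - 1) (0, 0)).2 X Y) := by
  unfold linChk at hc
  simp only [fz_eq, tb_eq, nth_eq] at hc
  have h1 := allLT_iff.1 hc X hX
  rw [sX, Bool.not_true, Bool.false_or, Bool.and_eq_true] at h1
  have h2 := allLT_iff.1 h1.2 Y hY
  rw [r3_act hY sY h, Bool.not_true, Bool.false_or] at h2
  refine ⟨?_, fun e k hk => ?_, fun e => ?_⟩
  · rintro rfl
    rw [r3_act hY sY h] at h1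
    exact absurd h1.1 (by decide)
  · rw [e, show Nat.beq 0 0 = true from rfl, cond_true] at h2
    simpa using allLT_iff.1 h2 k hk
  · have b1 : Nat.beq (lin LT X Y) 0 = false := by
      rwa [← Bool.not_eq_true, Nat.beq_eq]
    rw [b1, cond_false, Bool.and_eq_true, Bool.and_eq_true, Nat.ble_eq] at h2
    refine ⟨?_, h2.2⟩
    rw [List.getD_eq_getElem _ _ (by omega)]
    exact List.getElem_mem _

theorem good_mach {ls : List (ℕ × ℕ)} (ha : Upto (ALat σ LL S AL) 64)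
    (ht : Upto (TRat σ LL S M LT) 64) (hc : linChk S M AL LT ls = true)
    (hl : AllGood σ LL ls) : Good σ LL S M := by
  obtain ⟨k, hk⟩ := r3_unif hl
  obtain ⟨K, hK⟩ := machine2 64 (k * Fintype.card (Fin 64))
  refine ⟨K * Fintype.card (Fin 64), fun V _ _ w a hm W ty hT => ?_⟩
  have hty : ∀ x ∈ W, ty x < 64 := fun x hx => (hT x hx).2.2.1
  have hS : ∀ x ∈ W, S.testBit (ty x) = true := fun x hx => (hT x hx).2.2.2.1
  let N : ℕ → ℕ → Prop := fun X Y => (Mk M X Y ∧ X < 64 ∧ S.testBit X = true) ∧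
    Mk M Y X ∧ Y < 64 ∧ S.testBit Y = true
  have hN := fun X Y (h : N X Y) => r3_chk hc h.1.2.1 h.2.2.1 h.1.2.2 h.2.2.2 h.1.1
  refine r3_weak (hK V w.G W ty N (lin LT) (fun X Y h => h.symm) (fun X h => (hN X X h).1 rfl)
    (r3_lin LT) hty ?_ ?_ ?_) hty fun x hx _ _ z hz _ _ _ a1 a2 => Or.inl
      ⟨⟨⟨a1, hty x hx, hS x hx⟩, a2, hty z hz, hS z hz⟩,
        ⟨a2, hty z hz, hS z hz⟩, a1, hty x hx, hS x hx⟩
  · rintro X Y hXY h e ⟨x, y, p, np, h1, h2, h3⟩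
    obtain ⟨kp, kp1, kp2⟩ := (r3_pn p).2.2.1 np
    have h4 := r3_alw ha hm hT hXY.ne h1 h2 h3
    rw [kp2, (hN X Y h).2.1 e kp kp1] at h4
    exact absurd h4 (by decide)
  · intro X Y Z hYZ h1 h2
    exact ht X h1.1.2.1 V w a hm W ty hT Y Z hYZ (hN X Y h1).1 (hN X Z h2).1 h1.1.1 h2.1.1
  · intro γ hγ W' hW h
    rcases W'.eq_empty_or_nonempty with rfl | ⟨x₀, hx₀⟩
    · exact Dec.empty
    obtain ⟨y₀, -, h1, h2⟩ := h x₀ hx₀
    have h3 := ((hN _ _ h1).2.2 (h2 ▸ hγ)).1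
    rw [h2] at h3
    refine r3_weak (hk _ h3 V w a hm W' ty fun x hx => ?_) (fun x hx => hty x (hW hx))
      fun x _ _ _ z _ _ _ _ a1 a2 => Or.inl ⟨?_, ?_⟩
    · obtain ⟨x1, x2, x3, -, x5⟩ := hT x (hW hx)
      obtain ⟨y, -, h4, h5⟩ := h x hx
      exact ⟨x1, x2, x3, h5 ▸ ((hN _ _ h4).2.2 (h5 ▸ hγ)).2.1, x5⟩
    · exact a1.2 ▸ ((hN _ _ a1.1).2.2 (a1.2 ▸ hγ)).2.2
    · exact a2.2 ▸ ((hN _ _ a2.1).2.2 (a2.2 ▸ hγ)).2.2

end Pool.Agent.Lib.MP_1595d8_lc
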