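import Mathlib
import Pool.Agent.Lib.MP_1595d8_lc.H89R3

/-!
Pendant types and closing rules.
-/

namespace Pool.Agent.Lib.MP_1595d8_lc

open Finset Pool.Agent.Lib.MP_042ec1_co

variable {σ : St} {LL S M RT s : ℕ}

theorem r4_row {V : Type} {w : Wld V} {f : ℕ → V} {i r : ℕ} {x : V} (hi : i ≤ 32)
    (hr : r < 2 ^ 64) : RowOK w f i x r ↔ ∀ b < i, (r.testBit (2 * b) = true → w.G.Adj x (f b)) ∧
      (r.testBit (2 * b + 1) = true → ¬ w.G.Adj x (f b)) := by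
  constructor
  · intro h b hb
    have := h b (by omega) (Or.inl hb)
    rwa [lit, if_pos (by omega)] at this
  · intro h b _ hb
    by_cases h1 : b < 32
    · rw [lit, if_pos h1]
      exact h b (by omega)
    · have e : ∀ j, 64 ≤ j → r.testBit j = false := fun j hj =>
        Nat.testBit_lt_two_pow (hr.trans_le (Nat.pow_le_pow_right (by norm_num) hj))
      rw [e _ (by omega), e _ (by omega)]
      simp

theorem r4_le1 (p : ℕ → Prop) : (∀ m ≤ 1, p m) ↔ p 0 ∧ p 1 :=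
  ⟨fun h => ⟨h 0 zero_le_one, h 1 le_rfl⟩, fun h m hm => by
    rcases Nat.le_one_iff_eq_zero_or_eq_one.1 hm with rfl | rfl
    exacts [h.1, h.2]⟩

theorem r4_gem {V : Type} {w : Wld V} {f : ℕ → V} : SatL w f 0 pGem ↔ Inj w f 5 ∧
    w.G.Adj (f 1) (f 0) ∧ (¬ w.G.Adj (f 2) (f 0) ∧ w.G.Adj (f 2) (f 1)) ∧
    (¬ w.G.Adj (f 3) (f 0) ∧ ¬ w.G.Adj (f 3) (f 1) ∧ w.G.Adj (f 3) (f 2)) ∧
    w.G.Adj (f 4) (f 0) ∧ w.G.Adj (f 4) (f 1) ∧ w.G.Adj (f 4) (f 2) ∧ w.G.Adj (f 4) (f 3) := by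
  unfold SatL
  refine and_congr Iff.rfl ?_
  have e : ∀ p : ℕ → Prop, (∀ j < pGem.length, p j) ↔ p 0 ∧ p 1 ∧ p 2 ∧ p 3 ∧ p 4 := fun p => by
    simp [pGem, Nat.forall_lt_succ_right, r4_le1, and_assoc]
  rw [e]
  simp only [zero_add]
  rw [r4_row (by norm_num) (by decide), r4_row (by norm_num) (by decide),
    r4_row (by norm_num) (by decide), r4_row (by norm_num) (by decide),
    r4_row (by norm_num) (by decide)]
  simp +decide [pGem, Nat.forall_lt_succ_right, r4_le1, and_assoc]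

theorem r4_p23 {V : Type} {w : Wld V} {f : ℕ → V} : SatL w f 0 pP23 ↔ Inj w f 5 ∧
    w.G.Adj (f 1) (f 0) ∧ (¬ w.G.Adj (f 2) (f 0) ∧ ¬ w.G.Adj (f 2) (f 1)) ∧
    (¬ w.G.Adj (f 3) (f 0) ∧ ¬ w.G.Adj (f 3) (f 1) ∧ w.G.Adj (f 3) (f 2)) ∧
    ¬ w.G.Adj (f 4) (f 0) ∧ ¬ w.G.Adj (f 4) (f 1) ∧ ¬ w.G.Adj (f 4) (f 2) ∧
      w.G.Adj (f 4) (f 3) := by
  unfold SatL
  refine and_congr Iff.rfl ?_
  have e : ∀ p : ℕ → Prop, (∀ j < pP23.length, p j) ↔ p 0 ∧ p 1 ∧ p 2 ∧ p 3 ∧ p 4 := fun p => by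
    simp [pP23, Nat.forall_lt_succ_right, r4_le1, and_assoc]
  rw [e]
  simp only [zero_add]
  rw [r4_row (by norm_num) (by decide), r4_row (by norm_num) (by decide),
    r4_row (by norm_num) (by decide), r4_row (by norm_num) (by decide),
    r4_row (by norm_num) (by decide)]
  simp +decide [pP23, Nat.forall_lt_succ_right, r4_le1, and_assoc]

theorem r4_inj5 {V : Type} {w : Wld V} {f : ℕ → V} : Inj w f 5 ↔
    f 0 ∈ w.U ∧ (f 1 ∈ w.U ∧ f 0 ≠ f 1) ∧ (f 2 ∈ w.U ∧ f 0 ≠ f 2 ∧ f 1 ≠ f 2) ∧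
    (f 3 ∈ w.U ∧ f 0 ≠ f 3 ∧ f 1 ≠ f 3 ∧ f 2 ≠ f 3) ∧
    (f 4 ∈ w.U ∧ f 0 ≠ f 4 ∧ f 1 ≠ f 4 ∧ f 2 ≠ f 4 ∧ f 3 ≠ f 4) := by
  simp [Inj, Nat.forall_lt_succ_right, r4_le1, and_assoc]

theorem r4_holds {V : Type} {w : Wld V} {a : ℕ → V} {rs : List ℕ} :
    Holds w a ⟨0, rs, []⟩ ↔ ∀ f, ¬ SatL w f 0 rs := by
  simp [Holds, Ext]

theorem noGem_of_valid {V : Type} {w : Wld V} {a : ℕ → V} {nb : ℕ} (h : Valid w a nb F0) :
    NoGem w.G w.U ∧ NoP23 w.G w.U := by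
  have h1 : Holds w a ⟨0, pGem, []⟩ := (h 1).2
  have h2 : Holds w a ⟨0, pP23, []⟩ := (h 2).2
  rw [r4_holds] at h1 h2
  constructor
  · intro e he p hp q hq r hr t ht e1 e2 e3 e4 a1 a2 a3 n1 n2 n3
    refine h1 (fun i => [p, q, r, t].getD i e) (r4_gem.2 ⟨r4_inj5.2 ?_, ?_⟩)
    · refine ⟨hp, ⟨hq, a1.ne⟩, ⟨hr, ?_, a2.ne⟩, ⟨ht, ?_, ?_, a3.ne⟩, he, e1.ne', e2.ne', e3.ne',
        e4.ne'⟩
      · exact fun h : p = r => n2 (h ▸ a3)
      · exact fun h : p = t => n3 (h ▸ a1.symm)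
      · exact fun h : q = t => n2 (h ▸ a1)
    · exact ⟨a1.symm, ⟨fun h => n1 h.symm, a2.symm⟩, ⟨fun h => n2 h.symm, fun h => n3 h.symm,
        a3.symm⟩, e1, e2, e3, e4⟩
  · intro x hx y hy p hp q hq r hr a1 a2 a3 hpr n1 n2 n3 n4 n5 n6 n7
    refine h2 (fun i => [x, y, p, q].getD i r) (r4_p23.2 ⟨r4_inj5.2 ?_, ?_⟩)
    · refine ⟨hx, ⟨hy, a1.ne⟩, ⟨hp, ?_, ?_⟩, ⟨hq, ?_, ?_, a2.ne⟩, hr, ?_, ?_, hpr, a3.ne⟩
      · exact fun h : x = p => n3 (h ▸ a2)
      · exact fun h : y = p => n6 (h ▸ a2)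
      · exact fun h : x = q => n4 (h ▸ a3)
      · exact fun h : y = q => n7 (h ▸ a3)
      · exact fun h : x = r => n3 (h ▸ a3.symm)
      · exact fun h : y = r => n6 (h ▸ a3.symm)
    · exact ⟨a1.symm, ⟨fun h => n2 h.symm, fun h => n5 h.symm⟩, ⟨fun h => n3 h.symm,
        fun h => n6 h.symm, a2.symm⟩, fun h => n4 h.symm, fun h => n7 h.symm, fun h => n1 h.symm,
        a3.symm⟩

theorem r4_wfL {nb : ℕ} (hnb : 32 ≤ nb) (rs : List ℕ) (h : ∀ r ∈ rs, r < 2 ^ 64) :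
    wfL nb rs = true := by
  induction rs with
  | nil => rfl
  | cons r rs ih =>
    change (Nat.beq (Nat.shiftRight r (Nat.mul 2 nb)) 0 && wfL nb rs) = true
    rw [ih fun r hr => h r (List.mem_cons_of_mem _ hr), Bool.and_true, Nat.beq_eq,
      Nat.shiftRight_eq, Nat.mul_eq, Nat.shiftRight_eq_div_pow]
    exact Nat.div_eq_of_lt ((h r List.mem_cons_self).trans_le
      (Nat.pow_le_pow_right (by norm_num) (by omega)))

theorem valid_F0 {V : Type} {w : Wld V} (a : ℕ → V) {nb : ℕ} (hnb : 32 ≤ nb)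
    (h₁ : NoGem w.G w.U) (h₂ : NoP23 w.G w.U) : Valid w a nb F0 := by
  intro i
  rcases FT.get_of_all (t := F0) (p := memF [⟨0, pGem, []⟩, ⟨0, pP23, []⟩]) rfl i with h | h
  · rw [h]
    exact ⟨rfl, holds_triv w a⟩
  · have h3 := memF_sound h
    simp only [List.mem_cons, List.not_mem_nil, or_false] at h3
    rcases h3 with h3 | h3 <;> rw [h3]
    · refine ⟨?_, r4_holds.2 fun f hf => ?_⟩
      · change (wfL nb pGem && true) = true
        rw [r4_wfL hnb pGem (by decide)]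
        rfl
      · obtain ⟨k0, k1, ⟨k2, k3⟩, ⟨k4, k5, k6⟩, k7, k8, k9, k10⟩ := r4_gem.1 hf
        obtain ⟨m0, ⟨m1, -⟩, ⟨m2, -⟩, ⟨m3, -⟩, m4, -⟩ := r4_inj5.1 k0
        exact h₁ _ m4 _ m0 _ m1 _ m2 _ m3 k7 k8 k9 k10 k1.symm k3.symm k6.symm
          (fun h => k2 h.symm) (fun h => k4 h.symm) fun h => k5 h.symm
    · refine ⟨?_, r4_holds.2 fun f hf => ?_⟩
      · change (wfL nb pP23 && true) = true
        rw [r4_wfL hnb pP23 (by decide)]
        rfl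
      · obtain ⟨k0, k1, ⟨k2, k3⟩, ⟨k4, k5, k6⟩, k7, k8, k9, k10⟩ := r4_p23.1 hf
        obtain ⟨m0, ⟨m1, -⟩, ⟨m2, -⟩, ⟨m3, -⟩, m4, -, -, m5, -⟩ := r4_inj5.1 k0
        exact h₂ _ m0 _ m1 _ m2 _ m3 _ m4 k1.symm k6.symm k10.symm m5 (fun h => k9 h.symm)
          (fun h => k2 h.symm) (fun h => k4 h.symm) (fun h => k7 h.symm) (fun h => k3 h.symm)
          (fun h => k5 h.symm) fun h => k8 h.symm

theorem r4_tr {V : Type} [DecidableEq V] {G G' : SimpleGraph V} {W : Finset V} {k : ℕ}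
    {ty : V → ℕ} (hty : ∀ x ∈ W, ty x < 64) (h : Wd G W k)
    (h1 : ∀ x ∈ W, ∀ y ∈ W, ty x = ty y → ∀ z ∈ W, z ≠ x → z ≠ y → (G.Adj x z ↔ G.Adj y z) →
      (G'.Adj x z ↔ G'.Adj y z)) : Wd G' W (k * 64) := by
  have := wd_transfer (G' := G') h (fun x => (⟨min (ty x) 63, by omega⟩ : Fin 64))
    fun x hx y hy e => h1 x hx y hy (by
      have e1 : min (ty x) 63 = min (ty y) 63 := congrArg Fin.val e
      have := hty x hx
      have := hty y hy
      omega)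
  rwa [Fintype.card_fin] at this

theorem r4_mask {V : Type} [DecidableEq V] {G : SimpleGraph V} {W : Finset V} {k : ℕ}
    {ty : V → ℕ} (hty : ∀ x ∈ W, ty x < 64) (h : Wd G W k) (N : ℕ → ℕ → Prop) :
    Wd (mg G ty N) W (k * 64) :=
  r4_tr hty h fun x _ y _ e z _ _ _ h2 => by
    show G.Adj x z ∧ N (ty x) (ty z) ∧ N (ty z) (ty x) ↔
      G.Adj y z ∧ N (ty y) (ty z) ∧ N (ty z) (ty y)
    rw [e, h2]

theorem r4_run_le {md : Md} {rs : List ℕ} (h : run σ md rs s ≠ 0) : σ.n0 + rs.length ≤ 32 := by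
  rw [run, fz_eq, len_eq] at h
  by_contra h1
  have : Nat.ble (Nat.add σ.n0 rs.length) 32 = false := by
    rw [← Bool.not_eq_true, Nat.ble_eq]
    exact h1
  rw [this] at h
  exact h rfl

theorem r4_act {X Y : ℕ} (hY : Y < 64) : tb (Nat.land S (mrow M X)) Y = true ↔
    S.testBit Y = true ∧ Mk M X Y := by
  rw [tb_eq, Nat.land_eq, Nat.testBit_and, testBit_mrow hY, Bool.and_eq_true, Mk]

/-- The masked graph, in which the pairs at the type `t` are complemented unless `e = 1`. -/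
def r4G {V : Type} (G : SimpleGraph V) (ty : V → ℕ) (N : ℕ → ℕ → Prop) (t e : ℕ) :
    SimpleGraph V where
  Adj x y := x ≠ y ∧ N (ty x) (ty y) ∧ N (ty y) (ty x) ∧
    (G.Adj x y ↔ e = 1 ∨ (ty x ≠ t ∧ ty y ≠ t))
  symm := ⟨fun x y h => ⟨h.1.symm, h.2.2.1, h.2.1, by rw [G.adj_comm, h.2.2.2, and_comm]⟩⟩
  loopless := ⟨fun _ h => h.1 rfl⟩

theorem r4G_off {V : Type} {G : SimpleGraph V} {ty : V → ℕ} {N : ℕ → ℕ → Prop} {t e : ℕ}
    {x y : V} (hx : ty x ≠ t) (hy : ty y ≠ t) :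
    (r4G G ty N t e).Adj x y ↔ (mg G ty N).Adj x y :=
  ⟨fun h => ⟨h.2.2.2.2 (Or.inr ⟨hx, hy⟩), h.2.1, h.2.2.1⟩,
    fun h => ⟨h.1.ne, h.2.1, h.2.2, iff_of_true h.1 (Or.inr ⟨hx, hy⟩)⟩⟩

theorem r4G_back {V : Type} {G : SimpleGraph V} {ty : V → ℕ} {N : ℕ → ℕ → Prop} {t e : ℕ}
    {x y z : V} (e1 : ty x = ty y) (hzx : z ≠ x) (hzy : z ≠ y)
    (h : (r4G G ty N t e).Adj x z ↔ (r4G G ty N t e).Adj y z) :
    (mg G ty N).Adj x z ↔ (mg G ty N).Adj y z := by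
  have h' : x ≠ z ∧ N (ty x) (ty z) ∧ N (ty z) (ty x) ∧
      (G.Adj x z ↔ e = 1 ∨ (ty x ≠ t ∧ ty z ≠ t)) ↔ y ≠ z ∧ N (ty y) (ty z) ∧ N (ty z) (ty y) ∧
      (G.Adj y z ↔ e = 1 ∨ (ty y ≠ t ∧ ty z ≠ t)) := h
  show G.Adj x z ∧ N (ty x) (ty z) ∧ N (ty z) (ty x) ↔
    G.Adj y z ∧ N (ty y) (ty z) ∧ N (ty z) (ty y)
  rw [← e1] at h' ⊢
  refine and_congr_left fun h1 => ?_
  rw [and_iff_right hzx.symm, and_iff_right hzy.symm, and_iff_right h1.1,
    and_iff_right h1.2, and_iff_right h1.1, and_iff_right h1.2] at h'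
  generalize (e = 1 ∨ (ty x ≠ t ∧ ty z ≠ t)) = q at h'
  tauto

theorem r4_three {V : Type} [DecidableEq V] [Fintype V] {w : Wld V} {a : ℕ → V} {W : Finset V}
    {ty : V → ℕ} (hm : Models w a σ) (ht : Typed w a σ.n0 LL S W ty) {x y z : V} (hx : x ∈ W)
    (hy : y ∈ W) (hz : z ∈ W) (hxy : x ≠ y) (hxz : x ≠ z) (hyz : y ≠ z) {e : ℕ} (he : e < 4)
    (c1 : CellOK e (w.G.Adj y x)) (c2 : CellOK e (w.G.Adj z x))
    (h : run σ Md.non [lab σ LL (ty x),
      Nat.lor (lab σ LL (ty y)) (Nat.shiftLeft e (Nat.mul 2 σ.n0)),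
      Nat.lor (lab σ LL (ty z)) (Nat.shiftLeft e (Nat.mul 2 σ.n0))] s ≠ 0) : False := by
  have hn : σ.n0 + 3 ≤ 32 := r4_run_le h
  let f : ℕ → V := fun i => if i < σ.n0 then a i else if i = σ.n0 then x else
    if i = σ.n0 + 1 then y else z
  have f0 : ∀ i < σ.n0, f i = a i := fun i hi => if_pos hi
  have f1 : f σ.n0 = x := by simp [f]
  have f2 : f (σ.n0 + 1) = y := by simp [f]
  have f3 : f (σ.n0 + 2) = z := by simp [f]
  refine run_sound (W := W) (ty := ty) hm h f0 ⟨?_, ?_⟩ trivial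
  · intro i hi
    have hi' : i < σ.n0 + 3 := hi
    have hc : i < σ.n0 ∨ i = σ.n0 ∨ i = σ.n0 + 1 ∨ i = σ.n0 + 2 := by omega
    rcases hc with hc | rfl | rfl | rfl
    · rw [f0 i hc]
      exact ⟨(hm.1 i hc).1, fun j hj => by rw [f0 j (hj.trans hc)]; exact (hm.1 i hc).2 j hj⟩
    · rw [f1]
      exact ⟨(ht x hx).1, fun j hj => by rw [f0 j hj]; exact (ht x hx).2.1 j hj⟩
    · rw [f2]
      refine ⟨(ht y hy).1, fun j hj => ?_⟩
      rcases Nat.lt_succ_iff_lt_or_eq.1 hj with hj | rfl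
      · rw [f0 j hj]; exact (ht y hy).2.1 j hj
      · rw [f1]; exact hxy
    · rw [f3]
      refine ⟨(ht z hz).1, fun j hj => ?_⟩
      have hc : j < σ.n0 ∨ j = σ.n0 ∨ j = σ.n0 + 1 := by omega
      rcases hc with hj | rfl | rfl
      · rw [f0 j hj]; exact (ht z hz).2.1 j hj
      · rw [f1]; exact hxz
      · rw [f2]; exact hyz
  · intro j hj
    have hj' : j < 3 := hj
    have hc : j = 0 ∨ j = 1 ∨ j = 2 := by omega
    have hl : ∀ v, lit w f v σ.n0 = w.G.Adj v x := fun v => by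
      rw [lit, if_pos (by omega), f1]
    rcases hc with rfl | rfl | rfl
    · rw [add_zero, f1]
      exact (ht x hx).2.2.2.2.lab f0 _
    · rw [f2]
      exact rowOK_lor.2 ⟨(ht y hy).2.2.2.2.lab f0 _, rowOK_cell he (by rw [hl]; exact c1)⟩
    · rw [f3]
      exact rowOK_lor.2 ⟨(ht z hz).2.2.2.2.lab f0 _, rowOK_cell he (by rw [hl]; exact c2)⟩

theorem good_pen {t e S' : ℕ} (h : penChk σ LL S M t e S' s = true) (hg : Good σ LL S' M) :
    Good σ LL S M := by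
  classical
  obtain ⟨K, hK⟩ := hg
  obtain ⟨K', hK'⟩ := wd_pendant (K * 64)
  simp only [penChk, fz_eq, Bool.and_eq_true, Bool.or_eq_true, Nat.beq_eq, allLT_iff,
    Bool.not_eq_true', ← Bool.not_eq_true (Nat.beq _ _)] at h
  obtain ⟨h1, he, h2, h3⟩ := h
  have h4 := loop_ne h3
  refine ⟨K' * 64, fun V _ _ w a hm W ty ht => ?_⟩
  have hty : ∀ x ∈ W, ty x < 64 := fun x hx => (ht x hx).2.2.1
  have hS : ∀ x ∈ W, S.testBit (ty x) = true := fun x hx => (ht x hx).2.2.2.1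
  let T := W.filter fun x => ty x = t
  have hT : ∀ x, x ∈ W \ T ↔ x ∈ W ∧ ty x ≠ t := fun x => by
    simp only [T, mem_sdiff, mem_filter, not_and]
    exact and_congr_right fun hx => ⟨fun h => h hx, fun h _ => h⟩
  have w1 := hK V w a hm (W \ T) ty fun x hx => by
    obtain ⟨hx, hxt⟩ := (hT x).1 hx
    obtain ⟨k1, k2, k3, k4, k5⟩ := ht x hx
    refine ⟨k1, k2, k3, ?_, k5⟩
    rcases h2 _ k3 with h5 | h5 | h5
    · rw [tb_eq, k4] at h5
      exact absurd h5 (by simp)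
    · exact absurd h5 hxt
    · rwa [tb_eq] at h5
  have w2 : Wd (r4G w.G ty (Mk M) t e) (W \ T) (K * 64) :=
    r4_tr (fun x hx => hty x ((hT x).1 hx).1) w1 fun x hx y hy _ z hz _ _ h5 => by
      rw [r4G_off ((hT x).1 hx).2 ((hT z).1 hz).2, r4G_off ((hT y).1 hy).2 ((hT z).1 hz).2, h5]
  have key : ∀ x ∈ T, ∀ y ∈ W, ∀ z ∈ W, (r4G w.G ty (Mk M) t e).Adj x y →
      (r4G w.G ty (Mk M) t e).Adj x z → ty z ≤ ty y → y = z := by
    intro x hx y hy z hz a1 a2 hle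
    by_contra hyz
    obtain ⟨hx, hxt⟩ := mem_filter.1 hx
    have cell : ∀ v, (r4G w.G ty (Mk M) t e).Adj x v → CellOK e (w.G.Adj v x) := fun v hv => by
      have h5 := hv.2.2.2
      rw [w.G.adj_comm] at h5
      rcases he with rfl | rfl
      · exact ⟨fun _ => h5.2 (Or.inl rfl), fun h => absurd h (by decide)⟩
      · refine ⟨fun h => absurd h (by decide), fun _ h => ?_⟩
        rcases h5.1 h with h6 | h6
        · exact absurd h6 (by decide)
        · exact h6.1 hxt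
    obtain ⟨s1, h5⟩ := h4 _ (hty y hy)
    rw [(r4_act (hty y hy)).2 ⟨hS y hy, hxt ▸ a1.2.1⟩, cond_true] at h5
    obtain ⟨s2, h6⟩ := loop_ne h5 _ (Nat.lt_succ_of_le hle)
    rw [(r4_act (hty z hz)).2 ⟨hS z hz, hxt ▸ a2.2.1⟩, cond_true, ← hxt] at h6
    exact r4_three hm ht hx hy hz a1.1 a2.1 hyz (by omega) (cell y a1) (cell z a2) h6
  have w3 := hK' V (r4G w.G ty (Mk M) t e) W T (fun x hx y hy hxy => by
      obtain ⟨hx, hxt⟩ := mem_filter.1 hx
      obtain ⟨hy, hyt⟩ := mem_filter.1 hy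
      have h5 := (r4_act (X := ty x) (hty y hy)).2 ⟨hS y hy, hxy.2.1⟩
      rw [hxt, hyt, h1] at h5
      exact absurd h5 (by simp))
    (fun x hx y hy z hz a1 a2 => (le_total (ty z) (ty y)).elim (key x hx y hy z hz a1 a2)
      fun h => (key x hx z hz y hy a2 a1 h).symm) w2
  exact r4_tr hty w3 fun x _ y _ e1 z _ hzx hzy h5 => r4G_back e1 hzx hzy h5

theorem r4_list (g : List ℕ → ℕ → ℕ) (Ps : List (List ℕ)) : ∀ s : ℕ,
    (List.rec (fun s => s) (fun P _ ih s => sq s fun s => ih (g P s)) Ps : ℕ → ℕ) s ≠ 0 →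
      s ≠ 0 ∧ ∀ P ∈ Ps, ∃ s, g P s ≠ 0 := by
  induction Ps with
  | nil => exact fun s h => ⟨h, fun P hP => absurd hP List.not_mem_nil⟩
  | cons Q Ps ih =>
    intro s h
    obtain ⟨h1, h2⟩ := sq_ne h
    obtain ⟨h3, h4⟩ := ih _ h2
    refine ⟨h1, fun P hP => ?_⟩
    rcases List.mem_cons.1 hP with rfl | hP
    · exact ⟨s, h3⟩
    · exact h4 P hP

theorem r4_shL (n0 : ℕ) (P : List ℕ) : shL n0 P =
    P.map fun r => Nat.shiftLeft (Nat.land r 1099511627775) (Nat.mul 2 n0) := by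
  induction P with
  | nil => rfl
  | cons r P ih => rw [List.map_cons, ← ih]; rfl

theorem r4_shL_bit {n0 j i : ℕ} {P : List ℕ} (h : ((shL n0 P).getD j 0).testBit i = true) :
    2 * n0 ≤ i ∧ i - 2 * n0 < 40 ∧ (P.getD j 0).testBit (i - 2 * n0) = true := by
  have e : (shL n0 P).getD j 0 = (P.getD j 0 &&& (2 ^ 40 - 1)) <<< (2 * n0) := by
    rw [r4_shL, List.getD_eq_getElem?_getD, List.getD_eq_getElem?_getD, List.getElem?_map]
    cases P[j]? with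
    | none => simp
    | some r => rfl
  rw [e, Nat.testBit_shiftLeft, Nat.testBit_and, Nat.testBit_two_pow_sub_one] at h
  simp only [Bool.and_eq_true, decide_eq_true_eq] at h
  exact ⟨h.1, h.2.2, h.2.1⟩

theorem r4_phi0 (t u : ℕ) : phi 0 t u = 0 := by
  simp [phi, Nat.shiftRight_eq, Nat.land_eq]

theorem r4_flip {V : Type} {G : SimpleGraph V} {ty : V → ℕ} {φ : ℕ} {x y : V} :
    (flipG G ty φ).Adj x y ↔ x ≠ y ∧ ((phi φ (ty x) (ty y) = 0 ∧ G.Adj x y) ∨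
      (phi φ (ty x) (ty y) = 1 ∧ ¬ G.Adj x y)) := by
  rw [flipG, SimpleGraph.fromRel_adj, phi_comm φ (ty y), G.adj_comm y, or_self]

theorem r4_flip0 {V : Type} {G : SimpleGraph V} {ty : V → ℕ} {x y : V} :
    (flipG G ty 0).Adj x y ↔ G.Adj x y := by
  rw [r4_flip, r4_phi0]
  simpa using fun h : G.Adj x y => h.ne

theorem good_clo {φ : ℕ} {Ps : List (List ℕ)} (hb : Bd Ps)
    (h : cloChk σ LL S M φ Ps s = true) : Good σ LL S M := by
  obtain ⟨K, hK⟩ := hb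
  simp only [cloChk, fz_eq, Bool.and_eq_true, Bool.or_eq_true, Nat.ble_eq, allLT_iff,
    Bool.not_eq_true', ← Bool.not_eq_true (Nat.beq _ _), Nat.beq_eq] at h
  obtain ⟨h1, h2⟩ := h
  have h3 := (r4_list (fun P s => bif tb s 0 then
      bif Nat.beq φ 0 && Nat.ble σ.n0 12 then
        run σ Md.non (shL σ.n0 P) (Nat.shiftRight s 1) else 0
    else run σ (Md.col σ.n0 LL S φ 0 0 P) [] (Nat.shiftRight s 1)) Ps s h2).2
  refine ⟨K * 64, fun V _ _ w a hm W ty ht => ?_⟩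
  have hty : ∀ x ∈ W, ty x < 64 := fun x hx => (ht x hx).2.2.1
  have hS : ∀ x ∈ W, S.testBit (ty x) = true := fun x hx => (ht x hx).2.2.2.1
  have w1 := hK V (flipG w.G ty φ) W fun P hP g hg => by
    obtain ⟨s1, h4⟩ := h3 P hP
    cases h5 : tb s1 0 with
    | false =>
      simp only [h5, cond_false] at h4
      refine run_sound (W := W) (ty := ty) (f := a) hm h4 (fun _ _ => rfl)
        ⟨hm.1, fun j hj => absurd hj (Nat.not_lt_zero j)⟩
        ⟨le_rfl, le_rfl, ht, g, fun i hi => absurd hi (Nat.not_lt_zero i), fun i hi => ?_⟩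
      have h6 := hg.1 (0 + i) (by omega)
      exact ⟨h6.1, h6.2, hg.2 i hi⟩
    | true =>
      simp only [h5, cond_true] at h4
      cases h6 : (Nat.beq φ 0 && Nat.ble σ.n0 12) with
      | false => simp [h6] at h4
      | true =>
        rw [h6, cond_true] at h4
        rw [Bool.and_eq_true, Nat.beq_eq, Nat.ble_eq] at h6
        obtain ⟨rfl, h6⟩ := h6
        have hl : (shL σ.n0 P).length = P.length := by rw [r4_shL, List.length_map]
        let f : ℕ → V := fun i => if i < σ.n0 then a i else g (i - σ.n0)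
        have f0 : ∀ i < σ.n0, f i = a i := fun i hi => if_pos hi
        have f1 : ∀ i, σ.n0 ≤ i → f i = g (i - σ.n0) := fun i hi => if_neg (by omega)
        have g1 : ∀ i < P.length, g i ∈ W ∧ ∀ j < i, g j ≠ g i := fun i hi =>
          hg.1 i (by omega)
        refine run_sound (W := W) (ty := ty) hm h4 f0 ⟨fun i hi => ?_, fun j hj => ?_⟩ trivial
        · rw [hl] at hi
          by_cases hc : i < σ.n0
          · rw [f0 i hc]
            exact ⟨(hm.1 i hc).1, fun j hj => by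
              rw [f0 j (hj.trans hc)]; exact (hm.1 i hc).2 j hj⟩
          · rw [f1 i (by omega)]
            have g2 := g1 (i - σ.n0) (by omega)
            refine ⟨(ht _ g2.1).1, fun j hj => ?_⟩
            by_cases hc' : j < σ.n0
            · rw [f0 j hc']; exact (ht _ g2.1).2.1 j hc'
            · rw [f1 j (by omega)]; exact g2.2 _ (by omega)
        · rw [hl] at hj
          intro b _ hb
          have g2 := hg.2 j hj
          rw [zero_add] at g2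
          rw [f1 _ (by omega), Nat.add_sub_cancel_left]
          have g3 : σ.n0 ≤ b → b - σ.n0 < 20 →
              ((P.getD j 0).testBit (2 * (b - σ.n0)) = true → lit w f (g j) b) ∧
              ((P.getD j 0).testBit (2 * (b - σ.n0) + 1) = true → ¬ lit w f (g j) b) := by
            intro k1 k2
            have g4 := g2 (b - σ.n0) (by omega) (by omega)
            rw [lit, if_pos (by omega)] at g4
            rw [lit, if_pos (by omega), f1 b k1]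
            simpa only [r4_flip0] using g4
          constructor
          · intro k0
            obtain ⟨k1, k2, k3⟩ := r4_shL_bit k0
            refine (g3 (by omega) (by omega)).1 ?_
            rwa [show 2 * (b - σ.n0) = 2 * b - 2 * σ.n0 by omega]
          · intro k0
            obtain ⟨k1, k2, k3⟩ := r4_shL_bit k0
            refine (g3 (by omega) (by omega)).2 ?_
            rwa [show 2 * (b - σ.n0) + 1 = 2 * b + 1 - 2 * σ.n0 by omega]
  refine r4_tr hty w1 fun x hx y _ e1 z hz hzx hzy h5 => ?_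
  show w.G.Adj x z ∧ Mk M (ty x) (ty z) ∧ Mk M (ty z) (ty x) ↔
    w.G.Adj y z ∧ Mk M (ty y) (ty z) ∧ Mk M (ty z) (ty y)
  rw [← e1]
  refine and_congr_left fun h6 => ?_
  have h7 : phi φ (ty x) (ty z) ≤ 1 := by
    rcases h1 _ (hty x hx) with h7 | h7
    · rw [tb_eq, hS x hx] at h7
      exact absurd h7 (by simp)
    · rcases h7 _ (hty z hz) with h8 | h8
      · rw [(r4_act (hty z hz)).2 ⟨hS z hz, h6.1⟩] at h8
        exact absurd h8 (by simp)
      · exact h8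
  rw [r4_flip, r4_flip, ← e1] at h5
  have h8 : phi φ (ty x) (ty z) = 0 ∨ phi φ (ty x) (ty z) = 1 := by omega
  rcases h8 with h8 | h8 <;>
    simp only [h8, hzx.symm, hzy.symm, ne_eq, not_false_eq_true, true_and, zero_ne_one,
      one_ne_zero, false_and, or_false, false_or] at h5
  · exact h5
  · exact not_iff_not.1 h5

theorem r4_rol {V : Type} [DecidableEq V] [Fintype V] {w : Wld V} {a : ℕ → V} {W : Finset V}
    {ty : V → ℕ} {ro : ℕ → ℕ} (hr : Upto (RTat σ LL S RT) 64) (hm : Models w a σ)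
    (ht : Typed w a σ.n0 LL S W ty) (h : rolChk S RT ro = true) :
    (∀ x ∈ W, ro (ty x) ≠ 0) ∧ (∀ x ∈ W, ∀ y ∈ W, ro (ty x) = 1 → ro (ty y) = 1 → x ≠ y →
      w.G.Adj x y) ∧ ∀ x ∈ W, ∀ y ∈ W, ∀ g, g ≠ 1 → ro (ty x) = g → ro (ty y) = g →
        ¬ w.G.Adj x y := by
  simp only [rolChk, fz_eq, Bool.and_eq_true, Bool.or_eq_true, allLT_iff,
    Bool.not_eq_true', ← Bool.not_eq_true (Nat.beq _ _), Nat.beq_eq, tb_eq] at h
  have hty : ∀ x ∈ W, ty x < 64 := fun x hx => (ht x hx).2.2.1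
  have hS : ∀ x ∈ W, S.testBit (ty x) = true := fun x hx => (ht x hx).2.2.2.1
  have h1 := fun x hx => (h _ (hty x hx)).resolve_left (by rw [hS x hx]; simp)
  have h2 : ∀ x ∈ W, ∀ y ∈ W, ro (ty x) = ro (ty y) →
      (phi RT (ty x) (ty y)).testBit (bif Nat.beq (ro (ty x)) 1 then 0 else 1) = true := by
    have h3 : ∀ x ∈ W, ∀ y ∈ W, ty y ≤ ty x → ro (ty x) = ro (ty y) →
        (phi RT (ty x) (ty y)).testBit (bif Nat.beq (ro (ty x)) 1 then 0 else 1) = true :=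
      fun x hx y hy hle e => (((h1 x hx).2 _ (Nat.lt_succ_of_le hle)).resolve_left
        (by rw [hS y hy]; simp)).resolve_left fun h => h e.symm
    intro x hx y hy e
    rcases le_total (ty y) (ty x) with hle | hle
    · exact h3 x hx y hy hle e
    · rw [phi_comm, e]
      exact h3 y hy x hx hle e.symm
  refine ⟨fun x hx => (h1 x hx).1, fun x hx y hy e1 e2 hxy => ?_, fun x hx y hy g hg e1 e2 => ?_⟩
  · have h3 := h2 x hx y hy (e1.trans e2.symm)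
    rw [e1] at h3
    exact (rt_use hr hm ht hx hy hxy).1 h3
  · intro hxy
    have h3 := h2 x hx y hy (e1.trans e2.symm)
    have h4 : Nat.beq g 1 = false := by
      rw [← Bool.not_eq_true, Nat.beq_eq]
      exact hg
    rw [e1, h4] at h3
    exact (rt_use hr hm ht hx hy hxy.ne).2 h3 hxy

theorem r4_cel {V : Type} {w : Wld V} {a : ℕ → V} {W : Finset V} {ty : V → ℕ} {n0 α : ℕ}
    (ht : Typed w a n0 LL S W ty) (h1 : α < n0) (h2 : α < 32) {x : V} (hx : x ∈ W) :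
    (cel (row LL (ty x)) α = 1 → w.G.Adj (a α) x) ∧
      (cel (row LL (ty x)) α = 2 → ¬ w.G.Adj (a α) x) := by
  have h := (ht x hx).2.2.2.2.cell (b := α) (by omega) (Or.inl h1)
  rw [lit, if_pos h2, w.G.adj_comm] at h
  constructor
  · intro e
    rw [e] at h
    exact h.1 rfl
  · intro e
    rw [e] at h
    exact h.2 rfl

theorem r4_gem_mono {V : Type} {G : SimpleGraph V} {U U' : Finset V} (h : NoGem G U)
    (hU : U' ⊆ U) : NoGem G U' :=
  fun e he a ha b hb c hc d hd => h e (hU he) a (hU ha) b (hU hb) c (hU hc) d (hU hd)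

theorem r4_p23_mono {V : Type} {G : SimpleGraph V} {U U' : Finset V} (h : NoP23 G U)
    (hU : U' ⊆ U) : NoP23 G U' :=
  fun e he a ha b hb c hc d hd => h e (hU he) a (hU ha) b (hU hb) c (hU hc) d (hU hd)

theorem r4_ro1 {α KM X : ℕ} (h : ro1 LL α KM X ≠ 0) :
    (cel (row LL X) α = 1 ∧ KM.testBit X = true ∧ ro1 LL α KM X = 1) ∨
    (cel (row LL X) α = 1 ∧ ¬ KM.testBit X = true ∧ ro1 LL α KM X = 2) ∨
    (cel (row LL X) α = 2 ∧ ¬ KM.testBit X = true ∧ ro1 LL α KM X = 3) := by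
  revert h
  simp only [ro1, fz_eq, tb_eq, Bool.cond_eq_ite, Bool.and_eq_true, Nat.beq_eq, Bool.not_eq_true']
  split_ifs <;> simp_all

theorem r4_ro2 {α γ X : ℕ} (h : ro2 LL α γ X ≠ 0) :
    (cel (row LL X) α = 1 ∧ cel (row LL X) γ = 1 ∧ ro2 LL α γ X = 1) ∨
    (cel (row LL X) α = 1 ∧ cel (row LL X) γ = 2 ∧ ro2 LL α γ X = 2) ∨
    (cel (row LL X) α = 2 ∧ cel (row LL X) γ = 1 ∧ ro2 LL α γ X = 3) := by
  revert h
  simp only [ro2, fz_eq, Bool.cond_eq_ite, Bool.and_eq_true, Nat.beq_eq]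
  split_ifs <;> simp_all

theorem good_T1 {α KM k : ℕ} (hT : T1 k) (hF : F0 ∈ σ.Φ) (hr : Upto (RTat σ LL S RT) 64)
    (h : (Nat.blt α σ.n0 && (Nat.blt α 32 && fz LL fun LL => rolChk S RT (ro1 LL α KM))) = true) :
    Good σ LL S M := by
  simp only [fz_eq, Bool.and_eq_true, Nat.blt_eq] at h
  obtain ⟨h1, h2, h3⟩ := h
  refine ⟨k * 64, fun V _ _ w a hm W ty ht => ?_⟩
  obtain ⟨r1, r2, r3⟩ := r4_rol hr hm ht h3
  obtain ⟨n1, n2⟩ := noGem_of_valid (hm.2.2.2 _ hF)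
  have hU : insert (a α) W ⊆ w.U := insert_subset (hm.1 α h1).1 fun x hx => (ht x hx).1
  have key : ∀ x ∈ W, (w.G.Adj (a α) x ∧ KM.testBit (ty x) = true ∧ ro1 LL α KM (ty x) = 1) ∨
      (w.G.Adj (a α) x ∧ ¬ KM.testBit (ty x) = true ∧ ro1 LL α KM (ty x) = 2) ∨
      (¬ w.G.Adj (a α) x ∧ ¬ KM.testBit (ty x) = true ∧ ro1 LL α KM (ty x) = 3) := fun x hx => by
    have c := r4_cel ht h1 h2 hx
    rcases r4_ro1 (r1 x hx) with e | e | e
    · exact Or.inl ⟨c.1 e.1, e.2⟩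
    · exact Or.inr (Or.inl ⟨c.1 e.1, e.2⟩)
    · exact Or.inr (Or.inr ⟨c.2 e.1, e.2⟩)
  refine r4_mask (fun x hx => (ht x hx).2.2.1) (hT V w.G W (a α)
    (fun v => KM.testBit (ty v) = true) (fun hx => (ht _ hx).2.1 α h1 rfl) (r4_gem_mono n1 hU)
    (r4_p23_mono n2 hU) ⟨fun v hv e => ?_, fun u hu v hv e1 e2 => r2 u hu v hv ?_ ?_,
      fun u hu v hv e1 e2 e3 e4 => r3 u hu v hv 2 (by norm_num) ?_ ?_,
      fun u hu v hv e1 e2 => r3 u hu v hv 3 (by norm_num) ?_ ?_⟩) _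
  · have := key v hv; tauto
  · have := key u hu; tauto
  · have := key v hv; tauto
  · have := key u hu; tauto
  · have := key v hv; tauto
  · have := key u hu; tauto
  · have := key v hv; tauto

theorem good_T2 {α γ k : ℕ} (hT : T2 k) (hF : F0 ∈ σ.Φ) (hr : Upto (RTat σ LL S RT) 64)
    (h : (Nat.blt α γ && (Nat.blt γ σ.n0 && (Nat.ble σ.n0 32 && (Nat.beq (getc σ.c0 α γ) 1 &&
      fz LL fun LL => rolChk S RT (ro2 LL α γ))))) = true) : Good σ LL S M := by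
  simp only [fz_eq, Bool.and_eq_true, Nat.blt_eq, Nat.ble_eq, Nat.beq_eq] at h
  obtain ⟨h0, h1, h2, h4, h3⟩ := h
  refine ⟨k * 64, fun V _ _ w a hm W ty ht => ?_⟩
  obtain ⟨r1, r2, r3⟩ := r4_rol hr hm ht h3
  obtain ⟨n1, n2⟩ := noGem_of_valid (hm.2.2.2 _ hF)
  have hU : insert (a α) (insert (a γ) W) ⊆ w.U := insert_subset (hm.1 α (h0.trans h1)).1
    (insert_subset (hm.1 γ h1).1 fun x hx => (ht x hx).1)
  have hac : w.G.Adj (a α) (a γ) := by
    have c := hm.2.1.getc (h0.trans h1) h1 h2 h0.ne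
    rw [h4] at c
    exact c.1 rfl
  have key : ∀ x ∈ W, (w.G.Adj (a α) x ∧ w.G.Adj (a γ) x ∧ ro2 LL α γ (ty x) = 1) ∨
      (w.G.Adj (a α) x ∧ ¬ w.G.Adj (a γ) x ∧ ro2 LL α γ (ty x) = 2) ∨
      (¬ w.G.Adj (a α) x ∧ w.G.Adj (a γ) x ∧ ro2 LL α γ (ty x) = 3) := fun x hx => by
    have c := r4_cel ht (h0.trans h1) (by omega) hx
    have d := r4_cel ht h1 (by omega) hx
    rcases r4_ro2 (r1 x hx) with e | e | e
    · exact Or.inl ⟨c.1 e.1, d.1 e.2.1, e.2.2⟩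
    · exact Or.inr (Or.inl ⟨c.1 e.1, d.2 e.2.1, e.2.2⟩)
    · exact Or.inr (Or.inr ⟨c.2 e.1, d.1 e.2.1, e.2.2⟩)
  refine r4_mask (fun x hx => (ht x hx).2.2.1) (hT V w.G W (a α) (a γ)
    (fun hx => (ht _ hx).2.1 α (h0.trans h1) rfl) (fun hx => (ht _ hx).2.1 γ h1 rfl) hac
    (r4_gem_mono n1 hU) (r4_p23_mono n2 hU) (fun v hv => ?_)
    (fun u hu v hv e1 e2 e3 e4 => r2 u hu v hv ?_ ?_)
    (fun u hu v hv e1 e2 => r3 u hu v hv 2 (by norm_num) ?_ ?_)
    fun u hu v hv e1 e2 => r3 u hu v hv 3 (by norm_num) ?_ ?_) _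
  · have := key v hv; tauto
  · have := key u hu; tauto
  · have := key v hv; tauto
  · have := key u hu; tauto
  · have := key v hv; tauto
  · have := key u hu; tauto
  · have := key v hv; tauto

end Pool.Agent.Lib.MP_1595d8_lc
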