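import Mathlib
import Pool.Agent.Lib.MP_1595d8_lc.H89Sem

/-!
Reduction to graphs without a split.
-/

namespace Pool.Agent.Lib.MP_1595d8_lc

open Finset Pool.Agent.Lib.MP_042ec1_co

section aux

variable {V : Type} [DecidableEq V]

/-- At most `k` types with respect to `W \ S`, the zero type being free. -/
def spT0 (G : SimpleGraph V) (W S : Finset V) (k : ℕ) : Prop :=
  ∃ R : Finset V, R ⊆ S ∧ R.card ≤ k ∧ ∀ x ∈ S, (∀ z ∈ W, z ∉ S → ¬ G.Adj x z) ∨
    ∃ r ∈ R, ∀ z ∈ W, z ∉ S → (G.Adj x z ↔ G.Adj r z)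

/-- Both sides of the cut have few types. -/
def spSym (G : SimpleGraph V) (W S : Finset V) (k : ℕ) : Prop :=
  spT0 G W S k ∧ spT0 G W (W \ S) k

/-- Decompositions all of whose cuts have few types on both sides. -/
inductive spDec (G : SimpleGraph V) (W : Finset V) (k : ℕ) : Finset V → Prop
  | empty : spDec G W k ∅
  | single (x : V) : x ∈ W → spDec G W k {x}
  | union (S T : Finset V) : Disjoint S T → spDec G W k S → spDec G W k T →
      spSym G W (S ∪ T) k → spDec G W k (S ∪ T)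

variable {G : SimpleGraph V} {U W S : Finset V} {k k' : ℕ}

omit [DecidableEq V] in
theorem spT0.mono (h : spT0 G W S k) (hk : k ≤ k') : spT0 G W S k' := by
  obtain ⟨R, h1, h2, h3⟩ := h
  exact ⟨R, h1, h2.trans hk, h3⟩

omit [DecidableEq V] in
theorem sp_t0_zero (h : ∀ x ∈ S, ∀ z ∈ W, z ∉ S → ¬ G.Adj x z) : spT0 G W S k :=
  ⟨∅, empty_subset _, by simp, fun x hx => Or.inl (h x hx)⟩

omit [DecidableEq V] in
theorem sp_t0_of_col {β : Type} [DecidableEq β] (c : V → β) (hc : (S.image c).card ≤ k)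
    (h : ∀ x ∈ S, ∀ y ∈ S, c x = c y → ∀ z ∈ W, z ∉ S → (G.Adj x z ↔ G.Adj y z)) :
    spT0 G W S k := by
  obtain ⟨R, h1, h2, h3⟩ := Finset.exists_subset_injOn_image_eq_of_surjOn (f := c) (S : Set V)
    (S.image c) (by rw [coe_image]; exact Set.surjOn_image _ _)
  have h1' : R ⊆ S := fun x hx => h1 hx
  refine ⟨R, h1', ?_, fun x hx => Or.inr ?_⟩
  · rw [← card_image_of_injOn h2, h3]
    exact hc
  · have : c x ∈ R.image c := by rw [h3]; exact mem_image_of_mem c hx
    obtain ⟨r, hr, e⟩ := mem_image.1 this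
    exact ⟨r, hr, h x hx r (h1' hr) e.symm⟩

theorem spDec.subset (h : spDec G W k S) : S ⊆ W := by
  induction h with
  | empty => exact empty_subset _
  | single x hx => exact singleton_subset_iff.2 hx
  | union S T _ _ _ _ ihS ihT => exact union_subset ihS ihT

theorem spSym.compl (h : spSym G W S k) (hS : S ⊆ W) : spSym G W (W \ S) k :=
  ⟨h.2, by rw [Finset.sdiff_sdiff_eq_self hS]; exact h.1⟩

theorem sp_sym_empty : spSym G W ∅ k :=
  ⟨sp_t0_zero fun x hx => absurd hx (notMem_empty x),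
    sp_t0_zero fun _ _ z hz hz' => absurd (mem_sdiff.2 ⟨hz, notMem_empty z⟩) hz'⟩

theorem sp_sym_self : spSym G W W k := by
  have := (sp_sym_empty (G := G) (W := W) (k := k)).compl (empty_subset _)
  rwa [sdiff_empty] at this

theorem sp_sym_single (hk : 1 ≤ k) (x : V) : spSym G W {x} k := by
  refine ⟨⟨{x}, Subset.refl _, by simpa using hk, fun y hy => Or.inr ⟨y, hy, fun _ _ _ => Iff.rfl⟩⟩,
    ?_⟩
  have hz : ∀ z ∈ W, z ∉ W \ {x} → z = x := by
    intro z hz hz'
    by_contra hne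
    exact hz' (mem_sdiff.2 ⟨hz, by simpa using hne⟩)
  by_cases h : ∃ r ∈ W \ {x}, G.Adj r x
  · obtain ⟨r, hr, hrx⟩ := h
    refine ⟨{r}, singleton_subset_iff.2 hr, by simpa using hk, fun y _ => ?_⟩
    by_cases hy : G.Adj y x
    · refine Or.inr ⟨r, mem_singleton_self r, fun z h1 h2 => ?_⟩
      rw [hz z h1 h2]
      exact iff_of_true hy hrx
    · refine Or.inl fun z h1 h2 => ?_
      rw [hz z h1 h2]
      exact hy
  · refine sp_t0_zero fun y hy z h1 h2 => ?_
    rw [hz z h1 h2]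
    exact fun h' => h ⟨y, hy, h'⟩

theorem spDec.sym (hk : 1 ≤ k) (h : spDec G W k S) : spSym G W S k := by
  cases h with
  | empty => exact sp_sym_empty
  | single x _ => exact sp_sym_single hk x
  | union S T _ _ _ hs => exact hs

theorem sp_sym_of_types (h : Types G W S k) : spSym G W S (2 ^ k + k) := by
  classical
  obtain ⟨P, _, c, hP, hc⟩ := h
  have h1 : spT0 G W S k := sp_t0_of_col c ((card_le_univ _).trans hP) hc
  have h1' : ∃ R : Finset V, R ⊆ S ∧ R.card ≤ k ∧ ∀ x ∈ S,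
      ∃ r ∈ R, ∀ z ∈ W, z ∉ S → (G.Adj x z ↔ G.Adj r z) := by
    obtain ⟨R, k1, k2, k3⟩ := Finset.exists_subset_injOn_image_eq_of_surjOn (f := c) (S : Set V)
      (S.image c) (by rw [coe_image]; exact Set.surjOn_image _ _)
    have k1' : R ⊆ S := fun x hx => k1 hx
    refine ⟨R, k1', ?_, fun x hx => ?_⟩
    · rw [← card_image_of_injOn k2, k3]
      exact (card_le_univ _).trans hP
    · have : c x ∈ R.image c := by rw [k3]; exact mem_image_of_mem c hx
      obtain ⟨r, hr, e⟩ := mem_image.1 this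
      exact ⟨r, hr, hc x hx r (k1' hr) e.symm⟩
  obtain ⟨R, -, hR, hrep⟩ := h1'
  refine ⟨h1.mono (Nat.le_add_left _ _), ?_⟩
  refine (sp_t0_of_col (k := 2 ^ k) (fun z => R.filter (fun r => G.Adj r z)) ?_ ?_).mono
    (Nat.le_add_right _ _)
  · refine (card_le_card (t := R.powerset) ?_).trans ?_
    · intro t ht
      obtain ⟨z, -, rfl⟩ := mem_image.1 ht
      exact mem_powerset.2 (filter_subset _ _)
    · rw [card_powerset]
      exact Nat.pow_le_pow_right (by norm_num) hR
  · intro x hx y hy hxy z hz hz'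
    have hzS : z ∈ S := by
      by_contra hne
      exact hz' (mem_sdiff.2 ⟨hz, hne⟩)
    obtain ⟨r, hr, e⟩ := hrep z hzS
    rw [mem_sdiff] at hx hy
    rw [G.adj_comm x z, G.adj_comm y z, e x hx.1 hx.2, e y hy.1 hy.2]
    have h2 : r ∈ R.filter (fun r => G.Adj r x) ↔ r ∈ R.filter (fun r => G.Adj r y) := by
      have hxy' : R.filter (fun r => G.Adj r x) = R.filter (fun r => G.Adj r y) := hxy
      rw [hxy']
    simpa only [mem_filter, hr, true_and] using h2

theorem sp_dec_of_dec (h : Dec G W k S) (hS : S ⊆ W) : spDec G W (2 ^ k + k) S := by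
  induction h with
  | empty => exact .empty
  | single x => exact .single x (singleton_subset_iff.1 hS)
  | union S T hd _ _ ht ihS ihT =>
    exact .union S T hd (ihS (subset_union_left.trans hS)) (ihT (subset_union_right.trans hS))
      (sp_sym_of_types ht)

omit [DecidableEq V] in
theorem spT0.types (h : spT0 G W S k) : Types G W S (k + 1) := by
  classical
  obtain ⟨R, -, hR, hrep⟩ := h
  refine ⟨Option R, inferInstance, fun x =>
    if h : ∃ r ∈ R, ∀ z ∈ W, z ∉ S → (G.Adj x z ↔ G.Adj r z) then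
      some ⟨h.choose, h.choose_spec.1⟩ else none, ?_, ?_⟩
  · rw [Fintype.card_option, Fintype.card_coe]
    omega
  · intro x hx y hy hxy z hz hzS
    by_cases h1 : ∃ r ∈ R, ∀ z ∈ W, z ∉ S → (G.Adj x z ↔ G.Adj r z)
    · by_cases h2 : ∃ r ∈ R, ∀ z ∈ W, z ∉ S → (G.Adj y z ↔ G.Adj r z)
      · simp only [dif_pos h1, dif_pos h2, Option.some.injEq, Subtype.mk.injEq] at hxy
        rw [h1.choose_spec.2 z hz hzS, h2.choose_spec.2 z hz hzS, hxy]
      · simp only [dif_pos h1, dif_neg h2, reduceCtorEq] at hxy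
    · by_cases h2 : ∃ r ∈ R, ∀ z ∈ W, z ∉ S → (G.Adj y z ↔ G.Adj r z)
      · simp only [dif_neg h1, dif_pos h2, reduceCtorEq] at hxy
      · exact iff_of_false ((hrep x hx).resolve_right h1 z hz hzS)
          ((hrep y hy).resolve_right h2 z hz hzS)

theorem spDec.dec (h : spDec G W k S) : Dec G W (k + 1) S := by
  induction h with
  | empty => exact .empty
  | single x _ => exact .single x
  | union S T hd _ _ hs ihS ihT => exact .union S T hd ihS ihT hs.1.types

theorem sp_step (hk : 1 ≤ k) {S T : Finset V} (hd : Disjoint S T) (hS : spDec G W k S)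
    (hT : spDec G W k T) (hc : spDec G W k (W \ (S ∪ T))) : spDec G W k (W \ S) := by
  have e : W \ S = (W \ (S ∪ T)) ∪ T := by
    ext x
    simp only [mem_sdiff, mem_union, not_or]
    constructor
    · rintro ⟨h1, h2⟩
      by_cases h3 : x ∈ T
      · exact Or.inr h3
      · exact Or.inl ⟨h1, h2, h3⟩
    · rintro (⟨h1, h2, -⟩ | h)
      · exact ⟨h1, h2⟩
      · exact ⟨hT.subset h, fun h' => disjoint_left.1 hd h' h⟩
  have hs := (hS.sym hk).compl hS.subset
  rw [e] at hs ⊢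
  refine .union _ _ ?_ hc hT hs
  rw [disjoint_left]
  intro x hx hx'
  exact (mem_sdiff.1 hx).2 (mem_union_right _ hx')

theorem sp_reroot (hk : 1 ≤ k) {b : V} (h : spDec G W k S) (hb : b ∈ S)
    (hc : spDec G W k (W \ S)) : spDec G W k (W.erase b) := by
  induction h with
  | empty => exact absurd hb (notMem_empty b)
  | single x _ =>
    rw [mem_singleton.1 hb, ← sdiff_singleton_eq_erase]
    exact hc
  | union S T hd hS hT _ ihS ihT =>
    rcases mem_union.1 hb with h | h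
    · exact ihS h (sp_step hk hd hS hT hc)
    · exact ihT h (sp_step hk hd.symm hT hS (by rwa [union_comm]))

theorem sp_sym_transfer {P N : Finset V} (hPW : P ⊆ W) (hWU : W ⊆ U) (hN : N ⊆ P)
    (h : ∀ z ∈ U, z ∉ P → (∀ x ∈ P, ¬ G.Adj x z) ∨
      ∃ b ∈ W, b ∉ P ∧ ∀ x ∈ P, (G.Adj x z ↔ G.Adj x b))
    (hs : spSym G W N k) : spSym G U N k := by
  obtain ⟨⟨R, h1, h2, h3⟩, ⟨R', k1, k2, k3⟩⟩ := hs
  refine ⟨⟨R, h1, h2, fun x hx => ?_⟩, ⟨R', k1.trans (sdiff_subset_sdiff hWU (Subset.refl _)), k2,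
    fun x hx => ?_⟩⟩
  · rcases h3 x hx with h4 | ⟨r, hr, h4⟩
    · refine Or.inl fun z hz hzN => ?_
      by_cases hzP : z ∈ P
      · exact h4 z (hPW hzP) hzN
      · rcases h z hz hzP with h5 | ⟨b, hb, hbP, h5⟩
        · exact h5 x (hN hx)
        · rw [h5 x (hN hx)]
          exact h4 b hb fun h' => hbP (hN h')
    · refine Or.inr ⟨r, hr, fun z hz hzN => ?_⟩
      by_cases hzP : z ∈ P
      · exact h4 z (hPW hzP) hzN
      · rcases h z hz hzP with h5 | ⟨b, hb, hbP, h5⟩
        · exact iff_of_false (h5 x (hN hx)) (h5 r (hN (h1 hr)))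
        · rw [h5 x (hN hx), h5 r (hN (h1 hr))]
          exact h4 b hb fun h' => hbP (hN h')
  · have hz : ∀ z ∈ U, z ∉ U \ N → z ∈ N := by
      intro z hz hz'
      by_contra hne
      exact hz' (mem_sdiff.2 ⟨hz, hne⟩)
    have hz2 : ∀ z ∈ N, z ∈ W ∧ z ∉ W \ N := fun z hzN =>
      ⟨hPW (hN hzN), fun h' => (mem_sdiff.1 h').2 hzN⟩
    have main : ∀ y ∈ W \ N, (∀ z ∈ N, (G.Adj x z ↔ G.Adj y z)) →
        (∀ z ∈ U, z ∉ U \ N → ¬ G.Adj x z) ∨
          ∃ r ∈ R', ∀ z ∈ U, z ∉ U \ N → (G.Adj x z ↔ G.Adj r z) := by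
      intro y hy e
      rcases k3 y hy with k4 | ⟨r, hr, k4⟩
      · refine Or.inl fun z h5 h6 => ?_
        have h7 := hz z h5 h6
        rw [e z h7]
        exact k4 z (hz2 z h7).1 (hz2 z h7).2
      · refine Or.inr ⟨r, hr, fun z h5 h6 => ?_⟩
        have h7 := hz z h5 h6
        rw [e z h7]
        exact k4 z (hz2 z h7).1 (hz2 z h7).2
    rw [mem_sdiff] at hx
    by_cases hxP : x ∈ P
    · exact main x (mem_sdiff.2 ⟨hPW hxP, hx.2⟩) fun _ _ => Iff.rfl
    · rcases h x hx.1 hxP with h5 | ⟨b, hb, hbP, h5⟩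
      · exact Or.inl fun z h6 h7 h8 => h5 z (hN (hz z h6 h7)) h8.symm
      · refine main b (mem_sdiff.2 ⟨hb, fun h' => hbP (hN h')⟩) fun z hzN => ?_
        rw [G.adj_comm x z, G.adj_comm b z]
        exact h5 z (hN hzN)

theorem sp_dec_transfer {P : Finset V} (hPW : P ⊆ W) (hWU : W ⊆ U)
    (h : ∀ z ∈ U, z ∉ P → (∀ x ∈ P, ¬ G.Adj x z) ∨
      ∃ b ∈ W, b ∉ P ∧ ∀ x ∈ P, (G.Adj x z ↔ G.Adj x b))
    (hd : spDec G W k S) (hS : S ⊆ P) : spDec G U k S := by
  induction hd with
  | empty => exact .empty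
  | single x hx => exact .single x (hWU hx)
  | union S T hd _ _ hs ihS ihT =>
    exact .union S T hd (ihS (subset_union_left.trans hS)) (ihT (subset_union_right.trans hS))
      (sp_sym_transfer hPW hWU hS h hs)

theorem sp_side (hk : 1 ≤ k) {P : Finset V} (hP : P ⊆ U) (hQ : 2 ≤ (U \ P).card)
    (A B : V → Prop) (h : ∀ x ∈ P, ∀ y ∈ U \ P, (G.Adj x y ↔ A x ∧ B y))
    (ih : ∀ U' ⊆ U, U'.card < U.card → spDec G U' k U') : spDec G U k P := by
  have hc : (U \ P).card + P.card = U.card := card_sdiff_add_card_eq_card hP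
  by_cases hb : ∃ b ∈ U \ P, B b
  · obtain ⟨b, hb, hBb⟩ := hb
    have hb' := mem_sdiff.1 hb
    have hW : insert b P ⊆ U := insert_subset hb'.1 hP
    have h1 := ih (insert b P) hW (by rw [card_insert_of_notMem hb'.2]; omega)
    have h2 := sp_reroot hk h1 (mem_insert_self b P) (by rw [Finset.sdiff_self]; exact .empty)
    rw [erase_insert hb'.2] at h2
    refine sp_dec_transfer (subset_insert b P) hW (fun z hz hzP => ?_) h2 (Subset.refl _)
    have hz' : z ∈ U \ P := mem_sdiff.2 ⟨hz, hzP⟩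
    by_cases hBz : B z
    · refine Or.inr ⟨b, mem_insert_self b P, hb'.2, fun x hx => ?_⟩
      rw [h x hx z hz', h x hx b hb]
      exact and_congr_right fun _ => iff_of_true hBz hBb
    · exact Or.inl fun x hx h' => hBz ((h x hx z hz').1 h').2
  · refine sp_dec_transfer (Subset.refl _) hP (fun z hz hzP => ?_) (ih P hP (by omega))
      (Subset.refl _)
    have hz' : z ∈ U \ P := mem_sdiff.2 ⟨hz, hzP⟩
    exact Or.inl fun x hx h' => hb ⟨z, hz', ((h x hx z hz').1 h').2⟩

theorem sp_main (n : ℕ) : ∀ U : Finset V, U.card = n →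
    (∀ U' ⊆ U, SplitPrime G U' → Wd G U' k) → spDec G U (2 ^ k + k) U := by
  induction n using Nat.strong_induction_on with
  | _ n ih =>
    intro U hn H
    by_cases hp : SplitPrime G U
    · exact sp_dec_of_dec (H U (Subset.refl _) hp) (Subset.refl _)
    · unfold SplitPrime at hp
      push Not at hp
      obtain ⟨P, hP, h1, h2, A, B, h⟩ := hp
      have hk : 1 ≤ 2 ^ k + k := Nat.one_le_two_pow.trans (Nat.le_add_right _ _)
      have ih' : ∀ U' ⊆ U, U'.card < U.card → spDec G U' (2 ^ k + k) U' := fun U' hU' hlt =>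
        ih U'.card (hn ▸ hlt) U' rfl fun U'' hU'' => H U'' (hU''.trans hU')
      have e : U \ (U \ P) = P := Finset.sdiff_sdiff_eq_self hP
      have d1 := sp_side hk hP h2 A B h ih'
      have d2 := sp_side hk (P := U \ P) sdiff_subset (by rwa [e]) B A
        (fun x hx y hy => by
          rw [e] at hy
          rw [G.adj_comm, h y hy x hx, and_comm]) ih'
      have e2 : P ∪ U \ P = U := union_sdiff_of_subset hP
      have := spDec.union P (U \ P) disjoint_sdiff d1 d2 (by rw [e2]; exact sp_sym_self)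
      rwa [e2] at this

end aux

theorem sp_reduce (k : ℕ) : ∃ K : ℕ, ∀ (V : Type) [DecidableEq V] [Fintype V]
    (G : SimpleGraph V) (U : Finset V), (∀ U' ⊆ U, SplitPrime G U' → Wd G U' k) → Wd G U K :=
  ⟨2 ^ k + k + 1, fun _ _ _ _ U H => (sp_main U.card U rfl H).dec⟩

end Pool.Agent.Lib.MP_1595d8_lc
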