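import Mathlib
import Pool.Agent.Lib.MP_1595d8_lc.H89R4
import Pool.Agent.Lib.MP_1595d8_lc.H89SP
import Pool.Agent.Lib.MP_1595d8_lc.H89Defs
import Pool.Agent.Lib.MP_042ec1_co.Main2

/-!
Base cases, the anchoring step, and the three-part configuration as a state.
-/

namespace Pool.Agent.Lib.MP_1595d8_lc

open Finset Pool.Agent.Lib.MP_042ec1_co

/-- The triangle. -/
def pK3 : List ℕ := [0, 1, 5]

/-- The subdivided claw with legs of lengths one, two and three. -/
def pS123 : List ℕ := [0, 1, 9, 26, 169, 426, 1706]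

/-- The path on four vertices. -/
def pP4 : List ℕ := [0, 1, 6, 26]

/-- A vertex with three neighbours. -/
def pD3 : List ℕ := [0, 1, 1, 1]

/-- The positions of the meaningful cells of a row whose bit `e` is set. -/
def r5P (i r e : ℕ) : List ℕ :=
  (List.range 128).filter fun b => (decide (b < i) || decide (32 ≤ b)) && r.testBit (2 * b + e)

theorem r5_row {V : Type} {w : Wld V} {f : ℕ → V} {i r : ℕ} {x : V} (l₀ l₁ : List ℕ)
    (h : r5P i r 0 = l₀ ∧ r5P i r 1 = l₁) :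
    RowOK w f i x r ↔ (∀ b ∈ l₀, lit w f x b) ∧ ∀ b ∈ l₁, ¬ lit w f x b := by
  obtain ⟨rfl, rfl⟩ := h
  simp only [RowOK, r5P, List.mem_filter, List.mem_range, Bool.and_eq_true, Bool.or_eq_true,
    decide_eq_true_eq, add_zero]
  constructor
  · intro h
    exact ⟨fun b hb => (h b hb.1 hb.2.1).1 hb.2.2, fun b hb => (h b hb.1 hb.2.1).2 hb.2.2⟩
  · intro h b h1 h2
    exact ⟨fun h3 => h.1 b ⟨h1, h2, h3⟩, fun h3 => h.2 b ⟨h1, h2, h3⟩⟩

theorem r5_real {V : Type} {G : SimpleGraph V} {W : Finset V} {f : ℕ → V} {T : SG} {P : List ℕ}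
    (τ : V → ℕ → Prop) (hf : Real G W T f) (hn : P.length = T.n) (h32 : T.n ≤ 32)
    (h : ∀ i < T.n, ∀ b < 128, b < i ∨ 32 ≤ b →
      ((P.getD i 0).testBit (2 * b) = true → b < i ∧ T.adj i b = true) ∧
      ((P.getD i 0).testBit (2 * b + 1) = true → b < i ∧ T.adj i b = false)) :
    SatL ⟨G, W, τ⟩ f 0 P := by
  refine ⟨fun i hi => ?_, fun j hj b hb hb' => ?_⟩
  · rw [zero_add, hn] at hi
    exact ⟨(hf i hi).1, fun j hj => ((hf i hi).2 j hj).1.symm⟩
  · rw [hn] at hj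
    rw [zero_add] at hb' ⊢
    obtain ⟨h1, h2⟩ := h j hj b hb hb'
    refine ⟨fun e => ?_, fun e => ?_⟩
    · obtain ⟨k1, k2⟩ := h1 e
      unfold lit
      rw [if_pos (by omega)]
      exact ((hf j hj).2 b k1).2.2 k2
    · obtain ⟨k1, k2⟩ := h2 e
      unfold lit
      rw [if_pos (by omega)]
      intro e'
      have := ((hf j hj).2 b k1).2.1 e'
      rw [k2] at this
      exact Bool.noConfusion this

set_option synthInstance.maxSize 4000 in
theorem bd_K3S : Bd [pK3, pS123] := by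
  obtain ⟨k, hk⟩ := thmMain2
  refine ⟨k, fun V _ _ G W h => hk V G W fun T hT f hf => ?_⟩
  simp only [fHb, List.mem_cons, List.not_mem_nil, or_false] at hT
  rcases hT with rfl | rfl
  · exact h pK3 (by simp) f (r5_real _ hf rfl (by decide) (by decide +kernel))
  · exact h pS123 (by simp) f (r5_real _ hf rfl (by decide) (by decide +kernel))

set_option synthInstance.maxSize 4000 in
theorem bd_P4 : Bd [pP4] := by
  refine ⟨1, fun V _ _ G W h => wd_cograph fun a ha b hb c hc d hd h1 h2 h3 h4 h5 h6 => ?_⟩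
  have e1 : a ≠ c := fun e => h5 (e ▸ h3)
  have e2 : a ≠ d := fun e => h6 (e ▸ h1.symm)
  have e3 : b ≠ d := fun e => h5 (e ▸ h1)
  refine h pP4 (by simp) (fun i => [a, b, c, d].getD i a)
    (r5_real (T := ⟨4, fun i j => decide (i = j + 1)⟩) _ ?_ rfl (by decide) (by decide +kernel))
  intro i hi
  change i < 4 at hi
  have h4' : ¬ G.Adj c a := fun e => h4 e.symm
  have h5' : ¬ G.Adj d a := fun e => h5 e.symm
  have h6' : ¬ G.Adj d b := fun e => h6 e.symm
  refine ⟨by interval_cases i <;> simpa, fun j hj => ?_⟩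
  interval_cases i <;> interval_cases j <;>
    simp [h1.symm, h2.symm, h3.symm, h4', h5', h6', h1.ne', h2.ne', h3.ne', e1.symm, e2.symm,
      e3.symm]

theorem bd_D3 : Bd [pD3] := by
  refine ⟨3, fun V _ _ G W h => wd_deg_two fun v hv a ha b hb c hc h1 h2 h3 => ?_⟩
  by_contra hne
  simp only [not_or] at hne
  obtain ⟨e1, e2, e3⟩ := hne
  refine h pD3 (by simp) (fun i => [v, a, b, c].getD i v) ⟨fun i hi => ?_, fun j hj => ?_⟩
  · change i < 4 at hi
    refine ⟨by interval_cases i <;> simpa, fun j hj => ?_⟩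
    interval_cases i <;> interval_cases j <;> simp [h1.ne, h2.ne, h3.ne, e1, e2, e3]
  · change j < 4 at hj
    interval_cases j
    · exact rowOK_zero
    · refine (r5_row [0] [] (by decide +kernel)).2 ?_
      simp [lit, h1.symm]
    · refine (r5_row [0] [] (by decide +kernel)).2 ?_
      simp [lit, h2.symm]
    · refine (r5_row [0] [] (by decide +kernel)).2 ?_
      simp [lit, h3.symm]

/-- All trees of `Φ` are valid in split-prime worlds without the two basic patterns. -/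
def DerAll (Φ : List FT) : Prop :=
  ∀ (V : Type) [DecidableEq V] [Fintype V] (w : Wld V) (a : ℕ → V),
    Models w a ⟨0, 0, 32, true, [F0]⟩ → Models w a ⟨0, 0, 32, true, Φ⟩

theorem DerAll.base : DerAll [F0] := fun _ _ _ _ _ h => h

theorem DerAll.cons {Φ : List FT} {t : FT} (h : DerAll Φ) (ht : Der ⟨0, 0, 32, true, Φ⟩ t) :
    DerAll (t :: Φ) := by
  intro V _ _ w a hm
  have h1 := h V w a hm
  refine ⟨h1.1, h1.2.1, h1.2.2.1, fun t' ht' => ?_⟩
  rcases List.mem_cons.1 ht' with rfl | ht'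
  · exact ht V w a h1
  · exact h1.2.2.2 t' ht'

/-- The tree `t` lists patterns of `Ps`. -/
noncomputable def patChk (Ps : List (List ℕ)) (t : FT) : Bool :=
  wfF 32 ⟨0, [], Ps⟩ && t.all (memF (Ps.map fun P => ⟨0, P, []⟩))

theorem r5_wf {nb : ℕ} {Ps : List (List ℕ)} (h : wfF nb ⟨0, [], Ps⟩ = true) :
    ∀ P ∈ Ps, wfF nb ⟨0, P, []⟩ = true := by
  induction Ps with
  | nil => intro P hP; exact absurd hP List.not_mem_nil
  | cons Q Qs ih =>
    have e : wfF nb ⟨0, [], Q :: Qs⟩ = (wfL nb Q && wfF nb ⟨0, [], Qs⟩) := rfl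
    rw [e, Bool.and_eq_true] at h
    intro P hP
    rcases List.mem_cons.1 hP with rfl | hP
    · have e' : wfF nb ⟨0, P, []⟩ = (wfL nb P && true) := rfl
      rw [e', h.1]
      rfl
    · exact ih h.2 P hP

theorem r5_valid {V : Type} {w : Wld V} (a : ℕ → V) {Ps : List (List ℕ)} {t : FT}
    (h : patChk Ps t = true) (hP : ∀ P ∈ Ps, ∀ f : ℕ → V, ¬ SatL w f 0 P) : Valid w a 32 t := by
  unfold patChk at h
  rw [Bool.and_eq_true] at h
  intro i
  rcases FT.get_of_all h.2 i with e | e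
  · rw [e]
    exact ⟨rfl, holds_triv w a⟩
  · obtain ⟨P, h1, h2⟩ := List.mem_map.1 (memF_sound e)
    rw [← h2]
    exact ⟨r5_wf h.1 P h1, fun f _ hf => (hP P h1 f hf).elim⟩

theorem r5_mg {V : Type} (G : SimpleGraph V) {ty : V → ℕ} {M : ℕ}
    (h : ∀ x y, Mk M (ty x) (ty y)) : mg G ty (Mk M) = G := by
  ext x y
  exact ⟨fun e => e.1, fun e => ⟨e, h x y, h y x⟩⟩

theorem r5_good {σ : St} (hg : Good σ 0 1 1) : ∃ K : ℕ, ∀ (V : Type) [DecidableEq V] [Fintype V]
    (w : Wld V) (a : ℕ → V), Models w a σ → ∀ W ⊆ w.U, (∀ x ∈ W, ∀ i < σ.n0, a i ≠ x) →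
      Wd w.G W K := by
  obtain ⟨K, hK⟩ := hg
  refine ⟨K, fun V _ _ w a hm W hW ha => ?_⟩
  have := hK V w a hm W (fun _ => 0) fun x hx =>
    ⟨hW hx, ha x hx, by norm_num, (by decide : Nat.testBit 1 0 = true), by
      have e : row 0 0 = 0 := by decide +kernel
      rw [e]
      exact rowOK_zero⟩
  rwa [r5_mg _ fun _ _ => by unfold Mk; decide] at this

theorem r5_pushL {V : Type} {w : Wld V} {f : ℕ → V} (rs : List ℕ) : ∀ K n, Tru w f n K →
    (∀ j < rs.length, RowOK w f (n + j) (f (n + j)) (rs.getD j 0)) →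
      Tru w f (n + rs.length) (pushL rs K n) := by
  induction rs with
  | nil => exact fun K n h _ => h
  | cons r rs ih =>
    intro K n h hr
    have e : pushL (r :: rs) K n = pushL rs (push K n r) (n + 1) := rfl
    have e' : n + (r :: rs).length = n + 1 + rs.length := by
      rw [List.length_cons]
      omega
    rw [e, e']
    refine ih _ _ (h.push (hr 0 (by simp))) fun j hj => ?_
    have := hr (j + 1) (by simpa using hj)
    rwa [List.getD_cons_succ, ← add_assoc, add_right_comm] at this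

theorem bd_of_good {Ps : List (List ℕ)} {t : FT} (h : patChk Ps t = true)
    (hg : Good ⟨0, 0, 32, false, [t]⟩ 0 1 1) : Bd Ps := by
  obtain ⟨K, hK⟩ := r5_good hg
  refine ⟨K, fun V _ _ G W hP => ?_⟩
  rcases W.eq_empty_or_nonempty with rfl | ⟨v, -⟩
  · exact Dec.empty
  refine hK V ⟨G, W, fun _ _ => False⟩ (fun _ => v)
    ⟨fun i hi => absurd hi (Nat.not_lt_zero i), fun i hi => absurd hi (Nat.not_lt_zero i),
      fun e => Bool.noConfusion e, fun t' ht' => ?_⟩ W (Subset.refl _)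
    fun _ _ i hi => absurd hi (Nat.not_lt_zero i)
  rw [List.mem_singleton.1 ht']
  exact r5_valid _ h hP

theorem bd_stage {Ps : List (List ℕ)} {A : List ℕ} {t : FT} {Φ : List FT} {n0 c0 : ℕ}
    (hb : Bd (A :: Ps)) (h₁ : pGem ∈ Ps) (h₂ : pP23 ∈ Ps) (hΦ : DerAll Φ)
    (h : (patChk Ps t && (Nat.beq n0 (len A) && Nat.beq c0 (pushL A 0 0))) = true)
    (hg : Good ⟨n0, c0, 32, true, t :: Φ⟩ 0 1 1) : Bd Ps := by
  obtain ⟨K₁, hK₁⟩ := hb
  obtain ⟨K₂, hK₂⟩ := r5_good hg
  obtain ⟨K, hK⟩ := sp_reduce (K₁ + 2 ^ n0 * (K₂ + 1))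
  simp only [Bool.and_eq_true, Nat.beq_eq] at h
  obtain ⟨hc, hn, hc0⟩ := h
  rw [len_eq] at hn
  refine ⟨K, fun V _ _ G W hP => hK V G W fun U hU hsp => ?_⟩
  have hP' : ∀ P ∈ Ps, ∀ f : ℕ → V, ¬ SatL ⟨G, U, fun _ _ => False⟩ f 0 P := fun P h f hf =>
    hP P h f ⟨fun i hi => ⟨hU (hf.1 i hi).1, (hf.1 i hi).2⟩, hf.2⟩
  by_cases hA : ∃ f : ℕ → V, SatL ⟨G, U, fun _ _ => False⟩ f 0 A
  · obtain ⟨f, hf⟩ := hA
    have h0 : Models ⟨G, U, fun _ _ => False⟩ f ⟨0, 0, 32, true, [F0]⟩ := by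
      refine ⟨fun i hi => absurd hi (Nat.not_lt_zero i), fun i hi => absurd hi (Nat.not_lt_zero i),
        fun _ => hsp, fun t' ht' => ?_⟩
      rw [List.mem_singleton.1 ht']
      refine r5_valid (Ps := [pGem, pP23]) _ (by decide +kernel) fun P h => hP' P ?_
      simp only [List.mem_cons, List.not_mem_nil, or_false] at h
      rcases h with rfl | rfl
      · exact h₁
      · exact h₂
    have hm : Models ⟨G, U, fun _ _ => False⟩ f ⟨n0, c0, 32, true, t :: Φ⟩ := by
      refine ⟨?_, ?_, fun _ => hsp, fun t' ht' => ?_⟩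
      · have := hf.1
        rwa [zero_add, ← hn] at this
      · have := r5_pushL A 0 0 (fun i hi => absurd hi (Nat.not_lt_zero i)) hf.2
        rwa [zero_add, ← hn, ← hc0] at this
      · rcases List.mem_cons.1 ht' with rfl | ht'
        · exact r5_valid _ hc hP'
        · exact (hΦ V _ f h0).2.2.2 t' ht'
    have h1 : Wd G (U \ (range n0).image f) K₂ :=
      hK₂ V _ f hm _ sdiff_subset fun x hx i hi e =>
        (mem_sdiff.1 hx).2 (mem_image.2 ⟨i, mem_range.2 hi, e⟩)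
    refine (wd_sdiff (k := K₂ + 1) (by omega) _ (h1.mono (by omega))).mono ?_
    have h2 : ((range n0).image f).card ≤ n0 := card_image_le.trans (card_range n0).le
    have h3 := Nat.mul_le_mul_right (K₂ + 1) (Nat.pow_le_pow_right (by norm_num : 0 < 2) h2)
    omega
  · refine (hK₁ V G U fun P h f hf => ?_).mono (by omega)
    rcases List.mem_cons.1 h with rfl | h
    · exact hA ⟨f, hf⟩
    · exact hP' P h f hf

/-- The facts of the three-part configuration: flag 32 marks the clique, flag 33 a neighbour in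
`X`, flag 34 a neighbour in `Y` that is not adjacent to the second constant. -/
def tStar : FT :=
  (.node ⟨2, [18446744073709551616, 18446744073709551648], []⟩
    (.node ⟨2, [36893488147419103233, 36893488147419103249], []⟩
    (.node ⟨2, [166020696663385964544, 36893488147419103249], []⟩
    (.node ⟨2, [387381625547900583936], [[0, 36893488147419103258, 36893488147419103305]]⟩
    .nil .nil) .nil) (.node ⟨2, [92233720368547758080], [[0, 36893488147419103257]]⟩
    .nil .nil)) (.node ⟨2, [2, 18], []⟩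
    (.node ⟨2, [608742554432415203328, 26], []⟩
    .nil .nil) (.node ⟨2, [313594649253062377472], [[0, 36893488147419103258]]⟩
    .nil .nil)))

/-- The six types of the three-part configuration. -/
def lStar : List ℕ :=
  [36893488147419103242, 36893488147419103241, 36893488147419103238, 166020696663385964549, 682529530727253409797, 387381625547900583941]

/-- The facts of the tree `tStar`, as a list. -/
def r5L : List Fact :=
  [⟨2, [18446744073709551616, 18446744073709551648], []⟩,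
    ⟨2, [36893488147419103233, 36893488147419103249], []⟩,
    ⟨2, [166020696663385964544, 36893488147419103249], []⟩,
    ⟨2, [387381625547900583936], [[0, 36893488147419103258, 36893488147419103305]]⟩,
    ⟨2, [92233720368547758080], [[0, 36893488147419103257]]⟩,
    ⟨2, [2, 18], []⟩, ⟨2, [608742554432415203328, 26], []⟩,
    ⟨2, [313594649253062377472], [[0, 36893488147419103258]]⟩]

theorem r5_ext1 {V : Type} {w : Wld V} {f : ℕ → V} {r : ℕ} {x : V} (hI : Inj w f 3)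
    (hx : x ∈ w.U) (h0 : f 0 ≠ x) (h1 : f 1 ≠ x) (h2 : f 2 ≠ x) (hr : RowOK w f 3 x r) :
    Ext w f 2 3 [[0, r]] := by
  refine ⟨_, List.mem_singleton.2 rfl, fun i => if i = 3 then x else f i,
    fun i hi => if_neg (by omega), fun i hi => ?_, fun j hj => ?_⟩
  · change i < 4 at hi
    by_cases e : i = 3
    · subst e
      refine ⟨hx, fun j hj => ?_⟩
      interval_cases j <;> simpa
    · have h3 := hI i (by omega)
      refine ⟨by simpa [e] using h3.1, fun j hj => ?_⟩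
      have e' : j ≠ 3 := by omega
      simpa [e, e'] using h3.2 j hj
  · change j < 2 at hj
    interval_cases j
    · exact rowOK_zero
    · exact hr.congr fun j hj => if_neg (by omega)

theorem r5_ext2 {V : Type} {w : Wld V} {f : ℕ → V} {r r' : ℕ} {x y : V} (hI : Inj w f 3)
    (hy : y ∈ w.U) (h0 : f 0 ≠ y) (h1 : f 1 ≠ y) (h2 : f 2 ≠ y)
    (hx : x ∈ w.U) (k0 : f 0 ≠ x) (k1 : f 1 ≠ x) (k2 : f 2 ≠ x) (k3 : y ≠ x)
    (hr : RowOK w f 3 y r) (hr' : RowOK w (fun i => if i = 3 then y else f i) 4 x r') :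
    Ext w f 2 3 [[0, r, r']] := by
  refine ⟨_, List.mem_singleton.2 rfl, fun i => if i = 4 then x else if i = 3 then y else f i,
    fun i hi => (if_neg (by omega)).trans (if_neg (by omega)), fun i hi => ?_, fun j hj => ?_⟩
  · change i < 5 at hi
    by_cases e : i = 4
    · subst e
      refine ⟨hx, fun j hj => ?_⟩
      interval_cases j <;> simpa
    by_cases e₁ : i = 3
    · subst e₁
      refine ⟨hy, fun j hj => ?_⟩
      interval_cases j <;> simpa
    · have h3 := hI i (by omega)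
      refine ⟨by simpa [e, e₁] using h3.1, fun j hj => ?_⟩
      have e' : j ≠ 3 := by omega
      have e'' : j ≠ 4 := by omega
      simpa [e, e₁, e', e''] using h3.2 j hj
  · change j < 3 at hj
    interval_cases j
    · exact rowOK_zero
    · exact hr.congr fun j hj => (if_neg (by omega)).trans (if_neg (by omega))
    · exact hr'.congr fun j hj => if_neg (by omega)

theorem r5_star {V : Type} {w : Wld V} {α : ℕ → V} {W : Finset V}
    (hU : ∀ v ∈ w.U, α 0 ≠ v → α 1 ≠ v → v ∈ W) (hW : ∀ v ∈ W, v ∈ w.U ∧ α 0 ≠ v ∧ α 1 ≠ v)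
    (h33 : ∀ v, w.τ v 33 ↔ ∃ x ∈ W, ¬ w.τ x 32 ∧ w.G.Adj (α 0) x ∧ w.G.Adj v x)
    (h34 : ∀ v, w.τ v 34 ↔ ∃ y ∈ W, ¬ w.G.Adj (α 0) y ∧ ¬ w.G.Adj (α 1) y ∧ w.G.Adj v y)
    (ht : Tri w.G W (α 0) fun v => w.τ v 32)
    (hX : ∀ v ∈ W, ¬ w.τ v 32 → w.G.Adj (α 0) v → ¬ w.G.Adj (α 1) v)
    (hl : ∀ v ∈ W, w.τ v 32 → w.τ v 33 → w.τ v 34 →
      ∃ y ∈ W, ∃ x ∈ W, ¬ w.G.Adj (α 0) y ∧ ¬ w.G.Adj (α 1) y ∧ w.G.Adj v y ∧ ¬ w.τ x 32 ∧
        w.G.Adj (α 0) x ∧ w.G.Adj y x) : ∀ φ ∈ r5L, Holds w α φ := by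
  have two : ∀ (f : ℕ → V) (r r' : ℕ), (∀ i < 2, f i = α i) → SatL w f 2 [r, r'] →
      f 0 = α 0 ∧ f 1 = α 1 ∧ f 2 ∈ W ∧ f 3 ∈ W ∧ f 2 ≠ f 3 ∧ RowOK w f 2 (f 2) r ∧
        RowOK w f 3 (f 3) r' := by
    intro f r r' hf hs
    have e0 := hf 0 (by omega)
    have e1 := hf 1 (by omega)
    have h2 := hs.1 2 (by simp)
    have h3 := hs.1 3 (by simp)
    exact ⟨e0, e1, hU _ h2.1 (e0 ▸ h2.2 0 (by omega)) (e1 ▸ h2.2 1 (by omega)),
      hU _ h3.1 (e0 ▸ h3.2 0 (by omega)) (e1 ▸ h3.2 1 (by omega)), h3.2 2 (by omega),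
      hs.2 0 (by simp), hs.2 1 (by simp)⟩
  have one : ∀ (f : ℕ → V) (r : ℕ), (∀ i < 2, f i = α i) → SatL w f 2 [r] →
      f 0 = α 0 ∧ f 1 = α 1 ∧ f 2 ∈ W ∧ Inj w f 3 ∧ RowOK w f 2 (f 2) r := by
    intro f r hf hs
    have e0 := hf 0 (by omega)
    have e1 := hf 1 (by omega)
    have h2 := hs.1 2 (by simp)
    exact ⟨e0, e1, hU _ h2.1 (e0 ▸ h2.2 0 (by omega)) (e1 ▸ h2.2 1 (by omega)), hs.1,
      hs.2 0 (by simp)⟩
  intro φ hφ
  simp only [r5L, List.mem_cons, List.not_mem_nil, or_false] at hφ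
  rcases hφ with rfl | rfl | rfl | rfl | rfl | rfl | rfl | rfl <;> intro f hf hs
  · obtain ⟨e0, e1, m2, m3, hne, r2, r3⟩ := two f _ _ hf hs
    rw [r5_row [32] [] (by decide +kernel)] at r2
    rw [r5_row [32] [2] (by decide +kernel)] at r3
    simp [lit] at r2 r3
    exact (r3.2 (ht.cl _ m3 _ m2 r3.1 r2 hne.symm)).elim
  · obtain ⟨e0, e1, m2, m3, hne, r2, r3⟩ := two f _ _ hf hs
    rw [r5_row [0] [32] (by decide +kernel)] at r2
    rw [r5_row [0, 2] [32] (by decide +kernel)] at r3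
    simp [lit, e0] at r2 r3
    exact (ht.iX _ m3 _ m2 r3.2 r2.2 r3.1.1.symm r2.1.symm r3.1.2).elim
  · obtain ⟨e0, e1, m2, m3, hne, r2, r3⟩ := two f _ _ hf hs
    rw [r5_row [32] [33] (by decide +kernel)] at r2
    rw [r5_row [0, 2] [32] (by decide +kernel)] at r3
    simp [lit, e0] at r2 r3
    exact (r2.2 ((h33 _).2 ⟨_, m3, r3.2, r3.1.1.symm, r3.1.2.symm⟩)).elim
  · obtain ⟨e0, e1, m2, hI, r2⟩ := one f _ hf hs
    rw [r5_row [32, 33, 34] [] (by decide +kernel)] at r2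
    simp [lit] at r2
    obtain ⟨y, hy, x, hx, k1, k2, k3, k4, k5, k6⟩ := hl _ m2 r2.1 r2.2.1 r2.2.2
    have k7 : ¬ w.τ y 32 := fun e => k1 (ht.aK y hy e)
    have k8 := hX x hx k4 k5
    refine r5_ext2 (y := y) (x := x) hI (hW y hy).1 (e0 ▸ (hW y hy).2.1) (e1 ▸ (hW y hy).2.2)
      k3.ne (hW x hx).1 (e0 ▸ (hW x hx).2.1) (e1 ▸ (hW x hx).2.2) (fun e => k4 (e ▸ r2.1))
      k6.ne ?_ ?_
    · rw [r5_row [2] [0, 1, 32] (by decide +kernel)]
      simp only [lit, List.forall_mem_cons, List.not_mem_nil, e0, e1]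
      simp [w.G.adj_comm y, k1, k2, k3, k7]
    · rw [r5_row [0, 3] [1, 32] (by decide +kernel)]
      simp [lit, e0, e1, w.G.adj_comm x, k4, k5, k6, k8]
  · obtain ⟨e0, e1, m2, hI, r2⟩ := one f _ hf hs
    rw [r5_row [32, 33] [] (by decide +kernel)] at r2
    simp [lit] at r2
    obtain ⟨x, hx, k1, k2, k3⟩ := (h33 _).1 r2.2
    have k8 := hX x hx k1 k2
    refine r5_ext1 (x := x) hI (hW x hx).1 (e0 ▸ (hW x hx).2.1) (e1 ▸ (hW x hx).2.2) k3.ne ?_
    rw [r5_row [0, 2] [1, 32] (by decide +kernel)]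
    simp [lit, e0, e1, w.G.adj_comm x, k1, k2, k3, k8]
  · obtain ⟨e0, e1, m2, m3, hne, r2, r3⟩ := two f _ _ hf hs
    rw [r5_row [] [0] (by decide +kernel)] at r2
    rw [r5_row [2] [0] (by decide +kernel)] at r3
    simp [lit, e0] at r2 r3
    exact (ht.iY _ m3 _ m2 (fun e => r3.2 e.symm) (fun e => r2 e.symm) r3.1).elim
  · obtain ⟨e0, e1, m2, m3, hne, r2, r3⟩ := two f _ _ hf hs
    rw [r5_row [32] [34] (by decide +kernel)] at r2
    rw [r5_row [2] [0, 1] (by decide +kernel)] at r3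
    simp [lit, e0, e1] at r2 r3
    exact (r2.2 ((h34 _).2 ⟨_, m3, fun e => r3.2.1 e.symm, fun e => r3.2.2 e.symm,
      r3.1.symm⟩)).elim
  · obtain ⟨e0, e1, m2, hI, r2⟩ := one f _ hf hs
    rw [r5_row [32, 34] [] (by decide +kernel)] at r2
    simp [lit] at r2
    obtain ⟨y, hy, k1, k2, k3⟩ := (h34 _).1 r2.2
    have k7 : ¬ w.τ y 32 := fun e => k1 (ht.aK y hy e)
    refine r5_ext1 (x := y) hI (hW y hy).1 (e0 ▸ (hW y hy).2.1) (e1 ▸ (hW y hy).2.2) k3.ne ?_
    rw [r5_row [2] [0, 1, 32] (by decide +kernel)]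
    simp [lit, e0, e1, w.G.adj_comm y, k1, k2, k3, k7]

theorem r5_valid_star {V : Type} {w : Wld V} {α : ℕ → V} (h : ∀ φ ∈ r5L, Holds w α φ) :
    Valid w α 35 tStar := by
  intro i
  rcases FT.get_of_all (t := tStar) (p := fun φ => memF r5L φ && wfF 35 φ)
    (by decide +kernel) i with e | e
  · rw [e]
    exact ⟨rfl, holds_triv w α⟩
  · rw [Bool.and_eq_true] at e
    exact ⟨e.2, h _ (memF_sound e.1)⟩

open Classical in
/-- The type of a vertex in the three-part configuration. -/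
noncomputable def r5ty {V : Type} (w : Wld V) (α : ℕ → V) (v : V) : ℕ :=
  if w.τ v 32 then if w.τ v 33 then if w.τ v 34 then 5 else 4 else 3 else
    if w.G.Adj v (α 0) then 1 else if w.G.Adj v (α 1) then 2 else 0

theorem r5ty_lt {V : Type} (w : Wld V) (α : ℕ → V) (v : V) : r5ty w α v < 6 := by
  unfold r5ty
  split_ifs <;> norm_num

theorem r5ty_row {V : Type} {w : Wld V} {α : ℕ → V} {v : V}
    (h1 : w.τ v 32 → w.G.Adj v (α 0) ∧ w.G.Adj v (α 1))
    (h2 : ¬ w.τ v 32 → w.G.Adj v (α 0) → ¬ w.G.Adj v (α 1)) :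
    RowOK w α 2 v (row (pk 256 lStar) (r5ty w α v)) := by
  unfold r5ty
  split_ifs with k1 k2 k3 k4 k5
  · rw [r5_row [0, 1, 32, 33, 34] [] (by decide +kernel)]
    simp [lit, h1 k1, k1, k2, k3]
  · rw [r5_row [0, 1, 32, 33] [34] (by decide +kernel)]
    simp [lit, h1 k1, k1, k2, k3]
  · rw [r5_row [0, 1, 32] [33] (by decide +kernel)]
    simp [lit, h1 k1, k1, k2]
  · rw [r5_row [0] [1, 32] (by decide +kernel)]
    simp [lit, h2 k1 k4, k1, k4]
  · rw [r5_row [1] [0, 32] (by decide +kernel)]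
    simp [lit, k1, k4, k5]
  · rw [r5_row [] [0, 1, 32] (by decide +kernel)]
    simp [lit, k1, k4, k5]

theorem T1star_of_good {M : ℕ} (hM : ∀ X < 6, ∀ Y < 6, M.testBit (64 * X + Y) = true)
    (hg : Good ⟨2, 115792089237316195423570985008687907853269984665640564039457584007913129639936, 35, false, [tStar, F0]⟩ (pk 256 lStar) 63 M) : ∃ k, T1star k := by
  obtain ⟨K, hK⟩ := hg
  refine ⟨K, fun V _ _ G W a c isK ha hc hac h1 h2 ht hKc hX hl => ?_⟩
  obtain ⟨w, hG, hU, h32, h33, h34⟩ : ∃ w : Wld V, w.G = G ∧ w.U = insert a (insert c W) ∧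
      (∀ v, w.τ v 32 = isK v) ∧ (∀ v, w.τ v 33 ↔ ∃ x ∈ W, ¬ isK x ∧ G.Adj a x ∧ G.Adj v x) ∧
      ∀ v, w.τ v 34 ↔ ∃ y ∈ W, ¬ G.Adj a y ∧ ¬ G.Adj c y ∧ G.Adj v y :=
    ⟨⟨G, insert a (insert c W), fun v b => if b = 32 then isK v else if b = 33 then
      ∃ x ∈ W, ¬ isK x ∧ G.Adj a x ∧ G.Adj v x else
        ∃ y ∈ W, ¬ G.Adj a y ∧ ¬ G.Adj c y ∧ G.Adj v y⟩, rfl, rfl, fun _ => rfl,
      fun _ => Iff.rfl, fun _ => Iff.rfl⟩
  obtain ⟨α, rfl, rfl⟩ : ∃ α : ℕ → V, α 0 = a ∧ α 1 = c :=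
    ⟨fun i => if i = 0 then a else c, rfl, rfl⟩
  obtain rfl : (fun v => w.τ v 32) = isK := funext h32
  subst hG
  have hW : ∀ v ∈ W, v ∈ w.U ∧ α 0 ≠ v ∧ α 1 ≠ v := fun v hv =>
    ⟨by rw [hU]; simp [hv], fun e => ha (e ▸ hv), fun e => hc (e ▸ hv)⟩
  have hs := r5_star (w := w) (α := α) (W := W) (fun v hv e0 e1 => by
      rw [hU, mem_insert, mem_insert] at hv
      exact (hv.resolve_left e0.symm).resolve_left e1.symm) hW h33 h34 ht hX
    fun v hv k1 k2 k3 => hl v hv k1 ((h33 v).1 k2) ((h34 v).1 k3)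
  have hm : Models w α ⟨2, 115792089237316195423570985008687907853269984665640564039457584007913129639936, 35, false, [tStar, F0]⟩ := by
    refine ⟨fun i hi => ?_, fun i hi => ?_, fun e => Bool.noConfusion e, fun t' ht' => ?_⟩
    · change i < 2 at hi
      rw [hU]
      refine ⟨by interval_cases i <;> simp, fun j hj => ?_⟩
      obtain rfl : i = 1 := by omega
      obtain rfl : j = 0 := by omega
      exact hac.ne
    · change i < 2 at hi
      interval_cases i
      · rw [r5_row [] [] (by decide +kernel)]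
        simp
      · rw [r5_row [0] [] (by decide +kernel)]
        simp [lit, hac.symm]
    · simp only [List.mem_cons, List.not_mem_nil, or_false] at ht'
      rcases ht' with rfl | rfl
      · exact r5_valid_star hs
      · exact valid_F0 α (by norm_num) (hU ▸ h1) (hU ▸ h2)
  have hb : ∀ t < 6, Nat.testBit 63 t = true := by decide
  have := hK V w α hm W (r5ty w α) fun x hx =>
    ⟨(hW x hx).1, fun i hi => by
      change i < 2 at hi
      interval_cases i
      · exact (hW x hx).2.1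
      · exact (hW x hx).2.2, (r5ty_lt w α x).trans (by norm_num), hb _ (r5ty_lt w α x),
      r5ty_row (fun e => ⟨(ht.aK x hx e).symm, (hKc x hx e).symm⟩)
        fun e e' e'' => hX x hx e e'.symm e''.symm⟩
  rwa [r5_mg _ fun x y => hM _ (r5ty_lt w α x) _ (r5ty_lt w α y)] at this

theorem r5_emb {V : Type} {G : SimpleGraph V} {W : Finset V} {τ : V → ℕ → Prop} {f : ℕ → V}
    {P : List ℕ} (hf : SatL ⟨G, W, τ⟩ f 0 P) {n : ℕ} (hn : P.length = n) (h32 : n ≤ 32)
    (H : SimpleGraph (Fin n)) (h : ∀ i j : Fin n, j < i →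
      (H.Adj i j → (P.getD i 0).testBit (2 * j) = true) ∧
      (¬ H.Adj i j → (P.getD i 0).testBit (2 * j + 1) = true)) : Nonempty (H ↪g G) := by
  have key : ∀ i j : Fin n, j < i → f j ≠ f i ∧ (G.Adj (f i) (f j) ↔ H.Adj i j) := by
    intro i j hij
    have hi := i.2
    have hji : (j : ℕ) < i := hij
    have h1 := hf.2 i (by omega) j (by omega) (Or.inl (by omega))
    unfold lit at h1
    rw [if_pos (by omega), zero_add] at h1
    refine ⟨(hf.1 i (by omega)).2 j hji, fun e => ?_, fun e => h1.1 ((h i j hij).1 e)⟩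
    by_contra e'
    exact h1.2 ((h i j hij).2 e') e
  refine ⟨⟨⟨fun i => f i, fun i j e => ?_⟩, fun {i j} => ?_⟩⟩
  · rcases lt_trichotomy i j with h1 | h1 | h1
    · exact absurd e (key j i h1).1
    · exact h1
    · exact absurd e.symm (key i j h1).1
  · change G.Adj (f i) (f j) ↔ H.Adj i j
    rcases lt_trichotomy i j with h1 | h1 | h1
    · rw [G.adj_comm, H.adj_comm]
      exact (key j i h1).2
    · subst h1
      exact iff_of_false G.irrefl H.irrefl
    · exact (key i j h1).2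

set_option synthInstance.maxSize 4000 in
theorem wd_of_bd (h : Bd [pGem, pP23]) : ∃ k : ℕ, ∀ (V : Type) [DecidableEq V] [Fintype V]
    (G : SimpleGraph V), IsEmpty (gem ↪g G) → IsEmpty (P2P3 ↪g G) → Wd G univ k := by
  obtain ⟨k, hk⟩ := h
  refine ⟨k, fun V _ _ G h1 h2 => hk V G univ fun P hP f hf => ?_⟩
  simp only [List.mem_cons, List.not_mem_nil, or_false] at hP
  rcases hP with rfl | rfl
  · refine (r5_emb (n := 5) hf rfl (by decide) gem ?_).elim h1.false
    simp only [gem, SimpleGraph.fromEdgeSet_adj, Set.mem_insert_iff, Set.mem_singleton_iff]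
    decide
  · refine (r5_emb (n := 5) hf rfl (by decide) P2P3 ?_).elim h2.false
    simp only [P2P3, SimpleGraph.fromEdgeSet_adj, Set.mem_insert_iff, Set.mem_singleton_iff]
    decide

end Pool.Agent.Lib.MP_1595d8_lc
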