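import Mathlib
import Pool.Agent.Lib.MP_1595d8_lc.H89R5

/-!
A direct check that the flipped graph has maximum degree at most two.
-/

namespace Pool.Agent.Lib.MP_1595d8_lc

open Finset Pool.Agent.Lib.MP_042ec1_co

/-- The label of the type `u` with the cell `e` towards the first vertex after the constants. -/
def dr (σ : St) (LL e u : ℕ) : ℕ := Nat.lor (lab σ LL u) (Nat.shiftLeft e (Nat.mul 2 σ.n0))

/-- No vertex of type `t` has three neighbours in the flipped graph. -/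
def DegAt (σ : St) (LL S φ t : ℕ) : Prop :=
  ∀ (V : Type) [DecidableEq V] [Fintype V] (w : Wld V) (a : ℕ → V), Models w a σ →
    ∀ (W : Finset V) (ty : V → ℕ), Typed w a σ.n0 LL S W ty → ∀ x : ℕ → V,
      (∀ j < 4, x j ∈ W ∧ ∀ i < j, x i ≠ x j) → ty (x 0) = t →
      (∀ j < 3, (flipG w.G ty φ).Adj (x (j + 1)) (x 0)) → ty (x 2) ≤ ty (x 1) →
      ty (x 3) ≤ ty (x 2) → False

/-- Runs `k` on the row of a neighbour of type `u` of a vertex of type `t`. -/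
def nb1 (σ : St) (LL S φ t u s : ℕ) (k : ℕ → ℕ) : ℕ :=
  bif tb S u then fz (phi φ u t) fun p => bif Nat.ble p 1 then
    fz (dr σ LL (Nat.succ p) u) k else s else s

/-- Checks the degrees at the types `lo, …, lo + c - 1`. -/
noncomputable def degChk (σ : St) (LL S φ lo c s : ℕ) : Bool :=
  fz LL fun LL => fz φ fun φ => Nat.blt σ.n0 32 &&
  !Nat.beq (loop c (fun i s => fz (Nat.add lo i) fun t => bif tb S t then
    fz (dr σ LL 0 t) fun r₀ =>
    loop 64 (fun u s => nb1 σ LL S φ t u s fun r₁ =>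
      loop (Nat.succ u) (fun v s => nb1 σ LL S φ t v s fun r₂ =>
        fz (Nat.shiftRight s 1) fun s' => bif tb s 0 then run σ Md.non [r₀, r₁, r₂] s' else
        loop (Nat.succ v) (fun z s => nb1 σ LL S φ t z s fun r₃ =>
          run σ Md.non [r₀, r₁, r₂, r₃] s) s') s) s
    else s) s) 0

/-- Active pairs are kept or complemented. -/
def phiChk (S M φ : ℕ) : Bool :=
  fz M fun M => fz φ fun φ => allLT 64 fun X => !tb S X || fz (Nat.land S (mrow M X)) fun A =>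
    allLT 64 fun Y => !tb A Y || Nat.ble (phi φ X Y) 1

variable {σ : St} {LL S M φ lo c s : ℕ}

theorem deg_sat {V : Type} {w : Wld V} {a : ℕ → V} {W : Finset V} {ty : V → ℕ}
    (hI : Inj w a σ.n0) (hn : σ.n0 < 32) (ht : Typed w a σ.n0 LL S W ty) (x : ℕ → V)
    (rs : List ℕ) (hx : ∀ j < rs.length, x j ∈ W ∧ (∀ i < j, x i ≠ x j) ∧
      ∃ e < 4, CellOK e (w.G.Adj (x j) (x 0)) ∧ rs.getD j 0 = dr σ LL e (ty (x j))) :
    SatL w (r1Ext a σ.n0 x) σ.n0 rs := by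
  refine ⟨?_, fun j hj => ?_⟩
  · have := (r1_sat hI x (List.replicate rs.length 0) fun j hj => by
      rw [List.length_replicate] at hj
      obtain ⟨h1, h2, -⟩ := hx j hj
      exact ⟨(ht _ h1).1, (ht _ h1).2.1, h2, 0, rowOK_zero, by simp [hj]⟩).1
    rwa [List.length_replicate] at this
  · obtain ⟨h1, -, e, he, h2, h3⟩ := hx j hj
    rw [r1_ext_add, h3]
    refine rowOK_lor.2 ⟨(ht _ h1).2.2.2.2.lab (r1_ext_lt a x) _, rowOK_cell he ?_⟩
    rw [bits_adj hn]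
    exact (r1_ext_add a σ.n0 x 0).symm ▸ h2

theorem deg_nb {V : Type} {G : SimpleGraph V} {ty : V → ℕ} {x y : V} {k : ℕ → ℕ}
    (hS : S.testBit (ty y) = true) (h : (flipG G ty φ).Adj y x)
    (hk : nb1 σ LL S φ (ty x) (ty y) s k ≠ 0) :
    ∃ e < 4, CellOK e (G.Adj y x) ∧ k (dr σ LL e (ty y)) ≠ 0 := by
  unfold nb1 at hk
  rw [tb_eq, hS, cond_true, fz_eq, fz_eq] at hk
  rcases (r4_flip.1 h).2 with ⟨h1, h2⟩ | ⟨h1, h2⟩ <;> rw [h1] at hk
  · exact ⟨1, by norm_num, ⟨fun _ => h2, fun h => absurd h (by decide)⟩, hk⟩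
  · exact ⟨2, by norm_num, ⟨fun h => absurd h (by decide), fun _ => h2⟩, hk⟩

theorem deg_step (h : Upto (DegAt σ LL S φ) lo) (hc : degChk σ LL S φ lo c s = true) :
    Upto (DegAt σ LL S φ) (lo + c) := by
  refine r3_upto h fun i hi V _ _ w a hm W ty ht x hx h0 ha h21 h32 => ?_
  unfold degChk at hc
  simp only [fz_eq, Nat.add_eq, Bool.and_eq_true, Nat.blt_eq] at hc
  obtain ⟨s₁, e1⟩ := loop_ne (r1_ne hc.2) i hi
  have hS : ∀ j < 4, S.testBit (ty (x j)) = true := fun j hj => (ht _ (hx j hj).1).2.2.2.1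
  rw [← h0, tb_eq, hS 0 (by norm_num), cond_true] at e1
  obtain ⟨s₂, e2⟩ := loop_ne e1 (ty (x 1)) (ht _ (hx 1 (by norm_num)).1).2.2.1
  obtain ⟨c₁, a1, b1, e3⟩ := deg_nb (hS 1 (by norm_num)) (ha 0 (by norm_num)) e2
  obtain ⟨s₃, e4⟩ := loop_ne e3 (ty (x 2)) (Nat.lt_succ_of_le h21)
  obtain ⟨c₂, a2, b2, e5⟩ := deg_nb (hS 2 (by norm_num)) (ha 1 (by norm_num)) e4
  have b0 : CellOK 0 (w.G.Adj (x 0) (x 0)) := ⟨fun h => by simp at h, fun h => by simp at h⟩
  cases hb : tb s₃ 0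
  · rw [hb, cond_false] at e5
    obtain ⟨s₄, e6⟩ := loop_ne e5 (ty (x 3)) (Nat.lt_succ_of_le h32)
    obtain ⟨c₃, a3, b3, e7⟩ := deg_nb (hS 3 (by norm_num)) (ha 2 (by norm_num)) e6
    refine run_sound (W := W) (ty := ty) hm e7 (r1_ext_lt a x)
      (deg_sat hm.1 hc.1 ht x _ fun j hj => ?_) trivial
    have hj' : j < 4 := hj
    refine ⟨(hx j hj').1, (hx j hj').2, ?_⟩
    interval_cases j
    exacts [⟨0, by norm_num, b0, rfl⟩, ⟨c₁, a1, b1, rfl⟩, ⟨c₂, a2, b2, rfl⟩, ⟨c₃, a3, b3, rfl⟩]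
  · rw [hb, cond_true] at e5
    refine run_sound (W := W) (ty := ty) hm e5 (r1_ext_lt a x)
      (deg_sat hm.1 hc.1 ht x _ fun j hj => ?_) trivial
    have hj' : j < 3 := hj
    refine ⟨(hx j (by omega)).1, (hx j (by omega)).2, ?_⟩
    interval_cases j
    exacts [⟨0, by norm_num, b0, rfl⟩, ⟨c₁, a1, b1, rfl⟩, ⟨c₂, a2, b2, rfl⟩]

theorem good_deg (h : Upto (DegAt σ LL S φ) 64) (hc : phiChk S M φ = true) : Good σ LL S M := by
  obtain ⟨K, hK⟩ := bd_D3
  simp only [phiChk, fz_eq, Bool.or_eq_true, Nat.ble_eq, allLT_iff, Bool.not_eq_true'] at hc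
  refine ⟨K * 64, fun V _ _ w a hm W ty ht => ?_⟩
  have hty : ∀ x ∈ W, ty x < 64 := fun x hx => (ht x hx).2.2.1
  have hS : ∀ x ∈ W, S.testBit (ty x) = true := fun x hx => (ht x hx).2.2.2.1
  have key : ∀ x ∈ W, ∀ p ∈ W, ∀ q ∈ W, ∀ r ∈ W, (flipG w.G ty φ).Adj p x →
      (flipG w.G ty φ).Adj q x → (flipG w.G ty φ).Adj r x → p ≠ q → p ≠ r → q ≠ r →
      ty q ≤ ty p → ty r ≤ ty q → False := by
    intro x hx p hp q hq r hr a1 a2 a3 n1 n2 n3 l1 l2
    refine h _ (hty x hx) V w a hm W ty ht (fun j => [x, p, q, r].getD j x) (fun j hj => ?_) rfl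
      (fun j hj => ?_) l1 l2
    · have := a1.ne'
      have := a2.ne'
      have := a3.ne'
      interval_cases j <;> refine ⟨by simpa, fun i hi => ?_⟩ <;> interval_cases i <;> simpa
    · interval_cases j
      exacts [a1, a2, a3]
  have w1 := hK V (flipG w.G ty φ) W fun P hP g hg => by
    obtain rfl : P = pD3 := by simpa using hP
    have i1 := hg.1 1 (by decide)
    have i2 := hg.1 2 (by decide)
    have i3 := hg.1 3 (by decide)
    have m0 := (hg.1 0 (by decide)).1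
    have ad : ∀ j < 3, (flipG w.G ty φ).Adj (g (j + 1)) (g 0) := fun j hj => by
      have := (hg.2 (j + 1) (Nat.succ_lt_succ hj) 0 (by norm_num) (by omega)).1 (by
        interval_cases j <;> rfl)
      rwa [bits_adj (by norm_num), zero_add] at this
    have a1 := ad 0 (by norm_num)
    have a2 := ad 1 (by norm_num)
    have a3 := ad 2 (by norm_num)
    have n1 := i2.2 1 (by norm_num)
    have n2 := i3.2 1 (by norm_num)
    have n3 := i3.2 2 (by norm_num)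
    have k := key _ m0
    rcases le_total (ty (g 1)) (ty (g 2)) with l1 | l1 <;>
      rcases le_total (ty (g 2)) (ty (g 3)) with l2 | l2 <;>
      rcases le_total (ty (g 1)) (ty (g 3)) with l3 | l3
    · exact k _ i3.1 _ i2.1 _ i1.1 a3 a2 a1 n3.symm n2.symm n1.symm l2 l1
    · exact k _ i3.1 _ i2.1 _ i1.1 a3 a2 a1 n3.symm n2.symm n1.symm l2 l1
    · exact k _ i2.1 _ i3.1 _ i1.1 a2 a3 a1 n3 n1.symm n2.symm l2 l3
    · exact k _ i2.1 _ i1.1 _ i3.1 a2 a1 a3 n1.symm n3 n2 l1 l3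
    · exact k _ i3.1 _ i1.1 _ i2.1 a3 a1 a2 n2.symm n3.symm n1 l3 l1
    · exact k _ i1.1 _ i3.1 _ i2.1 a1 a3 a2 n2 n1 n3.symm l3 l2
    · exact k _ i1.1 _ i2.1 _ i3.1 a1 a2 a3 n1 n2 n3 l1 l2
    · exact k _ i1.1 _ i2.1 _ i3.1 a1 a2 a3 n1 n2 n3 l1 l2
  refine r4_tr hty w1 fun x hx y _ e1 z hz hzx hzy h5 => ?_
  show w.G.Adj x z ∧ Mk M (ty x) (ty z) ∧ Mk M (ty z) (ty x) ↔
    w.G.Adj y z ∧ Mk M (ty y) (ty z) ∧ Mk M (ty z) (ty y)
  rw [← e1]
  refine and_congr_left fun h6 => ?_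
  have h7 : phi φ (ty x) (ty z) ≤ 1 := by
    rcases hc _ (hty x hx) with h7 | h7
    · rw [tb_eq, hS x hx] at h7
      exact absurd h7 (by simp)
    · rcases h7 _ (hty z hz) with h8 | h8
      · rw [(r4_act (hty z hz)).2 ⟨hS z hz, h6.1⟩] at h8
        exact absurd h8 (by simp)
      · exact h8
  rw [r4_flip, r4_flip, ← e1] at h5
  have h8 : phi φ (ty x) (ty z) = 0 ∨ phi φ (ty x) (ty z) = 1 := by omega
  rcases h8 with h8 | h8 <;>
    simp only [h8, hzx.symm, hzy.symm, ne_eq, not_false_eq_true, true_and, zero_ne_one,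
      one_ne_zero, false_and, or_false, false_or] at h5
  · exact h5
  · exact not_iff_not.1 h5

end Pool.Agent.Lib.MP_1595d8_lc
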