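import Pool.Agent.Lib.MP_1595d8_lc.H89EC0
import Pool.Agent.Lib.MP_1595d8_lc.H89EC1

set_option maxRecDepth 100000
set_option linter.unusedVariables false

namespace Pool.Agent.Lib.MP_1595d8_lc

noncomputable section

theorem er1_0 : Upto (RTat es4_0 el2 8589934591 eb4) 64 :=
  rt_step (lo := 0) (c := 64) (Upto.zero _) ec4

theorem ea1_0 : Upto (ALat es4_0 el2 8589934591 eb5) 24 :=
  al_step (lo := 0) (c := 24) er1_0 (Upto.zero _) ec5 (by decide)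

theorem ea1_1 : Upto (ALat es4_0 el2 8589934591 eb5) 44 :=
  al_step (lo := 24) (c := 20) er1_0 ea1_0 ec6 (by decide)

theorem ea1_2 : Upto (ALat es4_0 el2 8589934591 eb5) 64 :=
  al_step (lo := 44) (c := 20) er1_0 ea1_1 ec7 (by decide)

theorem err7 : Upto (RTat es4_0 el2 8589934587 eb4) 64 := (rt_mono er1_0 (by decide +kernel))

theorem eaa7 : Upto (ALat es4_0 el2 8589934587 eb5) 64 := (al_mono ea1_2 (by decide +kernel))

theorem et7_0 : TRR es4_0 el2 8589934587 em3 eb6 0 1 10 :=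
  tr_part (ly := 0) (cy := 10) err7 eaa7 (TRR.zero _ _ _ _ _ _ _) ec8

theorem et7_1 : TRR es4_0 el2 8589934587 em3 eb6 0 1 11 :=
  tr_part (ly := 10) (cy := 1) err7 eaa7 et7_0 ec9

theorem et7_2 : TRR es4_0 el2 8589934587 em3 eb6 0 1 12 :=
  tr_part (ly := 11) (cy := 1) err7 eaa7 et7_1 ec10

theorem et7_3 : TRR es4_0 el2 8589934587 em3 eb6 0 1 14 :=
  tr_part (ly := 12) (cy := 2) err7 eaa7 et7_2 ec11

theorem et7_4 : TRR es4_0 el2 8589934587 em3 eb6 0 1 16 :=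
  tr_part (ly := 14) (cy := 2) err7 eaa7 et7_3 ec12

theorem et7_5 : TRR es4_0 el2 8589934587 em3 eb6 0 1 18 :=
  tr_part (ly := 16) (cy := 2) err7 eaa7 et7_4 ec13

theorem et7_6 : TRR es4_0 el2 8589934587 em3 eb6 0 1 20 :=
  tr_part (ly := 18) (cy := 2) err7 eaa7 et7_5 ec14

theorem et7_7 : TRR es4_0 el2 8589934587 em3 eb6 0 1 25 :=
  tr_part (ly := 20) (cy := 5) err7 eaa7 et7_6 ec15

theorem et7_8 : TRR es4_0 el2 8589934587 em3 eb6 0 1 64 :=
  tr_part (ly := 25) (cy := 39) err7 eaa7 et7_7 ec16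

theorem et7_9 : Upto (TRat es4_0 el2 8589934587 em3 eb6) 1 :=
  tr_fin (lo := 0) (c := 1) (Upto.zero _) et7_8

theorem et7_10 : TRR es4_0 el2 8589934587 em3 eb6 1 5 64 :=
  tr_part (ly := 0) (cy := 64) err7 eaa7 (TRR.zero _ _ _ _ _ _ _) ec17

theorem et7_11 : Upto (TRat es4_0 el2 8589934587 em3 eb6) 6 :=
  tr_fin (lo := 1) (c := 5) et7_9 et7_10

theorem et7_12 : TRR es4_0 el2 8589934587 em3 eb6 6 18 64 :=
  tr_part (ly := 0) (cy := 64) err7 eaa7 (TRR.zero _ _ _ _ _ _ _) ec18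

theorem et7_13 : Upto (TRat es4_0 el2 8589934587 em3 eb6) 24 :=
  tr_fin (lo := 6) (c := 18) et7_11 et7_12

theorem et7_14 : TRR es4_0 el2 8589934587 em3 eb6 24 40 64 :=
  tr_part (ly := 0) (cy := 64) err7 eaa7 (TRR.zero _ _ _ _ _ _ _) ec19

theorem et7_15 : Upto (TRat es4_0 el2 8589934587 em3 eb6) 64 :=
  tr_fin (lo := 24) (c := 40) et7_13 et7_14

theorem eg8 (H : Bd [pW4, pGem, pP23] ∧ ∃ k, T1 k) : Good es4_0 el2 10 em7 :=
  good_clo bd3 ec20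

theorem eg9 (H : Bd [pW4, pGem, pP23] ∧ ∃ k, T1 k) : Good es4_0 el2 66 em8 :=
  good_clo bd3 ec21

theorem eg10 (H : Bd [pW4, pGem, pP23] ∧ ∃ k, T1 k) : Good es4_0 el2 130 em9 :=
  good_clo bd3 ec22

theorem eg11 (H : Bd [pW4, pGem, pP23] ∧ ∃ k, T1 k) : Good es4_0 el2 8194 em10 :=
  good_clo bd3 ec23

theorem eg12 (H : Bd [pW4, pGem, pP23] ∧ ∃ k, T1 k) : Good es4_0 el2 24 em11 :=
  good_clo bd3 ec24

theorem eg13 (H : Bd [pW4, pGem, pP23] ∧ ∃ k, T1 k) : Good es4_0 el2 40 em12 :=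
  good_clo bd3 ec25

theorem eg14 (H : Bd [pW4, pGem, pP23] ∧ ∃ k, T1 k) : Good es4_0 el2 536870920 em13 :=
  good_clo bd3 ec26

theorem eg15 (H : Bd [pW4, pGem, pP23] ∧ ∃ k, T1 k) : Good es4_0 el2 80 em14 :=
  good_clo bd3 ec27

theorem eg16 (H : Bd [pW4, pGem, pP23] ∧ ∃ k, T1 k) : Good es4_0 el2 144 em15 :=
  good_clo bd3 ec28

theorem eg17 (H : Bd [pW4, pGem, pP23] ∧ ∃ k, T1 k) : Good es4_0 el2 33554448 em16 :=
  good_clo bd3 ec29

theorem eg18 (H : Bd [pW4, pGem, pP23] ∧ ∃ k, T1 k) : Good es4_0 el2 96 em17 :=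
  good_clo bd3 ec30

theorem eg19 (H : Bd [pW4, pGem, pP23] ∧ ∃ k, T1 k) : Good es4_0 el2 160 em18 :=
  good_clo bd3 ec31

theorem eg20 (H : Bd [pW4, pGem, pP23] ∧ ∃ k, T1 k) : Good es4_0 el2 2097216 em19 :=
  good_clo bd3 ec32

theorem er2_0 : Upto (RTat es10_0 el27 1048575 eb28) 64 :=
  rt_step (lo := 0) (c := 64) (Upto.zero _) ec39

theorem ea2_0 : Upto (ALat es10_0 el27 1048575 eb29) 64 :=
  al_step (lo := 0) (c := 64) er2_0 (Upto.zero _) ec40 (by decide)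

theorem err29 : Upto (RTat es10_0 el27 1038015 eb28) 64 := (rt_mono er2_0 (by decide +kernel))

theorem eaa29 : Upto (ALat es10_0 el27 1038015 eb29) 64 := (al_mono ea2_0 (by decide +kernel))

theorem et29_0 : TRR es10_0 el27 1038015 em26 eb30 0 64 64 :=
  tr_part (ly := 0) (cy := 64) err29 eaa29 (TRR.zero _ _ _ _ _ _ _) ec41

theorem et29_1 : Upto (TRat es10_0 el27 1038015 em26 eb30) 64 :=
  tr_fin (lo := 0) (c := 64) (Upto.zero _) et29_0

theorem eg30 (H : Bd [pW4, pGem, pP23] ∧ ∃ k, T1 k) : Good es10_0 el27 18 em31 :=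
  good_clo bd3 ec42

theorem eg31 (H : Bd [pW4, pGem, pP23] ∧ ∃ k, T1 k) : Good es10_0 el27 20 em32 :=
  good_clo H.1 ec43

theorem eg33 (H : Bd [pW4, pGem, pP23] ∧ ∃ k, T1 k) : Good es10_0 (pk 256 [0x1]) 1 0x1 :=
  good_clo bd_P4 ec44

theorem eg32 (H : Bd [pW4, pGem, pP23] ∧ ∃ k, T1 k) : Good es10_0 el27 49152 em33 :=
  good_cov ec45 (eg33 H)

theorem err36 : Upto (RTat es10_0 el27 333487 eb28) 64 := (rt_mono er2_0 (by decide +kernel))

theorem eaa36 : Upto (ALat es10_0 el27 333487 eb29) 64 := (al_mono ea2_0 (by decide +kernel))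

theorem et36_0 : TRR es10_0 el27 333487 em34 eb37 0 16 64 :=
  tr_part (ly := 0) (cy := 64) err36 eaa36 (TRR.zero _ _ _ _ _ _ _) ec46

theorem et36_1 : Upto (TRat es10_0 el27 333487 em34 eb37) 16 :=
  tr_fin (lo := 0) (c := 16) (Upto.zero _) et36_0

theorem et36_2 : TRR es10_0 el27 333487 em34 eb37 16 48 64 :=
  tr_part (ly := 0) (cy := 64) err36 eaa36 (TRR.zero _ _ _ _ _ _ _) ec47

theorem et36_3 : Upto (TRat es10_0 el27 333487 em34 eb37) 64 :=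
  tr_fin (lo := 16) (c := 48) et36_1 et36_2

theorem eg37 (H : Bd [pW4, pGem, pP23] ∧ ∃ k, T1 k) : Good es10_0 el27 327694 em38 :=
  good_T1' H.2 (List.Mem.tail _ (List.Mem.tail _ (List.Mem.tail _ (List.Mem.tail _ (List.Mem.tail _ (List.Mem.tail _ (List.Mem.tail _ (List.Mem.tail _ (List.Mem.tail _ (List.Mem.tail _ (List.Mem.tail _ (List.Mem.tail _ (List.Mem.tail _ (List.Mem.tail _ (List.Mem.tail _ (List.Mem.tail _ (List.Mem.tail _ (List.Mem.tail _ (List.Mem.tail _ (List.Mem.head _)))))))))))))))))))) (rt_mono er2_0 (by decide +kernel)) ec48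

theorem eg38 (H : Bd [pW4, pGem, pP23] ∧ ∃ k, T1 k) : Good es10_0 el27 331810 em39 :=
  good_T1' H.2 (List.Mem.tail _ (List.Mem.tail _ (List.Mem.tail _ (List.Mem.tail _ (List.Mem.tail _ (List.Mem.tail _ (List.Mem.tail _ (List.Mem.tail _ (List.Mem.tail _ (List.Mem.tail _ (List.Mem.tail _ (List.Mem.tail _ (List.Mem.tail _ (List.Mem.tail _ (List.Mem.tail _ (List.Mem.tail _ (List.Mem.tail _ (List.Mem.tail _ (List.Mem.tail _ (List.Mem.head _)))))))))))))))))))) (rt_mono er2_0 (by decide +kernel)) ec49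

theorem eg39 (H : Bd [pW4, pGem, pP23] ∧ ∃ k, T1 k) : Good es10_0 el27 328834 em40 :=
  good_T1' H.2 (List.Mem.tail _ (List.Mem.tail _ (List.Mem.tail _ (List.Mem.tail _ (List.Mem.tail _ (List.Mem.tail _ (List.Mem.tail _ (List.Mem.tail _ (List.Mem.tail _ (List.Mem.tail _ (List.Mem.tail _ (List.Mem.tail _ (List.Mem.tail _ (List.Mem.tail _ (List.Mem.tail _ (List.Mem.tail _ (List.Mem.tail _ (List.Mem.tail _ (List.Mem.tail _ (List.Mem.head _)))))))))))))))))))) (rt_mono er2_0 (by decide +kernel)) ec50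

theorem eg40 (H : Bd [pW4, pGem, pP23] ∧ ∃ k, T1 k) : Good es10_0 el27 328195 em41 :=
  good_T1' H.2 (List.Mem.tail _ (List.Mem.tail _ (List.Mem.tail _ (List.Mem.tail _ (List.Mem.tail _ (List.Mem.tail _ (List.Mem.tail _ (List.Mem.tail _ (List.Mem.tail _ (List.Mem.tail _ (List.Mem.tail _ (List.Mem.tail _ (List.Mem.tail _ (List.Mem.tail _ (List.Mem.tail _ (List.Mem.tail _ (List.Mem.tail _ (List.Mem.tail _ (List.Mem.tail _ (List.Mem.head _)))))))))))))))))))) (rt_mono er2_0 (by decide +kernel)) ec51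

theorem eg36 (H : Bd [pW4, pGem, pP23] ∧ ∃ k, T1 k) : Good es10_0 el27 333487 em34 :=
  good_mach eaa36 et36_3 ec52
    (AllGood.cons (eg37 H) (AllGood.cons (eg38 H) (AllGood.cons (eg39 H) (AllGood.cons (eg40 H) (AllGood.nil _ _)))))

theorem eg35 (H : Bd [pW4, pGem, pP23] ∧ ∃ k, T1 k) : Good es10_0 el27 366255 em34 :=
  good_pen ec53 (eg36 H)

theorem eg34 (H : Bd [pW4, pGem, pP23] ∧ ∃ k, T1 k) : Good es10_0 el27 382639 em34 :=
  good_pen ec54 (eg35 H)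

theorem eg41 (H : Bd [pW4, pGem, pP23] ∧ ∃ k, T1 k) : Good es10_0 el27 656040 em35 :=
  good_clo H.1 ec55

theorem eg29 (H : Bd [pW4, pGem, pP23] ∧ ∃ k, T1 k) : Good es10_0 el27 1038015 em26 :=
  good_mach eaa29 et29_1 ec56
    (AllGood.cons (eg30 H) (AllGood.cons (eg31 H) (AllGood.cons (eg32 H) (AllGood.cons (eg34 H) (AllGood.cons (eg41 H) (AllGood.nil _ _))))))

theorem eg28 (H : Bd [pW4, pGem, pP23] ∧ ∃ k, T1 k) : Good es10_0 el27 1048575 em26 :=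
  good_sml ec57 (eg29 H)

theorem eg27 (H : Bd [pW4, pGem, pP23] ∧ ∃ k, T1 k) : Good es10_0 el2 268508979 em20 :=
  good_cov ec58 (eg28 H)

theorem des10d0_0 : DerTo es10 es10d0 16 :=
  DerTo.step (lo := 0) (c := 16) (DerTo.zero _ _) ec59

theorem des10d0 : Der es10 es10d0 := DerTo.fin des10d0_0 ec60

theorem eg26 (H : Bd [pW4, pGem, pP23] ∧ ∃ k, T1 k) : Good es9_0 el2 268508979 em20 :=
  good_flag ec38 (good_der des10d0 (eg27 H))

theorem des9d0_0 : DerTo es9 es9d0 3 :=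
  DerTo.step (lo := 0) (c := 3) (DerTo.zero _ _) ec61

theorem des9d0 : Der es9 es9d0 := DerTo.fin des9d0_0 ec62

theorem eg25 (H : Bd [pW4, pGem, pP23] ∧ ∃ k, T1 k) : Good es8_0 el2 268508979 em20 :=
  good_flag ec37 (good_der des9d0 (eg26 H))

theorem des8d0_0 : DerTo es8 es8d0 9 :=
  DerTo.step (lo := 0) (c := 9) (DerTo.zero _ _) ec63

theorem des8d0 : Der es8 es8d0 := DerTo.fin des8d0_0 ec64

theorem eg24 (H : Bd [pW4, pGem, pP23] ∧ ∃ k, T1 k) : Good es7_0 el2 268508979 em20 :=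
  good_flag ec36 (good_der des8d0 (eg25 H))

theorem des7d0_0 : DerTo es7 es7d0 9 :=
  DerTo.step (lo := 0) (c := 9) (DerTo.zero _ _) ec65

theorem des7d0 : Der es7 es7d0 := DerTo.fin des7d0_0 ec66

theorem eg23 (H : Bd [pW4, pGem, pP23] ∧ ∃ k, T1 k) : Good es6_0 el2 268508979 em20 :=
  good_flag ec35 (good_der des7d0 (eg24 H))

theorem des6d0_0 : DerTo es6 es6d0 10 :=
  DerTo.step (lo := 0) (c := 10) (DerTo.zero _ _) ec67

theorem des6d0 : Der es6 es6d0 := DerTo.fin des6d0_0 ec68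

theorem eg22 (H : Bd [pW4, pGem, pP23] ∧ ∃ k, T1 k) : Good es5_0 el2 268508979 em20 :=
  good_flag ec34 (good_der des6d0 (eg23 H))

theorem des5d0_0 : DerTo es5 es5d0 30 :=
  DerTo.step (lo := 0) (c := 30) (DerTo.zero _ _) ec69

theorem des5d0 : Der es5 es5d0 := DerTo.fin des5d0_0 ec70

theorem eg21 (H : Bd [pW4, pGem, pP23] ∧ ∃ k, T1 k) : Good es4_0 el2 268508979 em20 :=
  good_flag ec33 (good_der des5d0 (eg22 H))

theorem er4_0 : Upto (RTat es16_0 el44 4095 eb45) 64 :=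
  rt_step (lo := 0) (c := 64) (Upto.zero _) ec77

theorem ea4_0 : Upto (ALat es16_0 el44 4095 eb46) 64 :=
  al_step (lo := 0) (c := 64) er4_0 (Upto.zero _) ec78 (by decide)

theorem err50 : Upto (RTat es16_0 el44 4063 eb45) 64 := (rt_mono er4_0 (by decide +kernel))

theorem eaa50 : Upto (ALat es16_0 el44 4063 eb46) 64 := (al_mono ea4_0 (by decide +kernel))

theorem et50_0 : TRR es16_0 el44 4063 em43 eb47 0 64 64 :=
  tr_part (ly := 0) (cy := 64) err50 eaa50 (TRR.zero _ _ _ _ _ _ _) ec79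

theorem et50_1 : Upto (TRat es16_0 el44 4063 em43 eb47) 64 :=
  tr_fin (lo := 0) (c := 64) (Upto.zero _) et50_0

theorem eg51 (H : Bd [pW4, pGem, pP23] ∧ ∃ k, T1 k) : Good es16_0 el44 9 em48 :=
  good_clo bd3 ec80

theorem eg52 (H : Bd [pW4, pGem, pP23] ∧ ∃ k, T1 k) : Good es16_0 el44 10 em7 :=
  good_clo H.1 ec81

theorem eg54 (H : Bd [pW4, pGem, pP23] ∧ ∃ k, T1 k) : Good es16_0 (pk 256 [0x1]) 1 0x1 :=
  good_clo bd_P4 ec82

theorem eg53 (H : Bd [pW4, pGem, pP23] ∧ ∃ k, T1 k) : Good es16_0 el44 192 em49 :=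
  good_cov ec83 (eg54 H)

theorem eg58 (H : Bd [pW4, pGem, pP23] ∧ ∃ k, T1 k) : Good es16_0 el44 1287 em50 :=
  good_T1' H.2 (List.Mem.tail _ (List.Mem.tail _ (List.Mem.tail _ (List.Mem.tail _ (List.Mem.tail _ (List.Mem.tail _ (List.Mem.tail _ (List.Mem.tail _ (List.Mem.tail _ (List.Mem.tail _ (List.Mem.tail _ (List.Mem.tail _ (List.Mem.tail _ (List.Mem.tail _ (List.Mem.tail _ (List.Mem.tail _ (List.Mem.tail _ (List.Mem.tail _ (List.Mem.tail _ (List.Mem.head _)))))))))))))))))))) (rt_mono er4_0 (by decide +kernel)) ec84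

theorem eg57 (H : Bd [pW4, pGem, pP23] ∧ ∃ k, T1 k) : Good es16_0 el44 1415 em50 :=
  good_pen ec85 (eg58 H)

theorem eg56 (H : Bd [pW4, pGem, pP23] ∧ ∃ k, T1 k) : Good es16_0 el44 1479 em50 :=
  good_pen ec86 (eg57 H)

theorem eg55 (H : Bd [pW4, pGem, pP23] ∧ ∃ k, T1 k) : Good es16_0 el44 1495 em50 :=
  good_pen ec87 (eg56 H)

theorem eg59 (H : Bd [pW4, pGem, pP23] ∧ ∃ k, T1 k) : Good es16_0 el44 2580 em51 :=
  good_clo H.1 ec88

theorem eg50 (H : Bd [pW4, pGem, pP23] ∧ ∃ k, T1 k) : Good es16_0 el44 4063 em43 :=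
  good_mach eaa50 et50_1 ec89
    (AllGood.cons (eg51 H) (AllGood.cons (eg52 H) (AllGood.cons (eg53 H) (AllGood.cons (eg55 H) (AllGood.cons (eg59 H) (AllGood.nil _ _))))))

theorem eg49 (H : Bd [pW4, pGem, pP23] ∧ ∃ k, T1 k) : Good es16_0 el44 4095 em43 :=
  good_sml ec90 (eg50 H)

theorem eg48 (H : Bd [pW4, pGem, pP23] ∧ ∃ k, T1 k) : Good es16_0 el2 122883 em21 :=
  good_cov ec91 (eg49 H)

theorem des16d0_0 : DerTo es16 es16d0 10 :=
  DerTo.step (lo := 0) (c := 10) (DerTo.zero _ _) ec92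

theorem des16d0 : Der es16 es16d0 := DerTo.fin des16d0_0 ec93

theorem eg47 (H : Bd [pW4, pGem, pP23] ∧ ∃ k, T1 k) : Good es15_0 el2 122883 em21 :=
  good_flag ec76 (good_der des16d0 (eg48 H))

theorem des15d0_0 : DerTo es15 es15d0 3 :=
  DerTo.step (lo := 0) (c := 3) (DerTo.zero _ _) ec94

theorem des15d0 : Der es15 es15d0 := DerTo.fin des15d0_0 ec95

theorem eg46 (H : Bd [pW4, pGem, pP23] ∧ ∃ k, T1 k) : Good es14_0 el2 122883 em21 :=
  good_flag ec75 (good_der des15d0 (eg47 H))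

theorem des14d0_0 : DerTo es14 es14d0 5 :=
  DerTo.step (lo := 0) (c := 5) (DerTo.zero _ _) ec96

theorem des14d0 : Der es14 es14d0 := DerTo.fin des14d0_0 ec97

theorem eg45 (H : Bd [pW4, pGem, pP23] ∧ ∃ k, T1 k) : Good es13_0 el2 122883 em21 :=
  good_flag ec74 (good_der des14d0 (eg46 H))

theorem des13d0_0 : DerTo es13 es13d0 8 :=
  DerTo.step (lo := 0) (c := 8) (DerTo.zero _ _) ec98

theorem des13d0 : Der es13 es13d0 := DerTo.fin des13d0_0 ec99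

theorem eg44 (H : Bd [pW4, pGem, pP23] ∧ ∃ k, T1 k) : Good es12_0 el2 122883 em21 :=
  good_flag ec73 (good_der des13d0 (eg45 H))

theorem des12d0_0 : DerTo es12 es12d0 5 :=
  DerTo.step (lo := 0) (c := 5) (DerTo.zero _ _) ec100

theorem des12d0 : Der es12 es12d0 := DerTo.fin des12d0_0 ec101

theorem eg43 (H : Bd [pW4, pGem, pP23] ∧ ∃ k, T1 k) : Good es11_0 el2 122883 em21 :=
  good_flag ec72 (good_der des12d0 (eg44 H))

theorem des11d0_0 : DerTo es11 es11d0 11 :=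
  DerTo.step (lo := 0) (c := 11) (DerTo.zero _ _) ec102

theorem des11d0 : Der es11 es11d0 := DerTo.fin des11d0_0 ec103

theorem eg42 (H : Bd [pW4, pGem, pP23] ∧ ∃ k, T1 k) : Good es4_0 el2 122883 em21 :=
  good_flag ec71 (good_der des11d0 (eg43 H))

theorem des4d0_0 : DerTo es4 es4d0 101 :=
  DerTo.step (lo := 0) (c := 101) (DerTo.zero _ _) ec104

theorem des4d0_1 : DerTo es4 es4d0 205 :=
  DerTo.step (lo := 101) (c := 104) des4d0_0 ec105

theorem des4d0 : Der es4 es4d0 := DerTo.fin des4d0_1 ec106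

theorem eu21 (H : Bd [pW4, pGem, pP23] ∧ ∃ k, T1 k) : Good es4 el2 268508979 em20 :=
  (good_der des4d0 (eg21 H))

theorem ev60 (H : Bd [pW4, pGem, pP23] ∧ ∃ k, T1 k) : Good es4_0 el54 268508979 em20 :=
  (good_up (σ := es4) (t := es4d0) (good_sym ec107 ec108 (eu21 H)))

theorem eg60 (H : Bd [pW4, pGem, pP23] ∧ ∃ k, T1 k) : Good es4_0 el2 4313711049 em22 :=
  good_cov ec109 (ev60 H)

theorem eu42 (H : Bd [pW4, pGem, pP23] ∧ ∃ k, T1 k) : Good es4 el2 122883 em21 :=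
  (good_der des4d0 (eg42 H))

theorem ev61 (H : Bd [pW4, pGem, pP23] ∧ ∃ k, T1 k) : Good es4_0 el56 122883 em21 :=
  (good_up (σ := es4) (t := es4d0) (good_sym ec107 ec110 (eu42 H)))

theorem eg61 (H : Bd [pW4, pGem, pP23] ∧ ∃ k, T1 k) : Good es4_0 el2 31457345 em23 :=
  good_cov ec111 (ev61 H)

theorem ev62 (H : Bd [pW4, pGem, pP23] ∧ ∃ k, T1 k) : Good es4_0 el58 122883 em21 :=
  (good_up (σ := es4) (t := es4d0) (good_sym ec112 ec113 (eu42 H)))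

theorem eg62 (H : Bd [pW4, pGem, pP23] ∧ ∃ k, T1 k) : Good es4_0 el2 503316497 em24 :=
  good_cov ec114 (ev62 H)

theorem ev63 (H : Bd [pW4, pGem, pP23] ∧ ∃ k, T1 k) : Good es4_0 el60 122883 em21 :=
  (good_up (σ := es4) (t := es4d0) (good_sym ec115 ec116 (eu42 H)))

theorem eg63 (H : Bd [pW4, pGem, pP23] ∧ ∃ k, T1 k) : Good es4_0 el2 8053063689 em25 :=
  good_cov ec117 (ev63 H)

theorem eg7 (H : Bd [pW4, pGem, pP23] ∧ ∃ k, T1 k) : Good es4_0 el2 8589934587 em3 :=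
  good_mach eaa7 et7_15 ec118
    (AllGood.cons (eg8 H) (AllGood.cons (eg9 H) (AllGood.cons (eg10 H) (AllGood.cons (eg11 H) (AllGood.cons (eg12 H) (AllGood.cons (eg13 H) (AllGood.cons (eg14 H) (AllGood.cons (eg15 H) (AllGood.cons (eg16 H) (AllGood.cons (eg17 H) (AllGood.cons (eg18 H) (AllGood.cons (eg19 H) (AllGood.cons (eg20 H) (AllGood.cons (eg21 H) (AllGood.cons (eg42 H) (AllGood.cons (eg60 H) (AllGood.cons (eg61 H) (AllGood.cons (eg62 H) (AllGood.cons (eg63 H) (AllGood.nil _ _))))))))))))))))))))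

theorem eg6 (H : Bd [pW4, pGem, pP23] ∧ ∃ k, T1 k) : Good es4_0 el2 8589934587 em1 :=
  good_drop (rt_mono er1_0 (by decide +kernel)) ec119 (eg7 H)

theorem eg5 (H : Bd [pW4, pGem, pP23] ∧ ∃ k, T1 k) : Good es4_0 el2 8589934591 em1 :=
  good_sml ec120 (eg6 H)

theorem eg4 (H : Bd [pW4, pGem, pP23] ∧ ∃ k, T1 k) : Good es4_0 0 1 1 :=
  good_cov ec121 (eg5 H)

theorem eg3 (H : Bd [pW4, pGem, pP23] ∧ ∃ k, T1 k) : Good es3 0 1 1 :=
  good_flag ec3 (good_der des4d0 (eg4 H))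

theorem eg2 (H : Bd [pW4, pGem, pP23] ∧ ∃ k, T1 k) : Good es2 0 1 1 :=
  good_flag ec2 (eg3 H)

theorem eg1 (H : Bd [pW4, pGem, pP23] ∧ ∃ k, T1 k) : Good es1 0 1 1 :=
  good_ori ec1 (eg2 H)

theorem eg0 (H : Bd [pW4, pGem, pP23] ∧ ∃ k, T1 k) : Good es0 0 1 1 :=
  good_flag ec0 (eg1 H)

theorem stage_w4 (H : Bd [pW4, pGem, pP23] ∧ ∃ k, T1 k) : Bd [pGem, pP23] :=
  bd_stage (t := etP) (n0 := 5) (c0 := ec00) H.1 (by simp) (by simp) kills (by decide +kernel) (eg0 H)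

end

end Pool.Agent.Lib.MP_1595d8_lc
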