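import Mathlib
import Pool.Agent.Lib.MP_1595d8_lc.H89R1

/-!
Rules that introduce flags and case distinctions.
-/

namespace Pool.Agent.Lib.MP_1595d8_lc

open Finset Pool.Agent.Lib.MP_042ec1_co

variable {σ : St} {LL S M : ℕ}

/-- The world with a new meaning of the flag `nb`. -/
def r2ext {V : Type} (w : Wld V) (nb : ℕ) (P : V → Prop) : Wld V :=
  ⟨w.G, w.U, fun x b => if b = nb then P x else w.τ x b⟩

theorem r2_small {r nb : ℕ} :
    Nat.beq (Nat.shiftRight r (Nat.mul 2 nb)) 0 = true ↔ r < 2 ^ (2 * nb) := by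
  rw [Nat.beq_eq]
  change r >>> (2 * nb) = 0 ↔ _
  rw [Nat.shiftRight_eq_div_pow, Nat.div_eq_zero_iff]
  simp

theorem r2_wfL {nb : ℕ} {rs : List ℕ} : wfL nb rs = true ↔ ∀ r ∈ rs, r < 2 ^ (2 * nb) := by
  induction rs with
  | nil => simp [wfL]
  | cons r rs ih =>
    change (Nat.beq (Nat.shiftRight r (Nat.mul 2 nb)) 0 && wfL nb rs) = true ↔ _
    rw [Bool.and_eq_true, r2_small, ih, List.forall_mem_cons]

theorem r2_wfF {nb m : ℕ} {rs : List ℕ} {alts : List (List ℕ)} :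
    wfF nb ⟨m, rs, alts⟩ = true ↔
      (∀ r ∈ rs, r < 2 ^ (2 * nb)) ∧ ∀ l ∈ alts, ∀ r ∈ l, r < 2 ^ (2 * nb) := by
  unfold wfF
  rw [Bool.and_eq_true, r2_wfL]
  refine and_congr_right fun _ => ?_
  induction alts with
  | nil => simp
  | cons l alts ih =>
    change (wfL nb l && _) = true ↔ _
    rw [Bool.and_eq_true, r2_wfL, List.forall_mem_cons]
    exact and_congr_right fun _ => ih ‹_›

theorem r2_succ {r nb : ℕ} (h : r < 2 ^ (2 * nb)) : r < 2 ^ (2 * (nb + 1)) :=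
  h.trans_le (Nat.pow_le_pow_right (by norm_num) (by omega))

theorem r2_wfF_succ {nb : ℕ} {φ : Fact} (h : wfF nb φ = true) : wfF (nb + 1) φ = true := by
  obtain ⟨m, rs, alts⟩ := φ
  rw [r2_wfF] at h ⊢
  exact ⟨fun r hr => r2_succ (h.1 r hr), fun l hl r hr => r2_succ (h.2 l hl r hr)⟩

theorem r2_lor {A B k : ℕ} (hA : A < 2 ^ k) (hB : B < 2 ^ k) : Nat.lor A B < 2 ^ k :=
  Nat.or_lt_two_pow hA hB

theorem r2_shift {c e b nb : ℕ} (hc : c < 2 ^ e) (h : e + 2 * b ≤ 2 * nb) :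
    Nat.shiftLeft c (Nat.mul 2 b) < 2 ^ (2 * nb) := by
  change c <<< (2 * b) < _
  rw [Nat.shiftLeft_eq]
  calc c * 2 ^ (2 * b) < 2 ^ e * 2 ^ (2 * b) := Nat.mul_lt_mul_of_pos_right hc (by positivity)
    _ = 2 ^ (e + 2 * b) := (pow_add _ _ _).symm
    _ ≤ _ := Nat.pow_le_pow_right (by norm_num) h

section
variable {V : Type} {w : Wld V} {nb : ℕ} {P : V → Prop} {a f : ℕ → V}

theorem r2_lit {x : V} {b : ℕ} (hb : b ≠ nb) : lit (r2ext w nb P) f x b ↔ lit w f x b := by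
  unfold lit r2ext
  simp only [if_neg hb]

theorem r2_lit_nb {x : V} (h : 32 ≤ nb) : lit (r2ext w nb P) f x nb ↔ P x := by
  unfold lit r2ext
  simp only [if_neg (not_lt.2 h), if_true]

theorem r2_row {i r : ℕ} {x : V} (h : r < 2 ^ (2 * nb)) :
    RowOK (r2ext w nb P) f i x r ↔ RowOK w f i x r := by
  refine forall_congr' fun b => forall_congr' fun _ => forall_congr' fun _ => ?_
  by_cases hb : b = nb
  · subst hb
    rw [Nat.testBit_lt_two_pow h, Nat.testBit_lt_two_pow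
      (h.trans_le (Nat.pow_le_pow_right (by norm_num) (Nat.le_succ _)))]
    simp
  · rw [r2_lit hb]

theorem r2_sat {m : ℕ} {rs : List ℕ} (h : ∀ r ∈ rs, r < 2 ^ (2 * nb)) :
    SatL (r2ext w nb P) f m rs ↔ SatL w f m rs := by
  refine and_congr Iff.rfl (forall_congr' fun j => forall_congr' fun hj => r2_row (h _ ?_))
  rw [List.getD_eq_getElem _ _ hj]
  exact List.getElem_mem hj

theorem r2_ext {m k : ℕ} {alts : List (List ℕ)} (h : ∀ l ∈ alts, ∀ r ∈ l, r < 2 ^ (2 * nb)) :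
    Ext (r2ext w nb P) f m k alts ↔ Ext w f m k alts :=
  exists_congr fun l => and_congr_right fun hl => exists_congr fun _ =>
    and_congr_right fun _ => r2_sat (h l hl)

theorem r2_holds {φ : Fact} (h : wfF nb φ = true) (h' : Holds w a φ) :
    Holds (r2ext w nb P) a φ := by
  obtain ⟨m, rs, alts⟩ := φ
  rw [r2_wfF] at h
  exact fun f h1 h2 => (r2_ext h.2).2 (h' f h1 ((r2_sat h.1).1 h2))

theorem r2_valid {t : FT} {l : List Fact} (h : t.all (memF l) = true)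
    (hl : ∀ φ ∈ l, wfF nb φ = true ∧ Holds w a φ) : Valid w a nb t := by
  intro i
  rcases FT.get_of_all h i with h1 | h1
  · rw [h1]
    exact ⟨rfl, holds_triv w a⟩
  · exact hl _ (memF_sound h1)

theorem r2_pos {i b : ℕ} {x : V} (h : RowOK w f i x (Nat.shiftLeft 1 (Nat.mul 2 b)))
    (hb : b < 128) (hi : b < i ∨ 32 ≤ b) : lit w f x b := by
  refine (h b hb hi).1 ?_
  change (1 <<< (2 * b)).testBit _ = true
  simp [Nat.testBit_shiftLeft]

theorem r2_neg {i b : ℕ} {x : V} (h : RowOK w f i x (Nat.shiftLeft 2 (Nat.mul 2 b)))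
    (hb : b < 128) (hi : b < i ∨ 32 ≤ b) : ¬ lit w f x b := by
  refine (h b hb hi).2 ?_
  change (2 <<< (2 * b)).testBit _ = true
  rw [Nat.testBit_shiftLeft, Nat.add_sub_cancel_left]
  simp only [ge_iff_le, Nat.le_succ, decide_true, Bool.true_and]
  rfl

theorem r2_down {i r : ℕ} {x : V} (h : RowOK w f (i + 1) x r) : RowOK w f i x r :=
  fun b hb hi => h b hb (hi.imp_left Nat.lt_succ_of_lt)

theorem r2_adj {i b : ℕ} {x : V} (hb : b < 32) (h : w.G.Adj x (f b)) :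
    RowOK w f i x (Nat.shiftLeft 1 (Nat.mul 2 b)) := by
  refine rowOK_cell (by norm_num) ⟨fun _ => ?_, fun h => absurd h (by decide)⟩
  unfold lit
  rwa [if_pos hb]

end

theorem r2_fresh (h : fresh σ LL = true) : 32 ≤ σ.nb ∧ σ.nb < 128 ∧ σ.n0 ≤ 30 ∧
    (∀ t < 64, row LL t < 2 ^ (2 * σ.nb)) ∧ ∀ i < σ.n0, row σ.c0 i < 2 ^ (2 * σ.nb) := by
  unfold fresh at h
  simp only [fz_eq, Bool.and_eq_true, allLT_iff, r2_small, Nat.ble_eq, Nat.blt_eq] at h
  exact h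

theorem r2_new {t : FT} (h : fresh σ LL = true)
    (hv : ∀ (V : Type) [DecidableEq V] [Fintype V] (w : Wld V) (a : ℕ → V), Models w a σ →
      ∃ P, Valid (r2ext w σ.nb P) a (σ.nb + 1) t)
    (hg : Good (σ.add 1 t) LL S M) : Good σ LL S M := by
  obtain ⟨-, -, -, h4, h5⟩ := r2_fresh h
  obtain ⟨K, hK⟩ := hg
  refine ⟨K, fun V _ _ w a hm W ty hty => ?_⟩
  obtain ⟨P, hP⟩ := hv V w a hm
  obtain ⟨m1, m2, m3, m4⟩ := hm
  refine hK V (r2ext w σ.nb P) a ⟨m1, fun i hi => (r2_row (h5 i hi)).2 (m2 i hi), m3, ?_⟩ W ty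
    fun x hx => ?_
  · intro t' ht'
    rcases List.mem_cons.1 ht' with rfl | ht'
    · exact hP
    · exact fun i => ⟨r2_wfF_succ (m4 t' ht' i).1, r2_holds (m4 t' ht' i).1 (m4 t' ht' i).2⟩
  · obtain ⟨a1, a2, a3, a4, a5⟩ := hty x hx
    exact ⟨a1, a2, a3, a4, (r2_row (h4 _ a3)).2 a5⟩

theorem good_flag {alts : List (List ℕ)} {t : FT} (h : flagChk σ LL alts t = true)
    (hg : Good (σ.add 1 t) LL S M) : Good σ LL S M := by
  unfold flagChk at h
  simp only [Bool.and_eq_true, r2_wfF, List.all_eq_true, Nat.blt_eq, len_eq] at h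
  obtain ⟨h1, ⟨-, h2⟩, h3, h4⟩ := h
  obtain ⟨b1, b2, -, -, -⟩ := r2_fresh h1
  refine r2_new h1 (fun V _ _ w a _ => ⟨fun x => ∃ alt ∈ alts, ∃ g : ℕ → V,
    (∀ i < σ.n0, g i = a i) ∧ g σ.n0 = x ∧ SatL w g σ.n0 alt, r2_valid h4 fun φ hφ => ?_⟩) hg
  rcases List.mem_cons.1 hφ with rfl | hφ
  · refine ⟨r2_wfF.2 ⟨?_, fun l hl r hr => r2_succ (h2 l hl r hr)⟩, fun f e hs => ?_⟩
    · intro r hr
      rw [List.mem_singleton.1 hr]
      exact r2_shift (e := 2) (by norm_num) (by omega)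
    · obtain ⟨alt, c1, g, c2, c3, c4⟩ :=
        (r2_lit_nb b1).1 (r2_pos (hs.2 0 Nat.one_pos) b2 (Or.inr b1))
      refine ⟨alt, c1, g, fun i hi => ?_, (r2_sat (h2 alt c1)).2 c4⟩
      rcases Nat.lt_succ_iff_lt_or_eq.1 hi with hi | rfl
      · rw [c2 i hi, e i hi]
      · exact c3
  · obtain ⟨alt, c1, rfl⟩ := List.mem_map.1 hφ
    obtain _ | ⟨r, rs⟩ := alt
    · exact absurd (h3 _ c1) (lt_irrefl _)
    have c2 := h2 _ c1
    refine ⟨r2_wfF.2 ⟨?_, fun l hl => absurd hl List.not_mem_nil⟩, fun f e hs => ?_⟩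
    · intro r' hr
      rcases List.mem_cons.1 hr with rfl | hr
      · exact r2_lor (r2_succ (c2 r List.mem_cons_self))
          (r2_shift (e := 2) (by norm_num) (by omega))
      · exact r2_succ (c2 r' (List.mem_cons_of_mem _ hr))
    · obtain ⟨c3, c4⟩ := rowOK_lor.1 (hs.2 0 (Nat.succ_pos _))
      refine absurd ((r2_lit_nb b1).2 ⟨r :: rs, c1, f, e, rfl, (r2_sat c2).1 ⟨hs.1, ?_⟩⟩)
        (r2_neg c4 b2 (Or.inr b1))
      rintro (_ | j) hj
      · exact c3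
      · exact hs.2 (j + 1) hj

/-- A third vertex is added behind two given ones. -/
theorem r2_three {V : Type} {w : Wld V} {f : ℕ → V} {n r₀ r₁ r₂ : ℕ} {z : V}
    (hI : Inj w f (n + 2)) (hz : z ∈ w.U) (hne : ∀ j < n + 2, f j ≠ z)
    (h₀ : RowOK w f n (f n) r₀) (h₁ : RowOK w f (n + 1) (f (n + 1)) r₁)
    (h₂ : RowOK w f (n + 2) z r₂) :
    ∃ g : ℕ → V, (∀ i < n + 2, g i = f i) ∧ SatL w g n [r₀, r₁, r₂] := by
  have e : ∀ i < n + 2, Function.update f (n + 2) z i = f i := fun i hi =>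
    Function.update_of_ne hi.ne _ _
  refine ⟨Function.update f (n + 2) z, e, fun i hi => ?_, fun j hj => ?_⟩
  · rcases Nat.lt_succ_iff_lt_or_eq.1 (show i < n + 2 + 1 from hi) with hi | rfl
    · rw [e i hi]
      refine ⟨(hI i hi).1, fun j hj => ?_⟩
      rw [e j (hj.trans hi)]
      exact (hI i hi).2 j hj
    · rw [Function.update_self]
      refine ⟨hz, fun j hj => ?_⟩
      rw [e j hj]
      exact hne j hj
  · obtain rfl | rfl | rfl : j = 0 ∨ j = 1 ∨ j = 2 := by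
      have : j < 3 := hj
      omega
    · rw [e _ (by omega)]
      exact h₀.congr fun i hi => e i (by omega)
    · rw [e _ (by omega)]
      exact h₁.congr fun i hi => e i (by omega)
    · rw [Function.update_self]
      exact h₂.congr e

theorem good_ori {As : List ℕ} {t : FT} (h : oriChk σ LL As t = true)
    (hg : Good (σ.add 1 t) LL S M) : Good σ LL S M := by
  unfold oriChk at h
  simp only [Bool.and_eq_true, r2_wfL, List.all_eq_true, Nat.beq_eq] at h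
  obtain ⟨h1, h2, h3, h4⟩ := h
  obtain ⟨b1, b2, b3, -, -⟩ := r2_fresh h1
  refine r2_new h1 (fun V _ _ w a _ => ⟨fun x => ∃ y ∈ w.U, (∀ i < σ.n0, a i ≠ y) ∧ ∃ B ∈ As,
    RowOK w a σ.n0 x B ∧ RowOK w a σ.n0 y B ∧ w.G.Adj x y ∧
      Fintype.equivFin V x < Fintype.equivFin V y, r2_valid h4 fun φ hφ => ?_⟩) hg
  obtain ⟨A, hA, hφ⟩ := List.mem_flatMap.1 hφ
  have s0 : ∀ B ∈ As, B < 2 ^ (2 * (σ.nb + 1)) := fun B hB => r2_succ (h2 B hB)
  have s1 : Nat.shiftLeft 1 (Nat.mul 2 σ.nb) < 2 ^ (2 * (σ.nb + 1)) :=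
    r2_shift (e := 2) (by norm_num) (by omega)
  have s2 : Nat.shiftLeft 2 (Nat.mul 2 σ.nb) < 2 ^ (2 * (σ.nb + 1)) :=
    r2_shift (e := 2) (by norm_num) (by omega)
  have s3 : Nat.shiftLeft 1 (Nat.mul 2 σ.n0) < 2 ^ (2 * (σ.nb + 1)) :=
    r2_shift (e := 2) (by norm_num) (by omega)
  have s4 : Nat.shiftLeft 4 (Nat.mul 2 σ.n0) < 2 ^ (2 * (σ.nb + 1)) :=
    r2_shift (e := 3) (by norm_num) (by omega)
  have hlt : ∀ x y : V, x ≠ y → Fintype.equivFin V x < Fintype.equivFin V y ∨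
      Fintype.equivFin V y < Fintype.equivFin V x := fun x y hxy =>
    lt_or_gt_of_ne fun h => hxy ((Fintype.equivFin V).injective h)
  rcases List.mem_cons.1 hφ with rfl | hφ
  · refine ⟨r2_wfF.2 ⟨?_, fun l hl => absurd hl List.not_mem_nil⟩, fun f e hs => ?_⟩
    · simp only [List.forall_mem_cons]
      exact ⟨r2_lor (s0 A hA) s2, r2_lor (r2_lor (s0 A hA) s2) s3,
        fun _ hl => absurd hl List.not_mem_nil⟩
    · exfalso
      have e' : ∀ i < σ.n0, a i = f i := fun i hi => (e i hi).symm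
      obtain ⟨c1, c2⟩ := rowOK_lor.1 (hs.2 0 Nat.two_pos)
      obtain ⟨c3, c5⟩ := rowOK_lor.1 (hs.2 1 Nat.one_lt_two)
      obtain ⟨c3, c4⟩ := rowOK_lor.1 c3
      have d1 : RowOK w a σ.n0 (f σ.n0) A := ((r2_row (h2 A hA)).1 c1).congr e'
      have d3 : RowOK w a σ.n0 (f (σ.n0 + 1)) A := (r2_down ((r2_row (h2 A hA)).1 c3)).congr e'
      have d5 : w.G.Adj (f (σ.n0 + 1)) (f σ.n0) := by
        have := r2_pos c5 (by omega) (Or.inl (Nat.lt_succ_self _))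
        unfold lit at this
        rwa [if_pos (by omega)] at this
      have i0 := hs.1 σ.n0 (by simp)
      have i1 := hs.1 (σ.n0 + 1) (by simp)
      rcases hlt _ _ d5.ne with hl | hl
      · exact r2_neg c4 b2 (Or.inr b1) ((r2_lit_nb b1).2
          ⟨_, i0.1, fun i hi => e' i hi ▸ i0.2 i hi, A, hA, d3, d1, d5, hl⟩)
      · exact r2_neg c2 b2 (Or.inr b1) ((r2_lit_nb b1).2
          ⟨_, i1.1, fun i hi => e' i hi ▸ i1.2 i (by omega), A, hA, d1, d3, d5.symm, hl⟩)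
  · rw [List.mem_singleton.1 hφ]
    refine ⟨r2_wfF.2 ⟨?_, fun l hl => ?_⟩, fun f e hs => ?_⟩
    · simp only [List.forall_mem_cons]
      exact ⟨r2_lor (s0 A hA) s1, r2_lor (r2_lor (s0 A hA) s1) s3,
        fun _ hl => absurd hl List.not_mem_nil⟩
    · obtain ⟨B, hB, hl⟩ := List.mem_flatMap.1 hl
      rcases List.mem_cons.1 hl with rfl | hl
      · simp only [List.forall_mem_cons]
        exact ⟨s0 B hB, by positivity, r2_lor (s0 B hB) s3,
          fun _ hl => absurd hl List.not_mem_nil⟩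
      · rw [List.mem_singleton.1 hl]
        simp only [List.forall_mem_cons]
        exact ⟨by positivity, s0 B hB, r2_lor (s0 B hB) s4,
          fun _ hl => absurd hl List.not_mem_nil⟩
    · obtain ⟨-, c2⟩ := rowOK_lor.1 (hs.2 0 Nat.two_pos)
      obtain ⟨c3, -⟩ := rowOK_lor.1 (hs.2 1 Nat.one_lt_two)
      obtain ⟨-, c4⟩ := rowOK_lor.1 c3
      have p0 := (r2_lit_nb b1).1 (r2_pos c2 b2 (Or.inr b1))
      have p1 := (r2_lit_nb b1).1 (r2_pos c4 b2 (Or.inr b1))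
      have i1 := hs.1 (σ.n0 + 1) (by simp)
      have lb : ∀ B ∈ As, ∀ (P : V → Prop) (x : V) (i : ℕ), RowOK w a σ.n0 x B →
          RowOK (r2ext w σ.nb P) f i x B := fun B hB P x i hx => by
        have := hx.lab e i
        rw [h3 B hB] at this
        exact (r2_row (h2 B hB)).2 this
      have hne : ∀ z : V, (∀ i < σ.n0, a i ≠ z) →
          Fintype.equivFin V (f σ.n0) < Fintype.equivFin V z →
          Fintype.equivFin V (f (σ.n0 + 1)) < Fintype.equivFin V z →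
          ∀ j < σ.n0 + 2, f j ≠ z := by
        intro z q1 q2 q3 j hj
        obtain hj | rfl | rfl : j < σ.n0 ∨ j = σ.n0 ∨ j = σ.n0 + 1 := by omega
        · exact e j hj ▸ q1 j hj
        · rintro rfl
          exact lt_irrefl _ q2
        · rintro rfl
          exact lt_irrefl _ q3
      rcases hlt _ _ (i1.2 σ.n0 (Nat.lt_succ_self _)) with hl | hl
      · obtain ⟨z, q1, q2, B, hB, q3, q4, q5, q6⟩ := p1
        refine ⟨_, List.mem_flatMap.2 ⟨B, hB, List.mem_cons_of_mem _ List.mem_cons_self⟩,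
          r2_three hs.1 q1 (hne z q2 (hl.trans q6) q6) rowOK_zero (lb B hB _ _ _ q3)
            (rowOK_lor.2 ⟨lb B hB _ _ _ q4, ?_⟩)⟩
        have e4 : Nat.shiftLeft 4 (Nat.mul 2 σ.n0) = Nat.shiftLeft 1 (Nat.mul 2 (σ.n0 + 1)) := by
          change 4 <<< (2 * σ.n0) = 1 <<< (2 * (σ.n0 + 1))
          rw [Nat.shiftLeft_eq, Nat.shiftLeft_eq]
          ring
        rw [e4]
        exact r2_adj (by omega) q5.symm
      · obtain ⟨z, q1, q2, B, hB, q3, q4, q5, q6⟩ := p0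
        exact ⟨_, List.mem_flatMap.2 ⟨B, hB, List.mem_cons_self⟩,
          r2_three hs.1 q1 (hne z q2 q6 (hl.trans q6)) (lb B hB _ _ _ q3) rowOK_zero
            (rowOK_lor.2 ⟨lb B hB _ _ _ q4, r2_adj (by omega) q5.symm⟩)⟩

theorem good_gsp {alts : List (List ℕ)} {t₀ t₁ : FT} (h : gspChk σ alts t₀ t₁ = true)
    (h₀ : Good (σ.add 0 t₀) LL S M) (h₁ : Good (σ.add 0 t₁) LL S M) : Good σ LL S M := by
  unfold gspChk at h
  simp only [Bool.and_eq_true, r2_wfF] at h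
  obtain ⟨⟨-, h2⟩, h3, h4⟩ := h
  obtain ⟨K₀, hK₀⟩ := h₀
  obtain ⟨K₁, hK₁⟩ := h₁
  refine ⟨max K₀ K₁, fun V _ _ w a hm W ty hty => ?_⟩
  obtain ⟨m1, m2, m3, m4⟩ := hm
  by_cases hE : Ext w a σ.n0 σ.n0 alts
  · refine (hK₁ V w a ⟨m1, m2, m3, List.forall_mem_cons.2 ⟨r2_valid h4 fun φ hφ => ?_, m4⟩⟩
      W ty hty).mono (le_max_right _ _)
    rw [List.mem_singleton.1 hφ]
    refine ⟨r2_wfF.2 ⟨fun _ hl => absurd hl List.not_mem_nil, h2⟩, fun f e _ => ?_⟩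
    obtain ⟨alt, c1, g, c2, c3⟩ := hE
    exact ⟨alt, c1, g, fun i hi => (c2 i hi).trans (e i hi).symm, c3⟩
  · refine (hK₀ V w a ⟨m1, m2, m3, List.forall_mem_cons.2 ⟨r2_valid h3 fun φ hφ => ?_, m4⟩⟩
      W ty hty).mono (le_max_left _ _)
    obtain ⟨alt, c1, rfl⟩ := List.mem_map.1 hφ
    exact ⟨r2_wfF.2 ⟨h2 alt c1, fun _ hl => absurd hl List.not_mem_nil⟩,
      fun f e hs => absurd ⟨alt, c1, f, e, hs⟩ hE⟩

end Pool.Agent.Lib.MP_1595d8_lc
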