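import Pool.Agent.Lib.MP_1595d8_lc.H89SC0

set_option maxRecDepth 100000
set_option linter.unusedVariables false

namespace Pool.Agent.Lib.MP_1595d8_lc

noncomputable section

theorem sr0_0 : Upto (RTat ss0_0 sl2 63 sb4) 64 :=
  rt_step (lo := 0) (c := 64) (Upto.zero _) sc0

theorem sa0_0 : Upto (ALat ss0_0 sl2 63 sb5) 64 :=
  al_step (lo := 0) (c := 64) sr0_0 (Upto.zero _) sc1 (by decide)

theorem srr1 : Upto (RTat ss0_0 sl2 63 sb4) 64 := sr0_0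

theorem saa1 : Upto (ALat ss0_0 sl2 63 sb5) 64 := sa0_0

theorem st1_0 : TRR ss0_0 sl2 63 sm3 sb6 0 64 64 :=
  tr_part (ly := 0) (cy := 64) srr1 saa1 (TRR.zero _ _ _ _ _ _ _) sc2

theorem st1_1 : Upto (TRat ss0_0 sl2 63 sm3 sb6) 64 :=
  tr_fin (lo := 0) (c := 64) (Upto.zero _) st1_0

theorem sg2 (H : Bd [pW4, pGem, pP23]) : Good ss0_0 sl2 3 0x10000000000000002 :=
  good_clo bd3 sc3

theorem sg3 (H : Bd [pW4, pGem, pP23]) : Good ss0_0 sl2 33 sm7 :=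
  good_clo H sc4

theorem sg4 (H : Bd [pW4, pGem, pP23]) : Good ss0_0 sl2 13 sm8 :=
  good_clo H sc5

theorem sg5 (H : Bd [pW4, pGem, pP23]) : Good ss0_0 sl2 22 sm9 :=
  good_T2' (List.Mem.tail _ (List.Mem.tail _ (List.Mem.head _))) (rt_mono sr0_0 (by decide +kernel)) sc6

theorem sg1 (H : Bd [pW4, pGem, pP23]) : Good ss0_0 sl2 63 sm3 :=
  good_mach saa1 st1_1 sc7
    (AllGood.cons (sg2 H) (AllGood.cons (sg3 H) (AllGood.cons (sg4 H) (AllGood.cons (sg5 H) (AllGood.nil _ _)))))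

theorem sg0 (H : Bd [pW4, pGem, pP23]) : Good ss0_0 sl2 63 sm1 :=
  good_drop sr0_0 sc8 (sg1 H)

theorem dss0d0_0 : DerTo ss0 ss0d0 15 :=
  DerTo.step (lo := 0) (c := 15) (DerTo.zero _ _) sc9

theorem dss0d0 : Der ss0 ss0d0 := DerTo.fin dss0d0_0 sc10

theorem stage_star (H : Bd [pW4, pGem, pP23]) : ∃ k, T1 k :=
  T1_of_good (M := sm1) (by decide +kernel) (good_der dss0d0 (sg0 H))

end

end Pool.Agent.Lib.MP_1595d8_lc
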