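import Mathlib
import Pool.Agent.Lib.MP_1595d8_lc.H89R4

/-!
Permutations of the constants.
-/

namespace Pool.Agent.Lib.MP_1595d8_lc

open Finset Pool.Agent.Lib.MP_042ec1_co

/-- The row `r` with the cell of the constant `i` moved to the constant `dg D i`. -/
def prm (D n r : ℕ) : ℕ :=
  Nat.rec (Nat.shiftLeft (Nat.shiftRight r (Nat.mul 2 n)) (Nat.mul 2 n))
    (fun i acc => Nat.lor acc (Nat.shiftLeft (cel r i) (Nat.mul 2 (dg D i)))) n

/-- The rows `l` agree with the permuted rows `l'`. -/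
def eqP (D n : ℕ) (l : List ℕ) : List ℕ → Bool :=
  List.rec (fun l' => List.casesOn l' true fun _ _ => false)
    (fun x _ ih l' => List.casesOn l' false fun y ys => Nat.beq x (prm D n y) && ih ys) l

/-- The fact `ψ` implies the permuted form of the fact `φ`. -/
def impP (D n : ℕ) (φ ψ : Fact) : Bool :=
  Nat.beq ψ.m n && (eqP D n ψ.rows φ.rows &&
    ψ.alts.all fun alt => φ.alts.any fun alt' => eqP D n alt alt')

/-- Every fact of the tree has no constants or its permuted form follows from a fact of the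
tree. -/
noncomputable def symT (D n : ℕ) (t : FT) : Bool :=
  t.all fun φ => Nat.beq φ.m 0 || (Nat.beq φ.m n && !t.all fun ψ => !impP D n φ ψ)

/-- The state is invariant under the permutation `D` of the constants. -/
noncomputable def symSt (σ : St) (D : ℕ) : Bool :=
  fz D fun D => fz σ.n0 fun n => fz σ.c0 fun c => Nat.ble n 12 &&
    (allLT n (fun i => Nat.blt (dg D i) n &&
      (Nat.beq (Nat.shiftRight (row c i) (Nat.mul 2 i)) 0 && allLT i fun j =>
        !Nat.beq (dg D i) (dg D j) && Nat.beq (getc c (dg D i) (dg D j)) (cel (row c i) j))) &&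
    σ.Φ.all (symT D n))

/-- The labels `LL'` are the permuted labels `LL`. -/
def symLL (D n LL LL' S : ℕ) : Bool :=
  fz D fun D => fz n fun n => fz LL fun LL => fz LL' fun LL' =>
    allLT 64 fun t => !tb S t || Nat.beq (row LL' t) (prm D n (row LL t))

variable {σ : St} {D LL LL' S M : ℕ} {t : FT}

theorem sy_bits_aux (D B r t j : ℕ) :
    (Nat.rec B (fun i acc => Nat.lor acc (Nat.shiftLeft (cel r i) (Nat.mul 2 (dg D i)))) j :
      ℕ).testBit t = true ↔
      B.testBit t = true ∨ ∃ i < j, ∃ c < 2, t = 2 * dg D i + c ∧ r.testBit (2 * i + c) = true := by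
  induction j with
  | zero =>
    exact ⟨Or.inl, fun h => h.elim id fun ⟨i, hi, _⟩ => absurd hi (Nat.not_lt_zero i)⟩
  | succ j ih =>
    have e : (Nat.rec B (fun i acc => Nat.lor acc (Nat.shiftLeft (cel r i) (Nat.mul 2 (dg D i))))
        (j + 1) : ℕ) = Nat.lor (Nat.rec B (fun i acc => Nat.lor acc
          (Nat.shiftLeft (cel r i) (Nat.mul 2 (dg D i)))) j : ℕ)
          (Nat.shiftLeft (cel r j) (Nat.mul 2 (dg D j))) := rfl
    rw [e, bits_lor, ih, bits_shl, Nat.mul_eq]
    constructor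
    · rintro ((h | ⟨i, hi, h⟩) | ⟨h1, h2⟩)
      · exact Or.inl h
      · exact Or.inr ⟨i, by omega, h⟩
      · have h3 := bits_small cel_lt h2
        refine Or.inr ⟨j, by omega, t - 2 * dg D j, h3, by omega, ?_⟩
        rcases (by omega : t - 2 * dg D j = 0 ∨ t - 2 * dg D j = 1) with h4 | h4
        · rw [h4] at h2 ⊢
          rw [testBit_cel.1] at h2
          exact h2
        · rw [h4] at h2 ⊢
          rw [testBit_cel.2] at h2
          exact h2
    · rintro (h | ⟨i, hi, c, hc, h1, h2⟩)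
      · exact Or.inl (Or.inl h)
      · by_cases hij : i < j
        · exact Or.inl (Or.inr ⟨i, hij, c, hc, h1, h2⟩)
        · obtain rfl : i = j := by omega
          refine Or.inr ⟨by omega, ?_⟩
          have h4 : t - 2 * dg D i = c := by omega
          rw [h4]
          rcases (by omega : c = 0 ∨ c = 1) with rfl | rfl
          · rw [testBit_cel.1]
            exact h2
          · rw [testBit_cel.2]
            exact h2

theorem sy_bits (D n r t : ℕ) : (prm D n r).testBit t = true ↔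
    (2 * n ≤ t ∧ r.testBit t = true) ∨
      ∃ i < n, ∃ c < 2, t = 2 * dg D i + c ∧ r.testBit (2 * i + c) = true := by
  unfold prm
  rw [sy_bits_aux, bits_shl, Nat.mul_eq, Nat.shiftRight_eq, Nat.testBit_shiftRight]
  refine or_congr_left (and_congr_right fun h => ?_)
  rw [Nat.add_sub_cancel' h]

theorem sy_row {V : Type} {w : Wld V} {g g' : ℕ → V} {D n k r : ℕ} {x : V} (hn : n ≤ 12)
    (hD : ∀ i < n, dg D i < n) (e₁ : ∀ i < n, g i = g' (dg D i)) (e₂ : ∀ i, n ≤ i → g i = g' i)
    (hk : n ≤ k) : RowOK w g' k x (prm D n r) ↔ RowOK w g k x r := by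
  have hl : ∀ i < n, (lit w g x i ↔ lit w g' x (dg D i)) := fun i hi => by
    rw [bits_adj (by omega), bits_adj dg_lt, e₁ i hi]
  have hl' : ∀ i, n ≤ i → (lit w g x i ↔ lit w g' x i) := fun i hi =>
    bits_lit fun _ => e₂ i hi
  constructor
  · intro h b h1 h2
    by_cases hb : b < n
    · have h3 := h (dg D b) (lt_trans dg_lt (by norm_num)) (Or.inl (lt_of_lt_of_le (hD b hb) hk))
      rw [hl b hb]
      exact ⟨fun t => h3.1 ((sy_bits _ _ _ _).2 (Or.inr ⟨b, hb, 0, by norm_num, rfl, t⟩)),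
        fun t => h3.2 ((sy_bits _ _ _ _).2 (Or.inr ⟨b, hb, 1, by norm_num, rfl, t⟩))⟩
    · have h3 := h b h1 h2
      rw [hl' b (by omega)]
      exact ⟨fun t => h3.1 ((sy_bits _ _ _ _).2 (Or.inl ⟨by omega, t⟩)),
        fun t => h3.2 ((sy_bits _ _ _ _).2 (Or.inl ⟨by omega, t⟩))⟩
  · intro h b h1 h2
    constructor
    · intro t
      rcases (sy_bits _ _ _ _).1 t with ⟨t1, t2⟩ | ⟨i, hi, c, hc, t1, t2⟩
      · exact (hl' b (by omega)).1 ((h b h1 h2).1 t2)
      · obtain rfl : c = 0 := by omega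
        obtain rfl : b = dg D i := by omega
        exact (hl i hi).1 ((h i (by omega) (Or.inl (by omega))).1 t2)
    · intro t
      rcases (sy_bits _ _ _ _).1 t with ⟨t1, t2⟩ | ⟨i, hi, c, hc, t1, t2⟩
      · exact fun u => (h b h1 h2).2 t2 ((hl' b (by omega)).2 u)
      · obtain rfl : c = 1 := by omega
        obtain rfl : b = dg D i := by omega
        exact fun u => (h i (by omega) (Or.inl (by omega))).2 t2 ((hl i hi).2 u)

theorem sy_inj_of {V : Type} {w : Wld V} {g g' : ℕ → V} {N : ℕ} (ρ : ℕ → ℕ)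
    (h₁ : ∀ i < N, ρ i < N ∧ g i = g' (ρ i)) (h₂ : ∀ i < N, ∀ j < i, ρ j ≠ ρ i)
    (h : Inj w g' N) : Inj w g N := by
  intro i hi
  refine ⟨(h₁ i hi).2 ▸ (h _ (h₁ i hi).1).1, fun j hj => ?_⟩
  rw [(h₁ i hi).2, (h₁ j (hj.trans hi)).2]
  rcases lt_or_gt_of_ne (h₂ i hi j hj) with h3 | h3
  · exact (h _ (h₁ i hi).1).2 _ h3
  · exact ((h _ (h₁ j (hj.trans hi)).1).2 _ h3).symm

theorem sy_surj {D n : ℕ} (hD : ∀ i < n, dg D i < n) (hI : ∀ i < n, ∀ j < i, dg D i ≠ dg D j) :
    ∀ j < n, ∃ i < n, dg D i = j := by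
  have hinj : Function.Injective fun i : Fin n => (⟨dg D i, hD i i.2⟩ : Fin n) := by
    intro i j hij
    have h1 : dg D i = dg D j := congrArg Fin.val hij
    by_contra hne
    rcases lt_or_gt_of_ne (fun h => hne (Fin.ext h) : (i : ℕ) ≠ j) with h2 | h2
    · exact hI j j.2 i h2 h1.symm
    · exact hI i i.2 j h2 h1
  intro j hj
  obtain ⟨i, hi⟩ := Finite.injective_iff_surjective.1 hinj ⟨j, hj⟩
  exact ⟨i, i.2, congrArg Fin.val hi⟩

theorem sy_inj {V : Type} {w : Wld V} {g g' : ℕ → V} {D n N : ℕ}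
    (hD : ∀ i < n, dg D i < n) (hI : ∀ i < n, ∀ j < i, dg D i ≠ dg D j)
    (e₁ : ∀ i < n, g i = g' (dg D i)) (e₂ : ∀ i, n ≤ i → g i = g' i) (hN : n ≤ N) :
    Inj w g' N ↔ Inj w g N := by
  constructor
  · refine sy_inj_of (fun i => if i < n then dg D i else i) (fun i hi => ?_) fun i _ j hj => ?_
    · by_cases h : i < n
      · simp only [if_pos h]
        exact ⟨lt_of_lt_of_le (hD i h) hN, e₁ i h⟩
      · simp only [if_neg h]
        exact ⟨hi, e₂ i (not_lt.1 h)⟩
    · by_cases h : i < n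
      · simp only [if_pos h, if_pos (hj.trans h)]
        exact (hI i h j hj).symm
      · by_cases h' : j < n
        · simp only [if_neg h, if_pos h']
          have := hD j h'
          omega
        · simp only [if_neg h, if_neg h']
          omega
  · choose! ρ hρ using sy_surj hD hI
    refine sy_inj_of (fun i => if i < n then ρ i else i) (fun i hi => ?_) fun i _ j hj => ?_
    · by_cases h : i < n
      · simp only [if_pos h]
        exact ⟨lt_of_lt_of_le (hρ i h).1 hN, by rw [e₁ _ (hρ i h).1, (hρ i h).2]⟩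
      · simp only [if_neg h]
        exact ⟨hi, (e₂ i (not_lt.1 h)).symm⟩
    · by_cases h : i < n
      · simp only [if_pos h, if_pos (hj.trans h)]
        intro e
        have h1 := (hρ i h).2
        rw [← e, (hρ j (hj.trans h)).2] at h1
        omega
      · by_cases h' : j < n
        · simp only [if_neg h, if_pos h']
          have := (hρ j h').1
          omega
        · simp only [if_neg h, if_neg h']
          omega

theorem sy_eqP {D n : ℕ} {l l' : List ℕ} (h : eqP D n l l' = true) : l = l'.map (prm D n) := by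
  induction l generalizing l' with
  | nil =>
    cases l' with
    | nil => rfl
    | cons y ys => exact absurd h Bool.false_ne_true
  | cons x xs ih =>
    cases l' with
    | nil => exact absurd h Bool.false_ne_true
    | cons y ys =>
      have h' : (Nat.beq x (prm D n y) && eqP D n xs ys) = true := h
      rw [Bool.and_eq_true, Nat.beq_eq] at h'
      rw [h'.1, ih h'.2]
      rfl

theorem sy_getD (F : ℕ → ℕ) (l : List ℕ) {j : ℕ} (hj : j < l.length) :
    (l.map F).getD j 0 = F (l.getD j 0) := by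
  rw [List.getD_eq_getElem _ _ (by rw [List.length_map]; exact hj), List.getD_eq_getElem _ _ hj,
    List.getElem_map]

theorem sy_sat {V : Type} {w : Wld V} {g g' : ℕ → V} {D n : ℕ} {l l' : List ℕ} (hn : n ≤ 12)
    (hD : ∀ i < n, dg D i < n) (hI : ∀ i < n, ∀ j < i, dg D i ≠ dg D j)
    (e₁ : ∀ i < n, g i = g' (dg D i)) (e₂ : ∀ i, n ≤ i → g i = g' i)
    (h : eqP D n l l' = true) : SatL w g' n l ↔ SatL w g n l' := by
  rw [sy_eqP h]
  unfold SatL
  rw [List.length_map, sy_inj hD hI e₁ e₂ (Nat.le_add_right _ _)]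
  refine and_congr_right fun _ => forall₂_congr fun j hj => ?_
  rw [sy_getD _ _ hj, sy_row hn hD e₁ e₂ (Nat.le_add_right _ _), e₂ _ (Nat.le_add_right _ _)]

theorem sy_holds {V : Type} {w : Wld V} {a a' : ℕ → V} {D n : ℕ} {φ ψ : Fact} (hn : n ≤ 12)
    (hD : ∀ i < n, dg D i < n) (hI : ∀ i < n, ∀ j < i, dg D i ≠ dg D j)
    (e : ∀ i < n, a' i = a (dg D i)) (hm : φ.m = n) (hp : impP D n φ ψ = true)
    (h : Holds w a ψ) : Holds w a' φ := by
  unfold impP at hp
  rw [Bool.and_eq_true, Bool.and_eq_true, Nat.beq_eq, List.all_eq_true] at hp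
  obtain ⟨p1, p2, p3⟩ := hp
  intro f hf hs
  rw [hm] at hf hs ⊢
  have q1 : ∀ i < n, f i = (fun i => if i < n then a i else f i) (dg D i) := fun i hi => by
    simp only [if_pos (hD i hi)]
    rw [hf i hi, e i hi]
  have q2 : ∀ i, n ≤ i → f i = (fun i => if i < n then a i else f i) i := fun i hi => by
    simp only [if_neg (not_lt.2 hi)]
  have hs' := (sy_sat hn hD hI q1 q2 p2).2 hs
  have hl : ψ.rows.length = φ.rows.length := by rw [sy_eqP p2, List.length_map]
  obtain ⟨alt, ha, g', hg, hsat⟩ := h (fun i => if i < n then a i else f i)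
    (fun i hi => by
      rw [p1] at hi
      simp only [if_pos hi]) (by rw [p1]; exact hs')
  rw [p1] at hg hsat
  rw [hl] at hg
  obtain ⟨alt', ha', hq⟩ := List.any_eq_true.1 (p3 alt ha)
  refine ⟨alt', ha', fun i => if i < n then g' (dg D i) else g' i, fun i hi => ?_, ?_⟩
  · by_cases hi' : i < n
    · simp only [if_pos hi']
      rw [hg _ (lt_of_lt_of_le (hD i hi') (Nat.le_add_right _ _))]
      exact (q1 i hi').symm
    · simp only [if_neg hi']
      rw [hg i hi]
      exact (q2 i (not_lt.1 hi')).symm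
  · refine (sy_sat hn hD hI (fun i hi => ?_) (fun i hi => ?_) hq).1 hsat
    · simp only [if_pos hi]
    · simp only [if_neg (not_lt.2 hi)]

theorem sy_not_all {p : Fact → Bool} {t : FT} (h : t.all p = false) :
    ∃ i, 1 ≤ i ∧ p (t.get i) = false := by
  induction t with
  | nil => exact absurd h (by decide : ¬ true = false)
  | node φ l r il ir =>
    rw [r1_all_node, Bool.and_eq_false_iff, Bool.and_eq_false_iff] at h
    rcases h with h | h | h
    · exact ⟨1, le_rfl, h⟩
    · obtain ⟨i, hi, h1⟩ := il h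
      refine ⟨2 * i, by omega, ?_⟩
      have e1 : Nat.ble (2 * i) 1 = false := by
        rw [← Bool.not_eq_true, Nat.ble_eq]
        omega
      have e2 : Nat.beq (Nat.land (2 * i) 1) 0 = true := by
        rw [Nat.beq_eq, Nat.land_eq, Nat.and_one_is_mod]
        omega
      have e3 : Nat.shiftRight (2 * i) 1 = i := by
        rw [Nat.shiftRight_eq, Nat.shiftRight_eq_div_pow]
        omega
      rw [r1_get_node, e1, e2, e3]
      exact h1
    · obtain ⟨i, hi, h1⟩ := ir h
      refine ⟨2 * i + 1, by omega, ?_⟩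
      have e1 : Nat.ble (2 * i + 1) 1 = false := by
        rw [← Bool.not_eq_true, Nat.ble_eq]
        omega
      have e2 : Nat.beq (Nat.land (2 * i + 1) 1) 0 = false := by
        rw [← Bool.not_eq_true, Nat.beq_eq, Nat.land_eq, Nat.and_one_is_mod]
        omega
      have e3 : Nat.shiftRight (2 * i + 1) 1 = i := by
        rw [Nat.shiftRight_eq, Nat.shiftRight_eq_div_pow]
        omega
      rw [r1_get_node, e1, e2, e3]
      exact h1

theorem sy_valid {V : Type} {w : Wld V} {a a' : ℕ → V} {D n nb : ℕ} {t : FT} (hn : n ≤ 12)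
    (hD : ∀ i < n, dg D i < n) (hI : ∀ i < n, ∀ j < i, dg D i ≠ dg D j)
    (e : ∀ i < n, a' i = a (dg D i)) (ht : symT D n t = true) (h : Valid w a nb t) :
    Valid w a' nb t := by
  intro i
  refine ⟨(h i).1, ?_⟩
  rcases FT.get_of_all ht i with h1 | h1
  · rw [h1]
    exact holds_triv w a'
  · rw [Bool.or_eq_true, Bool.and_eq_true, Nat.beq_eq, Nat.beq_eq, Bool.not_eq_true'] at h1
    rcases h1 with h1 | ⟨h1, h2⟩
    · intro f _ hs
      exact (h i).2 f (fun j hj => absurd hj (by omega)) hs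
    · obtain ⟨j, _, hj⟩ := sy_not_all h2
      rw [Bool.not_eq_false'] at hj
      exact sy_holds hn hD hI e h1 hj (h j).2

theorem good_sym (h : symSt σ D = true) (h' : symLL D σ.n0 LL LL' S = true)
    (hg : Good σ LL S M) : Good σ LL' S M := by
  unfold symSt at h
  unfold symLL at h'
  rw [fz_eq, fz_eq, fz_eq, Bool.and_eq_true, Bool.and_eq_true, Nat.ble_eq, allLT_iff,
    List.all_eq_true] at h
  rw [fz_eq, fz_eq, fz_eq, fz_eq, allLT_iff] at h'
  obtain ⟨hn, h1, h2⟩ := h
  have h3 : ∀ i < σ.n0, dg D i < σ.n0 ∧ (row σ.c0 i) >>> (2 * i) = 0 ∧ ∀ j < i,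
      dg D i ≠ dg D j ∧ getc σ.c0 (dg D i) (dg D j) = cel (row σ.c0 i) j := by
    intro i hi
    have h4 := h1 i hi
    rw [Bool.and_eq_true, Bool.and_eq_true, Nat.blt_eq, Nat.beq_eq, allLT_iff] at h4
    refine ⟨h4.1, h4.2.1, fun j hj => ?_⟩
    have h5 := h4.2.2 j hj
    rw [Bool.and_eq_true, Bool.not_eq_true', ← Bool.not_eq_true, Nat.beq_eq, Nat.beq_eq] at h5
    exact h5
  have hD : ∀ i < σ.n0, dg D i < σ.n0 := fun i hi => (h3 i hi).1
  have hI : ∀ i < σ.n0, ∀ j < i, dg D i ≠ dg D j := fun i hi j hj => ((h3 i hi).2.2 j hj).1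
  obtain ⟨K, hK⟩ := hg
  refine ⟨K, fun V _ _ w a hm W ty hty => ?_⟩
  obtain ⟨a', e₁, e₂⟩ : ∃ a' : ℕ → V, (∀ i < σ.n0, a' i = a (dg D i)) ∧
      ∀ i, σ.n0 ≤ i → a' i = a i :=
    ⟨fun i => if i < σ.n0 then a (dg D i) else a i, fun i hi => if_pos hi,
      fun i hi => if_neg (not_lt.2 hi)⟩
  refine hK V w a' ⟨(sy_inj hD hI e₁ e₂ le_rfl).1 hm.1, fun i hi b _ hb => ?_, hm.2.2.1,
    fun t ht => sy_valid hn hD hI e₁ (h2 t ht) (hm.2.2.2 t ht)⟩ W ty fun x hx => ?_
  · by_cases hbi : b < i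
    · have h4 := hm.2.1.getc (hD i hi) (hD b (hbi.trans hi)) (by omega) (hI i hi b hbi)
      rw [((h3 i hi).2.2 b hbi).2] at h4
      unfold CellOK at h4
      rw [testBit_cel.1, testBit_cel.2] at h4
      rw [bits_adj (by omega), e₁ i hi, e₁ b (hbi.trans hi)]
      exact h4
    · have h4 : ∀ t, 2 * i ≤ t → (row σ.c0 i).testBit t = false := fun t ht => by
        have h5 := Nat.testBit_shiftRight (i := 2 * i) (j := t - 2 * i) (row σ.c0 i)
        rw [(h3 i hi).2.1, Nat.zero_testBit, Nat.add_sub_cancel' ht] at h5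
        exact h5.symm
      rw [h4 _ (by omega), h4 _ (by omega)]
      exact ⟨fun t => absurd t Bool.false_ne_true, fun t => absurd t Bool.false_ne_true⟩
  · obtain ⟨t1, t2, t3, t4, t5⟩ := hty x hx
    refine ⟨t1, fun i hi => ?_, t3, t4, ?_⟩
    · rw [e₁ i hi]
      exact t2 _ (hD i hi)
    · have h4 := h' _ t3
      rw [tb_eq, t4, Bool.not_true, Bool.false_or, Nat.beq_eq] at h4
      rw [h4] at t5
      exact (sy_row hn hD e₁ e₂ le_rfl).1 t5

theorem good_up (hg : Good σ LL S M) : Good (σ.add 0 t) LL S M := by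
  obtain ⟨K, hK⟩ := hg
  exact ⟨K, fun V _ _ w a hm => hK V w a
    ⟨hm.1, hm.2.1, hm.2.2.1, fun t ht => hm.2.2.2 t (List.mem_cons_of_mem _ ht)⟩⟩

end Pool.Agent.Lib.MP_1595d8_lc
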