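import Mathlib
import Pool.Agent.Lib.MP_1595d8_lc.H89R4

/-!
A finer and faster check that pairs on different lines are not linked.
-/

namespace Pool.Agent.Lib.MP_1595d8_lc

open Finset Pool.Agent.Lib.MP_042ec1_co

/-- Five rows after row `n` that carry the pattern number `p` towards the vertices from `o` on. -/
def pb (n o p : ℕ) : ℕ := push5 0 n 0 0 fun j => Nat.shiftLeft (pc p j) (Nat.mul 2 o)

/-- Five rows after row `n` of type `Z`. -/
def lb (σ : St) (LL RT n Z : ℕ) : ℕ := push5 0 n (lab σ LL Z) (phi RT Z Z) fun _ => 0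

/-- The pair of types `X, Y` is not linked to a pair `X, Z` with `Y < Z` on another line. -/
def TRY (σ : St) (LL S M LT X Y : ℕ) : Prop :=
  ∀ (V : Type) [DecidableEq V] [Fintype V] (w : Wld V) (a : ℕ → V), Models w a σ →
    ∀ (W : Finset V) (ty : V → ℕ), Typed w a σ.n0 LL S W ty → ∀ Z, Y < Z → X ≠ Y → X ≠ Z →
      Mk M X Y → Mk M X Z → lin LT X Y ≠ 0 → lin LT X Z ≠ 0 → lin LT X Y ≠ lin LT X Z →
      ¬ HasPat3 w.G (fun v => v ∈ W ∧ ty v = X) (fun v => v ∈ W ∧ ty v = Y)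
        (fun v => v ∈ W ∧ ty v = Z)

/-- The property `TRY` on a rectangle. -/
def TRR (σ : St) (LL S M LT lo c B : ℕ) : Prop := ∀ i < c, Upto (TRY σ LL S M LT (lo + i)) B

/-- Checks the property `TRY` on a rectangle. -/
noncomputable def trChk2 (σ : St) (LL S M RT AL LT lo c ly cy s : ℕ) : Bool :=
  fz LL fun LL => fz M fun M => fz RT fun RT => fz AL fun AL => fz LT fun LT =>
  fz σ.n0 fun n0 => fz (Nat.add n0 5) fun n1 => fz (Nat.add n0 10) fun n2 =>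
  fz (Nat.add n0 15) fun n => Nat.ble n 32 &&
  !Nat.beq (loop c (fun i s => fz (Nat.add lo i) fun X => bif tb S X then
    fz (Nat.land S (mrow M X)) fun A =>
    fz (cut (Nat.lor (cut σ.c0 n0) (lb σ LL RT n0 X)) n1) fun KX =>
    loop cy (fun j s => fz (Nat.add ly j) fun Y => bif tb A Y then
      fz (lin LT X Y) fun g => bif Nat.beq g 0 then s else
      fz (zset LT A X Y g) fun ZS => bif Nat.beq ZS 0 then s else
      loop 6 (fun p s => fz (Nat.succ p) fun p => bif alw AL X Y p then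
        fz (cut (slt (Nat.lor (Nat.lor KX (lb σ LL RT n1 Y)) (pb n1 n0 p))) n2) fun KY =>
        loop 64 (fun Z s => bif tb ZS Z then
          fz (slt (Nat.lor KY (lb σ LL RT n2 Z))) fun KZ =>
          loop 6 (fun q s => fz (Nat.succ q) fun q => bif alw AL X Z q then
            fz (slt (Nat.lor KZ (pb n2 n0 q))) fun KQ => fz (Nat.shiftRight s 1) fun s' =>
            bif tb s 0 then tab σ.Φ 4096 n0 σ.sp 500 Md.non n KQ s' else
            loop 8 (fun r s => bif alw AL Y Z r then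
              fz (slt (Nat.lor KQ (pb n2 n1 r))) fun K => tab σ.Φ 4096 n0 σ.sp 500 Md.non n K s
              else s) s' else s) s
          else s) s
        else s) s
      else s) s else s) s) 0

variable {σ : St} {LL S M RT AL LT lo c ly cy s : ℕ}

theorem tr_push5 {V : Type} {w : Wld V} {f : ℕ → V} {n o : ℕ} {p : Pat}
    (h : ∀ j < 5, ∀ t < 5, CellOK (bif rel p t j then 1 else 2) (lit w f (f (n + j)) (o + t))) :
    Tru w f (n + 5) (pb n o (pn p)) := by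
  have key : ∀ k ≤ 5, Tru w f (n + k) (Nat.rec 0 (fun j ih => push ih (Nat.add n j)
      (Nat.lor (Nat.lor 0 (Nat.shiftLeft (pc (pn p) j) (Nat.mul 2 o))) (Nat.shiftLeft
        (Nat.mod (Nat.mul 0 341) (Nat.shiftLeft 1 (Nat.mul 2 j))) (Nat.mul 2 n)))) k) := by
    intro k
    induction k with
    | zero => exact fun _ i _ => by simpa [row] using rowOK_zero
    | succ j ih =>
      intro hj
      refine (ih (Nat.le_of_succ_le hj)).push ?_
      refine rowOK_lor.2 ⟨rowOK_lor.2 ⟨rowOK_zero, r3_cells (r3_pc p j hj).1 fun t ht => ?_⟩, ?_⟩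
      · rw [(r3_pc p j hj).2 t ht]
        exact h j hj t ht
      · have e : Nat.shiftLeft (Nat.mod (Nat.mul 0 341) (Nat.shiftLeft 1 (Nat.mul 2 j)))
            (Nat.mul 2 n) = 0 := by
          have e1 : Nat.mod (Nat.mul 0 341) (Nat.shiftLeft 1 (Nat.mul 2 j)) = 0 := Nat.zero_mod _
          rw [e1]
          exact Nat.zero_shiftLeft _
        rw [e]
        exact rowOK_zero
  exact (key 5 le_rfl).slt

theorem tr_lb {V : Type} [DecidableEq V] [Fintype V] {w : Wld V} {a g x : ℕ → V}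
    {X m : ℕ} (hr : Upto (RTat σ LL S RT) 64) (hm : Models w a σ) (hX : X < 64)
    (sX : S.testBit X = true) (hn : σ.n0 + m + 5 ≤ 32) (hg : ∀ i < σ.n0, g i = a i)
    (hI : Inj w g (σ.n0 + m)) (hL : ∀ j < 5, Lab w a σ.n0 (row LL X) (x j))
    (hx : ∀ j < 5, ∀ i < j, x i ≠ x j) (hA : ∀ j < 5, ∀ t < m, g (σ.n0 + t) ≠ x j) :
    ∃ f : ℕ → V, (∀ i < σ.n0 + m, f i = g i) ∧ (∀ j, f (σ.n0 + m + j) = x j) ∧
      Inj w f (σ.n0 + m + 5) ∧ Tru w f (σ.n0 + m + 5) (lb σ LL RT (σ.n0 + m) X) :=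
  r3_block (K := 0) (A := fun _ => 0) (e := fun _ => 0) hr hm hX sX hn hg hI
    (fun i _ => by simpa [row] using rowOK_zero) hL hx (fun _ => (Nat.zero_shiftLeft _).symm)
    fun j hj => ⟨by positivity, fun t ht => ⟨hA j hj t ht, by simp [CellOK, cel]⟩⟩

theorem TRR.zero (σ : St) (LL S M LT lo c : ℕ) : TRR σ LL S M LT lo c 0 :=
  fun _ _ => Upto.zero _

theorem tr_fin (h : Upto (TRat σ LL S M LT) lo) (h' : TRR σ LL S M LT lo c 64) :
    Upto (TRat σ LL S M LT) (lo + c) := by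
  refine r3_upto h fun i hi V _ _ w a hm W ty hT Y Z hYZ hXY hXZ mY mZ lY lZ lYZ hp => ?_
  refine h' i hi Y ?_ V w a hm W ty hT Z hYZ hXY hXZ mY mZ lY lZ lYZ hp
  obtain ⟨x, y, z, p, q, r, -, -, h1, -⟩ := hp
  obtain ⟨h2, h3⟩ := (h1 0 (by norm_num)).2.1
  exact h3 ▸ (hT _ h2).2.2.1

theorem tr_part (hr : Upto (RTat σ LL S RT) 64) (ha : Upto (ALat σ LL S AL) 64)
    (h : TRR σ LL S M LT lo c ly) (hc : trChk2 σ LL S M RT AL LT lo c ly cy s = true) :
    TRR σ LL S M LT lo c (ly + cy) := by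
  intro i hi
  refine r3_upto (h i hi) fun j hj V _ _ w a hm W ty hT Z hYZ hXY hXZ mY mZ lY lZ lYZ => ?_
  rintro ⟨x, y, z, p, q, r, np, nq, h1, h2, h3⟩
  unfold trChk2 at hc
  simp only [fz_eq, tb_eq, Nat.add_eq, Bool.and_eq_true, Nat.ble_eq] at hc
  obtain ⟨s₁, e1⟩ := loop_ne (r1_ne hc.2) i hi
  have hn := hc.1
  clear hc
  generalize lo + i = X at *
  have hl : ∀ v ∈ W, ∀ Z, ty v = Z → Z < 64 ∧ S.testBit Z = true ∧ Lab w a σ.n0 (row LL Z) v := by
    rintro v hv Z rfl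
    obtain ⟨x1, x2, x3, x4, x5⟩ := hT v hv
    exact ⟨x3, x4, x1, x2, x5⟩
  have hx := fun i hi => hl _ (h1 i hi).1.1 X (h1 i hi).1.2
  have hy := fun i hi => hl _ (h1 i hi).2.1.1 _ (h1 i hi).2.1.2
  have hz := fun i hi => hl _ (h1 i hi).2.2.1 Z (h1 i hi).2.2.2
  have h0 : 0 < 5 := by norm_num
  obtain ⟨hX, sX, -⟩ := hx 0 h0
  rw [sX, cond_true] at e1
  obtain ⟨s₂, e2⟩ := loop_ne e1 j hj
  generalize ly + j = Y at *
  obtain ⟨hY, sY, -⟩ := hy 0 h0
  obtain ⟨hZ, sZ, -⟩ := hz 0 h0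
  have zs := r3_zset hZ (r3_act hZ sZ mZ) hYZ lZ lYZ.symm
  have b1 : Nat.beq (lin LT X Y) 0 = false := by
    rwa [← Bool.not_eq_true, Nat.beq_eq]
  have b2 : Nat.beq (zset LT (Nat.land S (mrow M X)) X Y (lin LT X Y)) 0 = false := by
    rw [← Bool.not_eq_true, Nat.beq_eq]
    intro e
    rw [e, Nat.zero_testBit] at zs
    exact absurd zs (by decide)
  rw [r3_act hY sY mY, cond_true, b1, cond_false, b2, cond_false] at e2
  obtain ⟨kp, kp1, kp2⟩ := (r3_pn p).2.2.1 np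
  obtain ⟨kq, kq1, kq2⟩ := (r3_pn q).2.2.1 nq
  obtain ⟨s₃, e3⟩ := loop_ne e2 kp kp1
  rw [← kp2, r3_alw ha hm hT hXY (fun i hi => ⟨(h1 i hi).1, (h1 i hi).2.1⟩)
    (fun i hi j hj => ⟨(h2 i hi j hj).1, (h2 i hi j hj).2.1⟩) fun i hi j hj => (h3 i hi j hj).1,
    cond_true] at e3
  obtain ⟨s₄, e4⟩ := loop_ne e3 Z hZ
  rw [zs, cond_true] at e4
  obtain ⟨s₅, e5⟩ := loop_ne e4 kq kq1
  rw [← kq2, r3_alw ha hm hT hXZ (fun i hi => ⟨(h1 i hi).1, (h1 i hi).2.2⟩)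
    (fun i hi j hj => ⟨(h2 i hi j hj).1, (h2 i hi j hj).2.2⟩) fun i hi j hj => (h3 i hi j hj).2.1,
    cond_true] at e5
  have nxy : ∀ i < 5, ∀ j < 5, x i ≠ y j := fun i hi j hj e =>
    hXY ((h1 i hi).1.2.symm.trans (e ▸ (h1 j hj).2.1.2))
  have nxz : ∀ i < 5, ∀ j < 5, x i ≠ z j := fun i hi j hj e =>
    hXZ ((h1 i hi).1.2.symm.trans (e ▸ (h1 j hj).2.2.2))
  have nyz : ∀ i < 5, ∀ j < 5, y i ≠ z j := fun i hi j hj e =>
    hYZ.ne ((h1 i hi).2.1.2.symm.trans (e ▸ (h1 j hj).2.2.2))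
  obtain ⟨f₁, a1, a2, a3, a4⟩ := tr_lb (m := 0) hr hm hX sX (by omega) (fun _ _ => rfl) hm.1
    (fun j hj => (hx j hj).2.2) (fun j hj i hi => (h2 j hj i hi).1)
    fun _ _ t ht => absurd ht (Nat.not_lt_zero t)
  rw [Nat.add_zero] at a1 a2 a3 a4
  obtain ⟨f₂, c1, c2, c3, c4⟩ := tr_lb (m := 5) hr hm hY sY (by omega) a1 a3
    (fun j hj => (hy j hj).2.2) (fun j hj i hi => (h2 j hj i hi).2.1)
    fun j hj t ht => by
      rw [a2]
      exact nxy t ht j hj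
  obtain ⟨f, d1, d2, d3, d4⟩ := tr_lb (m := 10) hr hm hZ sZ (by omega)
    (fun i hi => (c1 i (by omega)).trans (a1 i hi)) c3
    (fun j hj => (hz j hj).2.2) (fun j hj i hi => (h2 j hj i hi).2.2)
    fun j hj t ht => by
      by_cases h5 : t < 5
      · rw [c1 _ (by omega), a2]
        exact nxz t h5 j hj
      · obtain ⟨t, rfl⟩ := Nat.exists_eq_add_of_le (not_lt.1 h5)
        rw [← Nat.add_assoc, c2]
        exact nyz t (by omega) j hj
  have fa : ∀ i < σ.n0, f i = a i := fun i hi =>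
    (d1 i (by omega)).trans ((c1 i (by omega)).trans (a1 i hi))
  have fx : ∀ t < 5, f (σ.n0 + t) = x t := fun t ht =>
    (d1 _ (by omega)).trans ((c1 _ (by omega)).trans (a2 t))
  have fy : ∀ t < 5, f (σ.n0 + 5 + t) = y t := fun t ht => (d1 _ (by omega)).trans (c2 t)
  have tX := (tru_lor.2 ⟨(hm.2.1.congr fa).cut (σ.n0 + 5), a4.congr fun i hi =>
    (d1 i (by omega)).trans (c1 i hi)⟩).cut (σ.n0 + 5 + 5)
  have tY := (tru_lor.2 ⟨tru_lor.2 ⟨tX, c4.congr d1⟩, tr_push5 (o := σ.n0) (p := p)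
    fun j hj t ht => by
      rw [bits_adj (by omega), fy j hj, fx t ht]
      exact r3_bif (h3 t ht j hj).1⟩).slt.cut (σ.n0 + 10 + 5)
  have tQ := (tru_lor.2 ⟨(tru_lor.2 ⟨tY, d4⟩).slt, tr_push5 (o := σ.n0) (p := q)
    fun j hj t ht => by
      rw [bits_adj (by omega), d2, fx t ht]
      exact r3_bif (h3 t ht j hj).2.1⟩).slt
  cases hb : s₅.testBit 0
  · rw [hb, cond_false] at e5
    obtain ⟨s₆, e6⟩ := loop_ne e5 _ (r3_pn r).1
    rw [r3_alw ha hm hT hYZ.ne (fun i hi => (h1 i hi).2) (fun i hi j hj => (h2 i hi j hj).2)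
      fun i hi j hj => (h3 i hi j hj).2.2, cond_true] at e6
    exact tab_snd' hm ∅ (fun _ => 0) _ _ _ _ _ _ _ e6 f (Nat.le_add_right _ _) hn fa d3
      (tru_lor.2 ⟨tQ, tr_push5 (o := σ.n0 + 5) (p := r) fun j hj t ht => by
        rw [bits_adj (by omega), d2, fy t ht]
        exact r3_bif (h3 t ht j hj).2.2⟩).slt trivial
  · rw [hb, cond_true] at e5
    exact tab_snd' hm ∅ (fun _ => 0) _ _ _ _ _ _ _ e5 f (Nat.le_add_right _ _) hn fa d3 tQ trivial

end Pool.Agent.Lib.MP_1595d8_lc
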