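import Pool.Agent.Lib.MP_1595d8_lc.H89X
import Pool.Agent.Lib.MP_1595d8_lc.H89Sym
import Pool.Agent.Lib.MP_1595d8_lc.H89TR
import Pool.Agent.Lib.MP_1595d8_lc.H89Deg

set_option maxRecDepth 100000
set_option linter.unusedVariables false

namespace Pool.Agent.Lib.MP_1595d8_lc

noncomputable section

def sc00 : ℕ :=
  0x10000000000000000000000000000000000000000000000000000000000000000

def ss0 : St :=
  ⟨2, sc00, 35, false, [tStar, F0]⟩

def ss0d0 : FT :=
  (.node ⟨2, [0xa, 0x19, 0x55], []⟩
  (.node ⟨2, [0x2, 0x21, 0x91, 0x151], []⟩
  (.node ⟨2, [0x1, 0x21, 0x91, 0x251], []⟩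
  (.node ⟨2, [0x8, 0x24, 0x94, 0x154], []⟩
  .nil .nil) (.node ⟨2, [0x8, 0x24, 0x58, 0x154], []⟩
  .nil .nil)) (.node ⟨2, [0x20000000000000009, 0x20000000000000009, 0x150000000000000055, 0x165], []⟩
  (.node ⟨2, [0x6, 0x26, 0x26, 0x165, 0x525, 0x1500000000000016a5], []⟩
  .nil .nil) (.node ⟨2, [0x6, 0x90000000000000024, 0x50000000000000055], []⟩
  .nil .nil))) (.node ⟨2, [0x8, 0x28, 0x98, 0x264], []⟩
  (.node ⟨2, [0x8, 0x28, 0xa4, 0x258], []⟩
  (.node ⟨2, [0x8, 0x24, 0xa4, 0x298], []⟩
  .nil .nil) (.node ⟨2, [0xa, 0x90000000000000015, 0x50000000000000055], []⟩
  .nil .nil)) (.node ⟨2, [0x9, 0x26, 0x55], []⟩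
  (.node ⟨2, [0x4, 0x24, 0x94, 0x254], []⟩
  .nil .nil) .nil)))

def ss0_0 : St :=
  ⟨2, sc00, 35, false, [ss0d0, tStar, F0]⟩

def sm1 : ℕ :=
  0x3f000000000000003f000000000000003f000000000000003f000000000000003f000000000000003f

def sl2 : ℕ :=
  (pk 256 [0x2000000000000000a, 0x20000000000000009, 0x20000000000000006, 0x90000000000000005, 0x250000000000000005, 0x150000000000000005])

def sm3 : ℕ :=
  0x700000000000000070000000000000007000000000000003b000000000000003d000000000000003e

def sb4 : ℕ :=
  0x5400000000000000000000000000000014200000000000000000000000000000048000000000000000000000000000000220000000000000000000000000000000800000000000000000000000000000002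

def sb5 : ℕ :=
  (pk 2000 [0xdb01df0000000000000000000000000000000000000000000000000000000000000000000000000000000000000000000000000000000000000000000000000000ff01000000000000000000000000000000000000000000000000000000000000000000000000000000000000000000000000000000000000000000000000000000ff00000000000000000000000000000000000000000000000000000000000000000000000000000000000000000000000000000000000000000000000000000000,
  0xff808181df00000000000000000000000000000000000000000000000000000000000000000000000000000000000000000000000000000000000000000000000080dbdb01000000000000])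

def sb6 : ℕ :=
  (pk 2000 [0x30003000000000000000000000000000000000000000000000000000000000000000000000000000000000000000000000000000000000000000000000000000004000000000000000000000000000000000000000000000000000000000000000000000000000000000000000000000000000000000000000000000000000000000100000000000000000000000000000000000000000000000000000000000000000000000000000000000000000000000000000000000000000000000000000000,
  0x200000000000000000000000000000000000000000000000000000000000000000000000000000000000000000000000000000000000000000000000000040400000000000000])

def sm7 : ℕ :=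
  0x100000000000000000000000000000000000000000000000000000000000000000000000000000020

def sm8 : ℕ :=
  0x5000000000000000800000000000000000000000000000008

def sm9 : ℕ :=
  0x60000000000000000000000000000001200000000000000140000000000000000

end

end Pool.Agent.Lib.MP_1595d8_lc
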