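import Mathlib
import Pool.Agent.Lib.MP_1595d8_lc.H89SP

/-!
Reduction of the three-part configurations.
-/

namespace Pool.Agent.Lib.MP_1595d8_lc

open Finset Pool.Agent.Lib.MP_042ec1_co

section aux
variable {V : Type} [DecidableEq V] {G : SimpleGraph V} {W U : Finset V} {a c : V}
  {isK : V → Prop}

omit [DecidableEq V] in
lemma t1_tri_mono (h : Tri G W a isK) (hU : U ⊆ W) : Tri G U a isK :=
  ⟨fun v hv => h.aK v (hU hv), fun u hu v hv => h.cl u (hU hu) v (hU hv),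
    fun u hu v hv => h.iX u (hU hu) v (hU hv), fun u hu v hv => h.iY u (hU hu) v (hU hv)⟩

omit [DecidableEq V] in
lemma t1_gem_mono (h : NoGem G W) (hU : U ⊆ W) : NoGem G U :=
  fun e he a ha b hb c hc d hd => h e (hU he) a (hU ha) b (hU hb) c (hU hc) d (hU hd)

omit [DecidableEq V] in
lemma t1_p23_mono (h : NoP23 G W) (hU : U ⊆ W) : NoP23 G U :=
  fun e he a ha b hb c hc d hd => h e (hU he) a (hU ha) b (hU hb) c (hU hc) d (hU hd)

/-- The second special vertex. -/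
lemma t1_exists_c (hg : NoGem G (insert a W)) (ht : Tri G W a isK) (hne : ∃ v ∈ W, G.Adj a v) :
    ∃ c ∈ W, G.Adj a c ∧ (∀ v ∈ W, v ≠ c → isK v → G.Adj c v) ∧
      ∀ v ∈ W, ¬ isK v → G.Adj a v → ¬ G.Adj c v := by
  classical
  by_cases hX : (W.filter fun x => ¬ isK x ∧ G.Adj a x).Nonempty
  · obtain ⟨x₀, hx₀, hmax⟩ := exists_max_image _
      (fun x => (W.filter fun k => isK k ∧ G.Adj x k).card) hX
    obtain ⟨h0W, h0K, h0a⟩ := mem_filter.1 hx₀
    have key : ∀ x ∈ W, ¬ isK x → G.Adj a x → ∀ k ∈ W, isK k → G.Adj x k → G.Adj x₀ k := by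
      intro x hx hxK hxa k hk hkK hxk
      by_contra hn
      refine absurd (hmax x (mem_filter.2 ⟨hx, hxK, hxa⟩)) (not_le.2 (card_lt_card ?_))
      refine (ssubset_iff_of_subset ?_).2 ⟨k, mem_filter.2 ⟨hk, hkK, hxk⟩,
        fun h => hn (mem_filter.1 h).2.2⟩
      intro k' hk'
      obtain ⟨h1, h2, h3⟩ := mem_filter.1 hk'
      refine mem_filter.2 ⟨h1, h2, ?_⟩
      by_contra hn'
      exact hg a (mem_insert_self _ _) x (mem_insert_of_mem hx) k (mem_insert_of_mem hk) k'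
        (mem_insert_of_mem h1) x₀ (mem_insert_of_mem h0W) hxa (ht.aK k hk hkK) (ht.aK k' h1 h2)
        h0a hxk (ht.cl k hk k' h1 hkK h2 fun e => hn' (e ▸ hxk)) h3.symm hn'
        (ht.iX x hx x₀ h0W hxK h0K hxa h0a) fun h => hn h.symm
    by_cases hc : ∀ k ∈ W, isK k → G.Adj x₀ k
    · exact ⟨x₀, h0W, h0a, fun v hv _ hK => hc v hv hK,
        fun v hv hK hva => ht.iX x₀ h0W v hv h0K hK h0a hva⟩
    · push Not at hc
      obtain ⟨k, hk, hkK, hn⟩ := hc
      exact ⟨k, hk, ht.aK k hk hkK, fun v hv hne hK => ht.cl k hk v hv hkK hK hne.symm,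
        fun v hv hK hva h => hn (key v hv hK hva k hk hkK h.symm)⟩
  · obtain ⟨v, hv, hva⟩ := hne
    have hK : ∀ u ∈ W, G.Adj a u → isK u := by
      intro u hu hua
      by_contra hn
      exact hX ⟨u, mem_filter.2 ⟨hu, hn, hua⟩⟩
    exact ⟨v, hv, hva, fun u hu hne hu' => ht.cl v hv u hu (hK v hv hva) hu' hne.symm,
      fun u hu hu' hua => absurd (hK u hu hua) hu'⟩

/-- The last hypothesis of the starred statement holds when there is no split. -/
lemma t1_last (hc : c ∉ U) (hsp : SplitPrime G (insert c U))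
    (hg : NoGem G (insert a (insert c U))) (hp : NoP23 G (insert a (insert c U)))
    (ht : Tri G U a isK) (hcK : ∀ v ∈ U, isK v → G.Adj c v)
    (hcX : ∀ v ∈ U, ¬ isK v → G.Adj a v → ¬ G.Adj c v) {v : V} (hv : v ∈ U) (hvK : isK v)
    (hx : ∃ x ∈ U, ¬ isK x ∧ G.Adj a x ∧ G.Adj v x)
    (hy : ∃ y ∈ U, ¬ G.Adj a y ∧ ¬ G.Adj c y ∧ G.Adj v y) :
    ∃ y ∈ U, ∃ x ∈ U, ¬ G.Adj a y ∧ ¬ G.Adj c y ∧ G.Adj v y ∧ ¬ isK x ∧ G.Adj a x ∧
      G.Adj y x := by
  classical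
  by_contra hno
  have hno' : ∀ y ∈ U, ¬ G.Adj a y → ¬ G.Adj c y → G.Adj v y → ∀ x ∈ U, ¬ isK x → G.Adj a x →
      ¬ G.Adj y x := fun y hy h1 h2 h3 x hx h4 h5 h6 => hno ⟨y, hy, x, hx, h1, h2, h3, h4, h5, h6⟩
  have mU : ∀ u ∈ U, u ∈ insert a (insert c U) := fun u hu =>
    mem_insert_of_mem (mem_insert_of_mem hu)
  have ma : a ∈ insert a (insert c U) := mem_insert_self _ _
  have mc : c ∈ insert a (insert c U) := mem_insert_of_mem (mem_insert_self _ _)
  obtain ⟨x, hxU, hxK, hxa, -⟩ := hx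
  obtain ⟨y, hy', hmax⟩ := exists_max_image
    (U.filter fun y => ¬ G.Adj a y ∧ ¬ G.Adj c y ∧ G.Adj v y)
    (fun y => (U.filter fun k => isK k ∧ G.Adj y k).card)
    (by obtain ⟨y, h1, h2⟩ := hy; exact ⟨y, mem_filter.2 ⟨h1, h2⟩⟩)
  obtain ⟨hyU, hya, hyc, hvy⟩ := mem_filter.1 hy'
  have h1 : ∀ k ∈ U, isK k → G.Adj y k → ∀ k' ∈ U, isK k' → G.Adj y k' → ∀ x' ∈ U, ¬ isK x' →
      G.Adj a x' → G.Adj k x' → G.Adj k' x' := by
    intro k hk hkK hyk k' hk' hkK' hyk' x' hx' hxK' hxa' hkx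
    by_contra hn
    exact hg k (mU k hk) y (mU y hyU) k' (mU k' hk') a ma x' (mU x' hx') hyk.symm
      (ht.cl k hk k' hk' hkK hkK' fun e => hn (e ▸ hkx)) (ht.aK k hk hkK).symm hkx hyk'
      (ht.aK k' hk' hkK').symm hxa' (fun h => hya h.symm) (hno' y hyU hya hyc hvy x' hx' hxK' hxa')
      hn
  have h2 : ∀ k ∈ U, isK k → G.Adj y k → ∀ k' ∈ U, isK k' → G.Adj y k' → ∀ z ∈ U,
      ¬ G.Adj a z → G.Adj c z → G.Adj k z → G.Adj k' z := by
    intro k hk hkK hyk k' hk' hkK' hyk' z hz hza hcz hkz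
    by_contra hn
    exact hg k (mU k hk) y (mU y hyU) k' (mU k' hk') c mc z (mU z hz) hyk.symm
      (ht.cl k hk k' hk' hkK hkK' fun e => hn (e ▸ hkz)) (hcK k hk hkK).symm hkz hyk'
      (hcK k' hk' hkK').symm hcz (fun h => hyc h.symm) (ht.iY y hyU z hz hya hza) hn
  have h3 : ∀ z ∈ U, ¬ G.Adj a z → ¬ G.Adj c z → ∀ k' ∈ U, isK k' → G.Adj y k' → G.Adj z k' →
      ∀ k ∈ U, isK k → G.Adj z k → G.Adj y k := by
    intro z hz hza hzc k' hk' hkK' hyk' hzk' k hk hkK hzk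
    by_contra hn
    have sub : ∀ u ∈ U, isK u → G.Adj y u → G.Adj z u := by
      intro u hu huK hyu
      by_contra hn'
      exact hg k' (mU k' hk') y (mU y hyU) u (mU u hu) k (mU k hk) z (mU z hz) hyk'.symm
        (ht.cl k' hk' u hu hkK' huK fun e => hn' (e ▸ hzk'))
        (ht.cl k' hk' k hk hkK' hkK fun e => hn (e ▸ hyk')) hzk'.symm hyu
        (ht.cl u hu k hk huK hkK fun e => hn (e ▸ hyu)) hzk.symm hn (ht.iY y hyU z hz hya hza)
        fun h => hn' h.symm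
    refine absurd (hmax z (mem_filter.2 ⟨hz, hza, hzc, (sub v hv hvK hvy.symm).symm⟩))
      (not_le.2 (card_lt_card ?_))
    refine (ssubset_iff_of_subset ?_).2 ⟨k, mem_filter.2 ⟨hk, hkK, hzk⟩,
      fun h => hn (mem_filter.1 h).2.2⟩
    intro u hu
    obtain ⟨e1, e2, e3⟩ := mem_filter.1 hu
    exact mem_filter.2 ⟨e1, e2, sub u e1 e2 e3⟩
  have h4 : ∀ z ∈ U, ¬ G.Adj a z → ¬ G.Adj c z → ∀ k' ∈ U, isK k' → G.Adj y k' → G.Adj z k' →
      ∀ x' ∈ U, ¬ isK x' → G.Adj a x' → ¬ G.Adj z x' := by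
    intro z hz hza hzc k' hk' hkK' hyk' hzk' x' hx' hxK' hxa' hzx
    have e1 : ¬ G.Adj v z := fun h => hno' z hz hza hzc h x' hx' hxK' hxa' hzx
    have e2 : ¬ G.Adj y x' := hno' y hyU hya hyc hvy x' hx' hxK' hxa'
    have e3 : G.Adj v x' := by
      by_contra hn
      exact hp z (mU z hz) x' (mU x' hx') y (mU y hyU) v (mU v hv) c mc hzx hvy.symm
        (hcK v hv hvK).symm (fun e => hc (e ▸ hyU)) (fun h => hyc h.symm)
        (ht.iY z hz y hyU hza hya) (fun h => e1 h.symm) (fun h => hzc h.symm)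
        (fun h => e2 h.symm) (fun h => hn h.symm) fun h => hcX x' hx' hxK' hxa' h.symm
    exact hg k' (mU k' hk') z (mU z hz) x' (mU x' hx') v (mU v hv) y (mU y hyU) hzk'.symm
      (h1 v hv hvK hvy.symm k' hk' hkK' hyk' x' hx' hxK' hxa' e3)
      (ht.cl k' hk' v hv hkK' hvK fun e => e1 (e ▸ hzk'.symm)) hyk'.symm hzx e3.symm hvy
      (fun h => e1 h.symm) (ht.iY z hz y hyU hza hya) fun h => e2 h.symm
  set P := U.filter fun p => (isK p ∧ G.Adj y p) ∨
    (¬ G.Adj a p ∧ ¬ G.Adj c p ∧ ∃ k ∈ U, isK k ∧ G.Adj y k ∧ G.Adj p k) with hP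
  refine hsp P ((filter_subset _ _).trans (subset_insert _ _)) ?_ ?_
    (fun p => isK p ∧ G.Adj y p) (fun z => G.Adj v z) ?_
  · exact one_lt_card.2 ⟨v, mem_filter.2 ⟨hv, Or.inl ⟨hvK, hvy.symm⟩⟩, y,
      mem_filter.2 ⟨hyU, Or.inr ⟨hya, hyc, v, hv, hvK, hvy.symm, hvy.symm⟩⟩, hvy.ne⟩
  · refine one_lt_card.2 ⟨c, mem_sdiff.2 ⟨mem_insert_self _ _, fun h => hc (mem_filter.1 h).1⟩, x,
      mem_sdiff.2 ⟨mem_insert_of_mem hxU, fun h => ?_⟩, fun e => hc (e ▸ hxU)⟩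
    rcases (mem_filter.1 h).2 with h | h
    · exact hxK h.1
    · exact h.1 hxa
  · intro p hp' z hz
    obtain ⟨hpU, hp'⟩ := mem_filter.1 hp'
    obtain ⟨hz, hzP⟩ := mem_sdiff.1 hz
    rcases hp' with ⟨hpK, hyp⟩ | ⟨hpa, hpc, k', hk', hkK', hyk', hpk'⟩
    · rw [and_iff_right ⟨hpK, hyp⟩]
      rcases mem_insert.1 hz with rfl | hzU
      · exact iff_of_true (hcK p hpU hpK).symm (hcK v hv hvK).symm
      · by_cases hzK : isK z
        · have hn : ¬ G.Adj y z := fun h => hzP (mem_filter.2 ⟨hzU, Or.inl ⟨hzK, h⟩⟩)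
          exact iff_of_true (ht.cl p hpU z hzU hpK hzK fun e => hn (e ▸ hyp))
            (ht.cl v hv z hzU hvK hzK fun e => hn (e ▸ hvy.symm))
        · by_cases hza : G.Adj a z
          · exact ⟨h1 p hpU hpK hyp v hv hvK hvy.symm z hzU hzK hza,
              h1 v hv hvK hvy.symm p hpU hpK hyp z hzU hzK hza⟩
          · by_cases hzc : G.Adj c z
            · exact ⟨h2 p hpU hpK hyp v hv hvK hvy.symm z hzU hza hzc,
                h2 v hv hvK hvy.symm p hpU hpK hyp z hzU hza hzc⟩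
            · exact iff_of_false
                (fun h => hzP (mem_filter.2 ⟨hzU, Or.inr ⟨hza, hzc, p, hpU, hpK, hyp, h.symm⟩⟩))
                fun h => hzP (mem_filter.2
                  ⟨hzU, Or.inr ⟨hza, hzc, v, hv, hvK, hvy.symm, h.symm⟩⟩)
    · refine iff_of_false (fun h => ?_) fun h => hpa (ht.aK p hpU h.1.1)
      rcases mem_insert.1 hz with rfl | hzU
      · exact hpc h.symm
      · by_cases hzK : isK z
        · exact hzP (mem_filter.2
            ⟨hzU, Or.inl ⟨hzK, h3 p hpU hpa hpc k' hk' hkK' hyk' hpk' z hzU hzK h⟩⟩)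
        · by_cases hza : G.Adj a z
          · exact h4 p hpU hpa hpc k' hk' hkK' hyk' hpk' z hzU hzK hza h
          · exact ht.iY p hpU z hzU hpa hza h

end aux

theorem T1_of_star {k : ℕ} (h : T1star k) : ∃ K, T1 K := by
  obtain ⟨K, hK⟩ := sp_reduce (2 * (k + 1))
  refine ⟨K, fun V _ _ G W a isK ha hg hp ht => hK V G W fun U hU hsp => ?_⟩
  have ha' : a ∉ U := fun h => ha (hU h)
  have hg' := t1_gem_mono hg (insert_subset_insert a hU)
  have hp' := t1_p23_mono hp (insert_subset_insert a hU)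
  have ht' := t1_tri_mono ht hU
  by_cases hne : ∃ v ∈ U, G.Adj a v
  · obtain ⟨c, hc, hac, hcK, hcX⟩ := t1_exists_c hg' ht' hne
    have e : insert c (U.erase c) = U := insert_erase hc
    have ht'' := t1_tri_mono ht' (erase_subset c U)
    have hcK' : ∀ v ∈ U.erase c, isK v → G.Adj c v := fun v hv =>
      hcK v (mem_erase.1 hv).2 (mem_erase.1 hv).1
    have hcX' : ∀ v ∈ U.erase c, ¬ isK v → G.Adj a v → ¬ G.Adj c v := fun v hv =>
      hcX v (mem_erase.1 hv).2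
    refine wd_erase (by omega) c ((h V G (U.erase c) a c isK (fun h => ha' (mem_erase.1 h).2)
      (notMem_erase c U) hac (by rwa [e]) (by rwa [e]) ht'' hcK' hcX' ?_).mono (by omega))
    intro v hv hvK hx hy
    exact t1_last (notMem_erase c U) (by rwa [e]) (by rwa [e]) (by rwa [e]) ht'' hcK' hcX' hv hvK
      hx hy
  · push Not at hne
    exact (wd_indep fun x hx y hy => ht'.iY x hx y hy (hne x hx) (hne y hy)).mono (by omega)

end Pool.Agent.Lib.MP_1595d8_lc
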