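import Mathlib
import Pool.Agent.Lib.MP_1595d8_lc.H89Misc

/-!
Two adjacent dominating vertices.
-/

namespace Pool.Agent.Lib.MP_1595d8_lc

open Finset Pool.Agent.Lib.MP_042ec1_co

theorem wd_cuts (k : ℕ) : ∃ K : ℕ, ∀ (V : Type) [DecidableEq V] [Fintype V]
    (G : SimpleGraph V) (W : Finset V) (ρ : V → ℕ),
    (∀ r, Types G W (W.filter fun v => ρ v < r) k) →
    (∀ r, Wd G (W.filter fun v => ρ v = r) k) → Wd G W K := by
  refine ⟨k * (k * 2 ^ k) + k, fun V _ _ G W ρ hT hl => ?_⟩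
  have key : ∀ j, Dec G W (k * (k * 2 ^ k) + k) (W.filter fun x => ρ x < j) := by
    intro j
    induction j with
    | zero => simpa using Dec.empty
    | succ j ih =>
      have e : (W.filter fun x => ρ x < j + 1) =
          (W.filter fun x => ρ x < j) ∪ W.filter fun x => ρ x = j := by
        ext x
        simp only [mem_filter, mem_union]
        constructor
        · rintro ⟨h1, h2⟩
          rcases Nat.lt_succ_iff_lt_or_eq.1 h2 with h | h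
          · exact Or.inl ⟨h1, h⟩
          · exact Or.inr ⟨h1, h⟩
        · rintro (⟨h1, h2⟩ | ⟨h1, h2⟩)
          · exact ⟨h1, by omega⟩
          · exact ⟨h1, by omega⟩
      rw [e]
      refine .union _ _ ?_ ih ?_ ?_
      · rw [disjoint_left]
        intro x hx hx'
        have := (mem_filter.1 hx).2
        have := (mem_filter.1 hx').2
        omega
      · classical
        obtain ⟨P, _, c, hP, hc⟩ := hT (j + 1)
        obtain ⟨Q, _, d, hQ, hd⟩ := hT j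
        refine (Dec.transfer (G' := G) (W' := W) (hl j)
          (fun x => (c x, fun q : Q => ∃ z ∈ W, ρ z < j ∧ d z = q ∧ G.Adj z x))
          (fun _ _ _ _ _ _ _ _ h => h) ?_).mono ?_
        · intro x hx y hy hxy z hz hzl
          rw [mem_filter] at hx hy hzl
          rw [Prod.mk.injEq] at hxy
          have hne : ρ z ≠ j := fun h => hzl ⟨hz, h⟩
          by_cases hlt : ρ z < j
          · have aux : ∀ u ∈ W, ρ u = j →
                (G.Adj u z ↔ ∃ z' ∈ W, ρ z' < j ∧ d z' = d z ∧ G.Adj z' u) := by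
              intro u hu hu'
              refine ⟨fun h => ⟨z, hz, hlt, rfl, h.symm⟩, ?_⟩
              rintro ⟨z', h1, h2, h3, h4⟩
              exact ((hd z' (mem_filter.2 ⟨h1, h2⟩) z (mem_filter.2 ⟨hz, hlt⟩) h3 u hu
                fun h => by have := (mem_filter.1 h).2; omega).1 h4).symm
            rw [aux x hx.1 hx.2, aux y hy.1 hy.2]
            exact iff_of_eq (congrFun hxy.2 (d z))
          · exact hc x (mem_filter.2 ⟨hx.1, by omega⟩) y (mem_filter.2 ⟨hy.1, by omega⟩) hxy.1 z hz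
              fun h => by have := (mem_filter.1 h).2; omega
        · rw [Fintype.card_prod, Fintype.card_fun, Fintype.card_prop]
          exact (Nat.mul_le_mul_left _ (Nat.mul_le_mul hP
            (Nat.pow_le_pow_right (by norm_num) hQ))).trans (Nat.le_add_right _ _)
      · rw [← e]
        exact (hT (j + 1)).mono (Nat.le_add_left _ _)
  have := key (W.sup ρ + 1)
  rwa [filter_true_of_mem fun x hx => Nat.lt_succ_of_le (le_sup hx)] at this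

section aux
variable {V : Type} {G : SimpleGraph V} {W U : Finset V} {X Y K : V → Prop}

/-- The graph with the edges between `A` and `B \ A` complemented. -/
def t2flip (G : SimpleGraph V) (A B : V → Prop) : SimpleGraph V where
  Adj u v := ¬ (G.Adj u v ↔ (A u ∧ ¬ A v ∧ B v) ∨ (A v ∧ ¬ A u ∧ B u))
  symm := ⟨fun u v h h' => h (by rw [G.adj_comm, h', or_comm])⟩
  loopless := ⟨fun u h => h (iff_of_false (G.irrefl) (by tauto))⟩

lemma t2_wd_flip [DecidableEq V] {A B : V → Prop} {k : ℕ} (h : Wd (t2flip G A B) W k) :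
    Wd G W (k * 4) := by
  have := Dec.transfer (G' := G) (W' := W) h (fun x => (A x, B x)) ?_
    (fun _ _ _ _ _ z hz hz' => (hz' hz).elim)
  · rwa [Fintype.card_prod, Fintype.card_prop] at this
  · intro x _ y _ hxy z _ _ h
    rw [Prod.mk.injEq] at hxy
    simp only [t2flip] at h
    rw [hxy.1, hxy.2] at h
    tauto

lemma t2_split {I : V → Prop} (cov : ∀ v ∈ U, I v ∨ K v)
    (cl : ∀ u ∈ U, ∀ v ∈ U, K u → K v → u ≠ v → G.Adj u v)
    (ind : ∀ u ∈ U, ∀ v ∈ U, I u → I v → ¬ G.Adj u v)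
    (nest : ∀ i ∈ U, ∀ i' ∈ U, ∀ k ∈ U, ∀ k' ∈ U, I i → I i' → K k → K k' → G.Adj i k →
      G.Adj i' k' → ¬ G.Adj i k' → ¬ G.Adj i' k → False) : NoP4 G U := by
  intro a ha b hb c hc d hd ab bc cd ac ad bd
  have h1 : I a := by
    rcases cov a ha with h | h
    · exact h
    · rcases cov c hc with h' | h'
      · rcases cov d hd with h'' | h''
        · exact absurd cd (ind c hc d hd h' h'')
        · exact absurd (cl a ha d hd h h'' fun e => bd (e ▸ ab.symm)) ad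
      · exact absurd (cl a ha c hc h h' fun e => ad (e ▸ cd)) ac
  have h2 : I d := by
    rcases cov d hd with h | h
    · exact h
    · rcases cov b hb with h' | h'
      · exact absurd ab (ind a ha b hb h1 h')
      · exact absurd (cl b hb d hd h' h fun e => ad (e ▸ ab)) bd
  have h3 : K b := (cov b hb).resolve_left fun h => ind a ha b hb h1 h ab
  have h4 : K c := (cov c hc).resolve_left fun h => ind c hc d hd h h2 cd
  exact nest a ha d hd b hb c hc h1 h2 h3 h4 ab cd.symm ac fun h => bd h.symm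

lemma t2_top [DecidableEq V] {F : Finset (Finset V)} (nest : ∀ A ∈ F, ∀ B ∈ F, A ⊆ B ∨ B ⊆ A)
    {n : ℕ} (h : n + 1 ≤ F.card) : ∃ M ∈ F, ∃ F' ⊆ F, n ≤ F'.card ∧ ∀ A ∈ F', A ⊂ M := by
  obtain ⟨M, hM, hmax⟩ := exists_max_image F card (card_pos.1 (by omega))
  refine ⟨M, hM, F.erase M, erase_subset _ _, by rw [card_erase_of_mem hM]; omega, ?_⟩
  intro A hA
  obtain ⟨hne, hA⟩ := mem_erase.1 hA
  rcases nest A hA M hM with h | h
  · exact Finset.ssubset_iff_subset_ne.2 ⟨h, hne⟩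
  · exact absurd (eq_of_subset_of_card_le h (hmax A hA)).symm hne

lemma t2_chain [DecidableEq V] (S : Finset V) (T : V → Finset V)
    (nest : ∀ u ∈ S, ∀ v ∈ S, T u ⊆ T v ∨ T v ⊆ T u)
    (no5 : ∀ v₁ ∈ S, ∀ v₂ ∈ S, ∀ v₃ ∈ S, ∀ v₄ ∈ S, ∀ v₅ ∈ S, T v₁ ⊂ T v₂ → T v₂ ⊂ T v₃ →
      T v₃ ⊂ T v₄ → T v₄ ⊂ T v₅ → False) : (S.image T).card ≤ 4 := by
  by_contra hc
  have n0 : ∀ F ⊆ S.image T, ∀ A ∈ F, ∀ B ∈ F, A ⊆ B ∨ B ⊆ A := by
    intro F hF A hA B hB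
    obtain ⟨u, hu, rfl⟩ := mem_image.1 (hF hA)
    obtain ⟨v, hv, rfl⟩ := mem_image.1 (hF hB)
    exact nest u hu v hv
  obtain ⟨M₅, m5, F₄, s4, c4, l4⟩ := t2_top (n0 _ Subset.rfl) (n := 4) (by omega)
  obtain ⟨M₄, m4, F₃, s3, c3, l3⟩ := t2_top (n0 _ s4) (n := 3) c4
  obtain ⟨M₃, m3, F₂, s2, c2, l2⟩ := t2_top (n0 _ (s3.trans s4)) (n := 2) c3
  obtain ⟨M₂, m2, F₁, s1, c1, l1⟩ := t2_top (n0 _ (s2.trans (s3.trans s4))) (n := 1) c2
  obtain ⟨M₁, m1⟩ := card_pos.1 c1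
  obtain ⟨v₅, h5, rfl⟩ := mem_image.1 m5
  obtain ⟨v₄, h4, rfl⟩ := mem_image.1 (s4 m4)
  obtain ⟨v₃, h3, rfl⟩ := mem_image.1 (s4 (s3 m3))
  obtain ⟨v₂, h2, rfl⟩ := mem_image.1 (s4 (s3 (s2 m2)))
  obtain ⟨v₁, h1, rfl⟩ := mem_image.1 (s4 (s3 (s2 (s1 m1))))
  exact no5 v₁ h1 v₂ h2 v₃ h3 v₄ h4 v₅ h5 (l1 _ m1) (l2 _ m2) (l3 _ m3) (l4 _ m4)

/-- The facts on the three parts that are used below. -/
structure T2H (G : SimpleGraph V) (W : Finset V) (X Y K : V → Prop) : Prop where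
  cov : ∀ v ∈ W, X v ∨ Y v ∨ K v
  xy : ∀ v ∈ W, X v → ¬ Y v
  xk : ∀ v ∈ W, X v → ¬ K v
  yk : ∀ v ∈ W, Y v → ¬ K v
  cl : ∀ u ∈ W, ∀ v ∈ W, K u → K v → u ≠ v → G.Adj u v
  iX : ∀ u ∈ W, ∀ v ∈ W, X u → X v → ¬ G.Adj u v
  iY : ∀ u ∈ W, ∀ v ∈ W, Y u → Y v → ¬ G.Adj u v
  gem : NoGem G W
  p23 : NoP23 G W
  f1 : ∀ i ∈ W, ∀ i' ∈ W, ∀ k ∈ W, ∀ k' ∈ W, X i → X i' → K k → K k' → G.Adj i k →
    G.Adj i' k' → ¬ G.Adj i k' → ¬ G.Adj i' k → False
  f2 : ∀ i ∈ W, ∀ i' ∈ W, ∀ k ∈ W, ∀ k' ∈ W, Y i → Y i' → K k → K k' → G.Adj i k →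
    G.Adj i' k' → ¬ G.Adj i k' → ¬ G.Adj i' k → False
  f3 : ∀ k ∈ W, ∀ x ∈ W, ∀ y ∈ W, K k → X x → Y y → G.Adj k x → G.Adj k y → G.Adj x y

lemma T2H.mono (H : T2H G W X Y K) (hU : U ⊆ W) : T2H G U X Y K where
  cov v hv := H.cov v (hU hv)
  xy v hv := H.xy v (hU hv)
  xk v hv := H.xk v (hU hv)
  yk v hv := H.yk v (hU hv)
  cl u hu v hv := H.cl u (hU hu) v (hU hv)
  iX u hu v hv := H.iX u (hU hu) v (hU hv)
  iY u hu v hv := H.iY u (hU hu) v (hU hv)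
  gem e he a ha b hb c hc d hd := H.gem e (hU he) a (hU ha) b (hU hb) c (hU hc) d (hU hd)
  p23 e he a ha b hb c hc d hd := H.p23 e (hU he) a (hU ha) b (hU hb) c (hU hc) d (hU hd)
  f1 a ha b hb c hc d hd := H.f1 a (hU ha) b (hU hb) c (hU hc) d (hU hd)
  f2 a ha b hb c hc d hd := H.f2 a (hU ha) b (hU hb) c (hU hc) d (hU hd)
  f3 a ha b hb c hc := H.f3 a (hU ha) b (hU hb) c (hU hc)

/-- An edge `x v` and a path `y' x' y''`. -/
lemma T2H.one (H : T2H G W X Y K) {x x' v y' y'' : V} (hx : x ∈ W) (hx' : x' ∈ W) (hv : v ∈ W)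
    (hy' : y' ∈ W) (hy'' : y'' ∈ W) (Xx : X x) (Xx' : X x') (Yy' : Y y') (Yy'' : Y y'')
    (e1 : G.Adj x v) (n1 : ¬ G.Adj x' v) (e2 : G.Adj x' y') (e3 : G.Adj x' y'')
    (n2 : ¬ G.Adj x y') (n3 : ¬ G.Adj x y'') (n4 : ¬ G.Adj v y') (n5 : ¬ G.Adj v y'') :
    y' = y'' := by
  by_contra hne
  exact H.p23 x hx v hv y' hy' x' hx' y'' hy'' e1 e2.symm e3 hne (H.iY y' hy' y'' hy'' Yy' Yy'')
    n2 (H.iX x hx x' hx' Xx Xx') n3 n4 (fun h => n1 h.symm) n5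

/-- An edge `x v` and a path `x' u x''`. -/
lemma T2H.two (H : T2H G W X Y K) {x x' x'' v u : V} (hx : x ∈ W) (hx' : x' ∈ W) (hx'' : x'' ∈ W)
    (hv : v ∈ W) (hu : u ∈ W) (Xx : X x) (Xx' : X x') (Xx'' : X x'') (e1 : G.Adj x v)
    (e2 : G.Adj x' u) (e3 : G.Adj x'' u) (n1 : ¬ G.Adj x u) (n2 : ¬ G.Adj x' v)
    (n3 : ¬ G.Adj x'' v) (n4 : ¬ G.Adj v u) : x' = x'' := by
  by_contra hne
  exact H.p23 x hx v hv x' hx' u hu x'' hx'' e1 e2 e3.symm hne (H.iX x' hx' x'' hx'' Xx' Xx'')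
    (H.iX x hx x' hx' Xx Xx') n1 (H.iX x hx x'' hx'' Xx Xx'') (fun h => n2 h.symm) n4
    fun h => n3 h.symm

lemma T2H.nop4 (H : T2H G W X Y K) (hU : U ⊆ W) (hX : ∀ v ∈ U, ¬ X v) : NoP4 G U :=
  t2_split (I := Y) (fun v hv => (H.cov v (hU hv)).resolve_left (hX v hv)) (H.mono hU).cl
    (H.mono hU).iY (H.mono hU).f2

/-- A level on which `X` is complete to `Y`. -/
lemma T2H.levelA [DecidableEq V] [Fintype V] (H : T2H G W X Y K)
    (h1 : ∀ k ∈ W, K k → ∃ x ∈ W, X x ∧ G.Adj k x)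
    (hc : ∀ x ∈ W, ∀ y ∈ W, X x → Y y → G.Adj x y) : Wd G W 4 := by
  refine t2_wd_flip (A := Y) (B := fun _ => True) (k := 1) (wd_cograph ?_)
  have mix : ∀ x ∈ W, ∀ y ∈ W, ∀ k ∈ W, ∀ k' ∈ W, X x → Y y → K k → K k' → G.Adj x k →
      ¬ G.Adj y k' → ¬ G.Adj x k' → G.Adj y k → False := by
    intro x hx y hy k hk k' hk' Xx Yy Kk Kk' e1 n1 n2 e2
    obtain ⟨u, hu, Xu, e3⟩ := h1 k' hk' Kk'
    have e4 : G.Adj u k := by
      by_contra hn
      exact H.f1 x hx u hu k hk k' hk' Xx Xu Kk Kk' e1 e3.symm n2 hn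
    exact H.gem k hk x hx y hy u hu k' hk' e1.symm e2.symm e4.symm
      (H.cl k hk k' hk' Kk Kk' fun e => n2 (e ▸ e1)) (hc x hx y hy Xx Yy)
      (hc u hu y hy Xu Yy).symm e3.symm (H.iX x hx u hu Xx Xu) n2 n1
  refine t2_split (I := fun v => X v ∨ Y v) (K := K)
    (fun v hv => by have := H.cov v hv; tauto) ?_ ?_ ?_
  · intro u hu v hv Ku Kv hne
    have := H.cl u hu v hv Ku Kv hne
    have := H.yk u hu
    have := H.yk v hv
    simp only [t2flip]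
    tauto
  · intro u hu v hv Iu Iv
    have := H.xy u hu
    have := H.xy v hv
    have := H.iX u hu v hv
    have := H.iY u hu v hv
    have := hc u hu v hv
    have := fun h h' => (hc v hv u hu h h').symm
    simp only [t2flip]
    tauto
  · intro i hi i' hi' k hk k' hk' Ii Ii' Kk Kk' e1 e2 n1 n2
    have y1 : ¬ Y k := fun h => H.yk k hk h Kk
    have y2 : ¬ Y k' := fun h => H.yk k' hk' h Kk'
    simp only [t2flip, y1, y2, false_and, or_false, not_false_eq_true, and_true,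
      not_not] at e1 e2 n1 n2
    rcases Ii with Xi | Yi <;> rcases Ii' with Xi' | Yi'
    · have := H.xy i hi Xi
      have := H.xy i' hi' Xi'
      exact H.f1 i hi i' hi' k hk k' hk' Xi Xi' Kk Kk' (by tauto) (by tauto) (by tauto) (by tauto)
    · have := H.xy i hi Xi
      exact mix i hi i' hi' k hk k' hk' Xi Yi' Kk Kk' (by tauto) (by tauto) (by tauto) (by tauto)
    · have := H.xy i' hi' Xi'
      exact mix i' hi' i hi k' hk' k hk Xi' Yi Kk' Kk (by tauto) (by tauto) (by tauto) (by tauto)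
    · exact H.f2 i hi i' hi' k' hk' k hk Yi Yi' Kk' Kk (by tauto) (by tauto) (by tauto) (by tauto)

/-- A level on which the neighbourhoods differ by an exchange. -/
lemma T2H.levelB [DecidableEq V] [Fintype V] [DecidablePred X] (H : T2H G W X Y K) {k₀ : ℕ}
    (hP : ∀ (G : SimpleGraph V) (W T : Finset V), (∀ t ∈ T, ∀ t' ∈ T, ¬ G.Adj t t') →
      (∀ t ∈ T, ∀ y ∈ W, ∀ z ∈ W, G.Adj t y → G.Adj t z → y = z) → Wd G (W \ T) 1 → Wd G W k₀)
    (E : ∀ x ∈ W, ∀ x' ∈ W, X x → X x' → ∀ y ∈ W, Y y → G.Adj x y → ¬ G.Adj x' y →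
      ∃ y' ∈ W, Y y' ∧ G.Adj x' y' ∧ ¬ G.Adj x y')
    (hne : ∃ x ∈ W, ∃ x' ∈ W, ∃ y ∈ W, X x ∧ X x' ∧ Y y ∧ G.Adj x y ∧ ¬ G.Adj x' y)
    (h3 : 3 ≤ (W.filter X).card) : Wd G W (4 * (k₀ * 4 + 1)) := by
  classical
  have U : ∀ x ∈ W, ∀ x' ∈ W, X x → X x' → ∀ y ∈ W, ∀ z ∈ W, Y y → Y z → G.Adj x y →
      G.Adj x z → ¬ G.Adj x' y → ¬ G.Adj x' z → y = z := by
    intro x hx x' hx' Xx Xx' y hy z hz Yy Yz e1 e2 n1 n2
    obtain ⟨w, hw, Yw, e3, n3⟩ := E x hx x' hx' Xx Xx' y hy Yy e1 n1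
    exact H.one hx' hx hw hy hz Xx' Xx Yy Yz e3 n3 e1 e2 n1 n2 (H.iY w hw y hy Yw Yy)
      (H.iY w hw z hz Yw Yz)
  have D : ∀ x ∈ W, ∀ x' ∈ W, X x → X x' → x ≠ x' →
      ∃ y ∈ W, Y y ∧ G.Adj x y ∧ ¬ G.Adj x' y := by
    intro x hx x' hx' Xx Xx' hxx
    by_contra hn
    have a1 : ∀ y ∈ W, Y y → G.Adj x y → G.Adj x' y := fun y hy Yy e => by
      by_contra h
      exact hn ⟨y, hy, Yy, e, h⟩
    have a2 : ∀ y ∈ W, Y y → G.Adj x' y → G.Adj x y := fun y hy Yy e => by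
      by_contra h
      exact hn (E x' hx' x hx Xx' Xx y hy Yy e h)
    obtain ⟨u, hu, Xu, y, hy, Yy, e1, n1⟩ :
        ∃ u ∈ W, X u ∧ ∃ y ∈ W, Y y ∧ G.Adj x y ∧ ¬ G.Adj u y := by
      obtain ⟨x₁, h1, x₂, h2, y, hy, X1, X2, Yy, e1, n1⟩ := hne
      by_cases h : G.Adj x y
      · exact ⟨x₂, h2, X2, y, hy, Yy, h, n1⟩
      · exact ⟨x₁, h1, X1, E x₁ h1 x hx X1 Xx y hy Yy e1 h⟩
    obtain ⟨z, hz, Yz, e2, n2⟩ := E x hx u hu Xx Xu y hy Yy e1 n1
    exact hxx (H.two hu hx hx' hz hy Xu Xx Xx' e2 e1 (a1 y hy Yy e1) n1 n2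
      (fun h => n2 (a2 z hz Yz h)) (H.iY z hz y hy Yz Yy))
  have C1 : ∀ y ∈ W, Y y → ∀ x₁ ∈ W, ∀ x₂ ∈ W, ∀ x₃ ∈ W, ∀ x₄ ∈ W, X x₁ → X x₂ → X x₃ → X x₄ →
      x₁ ≠ x₂ → G.Adj x₁ y → G.Adj x₂ y → ¬ G.Adj x₃ y → ¬ G.Adj x₄ y → x₃ = x₄ := by
    intro y hy Yy x₁ h1 x₂ h2 x₃ h3 x₄ h4 X1 X2 X3 X4 h12 e1 e2 n3 n4
    have aux : ∀ u ∈ W, X u → ¬ G.Adj u y →
        ∃ z ∈ W, Y z ∧ G.Adj u z ∧ ¬ G.Adj x₁ z ∧ G.Adj x₂ z := by
      intro u hu Xu nu
      obtain ⟨z, hz, Yz, e3, n5⟩ := E x₁ h1 u hu X1 Xu y hy Yy e1 nu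
      refine ⟨z, hz, Yz, e3, n5, ?_⟩
      by_contra hn
      exact h12 (H.two hu h1 h2 hz hy Xu X1 X2 e3 e1 e2 nu n5 hn (H.iY z hz y hy Yz Yy))
    obtain ⟨z, hz, Yz, a1, a2, a3⟩ := aux x₃ h3 X3 n3
    obtain ⟨w, hw, Yw, b1, b2, b3⟩ := aux x₄ h4 X4 n4
    obtain rfl := U x₂ h2 x₁ h1 X2 X1 z hz w hw Yz Yw a3 b3 a2 b2
    exact H.two h1 h3 h4 hy hz X1 X3 X4 e1 a1 b1 a2 n3 n4 (H.iY y hy z hz Yy Yz)
  have C2 : ∀ k ∈ W, K k → ∀ x₁ ∈ W, ∀ x₂ ∈ W, ∀ x₃ ∈ W, ∀ x₄ ∈ W, X x₁ → X x₂ → X x₃ → X x₄ →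
      x₁ ≠ x₂ → G.Adj x₁ k → G.Adj x₂ k → ¬ G.Adj x₃ k → ¬ G.Adj x₄ k → x₃ = x₄ := by
    intro k hk Kk x₁ h1 x₂ h2 x₃ h3 x₄ h4 X1 X2 X3 X4 h12 e1 e2 n3 n4
    by_contra h34
    obtain ⟨z, hz, Yz, a1, a2⟩ := D x₃ h3 x₁ h1 X3 X1 fun e => n3 (e ▸ e1)
    have a3 : ¬ G.Adj k z := fun h => a2 (H.f3 k hk x₁ h1 z hz Kk X1 Yz e1.symm h)
    have a4 : G.Adj x₂ z := by
      by_contra hn
      exact h12 (H.two h3 h1 h2 hz hk X3 X1 X2 a1 e1 e2 n3 a2 hn fun h => a3 h.symm)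
    have a5 : ¬ G.Adj x₄ z := fun h =>
      h34 (H.two h1 h3 h4 hk hz X1 X3 X4 e1 a1 h a2 n3 n4 a3)
    obtain rfl := C1 z hz Yz x₃ h3 x₂ h2 x₁ h1 x₄ h4 X3 X2 X1 X4 (fun e => n3 (e ▸ e2)) a1 a4 a2 a5
    exact n4 e1
  obtain ⟨B, hB⟩ : ∃ B : V → Prop, ∀ v, B v ↔
      ∃ x₁ ∈ W, ∃ x₂ ∈ W, X x₁ ∧ X x₂ ∧ x₁ ≠ x₂ ∧ G.Adj x₁ v ∧ G.Adj x₂ v := ⟨_, fun _ => Iff.rfl⟩
  have sm : ∀ v, ¬ B v → ∀ x ∈ W, ∀ x' ∈ W, X x → X x' → x ≠ x' → G.Adj x v → ¬ G.Adj x' v :=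
    fun v hv x hx x' hx' Xx Xx' h e e' => hv ((hB v).2 ⟨x, hx, x', hx', Xx, Xx', h, e, e'⟩)
  have bg : ∀ v ∈ W, ¬ X v → B v → ∀ x ∈ W, ∀ x' ∈ W, X x → X x' → x ≠ x' → ¬ G.Adj x v →
      G.Adj x' v := by
    intro v hv Xv Bv x hx x' hx' Xx Xx' h n
    obtain ⟨x₁, h1, x₂, h2, X1, X2, h12, e1, e2⟩ := (hB v).1 Bv
    by_contra n'
    rcases (H.cov v hv).resolve_left Xv with h' | h'
    · exact h (C1 v hv h' x₁ h1 x₂ h2 x hx x' hx' X1 X2 Xx Xx' h12 e1 e2 n n')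
    · exact h (C2 v hv h' x₁ h1 x₂ h2 x hx x' hx' X1 X2 Xx Xx' h12 e1 e2 n n')
  have hR : ((W.filter fun x => X x ∧ ∃ k ∈ W, K k ∧ ¬ B k ∧ G.Adj x k) ∪
      W.filter fun x => X x ∧ ∃ k ∈ W, K k ∧ B k ∧ ¬ G.Adj x k).card ≤ 2 := by
    refine (card_union_le _ _).trans (add_le_add (b := 1) (d := 1) ?_ ?_)
    · refine card_le_one.2 fun x hx x' hx' => ?_
      obtain ⟨hx, Xx, k, hk, Kk, Bk, e⟩ := mem_filter.1 hx
      obtain ⟨hx', Xx', k', hk', Kk', Bk', e'⟩ := mem_filter.1 hx'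
      by_contra h
      exact H.f1 x hx x' hx' k hk k' hk' Xx Xx' Kk Kk' e e'
        (sm k' Bk' x' hx' x hx Xx' Xx (Ne.symm h) e') (sm k Bk x hx x' hx' Xx Xx' h e)
    · refine card_le_one.2 fun x hx x' hx' => ?_
      obtain ⟨hx, Xx, k, hk, Kk, Bk, e⟩ := mem_filter.1 hx
      obtain ⟨hx', Xx', k', hk', Kk', Bk', e'⟩ := mem_filter.1 hx'
      by_contra h
      exact H.f1 x hx x' hx' k' hk' k hk Xx Xx' Kk' Kk
        (bg k' hk' (fun h => H.xk k' hk' h Kk') Bk' x' hx' x hx Xx' Xx (Ne.symm h) e')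
        (bg k hk (fun h => H.xk k hk h Kk) Bk x hx x' hx' Xx Xx' h e) e e'
  set R := (W.filter fun x => X x ∧ ∃ k ∈ W, K k ∧ ¬ B k ∧ G.Adj x k) ∪
      W.filter fun x => X x ∧ ∃ k ∈ W, K k ∧ B k ∧ ¬ G.Adj x k with hRdef
  refine (wd_sdiff (k := k₀ * 4 + 1) (by omega) R ((t2_wd_flip (A := X) (B := B)
    (hP _ (W \ R) ((W \ R).filter X) ?_ ?_ (wd_cograph ?_))).mono (by omega))).mono
    (Nat.mul_le_mul_right _ ((Nat.pow_le_pow_right (by norm_num) hR).trans (by norm_num)))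
  · intro t ht t' ht'
    obtain ⟨h1, X1⟩ := mem_filter.1 ht
    obtain ⟨h2, X2⟩ := mem_filter.1 ht'
    have := H.iX t (mem_sdiff.1 h1).1 t' (mem_sdiff.1 h2).1 X1 X2
    simp only [t2flip]
    tauto
  · intro t ht y hy z hz e1 e2
    obtain ⟨h1, Xt⟩ := mem_filter.1 ht
    obtain ⟨ht, htR⟩ := mem_sdiff.1 h1
    have aux : ∀ y ∈ W, (t2flip G X B).Adj t y →
        Y y ∧ ¬ X y ∧ ((¬ B y ∧ G.Adj t y) ∨ (B y ∧ ¬ G.Adj t y)) := by
      intro y hy e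
      have a1 := H.iX t ht y hy Xt
      simp only [t2flip] at e
      have a2 : ¬ X y := by tauto
      have a3 : (¬ B y ∧ G.Adj t y) ∨ (B y ∧ ¬ G.Adj t y) := by tauto
      refine ⟨((H.cov y hy).resolve_left a2).resolve_right fun Ky => htR ?_, a2, a3⟩
      rcases a3 with a3 | a3
      · exact mem_union_left _ (mem_filter.2 ⟨ht, Xt, y, hy, Ky, a3⟩)
      · exact mem_union_right _ (mem_filter.2 ⟨ht, Xt, y, hy, Ky, a3⟩)
    have hy' := (mem_sdiff.1 hy).1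
    have hz' := (mem_sdiff.1 hz).1
    obtain ⟨Yy, Xy, a1⟩ := aux y hy' e1
    obtain ⟨Yz, Xz, a2⟩ := aux z hz' e2
    obtain ⟨u, hu, u', hu', huu⟩ := one_lt_card.1 (show 1 < ((W.filter X).erase t).card by
      rw [card_erase_of_mem (mem_filter.2 ⟨ht, Xt⟩)]; omega)
    obtain ⟨hut, hu⟩ := mem_erase.1 hu
    obtain ⟨hut', hu'⟩ := mem_erase.1 hu'
    obtain ⟨hu, Xu⟩ := mem_filter.1 hu
    obtain ⟨hu', Xu'⟩ := mem_filter.1 hu'
    have mix : ∀ y ∈ W, ∀ z ∈ W, Y y → Y z → ¬ X z → ¬ B y → G.Adj t y → B z → ¬ G.Adj t z →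
        False := by
      intro y hy z hz Yy Yz Xz By e Bz n
      obtain ⟨w, hw, Yw, b1, b2⟩ := D u hu u' hu' Xu Xu' huu
      by_cases h : G.Adj t w
      · obtain rfl := U t ht u' hu' Xt Xu' w hw y hy Yw Yy h e b2
          (sm y By t ht u' hu' Xt Xu' hut'.symm e)
        exact sm w By t ht u hu Xt Xu hut.symm e b1
      · obtain rfl := U u hu t ht Xu Xt w hw z hz Yw Yz b1
          (bg z hz Xz Bz t ht u hu Xt Xu hut.symm n) h n
        exact b2 (bg w hz Xz Bz t ht u' hu' Xt Xu' hut'.symm n)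
    rcases a1 with ⟨By, ey⟩ | ⟨By, ny⟩ <;> rcases a2 with ⟨Bz, ez⟩ | ⟨Bz, nz⟩
    · exact U t ht u hu Xt Xu y hy' z hz' Yy Yz ey ez (sm y By t ht u hu Xt Xu hut.symm ey)
        (sm z Bz t ht u hu Xt Xu hut.symm ez)
    · exact (mix y hy' z hz' Yy Yz Xz By ey Bz nz).elim
    · exact (mix z hz' y hy' Yz Yy Xy Bz ez By ny).elim
    · exact U u hu t ht Xu Xt y hy' z hz' Yy Yz (bg y hy' Xy By t ht u hu Xt Xu hut.symm ny)
        (bg z hz' Xz Bz t ht u hu Xt Xu hut.symm nz) ny nz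
  · have hX : ∀ v ∈ (W \ R) \ (W \ R).filter X, ¬ X v := fun v hv h =>
      (mem_sdiff.1 hv).2 (mem_filter.2 ⟨(mem_sdiff.1 hv).1, h⟩)
    have h4 := H.nop4 (sdiff_subset.trans sdiff_subset) hX
    have eq : ∀ u ∈ (W \ R) \ (W \ R).filter X, ∀ v ∈ (W \ R) \ (W \ R).filter X,
        ((t2flip G X B).Adj u v ↔ G.Adj u v) := by
      intro u hu v hv
      have := hX u hu
      have := hX v hv
      simp only [t2flip]
      tauto
    intro a ha b hb c hc d hd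
    rw [eq a ha b hb, eq b hb c hc, eq c hc d hd, eq a ha c hc, eq a ha d hd, eq b hb d hd]
    exact h4 a ha b hb c hc d hd

/-- The neighbours in `Y`. -/
noncomputable def t2N (G : SimpleGraph V) (W : Finset V) (Y : V → Prop) (x : V) : Finset V :=
  @Finset.filter V (fun y => Y y ∧ G.Adj x y) (Classical.decPred _) W

lemma t2_mem {x y : V} : y ∈ t2N G W Y x ↔ y ∈ W ∧ Y y ∧ G.Adj x y :=
  @Finset.mem_filter V _ (Classical.decPred _) _ _

lemma t2_exists {x x' : V} (h : (t2N G W Y x).card < (t2N G W Y x').card) :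
    ∃ y ∈ W, Y y ∧ G.Adj x' y ∧ ¬ G.Adj x y := by
  obtain ⟨y, h1, h2⟩ := exists_mem_notMem_of_card_lt_card h
  obtain ⟨a, b, c⟩ := t2_mem.1 h1
  exact ⟨y, a, b, c, fun e => h2 (t2_mem.2 ⟨a, b, e⟩)⟩

/-- A smaller degree gives a smaller neighbourhood. -/
lemma T2H.sub (H : T2H G W X Y K) {x x' y : V} (hx : x ∈ W) (hx' : x' ∈ W) (hy : y ∈ W)
    (Xx : X x) (Xx' : X x') (Yy : Y y) (h : (t2N G W Y x).card < (t2N G W Y x').card)
    (e : G.Adj x y) : G.Adj x' y := by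
  classical
  by_contra n
  obtain ⟨z, hz, Yz, e', n'⟩ := t2_exists h
  have h1 : t2N G W Y x' ⊆ insert z ((t2N G W Y x).erase y) := by
    intro w hw
    obtain ⟨a, b, c⟩ := t2_mem.1 hw
    by_cases d : G.Adj x w
    · exact mem_insert_of_mem (mem_erase.2 ⟨fun e => n (e ▸ c), t2_mem.2 ⟨a, b, d⟩⟩)
    · rw [H.one hx hx' hy a hz Xx Xx' b Yz e n c e' d n' (H.iY y hy w a Yy b)
        (H.iY y hy z hz Yy Yz)]
      exact mem_insert_self _ _
  have h2 := (card_le_card h1).trans (card_insert_le _ _)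
  have h3 := card_erase_add_one (t2_mem.2 ⟨hy, Yy, e⟩ : y ∈ t2N G W Y x)
  omega

lemma T2H.deg (H : T2H G W X Y K) {x x' k : V} (hx : x ∈ W) (hx' : x' ∈ W) (hk : k ∈ W)
    (Xx : X x) (Xx' : X x') (Kk : K k) (e : G.Adj x k) (n : ¬ G.Adj x' k) :
    (t2N G W Y x').card ≤ (t2N G W Y x).card + 1 := by
  classical
  by_contra h
  obtain ⟨z, hz, Yz, e', n'⟩ := t2_exists (G := G) (W := W) (Y := Y) (x := x) (x' := x') (by omega)
  have h1 : t2N G W Y x' ⊆ insert z (t2N G W Y x) := by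
    intro w hw
    obtain ⟨a, b, c⟩ := t2_mem.1 hw
    by_cases d : G.Adj x w
    · exact mem_insert_of_mem (t2_mem.2 ⟨a, b, d⟩)
    · rw [H.one hx hx' hk a hz Xx Xx' b Yz e n c e' d n'
        (fun h => d (H.f3 k hk x hx w a Kk Xx b e.symm h))
        fun h => n' (H.f3 k hk x hx z hz Kk Xx Yz e.symm h)]
      exact mem_insert_self _ _
  exact h ((card_le_card h1).trans (card_insert_le _ _))

/-- The cuts have few types. -/
lemma T2H.cut [DecidableEq V] (H : T2H G W X Y K) {S : Finset V} (hS : S ⊆ W) (r : ℕ)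
    (lo : ∀ v ∈ S, ¬ X v → ∃ x ∈ W, X x ∧ G.Adj x v ∧ (t2N G W Y x).card < r)
    (loX : ∀ x ∈ S, X x → (t2N G W Y x).card < r)
    (hiX : ∀ x ∈ W, x ∉ S → X x → r ≤ (t2N G W Y x).card)
    (hi : ∀ v ∈ W, v ∉ S → ¬ X v → ∀ x ∈ W, X x → G.Adj x v → r ≤ (t2N G W Y x).card) :
    Types G W S 13 := by
  classical
  obtain ⟨T, hT⟩ : ∃ T : V → Finset V, ∀ v z, z ∈ T v ↔ z ∈ W ∧ z ∉ S ∧ G.Adj v z :=
    ⟨fun v => (W \ S).filter (G.Adj v), fun v z => by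
      simp only [mem_filter, mem_sdiff, and_assoc]⟩
  have wit : ∀ u v, T u ⊂ T v → ∃ z ∈ W, z ∉ S ∧ G.Adj v z ∧ ¬ G.Adj u z := by
    intro u v h
    obtain ⟨z, h1, h2⟩ := exists_of_ssubset h
    obtain ⟨a, b, c⟩ := (hT v z).1 h1
    exact ⟨z, a, b, c, fun e => h2 ((hT u z).2 ⟨a, b, e⟩)⟩
  have up : ∀ u v, T u ⊂ T v → ∀ z ∈ W, z ∉ S → G.Adj u z → G.Adj v z :=
    fun u v h z a b c => ((hT v z).1 (h.subset ((hT u z).2 ⟨a, b, c⟩))).2.2
  have nst : ∀ u v, (∀ z ∈ W, z ∉ S → ∀ w ∈ W, w ∉ S → G.Adj u z → G.Adj v w → ¬ G.Adj u w →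
      ¬ G.Adj v z → False) → T u ⊆ T v ∨ T v ⊆ T u := by
    intro u v h
    by_contra hn
    rw [not_or, not_subset, not_subset] at hn
    obtain ⟨⟨z, a1, a2⟩, w, b1, b2⟩ := hn
    obtain ⟨c1, c2, c3⟩ := (hT u z).1 a1
    obtain ⟨d1, d2, d3⟩ := (hT v w).1 b1
    exact h z c1 c2 w d1 d2 c3 d3 (fun e => b2 ((hT u w).2 ⟨d1, d2, e⟩))
      fun e => a2 ((hT v z).2 ⟨c1, c2, e⟩)
  have anti : ∀ x ∈ W, X x → (t2N G W Y x).card < r → ∀ z ∈ W, z ∉ S → ¬ G.Adj x z := by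
    intro x hx Xx h z hz hzS e
    by_cases Xz : X z
    · exact H.iX x hx z hz Xx Xz e
    · exact absurd (hi z hz hzS Xz x hx Xx e) (by omega)
  have cX : ((S.filter X).image T).card ≤ 4 := by
    refine t2_chain _ T (fun u hu v _ => nst u v fun z a b _ _ _ e _ _ _ => ?_)
      fun _ _ v hv _ _ _ _ _ _ h _ _ _ => ?_
    · obtain ⟨h1, h2⟩ := mem_filter.1 hu
      exact anti u (hS h1) h2 (loX u h1 h2) z a b e
    · obtain ⟨h1, h2⟩ := mem_filter.1 hv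
      obtain ⟨z, a, b, e, -⟩ := wit _ _ h
      exact anti v (hS h1) h2 (loX v h1 h2) z a b e
  have cY : ((S.filter Y).image T).card ≤ 4 := by
    have kk : ∀ u ∈ S.filter Y, ∀ v ∈ S.filter Y, ∀ z ∈ W, z ∉ S → G.Adj v z → ¬ G.Adj u z →
        K z := by
      intro u hu v hv z hz hzS e n
      obtain ⟨h1, h2⟩ := mem_filter.1 hu
      obtain ⟨h3, h4⟩ := mem_filter.1 hv
      rcases H.cov z hz with h | h | h
      · obtain ⟨x, hx, Xx, e', hl⟩ := lo u h1 fun h => H.xy u (hS h1) h h2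
        exact absurd (H.sub hx hz (hS h1) Xx h h2 (hl.trans_le (hiX z hz hzS h)) e').symm n
      · exact absurd e (H.iY v (hS h3) z hz h4 h)
      · exact h
    refine t2_chain _ T (fun u hu v hv => nst u v fun z a b w c d e1 e2 n1 n2 => ?_)
      fun y₁ h1 y₂ h2 y₃ h3 y₄ h4 y₅ h5 l1 l2 l3 l4 => ?_
    · exact H.f2 u (hS (mem_filter.1 hu).1) v (hS (mem_filter.1 hv).1) z a w c (mem_filter.1 hu).2
        (mem_filter.1 hv).2 (kk v hv u hu z a b e1 n2) (kk u hu v hv w c d e2 n1) e1 e2 n1 n2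
    · obtain ⟨k₁, a1, b1, e1, n1⟩ := wit _ _ l1
      obtain ⟨k₃, a3, b3, e3, n3⟩ := wit _ _ l3
      obtain ⟨k₄, a4, b4, e4, n4⟩ := wit _ _ l4
      have K3 := kk _ h3 _ h4 k₃ a3 b3 e3 n3
      have K4 := kk _ h4 _ h5 k₄ a4 b4 e4 n4
      obtain ⟨s1, Y1⟩ := mem_filter.1 h1
      obtain ⟨s2, Y2⟩ := mem_filter.1 h2
      obtain ⟨s3, Y3⟩ := mem_filter.1 h3
      obtain ⟨x, hx, Xx, e, hl⟩ := lo y₁ s1 fun h => H.xy y₁ (hS s1) h Y1
      have m4 : ¬ G.Adj y₃ k₄ := fun h => n4 (up _ _ l3 k₄ a4 b4 h)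
      have aux : ∀ y ∈ W, Y y → T y₁ ⊂ T y → ¬ G.Adj y k₃ → ¬ G.Adj y k₄ → ¬ G.Adj x y := by
        intro y hy Yy l p3 p4 e'
        exact H.p23 k₃ a3 k₄ a4 y₁ (hS s1) x hx y hy
          (H.cl k₃ a3 k₄ a4 K3 K4 fun h => n4 (h ▸ e3)) e.symm e' (fun h => l.ne (h ▸ rfl))
          (H.iY y₁ (hS s1) y hy Y1 Yy) (fun h => p3 (up _ _ l k₃ a3 b3 h.symm))
          (fun h => anti x hx Xx hl k₃ a3 b3 h.symm) (fun h => p3 h.symm)
          (fun h => p4 (up _ _ l k₄ a4 b4 h.symm)) (fun h => anti x hx Xx hl k₄ a4 b4 h.symm)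
          fun h => p4 h.symm
      exact H.p23 x hx y₁ (hS s1) y₂ (hS s2) k₁ a1 y₃ (hS s3) e e1
        (up _ _ l2 k₁ a1 b1 e1).symm (fun h => l2.ne (h ▸ rfl))
        (H.iY y₂ (hS s2) y₃ (hS s3) Y2 Y3)
        (aux y₂ (hS s2) Y2 l1 (fun h => n3 (up _ _ l2 k₃ a3 b3 h))
          fun h => m4 (up _ _ l2 k₄ a4 b4 h))
        (anti x hx Xx hl k₁ a1 b1) (aux y₃ (hS s3) Y3 (l1.trans l2) n3 m4)
        (H.iY y₁ (hS s1) y₂ (hS s2) Y1 Y2) n1 (H.iY y₁ (hS s1) y₃ (hS s3) Y1 Y3)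
  have cK : ((S.filter K).image T).card ≤ 4 := by
    have xx : ∀ u ∈ S.filter K, ∀ v ∈ S.filter K, ∀ z ∈ W, z ∉ S → G.Adj v z → ¬ G.Adj u z →
        X z := by
      intro u hu v hv z hz hzS e n
      obtain ⟨h1, h2⟩ := mem_filter.1 hu
      obtain ⟨h3, h4⟩ := mem_filter.1 hv
      rcases H.cov z hz with h | h | h
      · exact h
      · obtain ⟨x, hx, Xx, e', hl⟩ := lo v h3 fun h => H.xk v (hS h3) h h4
        exact absurd (H.f3 v (hS h3) x hx z hz h4 Xx h e'.symm e) (anti x hx Xx hl z hz hzS)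
      · exact absurd (H.cl u (hS h1) z hz h2 h fun e => hzS (e ▸ h1)) n
    refine t2_chain _ T (fun u hu v hv => nst u v fun z a b w c d e1 e2 n1 n2 => ?_)
      fun k₁ h1 k h2 k₃ h3 k₄ h4 _ _ l1 l2 l3 _ => ?_
    · exact H.f1 z a w c u (hS (mem_filter.1 hu).1) v (hS (mem_filter.1 hv).1)
        (xx v hv u hu z a b e1 n2) (xx u hu v hv w c d e2 n1) (mem_filter.1 hu).2
        (mem_filter.1 hv).2 e1.symm e2.symm (fun h => n2 h.symm) fun h => n1 h.symm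
    · obtain ⟨z₁, a1, b1, e1, n1⟩ := wit _ _ l1
      obtain ⟨z₂, a2, b2, e2, n2⟩ := wit _ _ l2
      obtain ⟨z₃, a3, b3, e3, n3⟩ := wit _ _ l3
      have X1 := xx _ h1 _ h2 z₁ a1 b1 e1 n1
      have X2 := xx _ h2 _ h3 z₂ a2 b2 e2 n2
      have X3 := xx _ h3 _ h4 z₃ a3 b3 e3 n3
      have m3 : ¬ G.Adj k z₃ := fun h => n3 (up _ _ l2 z₃ a3 b3 h)
      obtain ⟨s1, K1⟩ := mem_filter.1 h1
      obtain ⟨s2, K2⟩ := mem_filter.1 h2
      obtain ⟨x₁, hx₁, Xx₁, f1, hl₁⟩ := lo k₁ s1 fun h => H.xk k₁ (hS s1) h K1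
      obtain ⟨x, hx, Xx, f, hl⟩ := lo k s2 fun h => H.xk k (hS s2) h K2
      have d1 := H.deg hx₁ a1 (hS s1) Xx₁ X1 K1 f1 fun h => n1 h.symm
      have d2 := H.deg hx a2 (hS s2) Xx X2 K2 f fun h => n2 h.symm
      have r1 := hiX z₁ a1 b1 X1
      have r2 := hiX z₂ a2 b2 X2
      have r3 := hiX z₃ a3 b3 X3
      have aux : ∀ z ∈ W, X z → ¬ G.Adj k z → r ≤ (t2N G W Y z).card →
          ∃ y ∈ W, Y y ∧ G.Adj z y ∧ ¬ G.Adj x y ∧ ¬ G.Adj k y ∧ G.Adj z₁ y := by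
        intro z hz Xz n hr
        obtain ⟨y, hy, Yy, g1, g2⟩ := t2_exists (hl.trans_le hr)
        have g3 : ¬ G.Adj k y := fun h => g2 (H.f3 k (hS s2) x hx y hy K2 Xx Yy f.symm h)
        refine ⟨y, hy, Yy, g1, g2, g3, ?_⟩
        by_contra g4
        obtain rfl := H.two hz hx a1 hy (hS s2) Xz Xx X1 g1 f e1.symm (fun h => n h.symm) g2 g4
          fun h => g3 h.symm
        omega
      obtain ⟨y, hy, Yy, g1, g2, g3, g4⟩ := aux z₂ a2 X2 n2 r2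
      obtain ⟨y', hy', Yy', g1', g2', -, g4'⟩ := aux z₃ a3 X3 m3 r3
      by_cases hyy : y = y'
      · subst hyy
        obtain rfl := H.two hx a2 a3 (hS s2) hy Xx X2 X3 f g1 g1' g2 (fun h => n2 h.symm)
          (fun h => m3 h.symm) g3
        exact n3 e2
      · have h1 : insert y (insert y' (t2N G W Y x)) ⊆ t2N G W Y z₁ := by
          refine insert_subset (t2_mem.2 ⟨hy, Yy, g4⟩) (insert_subset (t2_mem.2 ⟨hy', Yy', g4'⟩) ?_)
          intro w hw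
          obtain ⟨a, b, c⟩ := t2_mem.1 hw
          exact t2_mem.2 ⟨a, b, H.sub hx a1 a Xx X1 b (hl.trans_le r1) c⟩
        have h2 := card_le_card h1
        rw [card_insert_of_notMem (by
          rw [mem_insert, not_or]
          exact ⟨hyy, fun h => g2 (t2_mem.1 h).2.2⟩),
          card_insert_of_notMem fun h => g2' (t2_mem.1 h).2.2] at h2
        omega
  have cS : (S.image T).card ≤ 12 := by
    have : S.image T ⊆ (S.filter X).image T ∪ ((S.filter Y).image T ∪ (S.filter K).image T) := by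
      intro A hA
      obtain ⟨v, hv, rfl⟩ := mem_image.1 hA
      rcases H.cov v (hS hv) with h | h | h
      · exact mem_union_left _ (mem_image_of_mem _ (mem_filter.2 ⟨hv, h⟩))
      · exact mem_union_right _ (mem_union_left _ (mem_image_of_mem _ (mem_filter.2 ⟨hv, h⟩)))
      · exact mem_union_right _ (mem_union_right _ (mem_image_of_mem _ (mem_filter.2 ⟨hv, h⟩)))
    have h1 := (card_le_card this).trans (card_union_le _ _)
    have h2 := card_union_le ((S.filter Y).image T) ((S.filter K).image T)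
    omega
  refine ⟨Option (S.image T), inferInstance,
    fun x => if h : x ∈ S then some ⟨T x, mem_image_of_mem _ h⟩ else none, ?_, ?_⟩
  · rw [Fintype.card_option, Fintype.card_coe]
    omega
  · intro x hx y hy hxy z hz hzS
    simp only [dif_pos hx, dif_pos hy, Option.some.injEq, Subtype.mk.injEq] at hxy
    have h1 := hT x z
    rw [hxy, hT] at h1
    tauto

end aux

theorem exists_T2 : ∃ k, T2 k := by
  obtain ⟨k₀, hP⟩ := wd_pendant 1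
  obtain ⟨k₁, hC⟩ := wd_cuts (4 * (k₀ * 4 + 1) + 13)
  refine ⟨k₁, fun V _ _ G W a c _ _ ac gem p23 dom cl iX iY => ?_⟩
  classical
  have mW : ∀ v ∈ W, v ∈ insert a (insert c W) := fun v hv =>
    mem_insert_of_mem (mem_insert_of_mem hv)
  have ma : a ∈ insert a (insert c W) := mem_insert_self _ _
  have mc : c ∈ insert a (insert c W) := mem_insert_of_mem (mem_insert_self _ _)
  obtain ⟨X, Y, K, H⟩ : ∃ X Y K : V → Prop, T2H G W X Y K := by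
    refine ⟨fun v => ¬ G.Adj c v, fun v => ¬ G.Adj a v, fun v => G.Adj a v ∧ G.Adj c v,
      fun v _ => by tauto, fun v hv => by have := dom v hv; tauto, fun v _ => by tauto,
      fun v _ => by tauto, fun u hu v hv h h' => cl u hu v hv h.1 h.2 h'.1 h'.2, iX, iY,
      fun e he a ha b hb c hc d hd => gem e (mW e he) a (mW a ha) b (mW b hb) c (mW c hc) d (mW d hd),
      fun e he a ha b hb c hc d hd => p23 e (mW e he) a (mW a ha) b (mW b hb) c (mW c hc) d (mW d hd),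
      ?_, ?_, ?_⟩
    · intro i hi i' hi' k hk k' hk' Xi Xi' Kk Kk' e1 e2 n1 n2
      exact gem a ma i (mW i hi) k (mW k hk) k' (mW k' hk') i' (mW i' hi')
        ((dom i hi).resolve_right Xi) Kk.1 Kk'.1 ((dom i' hi').resolve_right Xi') e1
        (cl k hk k' hk' Kk.1 Kk.2 Kk'.1 Kk'.2 fun e => n1 (e ▸ e1)) e2.symm n1
        (iX i hi i' hi' Xi Xi') fun h => n2 h.symm
    · intro i hi i' hi' k hk k' hk' Yi Yi' Kk Kk' e1 e2 n1 n2
      exact gem c mc i (mW i hi) k (mW k hk) k' (mW k' hk') i' (mW i' hi')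
        ((dom i hi).resolve_left Yi) Kk.2 Kk'.2 ((dom i' hi').resolve_left Yi') e1
        (cl k hk k' hk' Kk.1 Kk.2 Kk'.1 Kk'.2 fun e => n1 (e ▸ e1)) e2.symm n1
        (iY i hi i' hi' Yi Yi') fun h => n2 h.symm
    · intro k hk x hx y hy Kk Xx Yy e1 e2
      by_contra n
      exact gem k (mW k hk) x (mW x hx) a ma c mc y (mW y hy) e1 Kk.1.symm Kk.2.symm e2
        ((dom x hx).resolve_right Xx).symm ac ((dom y hy).resolve_left Yy) (fun h => Xx h.symm) n Yy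
  have hex : ∀ v, ∃ n : ℕ, (X v → n = (t2N G W Y v).card) ∧
      (¬ X v → ∀ x ∈ W, X x → G.Adj x v → n ≤ (t2N G W Y x).card) ∧
      (¬ X v → n = W.card + 1 ∨ ∃ x ∈ W, X x ∧ G.Adj x v ∧ n = (t2N G W Y x).card) := by
    intro v
    by_cases hv : X v
    · exact ⟨_, fun _ => rfl, fun h => absurd hv h, fun h => absurd hv h⟩
    · by_cases hn : (W.filter fun x => X x ∧ G.Adj x v).Nonempty
      · obtain ⟨x, hx, hmin⟩ := exists_min_image _ (fun x => (t2N G W Y x).card) hn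
        obtain ⟨h1, h2, h3⟩ := mem_filter.1 hx
        exact ⟨_, fun h => absurd h hv, fun _ u a b c => hmin u (mem_filter.2 ⟨a, b, c⟩),
          fun _ => Or.inr ⟨x, h1, h2, h3, rfl⟩⟩
      · exact ⟨_, fun h => absurd h hv, fun _ u a b c => absurd ⟨u, mem_filter.2 ⟨a, b, c⟩⟩ hn,
          fun _ => Or.inl rfl⟩
  choose ρ ρ1 ρ2 ρ3 using hex
  have dle : ∀ x, (t2N G W Y x).card ≤ W.card := fun x =>
    card_le_card fun y hy => (t2_mem.1 hy).1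
  refine hC V G W ρ (fun r => ?_) fun r => ?_
  · by_cases hr : r ≤ W.card + 1
    · refine (H.cut (filter_subset _ _) r ?_ ?_ ?_ ?_).mono (by omega)
      · intro v hv Xv
        have h1 := (mem_filter.1 hv).2
        rcases ρ3 v Xv with h | ⟨x, a, b, c, d⟩
        · omega
        · exact ⟨x, a, b, c, by omega⟩
      · intro x hx Xx
        rw [← ρ1 x Xx]
        exact (mem_filter.1 hx).2
      · intro x hx hn Xx
        rw [← ρ1 x Xx]
        exact not_lt.1 fun h => hn (mem_filter.2 ⟨hx, h⟩)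
      · intro v hv hn Xv x hx Xx e
        exact (not_lt.1 fun h => hn (mem_filter.2 ⟨hv, h⟩)).trans (ρ2 v Xv x hx Xx e)
    · rw [filter_true_of_mem]
      · exact types_self (by omega)
      · intro v _
        by_cases Xv : X v
        · have := ρ1 v Xv
          have := dle v
          omega
        · rcases ρ3 v Xv with h | ⟨x, -, -, -, d⟩
          · omega
          · have := dle x
            omega
  · set L := W.filter fun v => ρ v = r with hL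
    have hLW : L ⊆ W := filter_subset _ _
    have mL : ∀ v, v ∈ L ↔ v ∈ W ∧ ρ v = r := fun v => mem_filter
    by_cases h3 : 3 ≤ (L.filter X).card
    · obtain ⟨x₀, h0⟩ := card_pos.1 (show 0 < (L.filter X).card by omega)
      have hr : r ≤ W.card := by
        obtain ⟨h1, h2⟩ := mem_filter.1 h0
        rw [← ((mL x₀).1 h1).2, ρ1 x₀ h2]
        exact dle x₀
      have h1 : ∀ v ∈ L, ¬ X v → ∃ x ∈ L, X x ∧ G.Adj x v := by
        intro v hv Xv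
        have := ((mL v).1 hv).2
        rcases ρ3 v Xv with h | ⟨x, a, b, c, d⟩
        · omega
        · exact ⟨x, (mL x).2 ⟨a, by rw [ρ1 x b]; omega⟩, b, c⟩
      by_cases hne : ∃ x ∈ L, ∃ x' ∈ L, ∃ y ∈ L, X x ∧ X x' ∧ Y y ∧ G.Adj x y ∧ ¬ G.Adj x' y
      · refine ((H.mono hLW).levelB (hP V) ?_ hne h3).mono (by omega)
        intro x hx x' hx' Xx Xx' y hy Yy e n
        obtain ⟨hx, dx⟩ := (mL x).1 hx
        obtain ⟨hx', dx'⟩ := (mL x').1 hx'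
        rw [ρ1 x Xx] at dx
        rw [ρ1 x' Xx'] at dx'
        obtain ⟨z, a1, a2⟩ := exists_mem_notMem_of_card_lt_card
          (s := (t2N G W Y x).erase y) (t := t2N G W Y x') (by
            have := card_erase_add_one (t2_mem.2 ⟨hLW hy, Yy, e⟩ : y ∈ t2N G W Y x)
            omega)
        obtain ⟨hz, Yz, e'⟩ := t2_mem.1 a1
        have n' : ¬ G.Adj x z := fun h =>
          a2 (mem_erase.2 ⟨fun e => n (e ▸ e'), t2_mem.2 ⟨hz, Yz, h⟩⟩)
        have Xz : ¬ X z := fun h => H.xy z hz h Yz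
        refine ⟨z, (mL z).2 ⟨hz, ?_⟩, Yz, e', n'⟩
        have b1 := ρ2 z Xz x' hx' Xx' e'
        rcases ρ3 z Xz with h | ⟨u, b2, b3, b4, b5⟩
        · omega
        · by_contra hne
          exact n' (H.sub b2 hx hz b3 Xx Yz (by omega) b4)
      · refine ((H.mono hLW).levelA ?_ ?_).mono (by omega)
        · intro k hk Kk
          obtain ⟨x, a, b, c⟩ := h1 k hk fun h => H.xk k (hLW hk) h Kk
          exact ⟨x, a, b, c.symm⟩
        · intro x hx y hy Xx Yy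
          obtain ⟨u, a, b, c⟩ := h1 y hy fun h => H.xy y (hLW hy) h Yy
          by_contra n
          exact hne ⟨u, a, x, hx, y, hy, b, Xx, Yy, c, n⟩
    · refine (wd_sdiff le_rfl (L.filter X) (wd_cograph (H.nop4 (sdiff_subset.trans hLW)
        fun v hv h => (mem_sdiff.1 hv).2 (mem_filter.2 ⟨(mem_sdiff.1 hv).1, h⟩)))).mono ?_
      have : 2 ^ (L.filter X).card ≤ 2 ^ 2 := Nat.pow_le_pow_right (by norm_num) (by omega)
      omega

end Pool.Agent.Lib.MP_1595d8_lc
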