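import Pool.Agent.Lib.MP_1595d8_lc.H89AA
import Pool.Agent.Lib.MP_1595d8_lc.H89BA
import Pool.Agent.Lib.MP_1595d8_lc.H89CA
import Pool.Agent.Lib.MP_1595d8_lc.H89SA
import Pool.Agent.Lib.MP_1595d8_lc.H89EA

/-!
Graphs without an induced gem or `P₂ + P₃` have bounded width.
-/

namespace Pool.Agent.Lib.MP_1595d8_lc

open Finset Pool.Agent.Lib.MP_042ec1_co

theorem bd_W4 : Bd [pW4, pGem, pP23] :=
  stage_k4 (stage_dia (stage_k3 (bd3.mono (by simp))))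

theorem bd_main : Bd [pGem, pP23] := stage_w4 ⟨bd_W4, stage_star bd_W4⟩

theorem wd_main : ∃ k : ℕ, ∀ (V : Type) [DecidableEq V] [Fintype V] (G : SimpleGraph V),
    IsEmpty (gem ↪g G) → IsEmpty (P2P3 ↪g G) → Wd G univ k :=
  wd_of_bd bd_main

end Pool.Agent.Lib.MP_1595d8_lc
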