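import Mathlib
import Pool.Agent.Lib.MP_1595d8_lc.H89R5
import Pool.Agent.Lib.MP_1595d8_lc.H89R2
import Pool.Agent.Lib.MP_1595d8_lc.H89T1
import Pool.Agent.Lib.MP_1595d8_lc.H89T2

/-!
Monotonicity lemmas and patterns.
-/

namespace Pool.Agent.Lib.MP_1595d8_lc

open Finset Pool.Agent.Lib.MP_042ec1_co

variable {σ : St} {LL S S' M M' RT AL : ℕ}

theorem sub_of_lor (h : Nat.beq (Nat.lor S S') S = true) {i : ℕ} (hi : S'.testBit i = true) :
    S.testBit i = true := by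
  have h' : S ||| S' = S := Nat.eq_of_beq_eq_true h
  rw [← h', Nat.testBit_or, hi, Bool.or_true]

theorem rt_mono (h : Upto (RTat σ LL S RT) 64) (hs : Nat.beq (Nat.lor S S') S = true) :
    Upto (RTat σ LL S' RT) 64 :=
  fun X hX V _ _ w a hm h1 Y hY h2 => h X hX V w a hm (sub_of_lor hs h1) Y hY (sub_of_lor hs h2)

theorem al_mono (h : Upto (ALat σ LL S AL) 64) (hs : Nat.beq (Nat.lor S S') S = true) :
    Upto (ALat σ LL S' AL) 64 :=
  fun X hX V _ _ w a hm h1 Y hY h2 => h X hX V w a hm (sub_of_lor hs h1) Y hY (sub_of_lor hs h2)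

theorem rt_zero (σ : St) (LL S : ℕ) : Upto (RTat σ LL S 0) 64 := by
  intro X _ V _ _ w a _ _ Y _ _ x y _ _ _
  have : phi 0 X Y = 0 := by simp [phi]
  rw [this]
  exact ⟨fun h => by simp at h, fun h => by simp at h⟩

theorem good_nom (h : dropChk S M 0 0 = true) : Good σ LL S M :=
  good_drop (rt_zero σ LL S) h (good_nomask σ LL S)

theorem Bd.mono {Ps Qs : List (List ℕ)} (h : Bd Ps) (hs : ∀ P ∈ Ps, P ∈ Qs) : Bd Qs := by
  obtain ⟨K, hK⟩ := h
  exact ⟨K, fun V _ _ G W hq => hK V G W fun P hP => hq P (hs P hP)⟩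

/-- The wheel with four spokes. -/
def pW4 : List ℕ := [0, 1, 5, 25, 101]

/-- The clique on four vertices. -/
def pK4 : List ℕ := [0, 1, 5, 21]

/-- The diamond. -/
def pDia : List ℕ := [0, 1, 5, 22]

/-- The triangle and `P₂ + P₃` as facts. -/
def t3 : FT := .node ⟨0, pK3, []⟩ (.node ⟨0, pP23, []⟩ .nil .nil) .nil

theorem bd3 : Bd [pK3, pP23] :=
  bd_of_good (t := t3) (by decide +kernel)
    (good_clo (φ := 0) (s := 6191854521655825623639664986423297) bd_K3S (by decide +kernel))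

theorem good_T1' {α KM : ℕ} (hT : ∃ k, T1 k) (hF : F0 ∈ σ.Φ) (hr : Upto (RTat σ LL S RT) 64)
    (h : (Nat.blt α σ.n0 && (Nat.blt α 32 && fz LL fun LL => rolChk S RT (ro1 LL α KM))) = true) :
    Good σ LL S M :=
  let ⟨_, hk⟩ := hT
  good_T1 hk hF hr h

theorem good_T2' {α γ : ℕ} (hF : F0 ∈ σ.Φ) (hr : Upto (RTat σ LL S RT) 64)
    (h : (Nat.blt α γ && (Nat.blt γ σ.n0 && (Nat.ble σ.n0 32 && (Nat.beq (getc σ.c0 α γ) 1 &&
      fz LL fun LL => rolChk S RT (ro2 LL α γ))))) = true) : Good σ LL S M :=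
  let ⟨_, hk⟩ := exists_T2
  good_T2 hk hF hr h

theorem T1_of_good {M : ℕ} (hM : (allLT 6 fun X => allLT 6 fun Y => tb M (64 * X + Y)) = true)
    (hg : Good ⟨2, 115792089237316195423570985008687907853269984665640564039457584007913129639936, 35, false, [tStar, F0]⟩ (pk 256 lStar) 63 M) : ∃ k, T1 k := by
  obtain ⟨k, hk⟩ := T1star_of_good (M := M) (fun X hX Y hY => by
    have := allLT_iff.1 (allLT_iff.1 hM X hX) Y hY
    rwa [tb_eq] at this) hg
  exact T1_of_star hk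

end Pool.Agent.Lib.MP_1595d8_lc
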